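import Mathlib
import Pool.Agent.Lib.MP_6f2296_co.SD.RB
import Pool.Agent.Lib.MP_6f2296_co.SD.Defs
import Pool.Agent.Lib.MP_6f2296_co.SD.Defs2

section

set_option autoImplicit false

/-!
# Part A (Freiman-Ruzsa): definitions
-/

namespace Pool.Agent.SD

/-- `f` is a Freiman isomorphism of order `s` on `A` -/
def FIso {α β : Type} [AddCommMonoid α] [AddCommMonoid β] (s : ℕ) (A : Set α) (f : α → β) : Prop :=
  ∀ a b : Fin s → α, (∀ i, a i ∈ A) → (∀ i, b i ∈ A) →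
    (∑ i, f (a i) = ∑ i, f (b i) ↔ ∑ i, a i = ∑ i, b i)

/-- the set of the sums of `p` elements of `A` minus the sums of `q` elements of `A` -/
def dset {α : Type} [AddCommGroup α] [DecidableEq α] (p q : ℕ) (A : Finset α) : Finset α :=
  ((Fintype.piFinset fun _ : Fin p => A) ×ˢ (Fintype.piFinset fun _ : Fin q => A)).image
    fun x => ∑ i, x.1 i - ∑ i, x.2 i

theorem mem_dset {α : Type} [AddCommGroup α] [DecidableEq α] {p q : ℕ} {A : Finset α} {x : α} :
    x ∈ dset p q A ↔ ∃ (a : Fin p → α) (b : Fin q → α), (∀ i, a i ∈ A) ∧ (∀ i, b i ∈ A) ∧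
      ∑ i, a i - ∑ i, b i = x := by
  simp only [dset, Finset.mem_image, Finset.mem_product, Fintype.mem_piFinset, Prod.exists]
  constructor
  · rintro ⟨a, b, ⟨h1, h2⟩, h3⟩
    exact ⟨a, b, h1, h2, h3⟩
  · rintro ⟨a, b, h1, h2, h3⟩
    exact ⟨a, b, ⟨h1, h2⟩, h3⟩

theorem mem_dset_22 {α : Type} [AddCommGroup α] [DecidableEq α] {A : Finset α} {x : α} :
    x ∈ dset 2 2 A ↔ ∃ a ∈ A, ∃ b ∈ A, ∃ c ∈ A, ∃ d ∈ A, a + b - (c + d) = x := by
  rw [mem_dset]
  constructor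
  · rintro ⟨a, b, ha, hb, h⟩
    refine ⟨a 0, ha 0, a 1, ha 1, b 0, hb 0, b 1, hb 1, ?_⟩
    rw [← h, Fin.sum_univ_two, Fin.sum_univ_two]
  · rintro ⟨a, ha, b, hb, c, hc, d, hd, h⟩
    refine ⟨![a, b], ![c, d], ?_, ?_, ?_⟩
    · intro i
      fin_cases i
      · exact ha
      · exact hb
    · intro i
      fin_cases i
      · exact hc
      · exact hd
    · rw [← h, Fin.sum_univ_two, Fin.sum_univ_two]
      rfl

/-- the length on `ℤ ^ (k + 1)` whose ball of radius `1` is mapped by `v ↦ v 0 mod n` into the Bohr set of the frequencies `ξ i / n`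
and the radius `1 / 4` -/
noncomputable def ql (n : ℕ) {k : ℕ} (ξ : Fin k → ℤ) (v : Fin (k + 1) → ℤ) : ℝ :=
  3 * |(v 0 : ℝ)| / n + 4 * ∑ i : Fin k, |(v 0 : ℝ) * ξ i / n - v i.succ|

end Pool.Agent.SD
end

section

set_option autoImplicit false

/-!
# Task A1: a finite set of complex numbers is Freiman isomorphic to a set of integers

The subgroup `G` generated by `A` (`Submodule.span ℤ A`) is finitely generated and torsion free, so it has a finite basis (`Module.Free`, `Module.finBasis`), i.e. an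
additive isomorphism `e` from `G` to `Fin r → ℤ`. Let `T` be the finite set of the nonzero `∑ a i - ∑ b i` (`a, b : Fin s → A`), elements of `G`. For `t ∈ T` the polynomial
`∑ e(t)_i X ^ i` is not zero and has finitely many roots; so there is a natural number (integer) `M` which is a root of none of them. Put
`f x = ∑ i, e(x)_i * M ^ i` for `x ∈ G` and `f x = 0` for the other `x`. For `a, b : Fin s → A`: `∑ f (a i) - ∑ f (b i) = F (∑ a i - ∑ b i)` with `F` the homomorphism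
`x ↦ ∑ e(x)_i * M ^ i` on `G`, which is zero iff `∑ a i = ∑ b i`.
-/

namespace Pool.Agent.SD

/-- A finitely generated torsion free group embeds into the additive group of the polynomials. -/
private theorem A1_poly (G : Submodule ℤ ℂ) (hG : Module.Finite ℤ G) :
    ∃ P : G →+ Polynomial ℤ, ∀ x, P x = 0 → x = 0 := by
  classical
  have hfree : Module.Free ℤ G := inferInstance
  let β := Module.finBasis ℤ G
  let Q : G → Polynomial ℤ := fun x => ∑ i : Fin (Module.finrank ℤ G), Polynomial.monomial (i : ℕ) (β.repr x i)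
  refine ⟨⟨⟨Q, ?_⟩, ?_⟩, ?_⟩
  · show ∑ i : Fin (Module.finrank ℤ G), Polynomial.monomial (i : ℕ) (β.repr (0 : G) i) = 0
    simp
  · intro x y
    show ∑ i : Fin (Module.finrank ℤ G), Polynomial.monomial (i : ℕ) (β.repr (x + y) i) =
      ∑ i : Fin (Module.finrank ℤ G), Polynomial.monomial (i : ℕ) (β.repr x i) +
        ∑ i : Fin (Module.finrank ℤ G), Polynomial.monomial (i : ℕ) (β.repr y i)
    rw [← Finset.sum_add_distrib]
    refine Finset.sum_congr rfl fun i _ => ?_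
    rw [map_add, Finsupp.add_apply, map_add]
  · intro x hx
    have hx' : ∑ i : Fin (Module.finrank ℤ G), Polynomial.monomial (i : ℕ) (β.repr x i) = 0 := hx
    apply β.repr.injective
    rw [map_zero]
    ext j
    have h1 := congrArg (fun p => Polynomial.coeff p (j : ℕ)) hx'
    simp only [Polynomial.finsetSum_coeff, Polynomial.coeff_monomial, Polynomial.coeff_zero] at h1
    rw [Finset.sum_eq_single j] at h1
    · rw [if_pos rfl] at h1
      rw [h1]
      rfl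
    · intro i _ hij
      rw [if_neg]
      intro h
      exact hij (Fin.ext h)
    · intro h
      exact absurd (Finset.mem_univ j) h

theorem A1 (A : Finset ℂ) (s : ℕ) : ∃ f : ℂ → ℤ, FIso s (A : Set ℂ) f := by
  classical
  let G : Submodule ℤ ℂ := Submodule.span ℤ (A : Set ℂ)
  have hfin : Module.Finite ℤ G := Module.Finite.span_of_finite ℤ A.finite_toSet
  obtain ⟨P, hP⟩ := A1_poly G hfin
  have hAG : ∀ x ∈ A, x ∈ G := fun x hx => Submodule.subset_span (Finset.mem_coe.2 hx)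
  let ι : A → G := fun x => ⟨x.1, hAG x.1 x.2⟩
  let q : (Fin s → A) × (Fin s → A) → Polynomial ℤ :=
    fun ab => P (∑ i, ι (ab.1 i) - ∑ i, ι (ab.2 i))
  obtain ⟨M, hM⟩ := Infinite.exists_notMem_finset
    ((Finset.univ : Finset ((Fin s → A) × (Fin s → A))).biUnion fun ab => (q ab).roots.toFinset)
  let f : ℂ → ℤ := fun x => if h : x ∈ G then (P ⟨x, h⟩).eval M else 0
  have hf : ∀ x : A, f x.1 = (P (ι x)).eval M := fun x => dif_pos (hAG x.1 x.2)
  refine ⟨f, ?_⟩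
  intro a b ha hb
  let a' : Fin s → A := fun i => ⟨a i, ha i⟩
  let b' : Fin s → A := fun i => ⟨b i, hb i⟩
  have hsum : ∀ c : Fin s → A, ∑ i, f (c i).1 = (P (∑ i, ι (c i))).eval M := by
    intro c
    rw [map_sum, Polynomial.eval_finsetSum]
    exact Finset.sum_congr rfl fun i _ => hf (c i)
  have h1 : ∑ i, f (a i) = (P (∑ i, ι (a' i))).eval M := hsum a'
  have h2 : ∑ i, f (b i) = (P (∑ i, ι (b' i))).eval M := hsum b'
  have hval : ∀ c : Fin s → A, ((∑ i, ι (c i) : G) : ℂ) = ∑ i, (c i).1 := by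
    intro c
    rw [AddSubmonoidClass.coe_finsetSum]
  have h3 : ∑ i, a i = ((∑ i, ι (a' i) : G) : ℂ) := (hval a').symm
  have h4 : ∑ i, b i = ((∑ i, ι (b' i) : G) : ℂ) := (hval b').symm
  rw [h1, h2, h3, h4]
  constructor
  · intro h
    have h5 : (q (a', b')).eval M = 0 := by
      show (P (∑ i, ι (a' i) - ∑ i, ι (b' i))).eval M = 0
      rw [map_sub, Polynomial.eval_sub, h, sub_self]
    have h6 : q (a', b') = 0 := by
      by_contra hne
      apply hM
      rw [Finset.mem_biUnion]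
      refine ⟨(a', b'), Finset.mem_univ _, ?_⟩
      rw [Multiset.mem_toFinset, Polynomial.mem_roots hne]
      exact h5
    have h7 : ∑ i, ι (a' i) - ∑ i, ι (b' i) = 0 := hP _ h6
    rw [sub_eq_zero.1 h7]
  · intro h
    rw [Subtype.ext h]

end Pool.Agent.SD
end

section

set_option autoImplicit false

/-!
# Task A2: Ruzsa's model lemma for sets of integers

Let `D = dset s s A` (`0 ∈ D`, `D = -D`). Choose a prime `q` greater than `|x|` for all `x ∈ D` (`Nat.exists_infinite_primes`). For `l` in `[1, q - 1]` put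
`u l x = (l * x) % q` (in `[0, q)`, `Int.emod`).
(1) There is `l ∈ [1, q - 1]` such that `n ∣ u l x` for no `x ∈ D`, `x ≠ 0`: for a fixed `x ≠ 0` in `D` (not divisible by `q`) the map `l ↦ u l x` is injective from
`[1, q - 1]` to `[1, q - 1]`, and `[1, q - 1]` contains `(q - 1) / n` multiples of `n` (`Nat.card_multiples` or similar); so at most
`(D.card - 1) * ((q - 1) / n) < q - 1` numbers `l` are bad (union bound, `D.card - 1 < n`).
(2) Fix this `l`. For `a ∈ A` let `j a = s * u l a / q ∈ {0, ..., s - 1}`. By pigeonhole there is `j` such that `A' = {a ∈ A | j a = j}` has `A.card ≤ s * A'.card`.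
(3) `ψ x = (u l x : ZMod n)`. Let `a, b : Fin s → A'`, `e = ∑ u l (a i) - ∑ u l (b i)`. Since `j q ≤ s * u l (a i) < (j + 1) q` and the same for `b i`, `|e| < q`. Also
`e ≡ l * (∑ a i - ∑ b i) mod q`. If `∑ a i = ∑ b i`, then `q ∣ e`, so `e = 0`. If `∑ ψ (a i) = ∑ ψ (b i)`, then `n ∣ e` (`ZMod.intCast_zmod_eq_zero_iff_dvd` or
`ZMod.intCast_eq_intCast_iff`); let `x = ∑ a i - ∑ b i ∈ D`; if `x ≠ 0`, then `q ∤ l * x`, so `e ≠ 0`, and `e = u l x` (if `e > 0`) or `-e = u l (-x)` (if `e < 0`):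
a contradiction to (1). So `x = 0`.
(The case `s = 0` is excluded. `n ≥ 1` by `hn`.)
-/

namespace Pool.Agent.SD

/-- the number of the bad multipliers for one element -/
private theorem A2_bad (q n : ℕ) (hq : q.Prime) (x : ℤ) (hx0 : x ≠ 0) (hxq : |x| < q) :
    ((Finset.Ioc 0 (q - 1)).filter fun l : ℕ => (n : ℤ) ∣ ((l : ℤ) * x) % q).card ≤ (q - 1) / n := by
  rw [← Nat.Ioc_filter_dvd_card_eq_div (q - 1) n]
  have hq0 : (0 : ℤ) < q := by exact_mod_cast hq.pos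
  have hqp : Prime (q : ℤ) := Nat.prime_iff_prime_int.mp hq
  have hqx : ¬ (q : ℤ) ∣ x := by
    intro h
    have := Int.le_of_dvd (abs_pos.mpr hx0) ((dvd_abs _ _).mpr h)
    omega
  refine Finset.card_le_card_of_injOn (fun l : ℕ => (((l : ℤ) * x) % q).toNat) ?_ ?_
  · intro l hl
    simp only [Finset.coe_filter, Finset.mem_Ioc, Set.mem_ofPred_eq] at hl ⊢
    obtain ⟨⟨hl1, hl2⟩, hl3⟩ := hl
    have h1 : 0 ≤ ((l : ℤ) * x) % q := Int.emod_nonneg _ hq0.ne'
    have h2 : ((l : ℤ) * x) % q < q := Int.emod_lt_of_pos _ hq0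
    have h3 : ((l : ℤ) * x) % q ≠ 0 := by
      intro h
      have h4 : (q : ℤ) ∣ (l : ℤ) * x := Int.dvd_of_emod_eq_zero h
      rcases hqp.dvd_or_dvd h4 with h5 | h5
      · have h6 : q ∣ l := by exact_mod_cast h5
        have := Nat.le_of_dvd hl1 h6
        omega
      · exact hqx h5
    refine ⟨⟨by omega, by omega⟩, ?_⟩
    have h7 : ((((l : ℤ) * x) % q).toNat : ℤ) = ((l : ℤ) * x) % q := Int.toNat_of_nonneg h1
    rw [← h7] at hl3
    exact_mod_cast hl3
  · intro l hl l' hl' h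
    simp only [Finset.coe_filter, Finset.mem_Ioc, Set.mem_ofPred_eq] at hl hl' h
    have h1 : 0 ≤ ((l : ℤ) * x) % q := Int.emod_nonneg _ hq0.ne'
    have h1' : 0 ≤ ((l' : ℤ) * x) % q := Int.emod_nonneg _ hq0.ne'
    have h2 : ((l : ℤ) * x) % q = ((l' : ℤ) * x) % q := by
      rw [← Int.toNat_of_nonneg h1, ← Int.toNat_of_nonneg h1', h]
    have h3 : (q : ℤ) ∣ ((l : ℤ) - l') * x := by
      rw [sub_mul]
      exact Int.dvd_of_emod_eq_zero (Int.emod_eq_emod_iff_emod_sub_eq_zero.mp h2)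
    rcases hqp.dvd_or_dvd h3 with h5 | h5
    · by_contra hne
      have h6 : (l : ℤ) - l' ≠ 0 := by
        intro h7
        apply hne
        omega
      have h8 := Int.le_of_dvd (abs_pos.mpr h6) ((dvd_abs _ _).mpr h5)
      have h9 : |(l : ℤ) - l'| < q := by
        rw [abs_lt]
        constructor <;> omega
      omega
    · exact absurd h5 hqx

theorem A2 (A : Finset ℤ) (s n : ℕ) (hs : 1 ≤ s) (hn : (dset s s A).card ≤ n) (hn1 : 1 ≤ n) :
    ∃ A' ⊆ A, A.card ≤ s * A'.card ∧ ∃ ψ : ℤ → ZMod n, FIso s (A' : Set ℤ) ψ := by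
  classical
  rcases A.eq_empty_or_nonempty with hA | ⟨a0, ha0⟩
  · subst hA
    refine ⟨∅, Finset.Subset.refl _, by simp, fun _ => 0, ?_⟩
    intro a b ha _
    exact absurd (ha ⟨0, hs⟩) (by simp)
  set D := dset s s A with hD
  have h0D : (0 : ℤ) ∈ D := by
    rw [hD, mem_dset]
    exact ⟨fun _ => a0, fun _ => a0, fun _ => ha0, fun _ => ha0, by simp⟩
  -- the prime
  obtain ⟨q, hqb, hq⟩ := Nat.exists_infinite_primes ((D.sup fun x => x.natAbs) + 2)
  have hDq : ∀ x ∈ D, |x| < q := by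
    intro x hx
    have h1 : x.natAbs ≤ D.sup fun x => x.natAbs := Finset.le_sup (f := fun x : ℤ => x.natAbs) hx
    rw [Int.abs_eq_natAbs]
    have : x.natAbs < q := by omega
    exact_mod_cast this
  have hq0 : (0 : ℤ) < q := by exact_mod_cast hq.pos
  have hqp : Prime (q : ℤ) := Nat.prime_iff_prime_int.mp hq
  -- the multiplier
  obtain ⟨l, hl, hlD⟩ : ∃ l ∈ Finset.Ioc 0 (q - 1), ∀ x ∈ D, x ≠ 0 → ¬ (n : ℤ) ∣ ((l : ℤ) * x) % q := by
    by_contra hcon
    push Not at hcon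
    have hsub : Finset.Ioc 0 (q - 1) ⊆ (D.erase 0).biUnion fun x =>
        (Finset.Ioc 0 (q - 1)).filter fun l : ℕ => (n : ℤ) ∣ ((l : ℤ) * x) % q := by
      intro l hl
      obtain ⟨x, hx, hx0, hxd⟩ := hcon l hl
      rw [Finset.mem_biUnion]
      exact ⟨x, Finset.mem_erase.mpr ⟨hx0, hx⟩, Finset.mem_filter.mpr ⟨hl, hxd⟩⟩
    have h1 := Finset.card_le_card hsub
    have h2 : ((D.erase 0).biUnion fun x =>
        (Finset.Ioc 0 (q - 1)).filter fun l : ℕ => (n : ℤ) ∣ ((l : ℤ) * x) % q).card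
          ≤ (D.erase 0).card * ((q - 1) / n) := by
      refine Finset.card_biUnion_le_card_mul _ _ _ ?_
      intro x hx
      rw [Finset.mem_erase] at hx
      exact A2_bad q n hq x hx.1 (hDq x hx.2)
    rw [Nat.card_Ioc] at h1
    rw [Finset.card_erase_of_mem h0D] at h2
    have hq2 := hq.two_le
    have h3 : (D.card - 1) * ((q - 1) / n) ≤ (n - 1) * ((q - 1) / n) :=
      Nat.mul_le_mul_right _ (by omega)
    have h4 : n * ((q - 1) / n) ≤ q - 1 := Nat.mul_div_le _ _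
    rcases Nat.eq_zero_or_pos ((q - 1) / n) with h5 | h5
    · rw [h5] at h3 h2
      omega
    · have h6 : (n - 1) * ((q - 1) / n) < n * ((q - 1) / n) :=
        Nat.mul_lt_mul_of_pos_right (by omega) h5
      omega
  rw [Finset.mem_Ioc] at hl
  obtain ⟨hl0, hlq⟩ := hl
  have hql : ¬ (q : ℤ) ∣ (l : ℤ) := by
    intro h
    have h6 : q ∣ l := by exact_mod_cast h
    have := Nat.le_of_dvd hl0 h6
    have := hq.two_le
    omega
  set U : ℤ → ℤ := fun x => ((l : ℤ) * x) % q with hU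
  have hU0 : ∀ x, 0 ≤ U x := fun x => Int.emod_nonneg _ hq0.ne'
  have hUq : ∀ x, U x < q := fun x => Int.emod_lt_of_pos _ hq0
  -- the fibre
  set J : ℤ → ℤ := fun x => (s : ℤ) * U x / q with hJ
  have hs0 : (0 : ℤ) < s := by exact_mod_cast hs
  have hJm : ∀ a ∈ A, J a ∈ Finset.Ico (0 : ℤ) s := by
    intro a _
    rw [Finset.mem_Ico]
    constructor
    · exact Int.ediv_nonneg (mul_nonneg hs0.le (hU0 a)) hq0.le
    · exact Int.ediv_lt_of_lt_mul hq0 (mul_lt_mul_of_pos_left (hUq a) hs0)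
  obtain ⟨j, hj, hjmax⟩ := Finset.exists_max_image (Finset.Ico (0 : ℤ) s)
    (fun j => (A.filter fun a => J a = j).card) ⟨0, Finset.mem_Ico.mpr ⟨le_rfl, hs0⟩⟩
  refine ⟨A.filter fun a => J a = j, Finset.filter_subset _ _, ?_, fun x => ((U x : ℤ) : ZMod n), ?_⟩
  · have h1 := Finset.card_le_mul_card_image_of_maps_to hJm _ hjmax
    rw [Int.card_Ico, mul_comm] at h1
    simpa using h1
  intro a b ha hb
  have ha' : ∀ i, a i ∈ A ∧ J (a i) = j := by
    intro i
    have := ha i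
    simpa using this
  have hb' : ∀ i, b i ∈ A ∧ J (b i) = j := by
    intro i
    have := hb i
    simpa using this
  have key : ∀ c : Fin s → ℤ, (∀ i, c i ∈ A ∧ J (c i) = j) →
      j * q ≤ ∑ i, U (c i) ∧ ∑ i, U (c i) < (j + 1) * q := by
    intro c hc
    have h1 : ∀ i, j * q ≤ s * U (c i) := by
      intro i
      rw [← (hc i).2]
      exact Int.ediv_mul_le _ hq0.ne'
    have h2 : ∀ i, s * U (c i) < (j + 1) * q := by
      intro i
      rw [← (hc i).2]
      exact Int.lt_ediv_add_one_mul_self _ hq0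
    have h3 : ∑ _i : Fin s, j * (q : ℤ) ≤ ∑ i, (s : ℤ) * U (c i) := Finset.sum_le_sum fun i _ => h1 i
    have h4 : ∑ i, (s : ℤ) * U (c i) < ∑ _i : Fin s, (j + 1) * (q : ℤ) := by
      refine Finset.sum_lt_sum_of_nonempty ⟨⟨0, hs⟩, Finset.mem_univ _⟩ fun i _ => h2 i
    rw [Finset.sum_const, Finset.card_univ, Fintype.card_fin, nsmul_eq_mul, ← Finset.mul_sum] at h3 h4
    exact ⟨le_of_mul_le_mul_left h3 hs0, lt_of_mul_lt_mul_left h4 hs0.le⟩
  obtain ⟨hSa1, hSa2⟩ := key a ha'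
  obtain ⟨hSb1, hSb2⟩ := key b hb'
  set e : ℤ := ∑ i, U (a i) - ∑ i, U (b i) with he
  have hadd : (j + 1) * (q : ℤ) = j * q + q := by ring
  have he1 : e < q := by rw [he]; omega
  have he2 : -(q : ℤ) < e := by rw [he]; omega
  -- the congruence
  have hcong : (q : ℤ) ∣ e - (l : ℤ) * (∑ i, a i - ∑ i, b i) := by
    have h1 : ∀ c : Fin s → ℤ, (q : ℤ) ∣ ∑ i, U (c i) - (l : ℤ) * ∑ i, c i := by
      intro c
      rw [Finset.mul_sum, ← Finset.sum_sub_distrib]
      refine Finset.dvd_sum fun i _ => ?_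
      have h2 : U (c i) - (l : ℤ) * c i = -((q : ℤ) * (((l : ℤ) * c i) / q)) := by
        have := Int.emod_add_mul_ediv ((l : ℤ) * c i) q
        simp only [hU]
        linarith
      rw [h2]
      exact (Dvd.intro _ rfl).neg_right
    have h3 : e - (l : ℤ) * (∑ i, a i - ∑ i, b i)
        = (∑ i, U (a i) - (l : ℤ) * ∑ i, a i) - (∑ i, U (b i) - (l : ℤ) * ∑ i, b i) := by
      rw [he]; ring
    rw [h3]
    exact dvd_sub (h1 a) (h1 b)
  have hcast : (∑ i, ((U (a i) : ℤ) : ZMod n)) - ∑ i, ((U (b i) : ℤ) : ZMod n) = ((e : ℤ) : ZMod n) := by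
    rw [he]
    push_cast
    rfl
  have hsmall : (q : ℤ) ∣ e → e = 0 := by
    intro h
    by_contra hne
    have := Int.le_of_dvd (abs_pos.mpr hne) ((dvd_abs _ _).mpr h)
    have h9 : |e| < q := abs_lt.mpr ⟨he2, he1⟩
    omega
  constructor
  · intro h
    have hne : (n : ℤ) ∣ e := by
      rw [← ZMod.intCast_zmod_eq_zero_iff_dvd, ← hcast, h, sub_self]
    by_contra hx
    set x : ℤ := ∑ i, a i - ∑ i, b i with hxd
    have hx0 : x ≠ 0 := fun h' => hx (sub_eq_zero.mp h')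
    have hxD : x ∈ D := by
      rw [hD, mem_dset]
      exact ⟨a, b, fun i => (ha' i).1, fun i => (hb' i).1, rfl⟩
    have hxD' : -x ∈ D := by
      rw [hD, mem_dset]
      exact ⟨b, a, fun i => (hb' i).1, fun i => (ha' i).1, by rw [hxd]; ring⟩
    have hqx : ¬ (q : ℤ) ∣ (l : ℤ) * x := by
      intro h'
      rcases hqp.dvd_or_dvd h' with h5 | h5
      · exact hql h5
      · have h6 := Int.le_of_dvd (abs_pos.mpr hx0) ((dvd_abs _ _).mpr h5)
        have h7 := hDq x hxD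
        omega
    have hmod : e % q = ((l : ℤ) * x) % q := Int.emod_eq_emod_iff_emod_sub_eq_zero.mpr
      (Int.emod_eq_zero_of_dvd hcong)
    rcases lt_trichotomy e 0 with h8 | h8 | h8
    · have h9 : (-e) % q = ((l : ℤ) * (-x)) % q := by
        rw [mul_neg, Int.emod_eq_emod_iff_emod_sub_eq_zero]
        refine Int.emod_eq_zero_of_dvd ?_
        have : -e - -((l : ℤ) * x) = -(e - (l : ℤ) * x) := by ring
        rw [this]
        exact hcong.neg_right
      have h10 : (-e) % q = -e := Int.emod_eq_of_lt (by omega) (by omega)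
      refine hlD (-x) hxD' (neg_ne_zero.mpr hx0) ?_
      rw [← h9, h10]
      exact hne.neg_right
    · apply hqx
      rw [h8] at hcong
      have : (0 : ℤ) - (l : ℤ) * x = -((l : ℤ) * x) := by ring
      rw [this] at hcong
      exact (dvd_neg.mp hcong)
    · have h10 : e % q = e := Int.emod_eq_of_lt h8.le he1
      refine hlD x hxD hx0 ?_
      rw [← hmod, h10]
      exact hne
  · intro h
    have h1 : e = 0 := by
      apply hsmall
      rw [h, sub_self, mul_zero, sub_zero] at hcong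
      exact hcong
    rw [h1, Int.cast_zero] at hcast
    exact sub_eq_zero.mp hcast

end Pool.Agent.SD
end

section

set_option autoImplicit false

/-!
# Task A3b: Freiman isomorphisms

`A3_iso`: for a Freiman isomorphism `f` of order `p + q` on `A`: `∑ f (a i) - ∑ f (b i) ↦ ∑ a i - ∑ b i` is a well defined injective map from
`dset p q (A.image f)` onto `dset p q A`: `∑ f (a i) - ∑ f (b i) = ∑ f (a' i) - ∑ f (b' i)` iff `∑ f (a i) + ∑ f (b' i) = ∑ f (a' i) + ∑ f (b i)` (sums over `Fin (p + q)`,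
`Fin.append`, `Fin.sum_univ_add`).
`A3_sub`: a Freiman isomorphism of order `s` is one of every order `t ≤ s` (if `A` is not empty: add the same element `s - t` times to both sides; empty: `t = 0` trivial, else no `a`).
`A3_inj`: `t = 1`.
`A3_comp`: composition.
-/

namespace Pool.Agent.SD

private theorem A3b_card_le {ι α β : Type} [DecidableEq α] [DecidableEq β] [Inhabited α]
    (S : Finset ι) (u : ι → α) (v : ι → β) (h : ∀ x ∈ S, ∀ y ∈ S, v x = v y → u x = u y) :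
    (S.image u).card ≤ (S.image v).card := by
  classical
  obtain ⟨k, hk⟩ : ∃ k : β → α, ∀ x ∈ S, k (v x) = u x := by
    refine ⟨fun z => if hz : ∃ x ∈ S, v x = z then u hz.choose else default, fun x hx => ?_⟩
    have hz : ∃ y ∈ S, v y = v x := ⟨x, hx, rfl⟩
    show (if hz : ∃ y ∈ S, v y = v x then u hz.choose else default) = u x
    rw [dif_pos hz]
    exact h _ hz.choose_spec.1 _ hx hz.choose_spec.2
  have h1 : S.image u ⊆ (S.image v).image k := by
    intro z hz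
    obtain ⟨x, hx, rfl⟩ := Finset.mem_image.1 hz
    exact Finset.mem_image.2 ⟨v x, Finset.mem_image_of_mem v hx, hk x hx⟩
  exact (Finset.card_le_card h1).trans Finset.card_image_le

private theorem A3b_append {α β : Type} [AddCommGroup β] {p q : ℕ} (g : α → β) (a : Fin p → α)
    (b : Fin q → α) : ∑ i, g (Fin.append a b i) = ∑ i, g (a i) + ∑ i, g (b i) := by
  rw [Fin.sum_univ_add]
  congr 1
  · exact Finset.sum_congr rfl fun i _ => by rw [Fin.append_left]
  · exact Finset.sum_congr rfl fun i _ => by rw [Fin.append_right]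

private theorem A3b_append_mem {α : Type} {p q : ℕ} {A : Set α} {a : Fin p → α} {b : Fin q → α}
    (ha : ∀ i, a i ∈ A) (hb : ∀ i, b i ∈ A) (i : Fin (p + q)) : Fin.append a b i ∈ A := by
  induction i using Fin.addCases with
  | left i => rw [Fin.append_left]; exact ha i
  | right i => rw [Fin.append_right]; exact hb i

theorem A3_iso {α β : Type} [AddCommGroup α] [DecidableEq α] [AddCommGroup β] [DecidableEq β] (p q : ℕ)
    (A : Finset α) (f : α → β) (hf : FIso (p + q) (A : Set α) f) :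
    (dset p q (A.image f)).card = (dset p q A).card := by
  classical
  obtain ⟨S, hS⟩ : ∃ S : Finset ((Fin p → α) × (Fin q → α)),
      S = (Fintype.piFinset fun _ : Fin p => A) ×ˢ (Fintype.piFinset fun _ : Fin q => A) := ⟨_, rfl⟩
  have hmem : ∀ x, x ∈ S ↔ (∀ i, x.1 i ∈ A) ∧ ∀ i, x.2 i ∈ A := by
    intro x
    rw [hS, Finset.mem_product, Fintype.mem_piFinset, Fintype.mem_piFinset]
  have h1 : dset p q A = S.image fun x => ∑ i, x.1 i - ∑ i, x.2 i := by
    rw [hS]; rfl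
  have h2 : dset p q (A.image f) = S.image fun x => ∑ i, f (x.1 i) - ∑ i, f (x.2 i) := by
    ext z
    rw [mem_dset, Finset.mem_image]
    constructor
    · rintro ⟨a, b, ha, hb, h⟩
      choose a' ha' using fun i => Finset.mem_image.1 (ha i)
      choose b' hb' using fun i => Finset.mem_image.1 (hb i)
      refine ⟨(a', b'), (hmem _).2 ⟨fun i => (ha' i).1, fun i => (hb' i).1⟩, ?_⟩
      rw [← h]
      show ∑ i, f (a' i) - ∑ i, f (b' i) = _
      rw [Finset.sum_congr rfl fun i _ => (ha' i).2, Finset.sum_congr rfl fun i _ => (hb' i).2]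
    · rintro ⟨x, hx, h⟩
      have hx' := (hmem x).1 hx
      exact ⟨fun i => f (x.1 i), fun i => f (x.2 i), fun i => Finset.mem_image_of_mem f (hx'.1 i),
        fun i => Finset.mem_image_of_mem f (hx'.2 i), h⟩
  have key : ∀ x ∈ S, ∀ y ∈ S, (∑ i, f (x.1 i) - ∑ i, f (x.2 i) = ∑ i, f (y.1 i) - ∑ i, f (y.2 i) ↔
      ∑ i, x.1 i - ∑ i, x.2 i = ∑ i, y.1 i - ∑ i, y.2 i) := by
    intro x hx y hy
    have hx' := (hmem x).1 hx
    have hy' := (hmem y).1 hy
    rw [sub_eq_sub_iff_add_eq_add, sub_eq_sub_iff_add_eq_add, ← A3b_append f, ← A3b_append f,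
      ← A3b_append (fun z : α => z), ← A3b_append (fun z : α => z)]
    exact hf (Fin.append x.1 y.2) (Fin.append y.1 x.2)
      (fun i => A3b_append_mem (A := (A : Set α)) hx'.1 hy'.2 i)
      (fun i => A3b_append_mem (A := (A : Set α)) hy'.1 hx'.2 i)
  rw [h1, h2]
  have : Inhabited α := ⟨0⟩
  have : Inhabited β := ⟨0⟩
  refine le_antisymm ?_ ?_
  · exact A3b_card_le S _ _ fun x hx y hy h => (key x hx y hy).2 h
  · exact A3b_card_le S _ _ fun x hx y hy h => (key x hx y hy).1 h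

theorem A3_sub {α β : Type} [AddCommGroup α] [AddCommGroup β] (s t : ℕ) (h : t ≤ s) (A : Set α) (f : α → β)
    (hf : FIso s A f) : FIso t A f := by
  obtain ⟨r, rfl⟩ := Nat.exists_eq_add_of_le h
  intro a b ha hb
  rcases Nat.eq_zero_or_pos t with h0 | h0
  · subst h0
    simp
  · obtain ⟨c, hc⟩ : ∃ c, c ∈ A := ⟨a ⟨0, h0⟩, ha _⟩
    have h1 := hf (Fin.append a fun _ => c) (Fin.append b fun _ => c)
      (A3b_append_mem ha fun _ => hc) (A3b_append_mem hb fun _ => hc)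
    rw [A3b_append f, A3b_append f] at h1
    have h2 := A3b_append (fun z : α => z) a (fun _ : Fin r => c)
    have h3 := A3b_append (fun z : α => z) b (fun _ : Fin r => c)
    beta_reduce at h2 h3
    rw [h2, h3, add_left_inj, add_left_inj] at h1
    exact h1

theorem A3_inj {α β : Type} [AddCommGroup α] [AddCommGroup β] (s : ℕ) (h : 1 ≤ s) (A : Set α) (f : α → β)
    (hf : FIso s A f) : Set.InjOn f A := by
  intro a ha b hb hab
  have h1 := A3_sub s 1 h A f hf (fun _ => a) (fun _ => b) (fun _ => ha) (fun _ => hb)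
  simp only [Finset.univ_unique, Finset.sum_singleton] at h1
  exact h1.1 hab

theorem A3_comp {α β γ : Type} [AddCommGroup α] [AddCommGroup β] [AddCommGroup γ] (s : ℕ) (A : Set α)
    (f : α → β) (g : β → γ) (hf : FIso s A f) (hg : FIso s (f '' A) g) : FIso s A (g ∘ f) := by
  intro a b ha hb
  exact (hg (fun i => f (a i)) (fun i => f (b i)) (fun i => ⟨a i, ha i, rfl⟩)
    (fun i => ⟨b i, hb i, rfl⟩)).trans (hf a b ha hb)

end Pool.Agent.SD
end

section

set_option autoImplicit false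

/-!
# Task A4: Ruzsa's model lemma for sets of complex numbers

`A1` with `s = 12` gives `f : ℂ → ℤ`; `A3_iso` (`p = q = 6`): `dset 6 6 (A.image f)` has as many elements as `dset 6 6 A`. `A2` with `s = 6` for `A.image f` gives
`B' ⊆ A.image f` and `ψ`. Take `A' = {a ∈ A | f a ∈ B'}` (`A'.image f = B'`, `A'.card = B'.card` and `(A.image f).card = A.card` by `A3_inj`) and `ψ ∘ f` (`A3_sub`, `A3_comp`).
-/

namespace Pool.Agent.SD

theorem A4 (A : Finset ℂ) (n : ℕ) (hn : (dset 6 6 A).card ≤ n) (hn1 : 1 ≤ n) :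
    ∃ A' ⊆ A, A.card ≤ 6 * A'.card ∧ ∃ ψ : ℂ → ZMod n, FIso 6 (A' : Set ℂ) ψ := by
  classical
  obtain ⟨f, hf⟩ := A1 A 12
  have h1 : (dset 6 6 (A.image f)).card = (dset 6 6 A).card := A3_iso 6 6 A f hf
  have h2 : (dset 6 6 (A.image f)).card ≤ n := h1.trans_le hn
  obtain ⟨B', hB, hB2, ψ, hψ⟩ := A2 (A.image f) 6 n (by norm_num) h2 hn1
  have hinj : Set.InjOn f (A : Set ℂ) := A3_inj 12 (by norm_num) _ f hf
  have hsub : A.filter (fun a => f a ∈ B') ⊆ A := Finset.filter_subset _ _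
  have himg : (A.filter (fun a => f a ∈ B')).image f = B' := by
    ext x
    simp only [Finset.mem_image, Finset.mem_filter]
    constructor
    · rintro ⟨a, ⟨_, ha⟩, rfl⟩
      exact ha
    · intro hx
      obtain ⟨a, ha, rfl⟩ := Finset.mem_image.1 (hB hx)
      exact ⟨a, ⟨ha, hx⟩, rfl⟩
  refine ⟨A.filter (fun a => f a ∈ B'), hsub, ?_, ψ ∘ f, ?_⟩
  · have h3 : (A.image f).card = A.card := Finset.card_image_of_injOn hinj
    have h4 : B'.card ≤ (A.filter (fun a => f a ∈ B')).card := by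
      rw [← himg]
      exact Finset.card_image_le.trans (le_of_eq (by rw [himg]))
    rw [← h3]
    exact hB2.trans (Nat.mul_le_mul_left 6 h4)
  · have h5 : FIso 12 ((A.filter (fun a => f a ∈ B') : Finset ℂ) : Set ℂ) f :=
      fun a b ha hb => hf a b (fun i => hsub (ha i)) (fun i => hsub (hb i))
    refine A3_comp 6 _ f ψ (A3_sub 12 6 (by norm_num) _ f h5) ?_
    have h6 : f '' ((A.filter (fun a => f a ∈ B') : Finset ℂ) : Set ℂ) = (B' : Set ℤ) := by
      rw [← himg, Finset.coe_image]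
      rw [himg]
    rw [h6]
    exact hψ

end Pool.Agent.SD
end

section

set_option autoImplicit false

/-!
# Task A5: Bogolyubov's lemma in `ZMod n`

Let `e x = exp (2 π i x / n)` for an integer `x` (depends on `x mod n` only; or use `ZMod.stdAddChar`, `ZMod.stdAddChar_coe`, `AddChar.sum_mulShift`,
`ZMod.isPrimitive_stdAddChar`), `F ξ = ∑ b ∈ B, e (b ξ)` for `ξ ∈ ZMod n`.
(1) Parseval: `∑ ξ, ‖F ξ‖ ^ 2 = n * B.card` (orthogonality).
(2) For `x ∈ ZMod n`: `∑ ξ, ‖F ξ‖ ^ 4 * Re e (x ξ) = n * #{(a, b, c, d) ∈ B ^ 4 | a + b - c - d = x}` up to the sign of `x` (`‖F ξ‖ ^ 4 = F ξ ^ 2 * conj (F ξ) ^ 2`; the sum without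
`Re` is this number, so take real parts). It is enough to know: if there is no such quadruple, then the sum is zero.
(3) Let `Γ` be the set of the `ξ` with `‖F ξ‖ ^ 2 ≥ (α / 2) * B.card ^ 2`. By (1) `Γ.card * (α / 2) * B.card ^ 2 ≤ n * B.card`, so `Γ.card ≤ 2 / α ^ 2` as `α n ≤ B.card`.
(4) If `x` is such that for all `ξ ∈ Γ` the number `x ξ / n` has distance at most `1 / 4` from an integer, then `Re e (x ξ) = cos (2 π (x ξ / n - m)) ≥ 0` for `ξ ∈ Γ`
(`Real.cos_nonneg_of_neg_pi_div_two_le_of_le`). The term `ξ = 0` is `B.card ^ 4`, and (if `B` is not empty, which follows from `0 < α`, `1 ≤ n`)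
`∑ ξ ∉ Γ, ‖F ξ‖ ^ 4 < (α / 2) B.card ^ 2 * n B.card ≤ B.card ^ 4 / 2` or `≤`; hence the sum in (2) is positive (note `0 ∈ Γ` as `α ≤ 2`: `α n ≤ B.card ≤ n`). So there is a quadruple.
(5) Enumerate `Γ` by `Fin k` (`k = Γ.card`) and take for `ξ i` the representative `ZMod.val`.
-/

open scoped ComplexConjugate

namespace Pool.Agent.SD

private noncomputable def A5F (n : ℕ) [NeZero n] (B : Finset (ZMod n)) (ξ : ZMod n) : ℂ :=
  ∑ b ∈ B, ZMod.stdAddChar (ξ * b)

private theorem A5_conj (n : ℕ) [NeZero n] (y : ZMod n) :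
    conj (ZMod.stdAddChar y) = ZMod.stdAddChar (-y) := by
  rw [ZMod.stdAddChar_apply, ZMod.stdAddChar_apply, AddChar.map_neg_eq_inv, Circle.coe_inv_eq_conj]

private theorem A5_norm (n : ℕ) [NeZero n] (y : ZMod n) : ‖(ZMod.stdAddChar y : ℂ)‖ = 1 := by
  rw [ZMod.stdAddChar_apply, Circle.norm_coe]

private theorem A5_sum (n : ℕ) [NeZero n] (y : ZMod n) :
    ∑ ξ : ZMod n, (ZMod.stdAddChar (ξ * y) : ℂ) = if y = 0 then (n : ℂ) else 0 := by
  have h := AddChar.sum_mulShift (R := ZMod n) (R' := ℂ) y (ZMod.isPrimitive_stdAddChar n)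
  rw [h]
  split_ifs
  · rw [ZMod.card]
  · exact Nat.cast_zero

private theorem A5_parseval (n : ℕ) [NeZero n] (B : Finset (ZMod n)) :
    ∑ ξ : ZMod n, ‖A5F n B ξ‖ ^ 2 = n * B.card := by
  have h1 : ∀ ξ : ZMod n, ((‖A5F n B ξ‖ ^ 2 : ℝ) : ℂ) =
      ∑ a ∈ B, ∑ b ∈ B, ZMod.stdAddChar (ξ * (a - b)) := by
    intro ξ
    have h2 : ∀ a ∈ B, ∀ b ∈ B, (ZMod.stdAddChar (ξ * (a - b)) : ℂ) =
        ZMod.stdAddChar (ξ * a) * conj (ZMod.stdAddChar (ξ * b)) := by
      intro a _ b _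
      rw [A5_conj, ← AddChar.map_add_eq_mul]
      congr 1
      ring
    rw [Finset.sum_congr rfl fun a ha => Finset.sum_congr rfl fun b hb => h2 a ha b hb]
    simp only [← Finset.mul_sum, ← Finset.sum_mul]
    rw [← map_sum (starRingEnd ℂ)]
    have h3 : (((‖A5F n B ξ‖ ^ 2 : ℝ)) : ℂ) = A5F n B ξ * conj (A5F n B ξ) := by
      rw [Complex.mul_conj, Complex.normSq_eq_norm_sq]
    rw [h3]
    rfl
  have h4 : ((∑ ξ : ZMod n, ‖A5F n B ξ‖ ^ 2 : ℝ) : ℂ) = ((n * B.card : ℝ) : ℂ) := by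
    rw [Complex.ofReal_sum, Finset.sum_congr rfl fun ξ _ => h1 ξ, Finset.sum_comm]
    have h5 : ∀ a ∈ B, ∑ ξ : ZMod n, ∑ b ∈ B, (ZMod.stdAddChar (ξ * (a - b)) : ℂ) = n := by
      intro a ha
      rw [Finset.sum_comm]
      rw [Finset.sum_congr rfl fun b _ => A5_sum n (a - b)]
      rw [Finset.sum_eq_single a]
      · rw [if_pos (sub_self a)]
      · intro b _ hb
        rw [if_neg (sub_ne_zero.mpr hb.symm)]
      · intro h
        exact absurd ha h
    rw [Finset.sum_congr rfl h5, Finset.sum_const, nsmul_eq_mul]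
    push_cast
    ring
  exact_mod_cast h4

private theorem A5_four (n : ℕ) [NeZero n] (B : Finset (ZMod n)) (x : ZMod n)
    (hx : x ∉ dset 2 2 B) :
    ∑ ξ : ZMod n, (‖A5F n B ξ‖ ^ 2) ^ 2 * (ZMod.stdAddChar (ξ * (-x)) : ℂ).re = 0 := by
  have h1 : ∀ ξ : ZMod n, (((‖A5F n B ξ‖ ^ 2) ^ 2 : ℝ) : ℂ) * ZMod.stdAddChar (ξ * (-x)) =
      ∑ a ∈ B, ∑ b ∈ B, ∑ c ∈ B, ∑ d ∈ B, ZMod.stdAddChar (ξ * (a + b - (c + d) - x)) := by
    intro ξ
    have h2 : ∀ a ∈ B, ∀ b ∈ B, ∀ c ∈ B, ∀ d ∈ B,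
        (ZMod.stdAddChar (ξ * (a + b - (c + d) - x)) : ℂ) =
        ZMod.stdAddChar (ξ * a) * (ZMod.stdAddChar (ξ * b) * (conj (ZMod.stdAddChar (ξ * c)) *
          (conj (ZMod.stdAddChar (ξ * d)) * ZMod.stdAddChar (ξ * (-x))))) := by
      intro a _ b _ c _ d _
      rw [A5_conj, A5_conj, ← AddChar.map_add_eq_mul, ← AddChar.map_add_eq_mul,
        ← AddChar.map_add_eq_mul, ← AddChar.map_add_eq_mul]
      congr 1
      ring
    rw [Finset.sum_congr rfl fun a ha => Finset.sum_congr rfl fun b hb =>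
      Finset.sum_congr rfl fun c hc => Finset.sum_congr rfl fun d hd => h2 a ha b hb c hc d hd]
    simp only [← Finset.mul_sum, ← Finset.sum_mul]
    rw [← map_sum (starRingEnd ℂ)]
    have h3 : (((‖A5F n B ξ‖ ^ 2 : ℝ)) : ℂ) = A5F n B ξ * conj (A5F n B ξ) := by
      rw [Complex.mul_conj, Complex.normSq_eq_norm_sq]
    rw [Complex.ofReal_pow, h3]
    have h4 : (∑ b ∈ B, ZMod.stdAddChar (ξ * b) : ℂ) = A5F n B ξ := rfl
    rw [h4]
    ring
  have h5 : ∑ ξ : ZMod n, (((‖A5F n B ξ‖ ^ 2) ^ 2 : ℝ) : ℂ) * ZMod.stdAddChar (ξ * (-x)) = 0 := by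
    rw [Finset.sum_congr rfl fun ξ _ => h1 ξ, Finset.sum_comm]
    refine Finset.sum_eq_zero fun a ha => ?_
    rw [Finset.sum_comm]
    refine Finset.sum_eq_zero fun b hb => ?_
    rw [Finset.sum_comm]
    refine Finset.sum_eq_zero fun c hc => ?_
    rw [Finset.sum_comm]
    refine Finset.sum_eq_zero fun d hd => ?_
    rw [A5_sum, if_neg]
    intro h
    apply hx
    rw [mem_dset_22]
    exact ⟨a, ha, b, hb, c, hc, d, hd, sub_eq_zero.mp h⟩
  have h6 := congrArg Complex.re h5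
  rw [Complex.re_sum, Complex.zero_re] at h6
  rw [← h6]
  refine Finset.sum_congr rfl fun ξ _ => ?_
  rw [Complex.re_ofReal_mul]

private theorem A5_cos (n : ℕ) [NeZero n] (x : ℤ) (ξ : ZMod n)
    (h : ∃ m : ℤ, |(x : ℝ) * ((ξ.val : ℕ) : ℤ) / n - m| ≤ 1 / 4) :
    0 ≤ (ZMod.stdAddChar (ξ * (-(x : ZMod n))) : ℂ).re := by
  obtain ⟨m, hm⟩ := h
  have h1 : ξ * (-(x : ZMod n)) = ((-(x * ((ξ.val : ℕ) : ℤ)) : ℤ) : ZMod n) := by
    push_cast
    rw [ZMod.natCast_zmod_val]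
    ring
  rw [h1, ZMod.stdAddChar_coe]
  have h2 : (2 * (Real.pi : ℂ) * Complex.I * ((-(x * ((ξ.val : ℕ) : ℤ)) : ℤ) : ℂ) / (n : ℂ)) =
      (((-(2 * Real.pi * ((x : ℝ) * ((ξ.val : ℕ) : ℤ) / n))) : ℝ) : ℂ) * Complex.I := by
    push_cast
    ring
  rw [h2, Complex.exp_ofReal_mul_I_re, Real.cos_neg]
  have h3 : Real.cos (2 * Real.pi * ((x : ℝ) * ((ξ.val : ℕ) : ℤ) / n)) =
      Real.cos (2 * Real.pi * ((x : ℝ) * ((ξ.val : ℕ) : ℤ) / n - m)) := by
    have h4 : 2 * Real.pi * ((x : ℝ) * ((ξ.val : ℕ) : ℤ) / n - m) =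
        2 * Real.pi * ((x : ℝ) * ((ξ.val : ℕ) : ℤ) / n) - m * (2 * Real.pi) := by ring
    rw [h4, Real.cos_sub_int_mul_two_pi]
  rw [h3]
  rw [abs_le] at hm
  have hp := Real.pi_pos
  apply Real.cos_nonneg_of_neg_pi_div_two_le_of_le
  · nlinarith
  · nlinarith

theorem A5 (n : ℕ) (hn : 1 ≤ n) (B : Finset (ZMod n)) (α : ℝ) (hα : 0 < α) (hB : α * n ≤ B.card) :
    ∃ k : ℕ, (k : ℝ) ≤ 2 / α ^ 2 ∧ ∃ ξ : Fin k → ℤ, ∀ x : ℤ,
      (∀ i, ∃ m : ℤ, |(x : ℝ) * ξ i / n - m| ≤ 1 / 4) → (x : ZMod n) ∈ dset 2 2 B := by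
  have hne : NeZero n := ⟨by omega⟩
  have hn0 : (0 : ℝ) < n := by exact_mod_cast hn
  have hb0 : (0 : ℝ) < B.card := lt_of_lt_of_le (mul_pos hα hn0) hB
  have hbn : (B.card : ℝ) ≤ n := by
    have h := Finset.card_le_univ B
    rw [ZMod.card] at h
    exact_mod_cast h
  have hα1 : α ≤ 1 := by
    by_contra h
    have h1 : (1 : ℝ) * n < α * n := mul_lt_mul_of_pos_right (not_le.mp h) hn0
    linarith
  have hpar := A5_parseval n B
  let S : ZMod n → ℝ := fun ξ => ‖A5F n B ξ‖ ^ 2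
  have hS0 : ∀ ξ, 0 ≤ S ξ := fun ξ => sq_nonneg _
  have hSsum : ∑ ξ : ZMod n, S ξ = n * B.card := hpar
  let Γ : Finset (ZMod n) := Finset.univ.filter fun ξ => α / 2 * (B.card : ℝ) ^ 2 ≤ S ξ
  have hmemΓ : ∀ ξ, ξ ∈ Γ ↔ α / 2 * (B.card : ℝ) ^ 2 ≤ S ξ := by
    intro ξ
    simp only [Γ, Finset.mem_filter, Finset.mem_univ, true_and]
  have hSzero : S 0 = (B.card : ℝ) ^ 2 := by
    have h1 : A5F n B 0 = (B.card : ℂ) := by
      unfold A5F
      simp only [zero_mul, AddChar.map_zero_eq_one, Finset.sum_const, nsmul_eq_mul, mul_one]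
    simp only [S, h1, Complex.norm_natCast]
  have h0Γ : (0 : ZMod n) ∈ Γ := by
    rw [hmemΓ, hSzero]
    nlinarith [sq_nonneg (B.card : ℝ)]
  refine ⟨Γ.card, ?_, fun i => (((Γ.equivFin.symm i : ZMod n).val : ℕ) : ℤ), ?_⟩
  · have h1 : (Γ.card : ℝ) * (α / 2 * (B.card : ℝ) ^ 2) ≤ n * B.card := by
      rw [← hSsum]
      calc (Γ.card : ℝ) * (α / 2 * (B.card : ℝ) ^ 2) = ∑ ξ ∈ Γ, α / 2 * (B.card : ℝ) ^ 2 := by
            rw [Finset.sum_const, nsmul_eq_mul]
        _ ≤ ∑ ξ ∈ Γ, S ξ := Finset.sum_le_sum fun ξ h => (hmemΓ ξ).mp h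
        _ ≤ ∑ ξ : ZMod n, S ξ :=
            Finset.sum_le_univ_sum_of_nonneg hS0
    have h2 : (Γ.card : ℝ) * (α / 2 * (B.card : ℝ)) ≤ n := by
      have h3 : ((Γ.card : ℝ) * (α / 2 * (B.card : ℝ))) * B.card ≤ n * B.card := by
        calc ((Γ.card : ℝ) * (α / 2 * (B.card : ℝ))) * B.card =
            (Γ.card : ℝ) * (α / 2 * (B.card : ℝ) ^ 2) := by ring
          _ ≤ n * B.card := h1
      exact le_of_mul_le_mul_right h3 hb0
    have h4 : (Γ.card : ℝ) * (α / 2 * (α * n)) ≤ n := by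
      refine le_trans ?_ h2
      apply mul_le_mul_of_nonneg_left _ (Nat.cast_nonneg _)
      apply mul_le_mul_of_nonneg_left hB
      linarith
    have h5 : (Γ.card : ℝ) * α ^ 2 ≤ 2 := by
      have h6 : ((Γ.card : ℝ) * α ^ 2) * n ≤ 2 * n := by
        calc ((Γ.card : ℝ) * α ^ 2) * n = 2 * ((Γ.card : ℝ) * (α / 2 * (α * n))) := by ring
          _ ≤ 2 * n := by linarith
      exact le_of_mul_le_mul_right h6 hn0
    rw [le_div_iff₀ (pow_pos hα 2)]
    exact h5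
  · intro x hx
    by_contra hcon
    have h4 := A5_four n B (x : ZMod n) hcon
    have hcos : ∀ ξ ∈ Γ, 0 ≤ (ZMod.stdAddChar (ξ * (-(x : ZMod n))) : ℂ).re := by
      intro ξ hξ
      apply A5_cos
      have h5 := hx (Γ.equivFin ⟨ξ, hξ⟩)
      simp only [Equiv.symm_apply_apply] at h5
      exact h5
    have hre : ∀ ξ : ZMod n, -1 ≤ (ZMod.stdAddChar (ξ * (-(x : ZMod n))) : ℂ).re := by
      intro ξ
      have h5 := Complex.abs_re_le_norm (ZMod.stdAddChar (ξ * (-(x : ZMod n))) : ℂ)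
      rw [A5_norm] at h5
      exact (abs_le.mp h5).1
    have hsplit := Finset.sum_add_sum_compl Γ
      (fun ξ : ZMod n => (S ξ) ^ 2 * (ZMod.stdAddChar (ξ * (-(x : ZMod n))) : ℂ).re)
    have h4' : ∑ ξ : ZMod n, (S ξ) ^ 2 * (ZMod.stdAddChar (ξ * (-(x : ZMod n))) : ℂ).re = 0 := h4
    rw [h4'] at hsplit
    have hA : (B.card : ℝ) ^ 4 ≤
        ∑ ξ ∈ Γ, (S ξ) ^ 2 * (ZMod.stdAddChar (ξ * (-(x : ZMod n))) : ℂ).re := by
      have h5 := Finset.single_le_sum
        (f := fun ξ : ZMod n => (S ξ) ^ 2 * (ZMod.stdAddChar (ξ * (-(x : ZMod n))) : ℂ).re)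
        (fun ξ hξ => mul_nonneg (sq_nonneg _) (hcos ξ hξ)) h0Γ
      simp only [zero_mul, AddChar.map_zero_eq_one, Complex.one_re, mul_one, hSzero] at h5
      calc (B.card : ℝ) ^ 4 = ((B.card : ℝ) ^ 2) ^ 2 := by ring
        _ ≤ _ := h5
    have hC : -((B.card : ℝ) ^ 4 / 2) ≤
        ∑ ξ ∈ Γᶜ, (S ξ) ^ 2 * (ZMod.stdAddChar (ξ * (-(x : ZMod n))) : ℂ).re := by
      have h6 : ∀ ξ ∈ Γᶜ, -(α / 2 * (B.card : ℝ) ^ 2 * S ξ) ≤
          (S ξ) ^ 2 * (ZMod.stdAddChar (ξ * (-(x : ZMod n))) : ℂ).re := by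
        intro ξ hξ
        have h7 : S ξ ≤ α / 2 * (B.card : ℝ) ^ 2 := by
          rw [Finset.mem_compl, hmemΓ, not_le] at hξ
          exact hξ.le
        have h8 := hre ξ
        have h9 : (S ξ) ^ 2 * (-1) ≤
            (S ξ) ^ 2 * (ZMod.stdAddChar (ξ * (-(x : ZMod n))) : ℂ).re :=
          mul_le_mul_of_nonneg_left h8 (sq_nonneg _)
        have h10 : (S ξ) ^ 2 ≤ α / 2 * (B.card : ℝ) ^ 2 * S ξ := by
          rw [sq (S ξ)]
          exact mul_le_mul_of_nonneg_right h7 (hS0 ξ)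
        linarith
      have h11 := Finset.sum_le_sum h6
      refine le_trans ?_ h11
      rw [Finset.sum_neg_distrib, ← Finset.mul_sum]
      have h12 : ∑ ξ ∈ Γᶜ, S ξ ≤ n * B.card := by
        rw [← hSsum]
        exact Finset.sum_le_univ_sum_of_nonneg hS0
      have h13 : α / 2 * (B.card : ℝ) ^ 2 * ∑ ξ ∈ Γᶜ, S ξ ≤
          α / 2 * (B.card : ℝ) ^ 2 * (n * B.card) :=
        mul_le_mul_of_nonneg_left h12 (by positivity)
      have h14 : α / 2 * (B.card : ℝ) ^ 2 * (n * B.card) ≤ (B.card : ℝ) ^ 4 / 2 := by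
        calc α / 2 * (B.card : ℝ) ^ 2 * (n * B.card) =
            (α * n) * ((B.card : ℝ) ^ 3 / 2) := by ring
          _ ≤ B.card * ((B.card : ℝ) ^ 3 / 2) :=
              mul_le_mul_of_nonneg_right hB (by positivity)
          _ = (B.card : ℝ) ^ 4 / 2 := by ring
      linarith
    have hpos : (0 : ℝ) < (B.card : ℝ) ^ 4 := by positivity
    linarith

end Pool.Agent.SD
end

section

set_option autoImplicit false

/-!
# Task A6a: the length `ql`

`A6_isLN`: `ql` is homogeneous and subadditive (`abs_add_le`, `abs_mul`); the balls are finite: `|v 0| ≤ R n / 3` and `|v i.succ| ≤ |v 0 * ξ i / n| + R / 4` bound all coordinates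
(a bounded subset of `Fin (k + 1) → ℤ` is finite, e.g. a subset of `Fintype.piFinset fun _ => Finset.Icc (-M) M` or `Set.Finite.pi`).
`A6_inj`: `|v 0|, |w 0| ≤ n / 3`, so `|v 0 - w 0| < n` and `n ∣ v 0 - w 0` gives `v 0 = w 0`; then `|v i.succ - w i.succ| ≤ 1 / 4 + 1 / 4 < 1`.
`A6_card`: pigeonhole. For `x ∈ {0, ..., n - 1}` let `v_x = (x, ⌊x ξ i / n⌋)`. To `x` assign the cell `(⌊M x / n⌋, ⌊M fract (x ξ i / n)⌋) ∈ {0, ..., M - 1} ^ (k + 1)`. Some cell contains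
`x_1, ..., x_t` with `t M ^ (k + 1) ≥ n`; the vectors `v_(x_j) - v_(x_1)` are different (first coordinates) and have `ql ≤ (3 + 4 k) / M`.
-/

namespace Pool.Agent.SD

private theorem A6_nonneg1 (n : ℕ) {k : ℕ} (v : Fin (k + 1) → ℤ) : 0 ≤ 3 * |(v 0 : ℝ)| / n := by positivity

private theorem A6_nonneg2 (n : ℕ) {k : ℕ} (ξ : Fin k → ℤ) (v : Fin (k + 1) → ℤ) :
    0 ≤ ∑ i : Fin k, |(v 0 : ℝ) * ξ i / n - v i.succ| := Finset.sum_nonneg fun _ _ => abs_nonneg _

private theorem A6_single (n : ℕ) {k : ℕ} (ξ : Fin k → ℤ) (v : Fin (k + 1) → ℤ) (i : Fin k) :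
    |(v 0 : ℝ) * ξ i / n - v i.succ| ≤ ∑ i : Fin k, |(v 0 : ℝ) * ξ i / n - v i.succ| :=
  Finset.single_le_sum (f := fun i : Fin k => |(v 0 : ℝ) * ξ i / n - v i.succ|)
    (fun _ _ => abs_nonneg _) (Finset.mem_univ i)

private theorem A6_first (n : ℕ) (hn : 1 ≤ n) {k : ℕ} (ξ : Fin k → ℤ) (v : Fin (k + 1) → ℤ) {R : ℝ}
    (h : ql n ξ v ≤ R) : |(v 0 : ℝ)| ≤ R * n / 3 := by
  have hn0 : (0 : ℝ) < n := by exact_mod_cast hn
  have h1 := A6_nonneg2 n ξ v
  have h2 : 3 * |(v 0 : ℝ)| / n ≤ R := by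
    unfold ql at h
    linarith
  rw [div_le_iff₀ hn0] at h2
  linarith

private theorem A6_term (n : ℕ) {k : ℕ} (ξ : Fin k → ℤ) (v : Fin (k + 1) → ℤ) {R : ℝ}
    (h : ql n ξ v ≤ R) (i : Fin k) : |(v 0 : ℝ) * ξ i / n - v i.succ| ≤ R / 4 := by
  have h1 := A6_nonneg1 n v
  have h2 := A6_single n ξ v i
  unfold ql at h
  linarith

theorem A6_isLN (n : ℕ) (hn : 1 ≤ n) {k : ℕ} (ξ : Fin k → ℤ) : IsLN (ql n ξ) := by
  have hn0 : (0 : ℝ) < n := by exact_mod_cast hn
  refine ⟨?_, ?_, ?_⟩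
  · intro x y
    unfold ql
    have h1 : 3 * |(((x + y) 0 : ℤ) : ℝ)| / n ≤ 3 * |(x 0 : ℝ)| / n + 3 * |(y 0 : ℝ)| / n := by
      rw [← add_div]
      refine div_le_div_of_nonneg_right ?_ hn0.le
      rw [Pi.add_apply, Int.cast_add]
      linarith [abs_add_le (x 0 : ℝ) (y 0 : ℝ)]
    have h2 : ∑ i : Fin k, |(((x + y) 0 : ℤ) : ℝ) * ξ i / n - ((x + y) i.succ : ℤ)| ≤
        ∑ i : Fin k, |(x 0 : ℝ) * ξ i / n - x i.succ| + ∑ i : Fin k, |(y 0 : ℝ) * ξ i / n - y i.succ| := by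
      rw [← Finset.sum_add_distrib]
      refine Finset.sum_le_sum fun i _ => ?_
      have h3 : (((x + y) 0 : ℤ) : ℝ) * ξ i / n - ((x + y) i.succ : ℤ) =
          ((x 0 : ℝ) * ξ i / n - x i.succ) + ((y 0 : ℝ) * ξ i / n - y i.succ) := by
        rw [Pi.add_apply, Pi.add_apply, Int.cast_add, Int.cast_add]
        ring
      rw [h3]
      exact abs_add_le _ _
    linarith
  · intro m v
    unfold ql
    have h1 : (((m • v) 0 : ℤ) : ℝ) = m * (v 0 : ℝ) := by
      rw [Pi.smul_apply, smul_eq_mul, Int.cast_mul]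
    have h2 : ∀ i : Fin k, |(((m • v) 0 : ℤ) : ℝ) * ξ i / n - ((m • v) i.succ : ℤ)| =
        |(m : ℝ)| * |(v 0 : ℝ) * ξ i / n - v i.succ| := by
      intro i
      rw [h1, Pi.smul_apply, smul_eq_mul, Int.cast_mul, ← abs_mul]
      congr 1
      ring
    rw [Finset.sum_congr rfl fun i _ => h2 i, ← Finset.mul_sum, h1, abs_mul]
    ring
  · intro R
    obtain ⟨B, hB⟩ : ∃ B : ℝ, B = |R| * n / 3 + |R| * (∑ i : Fin k, |(ξ i : ℝ)|) + |R| := ⟨_, rfl⟩
    have hsum0 : 0 ≤ ∑ i : Fin k, |(ξ i : ℝ)| := Finset.sum_nonneg fun _ _ => abs_nonneg _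
    have hR0 : 0 ≤ |R| := abs_nonneg R
    have hall : ∀ v ∈ {x | ql n ξ x ≤ R}, ∀ j, |(v j : ℝ)| ≤ B := by
      intro v hv j
      have hv' : ql n ξ v ≤ |R| := le_trans hv (le_abs_self R)
      have h1 := A6_first n hn ξ v hv'
      refine Fin.cases ?_ (fun i => ?_) j
      · rw [hB]
        have : 0 ≤ |R| * (∑ i : Fin k, |(ξ i : ℝ)|) := mul_nonneg hR0 hsum0
        linarith
      · have h2 := A6_term n ξ v hv' i
        have h3 : |(v 0 : ℝ) * ξ i / n| ≤ |R| / 3 * |(ξ i : ℝ)| := by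
          rw [abs_div, abs_mul, abs_of_pos hn0, div_le_iff₀ hn0]
          calc |(v 0 : ℝ)| * |(ξ i : ℝ)| ≤ (|R| * n / 3) * |(ξ i : ℝ)| :=
                mul_le_mul_of_nonneg_right h1 (abs_nonneg _)
            _ = |R| / 3 * |(ξ i : ℝ)| * n := by ring
        have h4 : |(ξ i : ℝ)| ≤ ∑ i : Fin k, |(ξ i : ℝ)| :=
          Finset.single_le_sum (f := fun i : Fin k => |(ξ i : ℝ)|) (fun _ _ => abs_nonneg _)
            (Finset.mem_univ i)
        have h5 : |(v i.succ : ℝ)| ≤ |(v 0 : ℝ) * ξ i / n| + |(v 0 : ℝ) * ξ i / n - v i.succ| := by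
          have h6 := abs_sub ((v 0 : ℝ) * ξ i / n) ((v 0 : ℝ) * ξ i / n - v i.succ)
          have h7 : (v 0 : ℝ) * ξ i / n - ((v 0 : ℝ) * ξ i / n - v i.succ) = (v i.succ : ℝ) := by ring
          rw [h7] at h6
          exact h6
        have h8 : |R| / 3 * |(ξ i : ℝ)| ≤ |R| * (∑ i : Fin k, |(ξ i : ℝ)|) := by
          calc |R| / 3 * |(ξ i : ℝ)| ≤ |R| * |(ξ i : ℝ)| :=
                mul_le_mul_of_nonneg_right (by linarith) (abs_nonneg _)
            _ ≤ |R| * (∑ i : Fin k, |(ξ i : ℝ)|) := mul_le_mul_of_nonneg_left h4 hR0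
        have h9 : 0 ≤ |R| * n / 3 := by positivity
        rw [hB]
        linarith
    refine (Finset.finite_toSet (Fintype.piFinset fun _ : Fin (k + 1) => Finset.Icc (-⌈B⌉) ⌈B⌉)).subset ?_
    intro v hv
    rw [Finset.mem_coe, Fintype.mem_piFinset]
    intro j
    have h1 := abs_le.1 (hall v hv j)
    rw [Finset.mem_Icc]
    have h2 : (B : ℝ) ≤ (⌈B⌉ : ℤ) := Int.le_ceil B
    constructor
    · have : ((-⌈B⌉ : ℤ) : ℝ) ≤ (v j : ℝ) := by
        rw [Int.cast_neg]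
        linarith
      exact_mod_cast this
    · have : (v j : ℝ) ≤ ((⌈B⌉ : ℤ) : ℝ) := by linarith
      exact_mod_cast this

theorem A6_bohr (n : ℕ) (hn : 1 ≤ n) {k : ℕ} (ξ : Fin k → ℤ) (v : Fin (k + 1) → ℤ) (hv : ql n ξ v ≤ 1) (i : Fin k) :
    |(v 0 : ℝ) * ξ i / n - v i.succ| ≤ 1 / 4 := by
  have _ := hn
  exact A6_term n ξ v hv i

theorem A6_inj (n : ℕ) (hn : 1 ≤ n) {k : ℕ} (ξ : Fin k → ℤ) (v w : Fin (k + 1) → ℤ) (hv : ql n ξ v ≤ 1)
    (hw : ql n ξ w ≤ 1) (h : (v 0 : ZMod n) = (w 0 : ZMod n)) : v = w := by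
  have hn0 : (0 : ℝ) < n := by exact_mod_cast hn
  have h0 : v 0 = w 0 := by
    have h1 := A6_first n hn ξ v hv
    have h2 := A6_first n hn ξ w hw
    have h3 : (n : ℤ) ∣ w 0 - v 0 := (ZMod.intCast_eq_intCast_iff_dvd_sub _ _ _).1 h
    have h4 : |w 0 - v 0| < (n : ℤ) := by
      have h5 : |(w 0 : ℝ) - (v 0 : ℝ)| < n := by
        have := abs_sub (w 0 : ℝ) (v 0 : ℝ)
        linarith
      have h6 : ((|w 0 - v 0| : ℤ) : ℝ) < ((n : ℤ) : ℝ) := by
        rw [Int.cast_abs, Int.cast_sub, Int.cast_natCast]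
        exact h5
      exact_mod_cast h6
    have h5 := Int.eq_zero_of_abs_lt_dvd h3 h4
    omega
  funext j
  refine Fin.cases h0 (fun i => ?_) j
  have h1 := A6_term n ξ v hv i
  have h2 := A6_term n ξ w hw i
  rw [h0] at h1
  have h3 : |(v i.succ : ℝ) - w i.succ| ≤ 1 / 4 + 1 / 4 := by
    have h4 := abs_sub ((w 0 : ℝ) * ξ i / n - w i.succ) ((w 0 : ℝ) * ξ i / n - v i.succ)
    have h5 : (w 0 : ℝ) * ξ i / n - w i.succ - ((w 0 : ℝ) * ξ i / n - v i.succ) =
        (v i.succ : ℝ) - w i.succ := by ring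
    rw [h5] at h4
    linarith
  have h4 : |v i.succ - w i.succ| < 1 := by
    have h5 : ((|v i.succ - w i.succ| : ℤ) : ℝ) < ((1 : ℤ) : ℝ) := by
      rw [Int.cast_abs, Int.cast_sub, Int.cast_one]
      linarith
    exact_mod_cast h5
  have h5 := Int.abs_lt_one_iff.1 h4
  omega

end Pool.Agent.SD
end

section

set_option autoImplicit false

/-!
# Task A6b: pigeonhole (`A6_card` only; `A6_isLN` is in the imported file `A6a`)

`A6_isLN`: `ql` is homogeneous and subadditive (`abs_add_le`, `abs_mul`); the balls are finite: `|v 0| ≤ R n / 3` and `|v i.succ| ≤ |v 0 * ξ i / n| + R / 4` bound all coordinates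
(a bounded subset of `Fin (k + 1) → ℤ` is finite, e.g. a subset of `Fintype.piFinset fun _ => Finset.Icc (-M) M` or `Set.Finite.pi`).
`A6_inj`: `|v 0|, |w 0| ≤ n / 3`, so `|v 0 - w 0| < n` and `n ∣ v 0 - w 0` gives `v 0 = w 0`; then `|v i.succ - w i.succ| ≤ 1 / 4 + 1 / 4 < 1`.
`A6_card`: pigeonhole. For `x ∈ {0, ..., n - 1}` let `v_x = (x, ⌊x ξ i / n⌋)`. To `x` assign the cell `(⌊M x / n⌋, ⌊M fract (x ξ i / n)⌋) ∈ {0, ..., M - 1} ^ (k + 1)`. Some cell contains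
`x_1, ..., x_t` with `t M ^ (k + 1) ≥ n`; the vectors `v_(x_j) - v_(x_1)` are different (first coordinates) and have `ql ≤ (3 + 4 k) / M`.
-/

namespace Pool.Agent.SD

/-- two nonnegative numbers whose `M`-multiples have the same floor are at distance at most `1 / M` -/
private theorem a6b_close (M : ℕ) (hM : 1 ≤ M) (s t : ℝ) (hs : 0 ≤ s) (ht : 0 ≤ t)
    (h : ⌊(M : ℝ) * s⌋₊ = ⌊(M : ℝ) * t⌋₊) : |s - t| ≤ 1 / M := by
  have hM0 : (0 : ℝ) < M := by exact_mod_cast hM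
  have h1 := Nat.floor_le (mul_nonneg hM0.le hs)
  have h2 := Nat.lt_floor_add_one ((M : ℝ) * s)
  have h3 := Nat.floor_le (mul_nonneg hM0.le ht)
  have h4 := Nat.lt_floor_add_one ((M : ℝ) * t)
  rw [h] at h1 h2
  have h5 : |(M : ℝ) * (s - t)| ≤ 1 := by
    rw [abs_le]
    constructor <;> nlinarith
  rw [abs_mul, abs_of_pos hM0] at h5
  rw [le_div_iff₀ hM0]
  linarith

theorem A6_card (n : ℕ) (hn : 1 ≤ n) {k : ℕ} (ξ : Fin k → ℤ) (M : ℕ) (hM : 1 ≤ M) :
    (n : ℝ) ≤ (M : ℝ) ^ (k + 1) * ({v | ql n ξ v ≤ (3 + 4 * k) / M} : Set (Fin (k + 1) → ℤ)).ncard := by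
  classical
  have hn0 : (0 : ℝ) < n := by exact_mod_cast hn
  have hM0 : (0 : ℝ) < M := by exact_mod_cast hM
  set S : Set (Fin (k + 1) → ℤ) := {v | ql n ξ v ≤ (3 + 4 * k) / M} with hS
  have hfin : S.Finite := (A6_isLN n hn ξ).fin _
  set c : ℕ → Fin (k + 1) → ℕ := fun x => Fin.cons ⌊(M : ℝ) * ((x : ℝ) / n)⌋₊
    (fun i => ⌊(M : ℝ) * Int.fract ((x : ℝ) * ξ i / n)⌋₊) with hc
  set g : ℕ → Fin (k + 1) → ℤ := fun x => Fin.cons (x : ℤ) (fun i => ⌊(x : ℝ) * ξ i / n⌋) with hg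
  have hc0 : ∀ x, c x 0 = ⌊(M : ℝ) * ((x : ℝ) / n)⌋₊ := fun x => rfl
  have hcs : ∀ x (i : Fin k), c x i.succ = ⌊(M : ℝ) * Int.fract ((x : ℝ) * ξ i / n)⌋₊ := fun x i => rfl
  have hg0 : ∀ x, g x 0 = (x : ℤ) := fun x => rfl
  have hgs : ∀ x (i : Fin k), g x i.succ = ⌊(x : ℝ) * ξ i / n⌋ := fun x i => rfl
  have key := Finset.card_le_mul_card_image_of_maps_to (f := c) (s := Finset.range n)
    (t := Fintype.piFinset fun _ : Fin (k + 1) => Finset.range M) ?_ S.ncard ?_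
  · rw [Finset.card_range, Fintype.card_piFinset, Finset.prod_const, Finset.card_range, Finset.card_univ,
      Fintype.card_fin] at key
    have h2 : (n : ℝ) ≤ (S.ncard : ℝ) * (M : ℝ) ^ (k + 1) := by exact_mod_cast key
    linarith
  · intro x hx
    rw [Finset.mem_range] at hx
    rw [Fintype.mem_piFinset]
    intro i
    rw [Finset.mem_range]
    refine Fin.cases ?_ (fun j => ?_) i
    · rw [hc0, Nat.floor_lt (by positivity)]
      have h1 : (x : ℝ) / n < 1 := by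
        rw [div_lt_one hn0]
        exact_mod_cast hx
      nlinarith
    · rw [hcs, Nat.floor_lt (mul_nonneg hM0.le (Int.fract_nonneg _))]
      have h1 := Int.fract_lt_one ((x : ℝ) * ξ j / n)
      nlinarith
  · intro b _
    rcases Finset.eq_empty_or_nonempty ((Finset.range n).filter fun x => c x = b) with he | ⟨y, hy⟩
    · rw [he]
      simp
    · rw [Finset.mem_filter] at hy
      have hinj : Set.InjOn (fun x => g x - g y) ((Finset.range n).filter fun x => c x = b : Finset ℕ) := by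
        intro u _ v _ huv
        have h1 := congrFun huv 0
        simp only [Pi.sub_apply, hg0] at h1
        omega
      rw [← Finset.card_image_of_injOn hinj, ← Set.ncard_coe_finset]
      refine Set.ncard_le_ncard ?_ hfin
      intro v hv
      rw [Finset.mem_coe, Finset.mem_image] at hv
      obtain ⟨x, hx, rfl⟩ := hv
      rw [Finset.mem_filter] at hx
      have hxy : c x = c y := hx.2.trans hy.2.symm
      have h0 : |(x : ℝ) / n - (y : ℝ) / n| ≤ 1 / M := by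
        refine a6b_close M hM _ _ (by positivity) (by positivity) ?_
        have := congrFun hxy 0
        rwa [hc0, hc0] at this
      have hs : ∀ i : Fin k, |Int.fract ((x : ℝ) * ξ i / n) - Int.fract ((y : ℝ) * ξ i / n)| ≤ 1 / M := by
        intro i
        refine a6b_close M hM _ _ (Int.fract_nonneg _) (Int.fract_nonneg _) ?_
        have := congrFun hxy i.succ
        rwa [hcs, hcs] at this
      rw [hS, Set.mem_setOf_eq, ql]
      simp only [Pi.sub_apply, hg0, hgs]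
      have e0 : 3 * |(((x : ℤ) - (y : ℤ) : ℤ) : ℝ)| / n = 3 * |(x : ℝ) / n - (y : ℝ) / n| := by
        rw [← sub_div, abs_div, abs_of_pos hn0]
        push_cast
        ring
      have es : ∀ i : Fin k, |(((x : ℤ) - (y : ℤ) : ℤ) : ℝ) * ξ i / n -
          ((⌊(x : ℝ) * ξ i / n⌋ - ⌊(y : ℝ) * ξ i / n⌋ : ℤ) : ℝ)| ≤ 1 / M := by
        intro i
        have h1 := hs i
        rw [Int.fract, Int.fract] at h1
        refine le_trans (le_of_eq ?_) h1
        congr 1
        push_cast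
        ring
      rw [e0]
      have hsum : ∑ i : Fin k, |(((x : ℤ) - (y : ℤ) : ℤ) : ℝ) * ξ i / n -
          ((⌊(x : ℝ) * ξ i / n⌋ - ⌊(y : ℝ) * ξ i / n⌋ : ℤ) : ℝ)| ≤ k * (1 / M) := by
        refine (Finset.sum_le_sum fun i _ => es i).trans ?_
        rw [Finset.sum_const, Finset.card_univ, Fintype.card_fin, nsmul_eq_mul]
      have e3 : ((3 : ℝ) + 4 * k) / M = 3 * (1 / M) + 4 * (k * (1 / M)) := by ring
      rw [e3]
      exact add_le_add (mul_le_mul_of_nonneg_left h0 (by norm_num)) (mul_le_mul_of_nonneg_left hsum (by norm_num))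

end Pool.Agent.SD
end

section

set_option autoImplicit false

/-!
# Task A7: boxes from reduced bases

`A7_lin`: `g 0 = 0` (`g (0 + 0) = g 0 + g 0`), `g (-v) = - g v` for `f v ≤ 1`. Induction on `∑ i, (x i).natAbs`: if `x ≠ 0` choose `i` with `x i ≠ 0`, `x' = x ∓ e_i` (the sign such that
`|x' i| = |x i| - 1`); then `∑ |x' i| f (b i) ≤ 1`, `f (∑ x' i • b i) ≤ 1` (`IsLN.sum_le`, `IsLN.smul`), `f (b i) ≤ |x i| f (b i) ≤ 1` and
`g (∑ x i • b i) = g (∑ x' i • b i) ± g (b i)`.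
`A7_box`: let `η = 1 / (2 r)` (`r ≥ 1`; for `r = 0` take `d = 0`) and let `I = {i | f (e.symm (Pi.single i 1)) ≤ η}`, `d = I.card`, `b j` the basis vectors with index in `I` (`I.equivFin` or `Finset.equivFin`),
`N j = η / f (b j) ≥ 1` (`f (b j) > 0` by `IsLN.pos`). For `x ∈ wB N 1`: `|x j| f (b j) ≤ η`, the sum is at most `d η ≤ 1 / 2`. The map is injective since the `b j` are part of a basis.
If `f v ≤ 1 / (2 r C)` then `|e v i| f (b_i) ≤ C f v ≤ η` for all `i`; for `i ∉ I` this gives `|e v i| < 1`, so `e v i = 0`, and for `i ∈ I` it gives `|e v i| ≤ N i`; and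
`v = ∑ i, e v i • e.symm (Pi.single i 1)`.
-/

namespace Pool.Agent.SD

private theorem A7_zero {M : Type} [AddCommGroup M] (f : M → ℝ) (hf : IsLN f) (g : M → ℂ)
    (hg : ∀ v w, f v ≤ 1 → f w ≤ 1 → f (v + w) ≤ 1 → g (v + w) = g v + g w) : g 0 = 0 := by
  have h0 : f 0 ≤ 1 := by rw [hf.zero]; exact zero_le_one
  have h := hg 0 0 h0 h0 (by rw [add_zero]; exact h0)
  rw [add_zero] at h
  linear_combination (-1 : ℂ) * h

private theorem A7_neg {M : Type} [AddCommGroup M] (f : M → ℝ) (hf : IsLN f) (g : M → ℂ)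
    (hg : ∀ v w, f v ≤ 1 → f w ≤ 1 → f (v + w) ≤ 1 → g (v + w) = g v + g w) (v : M) (hv : f v ≤ 1) :
    g (-v) = -g v := by
  have h0 : f 0 ≤ 1 := by rw [hf.zero]; exact zero_le_one
  have h := hg v (-v) hv (by rw [hf.neg]; exact hv) (by rw [add_neg_cancel]; exact h0)
  rw [add_neg_cancel, A7_zero f hf g hg] at h
  linear_combination -h

theorem A7_lin {M : Type} [AddCommGroup M] (f : M → ℝ) (hf : IsLN f) (g : M → ℂ)
    (hg : ∀ v w, f v ≤ 1 → f w ≤ 1 → f (v + w) ≤ 1 → g (v + w) = g v + g w) {d : ℕ} (b : Fin d → M)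
    (x : Fin d → ℤ) (hx : ∑ i, |(x i : ℝ)| * f (b i) ≤ 1) : g (∑ i, x i • b i) = ∑ i, x i • g (b i) := by
  classical
  have hfn : ∀ y : Fin d → ℤ, f (∑ i, y i • b i) ≤ ∑ i, |(y i : ℝ)| * f (b i) := fun y =>
    (hf.sum_le _ _).trans_eq (Finset.sum_congr rfl fun i _ => hf.smul _ _)
  induction hn : ∑ i, (x i).natAbs using Nat.strong_induction_on generalizing x with
  | _ n ih =>
  by_cases h : x = 0
  · subst h
    simp [A7_zero f hf g hg]
  obtain ⟨i, hi⟩ : ∃ i, x i ≠ 0 := by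
    by_contra hc
    push Not at hc
    exact h (funext hc)
  obtain ⟨s, hs, hs1⟩ : ∃ s : ℤ, (s = 1 ∨ s = -1) ∧ (x i - s).natAbs < (x i).natAbs := by
    rcases lt_or_gt_of_ne hi with h1 | h1
    · exact ⟨-1, Or.inr rfl, by omega⟩
    · exact ⟨1, Or.inl rfl, by omega⟩
  set x' : Fin d → ℤ := Function.update x i (x i - s) with hx'
  have hxi : x' i = x i - s := by rw [hx', Function.update_self]
  have hxj : ∀ j, j ≠ i → x' j = x j := fun j hj => by rw [hx', Function.update_of_ne hj]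
  have hle : ∀ j, (x' j).natAbs ≤ (x j).natAbs := by
    intro j
    by_cases hj : j = i
    · subst hj
      rw [hxi]
      exact hs1.le
    · rw [hxj j hj]
  have hlt : ∑ j, (x' j).natAbs < n := by
    rw [← hn]
    exact Finset.sum_lt_sum (fun j _ => hle j) ⟨i, Finset.mem_univ _, by rw [hxi]; exact hs1⟩
  have hsum : ∀ {N : Type} [AddCommGroup N] (c : Fin d → N),
      ∑ j, x j • c j = ∑ j, x' j • c j + s • c i := by
    intro N _ c
    have h1 : ∀ j, x j • c j = x' j • c j + (if j = i then s • c i else 0) := by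
      intro j
      by_cases hj : j = i
      · subst hj
        rw [hxi, if_pos rfl, ← add_smul]
        congr 1
        ring
      · rw [hxj j hj, if_neg hj, add_zero]
    rw [Finset.sum_congr rfl fun j _ => h1 j, Finset.sum_add_distrib]
    simp
  have habs : ∀ j, |(x' j : ℝ)| ≤ |(x j : ℝ)| := by
    intro j
    have h1 := hle j
    have h2 : ((x' j).natAbs : ℝ) ≤ ((x j).natAbs : ℝ) := by exact_mod_cast h1
    rwa [Nat.cast_natAbs, Nat.cast_natAbs, Int.cast_abs, Int.cast_abs] at h2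
  have hx'1 : ∑ j, |(x' j : ℝ)| * f (b j) ≤ 1 :=
    (Finset.sum_le_sum fun j _ => mul_le_mul_of_nonneg_right (habs j) (hf.nonneg _)).trans hx
  have h1 : 1 ≤ |(x i : ℝ)| := by
    have : (1 : ℤ) ≤ |x i| := Int.one_le_abs hi
    exact_mod_cast this
  have hbi : f (b i) ≤ 1 := by
    have h2 : |(x i : ℝ)| * f (b i) ≤ ∑ j, |(x j : ℝ)| * f (b j) :=
      Finset.single_le_sum (f := fun j => |(x j : ℝ)| * f (b j))
        (fun j _ => mul_nonneg (abs_nonneg _) (hf.nonneg _)) (Finset.mem_univ i)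
    have h3 : f (b i) ≤ |(x i : ℝ)| * f (b i) := le_mul_of_one_le_left (hf.nonneg _) h1
    linarith
  have hsb : f (s • b i) ≤ 1 := by
    rcases hs with rfl | rfl
    · simpa using hbi
    · rw [neg_smul, one_smul, hf.neg]
      exact hbi
  have hgs : g (s • b i) = s • g (b i) := by
    rcases hs with rfl | rfl
    · simp
    · rw [neg_smul, one_smul, neg_smul, one_smul]
      exact A7_neg f hf g hg _ hbi
  have h5 := ih _ hlt x' hx'1 rfl
  have h6 : g (∑ j, x' j • b j + s • b i) = g (∑ j, x' j • b j) + g (s • b i) := by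
    refine hg _ _ ((hfn x').trans hx'1) hsb ?_
    rw [← hsum b]
    exact (hfn x).trans hx
  rw [hsum b, hsum (fun j => g (b j)), h6, h5, hgs]

theorem A7_box (r : ℕ) (f : (Fin r → ℤ) → ℝ) (hf : IsLN f) (C : ℝ) (hC : 1 ≤ C)
    (e : (Fin r → ℤ) ≃ₗ[ℤ] (Fin r → ℤ))
    (he : ∀ x i, |(e x i : ℝ)| * f (e.symm (Pi.single i 1)) ≤ C * f x) :
    ∃ d ≤ r, ∃ (b : Fin d → (Fin r → ℤ)) (N : Fin d → ℝ), (∀ i, 1 ≤ N i) ∧
      (∀ x ∈ wB N 1, ∑ i, |(x i : ℝ)| * f (b i) ≤ 1) ∧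
      (Function.Injective fun x : Fin d → ℤ => ∑ i, x i • b i) ∧
      ∀ v, f v ≤ 1 / (2 * r * C) → ∃ x ∈ wB N 1, ∑ i, x i • b i = v := by
  classical
  set B : Fin r → (Fin r → ℤ) := fun i => e.symm (Pi.single i 1) with hB
  set η : ℝ := 1 / (2 * r) with hη
  set I : Finset (Fin r) := Finset.univ.filter fun i => f (B i) ≤ η with hI
  have hmemI : ∀ i, i ∈ I ↔ f (B i) ≤ η := fun i => by simp [hI]
  have hd : I.card ≤ r := by
    have := Finset.card_le_univ I
    rwa [Fintype.card_fin] at this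
  have hBne : ∀ i, B i ≠ 0 := by
    intro i h0
    have h1 : (Pi.single i 1 : Fin r → ℤ) = 0 := by
      rw [← e.symm.map_eq_zero_iff]
      exact h0
    have h2 := congrFun h1 i
    simp at h2
  have hBpos : ∀ i, 0 < f (B i) := fun i => hf.pos (hBne i)
  set φ : Fin I.card ≃ I := I.equivFin.symm with hφ
  have hsing : ∀ v : Fin r → ℤ, v = ∑ i, e v i • B i := by
    intro v
    apply e.injective
    rw [map_sum]
    have h1 : ∀ i, e (e v i • B i) = e v i • (Pi.single i 1 : Fin r → ℤ) := by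
      intro i
      rw [map_zsmul, hB]
      simp
    rw [Finset.sum_congr rfl fun i _ => h1 i]
    ext j
    simp [Finset.sum_apply, Pi.single_apply]
  refine ⟨I.card, hd, fun j => B (φ j), fun j => η / f (B (φ j)), ?_, ?_, ?_, ?_⟩
  · intro j
    rw [one_le_div (hBpos _)]
    exact (hmemI _).mp (φ j).2
  · intro x hx
    rw [mem_wB] at hx
    have h1 : ∀ j, |(x j : ℝ)| * f (B (φ j)) ≤ η := by
      intro j
      have h2 := hx j
      rw [one_mul] at h2
      exact (le_div_iff₀ (hBpos _)).mp h2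
    have h3 : ∑ j, |(x j : ℝ)| * f (B (φ j)) ≤ ∑ _j : Fin I.card, η := Finset.sum_le_sum fun j _ => h1 j
    refine h3.trans ?_
    rw [Finset.sum_const, Finset.card_univ, Fintype.card_fin, nsmul_eq_mul]
    rcases Nat.eq_zero_or_pos r with hr | hr
    · have : I.card = 0 := by omega
      rw [this]
      simp
    · have hr' : (0 : ℝ) < r := by exact_mod_cast hr
      have h4 : (I.card : ℝ) ≤ r := by exact_mod_cast hd
      rw [hη, mul_one_div, div_le_one (by positivity)]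
      linarith
  · intro x y hxy
    have h1 : ∀ z : Fin I.card → ℤ, e (∑ j, z j • B (φ j)) = ∑ j, z j • (Pi.single (φ j : Fin r) 1 : Fin r → ℤ) := by
      intro z
      rw [map_sum]
      refine Finset.sum_congr rfl fun j _ => ?_
      rw [map_zsmul, hB]
      simp
    have h2 : ∀ (z : Fin I.card → ℤ) k, e (∑ j, z j • B (φ j)) (φ k : Fin r) = z k := by
      intro z k
      rw [h1, Finset.sum_apply]
      rw [Finset.sum_eq_single k]
      · simp
      · intro j _ hj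
        have h3 : (φ k : Fin r) ≠ (φ j : Fin r) := by
          intro h4
          exact hj (φ.injective (Subtype.ext h4)).symm
        rw [Pi.smul_apply, Pi.single_eq_of_ne h3, smul_zero]
      · intro h3
        exact absurd (Finset.mem_univ k) h3
    funext k
    rw [← h2 x k, ← h2 y k]
    exact congrFun (congrArg e hxy) _
  · intro v hv
    rcases Nat.eq_zero_or_pos r with hr | hr
    · subst hr
      refine ⟨fun j => 0, ?_, Subsingleton.elim _ _⟩
      rw [mem_wB]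
      intro i
      exact (φ i).1.elim0
    have hr' : (0 : ℝ) < r := by exact_mod_cast hr
    have hC0 : 0 < C := lt_of_lt_of_le one_pos hC
    have hk : ∀ i, |(e v i : ℝ)| * f (B i) ≤ η := by
      intro i
      refine (he v i).trans ?_
      calc C * f v ≤ C * (1 / (2 * r * C)) := by gcongr
        _ = η := by rw [hη]; field_simp
    have hz : ∀ i, i ∉ I → e v i = 0 := by
      intro i hi
      by_contra hne
      apply hi
      rw [hmemI]
      have h1 : (1 : ℝ) ≤ |(e v i : ℝ)| := by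
        have : (1 : ℤ) ≤ |e v i| := Int.one_le_abs hne
        exact_mod_cast this
      exact (le_mul_of_one_le_left (hf.nonneg _) h1).trans (hk i)
    refine ⟨fun j => e v (φ j), ?_, ?_⟩
    · rw [mem_wB]
      intro j
      rw [one_mul, le_div_iff₀ (hBpos _)]
      exact hk _
    · conv_rhs => rw [hsing v]
      have h1 : ∑ i, e v i • B i = ∑ i ∈ I, e v i • B i := by
        symm
        refine Finset.sum_subset (Finset.subset_univ _) fun i _ hi => ?_
        rw [hz i hi, zero_smul]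
      rw [h1, ← Finset.sum_coe_sort I]
      exact Equiv.sum_comp φ fun i : I => e v i • B i

end Pool.Agent.SD
end

section

set_option autoImplicit false

/-!
# Task A8: the inverse of a Freiman isomorphism on the differences

For `x ∈ dset 2 2 (A.image ψ)` choose (`mem_dset_22`) `a, b, c, d ∈ A` with `ψ a + ψ b - (ψ c + ψ d) = x` and put `φ x = a + b - (c + d)` (`φ x = 0` for the other `x`). The value does not depend on the choice:
`ψ a + ψ b + ψ c' + ψ d' = ψ a' + ψ b' + ψ c + ψ d` iff `a + b + c' + d' = a' + b' + c + d` (order 6: add `ψ a` twice to both sides; `Fin 6 → ℂ` as `![..]`,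
`Fin.sum_univ_six`); this equivalence also gives the injectivity. Additivity: if `x + y = z` with all three in the set then
`x1 + x2 + y1 + y2 + z3 + z4` and `x3 + x4 + y3 + y4 + z1 + z2` have the same image, so they are equal (order 6 exactly).
-/

namespace Pool.Agent.SD

private lemma A8_six {n : ℕ} {A : Finset ℂ} {ψ : ℂ → ZMod n} (hψ : FIso 6 (A : Set ℂ) ψ)
    {a1 a2 a3 a4 a5 a6 b1 b2 b3 b4 b5 b6 : ℂ} (ha1 : a1 ∈ A) (ha2 : a2 ∈ A) (ha3 : a3 ∈ A) (ha4 : a4 ∈ A)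
    (ha5 : a5 ∈ A) (ha6 : a6 ∈ A) (hb1 : b1 ∈ A) (hb2 : b2 ∈ A) (hb3 : b3 ∈ A) (hb4 : b4 ∈ A)
    (hb5 : b5 ∈ A) (hb6 : b6 ∈ A) :
    (ψ a1 + ψ a2 + ψ a3 + ψ a4 + ψ a5 + ψ a6 = ψ b1 + ψ b2 + ψ b3 + ψ b4 + ψ b5 + ψ b6 ↔
      a1 + a2 + a3 + a4 + a5 + a6 = b1 + b2 + b3 + b4 + b5 + b6) := by
  have h := hψ ![a1, a2, a3, a4, a5, a6] ![b1, b2, b3, b4, b5, b6] (by
    intro i
    fin_cases i
    exacts [ha1, ha2, ha3, ha4, ha5, ha6]) (by
    intro i
    fin_cases i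
    exacts [hb1, hb2, hb3, hb4, hb5, hb6])
  rw [Fin.sum_univ_six, Fin.sum_univ_six, Fin.sum_univ_six, Fin.sum_univ_six] at h
  exact h

private lemma A8_four {n : ℕ} {A : Finset ℂ} {ψ : ℂ → ZMod n} (hψ : FIso 6 (A : Set ℂ) ψ)
    {a b c d a' b' c' d' : ℂ} (ha : a ∈ A) (hb : b ∈ A) (hc : c ∈ A) (hd : d ∈ A)
    (ha' : a' ∈ A) (hb' : b' ∈ A) (hc' : c' ∈ A) (hd' : d' ∈ A) :
    (ψ a + ψ b - (ψ c + ψ d) = ψ a' + ψ b' - (ψ c' + ψ d') ↔
      a + b - (c + d) = a' + b' - (c' + d')) := by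
  have h := A8_six hψ ha hb hc' hd' ha ha ha' hb' hc hd ha ha
  constructor
  · intro h1
    have h2 := h.1 (by linear_combination h1)
    linear_combination h2
  · intro h1
    have h2 := h.2 (by linear_combination h1)
    linear_combination h2

theorem A8 (n : ℕ) (A : Finset ℂ) (ψ : ℂ → ZMod n) (hψ : FIso 6 (A : Set ℂ) ψ) :
    ∃ φ : ZMod n → ℂ, (∀ x ∈ dset 2 2 (A.image ψ), φ x ∈ dset 2 2 A) ∧
      Set.InjOn φ (dset 2 2 (A.image ψ) : Set (ZMod n)) ∧
      ∀ x ∈ dset 2 2 (A.image ψ), ∀ y ∈ dset 2 2 (A.image ψ), x + y ∈ dset 2 2 (A.image ψ) →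
        φ (x + y) = φ x + φ y := by
  have h : ∀ x : ZMod n, ∃ a b c d : ℂ, x ∈ dset 2 2 (A.image ψ) →
      a ∈ A ∧ b ∈ A ∧ c ∈ A ∧ d ∈ A ∧ ψ a + ψ b - (ψ c + ψ d) = x := by
    intro x
    by_cases hx : x ∈ dset 2 2 (A.image ψ)
    · obtain ⟨a, ha, b, hb, c, hc, d, hd, h1⟩ := mem_dset_22.1 hx
      obtain ⟨a', ha', rfl⟩ := Finset.mem_image.1 ha
      obtain ⟨b', hb', rfl⟩ := Finset.mem_image.1 hb
      obtain ⟨c', hc', rfl⟩ := Finset.mem_image.1 hc
      obtain ⟨d', hd', rfl⟩ := Finset.mem_image.1 hd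
      exact ⟨a', b', c', d', fun _ => ⟨ha', hb', hc', hd', h1⟩⟩
    · exact ⟨0, 0, 0, 0, fun h => absurd h hx⟩
  choose f1 f2 f3 f4 hf using h
  refine ⟨fun x => f1 x + f2 x - (f3 x + f4 x), ?_, ?_, ?_⟩
  · intro x hx
    obtain ⟨h1, h2, h3, h4, -⟩ := hf x hx
    exact mem_dset_22.2 ⟨_, h1, _, h2, _, h3, _, h4, rfl⟩
  · intro x hx y hy hxy
    obtain ⟨h1, h2, h3, h4, h5⟩ := hf x (Finset.mem_coe.1 hx)
    obtain ⟨k1, k2, k3, k4, k5⟩ := hf y (Finset.mem_coe.1 hy)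
    rw [← h5, ← k5]
    exact (A8_four hψ h1 h2 h3 h4 k1 k2 k3 k4).2 hxy
  · intro x hx y hy hxy
    obtain ⟨h1, h2, h3, h4, h5⟩ := hf x hx
    obtain ⟨k1, k2, k3, k4, k5⟩ := hf y hy
    obtain ⟨l1, l2, l3, l4, l5⟩ := hf (x + y) hxy
    have h6 := (A8_six hψ h1 h2 k1 k2 l3 l4 h3 h4 k3 k4 l1 l2).1 (by
      linear_combination h5 + k5 - l5)
    show f1 (x + y) + f2 (x + y) - (f3 (x + y) + f4 (x + y)) =
      f1 x + f2 x - (f3 x + f4 x) + (f1 y + f2 y - (f3 y + f4 y))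
    linear_combination -h6

end Pool.Agent.SD
end

section

set_option autoImplicit false

/-!
# Task A3a: Plünnecke

`Finset.pluennecke_ruzsa_inequality_nsmul_sub_nsmul_add` (file `Mathlib/Combinatorics/Additive/PluenneckeRuzsa.lean`, the additive version of
`pluennecke_ruzsa_inequality_pow_div_pow_mul`) with `A = B`: `#(p • A - q • A) ≤ (#(A + A) / #A) ^ (p + q) * #A` (pointwise, in `ℚ≥0`), and
`dset p q A ⊆ p • A - q • A` (induction on `p` for `∑ i : Fin p, a i ∈ p • A`, `Fin.sum_univ_succ` / `succ_nsmul`; beware of the two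
meanings of `p • A`: it is the one from the `AddMonoid` structure of `Finset ℂ`, `open scoped Pointwise`). `K ≥ 1` is not needed: `#(A + A) / #A ≤ K`.
-/

open scoped Pointwise

namespace Pool.Agent.SD

/-- the image of a sum under the (iterated) pointwise sums, by induction -/
private theorem A3a_aux (A : Finset ℂ) (S : ℕ → Finset ℂ) (h0 : S 0 = 0)
    (hS : ∀ p, S (p + 1) = S p + A) (p : ℕ) (a : Fin p → ℂ) (ha : ∀ i, a i ∈ A) :
    ∑ i, a i ∈ S p := by
  induction p with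
  | zero =>
    rw [h0]
    simp
  | succ p ih =>
    rw [hS, Fin.sum_univ_castSucc]
    exact Finset.add_mem_add (ih (fun i => a i.castSucc) fun i => ha _) (ha _)

theorem A3_card (A : Finset ℂ) (hA : A.Nonempty) (K : ℝ) (hK : ((A + A).card : ℝ) ≤ K * A.card) (p q : ℕ) :
    ((dset p q A).card : ℝ) ≤ K ^ (p + q) * A.card := by
  have h := Finset.pluennecke_ruzsa_inequality_nsmul_sub_nsmul_add hA A p q
  have hcard : (0 : ℝ) < (A.card : ℝ) := by exact_mod_cast hA.card_pos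
  have hsub : (dset p q A).card ≤ ((p • A - q • A : Finset ℂ)).card := by
    refine Finset.card_le_card fun x hx => ?_
    obtain ⟨a, b, ha, hb, rfl⟩ := mem_dset.1 hx
    refine Finset.sub_mem_sub ?_ ?_
    · exact A3a_aux A (fun n => n • A) (zero_nsmul A) (fun n => succ_nsmul A n) p a ha
    · exact A3a_aux A (fun n => n • A) (zero_nsmul A) (fun n => succ_nsmul A n) q b hb
  have h2 : (((p • A - q • A : Finset ℂ)).card : ℝ) ≤
      (((A + A).card : ℝ) / A.card) ^ (p + q) * A.card := by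
    have h' := (NNRat.cast_le (K := ℝ)).2 h
    push_cast at h'
    exact h'
  have h3 : ((A + A).card : ℝ) / A.card ≤ K := by
    rw [div_le_iff₀ hcard]
    exact hK
  have h4 : (0 : ℝ) ≤ ((A + A).card : ℝ) / A.card := by positivity
  calc ((dset p q A).card : ℝ) ≤ (((p • A - q • A : Finset ℂ)).card : ℝ) := by exact_mod_cast hsub
    _ ≤ (((A + A).card : ℝ) / A.card) ^ (p + q) * A.card := h2
    _ ≤ K ^ (p + q) * A.card := by
        gcongr

end Pool.Agent.SD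
end

section

set_option autoImplicit false

/-!
# Task A9: averaging

Count the pairs `(a, p) ∈ A × Q` by `z = a - p ∈ dset 3 2 A` (`a - (a1 + a2 - (a3 + a4)) = (a + a3 + a4) - (a1 + a2)`, `mem_dset_22`, `mem_dset`): for a fixed `z` the number of the pairs is
the number of the `a ∈ A` with `a - z ∈ Q` (`Finset.card_eq_sum_card_fiberwise` / `Finset.sum_le_card_nsmul`). So `A.card * Q.card ≤ #(dset 3 2 A) * max`, and `#(dset 3 2 A) ≤ K ^ 5 * A.card`
(`A3_card`). Divide by `A.card`.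
-/

open scoped Pointwise

namespace Pool.Agent.SD

open Classical in
theorem A9 (A : Finset ℂ) (hA : A.Nonempty) (K : ℝ) (hK : ((A + A).card : ℝ) ≤ K * A.card) (Q : Finset ℂ)
    (hQ : Q ⊆ dset 2 2 A) :
    ∃ z : ℂ, (Q.card : ℝ) ≤ K ^ 5 * (A.filter fun a => ∃ p ∈ Q, a = z + p).card := by
  have hmem : ∀ x ∈ A ×ˢ Q, x.1 - x.2 ∈ dset 3 2 A := by
    rintro ⟨a, p⟩ hx
    rw [Finset.mem_product] at hx
    obtain ⟨a1, h1, a2, h2, a3, h3, a4, h4, h⟩ := mem_dset_22.1 (hQ hx.2)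
    rw [mem_dset]
    refine ⟨![a, a3, a4], ![a1, a2], ?_, ?_, ?_⟩
    · intro i
      fin_cases i
      · exact hx.1
      · exact h3
      · exact h4
    · intro i
      fin_cases i
      · exact h1
      · exact h2
    · rw [Fin.sum_univ_three, Fin.sum_univ_two]
      have h' : a1 + a2 - (a3 + a4) = p := h
      show a + a3 + a4 - (a1 + a2) = a - p
      rw [← h']
      ring
  have hDne : (dset 3 2 A).Nonempty := by
    obtain ⟨a, ha⟩ := hA
    exact ⟨_, mem_dset.2 ⟨fun _ => a, fun _ => a, fun _ => ha, fun _ => ha, rfl⟩⟩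
  obtain ⟨z, _, hz⟩ := Finset.exists_max_image (dset 3 2 A)
    (fun z => ((A ×ˢ Q).filter fun x => x.1 - x.2 = z).card) hDne
  refine ⟨z, ?_⟩
  have hfib : ((A ×ˢ Q).filter fun x => x.1 - x.2 = z).card ≤ (A.filter fun a => ∃ p ∈ Q, a = z + p).card := by
    apply Finset.card_le_card_of_injOn (fun x => x.1)
    · rintro ⟨a, p⟩ hx
      have hx' := Finset.mem_filter.1 (Finset.mem_coe.1 hx)
      have hx1 := Finset.mem_product.1 hx'.1
      refine Finset.mem_coe.2 (Finset.mem_filter.2 ⟨hx1.1, p, hx1.2, ?_⟩)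
      have h := hx'.2
      simp only at h
      show a = z + p
      rw [← h]
      ring
    · rintro ⟨a, p⟩ hx ⟨a', p'⟩ hx' h
      have h1 := (Finset.mem_filter.1 (Finset.mem_coe.1 hx)).2
      have h2 := (Finset.mem_filter.1 (Finset.mem_coe.1 hx')).2
      simp only at h h1 h2
      subst h
      have : p = p' := by
        have h3 : a - p = a - p' := h1.trans h2.symm
        exact sub_right_injective h3
      rw [this]
  have hcard : A.card * Q.card ≤ (dset 3 2 A).card * ((A ×ˢ Q).filter fun x => x.1 - x.2 = z).card := by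
    rw [← Finset.card_product, Finset.card_eq_sum_card_fiberwise hmem, ← smul_eq_mul]
    exact Finset.sum_le_card_nsmul _ _ _ hz
  have hpos : (0 : ℝ) < A.card := by exact_mod_cast hA.card_pos
  have hcR : (A.card : ℝ) * Q.card ≤ (dset 3 2 A).card * ((A.filter fun a => ∃ p ∈ Q, a = z + p).card : ℝ) := by
    have h1 : A.card * Q.card ≤ (dset 3 2 A).card * (A.filter fun a => ∃ p ∈ Q, a = z + p).card :=
      hcard.trans (Nat.mul_le_mul_left _ hfib)
    exact_mod_cast h1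
  have h5 := A3_card A hA K hK 3 2
  have hm : ((dset 3 2 A).card : ℝ) * ((A.filter fun a => ∃ p ∈ Q, a = z + p).card : ℝ) ≤
      K ^ 5 * A.card * ((A.filter fun a => ∃ p ∈ Q, a = z + p).card : ℝ) :=
    mul_le_mul_of_nonneg_right h5 (Nat.cast_nonneg _)
  have h6 : (A.card : ℝ) * Q.card ≤ A.card * (K ^ 5 * ((A.filter fun a => ∃ p ∈ Q, a = z + p).card : ℝ)) := by
    calc (A.card : ℝ) * Q.card ≤ _ := hcR
      _ ≤ _ := hm
      _ = _ := by ring
  exact le_of_mul_le_mul_left h6 hpos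

end Pool.Agent.SD
end

section

set_option autoImplicit false

/-!
# Freiman's theorem in the form of Ruzsa (assembly)
-/

open scoped Pointwise

namespace Pool.Agent.SD

private theorem AA_red (R : ℕ) : ∃ C : ℝ, 1 ≤ C ∧ ∀ r ≤ R, ∀ f : (Fin r → ℤ) → ℝ, IsLN f →
    ∃ e : (Fin r → ℤ) ≃ₗ[ℤ] (Fin r → ℤ), ∀ x i, |(e x i : ℝ)| * f (e.symm (Pi.single i 1)) ≤ C * f x := by
  choose C hC h using exists_reduced
  refine ⟨∑ r ∈ Finset.range (R + 1), C r, ?_, ?_⟩
  · exact (hC 0).trans (Finset.single_le_sum (f := C) (fun i _ => zero_le_one.trans (hC i))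
      (Finset.mem_range.2 (by omega)))
  · intro r hr f hf
    obtain ⟨e, he⟩ := h r (Fin r → ℤ) (by simp) f hf
    refine ⟨e, fun x i => (he x i).trans ?_⟩
    refine mul_le_mul_of_nonneg_right ?_ (hf.nonneg x)
    exact Finset.single_le_sum (f := C) (fun i _ => zero_le_one.trans (hC i))
      (Finset.mem_range.2 (by omega))

private theorem AA_mono {α : Type} [AddCommGroup α] [DecidableEq α] (A A' : Finset α) (h : A' ⊆ A) :
    dset 2 2 A' ⊆ dset 2 2 A := by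
  intro x hx
  rw [mem_dset] at hx ⊢
  obtain ⟨a, b, ha, hb, hx⟩ := hx
  exact ⟨a, b, fun i => h (ha i), fun i => h (hb i), hx⟩

open Classical in
/-- **Freiman's theorem** (Ruzsa): a finite set of small doubling in the plane has a positive proportion in a translate of the image of a box of
bounded dimension and comparable size. -/
theorem FreimanRuzsa (K : ℝ) : ∃ (D : ℕ) (c C : ℝ), 0 < c ∧ 0 < C ∧ ∀ A : Finset ℂ, A.Nonempty →
    ((A + A).card : ℝ) ≤ K * A.card →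
    ∃ d ≤ D, ∃ (N : Fin d → ℝ) (L : (Fin d → ℤ) →+ ℂ) (z : ℂ), (∀ i, 1 ≤ N i) ∧
      ((wB N 1).card : ℝ) ≤ C * A.card ∧
      c * A.card ≤ (A.filter fun a => ∃ x ∈ wB N 1, a = z + L x).card := by
  obtain ⟨K', hK'⟩ : ∃ K', K' = max K 1 := ⟨_, rfl⟩
  have hK1 : 1 ≤ K' := hK' ▸ le_max_right _ _
  have hK0 : 0 < K' := by linarith
  obtain ⟨α, hα⟩ : ∃ α : ℝ, α = 1 / (6 * K' ^ 12) := ⟨_, rfl⟩
  have hα0 : 0 < α := by rw [hα]; positivity
  obtain ⟨D, hD⟩ : ∃ D : ℕ, D = ⌊2 / α ^ 2⌋₊ + 1 := ⟨_, rfl⟩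
  have hD1 : 1 ≤ D := by omega
  obtain ⟨C, hC, hred⟩ := AA_red D
  obtain ⟨M, hM⟩ : ∃ M : ℕ, M = ⌈(3 + 4 * (D : ℝ)) * (2 * D * C)⌉₊ := ⟨_, rfl⟩
  have hDr : (1 : ℝ) ≤ D := by exact_mod_cast hD1
  have hMr : (3 + 4 * (D : ℝ)) * (2 * D * C) ≤ M := by rw [hM]; exact Nat.le_ceil _
  have hM1 : (1 : ℝ) ≤ M := by
    refine le_trans ?_ hMr
    have h1 : 1 ≤ (D : ℝ) * C := by nlinarith
    nlinarith
  have hM1' : 1 ≤ M := by exact_mod_cast hM1
  have hM0 : (0 : ℝ) < M := by linarith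
  refine ⟨D, 1 / (M ^ D * K' ^ 5), K' ^ 4, by positivity, by positivity, ?_⟩
  intro A hA hKA
  have hAc : (0 : ℝ) < A.card := by exact_mod_cast hA.card_pos
  have hKA' : ((A + A).card : ℝ) ≤ K' * A.card := by
    refine hKA.trans ?_
    have : K ≤ K' := hK' ▸ le_max_left _ _
    gcongr
  -- the modulus
  obtain ⟨n, hn⟩ : ∃ n : ℕ, n = max (dset 6 6 A).card A.card := ⟨_, rfl⟩
  have hnD : (dset 6 6 A).card ≤ n := hn ▸ le_max_left _ _
  have hnA : A.card ≤ n := hn ▸ le_max_right _ _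
  have hn1 : 1 ≤ n := le_trans hA.card_pos hnA
  have hn0 : (0 : ℝ) < n := by exact_mod_cast hn1
  have hnK : (n : ℝ) ≤ K' ^ 12 * A.card := by
    have h1 := A3_card A hA K' hKA' 6 6
    rw [hn, Nat.cast_max]
    refine max_le h1 ?_
    have h2 : (1 : ℝ) ≤ K' ^ 12 := one_le_pow₀ hK1
    nlinarith
  -- the model
  obtain ⟨A', hA'A, hA'c, ψ, hψ⟩ := A4 A n hnD hn1
  have hinjψ : Set.InjOn ψ (A' : Set ℂ) := A3_inj 6 (by norm_num) _ _ hψ
  have hBc : (A'.image ψ).card = A'.card := Finset.card_image_of_injOn hinjψ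
  have hB : α * n ≤ (A'.image ψ).card := by
    rw [hBc]
    have h1 : (A.card : ℝ) ≤ 6 * A'.card := by exact_mod_cast hA'c
    have h2 : α * n ≤ α * (K' ^ 12 * (6 * A'.card)) := by gcongr; exact hnK.trans (by gcongr)
    refine h2.trans_eq ?_
    rw [hα]
    field_simp
  obtain ⟨k, hk, ξ, hξ⟩ := A5 n hn1 (A'.image ψ) α hα0 hB
  have hkD : k + 1 ≤ D := by
    rw [hD]
    have := Nat.le_floor hk
    omega
  obtain ⟨φ, hφ1, hφ2, hφ3⟩ := A8 n A' ψ hψ
  have hmem : ∀ v : Fin (k + 1) → ℤ, ql n ξ v ≤ 1 → ((v 0 : ℤ) : ZMod n) ∈ dset 2 2 (A'.image ψ) :=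
    fun v hv => hξ (v 0) fun i => ⟨v i.succ, A6_bohr n hn1 ξ v hv i⟩
  have hLN := A6_isLN n hn1 ξ
  -- the function on the lattice
  obtain ⟨g, hg⟩ : ∃ g : (Fin (k + 1) → ℤ) → ℂ, g = fun v => φ ((v 0 : ℤ) : ZMod n) := ⟨_, rfl⟩
  have hgadd : ∀ v w, ql n ξ v ≤ 1 → ql n ξ w ≤ 1 → ql n ξ (v + w) ≤ 1 → g (v + w) = g v + g w := by
    intro v w hv hw hvw
    have h1 := hmem _ hvw
    rw [Pi.add_apply, Int.cast_add] at h1
    rw [hg]
    show φ (((v + w) 0 : ℤ) : ZMod n) = φ ((v 0 : ℤ) : ZMod n) + φ ((w 0 : ℤ) : ZMod n)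
    rw [Pi.add_apply, Int.cast_add]
    exact hφ3 _ (hmem v hv) _ (hmem w hw) h1
  obtain ⟨e, he⟩ := hred (k + 1) hkD (ql n ξ) hLN
  obtain ⟨d, hd, b, N, hN, hsum, hinj, hcov⟩ := A7_box (k + 1) (ql n ξ) hLN C hC e he
  let L : (Fin d → ℤ) →+ ℂ :=
    { toFun := fun x => ∑ i, x i • g (b i)
      map_zero' := by simp
      map_add' := fun x y => by simp only [Pi.add_apply, add_smul, Finset.sum_add_distrib] }
  have hL : ∀ x ∈ wB N 1, L x = g (∑ i, x i • b i) := fun x hx =>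
    (A7_lin (ql n ξ) hLN g hgadd b x (hsum x hx)).symm
  have hql : ∀ x ∈ wB N 1, ql n ξ (∑ i, x i • b i) ≤ 1 := by
    intro x hx
    refine (hLN.sum_le _ _).trans ?_
    refine le_trans (le_of_eq ?_) (hsum x hx)
    exact Finset.sum_congr rfl fun i _ => hLN.smul _ _
  have hLinj : Set.InjOn L (wB N 1 : Set (Fin d → ℤ)) := by
    intro x hx y hy hxy
    rw [Finset.mem_coe] at hx hy
    rw [hL x hx, hL y hy, hg] at hxy
    have h1 := hφ2 (hmem _ (hql x hx)) (hmem _ (hql y hy)) hxy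
    exact hinj (A6_inj n hn1 ξ _ _ (hql x hx) (hql y hy) h1)
  obtain ⟨Q, hQ⟩ : ∃ Q : Finset ℂ, Q = (wB N 1).image L := ⟨_, rfl⟩
  have hQc : Q.card = (wB N 1).card := by rw [hQ]; exact Finset.card_image_of_injOn hLinj
  have hQA : Q ⊆ dset 2 2 A := by
    intro y hy
    rw [hQ, Finset.mem_image] at hy
    obtain ⟨x, hx, rfl⟩ := hy
    rw [hL x hx, hg]
    exact AA_mono A A' hA'A (hφ1 _ (hmem _ (hql x hx)))
  -- lower bound
  have hlow : (A.card : ℝ) ≤ M ^ D * (wB N 1).card := by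
    have h1 := A6_card n hn1 ξ M hM1'
    have h2 : ({v | ql n ξ v ≤ (3 + 4 * k) / M} : Set (Fin (k + 1) → ℤ)) ⊆
        (fun x : Fin d → ℤ => ∑ i, x i • b i) '' (wB N 1 : Set (Fin d → ℤ)) := by
      intro v hv
      have hv' : ql n ξ v ≤ (3 + 4 * k) / M := hv
      have hkr : ((k : ℝ) + 1) ≤ D := by exact_mod_cast hkD
      have h3 : (3 + 4 * (k : ℝ)) / M ≤ 1 / (2 * ((k + 1 : ℕ) : ℝ) * C) := by
        have hk0 : (0 : ℝ) ≤ k := Nat.cast_nonneg k
        have hC0 : 0 < C := by linarith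
        rw [div_le_div_iff₀ hM0 (by positivity), one_mul]
        refine le_trans ?_ hMr
        push_cast
        gcongr
        linarith
      obtain ⟨x, hx, hxv⟩ := hcov v (hv'.trans h3)
      exact ⟨x, hx, hxv⟩
    have h3 : ({v | ql n ξ v ≤ (3 + 4 * k) / M} : Set (Fin (k + 1) → ℤ)).ncard ≤ (wB N 1).card := by
      refine (Set.ncard_le_ncard h2 ((Finset.finite_toSet _).image _)).trans ?_
      refine (Set.ncard_image_le (Finset.finite_toSet _)).trans ?_
      rw [Set.ncard_coe_finset]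
    have h4 : (n : ℝ) ≤ (M : ℝ) ^ (k + 1) * (wB N 1).card := by
      refine h1.trans ?_
      have : (({v | ql n ξ v ≤ (3 + 4 * k) / M} : Set (Fin (k + 1) → ℤ)).ncard : ℝ) ≤ (wB N 1).card := by
        exact_mod_cast h3
      gcongr
    have h5 : (M : ℝ) ^ (k + 1) ≤ (M : ℝ) ^ D := pow_le_pow_right₀ hM1 hkD
    calc (A.card : ℝ) ≤ n := by exact_mod_cast hnA
      _ ≤ (M : ℝ) ^ (k + 1) * (wB N 1).card := h4
      _ ≤ (M : ℝ) ^ D * (wB N 1).card := by gcongr
  obtain ⟨z, hz⟩ := A9 A hA K' hKA' Q hQA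
  refine ⟨d, hd.trans hkD, N, L, z, hN, ?_, ?_⟩
  · rw [← hQc]
    have h1 := A3_card A hA K' hKA' 2 2
    refine le_trans ?_ h1
    exact_mod_cast Finset.card_le_card hQA
  · have h1 : (A.filter fun a => ∃ p ∈ Q, a = z + p) = A.filter fun a => ∃ x ∈ wB N 1, a = z + L x := by
      refine Finset.filter_congr fun a _ => ?_
      rw [hQ]
      constructor
      · rintro ⟨p, hp, rfl⟩
        rw [Finset.mem_image] at hp
        obtain ⟨x, hx, rfl⟩ := hp
        exact ⟨x, hx, rfl⟩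
      · rintro ⟨x, hx, rfl⟩
        exact ⟨L x, Finset.mem_image_of_mem _ hx, rfl⟩
    rw [h1, hQc] at hz
    rw [div_mul_eq_mul_div, one_mul, div_le_iff₀ (by positivity)]
    calc (A.card : ℝ) ≤ M ^ D * (wB N 1).card := hlow
      _ ≤ M ^ D * (K' ^ 5 * (A.filter fun a => ∃ x ∈ wB N 1, a = z + L x).card) := by gcongr
      _ = (A.filter fun a => ∃ x ∈ wB N 1, a = z + L x).card * (M ^ D * K' ^ 5) := by ring

end Pool.Agent.SD
end

section

/-!
Balog-Szemeredi-Gowers theorem, in the form with one set (helper50).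

For a finite set A of an additive commutative group with additive energy at least n^3 / K there is
a subset A' with #A' at least n / (8 K) and #(A' - A') at most 2^22 K^10 #A', hence
#(A' + A') at most (2^22 K^10)^2 #A' by Pluennecke.

Proof: popular pairs (a, b): the difference a - b has at least n / (2K) representations. The set D
of popular differences has at most 2 K n elements. A random neighbourhood N in the graph of popular
pairs is large and at most 1/8 of its pairs are bad (few common neighbours). A good pair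
a, a' has a - a' in the set S of elements with many representations as a difference of two elements
of D. After deleting elements with many bad partners, any two elements a, a'' left have at least
#N / 2 common good partners, so a - a'' has many representations as a difference of elements of S.
-/

namespace Pool.Agent.SD
open Finset
open scoped Pointwise

section graph
variable {α : Type*} [DecidableEq α]

/-- The number of common neighbours. -/
def cdg (A : Finset α) (G : α → α → Prop) [DecidableRel G] (p : α × α) : ℕ :=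
  #{b ∈ A | G p.1 b ∧ G p.2 b}

omit [DecidableEq α] in
/-- A dense graph contains a neighbourhood which is large and in which few pairs have few common
neighbours. -/
theorem exists_nbhd (A : Finset α) (hA : A.Nonempty) (G : α → α → Prop) [DecidableRel G] (δ : ℝ)
    (hδ : 0 < δ) (hG : δ * (#A : ℝ) ^ 2 ≤ #{p ∈ A ×ˢ A | G p.1 p.2}) :
    ∃ b ∈ A, δ ^ 2 * (#A : ℝ) ^ 2 / 2 +
      8 * (#{p ∈ (A.filter (fun a => G a b)) ×ˢ (A.filter (fun a => G a b)) |
        (cdg A G p : ℝ) < δ ^ 2 / 16 * #A} : ℝ) ≤ (#(A.filter (fun a => G a b)) : ℝ) ^ 2 := by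
  classical
  have hn : (0 : ℝ) < #A := by exact_mod_cast hA.card_pos
  apply Finset.exists_le_of_sum_le hA
  rw [Finset.sum_add_distrib, ← Finset.mul_sum]
  -- the sum of the degrees
  have h1 : (#{p ∈ A ×ˢ A | G p.1 p.2} : ℝ) = ∑ b ∈ A, (#(A.filter (fun a => G a b)) : ℝ) := by
    rw [← Nat.cast_sum]
    congr 1
    rw [Finset.card_filter, Finset.sum_product_right]
    refine Finset.sum_congr rfl fun b _ => ?_
    rw [Finset.card_filter]
  have h2 := sq_sum_le_card_mul_sum_sq (s := A) (f := fun b => (#(A.filter (fun a => G a b)) : ℝ))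
  rw [← h1] at h2
  have h3 : (δ * (#A : ℝ) ^ 2) ^ 2 ≤ (#{p ∈ A ×ˢ A | G p.1 p.2} : ℝ) ^ 2 := by
    gcongr
  have h4 : δ ^ 2 * (#A : ℝ) ^ 3 ≤ ∑ b ∈ A, (#(A.filter (fun a => G a b)) : ℝ) ^ 2 := by
    have : (#A : ℝ) * (δ ^ 2 * (#A : ℝ) ^ 3) ≤
        #A * ∑ b ∈ A, (#(A.filter (fun a => G a b)) : ℝ) ^ 2 := by
      calc (#A : ℝ) * (δ ^ 2 * (#A : ℝ) ^ 3) = (δ * (#A : ℝ) ^ 2) ^ 2 := by ring
        _ ≤ _ := h3.trans h2
    exact le_of_mul_le_mul_left this hn
  -- the bad pairs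
  have h5 : ∑ b ∈ A, (#{p ∈ (A.filter (fun a => G a b)) ×ˢ (A.filter (fun a => G a b)) |
        (cdg A G p : ℝ) < δ ^ 2 / 16 * #A} : ℝ) ≤ δ ^ 2 / 16 * (#A : ℝ) ^ 3 := by
    have e1 : ∀ b ∈ A, #{p ∈ (A.filter (fun a => G a b)) ×ˢ (A.filter (fun a => G a b)) |
        (cdg A G p : ℝ) < δ ^ 2 / 16 * #A} =
        #{p ∈ (A ×ˢ A).filter (fun p => (cdg A G p : ℝ) < δ ^ 2 / 16 * #A) |
          G p.1 b ∧ G p.2 b} := by
      intro b _
      congr 1
      ext p
      simp only [Finset.mem_filter, Finset.mem_product]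
      tauto
    have e2 : ∑ b ∈ A, #{p ∈ (A.filter (fun a => G a b)) ×ˢ (A.filter (fun a => G a b)) |
        (cdg A G p : ℝ) < δ ^ 2 / 16 * #A} =
        ∑ p ∈ (A ×ˢ A).filter (fun p => (cdg A G p : ℝ) < δ ^ 2 / 16 * #A), cdg A G p := by
      rw [Finset.sum_congr rfl e1]
      simp_rw [Finset.card_filter, cdg, Finset.card_filter]
      rw [Finset.sum_comm]
    rw [← Nat.cast_sum, e2, Nat.cast_sum]
    calc ∑ p ∈ (A ×ˢ A).filter (fun p => (cdg A G p : ℝ) < δ ^ 2 / 16 * #A), (cdg A G p : ℝ)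
        ≤ ∑ p ∈ (A ×ˢ A).filter (fun p => (cdg A G p : ℝ) < δ ^ 2 / 16 * #A), δ ^ 2 / 16 * #A := by
          refine Finset.sum_le_sum fun p hp => ?_
          exact (Finset.mem_filter.1 hp).2.le
      _ = (#((A ×ˢ A).filter (fun p => (cdg A G p : ℝ) < δ ^ 2 / 16 * #A)) : ℝ) *
          (δ ^ 2 / 16 * #A) := by rw [Finset.sum_const, nsmul_eq_mul]
      _ ≤ ((#A : ℝ) * #A) * (δ ^ 2 / 16 * #A) := by
          gcongr
          have := Finset.card_filter_le (A ×ˢ A) (fun p => (cdg A G p : ℝ) < δ ^ 2 / 16 * #A)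
          rw [Finset.card_product] at this
          exact_mod_cast this
      _ = δ ^ 2 / 16 * (#A : ℝ) ^ 3 := by ring
  have h6 : ∑ _b ∈ A, δ ^ 2 * (#A : ℝ) ^ 2 / 2 = δ ^ 2 * (#A : ℝ) ^ 3 / 2 := by
    rw [Finset.sum_const, nsmul_eq_mul]; ring
  rw [h6]
  linarith

/-- Deleting the elements with many bad partners. -/
theorem exists_core (N : Finset α) (hN : N.Nonempty) (B : α × α → Prop) [DecidablePred B]
    (hB : 8 * (#{p ∈ N ×ˢ N | B p} : ℝ) ≤ (#N : ℝ) ^ 2) :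
    ∃ C ⊆ N, (#N : ℝ) / 2 ≤ #C ∧ ∀ a ∈ C, ∀ c ∈ C,
      (#N : ℝ) / 2 ≤ #{x ∈ N | ¬ B (a, x) ∧ ¬ B (c, x)} := by
  classical
  have hn : (0 : ℝ) < #N := by exact_mod_cast hN.card_pos
  refine ⟨N.filter (fun a => (#{x ∈ N | B (a, x)} : ℝ) ≤ #N / 4), Finset.filter_subset _ _, ?_, ?_⟩
  · have h1 : (#{p ∈ N ×ˢ N | B p} : ℝ) = ∑ a ∈ N, (#{x ∈ N | B (a, x)} : ℝ) := by
      rw [← Nat.cast_sum]
      congr 1
      rw [Finset.card_filter, Finset.sum_product]
      refine Finset.sum_congr rfl fun b _ => ?_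
      rw [Finset.card_filter]
    have h2 : (#(N.filter (fun a => ¬ (#{x ∈ N | B (a, x)} : ℝ) ≤ #N / 4)) : ℝ) * (#N / 4) ≤
        ∑ a ∈ N, (#{x ∈ N | B (a, x)} : ℝ) := by
      calc (#(N.filter (fun a => ¬ (#{x ∈ N | B (a, x)} : ℝ) ≤ #N / 4)) : ℝ) * (#N / 4)
          = ∑ _a ∈ N.filter (fun a => ¬ (#{x ∈ N | B (a, x)} : ℝ) ≤ #N / 4), (#N / 4 : ℝ) := by
            rw [Finset.sum_const, nsmul_eq_mul]
        _ ≤ ∑ a ∈ N.filter (fun a => ¬ (#{x ∈ N | B (a, x)} : ℝ) ≤ #N / 4),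
            (#{x ∈ N | B (a, x)} : ℝ) := by
            refine Finset.sum_le_sum fun a ha => ?_
            exact (not_le.1 (Finset.mem_filter.1 ha).2).le
        _ ≤ _ := Finset.sum_le_sum_of_subset_of_nonneg (Finset.filter_subset _ _)
            (fun _ _ _ => Nat.cast_nonneg _)
    have h3 : (#(N.filter (fun a => (#{x ∈ N | B (a, x)} : ℝ) ≤ #N / 4)) : ℝ) +
        #(N.filter (fun a => ¬ (#{x ∈ N | B (a, x)} : ℝ) ≤ #N / 4)) = #N := by
      exact_mod_cast Finset.card_filter_add_card_filter_not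
        (s := N) (p := fun a => (#{x ∈ N | B (a, x)} : ℝ) ≤ #N / 4)
    have h4 : (#(N.filter (fun a => ¬ (#{x ∈ N | B (a, x)} : ℝ) ≤ #N / 4)) : ℝ) ≤ #N / 2 := by
      have : (#(N.filter (fun a => ¬ (#{x ∈ N | B (a, x)} : ℝ) ≤ #N / 4)) : ℝ) * (#N / 4) ≤
          (#N / 2) * (#N / 4) := by
        rw [← h1] at h2
        nlinarith
      exact le_of_mul_le_mul_right this (by positivity)
    linarith
  · intro a ha c hc
    have ha2 := (Finset.mem_filter.1 ha).2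
    have hc2 := (Finset.mem_filter.1 hc).2
    have hsub : N ⊆ (N.filter (fun x => ¬ B (a, x) ∧ ¬ B (c, x))) ∪
        ((N.filter (fun x => B (a, x))) ∪ (N.filter (fun x => B (c, x)))) := by
      intro x hx
      simp only [Finset.mem_union, Finset.mem_filter]
      tauto
    have h1 := Finset.card_le_card hsub
    have h2 := Finset.card_union_le (N.filter (fun x => ¬ B (a, x) ∧ ¬ B (c, x)))
      ((N.filter (fun x => B (a, x))) ∪ (N.filter (fun x => B (c, x))))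
    have h3 := Finset.card_union_le (N.filter (fun x => B (a, x))) (N.filter (fun x => B (c, x)))
    have h4 : (#N : ℝ) ≤ #{x ∈ N | ¬ B (a, x) ∧ ¬ B (c, x)} + (#{x ∈ N | B (a, x)} +
        #{x ∈ N | B (c, x)}) := by
      exact_mod_cast h1.trans (h2.trans (by omega))
    linarith

end graph

section group
variable {G : Type*} [AddCommGroup G] [DecidableEq G]

/-- The number of representations of d as a difference of two elements of T. -/
def rep (T : Finset G) (d : G) : ℕ := #{p ∈ T ×ˢ T | p.1 - p.2 = d}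

theorem rep_count (T X : Finset G) (m : ℝ) (h : ∀ d ∈ X, m ≤ rep T d) :
    (#X : ℝ) * m ≤ (#T : ℝ) ^ 2 := by
  have h1 : ∑ d ∈ X, rep T d ≤ #(T ×ˢ T) := by
    unfold rep
    rw [← Finset.card_biUnion]
    · exact Finset.card_le_card (Finset.biUnion_subset.2 fun _ _ => Finset.filter_subset _ _)
    · intro a _ b _ hab
      rw [Function.onFun, Finset.disjoint_left]
      intro p hp hq
      exact hab ((Finset.mem_filter.1 hp).2.symm.trans (Finset.mem_filter.1 hq).2)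
  calc (#X : ℝ) * m = ∑ _d ∈ X, m := by rw [Finset.sum_const, nsmul_eq_mul]
    _ ≤ ∑ d ∈ X, (rep T d : ℝ) := Finset.sum_le_sum h
    _ ≤ (#(T ×ˢ T) : ℝ) := by exact_mod_cast h1
    _ = (#T : ℝ) ^ 2 := by rw [Finset.card_product]; push_cast; ring

theorem rep_le (T : Finset G) (d : G) : rep T d ≤ #T := by
  unfold rep
  refine Finset.card_le_card_of_injOn (fun p => p.2) ?_ ?_
  · intro p hp
    exact (Finset.mem_product.1 (Finset.mem_filter.1 hp).1).2
  · intro p hp q hq hpq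
    have h1 := (Finset.mem_filter.1 (Finset.mem_coe.1 hp)).2
    have h2 := (Finset.mem_filter.1 (Finset.mem_coe.1 hq)).2
    have h3 : p.2 = q.2 := hpq
    refine Prod.ext ?_ h3
    rw [sub_eq_iff_eq_add.1 h1, sub_eq_iff_eq_add.1 h2, h3]

/-- The additive energy as a sum over pairs. -/
theorem energy_eq (A : Finset G) :
    #{q ∈ (A ×ˢ A) ×ˢ (A ×ˢ A) | q.1.1 + q.1.2 = q.2.1 + q.2.2} =
      ∑ p ∈ A ×ˢ A, rep A (p.1 - p.2) := by
  have h1 : ∑ p ∈ A ×ˢ A, rep A (p.1 - p.2) =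
      #{q ∈ (A ×ˢ A) ×ˢ (A ×ˢ A) | q.2.1 - q.2.2 = q.1.1 - q.1.2} := by
    rw [Finset.card_filter, Finset.sum_product (A ×ˢ A) (A ×ˢ A)]
    refine Finset.sum_congr rfl fun p _ => ?_
    unfold rep
    rw [Finset.card_filter]
  rw [h1]
  refine Finset.card_bij (fun q _ => ((q.1.1, q.2.1), (q.2.2, q.1.2))) ?_ ?_ ?_
  · rintro ⟨⟨a, b⟩, ⟨c, d⟩⟩ h
    simp only [Finset.mem_filter, Finset.mem_product] at h ⊢
    refine ⟨⟨⟨h.1.1.1, h.1.2.1⟩, ⟨h.1.2.2, h.1.1.2⟩⟩, ?_⟩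
    rw [sub_eq_sub_iff_add_eq_add, add_comm d c]
    exact h.2.symm
  · rintro ⟨⟨a, b⟩, ⟨c, d⟩⟩ _ ⟨⟨a', b'⟩, ⟨c', d'⟩⟩ _ h
    simp only [Prod.mk.injEq] at h ⊢
    tauto
  · rintro ⟨⟨a, b⟩, ⟨c, d⟩⟩ h
    simp only [Finset.mem_filter, Finset.mem_product] at h
    refine ⟨((a, d), (b, c)), ?_, rfl⟩
    simp only [Finset.mem_filter, Finset.mem_product]
    refine ⟨⟨⟨h.1.1.1, h.1.2.2⟩, ⟨h.1.1.2, h.1.2.1⟩⟩, ?_⟩
    have := h.2
    rw [sub_eq_sub_iff_add_eq_add] at this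
    rw [add_comm b c]
    exact this.symm

/-- Many popular pairs. -/
theorem popular_pairs (A : Finset G) (hA : A.Nonempty) (K : ℝ) (hK : 1 ≤ K)
    (hE : (#A : ℝ) ^ 3 ≤ K * #{q ∈ (A ×ˢ A) ×ˢ (A ×ˢ A) | q.1.1 + q.1.2 = q.2.1 + q.2.2}) :
    1 / (2 * K) * (#A : ℝ) ^ 2 ≤
      #{p ∈ A ×ˢ A | (#A : ℝ) / (2 * K) ≤ rep A (p.1 - p.2)} := by
  have hn : (0 : ℝ) < #A := by exact_mod_cast hA.card_pos
  have hK0 : 0 < K := by linarith
  rw [energy_eq] at hE
  push_cast at hE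
  rw [← Finset.sum_filter_add_sum_filter_not (A ×ˢ A)
    (fun p => (#A : ℝ) / (2 * K) ≤ rep A (p.1 - p.2))] at hE
  have h1 : ∑ p ∈ (A ×ˢ A).filter (fun p => (#A : ℝ) / (2 * K) ≤ rep A (p.1 - p.2)),
      (rep A (p.1 - p.2) : ℝ) ≤
      (#{p ∈ A ×ˢ A | (#A : ℝ) / (2 * K) ≤ rep A (p.1 - p.2)} : ℝ) * #A := by
    calc ∑ p ∈ (A ×ˢ A).filter (fun p => (#A : ℝ) / (2 * K) ≤ rep A (p.1 - p.2)),
        (rep A (p.1 - p.2) : ℝ)
        ≤ ∑ _p ∈ (A ×ˢ A).filter (fun p => (#A : ℝ) / (2 * K) ≤ rep A (p.1 - p.2)), (#A : ℝ) := by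
          refine Finset.sum_le_sum fun p _ => ?_
          exact_mod_cast rep_le A _
      _ = _ := by rw [Finset.sum_const, nsmul_eq_mul]
  have h2 : ∑ p ∈ (A ×ˢ A).filter (fun p => ¬ (#A : ℝ) / (2 * K) ≤ rep A (p.1 - p.2)),
      (rep A (p.1 - p.2) : ℝ) ≤ ((#A : ℝ) * #A) * (#A / (2 * K)) := by
    calc ∑ p ∈ (A ×ˢ A).filter (fun p => ¬ (#A : ℝ) / (2 * K) ≤ rep A (p.1 - p.2)),
        (rep A (p.1 - p.2) : ℝ)
        ≤ ∑ _p ∈ (A ×ˢ A).filter (fun p => ¬ (#A : ℝ) / (2 * K) ≤ rep A (p.1 - p.2)),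
          ((#A : ℝ) / (2 * K)) := by
          refine Finset.sum_le_sum fun p hp => ?_
          exact (not_le.1 (Finset.mem_filter.1 hp).2).le
      _ = (#((A ×ˢ A).filter (fun p => ¬ (#A : ℝ) / (2 * K) ≤ rep A (p.1 - p.2))) : ℝ) *
          (#A / (2 * K)) := by rw [Finset.sum_const, nsmul_eq_mul]
      _ ≤ _ := by
          gcongr
          have := Finset.card_filter_le (A ×ˢ A)
            (fun p => ¬ (#A : ℝ) / (2 * K) ≤ rep A (p.1 - p.2))
          rw [Finset.card_product] at this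
          exact_mod_cast this
  have h3 : (#A : ℝ) ^ 3 ≤ K * ((#{p ∈ A ×ˢ A | (#A : ℝ) / (2 * K) ≤ rep A (p.1 - p.2)} : ℝ) * #A
      + ((#A : ℝ) * #A) * (#A / (2 * K))) := hE.trans (by gcongr)
  have h4 : K * (((#A : ℝ) * #A) * (#A / (2 * K))) = (#A : ℝ) ^ 3 / 2 := by
    field_simp
  have h5 : (#A : ℝ) ^ 3 / 2 ≤
      K * #{p ∈ A ×ˢ A | (#A : ℝ) / (2 * K) ≤ rep A (p.1 - p.2)} * #A := by
    nlinarith
  have h6 : (#A : ℝ) ^ 2 / 2 ≤
      K * #{p ∈ A ×ˢ A | (#A : ℝ) / (2 * K) ≤ rep A (p.1 - p.2)} := by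
    have : (#A : ℝ) ^ 2 / 2 * #A ≤
      K * #{p ∈ A ×ˢ A | (#A : ℝ) / (2 * K) ≤ rep A (p.1 - p.2)} * #A := by nlinarith
    exact le_of_mul_le_mul_right this hn
  rw [div_mul_eq_mul_div, one_mul, div_le_iff₀ (by positivity)]
  linarith

/-- Balog-Szemeredi-Gowers, difference form with explicit constants. -/
theorem bsg_sub (A : Finset G) (hA : A.Nonempty) (K : ℝ) (hK : 1 ≤ K)
    (hE : (#A : ℝ) ^ 3 ≤ K * #{q ∈ (A ×ˢ A) ×ˢ (A ×ˢ A) | q.1.1 + q.1.2 = q.2.1 + q.2.2}) :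
    ∃ C ⊆ A, (#A : ℝ) / (8 * K) ≤ #C ∧ (#(C - C) : ℝ) ≤ 2 ^ 22 * K ^ 10 * #C := by
  classical
  have hn : (0 : ℝ) < #A := by exact_mod_cast hA.card_pos
  have hK0 : 0 < K := by linarith
  set δ : ℝ := 1 / (2 * K) with hδ
  have hδ0 : 0 < δ := by positivity
  obtain ⟨b, hb, hbN⟩ := exists_nbhd A hA
    (fun x y => (#A : ℝ) / (2 * K) ≤ rep A (x - y)) δ hδ0 (popular_pairs A hA K hK hE)
  set N := A.filter (fun a => (#A : ℝ) / (2 * K) ≤ rep A (a - b)) with hNdef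
  set cd : G × G → ℕ := cdg A (fun x y => (#A : ℝ) / (2 * K) ≤ rep A (x - y)) with hcd
  have hNA : N ⊆ A := Finset.filter_subset _ _
  have hbad0 : (0 : ℝ) ≤ #{p ∈ N ×ˢ N | (cd p : ℝ) < δ ^ 2 / 16 * #A} := Nat.cast_nonneg _
  have hN2 : δ ^ 2 * (#A : ℝ) ^ 2 / 2 ≤ (#N : ℝ) ^ 2 := by linarith
  have hNpos : (0 : ℝ) < #N := by
    rcases Nat.eq_zero_or_pos #N with h | h
    · exfalso
      rw [h] at hN2
      have : 0 < δ ^ 2 * (#A : ℝ) ^ 2 / 2 := by positivity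
      norm_num at hN2
      linarith
    · exact_mod_cast h
  have hNne : N.Nonempty := Finset.card_pos.1 (by exact_mod_cast hNpos)
  have hNl : δ * #A / 2 ≤ (#N : ℝ) := by
    by_contra hcon
    push Not at hcon
    have : (#N : ℝ) ^ 2 < (δ * #A / 2) ^ 2 := by gcongr
    have h2 : 0 < δ ^ 2 * (#A : ℝ) ^ 2 := by positivity
    nlinarith
  obtain ⟨C, hCN, hC1, hC2⟩ := exists_core N hNne (fun p => (cd p : ℝ) < δ ^ 2 / 16 * #A)
    (by have : 0 ≤ δ ^ 2 * (#A : ℝ) ^ 2 / 2 := by positivity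
        linarith)
  -- popular differences
  set D : Finset G := ((A ×ˢ A).filter (fun p => (#A : ℝ) / (2 * K) ≤ rep A (p.1 - p.2))).image
    (fun p => p.1 - p.2) with hD
  have hDm : ∀ x ∈ A, ∀ y ∈ A, (#A : ℝ) / (2 * K) ≤ rep A (x - y) → x - y ∈ D := by
    intro x hx y hy h
    exact Finset.mem_image.2 ⟨(x, y), Finset.mem_filter.2 ⟨Finset.mem_product.2 ⟨hx, hy⟩, h⟩, rfl⟩
  have hDc : (#D : ℝ) ≤ 2 * K * #A := by
    have h1 := rep_count A D ((#A : ℝ) / (2 * K)) (by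
      intro d hd
      obtain ⟨p, hp, rfl⟩ := Finset.mem_image.1 hd
      exact (Finset.mem_filter.1 hp).2)
    have h2 : (#D : ℝ) * (#A / (2 * K)) ≤ (2 * K * #A) * (#A / (2 * K)) := by
      refine h1.trans (le_of_eq ?_)
      field_simp
    exact le_of_mul_le_mul_right h2 (by positivity)
  -- differences with many representations by popular differences
  set S : Finset G := ((A ×ˢ A).filter (fun p => δ ^ 2 / 16 * #A ≤ rep D (p.1 - p.2))).image
    (fun p => p.1 - p.2) with hS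
  have hSc : (#S : ℝ) * (δ ^ 2 / 16 * #A) ≤ (2 * K * #A) ^ 2 := by
    have h1 := rep_count D S (δ ^ 2 / 16 * #A) (by
      intro d hd
      obtain ⟨p, hp, rfl⟩ := Finset.mem_image.1 hd
      exact (Finset.mem_filter.1 hp).2)
    exact h1.trans (by gcongr)
  have hgood : ∀ x ∈ A, ∀ y ∈ A, ¬ (cd (x, y) : ℝ) < δ ^ 2 / 16 * #A → x - y ∈ S := by
    intro x hx y hy h
    push Not at h
    refine Finset.mem_image.2 ⟨(x, y), Finset.mem_filter.2 ⟨Finset.mem_product.2 ⟨hx, hy⟩, ?_⟩, rfl⟩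
    refine h.trans ?_
    have : cd (x, y) ≤ rep D (x - y) := by
      rw [hcd]
      unfold cdg rep
      refine Finset.card_le_card_of_injOn (fun z => (x - z, y - z)) ?_ ?_
      · intro z hz
        have hz2 := Finset.mem_filter.1 (Finset.mem_coe.1 hz)
        refine Finset.mem_coe.2 (Finset.mem_filter.2 ⟨Finset.mem_product.2
          ⟨hDm x hx z hz2.1 hz2.2.1, hDm y hy z hz2.1 hz2.2.2⟩, ?_⟩)
        simp
      · intro z _ w _ hzw
        have := congrArg Prod.fst hzw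
        simpa using this
    exact_mod_cast this
  -- the difference set of C
  have hCC : (#(C - C) : ℝ) * (#N / 2) ≤ (#S : ℝ) ^ 2 := by
    refine rep_count S (C - C) _ ?_
    intro d hd
    obtain ⟨x, hx, y, hy, rfl⟩ := Finset.mem_sub.1 hd
    refine (hC2 x hx y hy).trans ?_
    have : #{z ∈ N | ¬ (cd (x, z) : ℝ) < δ ^ 2 / 16 * #A ∧ ¬ (cd (y, z) : ℝ) < δ ^ 2 / 16 * #A} ≤
        rep S (x - y) := by
      unfold rep
      refine Finset.card_le_card_of_injOn (fun z => (x - z, y - z)) ?_ ?_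
      · intro z hz
        have hz2 := Finset.mem_filter.1 (Finset.mem_coe.1 hz)
        refine Finset.mem_coe.2 (Finset.mem_filter.2 ⟨Finset.mem_product.2
          ⟨hgood x (hNA (hCN hx)) z (hNA hz2.1) hz2.2.1,
            hgood y (hNA (hCN hy)) z (hNA hz2.1) hz2.2.2⟩, ?_⟩)
        simp
      · intro z _ w _ hzw
        have := congrArg Prod.fst hzw
        simpa using this
    exact_mod_cast this
  have hKδ : 2 * K * δ = 1 := by rw [hδ]; field_simp
  have hCl : (#A : ℝ) / (8 * K) ≤ #C := by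
    have h1 : (#A : ℝ) / (8 * K) = δ * #A / 2 / 2 := by rw [hδ]; field_simp; norm_num
    rw [h1]
    linarith
  refine ⟨C, hCN.trans hNA, hCl, ?_⟩
  have hA8 : (#A : ℝ) ≤ 8 * K * #C := by
    rw [div_le_iff₀ (by positivity)] at hCl
    linarith
  have hSc2 : (#S : ℝ) ≤ 256 * K ^ 4 * #A := by
    have h1 : δ ^ 2 / 16 * #A = #A / (64 * K ^ 2) := by rw [hδ]; field_simp; norm_num
    rw [h1] at hSc
    have h2 : (#S : ℝ) * (#A / (64 * K ^ 2)) ≤ (256 * K ^ 4 * #A) * (#A / (64 * K ^ 2)) := by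
      refine hSc.trans (le_of_eq ?_)
      field_simp
      norm_num
    exact le_of_mul_le_mul_right h2 (by positivity)
  have hNl2 : (#A : ℝ) / (4 * K) ≤ #N := by
    refine le_trans (le_of_eq ?_) hNl
    rw [hδ]; field_simp; norm_num
  have h7 : (#(C - C) : ℝ) * (#A / (8 * K)) ≤ (256 * K ^ 4 * #A) ^ 2 := by
    calc (#(C - C) : ℝ) * (#A / (8 * K)) = (#(C - C) : ℝ) * (#A / (4 * K) / 2) := by
          congr 1; field_simp; norm_num
      _ ≤ (#(C - C) : ℝ) * (#N / 2) := by gcongr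
      _ ≤ (#S : ℝ) ^ 2 := hCC
      _ ≤ _ := by gcongr
  have h8 : (#(C - C) : ℝ) ≤ 2 ^ 19 * K ^ 9 * #A := by
    have h9 : (#(C - C) : ℝ) * (#A / (8 * K)) ≤ (2 ^ 19 * K ^ 9 * #A) * (#A / (8 * K)) := by
      refine h7.trans (le_of_eq ?_)
      field_simp
      norm_num
    exact le_of_mul_le_mul_right h9 (by positivity)
  calc (#(C - C) : ℝ) ≤ 2 ^ 19 * K ^ 9 * #A := h8
    _ ≤ 2 ^ 19 * K ^ 9 * (8 * K * #C) := by gcongr
    _ = 2 ^ 22 * K ^ 10 * #C := by ring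

/-- Balog-Szemeredi-Gowers, sum form. -/
theorem bsg_add (K : ℝ) : ∃ K' c : ℝ, 0 < c ∧ ∀ A : Finset G, A.Nonempty →
    (#A : ℝ) ^ 3 ≤ K * #{q ∈ (A ×ˢ A) ×ˢ (A ×ˢ A) | q.1.1 + q.1.2 = q.2.1 + q.2.2} →
    ∃ C ⊆ A, c * #A ≤ #C ∧ (#(C + C) : ℝ) ≤ K' * #C := by
  classical
  set L : ℝ := max K 1 with hL
  have hL1 : 1 ≤ L := le_max_right _ _
  refine ⟨(2 ^ 22 * L ^ 10) ^ 2, 1 / (8 * L), by positivity, ?_⟩
  intro A hA hE
  have hE2 : (#A : ℝ) ^ 3 ≤
      L * #{q ∈ (A ×ˢ A) ×ˢ (A ×ˢ A) | q.1.1 + q.1.2 = q.2.1 + q.2.2} := by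
    refine hE.trans ?_
    gcongr
    exact le_max_left _ _
  obtain ⟨C, hCA, hC1, hC2⟩ := bsg_sub A hA L hL1 hE2
  have hn : (0 : ℝ) < #A := by exact_mod_cast hA.card_pos
  have hCpos : (0 : ℝ) < #C := lt_of_lt_of_le (by positivity) hC1
  have hCne : C.Nonempty := Finset.card_pos.1 (by exact_mod_cast hCpos)
  refine ⟨C, hCA, ?_, ?_⟩
  · refine le_trans (le_of_eq ?_) hC1
    field_simp
  · have h1 := Finset.pluennecke_ruzsa_inequality_nsmul_sub (A := C) hCne C 2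
    rw [two_nsmul] at h1
    have h2 : (#(C + C) : ℝ) ≤ ((#(C - C) : ℝ) / #C) ^ 2 * #C := by
      have h3 : ((#(C + C) : ℚ≥0) : ℝ) ≤ (((#(C - C) / #C : ℚ≥0) ^ 2 * #C : ℚ≥0) : ℝ) :=
        NNRat.cast_le.2 h1
      push_cast at h3
      exact h3
    refine h2.trans ?_
    gcongr
    rw [div_le_iff₀ hCpos]
    exact hC2

/-- Our energy is the energy of Mathlib. -/
theorem energy_eq_addEnergy (A : Finset G) :
    #{q ∈ (A ×ˢ A) ×ˢ (A ×ˢ A) | q.1.1 + q.1.2 = q.2.1 + q.2.2} = Finset.addEnergy A A := by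
  unfold Finset.addEnergy
  refine Finset.card_bij (fun q _ => ((q.1.1, q.2.1), (q.1.2, q.2.2))) ?_ ?_ ?_
  · rintro ⟨⟨a, b⟩, ⟨c, d⟩⟩ h
    simp only [Finset.mem_filter, Finset.mem_product] at h ⊢
    exact ⟨⟨⟨h.1.1.1, h.1.2.1⟩, ⟨h.1.1.2, h.1.2.2⟩⟩, h.2⟩
  · rintro ⟨⟨a, b⟩, ⟨c, d⟩⟩ _ ⟨⟨a', b'⟩, ⟨c', d'⟩⟩ _ h
    simp only [Prod.mk.injEq] at h ⊢
    tauto
  · rintro ⟨⟨a, b⟩, ⟨c, d⟩⟩ h
    simp only [Finset.mem_filter, Finset.mem_product] at h
    refine ⟨((a, c), (b, d)), ?_, rfl⟩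
    simp only [Finset.mem_filter, Finset.mem_product]
    exact ⟨⟨⟨h.1.1.1, h.1.2.1⟩, ⟨h.1.1.2, h.1.2.2⟩⟩, h.2⟩

end group

/-- Balog-Szemeredi-Gowers for finite sets of complex numbers (sum form). -/
theorem BSG (K : ℝ) : ∃ K' c : ℝ, 0 < c ∧ ∀ A : Finset ℂ, A.Nonempty →
    (A.card : ℝ) ^ 3 ≤ K * (((A ×ˢ A) ×ˢ (A ×ˢ A)).filter
      (fun q : (ℂ × ℂ) × (ℂ × ℂ) => q.1.1 + q.1.2 = q.2.1 + q.2.2)).card →
    ∃ A' ⊆ A, c * A.card ≤ (A'.card : ℝ) ∧ ((A' + A').card : ℝ) ≤ K' * A'.card :=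
  bsg_add K

/-- The same with the additive energy of Mathlib. -/
theorem BSG_energy (K : ℝ) : ∃ K' c : ℝ, 0 < c ∧ ∀ A : Finset ℂ, A.Nonempty →
    (A.card : ℝ) ^ 3 ≤ K * (Finset.addEnergy A A : ℕ) →
    ∃ A' ⊆ A, c * A.card ≤ (A'.card : ℝ) ∧ ((A' + A').card : ℝ) ≤ K' * A'.card := by
  obtain ⟨K', c, hc, h⟩ := bsg_add (G := ℂ) K
  refine ⟨K', c, hc, fun A hA hE => h A hA ?_⟩
  rw [energy_eq_addEnergy]
  exact hE

end Pool.Agent.SD
end

section

/-!
# TASK SD BasA: parallel complex numbers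

PROOFS.  `par θ z` says `θ.re * z.im - θ.im * z.re = 0` (`par_iff`).  All other statements follow by linear algebra with
real and imaginary parts: e.g. `par_trans`: from `θ.re z.im = θ.im z.re`, `θ.re w.im = θ.im w.re` and `θ ≠ 0`
(case `θ.re ≠ 0`: `z = (z.re/θ.re) θ`, `w = (w.re/θ.re) θ`; case `θ.im ≠ 0` similar) one gets `par z w`.
`par_iff_smul`: for `θ ≠ 0`, `z = t θ` with `t = (conj θ * z).re / |θ|²`.
`par_two`: if `z` is parallel to two non-parallel `θ, θ'` then `z = 0` (a nonzero `z` would give `par θ θ'` by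
symmetry and transitivity).
-/

set_option autoImplicit false

open scoped ComplexConjugate
open Finset

namespace Pool.Agent.SD

theorem par_iff {θ z : ℂ} : par θ z ↔ θ.re * z.im = θ.im * z.re := by
  unfold par
  constructor
  · intro h
    simp only [Complex.mul_im, Complex.conj_re, Complex.conj_im] at h
    linarith
  · intro h
    simp only [Complex.mul_im, Complex.conj_re, Complex.conj_im]
    linarith

theorem par_zero (θ : ℂ) : par θ 0 := by
  rw [par_iff]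
  simp

theorem par_self (θ : ℂ) : par θ θ := by
  rw [par_iff]
  ring

theorem par_symm {θ z : ℂ} (h : par θ z) : par z θ := by
  rw [par_iff] at h ⊢
  linarith

theorem par_neg {θ z : ℂ} (h : par θ z) : par θ (-z) := by
  rw [par_iff] at h ⊢
  rw [Complex.neg_im, Complex.neg_re]
  linarith

theorem par_add {θ z w : ℂ} (hz : par θ z) (hw : par θ w) : par θ (z + w) := by
  rw [par_iff] at hz hw ⊢
  rw [Complex.add_im, Complex.add_re]
  linarith

theorem par_sub {θ z w : ℂ} (hz : par θ z) (hw : par θ w) : par θ (z - w) := by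
  rw [par_iff] at hz hw ⊢
  rw [Complex.sub_im, Complex.sub_re]
  linarith

/-- Two numbers parallel to the same `θ ≠ 0` are parallel. -/
theorem par_trans {θ z w : ℂ} (hθ : θ ≠ 0) (hz : par θ z) (hw : par θ w) : par z w := by
  rw [par_iff] at hz hw ⊢
  by_cases h : θ.re = 0
  · have hi : θ.im ≠ 0 := fun h2 => hθ (Complex.ext h h2)
    rw [h, zero_mul] at hz hw
    have h1 : z.re = 0 := by
      rcases mul_eq_zero.1 hz.symm with h3 | h3
      · exact absurd h3 hi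
      · exact h3
    have h2 : w.re = 0 := by
      rcases mul_eq_zero.1 hw.symm with h3 | h3
      · exact absurd h3 hi
      · exact h3
    rw [h1, h2]
    ring
  · have h1 : θ.re * (z.re * w.im - z.im * w.re) = 0 := by
      linear_combination z.re * hw - w.re * hz
    rcases mul_eq_zero.1 h1 with h2 | h2
    · exact absurd h2 h
    · linarith

theorem par_iff_smul {θ z : ℂ} (hθ : θ ≠ 0) : par θ z ↔ ∃ t : ℝ, z = t * θ := by
  rw [par_iff]
  constructor
  · intro h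
    by_cases hr : θ.re = 0
    · have hi : θ.im ≠ 0 := fun h2 => hθ (Complex.ext hr h2)
      refine ⟨z.im / θ.im, Complex.ext ?_ ?_⟩
      · rw [Complex.re_ofReal_mul, hr, mul_zero]
        rw [hr, zero_mul] at h
        rcases mul_eq_zero.1 h.symm with h3 | h3
        · exact absurd h3 hi
        · exact h3
      · rw [Complex.im_ofReal_mul]
        field_simp
    · refine ⟨z.re / θ.re, Complex.ext ?_ ?_⟩
      · rw [Complex.re_ofReal_mul]
        field_simp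
      · rw [Complex.im_ofReal_mul]
        field_simp
        linarith
  · rintro ⟨t, rfl⟩
    rw [Complex.re_ofReal_mul, Complex.im_ofReal_mul]
    ring

theorem par_two {θ θ' z : ℂ} (hθ : θ ≠ 0) (hθ' : θ' ≠ 0) (h : ¬ par θ θ') (h1 : par θ z)
    (h2 : par θ' z) : z = 0 := by
  by_contra hz
  exact h (par_trans hz (par_symm h1) (par_symm h2))

end Pool.Agent.SD
end

section

/-!
# TASK SD SL: Solymosi's ordering lemma

PROOF.  At most one `θ ∈ Θ` is real (two real ones would be parallel).  Let `Θ'` be the set of the `θ ∈ Θ` with `θ.im ≠ 0`, so `|Θ'| ≥ |Θ| - 1`, and for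
`θ ∈ Θ'` let `c θ = θ.re / θ.im`; `c` is injective on `Θ'` (`c θ = c θ'` gives `par θ θ'`), and by `par_iff` every `s ∈ S θ` satisfies `s.re = c θ * s.im` (so
`s.im ≠ 0` unless `s = 0`).  Let `P θ = {s ∈ S θ | 0 < s.im}`.  `S θ` is contained in `{0} ∪ P θ ∪ (-P θ)`, so `2 |P θ| + 1 ≥ |S θ| ≥ u` and
`|P θ| ≥ (u - 1)/2 ≥ u/4` (`u ≥ 4`).  Enumerate the slopes `T = Θ'.image c` (a set of `k = |Θ'|` real numbers) in increasing order, `g 0 < g 1 < ... < g (k-1)`
(`Finset.orderEmbOfFin`), `θ i ∈ Θ'` with `c (θ i) = g i`.  For `i + 1 < k`, `s ∈ P (θ i)`, `s' ∈ P (θ (i+1))` the sum `w = s + s'` lies in `W`, `w.im = s.im + s'.im > 0` and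
`w.re = g i * s.im + g (i+1) * s'.im`, so `g i * w.im < w.re < g (i+1) * w.im`.  So `w` determines `i` (the open intervals `(g i, g (i+1))` are disjoint), and then
`s.im`, `s'.im` (a linear system with determinant `g (i+1) - g i ≠ 0`), `s`, `s'`.  So the `(k - 1)` products `P (θ i) × P (θ (i+1))` are mapped injectively into `W`:
`(k - 1) (u/4)² ≤ |W|` (for `k ≥ 1`; `∑ i : Fin (k - 1)`), and `|Θ| ≤ k + 1 ≤ 2 + 16 |W| / u²`.
-/

set_option autoImplicit false

open scoped ComplexConjugate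
open Finset

namespace Pool.Agent.SD

private theorem SL_cov (S : Finset ℂ) (c : ℝ) (hc : ∀ s ∈ S, s.re = c * s.im) (hneg : ∀ s ∈ S, -s ∈ S) :
    S.card ≤ 1 + 2 * (S.filter fun s => 0 < s.im).card := by
  classical
  set P := S.filter fun s => 0 < s.im with hP
  have hsub : S ⊆ {0} ∪ (P ∪ P.image fun s => -s) := by
    intro s hs
    rw [Finset.mem_union, Finset.mem_union, Finset.mem_singleton, Finset.mem_image]
    rcases lt_trichotomy s.im 0 with h | h | h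
    · right; right
      refine ⟨-s, ?_, neg_neg s⟩
      rw [hP, Finset.mem_filter]
      exact ⟨hneg s hs, by rw [Complex.neg_im]; linarith⟩
    · left
      apply Complex.ext
      · rw [hc s hs, h, mul_zero, Complex.zero_re]
      · rw [h, Complex.zero_im]
    · right; left
      rw [hP, Finset.mem_filter]
      exact ⟨hs, h⟩
  have h1 := Finset.card_le_card hsub
  have h2 := Finset.card_union_le ({0} : Finset ℂ) (P ∪ P.image fun s => -s)
  have h3 := Finset.card_union_le P (P.image fun s => -s)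
  have h4 : (P.image fun s => -s).card ≤ P.card := Finset.card_image_le
  rw [Finset.card_singleton] at h2
  omega

theorem SL {Θ : Finset ℂ} (hΘ : Dirs Θ) (S : ℂ → Finset ℂ) (hpar : ∀ θ ∈ Θ, ∀ s ∈ S θ, par θ s)
    (hneg : ∀ θ ∈ Θ, ∀ s ∈ S θ, -s ∈ S θ) (W : Finset ℂ)
    (hW : ∀ θ ∈ Θ, ∀ θ' ∈ Θ, θ ≠ θ' → ∀ s ∈ S θ, ∀ s' ∈ S θ', s + s' ∈ W) {u : ℝ} (hu : 4 ≤ u)
    (hc : ∀ θ ∈ Θ, u ≤ ((S θ).card : ℝ)) : (Θ.card : ℝ) ≤ 2 + 16 * (W.card : ℝ) / u ^ 2 := by
  classical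
  set Θ' := Θ.filter fun θ => θ.im ≠ 0 with hΘ'
  set c : ℂ → ℝ := fun θ => θ.re / θ.im with hcdef
  have hmem : ∀ θ ∈ Θ', θ ∈ Θ ∧ θ.im ≠ 0 := fun θ h => Finset.mem_filter.1 h
  -- at most one real direction
  have hreal : (Θ.filter fun θ => ¬ θ.im ≠ 0).card ≤ 1 := by
    rw [Finset.card_le_one]
    intro a ha b hb
    rw [Finset.mem_filter, not_not] at ha hb
    by_contra hne
    refine hΘ.2 a ha.1 b hb.1 hne ?_
    rw [par_iff, ha.2, hb.2, mul_zero, zero_mul]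
  have hsplit : Θ.card ≤ Θ'.card + 1 := by
    have : Θ'.card + (Θ.filter fun θ => ¬ θ.im ≠ 0).card = Θ.card :=
      Finset.card_filter_add_card_filter_not (s := Θ) (fun θ : ℂ => θ.im ≠ 0)
    omega
  -- the slopes
  have hinj : Set.InjOn c (Θ' : Set ℂ) := by
    intro a ha b hb hab
    have ha' := hmem a ha
    have hb' := hmem b hb
    by_contra hne
    refine hΘ.2 a ha'.1 b hb'.1 hne ?_
    rw [par_iff]
    have h1 : a.re / a.im = b.re / b.im := hab
    rw [div_eq_div_iff ha'.2 hb'.2] at h1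
    linarith
  have hslope : ∀ θ ∈ Θ', ∀ s ∈ S θ, s.re = c θ * s.im := by
    intro θ hθ s hs
    have h1 := hmem θ hθ
    have h2 := par_iff.1 (hpar θ h1.1 s hs)
    have h3 : c θ * s.im = θ.re * s.im / θ.im := by rw [hcdef]; ring
    rw [h3, h2, mul_div_cancel_left₀ _ h1.2]
  set P : ℂ → Finset ℂ := fun θ => (S θ).filter fun s => 0 < s.im with hPdef
  have hPcard : ∀ θ ∈ Θ', u / 4 ≤ ((P θ).card : ℝ) := by
    intro θ hθ
    have h1 := SL_cov (S θ) (c θ) (hslope θ hθ) (hneg θ (hmem θ hθ).1)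
    have h2 : ((S θ).card : ℝ) ≤ 1 + 2 * ((P θ).card : ℝ) := by exact_mod_cast h1
    have h3 := hc θ (hmem θ hθ).1
    linarith
  set T := Θ'.image c with hT
  have hTcard : T.card = Θ'.card := Finset.card_image_of_injOn hinj
  have hu0 : 0 < u := by linarith
  have hWn : 0 ≤ 16 * (W.card : ℝ) / u ^ 2 := by positivity
  rcases Nat.eq_zero_or_pos T.card with h0 | hpos
  · have h1 : (Θ.card : ℝ) ≤ 1 := by
      have : Θ.card ≤ 1 := by omega
      exact_mod_cast this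
    linarith
  obtain ⟨m, hm⟩ : ∃ m, T.card = m + 1 := ⟨T.card - 1, by omega⟩
  let g : Fin (m + 1) ↪o ℝ := T.orderEmbOfFin hm
  have hg : ∀ i, ∃ θ ∈ Θ', c θ = g i := by
    intro i
    have : g i ∈ T := Finset.orderEmbOfFin_mem T hm i
    rw [hT, Finset.mem_image] at this
    exact this
  choose th hth hcth using hg
  have hthne : ∀ i j, i ≠ j → th i ≠ th j := by
    intro i j hij h
    apply hij
    apply g.injective
    rw [← hcth i, ← hcth j, h]
  set Q : Finset (Σ _ : Fin m, ℂ × ℂ) :=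
    (Finset.univ : Finset (Fin m)).sigma fun i => P (th i.castSucc) ×ˢ P (th i.succ) with hQ
  have hmemQ : ∀ q : (Σ _ : Fin m, ℂ × ℂ), q ∈ Q → q.2.1 ∈ S (th q.1.castSucc) ∧ 0 < q.2.1.im ∧
      q.2.2 ∈ S (th q.1.succ) ∧ 0 < q.2.2.im := by
    intro q hq
    rw [hQ, Finset.mem_sigma, Finset.mem_product] at hq
    have h1 := Finset.mem_filter.1 hq.2.1
    have h2 := Finset.mem_filter.1 hq.2.2
    exact ⟨h1.1, h1.2, h2.1, h2.2⟩
  have hre : ∀ q : (Σ _ : Fin m, ℂ × ℂ), q ∈ Q → q.2.1.re = g q.1.castSucc * q.2.1.im ∧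
      q.2.2.re = g q.1.succ * q.2.2.im := by
    intro q hq
    obtain ⟨h1, -, h2, -⟩ := hmemQ q hq
    rw [← hcth, ← hcth]
    exact ⟨hslope _ (hth _) _ h1, hslope _ (hth _) _ h2⟩
  have hlt : ∀ i : Fin m, g i.castSucc < g i.succ := fun i => g.strictMono (Fin.castSucc_lt_succ)
  -- the sums determine the index
  have hidx : ∀ q : (Σ _ : Fin m, ℂ × ℂ), q ∈ Q →
      g q.1.castSucc * (q.2.1 + q.2.2).im < (q.2.1 + q.2.2).re ∧
      (q.2.1 + q.2.2).re < g q.1.succ * (q.2.1 + q.2.2).im := by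
    intro q hq
    obtain ⟨-, h1, -, h2⟩ := hmemQ q hq
    obtain ⟨h3, h4⟩ := hre q hq
    have h5 := hlt q.1
    rw [Complex.add_re, Complex.add_im, h3, h4]
    constructor
    · nlinarith
    · nlinarith
  have hnot : ∀ q q' : (Σ _ : Fin m, ℂ × ℂ), q ∈ Q → q' ∈ Q → q.2.1 + q.2.2 = q'.2.1 + q'.2.2 →
      ¬ q.1 < q'.1 := by
    intro q q' hq hq' heq hlt'
    have h1 := (hidx q hq).2
    have h2 := (hidx q' hq').1
    rw [heq] at h1
    have h3 : g q.1.succ ≤ g q'.1.castSucc := by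
      apply g.monotone
      rw [Fin.le_def, Fin.val_succ, Fin.val_castSucc]
      exact Nat.succ_le_of_lt (Fin.lt_def.1 hlt')
    have h4 : 0 < (q'.2.1 + q'.2.2).im := by
      obtain ⟨-, h5, -, h6⟩ := hmemQ q' hq'
      rw [Complex.add_im]
      linarith
    have h7 := mul_le_mul_of_nonneg_right h3 h4.le
    linarith
  have hcardQ : Q.card ≤ W.card := by
    refine Finset.card_le_card_of_injOn (fun q => q.2.1 + q.2.2) ?_ ?_
    · intro q hq
      obtain ⟨h1, -, h2, -⟩ := hmemQ q hq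
      exact hW _ (hmem _ (hth _)).1 _ (hmem _ (hth _)).1
        (hthne _ _ (ne_of_lt (Fin.castSucc_lt_succ))) _ h1 _ h2
    · intro q hq q' hq' heq
      have heq' : q.2.1 + q.2.2 = q'.2.1 + q'.2.2 := heq
      have h1 := hnot q q' hq hq' heq'
      have h2 := hnot q' q hq' hq heq'.symm
      have h3 : q.1 = q'.1 := le_antisymm (not_lt.1 h2) (not_lt.1 h1)
      obtain ⟨i, s, s'⟩ := q
      obtain ⟨j, t, t'⟩ := q'
      dsimp only at h3
      subst h3
      obtain ⟨h4, h5⟩ := hre _ hq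
      obtain ⟨h6, h7⟩ := hre _ hq'
      dsimp only at h4 h5 h6 h7 heq'
      have h8 := congrArg Complex.re heq'
      have h9 := congrArg Complex.im heq'
      rw [Complex.add_re, Complex.add_re, h4, h5, h6, h7] at h8
      rw [Complex.add_im, Complex.add_im] at h9
      have h10 := hlt i
      have h11 : (g i.succ - g i.castSucc) * (s'.im - t'.im) = 0 := by linear_combination h8 - g i.castSucc * h9
      have h12 : s'.im = t'.im := by
        rcases mul_eq_zero.1 h11 with h | h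
        · exact absurd h (sub_pos.2 h10).ne'
        · linarith
      have h13 : s.im = t.im := by linarith
      have e1 : s = t := Complex.ext (by rw [h4, h6, h13]) h13
      have e2 : s' = t' := Complex.ext (by rw [h5, h7, h12]) h12
      rw [e1, e2]
  have hQge : (m : ℝ) * (u / 4) ^ 2 ≤ (Q.card : ℝ) := by
    rw [hQ, Finset.card_sigma]
    push_cast
    have h1 : ∀ i ∈ (Finset.univ : Finset (Fin m)), (u / 4) ^ 2 ≤
        (((P (th i.castSucc) ×ˢ P (th i.succ)).card : ℕ) : ℝ) := by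
      intro i _
      rw [Finset.card_product]
      push_cast
      have h2 := hPcard _ (hth i.castSucc)
      have h3 := hPcard _ (hth i.succ)
      have h4 : 0 ≤ u / 4 := by positivity
      nlinarith
    have h5 := Finset.sum_le_sum h1
    rw [Finset.sum_const, Finset.card_univ, Fintype.card_fin, nsmul_eq_mul] at h5
    exact h5
  have h6 : (Q.card : ℝ) ≤ W.card := by exact_mod_cast hcardQ
  have h7 : (Θ.card : ℝ) ≤ m + 2 := by
    have : Θ.card ≤ m + 2 := by omega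
    exact_mod_cast this
  have h8 : (m : ℝ) ≤ 16 * (W.card : ℝ) / u ^ 2 := by
    rw [le_div_iff₀ (by positivity)]
    nlinarith
  linarith

end Pool.Agent.SD
end

section

/-!
# TASK SD Bb: a dyadic scale

PROOF.  For `k : ℕ` let `Θ_k = {θ ∈ Θ | 2^k ≤ nT X θ < 2^(k+1)}`; every `θ ∈ Θ` (`nT X θ ≥ 1`, because `0 ∈ X`) lies in exactly one `Θ_k`, `k = Nat.log 2 (nT X θ)`, and then `4^k ≤ (nT X θ)² ≤ B`, so `k ≤ log B/log 4 ≤ log B`: with `K = ⌊log B⌋₊` all
`k ≤ K`.  `s_k := ∑_{θ ∈ Θ_k} (nT X θ - 1)² ≤ 4^(k+1) |Θ_k|`.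
Claim: `4^(k+1) |Θ_k| ≤ 72 B` for all `k`.  If `Θ_k` is empty it is clear, otherwise `4^k ≤ B`.  For `k ≥ 2` apply `SL` to `Θ_k`, `S θ = X.filter (par θ)`, `u = 2^k ≥ 4`: `|Θ_k| ≤ 2 + 16 |W|/4^k`, so `4^(k+1) |Θ_k| ≤ 8 * 4^k + 64 B ≤ 72 B`.  For `k ≤ 1`:
`|Θ_k| ≤ |Θ| ≤ |X| ≤ B`, `4^(k+1) |Θ_k| ≤ 16 B`.
Sum over the `k ≤ K`: `72 B |Bad| + B ≤ ∑_{θ ∈ Θ} (nT X θ - 1)² = ∑_k s_k ≤ 72 B |Bad| + ∑_{k ≤ K, k ∉ Bad} 4^(k+1) |Θ_k|`.  So the last sum is at least `B > 0`, it has at most `K + 1 ≤ 1 + log B` terms, and one of them is at least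
`B/(1 + log B)`.
-/

set_option autoImplicit false

open scoped ComplexConjugate
open Finset

namespace Pool.Agent.SD

open Classical in
theorem dyadic {X W Θ : Finset ℂ} (h0 : (0 : ℂ) ∈ X) (hneg : ∀ x ∈ X, -x ∈ X)
    (hW : ∀ x ∈ X, ∀ y ∈ X, x + y ∈ W) (hΘ : Dirs Θ) (hX : Θ ⊆ X) {B : ℝ} (hB : 1 ≤ B)
    (hWB : (W.card : ℝ) ≤ B) (hXB : (X.card : ℝ) ≤ B) (hn : ∀ θ ∈ Θ, (nT X θ : ℝ) ^ 2 ≤ B)
    (Bad : Finset ℕ) (hZ : 72 * B * Bad.card + B ≤ ∑ θ ∈ Θ, ((nT X θ : ℝ) - 1) ^ 2) :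
    ∃ k, k ∉ Bad ∧ B ≤ (1 + Real.log B) * (4 ^ (k + 1) *
      ((Θ.filter fun θ => 2 ^ k ≤ nT X θ ∧ nT X θ < 2 ^ (k + 1)).card : ℝ)) := by
  have hlog : 0 ≤ Real.log B := Real.log_nonneg hB
  have hB0 : 0 < B := by linarith
  have h1 : ∀ θ ∈ Θ, 1 ≤ nT X θ := by
    intro θ _
    refine Finset.card_pos.2 ⟨0, Finset.mem_filter.2 ⟨h0, ?_⟩⟩
    unfold par
    simp
  -- the bound for one scale
  have hclaim : ∀ k : ℕ, (4 : ℝ) ^ (k + 1) *
      ((Θ.filter fun θ => 2 ^ k ≤ nT X θ ∧ nT X θ < 2 ^ (k + 1)).card : ℝ) ≤ 72 * B := by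
    intro k
    set T := Θ.filter fun θ => 2 ^ k ≤ nT X θ ∧ nT X θ < 2 ^ (k + 1) with hT
    rcases T.eq_empty_or_nonempty with he | ⟨θ0, hθ0⟩
    · rw [he, Finset.card_empty, Nat.cast_zero, mul_zero]
      positivity
    · have h4 : (4 : ℝ) ^ k ≤ B := by
        have ht := Finset.mem_filter.1 hθ0
        have h2 : ((2 : ℝ) ^ k) ≤ nT X θ0 := by exact_mod_cast ht.2.1
        calc (4 : ℝ) ^ k = ((2 : ℝ) ^ k) ^ 2 := by rw [← pow_mul, mul_comm, pow_mul]; norm_num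
          _ ≤ (nT X θ0 : ℝ) ^ 2 := by gcongr
          _ ≤ B := hn θ0 ht.1
      by_cases hk : 2 ≤ k
      · have hSL := SL (Θ := T) (S := fun θ => X.filter fun x => par θ x) (u := (2 : ℝ) ^ k)
          ⟨fun θ h => hΘ.1 θ (Finset.mem_filter.1 h).1, fun θ h θ' h' => hΘ.2 θ
            (Finset.mem_filter.1 h).1 θ' (Finset.mem_filter.1 h').1⟩
          (fun θ _ s hs => (Finset.mem_filter.1 hs).2)
          (fun θ _ s hs => Finset.mem_filter.2 ⟨hneg s (Finset.mem_filter.1 hs).1, by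
            have := (Finset.mem_filter.1 hs).2
            unfold par at this ⊢
            rw [mul_neg, Complex.neg_im, this, neg_zero]⟩) W
          (fun θ _ θ' _ _ s hs s' hs' => hW s (Finset.mem_filter.1 hs).1 s'
            (Finset.mem_filter.1 hs').1)
          (by
            calc (4 : ℝ) = 2 ^ 2 := by norm_num
              _ ≤ 2 ^ k := pow_le_pow_right₀ (by norm_num) hk)
          (fun θ h => by exact_mod_cast (Finset.mem_filter.1 h).2.1)
        have h5 : ((2 : ℝ) ^ k) ^ 2 = 4 ^ k := by rw [← pow_mul, mul_comm, pow_mul]; norm_num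
        rw [h5] at hSL
        have h6 : (0 : ℝ) < 4 ^ k := by positivity
        calc (4 : ℝ) ^ (k + 1) * (T.card : ℝ) ≤ 4 ^ (k + 1) * (2 + 16 * (W.card : ℝ) / 4 ^ k) := by
              gcongr
          _ = 8 * 4 ^ k + 64 * W.card := by field_simp; ring
          _ ≤ 8 * B + 64 * B := by gcongr
          _ = 72 * B := by ring
      · have hk1 : k + 1 ≤ 2 := by omega
        have hTc : (T.card : ℝ) ≤ B := by
          refine le_trans ?_ hXB
          exact_mod_cast Finset.card_le_card ((Finset.filter_subset _ _).trans hX)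
        calc (4 : ℝ) ^ (k + 1) * (T.card : ℝ) ≤ 4 ^ 2 * B := by
              gcongr
              · norm_num
          _ ≤ 72 * B := by nlinarith
  -- the partition
  set K : ℕ := ⌊Real.log B⌋₊ with hK
  have hmaps : ∀ θ ∈ Θ, Nat.log 2 (nT X θ) ∈ Finset.range (K + 1) := by
    intro θ hθ
    rw [Finset.mem_range, Nat.lt_succ_iff, hK]
    refine Nat.le_floor ?_
    have h2 : 2 ^ Nat.log 2 (nT X θ) ≤ nT X θ := Nat.pow_log_le_self 2 (by have := h1 θ hθ; omega)
    have h3 : (2 : ℝ) ^ Nat.log 2 (nT X θ) ≤ nT X θ := by exact_mod_cast h2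
    have h4 : (4 : ℝ) ^ Nat.log 2 (nT X θ) ≤ B := by
      calc (4 : ℝ) ^ Nat.log 2 (nT X θ) = ((2 : ℝ) ^ Nat.log 2 (nT X θ)) ^ 2 := by
            rw [← pow_mul, mul_comm, pow_mul]; norm_num
        _ ≤ (nT X θ : ℝ) ^ 2 := by gcongr
        _ ≤ B := hn θ hθ
    have h5 := Real.log_le_log (by positivity) h4
    rw [Real.log_pow] at h5
    have h6 : (1 : ℝ) ≤ Real.log 4 := by
      rw [Real.le_log_iff_exp_le (by norm_num)]
      have := Real.exp_one_lt_d9
      linarith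
    have h7 : (0 : ℝ) ≤ (Nat.log 2 (nT X θ) : ℝ) := Nat.cast_nonneg _
    nlinarith
  have hsum : ∑ θ ∈ Θ, ((nT X θ : ℝ) - 1) ^ 2 ≤ ∑ k ∈ Finset.range (K + 1), (4 : ℝ) ^ (k + 1) *
      ((Θ.filter fun θ => 2 ^ k ≤ nT X θ ∧ nT X θ < 2 ^ (k + 1)).card : ℝ) := by
    rw [← Finset.sum_fiberwise_of_maps_to hmaps]
    refine Finset.sum_le_sum fun k _ => ?_
    have hsub : (Θ.filter fun θ => Nat.log 2 (nT X θ) = k) ⊆
        Θ.filter fun θ => 2 ^ k ≤ nT X θ ∧ nT X θ < 2 ^ (k + 1) := by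
      intro θ hθ
      have h2 := Finset.mem_filter.1 hθ
      refine Finset.mem_filter.2 ⟨h2.1, ?_, ?_⟩
      · rw [← h2.2]
        exact Nat.pow_log_le_self 2 (by have := h1 θ h2.1; omega)
      · rw [← h2.2]
        exact Nat.lt_pow_succ_log_self (by norm_num) _
    calc ∑ θ ∈ Θ.filter (fun θ => Nat.log 2 (nT X θ) = k), ((nT X θ : ℝ) - 1) ^ 2
        ≤ ∑ _θ ∈ Θ.filter (fun θ => Nat.log 2 (nT X θ) = k), (4 : ℝ) ^ (k + 1) := by
          refine Finset.sum_le_sum fun θ hθ => ?_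
          have h2 := Finset.mem_filter.1 (hsub hθ)
          have h3 : (nT X θ : ℝ) ≤ 2 ^ (k + 1) := by exact_mod_cast h2.2.2.le
          have h4 : (1 : ℝ) ≤ nT X θ := by exact_mod_cast h1 θ h2.1
          calc ((nT X θ : ℝ) - 1) ^ 2 ≤ ((2 : ℝ) ^ (k + 1)) ^ 2 := by
                gcongr
                linarith
            _ = 4 ^ (k + 1) := by rw [← pow_mul, mul_comm, pow_mul]; norm_num
      _ = ((Θ.filter fun θ => Nat.log 2 (nT X θ) = k).card : ℝ) * 4 ^ (k + 1) := by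
          rw [Finset.sum_const, nsmul_eq_mul]
      _ ≤ ((Θ.filter fun θ => 2 ^ k ≤ nT X θ ∧ nT X θ < 2 ^ (k + 1)).card : ℝ) * 4 ^ (k + 1) := by
          gcongr
      _ = _ := mul_comm _ _
  by_contra hcon
  push Not at hcon
  rw [← Finset.sum_filter_add_sum_filter_not (Finset.range (K + 1)) (fun k => k ∈ Bad)] at hsum
  have hA : ∑ k ∈ (Finset.range (K + 1)).filter (fun k => k ∈ Bad), (4 : ℝ) ^ (k + 1) *
      ((Θ.filter fun θ => 2 ^ k ≤ nT X θ ∧ nT X θ < 2 ^ (k + 1)).card : ℝ) ≤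
      72 * B * Bad.card := by
    calc ∑ k ∈ (Finset.range (K + 1)).filter (fun k => k ∈ Bad), (4 : ℝ) ^ (k + 1) *
          ((Θ.filter fun θ => 2 ^ k ≤ nT X θ ∧ nT X θ < 2 ^ (k + 1)).card : ℝ)
        ≤ ∑ _k ∈ (Finset.range (K + 1)).filter (fun k => k ∈ Bad), 72 * B :=
          Finset.sum_le_sum fun k _ => hclaim k
      _ = (((Finset.range (K + 1)).filter (fun k => k ∈ Bad)).card : ℝ) * (72 * B) := by
          rw [Finset.sum_const, nsmul_eq_mul]
      _ ≤ (Bad.card : ℝ) * (72 * B) := by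
          gcongr
          intro k hk
          exact (Finset.mem_filter.1 hk).2
      _ = 72 * B * Bad.card := by ring
  have hC : ∑ k ∈ (Finset.range (K + 1)).filter (fun k => ¬ k ∈ Bad), (4 : ℝ) ^ (k + 1) *
      ((Θ.filter fun θ => 2 ^ k ≤ nT X θ ∧ nT X θ < 2 ^ (k + 1)).card : ℝ) < B := by
    rcases ((Finset.range (K + 1)).filter (fun k => ¬ k ∈ Bad)).eq_empty_or_nonempty with he | hne
    · rw [he, Finset.sum_empty]; exact hB0
    · calc ∑ k ∈ (Finset.range (K + 1)).filter (fun k => ¬ k ∈ Bad), (4 : ℝ) ^ (k + 1) *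
          ((Θ.filter fun θ => 2 ^ k ≤ nT X θ ∧ nT X θ < 2 ^ (k + 1)).card : ℝ)
          < ∑ _k ∈ (Finset.range (K + 1)).filter (fun k => ¬ k ∈ Bad), B / (1 + Real.log B) := by
            refine Finset.sum_lt_sum_of_nonempty hne fun k hk => ?_
            have := hcon k (Finset.mem_filter.1 hk).2
            rw [lt_div_iff₀ (by linarith), mul_comm]
            exact this
        _ = (((Finset.range (K + 1)).filter (fun k => ¬ k ∈ Bad)).card : ℝ) *
            (B / (1 + Real.log B)) := by rw [Finset.sum_const, nsmul_eq_mul]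
        _ ≤ (1 + Real.log B) * (B / (1 + Real.log B)) := by
            gcongr
            have h2 : ((Finset.range (K + 1)).filter (fun k => ¬ k ∈ Bad)).card ≤ K + 1 := by
              refine (Finset.card_filter_le _ _).trans ?_
              rw [Finset.card_range]
            have h3 : (K : ℝ) ≤ Real.log B := Nat.floor_le hlog
            have h4 : (((Finset.range (K + 1)).filter (fun k => ¬ k ∈ Bad)).card : ℝ) ≤ K + 1 := by
              exact_mod_cast h2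
            linarith
        _ = B := by field_simp
  linarith

end Pool.Agent.SD
end

section

/-!
# TASK SD Ba: parallel and perpendicular pairs, distances

PROOF of `Zpe_le`.  For `u ≠ 0` let `g u = u ^ 2 / (‖u‖ ^ 2 : ℝ)` (a complex number); for nonzero `u, w`: `par u w ↔ g u = g w`, and `(conj u * w).re = 0 ↔ g w = -g u` (write `w = z u`, `z = conj u * w/|u|²`: `g w = (z²/|z|²) g u`, and
`z²/|z|² = 1` iff `z` is real, `= -1` iff `z` is purely imaginary).  Let `X' = X \ {0}`, `T = X'.image g ∪ X'.image (-g)`, `n θ = #{u ∈ X' | g u = θ}`.  Then `Zpa X = ∑_{θ ∈ T} (n θ)²`, `Zpe X = ∑_{θ ∈ T} n θ * n (-θ)`, `T = -T`, and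
`2 n θ n (-θ) ≤ (n θ)² + (n (-θ))²`; sum over `T`.

PROOF of `dist_par`.  `A' = A \ {a₀}`, `P = {(a, b) ∈ A' × A' | dist a a₀ = dist b a₀}`.  The values `dist a a₀`, `a ∈ A'`, are among the `numDist A` distances, so by the Cauchy-Schwarz inequality
`(|A| - 1)² ≤ numDist A * |P|` (compare `RL/Ds.lean`, `Finset.sq_sum_le_card_mul_sum_sq`).  For `(a, b) ∈ P` put `u = a - b`, `w = a + b - 2 a₀`, both in `X`: `(conj u * w).re = |a - a₀|² - |b - a₀|² = 0`, and `(a, b) ↦ (u, w)` is injective.  The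
pairs with `u = 0` (`a = b`) or `w = 0` (`b = 2 a₀ - a`) are at most `2 |A|` many, the others are counted by `Zpe X`.  So `|P| ≤ Zpe X + 2 |A| ≤ Zpa X + 2 |A|`.

PROOF of `exists_dirs`.  Induction on `X` or: choose one representative in every class of the equivalence relation `par` on `X \ {0}`; `Θ` the set of the representatives (`Θ ⊆ X`).  For `θ ∈ Θ` let `X_θ = {x ∈ X | x ≠ 0, par θ x}`: these
sets form a partition of `X \ {0}`, and `(u, w)` is a parallel pair iff `u`, `w` lie in the same `X_θ`.  `|X_θ| = nT X θ - 1` if `0 ∈ X`.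
-/

set_option autoImplicit false

open scoped ComplexConjugate
open Finset

namespace Pool.Agent.SD

private noncomputable def Ba_g (u : ℂ) : ℂ := u / conj u

private theorem Ba_par_iff {u w : ℂ} (hu : u ≠ 0) (hw : w ≠ 0) : par u w ↔ Ba_g w = Ba_g u := by
  have hu' : conj u ≠ 0 := (map_ne_zero _).mpr hu
  have hw' : conj w ≠ 0 := (map_ne_zero _).mpr hw
  unfold par Ba_g
  rw [div_eq_div_iff hw' hu', ← Complex.conj_eq_iff_im, map_mul, Complex.conj_conj]
  constructor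
  · intro h
    rw [h, mul_comm]
  · intro h
    rw [← h, mul_comm]

private theorem Ba_perp_iff {u w : ℂ} (hu : u ≠ 0) (hw : w ≠ 0) :
    (conj u * w).re = 0 ↔ Ba_g w = -Ba_g u := by
  have hu' : conj u ≠ 0 := (map_ne_zero _).mpr hu
  have hw' : conj w ≠ 0 := (map_ne_zero _).mpr hw
  have h1 : (conj u * w).re = 0 ↔ conj u * w + u * conj w = 0 := by
    have h2 : conj u * w + u * conj w = ((2 * (conj u * w).re : ℝ) : ℂ) := by
      rw [← Complex.add_conj, map_mul, Complex.conj_conj]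
    rw [h2, Complex.ofReal_eq_zero]
    constructor
    · intro h
      rw [h, mul_zero]
    · intro h
      linarith
  rw [h1]
  unfold Ba_g
  rw [← neg_div, div_eq_div_iff hw' hu']
  constructor
  · intro h
    linear_combination h
  · intro h
    linear_combination h

open Classical in
private theorem Ba_sum (Y : Finset ℂ) (g : ℂ → ℂ) :
    ((Y ×ˢ Y).filter fun p => g p.2 = g p.1).card =
      ∑ γ ∈ Y.image g, (Y.filter fun x => g x = γ).card ^ 2 := by
  rw [Finset.card_eq_sum_card_fiberwise (f := fun p : ℂ × ℂ => g p.1) (t := Y.image g)]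
  · refine Finset.sum_congr rfl fun ρ _ => ?_
    have : (((Y ×ˢ Y).filter fun p => g p.2 = g p.1).filter fun p => g p.1 = ρ)
        = (Y.filter fun a => g a = ρ) ×ˢ (Y.filter fun a => g a = ρ) := by
      ext ⟨a, b⟩
      simp only [Finset.mem_filter, Finset.mem_product]
      constructor
      · rintro ⟨⟨⟨ha, hb⟩, h⟩, h'⟩
        exact ⟨⟨ha, h'⟩, ⟨hb, h.trans h'⟩⟩
      · rintro ⟨⟨ha, h⟩, ⟨hb, h'⟩⟩
        exact ⟨⟨⟨ha, hb⟩, h'.trans h.symm⟩, h⟩
    rw [this, Finset.card_product, sq]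
  · intro p hp
    have hp' := (Finset.mem_filter.1 (Finset.mem_coe.1 hp)).1
    exact Finset.mem_coe.2 (Finset.mem_image_of_mem _ (Finset.mem_product.1 hp').1)

open Classical in
private theorem Ba_neg_le (Y : Finset ℂ) (g : ℂ → ℂ) :
    ((Y ×ˢ Y).filter fun p => g p.2 = -g p.1).card ≤
      ((Y ×ˢ Y).filter fun p => g p.2 = g p.1).card := by
  set n : ℂ → ℕ := fun γ => (Y.filter fun x => g x = γ).card with hn
  set I : Finset ℂ := Y.image g with hI
  set T : Finset ℂ := I ∪ I.image (fun z => -z) with hT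
  have hIT : I ⊆ T := Finset.subset_union_left
  have h0 : ∀ γ, γ ∉ I → n γ = 0 := by
    intro γ hγ
    rw [hn]
    simp only [Finset.card_eq_zero, Finset.filter_eq_empty_iff]
    intro x hx hgx
    exact hγ (Finset.mem_image.mpr ⟨x, hx, hgx⟩)
  have e1 : ((Y ×ˢ Y).filter fun p => g p.2 = g p.1).card = ∑ γ ∈ T, n γ ^ 2 := by
    rw [Ba_sum Y g]
    refine Finset.sum_subset hIT fun γ _ hγ => ?_
    rw [show (Y.filter fun x => g x = γ).card = n γ from rfl, h0 γ hγ]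
    rfl
  have e2 : ((Y ×ˢ Y).filter fun p => g p.2 = -g p.1).card = ∑ γ ∈ T, n γ * n (-γ) := by
    rw [Finset.card_eq_sum_card_fiberwise (f := fun p : ℂ × ℂ => g p.1) (t := T)]
    · refine Finset.sum_congr rfl fun ρ _ => ?_
      have : (((Y ×ˢ Y).filter fun p => g p.2 = -g p.1).filter fun p => g p.1 = ρ)
          = (Y.filter fun a => g a = ρ) ×ˢ (Y.filter fun a => g a = -ρ) := by
        ext ⟨a, b⟩
        simp only [Finset.mem_filter, Finset.mem_product]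
        constructor
        · rintro ⟨⟨⟨ha, hb⟩, h⟩, h'⟩
          exact ⟨⟨ha, h'⟩, ⟨hb, by rw [h, h']⟩⟩
        · rintro ⟨⟨ha, h⟩, ⟨hb, h'⟩⟩
          exact ⟨⟨⟨ha, hb⟩, by rw [h', h]⟩, h⟩
      rw [this, Finset.card_product]
    · intro p hp
      have hp' := (Finset.mem_filter.1 (Finset.mem_coe.1 hp)).1
      exact Finset.mem_coe.2 (hIT (Finset.mem_image_of_mem _ (Finset.mem_product.1 hp').1))
  have e3 : ∑ γ ∈ T, n (-γ) ^ 2 = ∑ γ ∈ T, n γ ^ 2 := by
    have hneg : ∀ γ ∈ T, -γ ∈ T := by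
      intro γ hγ
      rw [hT, Finset.mem_union] at hγ ⊢
      rcases hγ with h | h
      · exact Or.inr (Finset.mem_image.mpr ⟨γ, h, rfl⟩)
      · obtain ⟨z, hz, rfl⟩ := Finset.mem_image.mp h
        exact Or.inl (by rwa [neg_neg])
    refine Finset.sum_nbij' (fun γ => -γ) (fun γ => -γ) hneg hneg (fun γ _ => neg_neg γ)
      (fun γ _ => neg_neg γ) (fun γ _ => rfl)
  rw [e1, e2]
  have e4 : 2 * ∑ γ ∈ T, n γ * n (-γ) ≤ ∑ γ ∈ T, n γ ^ 2 + ∑ γ ∈ T, n (-γ) ^ 2 := by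
    rw [Finset.mul_sum, ← Finset.sum_add_distrib]
    refine Finset.sum_le_sum fun γ _ => ?_
    have := two_mul_le_add_sq (n γ) (n (-γ))
    rwa [mul_assoc] at this
  rw [e3] at e4
  omega

open Classical in
private theorem Ba_Zpa (X : Finset ℂ) :
    Zpa X = (((X.filter (· ≠ 0)) ×ˢ (X.filter (· ≠ 0))).filter fun p => Ba_g p.2 = Ba_g p.1).card := by
  unfold Zpa
  congr 1
  ext ⟨a, b⟩
  simp only [Finset.mem_filter, Finset.mem_product]
  constructor
  · rintro ⟨⟨ha, hb⟩, ha0, hb0, h⟩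
    exact ⟨⟨⟨ha, ha0⟩, ⟨hb, hb0⟩⟩, (Ba_par_iff ha0 hb0).mp h⟩
  · rintro ⟨⟨⟨ha, ha0⟩, ⟨hb, hb0⟩⟩, h⟩
    exact ⟨⟨ha, hb⟩, ha0, hb0, (Ba_par_iff ha0 hb0).mpr h⟩

open Classical in
private theorem Ba_Zpe (X : Finset ℂ) :
    Zpe X = (((X.filter (· ≠ 0)) ×ˢ (X.filter (· ≠ 0))).filter fun p => Ba_g p.2 = -Ba_g p.1).card := by
  unfold Zpe
  congr 1
  ext ⟨a, b⟩
  simp only [Finset.mem_filter, Finset.mem_product]
  constructor
  · rintro ⟨⟨ha, hb⟩, ha0, hb0, h⟩
    exact ⟨⟨⟨ha, ha0⟩, ⟨hb, hb0⟩⟩, (Ba_perp_iff ha0 hb0).mp h⟩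
  · rintro ⟨⟨⟨ha, ha0⟩, ⟨hb, hb0⟩⟩, h⟩
    exact ⟨⟨ha, hb⟩, ha0, hb0, (Ba_perp_iff ha0 hb0).mpr h⟩

theorem Zpe_le (X : Finset ℂ) : Zpe X ≤ Zpa X := by
  classical
  rw [Ba_Zpa, Ba_Zpe]
  exact Ba_neg_le _ _

open Classical in
private theorem Ba_cs (A' : Finset ℂ) (a₀ : ℂ) :
    A'.card ^ 2 ≤ (A'.image fun a => dist a a₀).card *
      ((A' ×ˢ A').filter fun p => dist p.1 a₀ = dist p.2 a₀).card := by
  set I := A'.image fun a => dist a a₀ with hI
  set n : ℝ → ℕ := fun ρ => (A'.filter fun a => dist a a₀ = ρ).card with hn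
  have e1 : A'.card = ∑ ρ ∈ I, n ρ :=
    Finset.card_eq_sum_card_fiberwise (fun a ha => Finset.mem_image_of_mem _ ha)
  have e2 : ((A' ×ˢ A').filter fun p => dist p.1 a₀ = dist p.2 a₀).card = ∑ ρ ∈ I, n ρ ^ 2 := by
    rw [Finset.card_eq_sum_card_fiberwise (f := fun p : ℂ × ℂ => dist p.1 a₀) (t := I)]
    · refine Finset.sum_congr rfl fun ρ _ => ?_
      have : (((A' ×ˢ A').filter fun p => dist p.1 a₀ = dist p.2 a₀).filter
          fun p => dist p.1 a₀ = ρ)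
          = (A'.filter fun a => dist a a₀ = ρ) ×ˢ (A'.filter fun a => dist a a₀ = ρ) := by
        ext ⟨a, b⟩
        simp only [Finset.mem_filter, Finset.mem_product]
        constructor
        · rintro ⟨⟨⟨ha, hb⟩, h⟩, h'⟩
          exact ⟨⟨ha, h'⟩, ⟨hb, h ▸ h'⟩⟩
        · rintro ⟨⟨ha, h⟩, ⟨hb, h'⟩⟩
          exact ⟨⟨⟨ha, hb⟩, h.trans h'.symm⟩, h⟩
      rw [this, Finset.card_product, sq]
    · intro p hp
      have hp' := (Finset.mem_filter.1 (Finset.mem_coe.1 hp)).1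
      exact Finset.mem_coe.2 (Finset.mem_image_of_mem _ (Finset.mem_product.1 hp').1)
  rw [e1, e2]
  exact sq_sum_le_card_mul_sum_sq

private theorem Ba_re (p q : ℂ) (h : ‖p‖ = ‖q‖) : (conj (p - q) * (p + q)).re = 0 := by
  have h2 : Complex.normSq p = Complex.normSq q := by
    rw [Complex.normSq_eq_norm_sq, Complex.normSq_eq_norm_sq, h]
  rw [Complex.normSq_apply, Complex.normSq_apply] at h2
  simp only [map_sub, Complex.mul_re, Complex.sub_re, Complex.sub_im, Complex.add_re,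
    Complex.add_im, Complex.conj_re, Complex.conj_im]
  nlinarith [h2]

theorem dist_par (A X : Finset ℂ) {a₀ : ℂ} (h0 : a₀ ∈ A)
    (hX : ∀ a ∈ A, ∀ b ∈ A, a - b ∈ X ∧ a + b - 2 * a₀ ∈ X) :
    ((A.card : ℝ) - 1) ^ 2 ≤ (RL.numDist A : ℝ) * ((Zpa X : ℝ) + 2 * A.card) := by
  classical
  set A' := A.erase a₀ with hA'
  have hcard : A'.card + 1 = A.card := Finset.card_erase_add_one h0
  have hsub : ∀ a ∈ A', a ∈ A := fun a ha => Finset.mem_of_mem_erase ha
  have himg : (A'.image fun a => dist a a₀).card ≤ RL.numDist A := by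
    apply Finset.card_le_card
    intro r hr
    obtain ⟨a, ha, rfl⟩ := Finset.mem_image.1 hr
    exact Finset.mem_image.2 ⟨(a, a₀), Finset.mem_offDiag.2
      ⟨hsub a ha, h0, Finset.ne_of_mem_erase ha⟩, rfl⟩
  set P := (A' ×ˢ A').filter fun p => dist p.1 a₀ = dist p.2 a₀ with hP
  set P1 := P.filter fun p => p.1 - p.2 ≠ 0 ∧ p.1 + p.2 - 2 * a₀ ≠ 0 with hP1
  set P2 := P.filter fun p => p.1 - p.2 = 0 with hP2
  set P3 := P.filter fun p => p.1 + p.2 - 2 * a₀ = 0 with hP3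
  have hmem : ∀ p ∈ P, p.1 ∈ A' ∧ p.2 ∈ A' ∧ dist p.1 a₀ = dist p.2 a₀ := by
    intro p hp
    obtain ⟨h1, h2⟩ := Finset.mem_filter.1 hp
    obtain ⟨h3, h4⟩ := Finset.mem_product.1 h1
    exact ⟨h3, h4, h2⟩
  have hPsub : P ⊆ P1 ∪ (P2 ∪ P3) := by
    intro p hp
    rw [Finset.mem_union, Finset.mem_union]
    by_cases z1 : p.1 - p.2 = 0
    · exact Or.inr (Or.inl (Finset.mem_filter.2 ⟨hp, z1⟩))
    · by_cases z2 : p.1 + p.2 - 2 * a₀ = 0
      · exact Or.inr (Or.inr (Finset.mem_filter.2 ⟨hp, z2⟩))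
      · exact Or.inl (Finset.mem_filter.2 ⟨hp, z1, z2⟩)
  have c1 : P1.card ≤ Zpe X := by
    unfold Zpe
    apply Finset.card_le_card_of_injOn (fun p : ℂ × ℂ => (p.1 - p.2, p.1 + p.2 - 2 * a₀))
    · intro p hp
      obtain ⟨hp1, z1, z2⟩ := Finset.mem_filter.1 (Finset.mem_coe.1 hp)
      obtain ⟨ha, hb, hd⟩ := hmem p hp1
      obtain ⟨x1, x2⟩ := hX p.1 (hsub _ ha) p.2 (hsub _ hb)
      refine Finset.mem_coe.2 (Finset.mem_filter.2 ⟨Finset.mem_product.2 ⟨x1, x2⟩, z1, z2, ?_⟩)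
      have := Ba_re (p.1 - a₀) (p.2 - a₀) (by rw [← dist_eq_norm, ← dist_eq_norm]; exact hd)
      rw [show p.1 - a₀ - (p.2 - a₀) = p.1 - p.2 by ring,
        show p.1 - a₀ + (p.2 - a₀) = p.1 + p.2 - 2 * a₀ by ring] at this
      exact this
    · rintro ⟨a, b⟩ - ⟨a', b'⟩ - heq
      simp only [Prod.mk.injEq] at heq
      obtain ⟨h1, h2⟩ := heq
      have k1 : a = a' := by linear_combination (h1 + h2) / 2
      have k2 : b = b' := by linear_combination (h2 - h1) / 2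
      rw [k1, k2]
  have c2 : P2.card ≤ A.card := by
    apply Finset.card_le_card_of_injOn (fun p : ℂ × ℂ => p.1)
    · intro p hp
      exact Finset.mem_coe.2 (hsub _ (hmem p (Finset.mem_filter.1 (Finset.mem_coe.1 hp)).1).1)
    · rintro ⟨a, b⟩ hp ⟨a', b'⟩ hp' heq
      have h1 := (Finset.mem_filter.1 (Finset.mem_coe.1 hp)).2
      have h2 := (Finset.mem_filter.1 (Finset.mem_coe.1 hp')).2
      simp only at h1 h2 heq
      have k2 : b = b' := by linear_combination heq - h1 + h2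
      rw [heq, k2]
  have c3 : P3.card ≤ A.card := by
    apply Finset.card_le_card_of_injOn (fun p : ℂ × ℂ => p.1)
    · intro p hp
      exact Finset.mem_coe.2 (hsub _ (hmem p (Finset.mem_filter.1 (Finset.mem_coe.1 hp)).1).1)
    · rintro ⟨a, b⟩ hp ⟨a', b'⟩ hp' heq
      have h1 := (Finset.mem_filter.1 (Finset.mem_coe.1 hp)).2
      have h2 := (Finset.mem_filter.1 (Finset.mem_coe.1 hp')).2
      simp only at h1 h2 heq
      have k2 : b = b' := by linear_combination h1 - h2 - heq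
      rw [heq, k2]
  have hPc : P.card ≤ Zpa X + 2 * A.card := by
    have h1 := Finset.card_le_card hPsub
    have h2 := Finset.card_union_le P1 (P2 ∪ P3)
    have h3 := Finset.card_union_le P2 P3
    have h4 := Zpe_le X
    omega
  have hcs := Ba_cs A' a₀
  have hfin : A'.card ^ 2 ≤ RL.numDist A * (Zpa X + 2 * A.card) :=
    hcs.trans (Nat.mul_le_mul himg hPc)
  have hcard' : (A.card : ℝ) - 1 = A'.card := by
    rw [← hcard]
    push_cast
    ring
  rw [hcard']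
  exact_mod_cast hfin

theorem exists_dirs (X : Finset ℂ) (h0 : (0 : ℂ) ∈ X) : ∃ Θ ⊆ X, Dirs Θ ∧
    (Zpa X : ℝ) = ∑ θ ∈ Θ, ((nT X θ : ℝ) - 1) ^ 2 := by
  classical
  set Y := X.filter (· ≠ 0) with hY
  have hr : ∀ γ, γ ∈ Y.image Ba_g → ∃ x, x ∈ Y ∧ Ba_g x = γ := fun γ h => Finset.mem_image.mp h
  choose! r hrY hrg using hr
  have hinj : Set.InjOn r (Y.image Ba_g : Finset ℂ) := by
    intro γ hγ γ' hγ' h
    rw [← hrg γ (Finset.mem_coe.mp hγ), ← hrg γ' (Finset.mem_coe.mp hγ'), h]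
  have hYX : ∀ x ∈ Y, x ∈ X ∧ x ≠ 0 := fun x hx => Finset.mem_filter.mp hx
  refine ⟨(Y.image Ba_g).image r, ?_, ⟨?_, ?_⟩, ?_⟩
  · intro x hx
    obtain ⟨γ, hγ, rfl⟩ := Finset.mem_image.mp hx
    exact (hYX _ (hrY γ hγ)).1
  · intro x hx
    obtain ⟨γ, hγ, rfl⟩ := Finset.mem_image.mp hx
    exact (hYX _ (hrY γ hγ)).2
  · intro x hx x' hx' hne hpar
    obtain ⟨γ, hγ, rfl⟩ := Finset.mem_image.mp hx
    obtain ⟨γ', hγ', rfl⟩ := Finset.mem_image.mp hx'
    have h1 := (Ba_par_iff (hYX _ (hrY γ hγ)).2 (hYX _ (hrY γ' hγ')).2).mp hpar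
    rw [hrg γ hγ, hrg γ' hγ'] at h1
    exact hne (by rw [h1])
  · rw [Ba_Zpa, Ba_sum, Finset.sum_image (fun a ha b hb h => hinj ha hb h)]
    push_cast
    refine Finset.sum_congr rfl fun γ hγ => ?_
    congr 1
    have h1 : nT X (r γ) = (Y.filter fun x => Ba_g x = γ).card + 1 := by
      unfold nT
      have h2 : (X.filter fun x => par (r γ) x) = insert 0 (Y.filter fun x => Ba_g x = γ) := by
        ext x
        rw [Finset.mem_filter, Finset.mem_insert, Finset.mem_filter]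
        constructor
        · rintro ⟨hx, hp⟩
          by_cases hx0 : x = 0
          · exact Or.inl hx0
          · refine Or.inr ⟨Finset.mem_filter.mpr ⟨hx, hx0⟩, ?_⟩
            rw [(Ba_par_iff (hYX _ (hrY γ hγ)).2 hx0).mp hp, hrg γ hγ]
        · rintro (rfl | ⟨hx, hp⟩)
          · exact ⟨h0, par_zero _⟩
          · refine ⟨(hYX x hx).1, (Ba_par_iff (hYX _ (hrY γ hγ)).2 (hYX x hx).2).mpr ?_⟩
            rw [hp, hrg γ hγ]
      rw [h2, Finset.card_insert_of_notMem]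
      intro h3
      exact (hYX 0 (Finset.mem_filter.mp h3).1).2 rfl
    rw [h1]
    push_cast
    ring

end Pool.Agent.SD
end

section

/-!
# TASK SD Bb2: a dyadic scale for perpendicular directions

Notation: `i` the imaginary unit, `n θ = nT X θ ≥ 1` (`0 ∈ X`), `μ θ = min (n θ) (n (i θ))`, `M θ = max (n θ) (n (i θ))`, `l₀ = 1 + log B`.

PROOF of `exists_cov`.  Choose one representative in every class of the equivalence relation `par` on `X \ {0}` (for instance induction on the finset `X`).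

PROOF of `Zpe_eq`.  The pairs `(u, w)` of `Zpe X` are the disjoint union over `θ ∈ Θ` of `{u ∈ X | u ≠ 0, par θ u} × {w ∈ X | w ≠ 0, par (i θ) w}` (for `u ≠ 0` parallel to `θ`: `(conj u * w).re = 0 ↔ par (i θ) w`; use `par_iff_smul`), and these two sets have
`n θ - 1` and `n (i θ) - 1` elements (`0 ∈ X` is removed).

PROOF of `dyadic2`.
(a) For `l : ℕ` let `c_l = #{θ ∈ Θ | 2^l ≤ M θ}`.  Claim: `4^l c_l ≤ 36 B`.  The set is the union of `{θ ∈ Θ | 2^l ≤ n θ}` and `{θ ∈ Θ | 2^l ≤ n (i θ)}`; each has at most `18 B/4^l` elements: if it is empty this is clear, otherwise `4^l ≤ B` (by `hn`, `i θ ≠ 0`).  For `l ≥ 2` apply `SL` to the directions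
`θ` (resp. `i θ`: also pairwise not parallel, `θ ↦ i θ` is injective), `S θ = X.filter (par θ)`, `u = 2^l ≥ 4`: at most `2 + 16 B/4^l ≤ 18 B/4^l` elements; for `l ≤ 1` use `|Θ| ≤ |X| ≤ B`.
(b) For `k, l` let `c_{k,l} = #{θ ∈ Θ | Nat.log 2 (μ θ) = k, Nat.log 2 (M θ) = l}`, so `c_{k,l} = 0` unless `k ≤ l` and `4^l ≤ B` (so `l ≤ log B`), and `c_{k,l} ≤ c_l ≤ 36 B/4^l`.  For these `θ`: `(n θ - 1)(n (i θ) - 1) ≤ μ θ M θ ≤ 2^(k+1) 2^(l+1)`.  So with `T_k = ∑_l 2^(k+l+2) c_{k,l}`: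
`∑_θ (n θ - 1)(n (i θ) - 1) ≤ ∑_k T_k` and `T_k ≤ ∑_{l ≥ k} 2^(k+l+2) 36 B/4^l = 144 B ∑_{l ≥ k} 2^(k-l) ≤ 288 B`.
(c) By `hZ` `∑_{k ∉ Bad} T_k ≥ 300 B |Bad| + B - 288 B |Bad| ≥ B`, the sum over the at most `l₀` values `k ≤ log B`, so some `k ∉ Bad` has `T_k ≥ B/l₀`, and some `l` has `2^(k+l+2) c_{k,l} ≥ B/l₀²`.  With `c_{k,l} ≤ 36 B/4^l`: `2^l ≤ 144 l₀² 2^k`.  So `c_{k,l} ≥ B/(l₀² 2^(k+l+2)) ≥ B/(576 l₀⁴ 4^k)`, and the
`θ` counted by `c_{k,l}` satisfy `2^k ≤ n θ` and `2^k ≤ n (i θ)`.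
-/

set_option autoImplicit false

open scoped ComplexConjugate
open Finset

namespace Pool.Agent.SD

/-- `Θ` represents all directions of the nonzero elements of `X`. -/
def Cov (X Θ : Finset ℂ) : Prop := Dirs Θ ∧ Θ ⊆ X ∧ ∀ x ∈ X, x ≠ 0 → ∃ θ ∈ Θ, par θ x

theorem exists_cov (X : Finset ℂ) : ∃ Θ, Cov X Θ := by
  classical
  induction X using Finset.induction_on with
  | empty =>
    refine ⟨∅, ⟨fun θ hθ => absurd hθ (Finset.notMem_empty θ), fun θ hθ => absurd hθ (Finset.notMem_empty θ)⟩,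
      Finset.Subset.refl _, fun x hx => absurd hx (Finset.notMem_empty x)⟩
  | insert a X ha ih =>
    obtain ⟨Θ, ⟨hΘ0, hΘ1⟩, hΘX, hcov⟩ := ih
    by_cases h : a = 0 ∨ ∃ θ ∈ Θ, par θ a
    · refine ⟨Θ, ⟨hΘ0, hΘ1⟩, hΘX.trans (Finset.subset_insert a X), ?_⟩
      intro x hx hx0
      rcases Finset.mem_insert.1 hx with rfl | hx'
      · rcases h with h | h
        · exact absurd h hx0
        · exact h
      · exact hcov x hx' hx0
    · push Not at h
      obtain ⟨ha0, hna⟩ := h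
      refine ⟨insert a Θ, ⟨?_, ?_⟩, Finset.insert_subset_insert a hΘX, ?_⟩
      · intro θ hθ
        rcases Finset.mem_insert.1 hθ with rfl | hθ
        · exact ha0
        · exact hΘ0 θ hθ
      · intro θ hθ θ' hθ' hne
        rcases Finset.mem_insert.1 hθ with h1 | h1
        · rcases Finset.mem_insert.1 hθ' with h2 | h2
          · exact absurd (h1.trans h2.symm) hne
          · rw [h1]
            exact fun hp => hna θ' h2 (par_symm hp)
        · rcases Finset.mem_insert.1 hθ' with h2 | h2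
          · rw [h2]
            exact hna θ h1
          · exact hΘ1 θ h1 θ' h2 hne
      · intro x hx hx0
        rcases Finset.mem_insert.1 hx with rfl | hx'
        · exact ⟨x, Finset.mem_insert_self _ _, par_self x⟩
        · obtain ⟨θ, hθ, hp⟩ := hcov x hx' hx0
          exact ⟨θ, Finset.mem_insert_of_mem hθ, hp⟩

private theorem Bb2_I_re (θ : ℂ) : (Complex.I * θ).re = -θ.im := by
  rw [Complex.mul_re, Complex.I_re, Complex.I_im]
  ring

private theorem Bb2_I_im (θ : ℂ) : (Complex.I * θ).im = θ.re := by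
  rw [Complex.mul_im, Complex.I_re, Complex.I_im]
  ring

private theorem Bb2_perp {θ u w : ℂ} (hθ : θ ≠ 0) (hu : u ≠ 0) (hp : par θ u) :
    (conj u * w).re = 0 ↔ par (Complex.I * θ) w := by
  obtain ⟨t, rfl⟩ := (par_iff_smul hθ).1 hp
  have ht : t ≠ 0 := by
    rintro rfl
    exact hu (by simp)
  rw [par_iff, Bb2_I_re, Bb2_I_im]
  have h1 : (conj ((t : ℂ) * θ) * w).re = t * (θ.re * w.re + θ.im * w.im) := by
    simp only [Complex.mul_re, Complex.conj_re, Complex.conj_im, Complex.mul_im, Complex.ofReal_re, Complex.ofReal_im]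
    ring
  rw [h1]
  constructor
  · intro h
    rcases mul_eq_zero.1 h with h | h
    · exact absurd h ht
    · linarith
  · intro h
    have : θ.re * w.re + θ.im * w.im = 0 := by linarith
    rw [this, mul_zero]

open Classical in
private theorem Bb2_nT {X : Finset ℂ} (h0 : (0 : ℂ) ∈ X) (θ : ℂ) :
    ((X.filter fun x => x ≠ 0 ∧ par θ x).card : ℝ) = (nT X θ : ℝ) - 1 := by
  have h1 : (X.filter fun x => par θ x) = insert 0 (X.filter fun x => x ≠ 0 ∧ par θ x) := by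
    ext x
    rw [Finset.mem_insert, Finset.mem_filter, Finset.mem_filter]
    constructor
    · rintro ⟨hx, hp⟩
      by_cases hx0 : x = 0
      · exact Or.inl hx0
      · exact Or.inr ⟨hx, hx0, hp⟩
    · rintro (rfl | ⟨hx, _, hp⟩)
      · exact ⟨h0, par_zero θ⟩
      · exact ⟨hx, hp⟩
  have h2 : nT X θ = (X.filter fun x => x ≠ 0 ∧ par θ x).card + 1 := by
    unfold nT
    rw [h1, Finset.card_insert_of_notMem]
    rw [Finset.mem_filter]
    exact fun h => h.2.1 rfl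
  rw [h2]
  push_cast
  ring

theorem Zpe_eq {X Θ : Finset ℂ} (h0 : (0 : ℂ) ∈ X) (h : Cov X Θ) :
    (Zpe X : ℝ) = ∑ θ ∈ Θ, ((nT X θ : ℝ) - 1) * ((nT X (Complex.I * θ) : ℝ) - 1) := by
  classical
  obtain ⟨⟨hΘ0, hΘ1⟩, hΘX, hcov⟩ := h
  have h1 : ((X ×ˢ X).filter fun p => p.1 ≠ 0 ∧ p.2 ≠ 0 ∧ (conj p.1 * p.2).re = 0) =
      Θ.biUnion fun θ => (X.filter fun x => x ≠ 0 ∧ par θ x) ×ˢ (X.filter fun x => x ≠ 0 ∧ par (Complex.I * θ) x) := by
    ext ⟨u, w⟩
    rw [Finset.mem_filter, Finset.mem_product, Finset.mem_biUnion]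
    constructor
    · rintro ⟨⟨hu, hw⟩, hu0, hw0, hp⟩
      obtain ⟨θ, hθ, hpar⟩ := hcov u hu hu0
      refine ⟨θ, hθ, ?_⟩
      rw [Finset.mem_product, Finset.mem_filter, Finset.mem_filter]
      exact ⟨⟨hu, hu0, hpar⟩, hw, hw0, (Bb2_perp (hΘ0 θ hθ) hu0 hpar).1 hp⟩
    · rintro ⟨θ, hθ, hm⟩
      rw [Finset.mem_product, Finset.mem_filter, Finset.mem_filter] at hm
      obtain ⟨⟨hu, hu0, hpar⟩, hw, hw0, hperp⟩ := hm
      exact ⟨⟨hu, hw⟩, hu0, hw0, (Bb2_perp (hΘ0 θ hθ) hu0 hpar).2 hperp⟩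
  have h2 : Zpe X = ∑ θ ∈ Θ, (X.filter fun x => x ≠ 0 ∧ par θ x).card *
      (X.filter fun x => x ≠ 0 ∧ par (Complex.I * θ) x).card := by
    unfold Zpe
    rw [h1, Finset.card_biUnion]
    · exact Finset.sum_congr rfl fun θ _ => Finset.card_product _ _
    · intro θ hθ θ' hθ' hne
      refine Finset.disjoint_left.2 ?_
      rintro ⟨u, w⟩ hm hm'
      rw [Finset.mem_product, Finset.mem_filter, Finset.mem_filter] at hm hm'
      exact hm.1.2.1 (par_two (hΘ0 θ hθ) (hΘ0 θ' hθ') (hΘ1 θ hθ θ' hθ' hne) hm.1.2.2 hm'.1.2.2)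
  rw [h2]
  push_cast
  refine Finset.sum_congr rfl fun θ _ => ?_
  rw [Bb2_nT h0, Bb2_nT h0]

private theorem Bb2_geo (k n : ℕ) : (∑ l ∈ Finset.range n, if k ≤ l then (2 : ℝ) ^ k / 2 ^ l else 0) ≤ 2 := by
  have key : ∀ n : ℕ, (n ≤ k → (∑ l ∈ Finset.range n, if k ≤ l then (2 : ℝ) ^ k / 2 ^ l else 0) = 0) ∧
      (k ≤ n → (∑ l ∈ Finset.range n, if k ≤ l then (2 : ℝ) ^ k / 2 ^ l else 0) + 2 * ((2 : ℝ) ^ k / 2 ^ n) ≤ 2) := by
    intro n
    induction n with
    | zero =>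
      refine ⟨fun _ => by simp, fun h => ?_⟩
      have hk : k = 0 := by omega
      subst hk
      simp
    | succ n ih =>
      obtain ⟨ih1, ih2⟩ := ih
      refine ⟨fun h => ?_, fun h => ?_⟩
      · rw [Finset.sum_range_succ, ih1 (by omega), if_neg (by omega), add_zero]
      · by_cases hn : k ≤ n
        · rw [Finset.sum_range_succ, if_pos hn]
          have h1 := ih2 hn
          have h2 : 2 * ((2 : ℝ) ^ k / 2 ^ (n + 1)) = 2 ^ k / 2 ^ n := by
            rw [pow_succ]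
            field_simp
          rw [h2]
          linarith
        · have hk : k = n + 1 := by omega
          rw [Finset.sum_range_succ, ih1 (by omega), if_neg hn, hk]
          rw [div_self (by positivity)]
          norm_num
  rcases le_total n k with h | h
  · rw [(key n).1 h]
    norm_num
  · have h1 := (key n).2 h
    have h2 : (0 : ℝ) ≤ 2 * ((2 : ℝ) ^ k / 2 ^ n) := by positivity
    linarith

private theorem Bb2_few {X W Φ : Finset ℂ} (hneg : ∀ x ∈ X, -x ∈ X)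
    (hW : ∀ x ∈ X, ∀ y ∈ X, x + y ∈ W) (hΦ : Dirs Φ) {B : ℝ} (hB : 1 ≤ B)
    (hWB : (W.card : ℝ) ≤ B) (hΦB : (Φ.card : ℝ) ≤ B)
    (hn : ∀ θ : ℂ, θ ≠ 0 → (nT X θ : ℝ) ^ 2 ≤ B) (l : ℕ) (hl : ∀ φ ∈ Φ, 2 ^ l ≤ nT X φ) :
    (4 : ℝ) ^ l * (Φ.card : ℝ) ≤ 18 * B := by
  classical
  rcases Φ.eq_empty_or_nonempty with h | ⟨φ, hφ⟩
  · rw [h, Finset.card_empty, Nat.cast_zero, mul_zero]
    linarith
  have h4 : (4 : ℝ) ^ l = (2 ^ l) ^ 2 := by
    rw [← pow_mul, mul_comm, pow_mul]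
    norm_num
  have h4B : (4 : ℝ) ^ l ≤ B := by
    refine le_trans ?_ (hn φ (hΦ.1 φ hφ))
    rw [h4]
    apply pow_le_pow_left₀ (by positivity)
    exact_mod_cast hl φ hφ
  rcases le_or_gt 2 l with h2 | h2
  · have hu : (4 : ℝ) ≤ 2 ^ l := by
      calc (4 : ℝ) = 2 ^ 2 := by norm_num
        _ ≤ 2 ^ l := pow_le_pow_right₀ (by norm_num) h2
    have h := SL hΦ (fun θ => X.filter fun x => par θ x) (fun θ _ s hs => (Finset.mem_filter.1 hs).2)
      (fun θ _ s hs => Finset.mem_filter.2 ⟨hneg s (Finset.mem_filter.1 hs).1, par_neg (Finset.mem_filter.1 hs).2⟩) W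
      (fun θ _ θ' _ _ s hs s' hs' => hW s (Finset.mem_filter.1 hs).1 s' (Finset.mem_filter.1 hs').1) hu
      (fun θ hθ => by
        have h3 := hl θ hθ
        have h5 : nT X θ = (X.filter fun x => par θ x).card := rfl
        rw [h5] at h3
        exact_mod_cast h3)
    rw [← h4] at h
    have h40 : (0 : ℝ) < 4 ^ l := by positivity
    have h6 := mul_le_mul_of_nonneg_left h h40.le
    have h7 : (4 : ℝ) ^ l * (2 + 16 * (W.card : ℝ) / 4 ^ l) = 2 * 4 ^ l + 16 * (W.card : ℝ) := by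
      field_simp
    rw [h7] at h6
    linarith
  · have h5 : (4 : ℝ) ^ l ≤ 4 := by
      calc (4 : ℝ) ^ l ≤ 4 ^ 1 := pow_le_pow_right₀ (by norm_num) (by omega)
        _ = 4 := by norm_num
    have h6 : (0 : ℝ) ≤ Φ.card := Nat.cast_nonneg _
    nlinarith

private theorem Bb2_dirs_I {Θ : Finset ℂ} (hΘ : Dirs Θ) : Dirs (Θ.image fun θ => Complex.I * θ) := by
  refine ⟨?_, ?_⟩
  · intro φ hφ
    obtain ⟨θ, hθ, rfl⟩ := Finset.mem_image.1 hφ
    exact mul_ne_zero Complex.I_ne_zero (hΘ.1 θ hθ)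
  · intro φ hφ φ' hφ' hne hp
    obtain ⟨θ, hθ, rfl⟩ := Finset.mem_image.1 hφ
    obtain ⟨θ', hθ', rfl⟩ := Finset.mem_image.1 hφ'
    refine hΘ.2 θ hθ θ' hθ' (fun h => hne (by rw [h])) ?_
    rw [par_iff, Bb2_I_re, Bb2_I_re, Bb2_I_im, Bb2_I_im] at hp
    rw [par_iff]
    linarith

open Classical in
private theorem Bb2_cl {X W Θ : Finset ℂ} (hneg : ∀ x ∈ X, -x ∈ X)
    (hW : ∀ x ∈ X, ∀ y ∈ X, x + y ∈ W) (hΘ : Dirs Θ) (hX : Θ ⊆ X) {B : ℝ} (hB : 1 ≤ B)
    (hWB : (W.card : ℝ) ≤ B) (hXB : (X.card : ℝ) ≤ B)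
    (hn : ∀ θ : ℂ, θ ≠ 0 → (nT X θ : ℝ) ^ 2 ≤ B) (l : ℕ) (S : Finset ℂ) (hS : S ⊆ Θ)
    (hSl : ∀ θ ∈ S, 2 ^ l ≤ max (nT X θ) (nT X (Complex.I * θ))) :
    (4 : ℝ) ^ l * (S.card : ℝ) ≤ 36 * B := by
  have hsub : S ⊆ (Θ.filter fun θ => 2 ^ l ≤ nT X θ) ∪ (Θ.filter fun θ => 2 ^ l ≤ nT X (Complex.I * θ)) := by
    intro θ hθ
    rw [Finset.mem_union, Finset.mem_filter, Finset.mem_filter]
    rcases le_max_iff.1 (hSl θ hθ) with h | h
    · exact Or.inl ⟨hS hθ, h⟩
    · exact Or.inr ⟨hS hθ, h⟩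
  have hΘB : (Θ.card : ℝ) ≤ B := le_trans (by exact_mod_cast Finset.card_le_card hX) hXB
  have hdf : ∀ (p : ℂ → Prop) [DecidablePred p], Dirs (Θ.filter p) := fun p _ =>
    ⟨fun θ hθ => hΘ.1 θ (Finset.mem_filter.1 hθ).1, fun θ hθ θ' hθ' hne =>
      hΘ.2 θ (Finset.mem_filter.1 hθ).1 θ' (Finset.mem_filter.1 hθ').1 hne⟩
  have hcf : ∀ (p : ℂ → Prop) [DecidablePred p], ((Θ.filter p).card : ℝ) ≤ B := fun p _ =>
    le_trans (by exact_mod_cast Finset.card_le_card (Finset.filter_subset p Θ)) hΘB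
  have h1 := Bb2_few hneg hW (hdf fun θ => 2 ^ l ≤ nT X θ) hB hWB (hcf _) hn l
    (fun φ hφ => (Finset.mem_filter.1 hφ).2)
  have hinj : Function.Injective fun θ : ℂ => Complex.I * θ := fun a b hab =>
    mul_left_cancel₀ Complex.I_ne_zero hab
  have hci : ((Θ.filter fun θ => 2 ^ l ≤ nT X (Complex.I * θ)).image fun θ => Complex.I * θ).card =
      (Θ.filter fun θ => 2 ^ l ≤ nT X (Complex.I * θ)).card := Finset.card_image_of_injective _ hinj
  have h2 := Bb2_few hneg hW (Bb2_dirs_I (hdf fun θ => 2 ^ l ≤ nT X (Complex.I * θ))) hB hWB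
    (by rw [hci]; exact hcf _) hn l
    (fun φ hφ => by
      obtain ⟨θ, hθ, rfl⟩ := Finset.mem_image.1 hφ
      exact (Finset.mem_filter.1 hθ).2)
  rw [hci] at h2
  have h3 : (S.card : ℝ) ≤ ((Θ.filter fun θ => 2 ^ l ≤ nT X θ).card : ℝ) +
      ((Θ.filter fun θ => 2 ^ l ≤ nT X (Complex.I * θ)).card : ℝ) := by
    exact_mod_cast (Finset.card_le_card hsub).trans (Finset.card_union_le _ _)
  have h4 := mul_le_mul_of_nonneg_left h3 (by positivity : (0 : ℝ) ≤ 4 ^ l)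
  rw [mul_add] at h4
  linarith

private theorem Bb2_log {B : ℝ} (hB : 1 ≤ B) {m : ℕ} (hm1 : 1 ≤ m) (hm : (m : ℝ) ^ 2 ≤ B) :
    Nat.log 2 m ≤ ⌊Real.log B⌋₊ := by
  apply Nat.le_floor
  have h1 : 2 ^ Nat.log 2 m ≤ m := Nat.pow_log_le_self 2 (by omega)
  have h2 : ((2 : ℝ) ^ Nat.log 2 m) ^ 2 ≤ B := by
    refine le_trans (pow_le_pow_left₀ (by positivity) ?_ 2) hm
    exact_mod_cast h1
  have h3 : (4 : ℝ) ^ Nat.log 2 m ≤ B := by
    refine le_trans (le_of_eq ?_) h2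
    rw [← pow_mul, mul_comm, pow_mul]
    norm_num
  have h4 := Real.log_le_log (by positivity) h3
  rw [Real.log_pow] at h4
  have h5 : (1 : ℝ) ≤ Real.log 4 := by
    rw [Real.le_log_iff_exp_le (by norm_num)]
    linarith [Real.exp_one_lt_d9]
  have h6 : (0 : ℝ) ≤ (Nat.log 2 m : ℝ) := Nat.cast_nonneg _
  nlinarith

open Classical in
theorem dyadic2 {X W Θ : Finset ℂ} (h0 : (0 : ℂ) ∈ X) (hneg : ∀ x ∈ X, -x ∈ X)
    (hW : ∀ x ∈ X, ∀ y ∈ X, x + y ∈ W) (hΘ : Dirs Θ) (hX : Θ ⊆ X) {B : ℝ} (hB : 1 ≤ B)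
    (hWB : (W.card : ℝ) ≤ B) (hXB : (X.card : ℝ) ≤ B)
    (hn : ∀ θ : ℂ, θ ≠ 0 → (nT X θ : ℝ) ^ 2 ≤ B) (Bad : Finset ℕ)
    (hZ : 300 * B * Bad.card + B ≤
      ∑ θ ∈ Θ, ((nT X θ : ℝ) - 1) * ((nT X (Complex.I * θ) : ℝ) - 1)) :
    ∃ k, k ∉ Bad ∧ B ≤ 576 * (1 + Real.log B) ^ 4 * (4 ^ k *
      ((Θ.filter fun θ => 2 ^ k ≤ nT X θ ∧ 2 ^ k ≤ nT X (Complex.I * θ)).card : ℝ)) := by
  set n : ℂ → ℕ := fun θ => nT X θ with hnd
  set n' : ℂ → ℕ := fun θ => nT X (Complex.I * θ) with hnd'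
  set K : ℕ := ⌊Real.log B⌋₊ with hK
  have hlogB : 0 ≤ Real.log B := Real.log_nonneg hB
  have hK1 : ((K : ℝ) + 1) ≤ 1 + Real.log B := by
    have := Nat.floor_le hlogB
    linarith
  have hpos : ∀ θ : ℂ, 1 ≤ nT X θ := by
    intro θ
    unfold nT
    rw [Nat.one_le_iff_ne_zero, ← Nat.pos_iff_ne_zero, Finset.card_pos]
    exact ⟨0, Finset.mem_filter.2 ⟨h0, par_zero θ⟩⟩
  have hn1 : ∀ θ, 1 ≤ n θ := fun θ => hpos θ
  have hn1' : ∀ θ, 1 ≤ n' θ := fun θ => hpos _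
  have hnB : ∀ θ ∈ Θ, ((n θ : ℕ) : ℝ) ^ 2 ≤ B := fun θ hθ => hn θ (hΘ.1 θ hθ)
  have hnB' : ∀ θ ∈ Θ, ((n' θ : ℕ) : ℝ) ^ 2 ≤ B := fun θ hθ =>
    hn _ (mul_ne_zero Complex.I_ne_zero (hΘ.1 θ hθ))
  have hminB : ∀ θ ∈ Θ, ((min (n θ) (n' θ) : ℕ) : ℝ) ^ 2 ≤ B := by
    intro θ hθ
    rcases min_choice (n θ) (n' θ) with h | h
    · rw [h]; exact hnB θ hθ
    · rw [h]; exact hnB' θ hθ
  have hmaxB : ∀ θ ∈ Θ, ((max (n θ) (n' θ) : ℕ) : ℝ) ^ 2 ≤ B := by
    intro θ hθ
    rcases max_choice (n θ) (n' θ) with h | h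
    · rw [h]; exact hnB θ hθ
    · rw [h]; exact hnB' θ hθ
  set g : ℂ → ℕ × ℕ := fun θ => (Nat.log 2 (min (n θ) (n' θ)), Nat.log 2 (max (n θ) (n' θ))) with hg
  have hgP : ∀ θ ∈ Θ, g θ ∈ Finset.range (K + 1) ×ˢ Finset.range (K + 1) := by
    intro θ hθ
    rw [Finset.mem_product, Finset.mem_range, Finset.mem_range]
    exact ⟨Nat.lt_succ_of_le (Bb2_log hB (le_min (hn1 θ) (hn1' θ)) (hminB θ hθ)),
      Nat.lt_succ_of_le (Bb2_log hB (le_trans (hn1 θ) (le_max_left _ _)) (hmaxB θ hθ))⟩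
  set c : ℕ → ℕ → ℝ := fun k l => ((Θ.filter fun θ => g θ = (k, l)).card : ℝ) with hc
  have hc0 : ∀ k l, 0 ≤ c k l := fun k l => Nat.cast_nonneg _
  -- the size of the classes
  have hcl : ∀ k l, (4 : ℝ) ^ l * c k l ≤ 36 * B := by
    intro k l
    refine Bb2_cl hneg hW hΘ hX hB hWB hXB hn l _ (Finset.filter_subset _ _) ?_
    intro θ hθ
    have h1 := (Finset.mem_filter.1 hθ).2
    have h2 : Nat.log 2 (max (n θ) (n' θ)) = l := congrArg Prod.snd h1
    rw [← h2]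
    exact Nat.pow_log_le_self 2 (by
      have := le_trans (hn1 θ) (le_max_left (n θ) (n' θ))
      omega)
  have hckl : ∀ k l, l < k → c k l = 0 := by
    intro k l hlk
    rw [hc]
    simp only [Nat.cast_eq_zero, Finset.card_eq_zero]
    rw [Finset.filter_eq_empty_iff]
    intro θ _ h1
    have h2 : Nat.log 2 (max (n θ) (n' θ)) = l := congrArg Prod.snd h1
    have h3 : Nat.log 2 (min (n θ) (n' θ)) = k := congrArg Prod.fst h1
    have h4 : Nat.log 2 (min (n θ) (n' θ)) ≤ Nat.log 2 (max (n θ) (n' θ)) := Nat.log_mono_right (le_trans (min_le_left _ _) (le_max_left _ _))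
    omega
  set a : ℕ → ℕ → ℝ := fun k l => 2 ^ (k + l + 2) * c k l with ha
  have ha0 : ∀ k l, 0 ≤ a k l := fun k l => mul_nonneg (by positivity) (hc0 k l)
  have hsum : ∑ θ ∈ Θ, ((nT X θ : ℝ) - 1) * ((nT X (Complex.I * θ) : ℝ) - 1) ≤
      ∑ k ∈ Finset.range (K + 1), ∑ l ∈ Finset.range (K + 1), a k l := by
    rw [← Finset.sum_product', ← Finset.sum_fiberwise_of_maps_to hgP]
    apply Finset.sum_le_sum
    rintro ⟨k, l⟩ _
    calc ∑ θ ∈ Θ.filter (fun θ => g θ = (k, l)), ((nT X θ : ℝ) - 1) * ((nT X (Complex.I * θ) : ℝ) - 1)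
        ≤ ∑ _θ ∈ Θ.filter (fun θ => g θ = (k, l)), (2 : ℝ) ^ (k + l + 2) := by
          apply Finset.sum_le_sum
          intro θ hθ
          have h1 := (Finset.mem_filter.1 hθ).2
          have h2 : Nat.log 2 (max (n θ) (n' θ)) = l := congrArg Prod.snd h1
          have h3 : Nat.log 2 (min (n θ) (n' θ)) = k := congrArg Prod.fst h1
          have h4 : max (n θ) (n' θ) < 2 ^ (l + 1) := by
            rw [← h2]
            exact Nat.lt_pow_succ_log_self (by norm_num) _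
          have h5 : min (n θ) (n' θ) < 2 ^ (k + 1) := by
            rw [← h3]
            exact Nat.lt_pow_succ_log_self (by norm_num) _
          have h6 : (nT X θ : ℝ) * (nT X (Complex.I * θ) : ℝ) ≤ (2 : ℝ) ^ (k + l + 2) := by
            have h7 : n θ * n' θ ≤ 2 ^ (k + l + 2) := by
              rw [← min_mul_max (n θ) (n' θ)]
              calc min (n θ) (n' θ) * max (n θ) (n' θ) ≤ 2 ^ (k + 1) * 2 ^ (l + 1) := Nat.mul_le_mul h5.le h4.le
                _ = 2 ^ (k + l + 2) := by rw [← pow_add]; congr 1; ring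
            exact_mod_cast h7
          have h8 : (1 : ℝ) ≤ (nT X θ : ℝ) := by exact_mod_cast hpos θ
          have h9 : (1 : ℝ) ≤ (nT X (Complex.I * θ) : ℝ) := by exact_mod_cast hpos _
          nlinarith
      _ = a k l := by
          rw [Finset.sum_const, nsmul_eq_mul, ha, hc]
          ring
  -- the sums for fixed k
  have hTk : ∀ k, ∑ l ∈ Finset.range (K + 1), a k l ≤ 288 * B := by
    intro k
    calc ∑ l ∈ Finset.range (K + 1), a k l
        ≤ ∑ l ∈ Finset.range (K + 1), 144 * B * (if k ≤ l then (2 : ℝ) ^ k / 2 ^ l else 0) := by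
          apply Finset.sum_le_sum
          intro l _
          by_cases hkl : k ≤ l
          · rw [if_pos hkl]
            have h1 := hcl k l
            have h2 : (0 : ℝ) < 2 ^ l := by positivity
            have h3 : (4 : ℝ) ^ l = 2 ^ l * 2 ^ l := by rw [← mul_pow]; norm_num
            rw [h3] at h1
            have h4 : a k l = 4 * 2 ^ k * (2 ^ l * c k l) := by
              rw [ha]
              simp only
              rw [pow_add, pow_add]
              ring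
            rw [h4]
            have h5 : 2 ^ l * c k l ≤ 36 * B / 2 ^ l := by
              rw [le_div_iff₀ h2]
              linarith
            have h6 := mul_le_mul_of_nonneg_left h5 (by positivity : (0 : ℝ) ≤ 4 * 2 ^ k)
            refine le_trans h6 (le_of_eq ?_)
            ring
          · rw [if_neg hkl, mul_zero]
            have h1 := hckl k l (by omega)
            rw [ha]
            simp only
            rw [h1, mul_zero]
      _ = 144 * B * ∑ l ∈ Finset.range (K + 1), (if k ≤ l then (2 : ℝ) ^ k / 2 ^ l else 0) := by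
          rw [Finset.mul_sum]
      _ ≤ 144 * B * 2 := mul_le_mul_of_nonneg_left (Bb2_geo k (K + 1)) (by linarith)
      _ = 288 * B := by ring
  have hsplit : ∑ k ∈ Finset.range (K + 1), ∑ l ∈ Finset.range (K + 1), a k l ≤
      288 * B * Bad.card + ∑ k ∈ (Finset.range (K + 1)).filter (fun k => k ∉ Bad), ∑ l ∈ Finset.range (K + 1), a k l := by
    have h1 := Finset.sum_filter_add_sum_filter_not (Finset.range (K + 1)) (fun k => k ∉ Bad)
      (fun k => ∑ l ∈ Finset.range (K + 1), a k l)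
    have h2 : ∑ k ∈ (Finset.range (K + 1)).filter (fun k => ¬ k ∉ Bad), ∑ l ∈ Finset.range (K + 1), a k l ≤
        288 * B * Bad.card := by
      calc ∑ k ∈ (Finset.range (K + 1)).filter (fun k => ¬ k ∉ Bad), ∑ l ∈ Finset.range (K + 1), a k l
          ≤ ∑ _k ∈ (Finset.range (K + 1)).filter (fun k => ¬ k ∉ Bad), 288 * B :=
            Finset.sum_le_sum fun k _ => hTk k
        _ = (((Finset.range (K + 1)).filter (fun k => ¬ k ∉ Bad)).card : ℝ) * (288 * B) := by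
            rw [Finset.sum_const, nsmul_eq_mul]
        _ ≤ (Bad.card : ℝ) * (288 * B) := by
            apply mul_le_mul_of_nonneg_right _ (by linarith)
            have : ((Finset.range (K + 1)).filter (fun k => ¬ k ∉ Bad)) ⊆ Bad := by
              intro k hk
              exact not_not.1 (Finset.mem_filter.1 hk).2
            exact_mod_cast Finset.card_le_card this
        _ = 288 * B * Bad.card := by ring
    rw [← h1]
    linarith
  have hBad0 : (0 : ℝ) ≤ B * Bad.card := by positivity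
  have hgood : B ≤ ∑ p ∈ (Finset.range (K + 1)).filter (fun k => k ∉ Bad) ×ˢ Finset.range (K + 1), a p.1 p.2 := by
    rw [Finset.sum_product]
    linarith
  set P := (Finset.range (K + 1)).filter (fun k => k ∉ Bad) ×ˢ Finset.range (K + 1) with hP
  have hPne : P.Nonempty := by
    rw [Finset.nonempty_iff_ne_empty]
    intro h
    rw [h, Finset.sum_empty] at hgood
    linarith
  have hPcard : (P.card : ℝ) ≤ ((K : ℝ) + 1) ^ 2 := by
    have h1 : P.card ≤ (K + 1) * (K + 1) := by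
      rw [hP, Finset.card_product, Finset.card_range]
      apply Nat.mul_le_mul_right
      exact (Finset.card_filter_le _ _).trans (le_of_eq (Finset.card_range _))
    have h2 : (P.card : ℝ) ≤ ((K + 1 : ℕ) : ℝ) * ((K + 1 : ℕ) : ℝ) := by exact_mod_cast h1
    push_cast at h2
    nlinarith
  have hKp : (0 : ℝ) < ((K : ℝ) + 1) ^ 2 := by positivity
  obtain ⟨⟨k, l⟩, hkl, hval⟩ : ∃ p ∈ P, B / ((K : ℝ) + 1) ^ 2 ≤ a p.1 p.2 := by
    apply Finset.exists_le_of_sum_le hPne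
    rw [Finset.sum_const, nsmul_eq_mul]
    refine le_trans ?_ hgood
    rw [mul_div_assoc', div_le_iff₀ hKp, mul_comm]
    exact mul_le_mul_of_nonneg_left hPcard (by linarith)
  have hkBad : k ∉ Bad := by
    rw [hP, Finset.mem_product] at hkl
    exact (Finset.mem_filter.1 hkl.1).2
  refine ⟨k, hkBad, ?_⟩
  simp only at hval
  rw [div_le_iff₀ hKp] at hval
  have hl0 : (0 : ℝ) ≤ 1 + Real.log B := by linarith
  have hB1 : B ≤ a k l * (1 + Real.log B) ^ 2 := by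
    refine le_trans hval (mul_le_mul_of_nonneg_left ?_ (ha0 k l))
    exact pow_le_pow_left₀ (by positivity) hK1 2
  have hcc : c k l ≤ ((Θ.filter fun θ => 2 ^ k ≤ nT X θ ∧ 2 ^ k ≤ nT X (Complex.I * θ)).card : ℝ) := by
    rw [hc]
    simp only
    have : (Θ.filter fun θ => g θ = (k, l)) ⊆ (Θ.filter fun θ => 2 ^ k ≤ nT X θ ∧ 2 ^ k ≤ nT X (Complex.I * θ)) := by
      intro θ hθ
      rw [Finset.mem_filter] at hθ ⊢
      have h3 : Nat.log 2 (min (n θ) (n' θ)) = k := congrArg Prod.fst hθ.2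
      have h4 : 2 ^ k ≤ min (n θ) (n' θ) := by
        rw [← h3]
        exact Nat.pow_log_le_self 2 (by
          have := le_min (hn1 θ) (hn1' θ)
          omega)
      exact ⟨hθ.1, le_trans h4 (min_le_left _ _), le_trans h4 (min_le_right _ _)⟩
    exact_mod_cast Finset.card_le_card this
  -- final computation
  have h1 := hcl k l
  have h3 : (4 : ℝ) ^ l = 2 ^ l * 2 ^ l := by rw [← mul_pow]; norm_num
  have h3k : (4 : ℝ) ^ k = 2 ^ k * 2 ^ k := by rw [← mul_pow]; norm_num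
  have h4 : a k l = 4 * 2 ^ k * (2 ^ l * c k l) := by
    rw [ha]
    simp only
    rw [pow_add, pow_add]
    ring
  rw [h4] at hB1
  rw [h3] at h1
  obtain ⟨x, hx⟩ : ∃ x : ℝ, x = 2 ^ l := ⟨_, rfl⟩
  obtain ⟨y, hy⟩ : ∃ y : ℝ, y = 2 ^ k := ⟨_, rfl⟩
  obtain ⟨L0, hL0⟩ : ∃ L0 : ℝ, L0 = 1 + Real.log B := ⟨_, rfl⟩
  obtain ⟨C, hC⟩ : ∃ C : ℝ, C = c k l := ⟨_, rfl⟩
  have hC0 : 0 ≤ C := by rw [hC]; exact hc0 k l
  have hy0 : 0 < y := by rw [hy]; positivity
  have hx0 : 0 < x := by rw [hx]; positivity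
  rw [← hx, ← hy, ← hL0, ← hC] at hB1
  rw [← hx, ← hC] at h1
  rw [← hL0] at hl0 ⊢
  rw [h3k, ← hy]
  rw [← hC] at hcc
  have hBpos : 0 < B := by linarith
  have h5 : B * B ≤ (4 * y * (x * C) * L0 ^ 2) * (4 * y * (x * C) * L0 ^ 2) :=
    mul_le_mul hB1 hB1 hBpos.le (by positivity)
  have h6 : (4 * y * (x * C) * L0 ^ 2) * (4 * y * (x * C) * L0 ^ 2) = (16 * y * y * L0 ^ 4 * C) * (x * x * C) := by ring
  have h7 : (16 * y * y * L0 ^ 4 * C) * (x * x * C) ≤ (16 * y * y * L0 ^ 4 * C) * (36 * B) :=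
    mul_le_mul_of_nonneg_left h1 (by positivity)
  have h8 : B * B ≤ (576 * L0 ^ 4 * (y * y * C)) * B := by
    rw [h6] at h5
    refine le_trans h5 (le_trans h7 (le_of_eq ?_))
    ring
  have h9 : B ≤ 576 * L0 ^ 4 * (y * y * C) := le_of_mul_le_mul_right h8 hBpos
  refine le_trans h9 ?_
  apply mul_le_mul_of_nonneg_left _ (by positivity)
  exact mul_le_mul_of_nonneg_left hcc (by positivity)

end Pool.Agent.SD
end

section

/-!
# A dyadic scale for perpendicular directions, again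
-/

set_option autoImplicit false

open scoped ComplexConjugate
open Finset

namespace Pool.Agent.SD

private theorem Bb3_I_re (θ : ℂ) : (Complex.I * θ).re = -θ.im := by
  rw [Complex.mul_re, Complex.I_re, Complex.I_im]
  ring

private theorem Bb3_I_im (θ : ℂ) : (Complex.I * θ).im = θ.re := by
  rw [Complex.mul_im, Complex.I_re, Complex.I_im]
  ring

private theorem Bb3_geo (k n : ℕ) : (∑ l ∈ Finset.range n, if k ≤ l then (2 : ℝ) ^ k / 2 ^ l else 0) ≤ 2 := by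
  have key : ∀ n : ℕ, (n ≤ k → (∑ l ∈ Finset.range n, if k ≤ l then (2 : ℝ) ^ k / 2 ^ l else 0) = 0) ∧
      (k ≤ n → (∑ l ∈ Finset.range n, if k ≤ l then (2 : ℝ) ^ k / 2 ^ l else 0) + 2 * ((2 : ℝ) ^ k / 2 ^ n) ≤ 2) := by
    intro n
    induction n with
    | zero =>
      refine ⟨fun _ => by simp, fun h => ?_⟩
      have hk : k = 0 := by omega
      subst hk
      simp
    | succ n ih =>
      obtain ⟨ih1, ih2⟩ := ih
      refine ⟨fun h => ?_, fun h => ?_⟩
      · rw [Finset.sum_range_succ, ih1 (by omega), if_neg (by omega), add_zero]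
      · by_cases hn : k ≤ n
        · rw [Finset.sum_range_succ, if_pos hn]
          have h1 := ih2 hn
          have h2 : 2 * ((2 : ℝ) ^ k / 2 ^ (n + 1)) = 2 ^ k / 2 ^ n := by
            rw [pow_succ]
            field_simp
          rw [h2]
          linarith
        · have hk : k = n + 1 := by omega
          rw [Finset.sum_range_succ, ih1 (by omega), if_neg hn, hk]
          rw [div_self (by positivity)]
          norm_num
  rcases le_total n k with h | h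
  · rw [(key n).1 h]
    norm_num
  · have h1 := (key n).2 h
    have h2 : (0 : ℝ) ≤ 2 * ((2 : ℝ) ^ k / 2 ^ n) := by positivity
    linarith

private theorem Bb3_few {X W Φ : Finset ℂ} (hneg : ∀ x ∈ X, -x ∈ X)
    (hW : ∀ x ∈ X, ∀ y ∈ X, x + y ∈ W) (hΦ : Dirs Φ) {B : ℝ} (hB : 1 ≤ B)
    (hWB : (W.card : ℝ) ≤ B) (hΦB : (Φ.card : ℝ) ≤ B)
    (hn : ∀ θ ∈ Φ, (nT X θ : ℝ) ^ 2 ≤ B) (l : ℕ) (hl : ∀ φ ∈ Φ, 2 ^ l ≤ nT X φ) :
    (4 : ℝ) ^ l * (Φ.card : ℝ) ≤ 18 * B := by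
  classical
  rcases Φ.eq_empty_or_nonempty with h | ⟨φ, hφ⟩
  · rw [h, Finset.card_empty, Nat.cast_zero, mul_zero]
    linarith
  have h4 : (4 : ℝ) ^ l = (2 ^ l) ^ 2 := by
    rw [← pow_mul, mul_comm, pow_mul]
    norm_num
  have h4B : (4 : ℝ) ^ l ≤ B := by
    refine le_trans ?_ (hn φ hφ)
    rw [h4]
    apply pow_le_pow_left₀ (by positivity)
    exact_mod_cast hl φ hφ
  rcases le_or_gt 2 l with h2 | h2
  · have hu : (4 : ℝ) ≤ 2 ^ l := by
      calc (4 : ℝ) = 2 ^ 2 := by norm_num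
        _ ≤ 2 ^ l := pow_le_pow_right₀ (by norm_num) h2
    have h := SL hΦ (fun θ => X.filter fun x => par θ x) (fun θ _ s hs => (Finset.mem_filter.1 hs).2)
      (fun θ _ s hs => Finset.mem_filter.2 ⟨hneg s (Finset.mem_filter.1 hs).1, par_neg (Finset.mem_filter.1 hs).2⟩) W
      (fun θ _ θ' _ _ s hs s' hs' => hW s (Finset.mem_filter.1 hs).1 s' (Finset.mem_filter.1 hs').1) hu
      (fun θ hθ => by
        have h3 := hl θ hθ
        have h5 : nT X θ = (X.filter fun x => par θ x).card := rfl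
        rw [h5] at h3
        exact_mod_cast h3)
    rw [← h4] at h
    have h40 : (0 : ℝ) < 4 ^ l := by positivity
    have h6 := mul_le_mul_of_nonneg_left h h40.le
    have h7 : (4 : ℝ) ^ l * (2 + 16 * (W.card : ℝ) / 4 ^ l) = 2 * 4 ^ l + 16 * (W.card : ℝ) := by
      field_simp
    rw [h7] at h6
    linarith
  · have h5 : (4 : ℝ) ^ l ≤ 4 := by
      calc (4 : ℝ) ^ l ≤ 4 ^ 1 := pow_le_pow_right₀ (by norm_num) (by omega)
        _ = 4 := by norm_num
    have h6 : (0 : ℝ) ≤ Φ.card := Nat.cast_nonneg _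
    nlinarith

private theorem Bb3_dirs_I {Θ : Finset ℂ} (hΘ : Dirs Θ) : Dirs (Θ.image fun θ => Complex.I * θ) := by
  refine ⟨?_, ?_⟩
  · intro φ hφ
    obtain ⟨θ, hθ, rfl⟩ := Finset.mem_image.1 hφ
    exact mul_ne_zero Complex.I_ne_zero (hΘ.1 θ hθ)
  · intro φ hφ φ' hφ' hne hp
    obtain ⟨θ, hθ, rfl⟩ := Finset.mem_image.1 hφ
    obtain ⟨θ', hθ', rfl⟩ := Finset.mem_image.1 hφ'
    refine hΘ.2 θ hθ θ' hθ' (fun h => hne (by rw [h])) ?_
    rw [par_iff, Bb3_I_re, Bb3_I_re, Bb3_I_im, Bb3_I_im] at hp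
    rw [par_iff]
    linarith

open Classical in
private theorem Bb3_cl {X W Θ : Finset ℂ} (hneg : ∀ x ∈ X, -x ∈ X)
    (hW : ∀ x ∈ X, ∀ y ∈ X, x + y ∈ W) (hΘ : Dirs Θ) (hX : Θ ⊆ X) {B : ℝ} (hB : 1 ≤ B)
    (hWB : (W.card : ℝ) ≤ B) (hXB : (X.card : ℝ) ≤ B)
    (hn : ∀ θ ∈ Θ, (nT X θ : ℝ) ^ 2 ≤ B) (hn' : ∀ θ ∈ Θ, (nT X (Complex.I * θ) : ℝ) ^ 2 ≤ B)
    (l : ℕ) (S : Finset ℂ) (hS : S ⊆ Θ)
    (hSl : ∀ θ ∈ S, 2 ^ l ≤ max (nT X θ) (nT X (Complex.I * θ))) :
    (4 : ℝ) ^ l * (S.card : ℝ) ≤ 36 * B := by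
  have hsub : S ⊆ (Θ.filter fun θ => 2 ^ l ≤ nT X θ) ∪ (Θ.filter fun θ => 2 ^ l ≤ nT X (Complex.I * θ)) := by
    intro θ hθ
    rw [Finset.mem_union, Finset.mem_filter, Finset.mem_filter]
    rcases le_max_iff.1 (hSl θ hθ) with h | h
    · exact Or.inl ⟨hS hθ, h⟩
    · exact Or.inr ⟨hS hθ, h⟩
  have hΘB : (Θ.card : ℝ) ≤ B := le_trans (by exact_mod_cast Finset.card_le_card hX) hXB
  have hdf : ∀ (p : ℂ → Prop) [DecidablePred p], Dirs (Θ.filter p) := fun p _ =>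
    ⟨fun θ hθ => hΘ.1 θ (Finset.mem_filter.1 hθ).1, fun θ hθ θ' hθ' hne =>
      hΘ.2 θ (Finset.mem_filter.1 hθ).1 θ' (Finset.mem_filter.1 hθ').1 hne⟩
  have hcf : ∀ (p : ℂ → Prop) [DecidablePred p], ((Θ.filter p).card : ℝ) ≤ B := fun p _ =>
    le_trans (by exact_mod_cast Finset.card_le_card (Finset.filter_subset p Θ)) hΘB
  have h1 := Bb3_few hneg hW (hdf fun θ => 2 ^ l ≤ nT X θ) hB hWB (hcf _)
    (fun θ hθ => hn θ (Finset.mem_filter.1 hθ).1) l
    (fun φ hφ => (Finset.mem_filter.1 hφ).2)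
  have hinj : Function.Injective fun θ : ℂ => Complex.I * θ := fun a b hab =>
    mul_left_cancel₀ Complex.I_ne_zero hab
  have hci : ((Θ.filter fun θ => 2 ^ l ≤ nT X (Complex.I * θ)).image fun θ => Complex.I * θ).card =
      (Θ.filter fun θ => 2 ^ l ≤ nT X (Complex.I * θ)).card := Finset.card_image_of_injective _ hinj
  have h2 := Bb3_few hneg hW (Bb3_dirs_I (hdf fun θ => 2 ^ l ≤ nT X (Complex.I * θ))) hB hWB
    (by rw [hci]; exact hcf _) (fun φ hφ => by
      obtain ⟨θ, hθ, rfl⟩ := Finset.mem_image.1 hφ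
      exact hn' θ (Finset.mem_filter.1 hθ).1) l
    (fun φ hφ => by
      obtain ⟨θ, hθ, rfl⟩ := Finset.mem_image.1 hφ
      exact (Finset.mem_filter.1 hθ).2)
  rw [hci] at h2
  have h3 : (S.card : ℝ) ≤ ((Θ.filter fun θ => 2 ^ l ≤ nT X θ).card : ℝ) +
      ((Θ.filter fun θ => 2 ^ l ≤ nT X (Complex.I * θ)).card : ℝ) := by
    exact_mod_cast (Finset.card_le_card hsub).trans (Finset.card_union_le _ _)
  have h4 := mul_le_mul_of_nonneg_left h3 (by positivity : (0 : ℝ) ≤ 4 ^ l)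
  rw [mul_add] at h4
  linarith

private theorem Bb3_log {B : ℝ} (hB : 1 ≤ B) {m : ℕ} (hm1 : 1 ≤ m) (hm : (m : ℝ) ^ 2 ≤ B) :
    Nat.log 2 m ≤ ⌊Real.log B⌋₊ := by
  apply Nat.le_floor
  have h1 : 2 ^ Nat.log 2 m ≤ m := Nat.pow_log_le_self 2 (by omega)
  have h2 : ((2 : ℝ) ^ Nat.log 2 m) ^ 2 ≤ B := by
    refine le_trans (pow_le_pow_left₀ (by positivity) ?_ 2) hm
    exact_mod_cast h1
  have h3 : (4 : ℝ) ^ Nat.log 2 m ≤ B := by
    refine le_trans (le_of_eq ?_) h2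
    rw [← pow_mul, mul_comm, pow_mul]
    norm_num
  have h4 := Real.log_le_log (by positivity) h3
  rw [Real.log_pow] at h4
  have h5 : (1 : ℝ) ≤ Real.log 4 := by
    rw [Real.le_log_iff_exp_le (by norm_num)]
    linarith [Real.exp_one_lt_d9]
  have h6 : (0 : ℝ) ≤ (Nat.log 2 m : ℝ) := Nat.cast_nonneg _
  nlinarith

open Classical in
theorem dyadic3 {X W Θ : Finset ℂ} (h0 : (0 : ℂ) ∈ X) (hneg : ∀ x ∈ X, -x ∈ X)
    (hW : ∀ x ∈ X, ∀ y ∈ X, x + y ∈ W) (hΘ : Dirs Θ) (hX : Θ ⊆ X) {B : ℝ} (hB : 1 ≤ B)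
    (hWB : (W.card : ℝ) ≤ B) (hXB : (X.card : ℝ) ≤ B)
    (hn : ∀ θ ∈ Θ, (nT X θ : ℝ) ^ 2 ≤ B) (hn' : ∀ θ ∈ Θ, (nT X (Complex.I * θ) : ℝ) ^ 2 ≤ B)
    (Bad : Finset ℕ)
    (hZ : 300 * B * Bad.card + B ≤
      ∑ θ ∈ Θ, ((nT X θ : ℝ) - 1) * ((nT X (Complex.I * θ) : ℝ) - 1)) :
    ∃ k, k ∉ Bad ∧ B ≤ 576 * (1 + Real.log B) ^ 4 * (4 ^ k *
      ((Θ.filter fun θ => 2 ^ k ≤ nT X θ ∧ 2 ^ k ≤ nT X (Complex.I * θ)).card : ℝ)) := by
  set n : ℂ → ℕ := fun θ => nT X θ with hnd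
  set n' : ℂ → ℕ := fun θ => nT X (Complex.I * θ) with hnd'
  set K : ℕ := ⌊Real.log B⌋₊ with hK
  have hlogB : 0 ≤ Real.log B := Real.log_nonneg hB
  have hK1 : ((K : ℝ) + 1) ≤ 1 + Real.log B := by
    have := Nat.floor_le hlogB
    linarith
  have hpos : ∀ θ : ℂ, 1 ≤ nT X θ := by
    intro θ
    unfold nT
    rw [Nat.one_le_iff_ne_zero, ← Nat.pos_iff_ne_zero, Finset.card_pos]
    exact ⟨0, Finset.mem_filter.2 ⟨h0, par_zero θ⟩⟩
  have hn1 : ∀ θ, 1 ≤ n θ := fun θ => hpos θ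
  have hn1' : ∀ θ, 1 ≤ n' θ := fun θ => hpos _
  have hnB : ∀ θ ∈ Θ, ((n θ : ℕ) : ℝ) ^ 2 ≤ B := fun θ hθ => hn θ hθ
  have hnB' : ∀ θ ∈ Θ, ((n' θ : ℕ) : ℝ) ^ 2 ≤ B := fun θ hθ => hn' θ hθ
  have hminB : ∀ θ ∈ Θ, ((min (n θ) (n' θ) : ℕ) : ℝ) ^ 2 ≤ B := by
    intro θ hθ
    rcases min_choice (n θ) (n' θ) with h | h
    · rw [h]; exact hnB θ hθ
    · rw [h]; exact hnB' θ hθ
  have hmaxB : ∀ θ ∈ Θ, ((max (n θ) (n' θ) : ℕ) : ℝ) ^ 2 ≤ B := by
    intro θ hθ
    rcases max_choice (n θ) (n' θ) with h | h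
    · rw [h]; exact hnB θ hθ
    · rw [h]; exact hnB' θ hθ
  set g : ℂ → ℕ × ℕ := fun θ => (Nat.log 2 (min (n θ) (n' θ)), Nat.log 2 (max (n θ) (n' θ))) with hg
  have hgP : ∀ θ ∈ Θ, g θ ∈ Finset.range (K + 1) ×ˢ Finset.range (K + 1) := by
    intro θ hθ
    rw [Finset.mem_product, Finset.mem_range, Finset.mem_range]
    exact ⟨Nat.lt_succ_of_le (Bb3_log hB (le_min (hn1 θ) (hn1' θ)) (hminB θ hθ)),
      Nat.lt_succ_of_le (Bb3_log hB (le_trans (hn1 θ) (le_max_left _ _)) (hmaxB θ hθ))⟩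
  set c : ℕ → ℕ → ℝ := fun k l => ((Θ.filter fun θ => g θ = (k, l)).card : ℝ) with hc
  have hc0 : ∀ k l, 0 ≤ c k l := fun k l => Nat.cast_nonneg _
  -- the size of the classes
  have hcl : ∀ k l, (4 : ℝ) ^ l * c k l ≤ 36 * B := by
    intro k l
    refine Bb3_cl hneg hW hΘ hX hB hWB hXB hn hn' l _ (Finset.filter_subset _ _) ?_
    intro θ hθ
    have h1 := (Finset.mem_filter.1 hθ).2
    have h2 : Nat.log 2 (max (n θ) (n' θ)) = l := congrArg Prod.snd h1
    rw [← h2]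
    exact Nat.pow_log_le_self 2 (by
      have := le_trans (hn1 θ) (le_max_left (n θ) (n' θ))
      omega)
  have hckl : ∀ k l, l < k → c k l = 0 := by
    intro k l hlk
    rw [hc]
    simp only [Nat.cast_eq_zero, Finset.card_eq_zero]
    rw [Finset.filter_eq_empty_iff]
    intro θ _ h1
    have h2 : Nat.log 2 (max (n θ) (n' θ)) = l := congrArg Prod.snd h1
    have h3 : Nat.log 2 (min (n θ) (n' θ)) = k := congrArg Prod.fst h1
    have h4 : Nat.log 2 (min (n θ) (n' θ)) ≤ Nat.log 2 (max (n θ) (n' θ)) := Nat.log_mono_right (le_trans (min_le_left _ _) (le_max_left _ _))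
    omega
  set a : ℕ → ℕ → ℝ := fun k l => 2 ^ (k + l + 2) * c k l with ha
  have ha0 : ∀ k l, 0 ≤ a k l := fun k l => mul_nonneg (by positivity) (hc0 k l)
  have hsum : ∑ θ ∈ Θ, ((nT X θ : ℝ) - 1) * ((nT X (Complex.I * θ) : ℝ) - 1) ≤
      ∑ k ∈ Finset.range (K + 1), ∑ l ∈ Finset.range (K + 1), a k l := by
    rw [← Finset.sum_product', ← Finset.sum_fiberwise_of_maps_to hgP]
    apply Finset.sum_le_sum
    rintro ⟨k, l⟩ _
    calc ∑ θ ∈ Θ.filter (fun θ => g θ = (k, l)), ((nT X θ : ℝ) - 1) * ((nT X (Complex.I * θ) : ℝ) - 1)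
        ≤ ∑ _θ ∈ Θ.filter (fun θ => g θ = (k, l)), (2 : ℝ) ^ (k + l + 2) := by
          apply Finset.sum_le_sum
          intro θ hθ
          have h1 := (Finset.mem_filter.1 hθ).2
          have h2 : Nat.log 2 (max (n θ) (n' θ)) = l := congrArg Prod.snd h1
          have h3 : Nat.log 2 (min (n θ) (n' θ)) = k := congrArg Prod.fst h1
          have h4 : max (n θ) (n' θ) < 2 ^ (l + 1) := by
            rw [← h2]
            exact Nat.lt_pow_succ_log_self (by norm_num) _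
          have h5 : min (n θ) (n' θ) < 2 ^ (k + 1) := by
            rw [← h3]
            exact Nat.lt_pow_succ_log_self (by norm_num) _
          have h6 : (nT X θ : ℝ) * (nT X (Complex.I * θ) : ℝ) ≤ (2 : ℝ) ^ (k + l + 2) := by
            have h7 : n θ * n' θ ≤ 2 ^ (k + l + 2) := by
              rw [← min_mul_max (n θ) (n' θ)]
              calc min (n θ) (n' θ) * max (n θ) (n' θ) ≤ 2 ^ (k + 1) * 2 ^ (l + 1) := Nat.mul_le_mul h5.le h4.le
                _ = 2 ^ (k + l + 2) := by rw [← pow_add]; congr 1; ring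
            exact_mod_cast h7
          have h8 : (1 : ℝ) ≤ (nT X θ : ℝ) := by exact_mod_cast hpos θ
          have h9 : (1 : ℝ) ≤ (nT X (Complex.I * θ) : ℝ) := by exact_mod_cast hpos _
          nlinarith
      _ = a k l := by
          rw [Finset.sum_const, nsmul_eq_mul, ha, hc]
          ring
  -- the sums for fixed k
  have hTk : ∀ k, ∑ l ∈ Finset.range (K + 1), a k l ≤ 288 * B := by
    intro k
    calc ∑ l ∈ Finset.range (K + 1), a k l
        ≤ ∑ l ∈ Finset.range (K + 1), 144 * B * (if k ≤ l then (2 : ℝ) ^ k / 2 ^ l else 0) := by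
          apply Finset.sum_le_sum
          intro l _
          by_cases hkl : k ≤ l
          · rw [if_pos hkl]
            have h1 := hcl k l
            have h2 : (0 : ℝ) < 2 ^ l := by positivity
            have h3 : (4 : ℝ) ^ l = 2 ^ l * 2 ^ l := by rw [← mul_pow]; norm_num
            rw [h3] at h1
            have h4 : a k l = 4 * 2 ^ k * (2 ^ l * c k l) := by
              rw [ha]
              simp only
              rw [pow_add, pow_add]
              ring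
            rw [h4]
            have h5 : 2 ^ l * c k l ≤ 36 * B / 2 ^ l := by
              rw [le_div_iff₀ h2]
              linarith
            have h6 := mul_le_mul_of_nonneg_left h5 (by positivity : (0 : ℝ) ≤ 4 * 2 ^ k)
            refine le_trans h6 (le_of_eq ?_)
            ring
          · rw [if_neg hkl, mul_zero]
            have h1 := hckl k l (by omega)
            rw [ha]
            simp only
            rw [h1, mul_zero]
      _ = 144 * B * ∑ l ∈ Finset.range (K + 1), (if k ≤ l then (2 : ℝ) ^ k / 2 ^ l else 0) := by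
          rw [Finset.mul_sum]
      _ ≤ 144 * B * 2 := mul_le_mul_of_nonneg_left (Bb3_geo k (K + 1)) (by linarith)
      _ = 288 * B := by ring
  have hsplit : ∑ k ∈ Finset.range (K + 1), ∑ l ∈ Finset.range (K + 1), a k l ≤
      288 * B * Bad.card + ∑ k ∈ (Finset.range (K + 1)).filter (fun k => k ∉ Bad), ∑ l ∈ Finset.range (K + 1), a k l := by
    have h1 := Finset.sum_filter_add_sum_filter_not (Finset.range (K + 1)) (fun k => k ∉ Bad)
      (fun k => ∑ l ∈ Finset.range (K + 1), a k l)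
    have h2 : ∑ k ∈ (Finset.range (K + 1)).filter (fun k => ¬ k ∉ Bad), ∑ l ∈ Finset.range (K + 1), a k l ≤
        288 * B * Bad.card := by
      calc ∑ k ∈ (Finset.range (K + 1)).filter (fun k => ¬ k ∉ Bad), ∑ l ∈ Finset.range (K + 1), a k l
          ≤ ∑ _k ∈ (Finset.range (K + 1)).filter (fun k => ¬ k ∉ Bad), 288 * B :=
            Finset.sum_le_sum fun k _ => hTk k
        _ = (((Finset.range (K + 1)).filter (fun k => ¬ k ∉ Bad)).card : ℝ) * (288 * B) := by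
            rw [Finset.sum_const, nsmul_eq_mul]
        _ ≤ (Bad.card : ℝ) * (288 * B) := by
            apply mul_le_mul_of_nonneg_right _ (by linarith)
            have : ((Finset.range (K + 1)).filter (fun k => ¬ k ∉ Bad)) ⊆ Bad := by
              intro k hk
              exact not_not.1 (Finset.mem_filter.1 hk).2
            exact_mod_cast Finset.card_le_card this
        _ = 288 * B * Bad.card := by ring
    rw [← h1]
    linarith
  have hBad0 : (0 : ℝ) ≤ B * Bad.card := by positivity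
  have hgood : B ≤ ∑ p ∈ (Finset.range (K + 1)).filter (fun k => k ∉ Bad) ×ˢ Finset.range (K + 1), a p.1 p.2 := by
    rw [Finset.sum_product]
    linarith
  set P := (Finset.range (K + 1)).filter (fun k => k ∉ Bad) ×ˢ Finset.range (K + 1) with hP
  have hPne : P.Nonempty := by
    rw [Finset.nonempty_iff_ne_empty]
    intro h
    rw [h, Finset.sum_empty] at hgood
    linarith
  have hPcard : (P.card : ℝ) ≤ ((K : ℝ) + 1) ^ 2 := by
    have h1 : P.card ≤ (K + 1) * (K + 1) := by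
      rw [hP, Finset.card_product, Finset.card_range]
      apply Nat.mul_le_mul_right
      exact (Finset.card_filter_le _ _).trans (le_of_eq (Finset.card_range _))
    have h2 : (P.card : ℝ) ≤ ((K + 1 : ℕ) : ℝ) * ((K + 1 : ℕ) : ℝ) := by exact_mod_cast h1
    push_cast at h2
    nlinarith
  have hKp : (0 : ℝ) < ((K : ℝ) + 1) ^ 2 := by positivity
  obtain ⟨⟨k, l⟩, hkl, hval⟩ : ∃ p ∈ P, B / ((K : ℝ) + 1) ^ 2 ≤ a p.1 p.2 := by
    apply Finset.exists_le_of_sum_le hPne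
    rw [Finset.sum_const, nsmul_eq_mul]
    refine le_trans ?_ hgood
    rw [mul_div_assoc', div_le_iff₀ hKp, mul_comm]
    exact mul_le_mul_of_nonneg_left hPcard (by linarith)
  have hkBad : k ∉ Bad := by
    rw [hP, Finset.mem_product] at hkl
    exact (Finset.mem_filter.1 hkl.1).2
  refine ⟨k, hkBad, ?_⟩
  simp only at hval
  rw [div_le_iff₀ hKp] at hval
  have hl0 : (0 : ℝ) ≤ 1 + Real.log B := by linarith
  have hB1 : B ≤ a k l * (1 + Real.log B) ^ 2 := by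
    refine le_trans hval (mul_le_mul_of_nonneg_left ?_ (ha0 k l))
    exact pow_le_pow_left₀ (by positivity) hK1 2
  have hcc : c k l ≤ ((Θ.filter fun θ => 2 ^ k ≤ nT X θ ∧ 2 ^ k ≤ nT X (Complex.I * θ)).card : ℝ) := by
    rw [hc]
    simp only
    have : (Θ.filter fun θ => g θ = (k, l)) ⊆ (Θ.filter fun θ => 2 ^ k ≤ nT X θ ∧ 2 ^ k ≤ nT X (Complex.I * θ)) := by
      intro θ hθ
      rw [Finset.mem_filter] at hθ ⊢
      have h3 : Nat.log 2 (min (n θ) (n' θ)) = k := congrArg Prod.fst hθ.2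
      have h4 : 2 ^ k ≤ min (n θ) (n' θ) := by
        rw [← h3]
        exact Nat.pow_log_le_self 2 (by
          have := le_min (hn1 θ) (hn1' θ)
          omega)
      exact ⟨hθ.1, le_trans h4 (min_le_left _ _), le_trans h4 (min_le_right _ _)⟩
    exact_mod_cast Finset.card_le_card this
  -- final computation
  have h1 := hcl k l
  have h3 : (4 : ℝ) ^ l = 2 ^ l * 2 ^ l := by rw [← mul_pow]; norm_num
  have h3k : (4 : ℝ) ^ k = 2 ^ k * 2 ^ k := by rw [← mul_pow]; norm_num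
  have h4 : a k l = 4 * 2 ^ k * (2 ^ l * c k l) := by
    rw [ha]
    simp only
    rw [pow_add, pow_add]
    ring
  rw [h4] at hB1
  rw [h3] at h1
  obtain ⟨x, hx⟩ : ∃ x : ℝ, x = 2 ^ l := ⟨_, rfl⟩
  obtain ⟨y, hy⟩ : ∃ y : ℝ, y = 2 ^ k := ⟨_, rfl⟩
  obtain ⟨L0, hL0⟩ : ∃ L0 : ℝ, L0 = 1 + Real.log B := ⟨_, rfl⟩
  obtain ⟨C, hC⟩ : ∃ C : ℝ, C = c k l := ⟨_, rfl⟩
  have hC0 : 0 ≤ C := by rw [hC]; exact hc0 k l
  have hy0 : 0 < y := by rw [hy]; positivity
  have hx0 : 0 < x := by rw [hx]; positivity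
  rw [← hx, ← hy, ← hL0, ← hC] at hB1
  rw [← hx, ← hC] at h1
  rw [← hL0] at hl0 ⊢
  rw [h3k, ← hy]
  rw [← hC] at hcc
  have hBpos : 0 < B := by linarith
  have h5 : B * B ≤ (4 * y * (x * C) * L0 ^ 2) * (4 * y * (x * C) * L0 ^ 2) :=
    mul_le_mul hB1 hB1 hBpos.le (by positivity)
  have h6 : (4 * y * (x * C) * L0 ^ 2) * (4 * y * (x * C) * L0 ^ 2) = (16 * y * y * L0 ^ 4 * C) * (x * x * C) := by ring
  have h7 : (16 * y * y * L0 ^ 4 * C) * (x * x * C) ≤ (16 * y * y * L0 ^ 4 * C) * (36 * B) :=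
    mul_le_mul_of_nonneg_left h1 (by positivity)
  have h8 : B * B ≤ (576 * L0 ^ 4 * (y * y * C)) * B := by
    rw [h6] at h5
    refine le_trans h5 (le_trans h7 (le_of_eq ?_))
    ring
  have h9 : B ≤ 576 * L0 ^ 4 * (y * y * C) := le_of_mul_le_mul_right h8 hBpos
  refine le_trans h9 ?_
  apply mul_le_mul_of_nonneg_left _ (by positivity)
  exact mul_le_mul_of_nonneg_left hcc (by positivity)

open Classical in
/-- Two non-parallel directions: the sums are distinct. -/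
theorem rect {X W : Finset ℂ} (hW : ∀ x ∈ X, ∀ y ∈ X, x + y ∈ W) {θ θ' : ℂ} (hθ : θ ≠ 0) (hθ' : θ' ≠ 0)
    (h : ¬ par θ θ') : nT X θ * nT X θ' ≤ W.card := by
  unfold nT
  rw [← Finset.card_product]
  refine Finset.card_le_card_of_injOn (fun q => q.1 + q.2) ?_ ?_
  · intro q hq
    have hq1 := Finset.mem_product.1 (Finset.mem_coe.1 hq)
    exact Finset.mem_coe.2 (hW _ (Finset.mem_filter.1 hq1.1).1 _ (Finset.mem_filter.1 hq1.2).1)
  · intro q hq q' hq' he
    have hq1 := Finset.mem_product.1 (Finset.mem_coe.1 hq)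
    have hq1' := Finset.mem_product.1 (Finset.mem_coe.1 hq')
    have he' : q.1 + q.2 = q'.1 + q'.2 := he
    have h1 : q.1 - q'.1 = q'.2 - q.2 := by linear_combination he'
    have h2 : par θ (q.1 - q'.1) := par_sub (Finset.mem_filter.1 hq1.1).2 (Finset.mem_filter.1 hq1'.1).2
    have h3 : par θ' (q.1 - q'.1) := by
      rw [h1]
      exact par_sub (Finset.mem_filter.1 hq1'.2).2 (Finset.mem_filter.1 hq1.2).2
    have h4 := par_two hθ hθ' h h2 h3
    have h5 : q.1 = q'.1 := sub_eq_zero.1 h4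
    refine Prod.ext h5 ?_
    rw [h5] at he'
    exact add_left_cancel he'

/-- `θ` and `i θ` are not parallel. -/
theorem not_par_I {θ : ℂ} (hθ : θ ≠ 0) : ¬ par θ (Complex.I * θ) := by
  rw [par_iff, Bb3_I_re, Bb3_I_im]
  intro h
  have h1 : θ.re * θ.re + θ.im * θ.im = 0 := by linarith
  apply hθ
  have h2 : θ.re = 0 := by nlinarith [mul_self_nonneg θ.re, mul_self_nonneg θ.im]
  have h3 : θ.im = 0 := by nlinarith [mul_self_nonneg θ.re, mul_self_nonneg θ.im]
  exact Complex.ext h2 h3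

theorem par_I_iff {θ θ' : ℂ} : par (Complex.I * θ) (Complex.I * θ') ↔ par θ θ' := by
  rw [par_iff, par_iff, Bb3_I_re, Bb3_I_re, Bb3_I_im, Bb3_I_im]
  constructor <;> intro h <;> linarith

open Classical in
/-- The directions with more than `√B` points can be dropped. -/
theorem drop_rich {X W Θ : Finset ℂ} (hW : ∀ x ∈ X, ∀ y ∈ X, x + y ∈ W) (hΘ : Dirs Θ) (h0 : (0 : ℂ) ∈ X)
    {B : ℝ} (hB : 0 ≤ B) (hWB : (W.card : ℝ) ≤ B) :
    ∑ θ ∈ Θ, ((nT X θ : ℝ) - 1) * ((nT X (Complex.I * θ) : ℝ) - 1) ≤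
      2 * B + ∑ θ ∈ Θ.filter (fun θ => (nT X θ : ℝ) ^ 2 ≤ B ∧ (nT X (Complex.I * θ) : ℝ) ^ 2 ≤ B),
        ((nT X θ : ℝ) - 1) * ((nT X (Complex.I * θ) : ℝ) - 1) := by
  have hpos : ∀ θ : ℂ, 1 ≤ nT X θ := by
    intro θ
    unfold nT
    rw [Nat.one_le_iff_ne_zero, ← Nat.pos_iff_ne_zero, Finset.card_pos]
    exact ⟨0, Finset.mem_filter.2 ⟨h0, par_zero θ⟩⟩
  have hterm : ∀ θ ∈ Θ, ((nT X θ : ℝ) - 1) * ((nT X (Complex.I * θ) : ℝ) - 1) ≤ B := by
    intro θ hθ
    have h1 := rect hW (hΘ.1 θ hθ) (mul_ne_zero Complex.I_ne_zero (hΘ.1 θ hθ)) (not_par_I (hΘ.1 θ hθ))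
    have h2 : (nT X θ : ℝ) * (nT X (Complex.I * θ) : ℝ) ≤ B := le_trans (by exact_mod_cast h1) hWB
    have h3 : (1 : ℝ) ≤ nT X θ := by exact_mod_cast hpos θ
    have h4 : (1 : ℝ) ≤ nT X (Complex.I * θ) := by exact_mod_cast hpos _
    nlinarith
  have hone : ∀ θ θ' : ℂ, θ ≠ 0 → θ' ≠ 0 → B < (nT X θ : ℝ) ^ 2 → B < (nT X θ' : ℝ) ^ 2 → par θ θ' := by
    intro θ θ' hθ hθ' h1 h2
    by_contra h
    have h3 : (nT X θ : ℝ) * (nT X θ' : ℝ) ≤ B := le_trans (by exact_mod_cast rect hW hθ hθ' h) hWB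
    have h4 : (0 : ℝ) ≤ nT X θ := Nat.cast_nonneg _
    have h5 : (0 : ℝ) ≤ nT X θ' := Nat.cast_nonneg _
    have h6 : ((nT X θ : ℝ) * (nT X θ' : ℝ)) ^ 2 ≤ B ^ 2 := pow_le_pow_left₀ (mul_nonneg h4 h5) h3 2
    have h7 : B * B < (nT X θ : ℝ) ^ 2 * (nT X θ' : ℝ) ^ 2 := by
      rcases hB.eq_or_lt with h8 | h8
      · rw [← h8] at h1 h2 ⊢
        rw [mul_zero]
        exact mul_pos h1 h2
      · exact mul_lt_mul'' h1 h2 hB hB
    nlinarith
  set G := Θ.filter (fun θ => (nT X θ : ℝ) ^ 2 ≤ B ∧ (nT X (Complex.I * θ) : ℝ) ^ 2 ≤ B) with hG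
  set R := Θ.filter (fun θ => B < (nT X θ : ℝ) ^ 2) with hR
  set R' := Θ.filter (fun θ => B < (nT X (Complex.I * θ) : ℝ) ^ 2) with hR'
  have hRc : R.card ≤ 1 := by
    rw [Finset.card_le_one]
    intro a ha b hb
    by_contra hne
    rw [hR, Finset.mem_filter] at ha hb
    exact hΘ.2 a ha.1 b hb.1 hne (hone a b (hΘ.1 a ha.1) (hΘ.1 b hb.1) ha.2 hb.2)
  have hRc' : R'.card ≤ 1 := by
    rw [Finset.card_le_one]
    intro a ha b hb
    by_contra hne
    rw [hR', Finset.mem_filter] at ha hb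
    exact hΘ.2 a ha.1 b hb.1 hne (par_I_iff.1 (hone _ _
      (mul_ne_zero Complex.I_ne_zero (hΘ.1 a ha.1)) (mul_ne_zero Complex.I_ne_zero (hΘ.1 b hb.1)) ha.2 hb.2))
  have hsplit := Finset.sum_filter_add_sum_filter_not Θ
    (fun θ => (nT X θ : ℝ) ^ 2 ≤ B ∧ (nT X (Complex.I * θ) : ℝ) ^ 2 ≤ B)
    (fun θ => ((nT X θ : ℝ) - 1) * ((nT X (Complex.I * θ) : ℝ) - 1))
  rw [← hsplit, ← hG, add_comm]
  refine add_le_add ?_ le_rfl
  set H := Θ.filter (fun θ => ¬((nT X θ : ℝ) ^ 2 ≤ B ∧ (nT X (Complex.I * θ) : ℝ) ^ 2 ≤ B)) with hH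
  have hHc : H.card ≤ 2 := by
    have h1 : H ⊆ R ∪ R' := by
      intro θ hθ
      rw [hH, Finset.mem_filter] at hθ
      rw [Finset.mem_union, hR, hR', Finset.mem_filter, Finset.mem_filter]
      by_cases h2 : (nT X θ : ℝ) ^ 2 ≤ B
      · right
        refine ⟨hθ.1, ?_⟩
        by_contra h3
        exact hθ.2 ⟨h2, not_lt.1 h3⟩
      · exact Or.inl ⟨hθ.1, not_le.1 h2⟩
    have h2 := (Finset.card_le_card h1).trans (Finset.card_union_le _ _)
    omega
  calc ∑ θ ∈ H, ((nT X θ : ℝ) - 1) * ((nT X (Complex.I * θ) : ℝ) - 1) ≤ ∑ _θ ∈ H, B :=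
        Finset.sum_le_sum fun θ hθ => hterm θ (Finset.mem_filter.1 hθ).1
    _ = (H.card : ℝ) * B := by rw [Finset.sum_const, nsmul_eq_mul]
    _ ≤ 2 * B := mul_le_mul_of_nonneg_right (by exact_mod_cast hHc) hB

end Pool.Agent.SD
end
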