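import Mathlib
import Pool.Agent.Lib.MP_6f2296_co.RL.Defs
import Pool.Agent.Lib.MP_6f2296_co.RL.Ra

section

/-!
# TASK RL BasB: norms and cubes

PROOFS.  `nm_le_iff`: `Finset.sup_le_iff`, `Int.natAbs_le` (`|a| ≤ n ↔ a.natAbs ≤ n`).  `mem_Bx`: `Fintype.mem_piFinset`,
`Finset.mem_Icc`, `abs_le`.  The rest follows from `nm_le_iff`.  `card_Bx`: `Fintype.card_piFinset`, `Int.card_Icc`.
-/

set_option autoImplicit false

open Finset

namespace Pool.Agent.RL

variable {d : ℕ}

theorem nm_le_iff {x : Fin d → ℤ} {R : ℕ} : nm x ≤ R ↔ ∀ i, |x i| ≤ R := by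
  unfold nm
  rw [Finset.sup_le_iff]
  constructor
  · intro h i
    have h1 := h i (Finset.mem_univ i)
    rw [Int.abs_eq_natAbs]
    exact_mod_cast h1
  · intro h i _
    have h1 := h i
    rw [Int.abs_eq_natAbs] at h1
    exact_mod_cast h1

theorem abs_le_nm (x : Fin d → ℤ) (i : Fin d) : |x i| ≤ nm x := nm_le_iff.1 le_rfl i

theorem mem_Bx' {x : Fin d → ℤ} {R : ℕ} : x ∈ Bx d R ↔ ∀ i, |x i| ≤ R := by
  unfold Bx
  rw [Fintype.mem_piFinset]
  simp only [Finset.mem_Icc, abs_le]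

theorem mem_Bx {x : Fin d → ℤ} {R : ℕ} : x ∈ Bx d R ↔ nm x ≤ R := by
  rw [mem_Bx', nm_le_iff]

theorem nm_zero : nm (0 : Fin d → ℤ) = 0 := by
  apply Nat.le_zero.1
  rw [nm_le_iff]
  intro i
  simp

theorem nm_pos {x : Fin d → ℤ} (hx : x ≠ 0) : 1 ≤ nm x := by
  by_contra hlt
  apply hx
  have h0 : nm x ≤ 0 := by omega
  rw [nm_le_iff] at h0
  funext i
  have h1 := h0 i
  have h2 : |x i| ≤ 0 := by exact_mod_cast h1
  exact abs_nonpos_iff.1 h2

theorem nm_add_le (x y : Fin d → ℤ) : nm (x + y) ≤ nm x + nm y := by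
  rw [nm_le_iff]
  intro i
  push_cast
  exact (abs_add_le _ _).trans (add_le_add (abs_le_nm x i) (abs_le_nm y i))

theorem nm_neg (x : Fin d → ℤ) : nm (-x) = nm x := by
  apply le_antisymm
  · rw [nm_le_iff]
    intro i
    rw [Pi.neg_apply, abs_neg]
    exact abs_le_nm x i
  · rw [nm_le_iff]
    intro i
    have := abs_le_nm (-x) i
    rwa [Pi.neg_apply, abs_neg] at this

theorem nm_sub_le (x y : Fin d → ℤ) : nm (x - y) ≤ nm x + nm y := by
  rw [sub_eq_add_neg, ← nm_neg y]
  exact nm_add_le x (-y)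

theorem nm_single (i : Fin d) : nm (Pi.single i (1 : ℤ) : Fin d → ℤ) = 1 := by
  apply le_antisymm
  · rw [nm_le_iff]
    intro j
    by_cases h : j = i
    · subst h
      simp
    · simp [h]
  · apply nm_pos
    intro h
    have := congrFun h i
    simp at this

theorem card_Bx (d R : ℕ) : (Bx d R).card = (2 * R + 1) ^ d := by
  unfold Bx
  rw [Fintype.card_piFinset, Finset.prod_const, Int.card_Icc, Finset.card_univ, Fintype.card_fin]
  congr 1
  omega

theorem mem_cnt {W : Set (Fin d → ℤ)} {R : ℕ} {x : Fin d → ℤ} [DecidablePred (· ∈ W)] :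
    x ∈ (Bx d R).filter (· ∈ W) ↔ nm x ≤ R ∧ x ∈ W := by
  rw [Finset.mem_filter, mem_Bx]

theorem cnt_eq (W : Set (Fin d → ℤ)) [DecidablePred (· ∈ W)] (R : ℕ) :
    cnt W R = ((Bx d R).filter (· ∈ W)).card := by
  have key : ∀ i1 i2 : DecidablePred (· ∈ W), (@Finset.filter _ (· ∈ W) i1 (Bx d R)).card =
      (@Finset.filter _ (· ∈ W) i2 (Bx d R)).card := by
    intro i1 i2
    rw [Subsingleton.elim i1 i2]
  unfold cnt
  exact key _ _

theorem cnt_le (W : Set (Fin d → ℤ)) (R : ℕ) : cnt W R ≤ (2 * R + 1) ^ d := by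
  classical
  rw [← card_Bx, cnt_eq]
  exact Finset.card_filter_le _ _

theorem cnt_mono {W W' : Set (Fin d → ℤ)} (h : W ⊆ W') (R : ℕ) : cnt W R ≤ cnt W' R := by
  classical
  rw [cnt_eq, cnt_eq]
  apply Finset.card_le_card
  intro x hx
  rw [Finset.mem_filter] at hx ⊢
  exact ⟨hx.1, h hx.2⟩

theorem one_le_cnt {W : Set (Fin d → ℤ)} (h : (0 : Fin d → ℤ) ∈ W) (R : ℕ) : 1 ≤ cnt W R := by
  classical
  rw [cnt_eq, Nat.one_le_iff_ne_zero, Finset.card_ne_zero]
  refine ⟨0, ?_⟩
  rw [Finset.mem_filter, mem_Bx, nm_zero]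
  exact ⟨Nat.zero_le _, h⟩

end Pool.Agent.RL
end

section

/-!
# TASK RL BasA: parallel and perpendicular vectors

PROOFS.  `L_inj`: `∑ i, (x i : ℂ) * v i = ∑ i, (x i : ℚ) • v i`, `Fintype.linearIndependent_iff`.
`om_self`: `conj z * z` is real.  `om_symm`, `pr_symm`: `conj (conj a * b) = conj b * a`.  `om_add_left` ...: `map_add`.
`om_eq_sum`: `L v y = ∑ j, y j * v j = ∑ j, y j * L v (e j)`, `e j = Pi.single j 1`, and `Im` is additive.
`par_iff`: with `a = L v x ≠ 0`, `b = L v y`: `b = (conj a * b) * a / |a|²`; the factor `conj a * b / |a|²` is real iff its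
imaginary part vanishes.  `perp_iff`: the same, the factor is `t * I`.
`Mo_eq`, `Mo_Po`: `L v y = t L v x` resp. `L v y = t I L v x` with real `t ≠ 0` (`y ≠ 0`, `L_inj`), so
`conj (L y) * L z = t conj (L x) * L z` resp. `= -t I conj (L x) * L z`; compare real and imaginary parts.
`Mo_Po_inter`: `conj a * b` has real and imaginary part `0`, so it is `0`, so `b = 0`, `L_inj`.
`Mo_inter`: if `z ≠ 0` lies in both then `Mo v x = Mo v z = Mo v y ∋ y` by `Mo_eq`.
-/

set_option autoImplicit false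

open scoped ComplexConjugate
open Finset

namespace Pool.Agent.RL

variable {d : ℕ} {v : Fin d → ℂ}

private theorem BasA_om (v : Fin d → ℂ) (x y : Fin d → ℤ) :
    om v x y = (L v x).re * (L v y).im - (L v x).im * (L v y).re := by
  unfold om
  rw [Complex.mul_im, Complex.conj_re, Complex.conj_im]
  ring

private theorem BasA_pr (v : Fin d → ℂ) (x y : Fin d → ℤ) :
    pr v x y = (L v x).re * (L v y).re + (L v x).im * (L v y).im := by
  unfold pr
  rw [Complex.mul_re, Complex.conj_re, Complex.conj_im]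
  ring

theorem L_inj (hv : LinearIndependent ℚ v) {x : Fin d → ℤ} (h : L v x = 0) : x = 0 := by
  rw [Fintype.linearIndependent_iff] at hv
  have h1 := hv (fun i => (x i : ℚ)) (by
    rw [← h]
    unfold L
    refine Finset.sum_congr rfl ?_
    intro i _
    rw [Rat.smul_def]
    push_cast
    rfl)
  funext i
  have h2 := h1 i
  simp only [Pi.zero_apply]
  exact_mod_cast h2

theorem L_single (v : Fin d → ℂ) (i : Fin d) : L v (Pi.single i 1) = v i := by
  unfold L
  rw [Finset.sum_eq_single i]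
  · rw [Pi.single_eq_same]
    simp
  · intro j _ hj
    rw [Pi.single_eq_of_ne hj]
    simp
  · intro h
    exact absurd (Finset.mem_univ i) h

theorem om_self (v : Fin d → ℂ) (x : Fin d → ℤ) : om v x x = 0 := by
  rw [BasA_om]
  ring

theorem om_symm (v : Fin d → ℂ) (x y : Fin d → ℤ) : om v x y = -om v y x := by
  rw [BasA_om, BasA_om]
  ring

theorem pr_symm (v : Fin d → ℂ) (x y : Fin d → ℤ) : pr v x y = pr v y x := by
  rw [BasA_pr, BasA_pr]
  ring

theorem om_add_left (v : Fin d → ℂ) (x y z : Fin d → ℤ) : om v (x + y) z = om v x z + om v y z := by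
  rw [BasA_om, BasA_om, BasA_om, L_add, Complex.add_re, Complex.add_im]
  ring

private theorem BasA_sre (v : Fin d → ℂ) (n : ℤ) (x : Fin d → ℤ) : (L v (n • x)).re = n * (L v x).re := by
  rw [L_smul, Complex.mul_re, Complex.intCast_re, Complex.intCast_im]
  ring

private theorem BasA_sim (v : Fin d → ℂ) (n : ℤ) (x : Fin d → ℤ) : (L v (n • x)).im = n * (L v x).im := by
  rw [L_smul, Complex.mul_im, Complex.intCast_re, Complex.intCast_im]
  ring

theorem om_smul_left (v : Fin d → ℂ) (n : ℤ) (x y : Fin d → ℤ) : om v (n • x) y = n * om v x y := by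
  rw [BasA_om, BasA_om, BasA_sre, BasA_sim]
  ring

theorem om_add_right (v : Fin d → ℂ) (x y z : Fin d → ℤ) : om v x (y + z) = om v x y + om v x z := by
  rw [BasA_om, BasA_om, BasA_om, L_add, Complex.add_re, Complex.add_im]
  ring

theorem om_smul_right (v : Fin d → ℂ) (n : ℤ) (x y : Fin d → ℤ) : om v x (n • y) = n * om v x y := by
  rw [BasA_om, BasA_om, BasA_sre, BasA_sim]
  ring

theorem om_eq_sum (v : Fin d → ℂ) (x y : Fin d → ℤ) :
    om v x y = ∑ j, (y j : ℝ) * om v x (Pi.single j 1) := by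
  have h : L v y = ∑ j, (y j : ℂ) * L v (Pi.single j 1) := by
    simp only [L_single]
    rfl
  unfold om
  rw [h, Finset.mul_sum, Complex.im_sum]
  refine Finset.sum_congr rfl ?_
  intro j _
  rw [mul_left_comm, Complex.mul_im, Complex.intCast_re, Complex.intCast_im]
  ring

theorem om_eq_sum_left (v : Fin d → ℂ) (x y : Fin d → ℤ) :
    om v x y = ∑ i, (x i : ℝ) * om v (Pi.single i 1) y := by
  rw [om_symm, om_eq_sum, ← Finset.sum_neg_distrib]
  refine Finset.sum_congr rfl ?_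
  intro i _
  rw [om_symm v y]
  ring

private theorem BasA_ne (hv : LinearIndependent ℚ v) {x : Fin d → ℤ} (hx : x ≠ 0) :
    0 < (L v x).re ^ 2 + (L v x).im ^ 2 := by
  have h : L v x ≠ 0 := fun h => hx (L_inj hv h)
  by_contra h1
  push Not at h1
  have h2 : (L v x).re = 0 := by nlinarith [sq_nonneg (L v x).re, sq_nonneg (L v x).im]
  have h3 : (L v x).im = 0 := by nlinarith [sq_nonneg (L v x).re, sq_nonneg (L v x).im]
  exact h (Complex.ext h2 h3)

theorem pr_self_pos (hv : LinearIndependent ℚ v) {x : Fin d → ℤ} (hx : x ≠ 0) : 0 < pr v x x := by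
  rw [BasA_pr]
  have := BasA_ne hv hx
  nlinarith

theorem self_mem_Mo (v : Fin d → ℂ) (x : Fin d → ℤ) : x ∈ Mo v x := om_self v x

theorem par_iff (hv : LinearIndependent ℚ v) {x y : Fin d → ℤ} (hx : x ≠ 0) :
    y ∈ Mo v x ↔ ∃ t : ℝ, L v y = t * L v x := by
  rw [mem_Mo, BasA_om]
  have hp := BasA_ne hv hx
  set a := L v x with ha
  set b := L v y with hb
  constructor
  · intro h
    refine ⟨(a.re * b.re + a.im * b.im) / (a.re ^ 2 + a.im ^ 2), ?_⟩
    apply Complex.ext
    · rw [Complex.mul_re, Complex.ofReal_re, Complex.ofReal_im]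
      field_simp
      linear_combination (-a.im) * h
    · rw [Complex.mul_im, Complex.ofReal_re, Complex.ofReal_im]
      field_simp
      linear_combination (a.re) * h
  · rintro ⟨t, ht⟩
    have h1 : b.re = t * a.re := by
      rw [ht, Complex.mul_re, Complex.ofReal_re, Complex.ofReal_im]
      ring
    have h2 : b.im = t * a.im := by
      rw [ht, Complex.mul_im, Complex.ofReal_re, Complex.ofReal_im]
      ring
    rw [h1, h2]
    ring

theorem perp_iff (hv : LinearIndependent ℚ v) {x y : Fin d → ℤ} (hx : x ≠ 0) :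
    y ∈ Po v x ↔ ∃ t : ℝ, L v y = t * Complex.I * L v x := by
  rw [mem_Po, BasA_pr]
  have hp := BasA_ne hv hx
  have hre : ∀ (t : ℝ) (a : ℂ), ((t : ℂ) * Complex.I * a).re = -(t * a.im) := by
    intro t a
    simp
  have him : ∀ (t : ℝ) (a : ℂ), ((t : ℂ) * Complex.I * a).im = t * a.re := by
    intro t a
    simp
  set a := L v x with ha
  set b := L v y with hb
  constructor
  · intro h
    refine ⟨(a.re * b.im - a.im * b.re) / (a.re ^ 2 + a.im ^ 2), ?_⟩
    apply Complex.ext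
    · rw [hre]
      field_simp
      linear_combination (a.re) * h
    · rw [him]
      field_simp
      linear_combination (a.im) * h
  · rintro ⟨t, ht⟩
    have h1 : b.re = -(t * a.im) := by
      rw [ht, hre]
    have h2 : b.im = t * a.re := by
      rw [ht, him]
    rw [h1, h2]
    ring

theorem Mo_eq (hv : LinearIndependent ℚ v) {x y : Fin d → ℤ} (hx : x ≠ 0) (hy : y ≠ 0)
    (h : y ∈ Mo v x) : Mo v y = Mo v x ∧ Po v y = Po v x := by
  obtain ⟨t, ht⟩ := (par_iff hv hx).mp h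
  have ht0 : t ≠ 0 := by
    rintro rfl
    apply hy
    apply L_inj hv
    rw [ht]
    simp
  have h1 : (L v y).re = t * (L v x).re := by
    rw [ht, Complex.mul_re, Complex.ofReal_re, Complex.ofReal_im]
    ring
  have h2 : (L v y).im = t * (L v x).im := by
    rw [ht, Complex.mul_im, Complex.ofReal_re, Complex.ofReal_im]
    ring
  constructor
  · ext z
    rw [mem_Mo, mem_Mo, BasA_om, BasA_om, h1, h2]
    constructor
    · intro h3
      apply mul_left_cancel₀ ht0
      linear_combination h3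
    · intro h3
      linear_combination t * h3
  · ext z
    rw [mem_Po, mem_Po, BasA_pr, BasA_pr, h1, h2]
    constructor
    · intro h3
      apply mul_left_cancel₀ ht0
      linear_combination h3
    · intro h3
      linear_combination t * h3

theorem Mo_Po (hv : LinearIndependent ℚ v) {x y : Fin d → ℤ} (hx : x ≠ 0) (hy : y ≠ 0)
    (h : y ∈ Po v x) : Mo v y = Po v x ∧ Po v y = Mo v x := by
  obtain ⟨t, ht⟩ := (perp_iff hv hx).mp h
  have ht0 : t ≠ 0 := by
    rintro rfl
    apply hy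
    apply L_inj hv
    rw [ht]
    simp
  have h1 : (L v y).re = -(t * (L v x).im) := by
    rw [ht]
    simp
  have h2 : (L v y).im = t * (L v x).re := by
    rw [ht]
    simp
  constructor
  · ext z
    rw [mem_Mo, mem_Po, BasA_om, BasA_pr, h1, h2]
    constructor
    · intro h3
      apply mul_left_cancel₀ ht0
      linear_combination (-1) * h3
    · intro h3
      linear_combination (-t) * h3
  · ext z
    rw [mem_Mo, mem_Po, BasA_om, BasA_pr, h1, h2]
    constructor
    · intro h3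
      apply mul_left_cancel₀ ht0
      linear_combination h3
    · intro h3
      linear_combination t * h3

theorem Mo_Po_inter (hv : LinearIndependent ℚ v) {x z : Fin d → ℤ} (hx : x ≠ 0)
    (h1 : z ∈ Mo v x) (h2 : z ∈ Po v x) : z = 0 := by
  have hx0 : L v x ≠ 0 := fun h => hx (L_inj hv h)
  have h3 : conj (L v x) * L v z = 0 := Complex.ext h2 h1
  apply L_inj hv
  rcases mul_eq_zero.mp h3 with h | h
  · exact absurd ((map_eq_zero _).mp h) hx0
  · exact h

theorem Mo_inter (hv : LinearIndependent ℚ v) {x y z : Fin d → ℤ} (hx : x ≠ 0) (hy : y ≠ 0)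
    (hxy : y ∉ Mo v x) (h1 : z ∈ Mo v x) (h2 : z ∈ Mo v y) : z = 0 := by
  by_contra hz
  have e1 := (Mo_eq hv hx hz h1).1
  have e2 := (Mo_eq hv hy hz h2).1
  apply hxy
  rw [← e1, e2]
  exact self_mem_Mo v y

end Pool.Agent.RL
end

section

/-!
# TASK RL BasC: ranks of sets of integer vectors

`rk X` is the dimension of the `ℚ`-span of `X` in `ℚ^d`.

PROOFS.  `rk_mono`: `Submodule.span_mono`, `Submodule.finrank_mono`.  `rk_le`: `Submodule.finrank_le`.
`rk_span`: if `toQ x ∈ span (toQ '' X)` for all `x ∈ Y` then `span (toQ '' Y) ≤ span (toQ '' X)`.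
`rk_indep`: the set `toQ '' X` contains a basis of its span (`exists_linearIndependent` or
`Submodule.exists_fun_fin_finrank_span_eq`; take the first `k` elements, and choose preimages).
`clear_den`: a vector in the span of `toQ '' W`, `W` a subgroup, has a positive integer multiple in `toQ '' W`
(span induction: common multiples of the denominators).
`rk_add_le`: the two spans have trivial intersection by `clear_den` (if `q` lies in both, positive integer multiples
`n₁ q = toQ w₁`, `n₂ q = toQ w₂`; then `n₂ w₁ = n₁ w₂ ∈ W₁ ∩ W₂`, so it is `0`), so the dimensions add up to at most `d`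
(`Submodule.finrank_add_finrank_le_of_disjoint` or `finrank_sup_add_finrank_inf_eq`).
`rk_ker`: the map `φ : ℚ^d → ℝ`, `q ↦ ∑ j, q j * a j` is `ℚ`-linear with range `span ℚ (range a)` and its kernel is the
span of the integer vectors in it (clear denominators), `LinearMap.finrank_range_add_finrank_ker`.
`rk_Mo`: `rk_ker` with `a j = om v x (e j)` and `om_eq_sum`.  `rk_top`: by `rk_Mo` the span has dimension `0`, so all
`om v x (e j)` are `0`; `om_eq_sum`.
-/

set_option autoImplicit false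

open Finset

namespace Pool.Agent.RL

variable {d : ℕ}

private theorem BasC_add (x y : Fin d → ℤ) : toQ (x + y) = toQ x + toQ y := by
  funext i
  simp [toQ]

private theorem BasC_smul (n : ℤ) (x : Fin d → ℤ) : toQ (n • x) = (n : ℚ) • toQ x := by
  funext i
  simp [toQ]

private theorem BasC_zero : toQ (0 : Fin d → ℤ) = 0 := by
  funext i
  simp [toQ]

private theorem BasC_inj {x y : Fin d → ℤ} (h : toQ x = toQ y) : x = y := by
  funext i
  have := congrFun h i
  simpa [toQ] using this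

private theorem BasC_single (j : Fin d) : toQ (Pi.single j 1 : Fin d → ℤ) = Pi.single j 1 := by
  funext i
  by_cases h : i = j
  · subst h
    simp [toQ]
  · simp [toQ, Pi.single_eq_of_ne h]

theorem rk_mono {X Y : Set (Fin d → ℤ)} (h : X ⊆ Y) : rk X ≤ rk Y := by
  exact Submodule.finrank_mono (Submodule.span_mono (Set.image_mono h))

theorem rk_le (X : Set (Fin d → ℤ)) : rk X ≤ d := by
  refine (Submodule.finrank_le _).trans (le_of_eq ?_)
  exact Module.finrank_fin_fun ℚ

theorem rk_span {X Y : Set (Fin d → ℤ)} (h : ∀ x ∈ Y, toQ x ∈ Submodule.span ℚ (toQ '' X)) :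
    rk Y ≤ rk X := by
  refine Submodule.finrank_mono (Submodule.span_le.2 ?_)
  rintro _ ⟨x, hx, rfl⟩
  exact h x hx

theorem rk_indep {X : Set (Fin d → ℤ)} {k : ℕ} (h : k ≤ rk X) :
    ∃ y : Fin k → (Fin d → ℤ), (∀ i, y i ∈ X) ∧ LinearIndependent ℚ (fun i => toQ (y i)) := by
  obtain ⟨f, hf, -, hl⟩ := Submodule.exists_fun_fin_finrank_span_eq ℚ (toQ '' X)
  choose y hy hyf using fun i : Fin k => hf (Fin.castLE h i)
  refine ⟨y, hy, ?_⟩
  have e : (fun i => toQ (y i)) = f ∘ Fin.castLE h := by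
    funext i
    exact hyf i
  rw [e]
  exact hl.comp _ (Fin.castLE_injective h)

theorem clear_den (W : Submodule ℤ (Fin d → ℤ)) {q : Fin d → ℚ}
    (hq : q ∈ Submodule.span ℚ (toQ '' (W : Set (Fin d → ℤ)))) :
    ∃ (n : ℕ) (w : Fin d → ℤ), 1 ≤ n ∧ w ∈ W ∧ (n : ℚ) • q = toQ w := by
  induction hq using Submodule.span_induction with
  | mem x hx =>
    obtain ⟨w, hw, rfl⟩ := hx
    exact ⟨1, w, le_rfl, hw, by simp⟩
  | zero => exact ⟨1, 0, le_rfl, W.zero_mem, by rw [smul_zero, BasC_zero]⟩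
  | add x y _ _ hx hy =>
    obtain ⟨n₁, w₁, h₁, hw₁, e₁⟩ := hx
    obtain ⟨n₂, w₂, h₂, hw₂, e₂⟩ := hy
    refine ⟨n₁ * n₂, (n₂ : ℤ) • w₁ + (n₁ : ℤ) • w₂, Nat.mul_pos h₁ h₂,
      W.add_mem (W.smul_mem _ hw₁) (W.smul_mem _ hw₂), ?_⟩
    rw [BasC_add, BasC_smul, BasC_smul, ← e₁, ← e₂, smul_smul, smul_smul, smul_add]
    push_cast
    rw [mul_comm (n₂ : ℚ) (n₁ : ℚ)]
  | smul a x _ hx =>
    obtain ⟨n, w, h, hw, e⟩ := hx
    refine ⟨n * a.den, a.num • w, Nat.mul_pos h a.den_pos, W.smul_mem _ hw, ?_⟩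
    rw [BasC_smul, ← e, smul_smul, smul_smul]
    congr 1
    push_cast
    have h2 : (a.den : ℚ) * a = a.num := by
      rw [mul_comm]
      exact Rat.mul_den_eq_num a
    calc (n : ℚ) * (a.den : ℚ) * a = n * ((a.den : ℚ) * a) := by ring
      _ = n * (a.num : ℚ) := by rw [h2]
      _ = (a.num : ℚ) * n := by ring

theorem rk_add_le (W₁ W₂ : Submodule ℤ (Fin d → ℤ)) (h : ∀ x, x ∈ W₁ → x ∈ W₂ → x = 0) :
    rk (W₁ : Set (Fin d → ℤ)) + rk (W₂ : Set (Fin d → ℤ)) ≤ d := by
  have hbot : Submodule.span ℚ (toQ '' (W₁ : Set (Fin d → ℤ))) ⊓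
      Submodule.span ℚ (toQ '' (W₂ : Set (Fin d → ℤ))) = ⊥ := by
    rw [Submodule.eq_bot_iff]
    rintro q ⟨hq₁, hq₂⟩
    obtain ⟨n₁, w₁, h₁, hw₁, e₁⟩ := clear_den W₁ hq₁
    obtain ⟨n₂, w₂, h₂, hw₂, e₂⟩ := clear_den W₂ hq₂
    have e : (n₂ : ℤ) • w₁ = (n₁ : ℤ) • w₂ := by
      refine BasC_inj ?_
      rw [BasC_smul, BasC_smul, ← e₁, ← e₂, smul_smul, smul_smul]
      push_cast
      rw [mul_comm]
    have e0 : (n₂ : ℤ) • w₁ = 0 := h _ (W₁.smul_mem _ hw₁) (by rw [e]; exact W₂.smul_mem _ hw₂)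
    have e3 : w₁ = 0 := by
      rcases smul_eq_zero.1 e0 with h0 | h0
      · exfalso
        have : (n₂ : ℤ) ≠ 0 := by exact_mod_cast (Nat.pos_iff_ne_zero.1 h₂)
        exact this h0
      · exact h0
    rw [e3, BasC_zero] at e₁
    rcases smul_eq_zero.1 e₁ with h0 | h0
    · exfalso
      have : (n₁ : ℚ) ≠ 0 := by exact_mod_cast (Nat.pos_iff_ne_zero.1 h₁)
      exact this h0
    · exact h0
  have h1 := Submodule.finrank_sup_add_finrank_inf_eq
    (Submodule.span ℚ (toQ '' (W₁ : Set (Fin d → ℤ))))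
    (Submodule.span ℚ (toQ '' (W₂ : Set (Fin d → ℤ))))
  rw [hbot, finrank_bot, add_zero] at h1
  have h2 : Module.finrank ℚ ↥(Submodule.span ℚ (toQ '' (W₁ : Set (Fin d → ℤ))) ⊔
      Submodule.span ℚ (toQ '' (W₂ : Set (Fin d → ℤ)))) ≤ d :=
    (Submodule.finrank_le _).trans (le_of_eq (Module.finrank_fin_fun ℚ))
  unfold rk
  omega

theorem rk_ker (a : Fin d → ℝ) :
    rk {y : Fin d → ℤ | ∑ j, (y j : ℝ) * a j = 0} +
      Module.finrank ℚ (Submodule.span ℚ (Set.range a)) = d := by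
  have happ : ∀ q : Fin d → ℚ, Fintype.linearCombination ℚ a q = ∑ j, (q j : ℝ) * a j := by
    intro q
    rw [Fintype.linearCombination_apply]
    refine Finset.sum_congr rfl (fun j _ => ?_)
    rw [Rat.smul_def]
  have hker : LinearMap.ker (Fintype.linearCombination ℚ a) =
      Submodule.span ℚ (toQ '' {y : Fin d → ℤ | ∑ j, (y j : ℝ) * a j = 0}) := by
    apply le_antisymm
    · intro q hq
      rw [LinearMap.mem_ker] at hq
      have hspan : q ∈ Submodule.span ℚ (toQ '' ((⊤ : Submodule ℤ (Fin d → ℤ)) : Set (Fin d → ℤ))) := by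
        have e : q = ∑ j, q j • toQ (Pi.single j 1 : Fin d → ℤ) := by
          funext i
          simp only [BasC_single, Finset.sum_apply, Pi.smul_apply, smul_eq_mul]
          rw [Finset.sum_eq_single i]
          · simp
          · intro j _ hj
            rw [Pi.single_eq_of_ne (Ne.symm hj), mul_zero]
          · intro hi
            exact absurd (Finset.mem_univ i) hi
        rw [e]
        exact Submodule.sum_mem _ (fun j _ => Submodule.smul_mem _ _
          (Submodule.subset_span ⟨_, Submodule.mem_top, rfl⟩))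
      obtain ⟨n, w, hn, -, e⟩ := clear_den ⊤ hspan
      have hn0 : (n : ℚ) ≠ 0 := by exact_mod_cast (Nat.pos_iff_ne_zero.1 hn)
      have hw : ∑ j, (w j : ℝ) * a j = 0 := by
        have h1 := happ (toQ w)
        rw [← e, map_smul, hq, smul_zero] at h1
        rw [e] at h1
        rw [h1]
        refine Finset.sum_congr rfl (fun j _ => ?_)
        simp [toQ]
      have e2 : q = ((n : ℚ)⁻¹) • toQ w := by
        rw [← e, smul_smul, inv_mul_cancel₀ hn0, one_smul]
      rw [e2]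
      exact Submodule.smul_mem _ _ (Submodule.subset_span ⟨w, hw, rfl⟩)
    · refine Submodule.span_le.2 ?_
      rintro _ ⟨y, hy, rfl⟩
      rw [SetLike.mem_coe, LinearMap.mem_ker, happ]
      rw [← hy]
      refine Finset.sum_congr rfl (fun j _ => ?_)
      simp [toQ]
  have h1 := LinearMap.finrank_range_add_finrank_ker (Fintype.linearCombination ℚ a)
  rw [Fintype.range_linearCombination, hker, Module.finrank_fin_fun] at h1
  unfold rk
  omega

theorem rk_Mo (v : Fin d → ℂ) (x : Fin d → ℤ) :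
    rk (Mo v x : Set (Fin d → ℤ)) +
      Module.finrank ℚ (Submodule.span ℚ (Set.range fun j => om v x (Pi.single j 1))) = d := by
  have e : (Mo v x : Set (Fin d → ℤ)) =
      {y : Fin d → ℤ | ∑ j, (y j : ℝ) * om v x (Pi.single j 1) = 0} := by
    ext y
    rw [SetLike.mem_coe, mem_Mo, om_eq_sum, Set.mem_setOf_eq]
  rw [e]
  exact rk_ker _

theorem rk_top {x : Fin d → ℤ} {v : Fin d → ℂ} (h : rk (Mo v x : Set (Fin d → ℤ)) = d) (y : Fin d → ℤ) :
    y ∈ Mo v x := by
  have h1 := rk_Mo v x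
  rw [h] at h1
  have h2 : Module.finrank ℚ (Submodule.span ℚ (Set.range fun j => om v x (Pi.single j 1))) = 0 := by
    omega
  have hfin : Module.Finite ℚ (Submodule.span ℚ (Set.range fun j => om v x (Pi.single j 1))) :=
    Module.Finite.span_of_finite ℚ (Set.finite_range _)
  have h3 := Submodule.finrank_eq_zero.1 h2
  have h4 : ∀ j, om v x (Pi.single j 1) = 0 := by
    intro j
    have : om v x (Pi.single j 1) ∈
        Submodule.span ℚ (Set.range fun j => om v x (Pi.single j 1)) :=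
      Submodule.subset_span ⟨j, rfl⟩
    rw [h3] at this
    exact (Submodule.mem_bot ℚ).1 this
  rw [mem_Mo, om_eq_sum]
  exact Finset.sum_eq_zero (fun j _ => by rw [h4 j, mul_zero])

end Pool.Agent.RL
end

section

/-!
# TASK RL Al: large ranks occur everywhere or rarely

PROOF.  For `x ∈ ℤ^d` let `a^x j = om v x (e j)` (`e j = Pi.single j 1`); `rk (Mo v x) = d - dim_ℚ span (range a^x)`
(`rk_Mo`).  Let `r = dim_ℚ span (range a^{x₀})`, so `2 r > d`, `r ≤ d`.  Choose `j : Fin r → Fin d` such that the numbers `a^{x₀} (j l)` are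
linearly independent over `ℚ` (`exists_linearIndependent` / a basis of the span inside the range), and `ℚ`-linear functions `ψ k : ℝ → ℚ`
with `ψ k (a^{x₀} (j l)) = δ_{kl}` (extend the coordinate functions from the span, `LinearMap.exists_extend`; a subspace of a
vector space has a complement).  Let `Q(x) = det (ψ k (a^x (j l)))_{k,l}`.  Since
`a^x (j l) = ∑ i, x i * om v (e i) (e (j l))` (`om_eq_sum_left`), `ψ k (a^x (j l)) = ∑ i, x i * ψ k (om v (e i) (e (j l)))` is linear in `x` with rational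
coefficients, so `Q` is a polynomial of total degree at most `r ≤ d`, and `Q(x₀) = 1`.  If `Q(x) ≠ 0` then the numbers
`a^x (j l)`, `l < r`, are linearly independent over `ℚ` (a relation `∑ c l * a^x (j l) = 0` gives
`∑ l, c l * ψ k (a^x (j l)) = 0` for all `k`), so `rk (Mo v x) ≤ d - r` and `2 rk (Mo v x) ≤ 2 d - 2 r < d`.  Hence
all `x` with `d ≤ 2 rk (Mo v x)` satisfy `Q(x) = 0`, and there are at most `r (2M+1)^(d-1)` zeros of `Q` in the cube
(`MvPolynomial.schwartz_zippel_totalDegree` with the set `S` of the rational numbers `-M, ..., M`; here `d ≥ 1`).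
-/

set_option autoImplicit false

open Finset

namespace Pool.Agent.RL

private theorem Al_det_degree {d r : ℕ} (A : Matrix (Fin r) (Fin r) (MvPolynomial (Fin d) ℚ))
    (h : ∀ k l, (A k l).totalDegree ≤ 1) : A.det.totalDegree ≤ r := by
  rw [Matrix.det_apply]
  apply MvPolynomial.totalDegree_finsetSum_le
  intro σ _
  have h1 : (∏ i, A (σ i) i).totalDegree ≤ r := by
    refine (MvPolynomial.totalDegree_finsetProd _ _).trans ?_
    calc ∑ i, (A (σ i) i).totalDegree ≤ ∑ _i : Fin r, 1 := Finset.sum_le_sum (fun i _ => h _ _)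
      _ = r := by simp
  rcases Int.units_eq_one_or (Equiv.Perm.sign σ) with hs | hs
  · rw [hs, one_smul]; exact h1
  · rw [hs, Units.neg_smul, one_smul, MvPolynomial.totalDegree_neg]; exact h1

private theorem Al_dual {r : ℕ} {b : Fin r → ℝ} (hb : LinearIndependent ℚ b) :
    ∃ ψ : Fin r → (ℝ →ₗ[ℚ] ℚ), ∀ k l, ψ k (b l) = if k = l then 1 else 0 := by
  classical
  obtain ⟨g, hg⟩ := LinearMap.exists_extend (hb.repr : Submodule.span ℚ (Set.range b) →ₗ[ℚ] (Fin r →₀ ℚ))
  refine ⟨fun k => (Finsupp.lapply k).comp g, fun k l => ?_⟩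
  have h1 : g (b l) = Finsupp.single l 1 := by
    have h2 := congrArg (fun f => f ⟨b l, Submodule.subset_span ⟨l, rfl⟩⟩) hg
    have h3 : g (b l) = hb.repr ⟨b l, Submodule.subset_span ⟨l, rfl⟩⟩ := h2
    rw [h3]
    exact hb.repr_eq_single l _ rfl
  show (g (b l)) k = _
  rw [h1, Finsupp.single_apply]
  by_cases hkl : l = k
  · simp [hkl]
  · have : ¬ k = l := fun h => hkl h.symm
    simp [hkl, this]

theorem Al {d : ℕ} {v : Fin d → ℂ} {x₀ : Fin d → ℤ} (h : 2 * rk (Mo v x₀ : Set (Fin d → ℤ)) < d) (M : ℕ) :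
    cnt {x : Fin d → ℤ | d ≤ 2 * rk (Mo v x : Set (Fin d → ℤ))} M ≤ d * (2 * M + 1) ^ (d - 1) := by
  classical
  have hrk0 := rk_Mo v x₀
  set a : (Fin d → ℤ) → Fin d → ℝ := fun x j => om v x (Pi.single j 1) with ha
  set r : ℕ := Module.finrank ℚ (Submodule.span ℚ (Set.range (a x₀))) with hr
  have hrk0' : rk (Mo v x₀ : Set (Fin d → ℤ)) + r = d := hrk0
  have hd : 0 < d := by omega
  have hrd : r ≤ d := by omega
  haveI : FiniteDimensional ℚ (Submodule.span ℚ (Set.range (a x₀))) :=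
    FiniteDimensional.span_of_finite ℚ (Set.finite_range _)
  obtain ⟨f, hf1, -, hf3⟩ := Submodule.exists_fun_fin_finrank_span_eq ℚ (Set.range (a x₀))
  choose j hj using hf1
  change Fin r → Fin d at j
  have hb : LinearIndependent ℚ (fun l => a x₀ (j l)) := by
    have : (fun l => a x₀ (j l)) = f := funext hj
    rw [this]; exact hf3
  obtain ⟨ψ, hψ⟩ := Al_dual hb
  set B : Matrix (Fin r) (Fin r) (MvPolynomial (Fin d) ℚ) := Matrix.of fun k l =>
    ∑ i, MvPolynomial.C (ψ k (om v (Pi.single i 1) (Pi.single (j l) 1))) * MvPolynomial.X i with hB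
  set Q : MvPolynomial (Fin d) ℚ := B.det with hQ
  have hdeg : Q.totalDegree ≤ r := by
    apply Al_det_degree
    intro k l
    rw [hB]
    simp only [Matrix.of_apply]
    apply MvPolynomial.totalDegree_finsetSum_le
    intro i _
    refine (MvPolynomial.totalDegree_mul _ _).trans ?_
    rw [MvPolynomial.totalDegree_C, MvPolynomial.totalDegree_X]
  have hψlin : ∀ (k : Fin r) (x : Fin d → ℤ) (y : Fin d → ℤ), ψ k (om v x y) =
      ∑ i, ψ k (om v (Pi.single i 1) y) * (x i : ℚ) := by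
    intro k x y
    rw [om_eq_sum_left v x y, map_sum]
    refine Finset.sum_congr rfl (fun i _ => ?_)
    have h1 : ((x i : ℤ) : ℝ) * om v (Pi.single i 1) y = ((x i : ℤ) : ℚ) • om v (Pi.single i 1) y := by
      rw [Rat.smul_def]
      push_cast
      rfl
    rw [h1, map_smul, smul_eq_mul, mul_comm]
  have heval : ∀ x : Fin d → ℤ, MvPolynomial.eval (fun i => (x i : ℚ)) Q =
      (Matrix.of fun k l => ψ k (a x (j l)) : Matrix (Fin r) (Fin r) ℚ).det := by
    intro x
    rw [hQ, RingHom.map_det]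
    congr 1
    ext k l
    simp only [RingHom.mapMatrix_apply, Matrix.map_apply, hB, Matrix.of_apply, map_sum, map_mul,
      MvPolynomial.eval_C, MvPolynomial.eval_X]
    rw [ha, hψlin]
  have hQ0 : Q ≠ 0 := by
    intro h0
    have h1 := heval x₀
    rw [h0, map_zero] at h1
    have h2 : (Matrix.of fun k l => ψ k (a x₀ (j l)) : Matrix (Fin r) (Fin r) ℚ) = 1 := by
      ext k l
      rw [Matrix.of_apply, hψ, Matrix.one_apply]
    rw [h2, Matrix.det_one] at h1
    exact zero_ne_one h1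
  have hzero : ∀ x : Fin d → ℤ, d ≤ 2 * rk (Mo v x : Set (Fin d → ℤ)) →
      MvPolynomial.eval (fun i => (x i : ℚ)) Q = 0 := by
    intro x hx
    by_contra hne
    rw [heval] at hne
    have hli : LinearIndependent ℚ (fun l => a x (j l)) := by
      rw [Fintype.linearIndependent_iff]
      intro c hc
      have h1 : (Matrix.of fun k l => ψ k (a x (j l)) : Matrix (Fin r) (Fin r) ℚ).mulVec c = 0 := by
        ext k
        have h2 := congrArg (ψ k) hc
        rw [map_sum, map_zero] at h2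
        rw [Pi.zero_apply, ← h2]
        simp only [Matrix.mulVec, dotProduct, Matrix.of_apply, map_smul, smul_eq_mul]
        exact Finset.sum_congr rfl (fun l _ => mul_comm _ _)
      exact fun l => congrFun (Matrix.eq_zero_of_mulVec_eq_zero hne h1) l
    have h3 : r ≤ Module.finrank ℚ (Submodule.span ℚ (Set.range (a x))) := by
      have h4 := finrank_span_eq_card hli
      rw [Fintype.card_fin] at h4
      rw [← h4]
      haveI : FiniteDimensional ℚ (Submodule.span ℚ (Set.range (a x))) :=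
        FiniteDimensional.span_of_finite ℚ (Set.finite_range _)
      apply Submodule.finrank_mono
      apply Submodule.span_mono
      rintro _ ⟨l, rfl⟩
      exact ⟨j l, rfl⟩
    have h5 : rk (Mo v x : Set (Fin d → ℤ)) +
        Module.finrank ℚ (Submodule.span ℚ (Set.range (a x))) = d := rk_Mo v x
    omega
  -- counting
  set S : Finset ℚ := (Finset.Icc (-(M : ℤ)) M).image (fun n : ℤ => (n : ℚ)) with hS
  have hScard : S.card = 2 * M + 1 := by
    rw [hS, Finset.card_image_of_injective _ Int.cast_injective, Int.card_Icc]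
    omega
  have hSZ := MvPolynomial.schwartz_zippel_totalDegree hQ0 S
  set Z := (Fintype.piFinset fun _ : Fin d => S).filter (fun f => MvPolynomial.eval f Q = 0) with hZ
  have hcnt : cnt {x : Fin d → ℤ | d ≤ 2 * rk (Mo v x : Set (Fin d → ℤ))} M ≤ Z.card := by
    rw [cnt_eq]
    apply Finset.card_le_card_of_injOn (fun x i => (x i : ℚ))
    · intro x hx
      rw [Finset.mem_coe, Finset.mem_filter] at hx
      rw [Finset.mem_coe, hZ, Finset.mem_filter, Fintype.mem_piFinset]
      refine ⟨fun i => ?_, hzero x hx.2⟩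
      have h1 := mem_Bx'.mp hx.1 i
      rw [hS, Finset.mem_image]
      exact ⟨x i, Finset.mem_Icc.mpr (abs_le.mp h1), rfl⟩
    · intro x _ y _ hxy
      funext i
      have h9 : ((x i : ℤ) : ℚ) = ((y i : ℤ) : ℚ) := congrFun hxy i
      exact_mod_cast h9
  have hs0 : (0 : NNRat) < ((S.card : ℕ) : NNRat) := by
    have : 0 < S.card := by omega
    exact_mod_cast this
  have h6 : (Z.card : NNRat) ≤ Q.totalDegree * (S.card : NNRat) ^ (d - 1) := by
    clear_value Z
    generalize (Z.card : NNRat) = zc at *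
    generalize (S.card : NNRat) = sc at *
    generalize (Q.totalDegree : NNRat) = qc at *
    have h7 : sc ^ d = sc ^ (d - 1) * sc := by
      rw [← pow_succ]; congr 1; omega
    have h7' : zc ≤ qc / sc * sc ^ d := by
      rw [div_le_iff₀ (pow_pos hs0 d)] at hSZ
      exact hSZ
    rw [h7] at h7'
    calc zc ≤ qc / sc * (sc ^ (d - 1) * sc) := h7'
      _ = qc * sc ^ (d - 1) * (sc / sc) := by ring
      _ = qc * sc ^ (d - 1) := by rw [div_self hs0.ne', mul_one]
  have h8 : Z.card ≤ Q.totalDegree * S.card ^ (d - 1) := by exact_mod_cast h6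
  calc cnt {x : Fin d → ℤ | d ≤ 2 * rk (Mo v x : Set (Fin d → ℤ))} M ≤ Z.card := hcnt
    _ ≤ Q.totalDegree * S.card ^ (d - 1) := h8
    _ ≤ d * (2 * M + 1) ^ (d - 1) := by
        rw [hScard]
        exact Nat.mul_le_mul_right _ (hdeg.trans hrd)

end Pool.Agent.RL
end

section

/-!
# TASK RL Mt: integer matrices for the form `om`

PROOF.  Let `e j = Pi.single j 1` and `U ⊆ ℝ` the `ℚ`-span of the numbers `om v w (e j)`.  By `rk_Mo`, `dim_ℚ U = 2m - m = m`.
Choose a basis of `U` (`Module.finBasisOfFinrankEq`) and extend its coordinate functions to `ℚ`-linear functions `ψ k : ℝ → ℚ`,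
`k < m` (`LinearMap.exists_extend`).  So if `t ∈ U` and `ψ k t = 0` for all `k` then `t = 0`.  Let `q ≥ 1` be a common denominator of the rational numbers
`ψ k (om v (e i) (e j))`: `q ψ k (om v (e i) (e j)) = c k i j ∈ ℤ`.  Let `𝒜 x = (∑ i, x i * c k i j)_{k, j}`, additive in `x`.  For all `x`, `y` (by `om_eq_sum`, `om_eq_sum_left` and
linearity): `((𝒜 x *ᵥ y) k : ℚ) = ∑ i, ∑ j, x i * y j * c k i j = q * ψ k (om v x y)`.  So `om v x y = 0` implies `𝒜 x *ᵥ y = 0`, and
`𝒜 w *ᵥ y = 0` implies `ψ k (om v w y) = 0` for all `k`, and `om v w y ∈ U`, so it is `0`.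
-/

set_option autoImplicit false

open Finset

namespace Pool.Agent.RL

private theorem Mt_intmul (ψ : ℝ →ₗ[ℚ] ℚ) (n : ℤ) (t : ℝ) : ψ ((n : ℝ) * t) = (n : ℚ) * ψ t := by
  rw [← zsmul_eq_mul, map_zsmul, zsmul_eq_mul]

private theorem Mt_den {ι : Type*} [Fintype ι] (r : ι → ℚ) :
    ∃ (q : ℚ) (c : ι → ℤ), q ≠ 0 ∧ ∀ i, (c i : ℚ) = q * r i := by
  classical
  refine ⟨((∏ i, (r i).den : ℕ) : ℚ), fun i => (r i).num * ((∏ j, (r j).den) / (r i).den : ℕ), ?_, ?_⟩
  · have h1 : (∏ i, (r i).den) ≠ 0 := Finset.prod_ne_zero_iff.2 fun i _ => (r i).den_nz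
    exact_mod_cast h1
  · intro i
    have h2 : (r i).den ∣ ∏ j, (r j).den := Finset.dvd_prod_of_mem _ (Finset.mem_univ i)
    obtain ⟨t, ht⟩ := h2
    have h3 : 0 < (r i).den := (r i).den_pos
    have h4 : (∏ j, (r j).den) / (r i).den = t := by
      rw [ht, Nat.mul_div_cancel_left _ h3]
    show (((r i).num * (((∏ j, (r j).den) / (r i).den : ℕ) : ℤ) : ℤ) : ℚ) = ((∏ j, (r j).den : ℕ) : ℚ) * r i
    rw [h4, ht]
    have h5 : ((r i).num : ℚ) = r i * (r i).den := (Rat.mul_den_eq_num (r i)).symm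
    push_cast
    rw [h5]
    ring

theorem Mt {m : ℕ} (v : Fin (m + m) → ℂ) (w : Fin (m + m) → ℤ)
    (hw : rk (Mo v w : Set (Fin (m + m) → ℤ)) = m) :
    ∃ 𝒜 : (Fin (m + m) → ℤ) → Matrix (Fin m) (Fin (m + m)) ℤ,
      (∀ x y, 𝒜 (x + y) = 𝒜 x + 𝒜 y) ∧ (∀ (n : ℤ) x, 𝒜 (n • x) = n • 𝒜 x) ∧
      (∀ x y, om v x y = 0 → (𝒜 x).mulVec y = 0) ∧
      ∀ y, (𝒜 w).mulVec y = 0 → om v w y = 0 := by
  classical
  set U : Submodule ℚ ℝ := Submodule.span ℚ (Set.range fun j => om v w (Pi.single j 1)) with hU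
  have hfin : Module.finrank ℚ U = m := by
    have h1 := rk_Mo v w
    rw [hw, ← hU] at h1
    omega
  have : Module.Finite ℚ U := FiniteDimensional.span_of_finite ℚ (Set.finite_range _)
  have hb : ∀ k : Fin m, ∃ g : ℝ →ₗ[ℚ] ℚ, g.comp U.subtype = (Module.finBasisOfFinrankEq ℚ U hfin).coord k :=
    fun k => LinearMap.exists_extend _
  choose ψ hψ using hb
  have hzero : ∀ t ∈ U, (∀ k, ψ k t = 0) → t = 0 := by
    intro t ht h
    have h2 : (⟨t, ht⟩ : U) = 0 := by
      refine (Module.finBasisOfFinrankEq ℚ U hfin).ext_elem fun k => ?_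
      have h3 := LinearMap.congr_fun (hψ k) ⟨t, ht⟩
      rw [LinearMap.comp_apply, Submodule.subtype_apply, h k, Module.Basis.coord_apply] at h3
      rw [← h3, map_zero]
      rfl
    exact congrArg Subtype.val h2
  obtain ⟨q, c, hq, hc⟩ := Mt_den (fun p : Fin m × Fin (m + m) × Fin (m + m) =>
    ψ p.1 (om v (Pi.single p.2.1 1) (Pi.single p.2.2 1)))
  have hkey : ∀ (x y : Fin (m + m) → ℤ) (k : Fin m),
      (((∑ j, (∑ i, x i * c (k, i, j)) * y j : ℤ)) : ℚ) = q * ψ k (om v x y) := by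
    intro x y k
    rw [om_eq_sum v x y, map_sum, Finset.mul_sum]
    push_cast
    refine Finset.sum_congr rfl fun j _ => ?_
    rw [Mt_intmul, om_eq_sum_left v x (Pi.single j 1), map_sum, Finset.mul_sum, Finset.mul_sum,
      Finset.sum_mul]
    refine Finset.sum_congr rfl fun i _ => ?_
    rw [Mt_intmul, hc (k, i, j)]
    ring
  refine ⟨fun x => Matrix.of fun k j => ∑ i, x i * c (k, i, j), ?_, ?_, ?_, ?_⟩
  · intro x y
    ext k j
    simp only [Matrix.of_apply, Matrix.add_apply, Pi.add_apply, add_mul, Finset.sum_add_distrib]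
  · intro n x
    ext k j
    simp only [Matrix.of_apply, Matrix.smul_apply, Pi.smul_apply, smul_eq_mul, mul_assoc,
      Finset.mul_sum]
  · intro x y h
    funext k
    have h1 := hkey x y k
    rw [h, map_zero, mul_zero] at h1
    have h2 : (∑ j, (∑ i, x i * c (k, i, j)) * y j) = 0 := by exact_mod_cast h1
    simpa only [Matrix.mulVec, dotProduct, Matrix.of_apply, Pi.zero_apply] using h2
  · intro y h
    have hmem : om v w y ∈ U := by
      rw [om_eq_sum v w y]
      refine Submodule.sum_mem _ fun j _ => ?_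
      rw [← zsmul_eq_mul]
      have h5 : om v w (Pi.single j 1) ∈ U := Submodule.subset_span ⟨j, rfl⟩
      exact zsmul_mem h5 _
    refine hzero _ hmem fun k => ?_
    have h1 := hkey w y k
    have h2 := congrFun h k
    simp only [Matrix.mulVec, dotProduct, Matrix.of_apply, Pi.zero_apply] at h2
    rw [h2, Int.cast_zero] at h1
    rcases mul_eq_zero.1 h1.symm with h3 | h3
    · exact absurd h3 hq
    · exact h3

end Pool.Agent.RL
end

section

/-!
# TASK RL R10: leading coefficients of polynomials which are small at many integers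

PROOF.  Induction on `m`.  `m = 0`: `f` is constant, `G` is nonempty, so `|coeff 0| ≤ F`.
`m + 1`: let `T₀ = min G` and `G' = {T ∈ G | T₀ + s ≤ T}`; at most `s` elements of `G` are smaller than `T₀ + s`, so `|G'| ≥ m s + 1`.  Write
`f = C (f T₀) + (X - C T₀) * g`, `natDegree g ≤ m`, `coeff (m+1) f = coeff m g`.  For `T ∈ G'`:
`|g T| = |f T - f T₀| / (T - T₀) ≤ 2 F / s`.  By induction (for the real bound `2F/s`) `|coeff m g| s^m ≤ 2^m (2F/s)`, so
`|coeff (m+1) f| s^(m+1) ≤ 2^(m+1) F`.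
-/

set_option autoImplicit false

open Finset Polynomial

namespace Pool.Agent.RL

theorem R10 : ∀ (m : ℕ) (f : ℤ[X]), f.natDegree ≤ m → ∀ (G : Finset ℤ) (F : ℝ) (s : ℕ), 1 ≤ s →
    m * s + 1 ≤ G.card → (∀ T ∈ G, |((f.eval T : ℤ) : ℝ)| ≤ F) →
    |((f.coeff m : ℤ) : ℝ)| * (s : ℝ) ^ m ≤ 2 ^ m * F := by
  intro m
  induction m with
  | zero =>
    intro f hf G F s hs hG hF
    have hne : G.Nonempty := Finset.card_pos.1 (by omega)
    obtain ⟨T, hT⟩ := hne
    have h1 := hF T hT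
    have h2 : f = C (f.coeff 0) := Polynomial.eq_C_of_natDegree_le_zero hf
    have h3 : f.eval T = f.coeff 0 := by
      conv_lhs => rw [h2]
      rw [Polynomial.eval_C]
    rw [h3] at h1
    simpa using h1
  | succ m ih =>
    intro f hf G F s hs hG hF
    have hne : G.Nonempty := Finset.card_pos.1 (by omega)
    set T0 := G.min' hne with hT0
    have hT0mem : T0 ∈ G := G.min'_mem hne
    set G' := G.filter (fun T => T0 + (s : ℤ) ≤ T) with hG'
    have hcard : m * s + 1 ≤ G'.card := by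
      have h1 : (G.filter (fun T => ¬ T0 + (s : ℤ) ≤ T)).card ≤ s := by
        have hsub : G.filter (fun T => ¬ T0 + (s : ℤ) ≤ T) ⊆ Finset.Ico T0 (T0 + (s : ℤ)) := by
          intro T hT
          rw [Finset.mem_filter] at hT
          rw [Finset.mem_Ico]
          exact ⟨G.min'_le T hT.1, not_le.1 hT.2⟩
        have h := Finset.card_le_card hsub
        rw [Int.card_Ico] at h
        have e : (T0 + (s : ℤ) - T0).toNat = s := by
          rw [add_sub_cancel_left]; exact Int.toNat_natCast s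
        rwa [e] at h
      have h2 := Finset.card_filter_add_card_filter_not (s := G) (fun T => T0 + (s : ℤ) ≤ T)
      have h3 : (m + 1) * s = m * s + s := by ring
      rw [h3] at hG
      have h4 : G'.card = (G.filter (fun T => T0 + (s : ℤ) ≤ T)).card := rfl
      omega
    have hdvd : (X - C T0) ∣ (f - C (f.eval T0)) := by
      rw [Polynomial.dvd_iff_isRoot]
      simp [Polynomial.IsRoot.def]
    obtain ⟨g, hg⟩ := hdvd
    have hgdeg : g.natDegree ≤ m := by
      by_cases hg0 : g = 0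
      · rw [hg0]; simp
      · have h1 : ((X - C T0) * g).natDegree = 1 + g.natDegree := by
          rw [Polynomial.natDegree_mul (Polynomial.X_sub_C_ne_zero T0) hg0,
            Polynomial.natDegree_X_sub_C]
        have h2 : (f - C (f.eval T0)).natDegree ≤ m + 1 := by
          rw [Polynomial.natDegree_sub_C]
          exact hf
        rw [hg, h1] at h2
        omega
    have hco : f.coeff (m + 1) = g.coeff m := by
      have h1 : (f - C (f.eval T0)).coeff (m + 1) = f.coeff (m + 1) := by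
        rw [Polynomial.coeff_sub, Polynomial.coeff_C_succ, sub_zero]
      have h2 : g.coeff (m + 1) = 0 := Polynomial.coeff_eq_zero_of_natDegree_lt (by omega)
      have h3 : ((X - C T0) * g).coeff (m + 1) = g.coeff m := by
        rw [sub_mul, Polynomial.coeff_sub, Polynomial.coeff_X_mul, Polynomial.coeff_C_mul, h2,
          mul_zero, sub_zero]
      rw [← h1, hg, h3]
    have hsR : (0 : ℝ) < s := by exact_mod_cast hs
    have hgev : ∀ T ∈ G', |((g.eval T : ℤ) : ℝ)| ≤ 2 * F / s := by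
      intro T hT
      rw [hG', Finset.mem_filter] at hT
      have h1 : f.eval T - f.eval T0 = (T - T0) * g.eval T := by
        have := congrArg (Polynomial.eval T) hg
        simpa using this
      have h2 : ((f.eval T : ℤ) : ℝ) - ((f.eval T0 : ℤ) : ℝ) = ((T : ℝ) - (T0 : ℝ)) * ((g.eval T : ℤ) : ℝ) := by
        exact_mod_cast h1
      have h3 := hF T hT.1
      have h4 := hF T0 hT0mem
      have h5 : |((T : ℝ) - (T0 : ℝ)) * ((g.eval T : ℤ) : ℝ)| ≤ 2 * F := by
        rw [← h2]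
        calc |((f.eval T : ℤ) : ℝ) - ((f.eval T0 : ℤ) : ℝ)|
            ≤ |((f.eval T : ℤ) : ℝ)| + |((f.eval T0 : ℤ) : ℝ)| := abs_sub _ _
          _ ≤ 2 * F := by linarith
      have h6 : (s : ℝ) ≤ (T : ℝ) - (T0 : ℝ) := by
        have h7 : ((T0 + (s : ℤ) : ℤ) : ℝ) ≤ ((T : ℤ) : ℝ) := by exact_mod_cast hT.2
        push_cast at h7
        linarith
      rw [abs_mul, abs_of_pos (lt_of_lt_of_le hsR h6)] at h5
      rw [le_div_iff₀ hsR]
      calc |((g.eval T : ℤ) : ℝ)| * s ≤ |((g.eval T : ℤ) : ℝ)| * ((T : ℝ) - (T0 : ℝ)) :=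
            mul_le_mul_of_nonneg_left h6 (abs_nonneg _)
        _ ≤ 2 * F := by linarith
    have hfin := ih g hgdeg G' (2 * F / s) s hs hcard hgev
    rw [hco]
    have h8 : |((g.coeff m : ℤ) : ℝ)| * (s : ℝ) ^ (m + 1) =
        (|((g.coeff m : ℤ) : ℝ)| * (s : ℝ) ^ m) * s := by ring
    have h9 : (2 : ℝ) ^ (m + 1) * F = (2 ^ m * (2 * F / s)) * s := by
      field_simp
      ring
    rw [h8, h9]
    exact mul_le_mul_of_nonneg_right hfin hsR.le

end Pool.Agent.RL
end

section

/-!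
# TASK RL R3: a common multiple of the greatest common divisors

PROOF.  Let `ρ₀, c₀` and `ρ₁, c₁` be the data `comb` for `T₀` and `T₁`, `J = (card ι) J1 J2`.  Evaluating at `T`:
`∑ f, c₀ f * (P f)(T) = ρ₀ (T - T₀)^m`, so `h := hh P T` (which divides all `(P f)(T)`) divides `ρ₀ (T - T₀)^m`, and `ρ₁ (T - T₁)^m`.  So it
divides `ρ₀ ρ₁ gcd((T - T₀)^m, (T - T₁)^m) = ρ₀ ρ₁ gcd(T - T₀, T - T₁)^m`, which divides `R = |ρ₀ ρ₁ (T₀ - T₁)^m| ≠ 0`
(`Int.gcd`, `Nat.Coprime.pow`/`Nat.pow_gcd_pow`; or compare `p`-adic valuations).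
For `T ∈ G`, `T ≠ T₀`: `|ρ₀| ≤ |ρ₀| |T - T₀|^m = |∑ f, c₀ f * (P f)(T)| ≤ card ι * J2 * (h * J1) = h J` (`1 ≤ |T - T₀|`, integers; `0 ≤ J2` because `|c f| ≤ J2`
and `ι` is nonempty: `ρ₀ ≠ 0`).  The same for `ρ₁` if `T ≠ T₁`.  So `R ≤ |T₀ - T₁|^m (h J)²`.
-/

set_option autoImplicit false

open Finset Polynomial

namespace Pool.Agent.RL

private theorem R3_gcd (m : ℕ) (a b h r : ℤ) (hab : a ≠ b) (h1 : h ∣ r * a ^ m) (h2 : h ∣ r * b ^ m) :
    h ∣ r * (a - b) ^ m := by
  have hg : 0 < Int.gcd a b := by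
    rw [Int.gcd_pos_iff]
    by_contra hc
    push Not at hc
    exact hab (hc.1.trans hc.2.symm)
  obtain ⟨a', b', hc, ha, hb⟩ := Int.exists_gcd_one hg
  have hcop : IsCoprime a' b' := Int.isCoprime_iff_gcd_eq_one.2 hc
  obtain ⟨u, v, huv⟩ := hcop.pow (m := m) (n := m)
  have h3 : u * a ^ m + v * b ^ m = (Int.gcd a b : ℤ) ^ m := by
    have e1 : a ^ m = a' ^ m * (Int.gcd a b : ℤ) ^ m := by
      rw [← mul_pow, ← ha]
    have e2 : b ^ m = b' ^ m * (Int.gcd a b : ℤ) ^ m := by
      rw [← mul_pow, ← hb]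
    rw [e1, e2]
    calc u * (a' ^ m * (Int.gcd a b : ℤ) ^ m) + v * (b' ^ m * (Int.gcd a b : ℤ) ^ m)
        = (u * a' ^ m + v * b' ^ m) * (Int.gcd a b : ℤ) ^ m := by ring
      _ = (Int.gcd a b : ℤ) ^ m := by rw [huv, one_mul]
  have h4 : h ∣ r * (Int.gcd a b : ℤ) ^ m := by
    rw [← h3]
    have : r * (u * a ^ m + v * b ^ m) = u * (r * a ^ m) + v * (r * b ^ m) := by ring
    rw [this]
    exact dvd_add (Dvd.dvd.mul_left h1 u) (Dvd.dvd.mul_left h2 v)
  refine h4.trans (mul_dvd_mul_left r (pow_dvd_pow_of_dvd ?_ m))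
  exact dvd_sub (Int.gcd_dvd_left a b) (Int.gcd_dvd_right a b)

private theorem R3_eval {ι : Type*} [Fintype ι] {m : ℕ} {P : ι → ℤ[X]} {T₀ ρ : ℤ} {c : ι → ℤ}
    (h : ∑ f, C (c f) * P f = C ρ * (X - C T₀) ^ m) (T : ℤ) :
    ∑ f, c f * (P f).eval T = ρ * (T - T₀) ^ m := by
  have h1 := congrArg (Polynomial.eval T) h
  simpa [Polynomial.eval_finset_sum] using h1

private theorem R3_dvd {ι : Type*} [Fintype ι] {m : ℕ} {P : ι → ℤ[X]} {T₀ ρ : ℤ} {c : ι → ℤ}
    (h : ∑ f, C (c f) * P f = C ρ * (X - C T₀) ^ m) (T : ℤ) :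
    (hh P T : ℤ) ∣ ρ * (T - T₀) ^ m := by
  rw [← R3_eval h T]
  refine Finset.dvd_sum fun f _ => Dvd.dvd.mul_left ?_ _
  have h1 : hh P T ∣ ((P f).eval T).natAbs := Finset.gcd_dvd (Finset.mem_univ f)
  exact Int.natCast_dvd.2 h1

private theorem R3_le {ι : Type*} [Fintype ι] {m : ℕ} {P : ι → ℤ[X]} {G : Finset ℤ} {J1 J2 : ℝ}
    (D : Rdat m P G J1 J2) {T₀ ρ : ℤ} {c : ι → ℤ} (hρ : ρ ≠ 0) (hc : ∀ f, |(c f : ℝ)| ≤ J2)
    (h : ∑ f, C (c f) * P f = C ρ * (X - C T₀) ^ m) {T : ℤ} (hT : T ∈ G) (hne : T ≠ T₀) :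
    |(ρ : ℝ)| ≤ hh P T * (Fintype.card ι * J1 * J2) := by
  have h1 : (1 : ℝ) ≤ |((T - T₀ : ℤ) : ℝ)| := by
    have : (1 : ℤ) ≤ |T - T₀| := Int.one_le_abs (sub_ne_zero.2 hne)
    exact_mod_cast this
  have h2 : |(ρ : ℝ)| ≤ |((ρ * (T - T₀) ^ m : ℤ) : ℝ)| := by
    rw [Int.cast_mul, Int.cast_pow, abs_mul, abs_pow]
    exact le_mul_of_one_le_right (abs_nonneg _) (one_le_pow₀ h1)
  refine h2.trans ?_
  rw [← R3_eval h T]
  push_cast
  refine (Finset.abs_sum_le_sum_abs _ _).trans ?_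
  have h3 : ∀ f ∈ (Finset.univ : Finset ι), |(c f : ℝ) * (((P f).eval T : ℤ) : ℝ)| ≤
      J2 * (hh P T * J1) := by
    intro f _
    rw [abs_mul]
    exact mul_le_mul (hc f) (D.val T hT f) (abs_nonneg _) ((abs_nonneg _).trans (hc f))
  refine (Finset.sum_le_card_nsmul _ _ _ h3).trans (le_of_eq ?_)
  rw [Finset.card_univ, nsmul_eq_mul]
  ring

theorem R3 {ι : Type*} [Fintype ι] {m : ℕ} {P : ι → ℤ[X]} {G : Finset ℤ} {J1 J2 : ℝ}
    (D : Rdat m P G J1 J2) {T₀ T₁ : ℤ} (h0 : T₀ ∈ G) (h1 : T₁ ∈ G) (h01 : T₀ ≠ T₁) :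
    ∃ R : ℕ, R ≠ 0 ∧ (∀ T, hh P T ∣ R) ∧ ∀ T ∈ G, T ≠ T₀ → T ≠ T₁ →
      (R : ℝ) ≤ |((T₀ - T₁ : ℤ) : ℝ)| ^ m * (hh P T * (Fintype.card ι * J1 * J2)) ^ 2 := by
  obtain ⟨ρ₀, c₀, hρ₀, hc₀, e₀⟩ := D.comb T₀ h0
  obtain ⟨ρ₁, c₁, hρ₁, hc₁, e₁⟩ := D.comb T₁ h1
  refine ⟨(ρ₀ * ρ₁ * (T₀ - T₁) ^ m).natAbs, ?_, ?_, ?_⟩
  · rw [Int.natAbs_ne_zero]
    exact mul_ne_zero (mul_ne_zero hρ₀ hρ₁) (pow_ne_zero _ (sub_ne_zero.2 h01))
  · intro T
    rw [← Int.natCast_dvd]
    have d0 : (hh P T : ℤ) ∣ ρ₀ * ρ₁ * (T - T₀) ^ m := by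
      have := Dvd.dvd.mul_left (R3_dvd e₀ T) ρ₁
      rwa [show ρ₁ * (ρ₀ * (T - T₀) ^ m) = ρ₀ * ρ₁ * (T - T₀) ^ m by ring] at this
    have d1 : (hh P T : ℤ) ∣ ρ₀ * ρ₁ * (T - T₁) ^ m := by
      have := Dvd.dvd.mul_left (R3_dvd e₁ T) ρ₀
      rwa [← mul_assoc] at this
    have h2 : (T - T₁) - (T - T₀) = T₀ - T₁ := by ring
    rw [← h2]
    refine R3_gcd m _ _ _ _ ?_ d1 d0
    intro h3
    exact h01 (by linarith)
  · intro T hT hT0 hT1
    have l0 := R3_le D hρ₀ hc₀ e₀ hT hT0
    have l1 := R3_le D hρ₁ hc₁ e₁ hT hT1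
    rw [Nat.cast_natAbs, Int.cast_abs, Int.cast_mul, Int.cast_mul, abs_mul, abs_mul, Int.cast_pow,
      abs_pow, mul_comm (|(ρ₀ : ℝ)| * |(ρ₁ : ℝ)|), sq]
    exact mul_le_mul_of_nonneg_left
      (mul_le_mul l0 l1 (abs_nonneg _) ((abs_nonneg _).trans l0)) (pow_nonneg (abs_nonneg _) m)

end Pool.Agent.RL
end

section

/-!
# TASK RL R6: roots of polynomials modulo prime powers

PROOF of `R6a`.  Induction on `m`.  Let `p ^ a ∣ f (T i)` for `i = 0, ..., m`, `p ^ b ∤ T i - T j` for `i ≠ j`, `(b - 1) m < a`, `1 ≤ b`, `natDegree f ≤ m`.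
`m = 0`: `f` is a constant, divisible by `p ^ a`, `a ≥ 1`.
`m + 1`: `f = C (f (T 0)) + (X - C (T 0)) * g` with `natDegree g ≤ m` (`Polynomial.X_sub_C_dvd...`, `divByMonic`; the quotient of `f - C (f (T 0))`).  For `i ≥ 1`: `(T i - T 0) g (T i) = f (T i) - f (T 0)` is divisible by
`p ^ a` and `p ^ b ∤ T i - T 0`, so `p ^ (a - (b - 1)) ∣ g (T i)` (`Int.Prime...`; write `T i - T 0 = p ^ e u`, `e ≤ b - 1`, `p ∤ u`; `emultiplicity`/`padicValInt`; here `b - 1 ≤ a`).  And
`(b - 1) m < a - (b - 1)`.  So by induction all coefficients of `g` are divisible by `p`; also `p ∣ p ^ a ∣ f (T 0)` (`a ≥ 1`), so all coefficients of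
`f` are divisible by `p`.

PROOF of `R6`.  By `Prim` some `f` has a coefficient of `P f` not divisible by `p`.  `p ^ a ∣ hh P T` implies `p ^ a ∣ (P f)(T)`.  The set
`E = {T ∈ Icc (-M) M | p ^ a ∣ hh P T}` meets at most `m` classes modulo `p ^ b` (otherwise choose `m + 1` representatives and use
`R6a`), and every class has at most `(2M+1) / p^b + 1` elements in `Icc (-M) M` (for instance by `T ↦ (T + M) / p ^ b` which is injective on a class, or
`Int.Ico_filter_modEq_card`).  `Finset.card_le_mul_card_image`.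
-/

set_option autoImplicit false

open Finset Polynomial

namespace Pool.Agent.RL

private theorem R6_dvd {p : ℕ} (hp : p.Prime) {a b : ℕ} (hb : 1 ≤ b) (hba : b - 1 ≤ a) {x y : ℤ}
    (h : (p : ℤ) ^ a ∣ x * y) (hx : ¬ (p : ℤ) ^ b ∣ x) : (p : ℤ) ^ (a - (b - 1)) ∣ y := by
  have hpz : Prime (p : ℤ) := Nat.prime_iff_prime_int.1 hp
  have hx0 : x ≠ 0 := by
    rintro rfl
    exact hx (dvd_zero _)
  have hfin : FiniteMultiplicity (p : ℤ) x := by
    rw [Int.finiteMultiplicity_iff]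
    refine ⟨?_, hx0⟩
    simpa using hp.one_lt.ne'
  obtain ⟨u, hu, hnu⟩ := hfin.exists_eq_pow_mul_and_not_dvd
  set e := multiplicity (p : ℤ) x with he
  have heb : e ≤ b - 1 := by
    by_contra hcon
    apply hx
    rw [hu]
    exact Dvd.dvd.mul_right (pow_dvd_pow _ (by omega)) _
  have hea : e ≤ a := heb.trans hba
  have h1 : (p : ℤ) ^ e * (p : ℤ) ^ (a - e) ∣ (p : ℤ) ^ e * (u * y) := by
    rw [← pow_add, Nat.add_sub_cancel' hea, ← mul_assoc, ← hu]
    exact h
  have h2 : (p : ℤ) ^ (a - e) ∣ u * y :=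
    (mul_dvd_mul_iff_left (pow_ne_zero _ hpz.ne_zero)).1 h1
  have h3 : (p : ℤ) ^ (a - e) ∣ y := hpz.pow_dvd_of_dvd_mul_left _ hnu h2
  exact (pow_dvd_pow _ (by omega)).trans h3

private theorem R6_aux {p : ℕ} (hp : p.Prime) {b : ℕ} (hb : 1 ≤ b) : ∀ (m a : ℕ) (f : ℤ[X]), f.natDegree ≤ m →
    (b - 1) * m < a → ∀ T : Fin (m + 1) → ℤ, (∀ i, ((p : ℤ) ^ a) ∣ f.eval (T i)) →
    (∀ i j, i ≠ j → ¬ ((p : ℤ) ^ b) ∣ T i - T j) → C (p : ℤ) ∣ f := by
  intro m
  induction m with
  | zero =>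
    intro a f hf ha T hT _
    have h1 := Polynomial.eq_C_of_natDegree_eq_zero (Nat.le_zero.1 hf)
    have h2 := hT 0
    rw [h1, eval_C] at h2
    rw [h1]
    refine _root_.map_dvd C ((dvd_pow_self _ ?_).trans h2)
    omega
  | succ m ih =>
    intro a f hf ha T hT hne
    have hba : b - 1 ≤ a := by
      have : b - 1 ≤ (b - 1) * (m + 1) := Nat.le_mul_of_pos_right _ (by omega)
      omega
    have hdiv := Polynomial.modByMonic_add_div f (X - C (T 0))
    rw [modByMonic_X_sub_C_eq_C_eval] at hdiv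
    have hdeg : (f /ₘ (X - C (T 0))).natDegree ≤ m := by
      rw [natDegree_divByMonic _ (monic_X_sub_C _), natDegree_X_sub_C]
      omega
    have hq : C (p : ℤ) ∣ f /ₘ (X - C (T 0)) := by
      refine ih (a - (b - 1)) _ hdeg ?_ (fun i => T i.succ) ?_ ?_
      · have : (b - 1) * (m + 1) = (b - 1) * m + (b - 1) := by ring
        omega
      · intro i
        refine R6_dvd hp hb hba (x := T i.succ - T 0) ?_ (hne _ _ (Fin.succ_ne_zero i))
        have h1 : (T i.succ - T 0) * (f /ₘ (X - C (T 0))).eval (T i.succ) = f.eval (T i.succ) - f.eval (T 0) := by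
          conv_rhs => rw [← hdiv]
          simp only [eval_add, eval_C, eval_mul, eval_sub, eval_X]
          simp
        rw [h1]
        exact dvd_sub (hT _) (hT _)
      · intro i j hij
        exact hne _ _ fun h => hij (Fin.succ_injective _ h)
    rw [← hdiv]
    refine dvd_add (_root_.map_dvd C ((dvd_pow_self _ ?_).trans (hT 0))) (Dvd.dvd.mul_left hq _)
    omega

theorem R6a {p : ℕ} (hp : p.Prime) {a b : ℕ} (hb : 1 ≤ b) : ∀ (m : ℕ) (f : ℤ[X]), f.natDegree ≤ m →
    (b - 1) * m < a → ∀ T : Fin (m + 1) → ℤ, (∀ i, ((p : ℤ) ^ a) ∣ f.eval (T i)) →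
    (∀ i j, i ≠ j → ¬ ((p : ℤ) ^ b) ∣ T i - T j) → ∀ i, (p : ℤ) ∣ f.coeff i := by
  intro m f hf ha T hT hne
  exact (C_dvd_iff_dvd_coeff _ _).1 (R6_aux hp hb m a f hf ha T hT hne)

private theorem R6_class {q : ℕ} (hq : 0 < q) (M : ℕ) (c : ℤ) :
    ((Finset.Icc (-(M : ℤ)) M).filter fun T => T % (q : ℤ) = c).card ≤ (2 * M + 1) / q + 1 := by
  have h0 : ((Finset.Icc (-(M : ℤ)) M).filter fun T => T % (q : ℤ) = c).card ≤
      (Finset.range ((2 * M + 1) / q + 1)).card := by
    refine Finset.card_le_card_of_injOn (fun T => ((T + M) / (q : ℤ)).toNat) ?_ ?_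
    · intro T hT
      have hT' := (mem_filter.1 (mem_coe.1 hT)).1
      rw [Finset.mem_Icc] at hT'
      have hqz : (0:ℤ) < q := by exact_mod_cast hq
      have h1 : 0 ≤ (T + M) / (q : ℤ) := Int.ediv_nonneg (by linarith) hqz.le
      have h2 : (T + M) / (q : ℤ) ≤ ((2 * M + 1 : ℕ) : ℤ) / (q : ℤ) :=
        Int.ediv_le_ediv hqz (by push_cast; linarith)
      rw [mem_coe, Finset.mem_range, Nat.lt_succ_iff]
      have h3 : (((2 * M + 1) / q : ℕ) : ℤ) = ((2 * M + 1 : ℕ) : ℤ) / (q : ℤ) := by push_cast; rfl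
      show ((T + M) / (q : ℤ)).toNat ≤ (2 * M + 1) / q
      omega
    · intro T hT T' hT' h
      have hT1 := mem_filter.1 (mem_coe.1 hT)
      have hT2 := mem_filter.1 (mem_coe.1 hT')
      rw [Finset.mem_Icc] at hT1 hT2
      have hqz : (0:ℤ) < q := by exact_mod_cast hq
      have h1 : 0 ≤ (T + M) / (q : ℤ) := Int.ediv_nonneg (by linarith [hT1.1.1]) hqz.le
      have h2 : 0 ≤ (T' + M) / (q : ℤ) := Int.ediv_nonneg (by linarith [hT2.1.1]) hqz.le
      have h3 : (T + M) / (q : ℤ) = (T' + M) / (q : ℤ) := by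
        have h4 : ((T + M) / (q : ℤ)).toNat = ((T' + M) / (q : ℤ)).toNat := h
        omega
      have h5 : (T + M) % (q : ℤ) = (T' + M) % (q : ℤ) := by
        rw [Int.add_emod, hT1.2, Int.add_emod T' M, hT2.2]
      have h6 := Int.emod_add_mul_ediv (T + M) (q : ℤ)
      have h7 := Int.emod_add_mul_ediv (T' + M) (q : ℤ)
      rw [h3, h5] at h6
      linarith
  rwa [Finset.card_range] at h0

theorem R6 {ι : Type*} [Fintype ι] {m : ℕ} {P : ι → ℤ[X]} (hP : Prim P)
    (hd : ∀ f, (P f).natDegree ≤ m) {p a b : ℕ} (hp : p.Prime) (hb : 1 ≤ b) (hab : (b - 1) * m < a)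
    (M : ℕ) :
    ((Finset.Icc (-(M : ℤ)) M).filter fun T => p ^ a ∣ hh P T).card ≤
      m * ((2 * M + 1) / p ^ b + 1) := by
  obtain ⟨f₀, i₀, hf₀⟩ := hP p hp
  set S := (Finset.Icc (-(M : ℤ)) M).filter fun T => p ^ a ∣ hh P T with hS
  have hev : ∀ T ∈ S, (p : ℤ) ^ a ∣ (P f₀).eval T := by
    intro T hT
    have h1 : p ^ a ∣ hh P T := (mem_filter.1 hT).2
    have h2 : hh P T ∣ ((P f₀).eval T).natAbs := Finset.gcd_dvd (mem_univ f₀)
    have h3 := Int.natCast_dvd.2 (h1.trans h2)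
    push_cast at h3
    exact h3
  have himg : (S.image fun T => T % ((p ^ b : ℕ) : ℤ)).card ≤ m := by
    by_contra hcon
    obtain ⟨I', hI', hcard⟩ := Finset.exists_subset_card_eq
      (show m + 1 ≤ (S.image fun T => T % ((p ^ b : ℕ) : ℤ)).card by omega)
    let e := (I'.equivFinOfCardEq hcard).symm
    have hch : ∀ i : Fin (m + 1), ∃ T ∈ S, T % ((p ^ b : ℕ) : ℤ) = (e i : ℤ) := by
      intro i
      exact mem_image.1 (hI' (e i).2)
    choose T hTS hTe using hch
    refine hf₀ (R6a hp hb m (P f₀) (hd f₀) hab T (fun i => hev _ (hTS i)) ?_ i₀)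
    intro i j hij hdvd
    apply hij
    have h1 : T j % ((p ^ b : ℕ) : ℤ) = T i % ((p ^ b : ℕ) : ℤ) := by
      have h2 : T j ≡ T i [ZMOD ((p ^ b : ℕ) : ℤ)] := by
        rw [Int.modEq_iff_dvd]
        push_cast
        exact hdvd
      exact h2
    rw [hTe, hTe] at h1
    exact e.injective (Subtype.ext h1.symm)
  have h1 := Finset.card_le_mul_card_image (f := fun T => T % ((p ^ b : ℕ) : ℤ)) S ((2 * M + 1) / p ^ b + 1) (by
    intro c _
    refine le_trans (Finset.card_le_card ?_) (R6_class (q := p ^ b) (pow_pos hp.pos b) M c)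
    intro T hT
    rw [mem_filter] at hT ⊢
    exact ⟨(mem_filter.1 hT.1).1, hT.2⟩)
  calc S.card ≤ ((2 * M + 1) / p ^ b + 1) * (S.image fun T => T % ((p ^ b : ℕ) : ℤ)).card := h1
    _ ≤ ((2 * M + 1) / p ^ b + 1) * m := Nat.mul_le_mul_left _ himg
    _ = m * ((2 * M + 1) / p ^ b + 1) := mul_comm _ _

end Pool.Agent.RL
end

section

/-!
# TASK RL R7: sums of logarithms of divisors

PROOF of `R7`.  For `n ∣ R`, `n, R ≠ 0`: `log n = ∑_{p ∣ R} v_p(n) log p` and `v_p(n) = #{a ∈ [1, v_p(R)] | p^a ∣ n}`.  So with `W = |I|`: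
`∑_{T ∈ I} log (h T) = ∑_{p ∣ R} ∑_{a=1}^{v_p(R)} log p * #{T ∈ I | p^a ∣ h T}`.  Apply the hypothesis with `b = (a + m - 1) / m` (that is `⌈a/m⌉`, `1 ≤ b`, `(b-1) m < a`):
the sum is at most `∑_{p ∣ R} ∑_{a=1}^{v_p(R)} log p * m (W / p^⌈a/m⌉ + 1)`.  Now
`∑_{a=1}^{v} p^(-⌈a/m⌉) ≤ m ∑_{b ≥ 1} p^(-b) = m / (p - 1) ≤ 2 m / p` (every `b` occurs for at most `m` values of `a`), and
`∑_p v_p(R) log p = log R`.  So the sum is at most `2 m² W ∑_{p ∣ R} log p / p + m log R`.
-/

set_option autoImplicit false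

open Finset

namespace Pool.Agent.RL

private theorem R7_log {n R : ℕ} (hR : R ≠ 0) (hn : n ∣ R) :
    Real.log n = ∑ p ∈ R.primeFactors, ∑ a ∈ Finset.range (R.factorization p),
      (if p ^ (a + 1) ∣ n then Real.log p else 0) := by
  have hn0 : n ≠ 0 := fun h => hR (Nat.eq_zero_of_zero_dvd (h ▸ hn))
  rw [Real.log_nat_eq_sum_factorization]
  rw [Finsupp.sum_of_support_subset _ (s := R.primeFactors)]
  · refine Finset.sum_congr rfl fun p hp => ?_
    have hpp : p.Prime := Nat.prime_of_mem_primeFactors hp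
    have hle : n.factorization p ≤ R.factorization p :=
      (Nat.factorization_le_iff_dvd hn0 hR).2 hn p
    rw [← Finset.sum_filter]
    have h1 : (Finset.range (R.factorization p)).filter (fun a => p ^ (a + 1) ∣ n) =
        Finset.range (n.factorization p) := by
      ext a
      simp only [Finset.mem_filter, Finset.mem_range]
      rw [hpp.pow_dvd_iff_le_factorization hn0]
      omega
    rw [h1, Finset.sum_const, Finset.card_range, nsmul_eq_mul]
  · rw [Nat.support_factorization]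
    exact Nat.primeFactors_mono hn hR
  · intro p _
    simp

private theorem R7_geo {x : ℝ} (hx0 : 0 ≤ x) (hx1 : x ≤ 1 / 2) {m : ℕ} (hm : 1 ≤ m) (v : ℕ) :
    ∑ a ∈ Finset.range v, x ^ (a / m + 1) ≤ 2 * m * x := by
  have h1 : ∀ V : ℕ, ∑ a ∈ Finset.range (m * V), x ^ (a / m + 1) ≤ 2 * m * x * (1 - (1 / 2) ^ V) := by
    intro V
    induction V with
    | zero => simp
    | succ V ih =>
      rw [Nat.mul_succ, Finset.sum_range_add]
      have h2 : ∑ a ∈ Finset.range m, x ^ ((m * V + a) / m + 1) = m * x ^ (V + 1) := by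
        rw [Finset.sum_congr rfl (g := fun _ => x ^ (V + 1)), Finset.sum_const, Finset.card_range,
          nsmul_eq_mul]
        intro a ha
        have ha' := Finset.mem_range.1 ha
        rw [Nat.mul_add_div (by omega), Nat.div_eq_of_lt ha', Nat.add_zero]
      rw [h2]
      have h3 : x ^ V ≤ (1 / 2) ^ V := pow_le_pow_left₀ hx0 hx1 V
      have h4 : (m : ℝ) * x ^ (V + 1) ≤ m * x * (1 / 2) ^ V := by
        rw [pow_succ]
        have h5 : (0 : ℝ) ≤ m * x := by positivity
        nlinarith [mul_le_mul_of_nonneg_left h3 h5]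
      have h6 : ((1 : ℝ) / 2) ^ (V + 1) = (1 / 2) ^ V / 2 := by
        rw [pow_succ]
        ring
      rw [h6]
      nlinarith
  have h2 : ∑ a ∈ Finset.range v, x ^ (a / m + 1) ≤ ∑ a ∈ Finset.range (m * v), x ^ (a / m + 1) := by
    apply Finset.sum_le_sum_of_subset_of_nonneg
    · apply Finset.range_subset_range.2
      nlinarith
    · intro i _ _
      positivity
  have h3 := h1 v
  have h4 : (0 : ℝ) ≤ 2 * m * x * (1 / 2) ^ v := by positivity
  nlinarith

theorem R7 {m : ℕ} (hm : 1 ≤ m) (I : Finset ℤ) (h : ℤ → ℕ) {R : ℕ} (hR : R ≠ 0)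
    (hdiv : ∀ T ∈ I, h T ∣ R)
    (hc : ∀ p a b : ℕ, p.Prime → 1 ≤ b → (b - 1) * m < a →
      (I.filter fun T => p ^ a ∣ h T).card ≤ m * (I.card / p ^ b + 1)) :
    ∑ T ∈ I, Real.log (h T) ≤
      I.card * (2 * (m : ℝ) ^ 2 * ∑ p ∈ R.primeFactors, Real.log p / p) + m * Real.log R := by
  classical
  have e1 : ∑ T ∈ I, Real.log (h T) = ∑ p ∈ R.primeFactors, ∑ a ∈ Finset.range (R.factorization p),
      (((I.filter fun T => p ^ (a + 1) ∣ h T).card : ℝ) * Real.log p) := by
    rw [Finset.sum_congr rfl fun T hT => R7_log hR (hdiv T hT)]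
    rw [Finset.sum_comm]
    refine Finset.sum_congr rfl fun p _ => ?_
    rw [Finset.sum_comm]
    refine Finset.sum_congr rfl fun a _ => ?_
    rw [← Finset.sum_filter, Finset.sum_const, nsmul_eq_mul]
  have e2 : Real.log R = ∑ p ∈ R.primeFactors, (R.factorization p : ℝ) * Real.log p := by
    rw [Real.log_nat_eq_sum_factorization]
    rfl
  rw [e1, e2, Finset.mul_sum, Finset.mul_sum, Finset.mul_sum, ← Finset.sum_add_distrib]
  refine Finset.sum_le_sum fun p hp => ?_
  have hpp : p.Prime := Nat.prime_of_mem_primeFactors hp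
  have hp2 : (2 : ℝ) ≤ p := by exact_mod_cast hpp.two_le
  have hlog : 0 ≤ Real.log p := Real.log_nonneg (by linarith)
  rw [← Finset.sum_mul]
  have h1 : ∀ a ∈ Finset.range (R.factorization p),
      ((I.filter fun T => p ^ (a + 1) ∣ h T).card : ℝ) ≤
        m * (I.card * (1 / p : ℝ) ^ (a / m + 1)) + m := by
    intro a _
    have h2 := hc p (a + 1) (a / m + 1) hpp (Nat.le_add_left 1 _) (by
      rw [Nat.add_sub_cancel]
      exact Nat.lt_succ_of_le (Nat.div_mul_le_self a m))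
    have h5 : (((I.filter fun T => p ^ (a + 1) ∣ h T).card : ℕ) : ℝ) ≤
        ((m * (I.card / p ^ (a / m + 1) + 1) : ℕ) : ℝ) := by exact_mod_cast h2
    refine h5.trans ?_
    push_cast
    have h6 : ((I.card / p ^ (a / m + 1) : ℕ) : ℝ) ≤ (I.card : ℝ) / ((p ^ (a / m + 1) : ℕ) : ℝ) :=
      Nat.cast_div_le
    have h7 : (I.card : ℝ) / ((p ^ (a / m + 1) : ℕ) : ℝ) = I.card * (1 / p : ℝ) ^ (a / m + 1) := by
      push_cast
      rw [one_div, inv_pow, div_eq_mul_inv]
    rw [h7] at h6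
    have h8 : (0 : ℝ) ≤ m := by positivity
    nlinarith [mul_le_mul_of_nonneg_left h6 h8]
  have h2 := Finset.sum_le_sum h1
  rw [Finset.sum_add_distrib, ← Finset.mul_sum, ← Finset.mul_sum, Finset.sum_const,
    Finset.card_range, nsmul_eq_mul] at h2
  have h3 := R7_geo (x := (1 / p : ℝ)) (by positivity)
    (by
      rw [div_le_div_iff₀ (by linarith) (by norm_num)]
      linarith) hm (R.factorization p)
  have h4 : (0 : ℝ) ≤ m * I.card := by positivity
  have h5 : ∑ a ∈ Finset.range (R.factorization p),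
      ((I.filter fun T => p ^ (a + 1) ∣ h T).card : ℝ) ≤
      m * I.card * (2 * m * (1 / p)) + R.factorization p * m := by
    refine h2.trans ?_
    have := mul_le_mul_of_nonneg_left h3 h4
    nlinarith
  have h6 := mul_le_mul_of_nonneg_right h5 hlog
  refine h6.trans (le_of_eq ?_)
  field_simp

end Pool.Agent.RL
end

section

/-!
# TASK RL R8: the sum of `log p / p` over the prime divisors

PROOF of `R8`.  Let `y = 1 + log n ≥ 1`.  The primes `p ≤ y`: `∑ log p / p ≤ log y ∑_{k ≤ y} 1/k ≤ log y (1 + log y) ≤ (1 + log y)²`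
(`harmonic_le_one_add_log`, with the floor of `y`).  The primes `p > y` dividing `n`: `∑ log p / p ≤ (1/y) ∑_{p ∣ n} log p ≤ log n / y ≤ 1`
(the product of the primes dividing `n` divides `n`).
-/

set_option autoImplicit false

open Finset

namespace Pool.Agent.RL

theorem R8 {n : ℕ} (hn : n ≠ 0) :
    ∑ p ∈ n.primeFactors, Real.log p / p ≤ 1 + (1 + Real.log (1 + Real.log n)) ^ 2 := by
  classical
  have hn1 : (1 : ℝ) ≤ n := by exact_mod_cast Nat.one_le_iff_ne_zero.2 hn
  have hlog : 0 ≤ Real.log n := Real.log_nonneg hn1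
  set y : ℝ := 1 + Real.log n with hy
  have hy1 : 1 ≤ y := by linarith
  have hly : 0 ≤ Real.log y := Real.log_nonneg hy1
  have hpr : ∀ p ∈ n.primeFactors, (1 : ℝ) < p := fun p hp => by
    exact_mod_cast (Nat.prime_of_mem_primeFactors hp).one_lt
  rw [← Finset.sum_filter_add_sum_filter_not n.primeFactors (fun p : ℕ => (p : ℝ) ≤ y)]
  have h1 : ∑ p ∈ n.primeFactors.filter (fun p : ℕ => (p : ℝ) ≤ y), Real.log p / p ≤
      (1 + Real.log y) ^ 2 := by
    calc ∑ p ∈ n.primeFactors.filter (fun p : ℕ => (p : ℝ) ≤ y), Real.log p / p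
        ≤ ∑ p ∈ n.primeFactors.filter (fun p : ℕ => (p : ℝ) ≤ y), Real.log y * (p : ℝ)⁻¹ := by
          refine Finset.sum_le_sum fun p hp => ?_
          obtain ⟨hp1, hp2⟩ := Finset.mem_filter.1 hp
          have hp3 := hpr p hp1
          rw [div_eq_mul_inv]
          exact mul_le_mul_of_nonneg_right (Real.log_le_log (by linarith) hp2)
            (inv_nonneg.2 (by linarith))
      _ = Real.log y * ∑ p ∈ n.primeFactors.filter (fun p : ℕ => (p : ℝ) ≤ y), (p : ℝ)⁻¹ :=
          (Finset.mul_sum _ _ _).symm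
      _ ≤ Real.log y * ∑ p ∈ Finset.Icc 1 ⌊y⌋₊, (p : ℝ)⁻¹ := by
          refine mul_le_mul_of_nonneg_left (Finset.sum_le_sum_of_subset_of_nonneg ?_ ?_) hly
          · intro p hp
            obtain ⟨hp1, hp2⟩ := Finset.mem_filter.1 hp
            exact Finset.mem_Icc.2 ⟨(Nat.prime_of_mem_primeFactors hp1).one_lt.le, Nat.le_floor hp2⟩
          · intro p _ _
            exact inv_nonneg.2 (Nat.cast_nonneg _)
      _ ≤ Real.log y * (1 + Real.log y) := by
          refine mul_le_mul_of_nonneg_left ?_ hly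
          have h2 := harmonic_floor_le_one_add_log y hy1
          rw [harmonic_eq_sum_Icc] at h2
          push_cast at h2
          exact h2
      _ ≤ (1 + Real.log y) ^ 2 := by nlinarith
  have h2 : ∑ p ∈ n.primeFactors.filter (fun p : ℕ => ¬ (p : ℝ) ≤ y), Real.log p / p ≤ 1 := by
    have h3 : ∑ p ∈ n.primeFactors, Real.log p ≤ Real.log n := by
      rw [← Real.log_prod (fun p hp => by have := hpr p hp; positivity)]
      have h4 : ∏ p ∈ n.primeFactors, p ≤ n := Nat.le_of_dvd (Nat.pos_of_ne_zero hn) (Nat.prod_primeFactors_dvd n)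
      have h5 : (∏ p ∈ n.primeFactors, (p : ℝ)) ≤ n := by
        rw [← Nat.cast_prod]
        exact Nat.cast_le.2 h4
      exact Real.log_le_log (Finset.prod_pos fun p hp => by have := hpr p hp; positivity) h5
    calc ∑ p ∈ n.primeFactors.filter (fun p : ℕ => ¬ (p : ℝ) ≤ y), Real.log p / p
        ≤ ∑ p ∈ n.primeFactors.filter (fun p : ℕ => ¬ (p : ℝ) ≤ y), Real.log p / y := by
          refine Finset.sum_le_sum fun p hp => ?_
          obtain ⟨hp1, hp2⟩ := Finset.mem_filter.1 hp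
          have hp3 := hpr p hp1
          exact div_le_div_of_nonneg_left (Real.log_nonneg hp3.le) (by linarith) (not_le.1 hp2).le
      _ ≤ ∑ p ∈ n.primeFactors, Real.log p / y := by
          refine Finset.sum_le_sum_of_subset_of_nonneg (Finset.filter_subset _ _) ?_
          intro p hp _
          exact div_nonneg (Real.log_nonneg (hpr p hp).le) (by linarith)
      _ = (∑ p ∈ n.primeFactors, Real.log p) / y := (Finset.sum_div _ _ _).symm
      _ ≤ 1 := by
          rw [div_le_one (by linarith)]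
          linarith
  linarith

end Pool.Agent.RL
end

section

/-!
# TASK RL Rb: a combination of the minors is a power

PROOF of `R2`.  Let `Y` be as in `Hyp`, `c f = ∏ k, Y (f k) k`, so `|c f| ≤ K^m`.  Over `ℤ[X]` let `M = X • A1.map C + A0.map C`.  Since
`(A0 + T • A1) * Y = 0`: `M * Y.map C = (X - C T) • (A1 * Y).map C`, so its determinant is
`(X - C T)^m * C (det (A1 * Y))`.  On the other hand column `k` of `M * Y.map C` is `∑ j, C (Y j k) • (column j of M)`, so by the multilinearity of the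
determinant in the columns (`Matrix.det_mul'`-type expansion; `MultilinearMap.map_sum` for `Matrix.detRowAlternating` of the transpose, and
`MultilinearMap.map_smul_univ`) `det (M * Y.map C) = ∑ f, (∏ k, C (Y (f k) k)) * det (M.submatrix id f)` and
`det (M.submatrix id f) = mp A0 A1 f`.  `ρ = det (A1 * Y)`.
-/

set_option autoImplicit false

open Finset Polynomial

namespace Pool.Agent.RL

private theorem Rb_expand {m d : ℕ} (M : Matrix (Fin m) (Fin d) ℤ[X]) (N : Matrix (Fin d) (Fin m) ℤ[X]) :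
    (M * N).det = ∑ f : Fin m → Fin d, (∏ k, N (f k) k) * (M.submatrix id f).det := by
  rw [← Matrix.det_transpose]
  have h : (M * N).transpose = fun k => ∑ j, N j k • (fun i => M i j) := by
    refine Matrix.ext fun k i => ?_
    rw [Matrix.transpose_apply, Matrix.mul_apply, Finset.sum_apply]
    exact Finset.sum_congr rfl fun j _ => by rw [Pi.smul_apply, smul_eq_mul, mul_comm]
  rw [h]
  change (Matrix.detRowAlternating (n := Fin m) (R := ℤ[X])).toMultilinearMap _ = _
  rw [MultilinearMap.map_sum]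
  refine Finset.sum_congr rfl (fun f _ => ?_)
  rw [MultilinearMap.map_smul_univ, smul_eq_mul]
  congr 1
  change Matrix.det (fun k i => M i (f k)) = _
  rw [← Matrix.det_transpose]
  rfl

theorem R2 {m d : ℕ} (A0 A1 : Matrix (Fin m) (Fin d) ℤ) {K : ℕ} {T : ℤ} (h : Hyp A0 A1 K T) :
    ∃ (ρ : ℤ) (c : (Fin m → Fin d) → ℤ), ρ ≠ 0 ∧ (∀ f, |c f| ≤ (K : ℤ) ^ m) ∧
      ∑ f, C (c f) * mp A0 A1 f = C ρ * (X - C T) ^ m := by
  obtain ⟨Y, hY, hA, hB⟩ := h
  refine ⟨(A1 * Y).det, fun f => ∏ k, Y (f k) k, hB, fun f => ?_, ?_⟩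
  · rw [Finset.abs_prod]
    calc ∏ k, |Y (f k) k| ≤ ∏ _k : Fin m, (K : ℤ) :=
          Finset.prod_le_prod (fun k _ => abs_nonneg _) (fun k _ => hY (f k) k)
      _ = (K : ℤ) ^ m := by rw [Finset.prod_const, Finset.card_univ, Fintype.card_fin]
  · have h0 : A0 * Y = -(T • (A1 * Y)) := by
      have h1 : A0 * Y + T • (A1 * Y) = 0 := by
        rw [← hA, Matrix.add_mul, Matrix.smul_mul]
      exact eq_neg_of_add_eq_zero_left h1
    have h2 : ((X : ℤ[X]) • A1.map C + A0.map C) * Y.map C = (X - C T) • (A1 * Y).map C := by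
      rw [Matrix.add_mul, Matrix.smul_mul, ← Matrix.map_mul, ← Matrix.map_mul, h0]
      refine Matrix.ext fun i j => ?_
      simp only [Matrix.add_apply, Matrix.smul_apply, Matrix.map_apply, Matrix.neg_apply, smul_eq_mul, map_neg,
        map_mul]
      ring
    have h3 : (((X : ℤ[X]) • A1.map C + A0.map C) * Y.map C).det = C (A1 * Y).det * (X - C T) ^ m := by
      rw [h2, Matrix.det_smul, Fintype.card_fin, mul_comm]
      congr 1
      exact (RingHom.map_det (C : ℤ →+* ℤ[X]) (A1 * Y)).symm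
    rw [← h3, Rb_expand]
    refine Finset.sum_congr rfl (fun f _ => ?_)
    rw [map_prod]
    rfl

end Pool.Agent.RL
end

section

/-!
# TASK RL Rc: removing the content

PROOF of `Rc`.  Let `γ` be the greatest common divisor of the contents of the `P f` (`Polynomial.content`, `Finset.gcd`), or of all coefficients;
it is not `0`, because some `P f ≠ 0`; take it positive.  `C γ ∣ P f` for all `f` (`Polynomial.C_content_dvd...`, `C_dvd_iff_dvd_coeff`), choose the quotients `P' f`.  If a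
prime `p` divided all coefficients of all `P' f` then `γ p` would divide all coefficients of all `P f`, so `γ p ∣ γ`, a contradiction.

PROOF of `Rdt`.  By `R2` for some `T ∈ G` some `mp A0 A1 f` is not `0` (otherwise `C ρ * (X - C T)^m = 0`).  Take `γ`, `P'` from `Rc` for `P = mp A0 A1`.
`deg`: `natDegree_mp` and `natDegree (C γ * P' f) = natDegree (P' f)`.  `prim`: `Rc`.  Let `T ∈ G`, and `Y` from `Hyp`.
`val`: by `R1` with `A = A0 + T • A1`, `B = A1`: `|mi A f| ≤ (gcd_f |mi A f|) N! K^m`, `mi A f = eval T (mp A0 A1 f) = γ * eval T (P' f)`, so the greatest common divisor is `γ * hh P' T`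
(`Finset.gcd_mul_left`); divide by `γ`.  `comb`: in `R2`, `∑ f, C (c f) * (C γ * P' f) = C ρ * (X - C T)^m`; the coefficient of `X^m` shows `γ ∣ ρ`
(`(X - C T)^m` is monic of degree `m`), `ρ = γ ρ'`, `ρ' ≠ 0`; cancel `C γ`.
-/

set_option autoImplicit false

open Finset Polynomial

namespace Pool.Agent.RL

theorem Rc {ι : Type*} [Fintype ι] (P : ι → ℤ[X]) (h : ∃ f, P f ≠ 0) :
    ∃ (γ : ℕ) (P' : ι → ℤ[X]), 1 ≤ γ ∧ (∀ f, P f = C (γ : ℤ) * P' f) ∧ Prim P' := by
  classical
  let g : ℤ := Finset.univ.gcd fun f => (P f).content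
  have hg0 : g ≠ 0 := by
    intro h0
    obtain ⟨f, hf⟩ := h
    exact hf (Polynomial.content_eq_zero_iff.1 (Finset.gcd_eq_zero_iff.1 h0 f (Finset.mem_univ f)))
  have hγ : 1 ≤ g.natAbs := Nat.one_le_iff_ne_zero.2 (Int.natAbs_ne_zero.2 hg0)
  have hdv : ∀ f, C ((g.natAbs : ℕ) : ℤ) ∣ P f := fun f =>
    Polynomial.dvd_content_iff_C_dvd.1 (Int.natAbs_dvd.2 (Finset.gcd_dvd (Finset.mem_univ f)))
  choose P' hP' using hdv
  refine ⟨g.natAbs, P', hγ, hP', ?_⟩
  intro p hp
  by_contra hcon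
  push Not at hcon
  have h1 : ((g.natAbs : ℕ) : ℤ) * p ∣ g := by
    refine Finset.dvd_gcd fun f _ => Polynomial.dvd_content_iff_C_dvd.2 ?_
    rw [hP' f, Polynomial.C_mul]
    exact mul_dvd_mul_left _ ((Polynomial.C_dvd_iff_dvd_coeff _ _).2 fun i => hcon f i)
  have h2 : g.natAbs * p ∣ g.natAbs := by
    have h3 := Int.natAbs_dvd_natAbs.2 h1
    rwa [Int.natAbs_mul, Int.natAbs_natCast, Int.natAbs_natCast] at h3
  have h4 := Nat.le_of_dvd hγ h2
  have h5 := hp.two_le
  nlinarith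

theorem Rdt {m : ℕ} (A0 A1 : Matrix (Fin m) (Fin (m + m)) ℤ) {K : ℕ} (hK : 1 ≤ K) {G : Finset ℤ}
    (hG : G.Nonempty) (h : ∀ T ∈ G, Hyp A0 A1 K T) :
    ∃ (γ : ℕ) (P' : (Fin m → Fin (m + m)) → ℤ[X]), 1 ≤ γ ∧
      (∀ f, mp A0 A1 f = C (γ : ℤ) * P' f) ∧
      Rdat m P' G ((m + m).factorial * (K : ℝ) ^ m) ((K : ℝ) ^ m) := by
  classical
  have hne : ∃ f, mp A0 A1 f ≠ 0 := by
    obtain ⟨T, hT⟩ := hG
    obtain ⟨ρ, c, hρ, _, hs⟩ := R2 A0 A1 (h T hT)
    by_contra hcon
    push Not at hcon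
    have h0 : C ρ * (X - C T) ^ m = 0 := by
      rw [← hs]
      exact Finset.sum_eq_zero fun f _ => by rw [hcon f, mul_zero]
    rcases mul_eq_zero.1 h0 with h1 | h1
    · exact hρ (Polynomial.C_eq_zero.1 h1)
    · exact pow_ne_zero m (Polynomial.X_sub_C_ne_zero T) h1
  obtain ⟨γ, P', hγ, hP', hprim⟩ := Rc (mp A0 A1) hne
  have hγ0 : (γ : ℤ) ≠ 0 := by exact_mod_cast (by omega : γ ≠ 0)
  refine ⟨γ, P', hγ, hP', ⟨fun f => ?_, hprim, fun T hT f => ?_, fun T hT => ?_⟩⟩
  · have h1 := natDegree_mp A0 A1 f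
    rwa [hP' f, Polynomial.natDegree_C_mul hγ0] at h1
  · obtain ⟨Y, hY, hA, hB⟩ := h T hT
    have h1 := R1 (A0 + T • A1) A1 Y hK hY hA hB f
    have h2 : ∀ f, (mi (A0 + T • A1) f).natAbs = γ * ((P' f).eval T).natAbs := fun f => by
      rw [← eval_mp, hP' f, Polynomial.eval_mul, Polynomial.eval_C, Int.natAbs_mul, Int.natAbs_natCast]
    have h3 : (Finset.univ.gcd fun g : Fin m → Fin (m + m) => (mi (A0 + T • A1) g).natAbs) = γ * hh P' T := by
      simp only [h2]
      rw [Finset.gcd_mul_left, normalize_eq]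
      rfl
    rw [h2, h3, mul_assoc] at h1
    have h4 := Nat.le_of_mul_le_mul_left h1 hγ
    have h5 : ((((P' f).eval T).natAbs : ℕ) : ℝ) ≤ ((hh P' T * ((m + m).factorial * K ^ m) : ℕ) : ℝ) := by
      exact_mod_cast h4
    rw [Nat.cast_natAbs, Int.cast_abs] at h5
    push_cast at h5
    exact h5
  · obtain ⟨ρ, c, hρ, hc, hs⟩ := R2 A0 A1 (h T hT)
    have h1 : C (γ : ℤ) * ∑ f, C (c f) * P' f = C ρ * (X - C T) ^ m := by
      rw [← hs, Finset.mul_sum]
      exact Finset.sum_congr rfl fun f _ => by rw [hP' f]; ring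
    have h2 : ((X - C T : ℤ[X]) ^ m).coeff m = 1 := by
      have h3 := ((Polynomial.monic_X_sub_C T).pow m).coeff_natDegree
      rwa [Polynomial.natDegree_pow, Polynomial.natDegree_X_sub_C, mul_one] at h3
    have h4 : (γ : ℤ) * (∑ f, C (c f) * P' f).coeff m = ρ := by
      have h5 := congrArg (fun p : ℤ[X] => p.coeff m) h1
      simp only [Polynomial.coeff_C_mul, h2, mul_one] at h5
      exact h5
    refine ⟨(∑ f, C (c f) * P' f).coeff m, c, fun h0 => hρ (by rw [← h4, h0, mul_zero]), fun f => ?_, ?_⟩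
    · have h6 := hc f
      exact_mod_cast h6
    · have h7 : C (γ : ℤ) * ∑ f, C (c f) * P' f =
          C (γ : ℤ) * (C ((∑ f, C (c f) * P' f).coeff m) * (X - C T) ^ m) := by
        rw [h1, ← mul_assoc, ← Polynomial.C_mul, h4]
      exact mul_left_cancel₀ (by rwa [Ne, Polynomial.C_eq_zero]) h7

end Pool.Agent.RL
end

section

/-!
# TASK RL CnA: perpendicular pairs, decomposition by minimal vectors

PROOF of `Cn_two`.  The pairs of `F` with `p.1 ∈ Mo v u₀`, `p.2 ∈ Po v u₀` are mapped injectively into `Bx d (2R)`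
(which has `(4R+1)^d` elements) by `p ↦ p.1 + p.2`: if `a + b = a' + b'` then `a - a' = b' - b` lies in both submodules,
so it is `0` (`Mo_Po_inter`).  The same for the other pairs.

PROOF of `Cn_exc`.  If the set is empty nothing is to prove.  Otherwise take a pair `(a, b)` in it; `Mo v b = Po v a`
(`Mo_Po`), so `rk (Mo v a) + rk (Mo v b) = d` and the two numbers are different.  Let `u₀` be the one of `a`, `b` with the larger
rank, `2 rk (Mo v u₀) > d`.  Let `(u, w)` be any pair of the set, so again one of `rk (Mo v u)`, `rk (Mo v w)` is larger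
than `d/2` (`rk (Mo v w) = rk (Po v u)`).  If `2 rk (Mo v u) > d` then `u ∈ Mo v u₀` (otherwise `Mo_inter` and `rk_add_le` give
`rk (Mo v u) + rk (Mo v u₀) ≤ d`), so `w ∈ Po v u = Po v u₀` (`Mo_eq`).  If `2 rk (Mo v w) > d` then `w ∈ Mo v u₀` and
`u ∈ Po v w = Po v u₀` (`pr_symm`).  So `Cn_two` applies.

PROOF of `Cn_dec`.  The pairs `(u, w)` counted by `Zp v R` with `Exc v u` are at most `2 (4R+1)^d` (`Cn_exc`).  For the other
pairs let `y` be a vector of minimal norm among the nonzero vectors of `Mo v u ∪ Po v u` (it contains `u`), so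
`nm y ≤ nm u ≤ R`.  If `y ∈ Mo v u` then `Mo v y = Mo v u ∋ u`, `Po v y = Po v u ∋ w` (`Mo_eq`).  If `y ∈ Po v u` then
`Mo v y = Po v u ∋ w`, `Po v y = Mo v u ∋ u` (`Mo_Po`).  In both cases `Pmin v y`, not `Exc v y`, and `(u, w)` lies in
`(Mo v y × Po v y) ∪ (Po v y × Mo v y)`, of which at most `2 cnt (Mo v y) R * cnt (Po v y) R` pairs lie in the cube.  So the
set is contained in a union (`Finset.card_biUnion_le`).
-/

set_option autoImplicit false

open Finset

namespace Pool.Agent.RL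

variable {d : ℕ} {v : Fin d → ℂ}

/-- `y` is a shortest nonzero vector among the vectors parallel or perpendicular to `y`. -/
def Pmin (v : Fin d → ℂ) (y : Fin d → ℤ) : Prop :=
  y ≠ 0 ∧ ∀ z, z ≠ 0 → (z ∈ Mo v y ∨ z ∈ Po v y) → nm y ≤ nm z

/-- The ranks of the parallel and of the perpendicular vectors are different and add up to `d`. -/
def Exc (v : Fin d → ℂ) (y : Fin d → ℤ) : Prop :=
  rk (Mo v y : Set (Fin d → ℤ)) + rk (Po v y : Set (Fin d → ℤ)) = d ∧
    rk (Mo v y : Set (Fin d → ℤ)) ≠ rk (Po v y : Set (Fin d → ℤ))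

private theorem CnA_inj (hv : LinearIndependent ℚ v) {u₀ : Fin d → ℤ} (hu : u₀ ≠ 0) (R : ℕ)
    (F : Finset ((Fin d → ℤ) × (Fin d → ℤ))) (hF : ∀ p ∈ F, p.1 ∈ Bx d R ∧ p.2 ∈ Bx d R)
    (h : (∀ p ∈ F, p.1 ∈ Mo v u₀ ∧ p.2 ∈ Po v u₀) ∨ (∀ p ∈ F, p.1 ∈ Po v u₀ ∧ p.2 ∈ Mo v u₀)) :
    F.card ≤ (4 * R + 1) ^ d := by
  have hc : (Bx d (2 * R)).card = (4 * R + 1) ^ d := by
    rw [card_Bx]
    congr 1
    ring
  rw [← hc]
  apply Finset.card_le_card_of_injOn (fun p => p.1 + p.2)
  · intro p hp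
    have hp' := Finset.mem_coe.mp hp
    obtain ⟨h1, h2⟩ := hF p hp'
    apply Finset.mem_coe.mpr
    rw [mem_Bx] at h1 h2 ⊢
    have := nm_add_le p.1 p.2
    show nm (p.1 + p.2) ≤ 2 * R
    omega
  · intro p hp p' hp' heq
    simp only at heq
    have hsub : p.1 - p'.1 = p'.2 - p.2 := by
      have : p.1 - p'.1 - (p'.2 - p.2) = (p.1 + p.2) - (p'.1 + p'.2) := by abel
      rw [heq, sub_self] at this
      exact sub_eq_zero.mp this
    have hz : p.1 - p'.1 = 0 := by
      rcases h with h | h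
      · obtain ⟨a1, a2⟩ := h p (Finset.mem_coe.mp hp)
        obtain ⟨b1, b2⟩ := h p' (Finset.mem_coe.mp hp')
        exact Mo_Po_inter hv hu ((Mo v u₀).sub_mem a1 b1) (hsub ▸ (Po v u₀).sub_mem b2 a2)
      · obtain ⟨a1, a2⟩ := h p (Finset.mem_coe.mp hp)
        obtain ⟨b1, b2⟩ := h p' (Finset.mem_coe.mp hp')
        exact Mo_Po_inter hv hu (hsub ▸ (Mo v u₀).sub_mem b2 a2) ((Po v u₀).sub_mem a1 b1)
    have h1 : p.1 = p'.1 := sub_eq_zero.mp hz
    have h2 : p.2 = p'.2 := by
      rw [hz] at hsub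
      exact (sub_eq_zero.mp hsub.symm).symm
    exact Prod.ext h1 h2

private theorem CnA_big (hv : LinearIndependent ℚ v) {u₀ u w : Fin d → ℤ} (h0 : u₀ ≠ 0)
    (hu : u ≠ 0) (hp : pr v u w = 0)
    (h1 : d < 2 * rk (Mo v u₀ : Set (Fin d → ℤ))) (h2 : d < 2 * rk (Mo v u : Set (Fin d → ℤ))) :
    u ∈ Mo v u₀ ∧ w ∈ Po v u₀ := by
  have hmem : u ∈ Mo v u₀ := by
    by_contra hn
    have := rk_add_le (Mo v u₀) (Mo v u) (fun z hz1 hz2 => Mo_inter hv h0 hu hn hz1 hz2)
    omega
  refine ⟨hmem, ?_⟩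
  rw [← (Mo_eq hv h0 hu hmem).2]
  exact hp

theorem Cn_two (hv : LinearIndependent ℚ v) {u₀ : Fin d → ℤ} (hu : u₀ ≠ 0) (R : ℕ)
    (F : Finset ((Fin d → ℤ) × (Fin d → ℤ))) (hF : ∀ p ∈ F, p.1 ∈ Bx d R ∧ p.2 ∈ Bx d R)
    (h : ∀ p ∈ F, (p.1 ∈ Mo v u₀ ∧ p.2 ∈ Po v u₀) ∨ (p.1 ∈ Po v u₀ ∧ p.2 ∈ Mo v u₀)) :
    F.card ≤ 2 * (4 * R + 1) ^ d := by
  classical
  have hs := Finset.card_filter_add_card_filter_not (s := F)
    (fun p => p.1 ∈ Mo v u₀ ∧ p.2 ∈ Po v u₀)
  have h1 := CnA_inj hv hu R (F.filter fun p => p.1 ∈ Mo v u₀ ∧ p.2 ∈ Po v u₀)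
    (fun p hp => hF p (Finset.mem_filter.mp hp).1) (Or.inl fun p hp => (Finset.mem_filter.mp hp).2)
  have h2 := CnA_inj hv hu R (F.filter fun p => ¬ (p.1 ∈ Mo v u₀ ∧ p.2 ∈ Po v u₀))
    (fun p hp => hF p (Finset.mem_filter.mp hp).1)
    (Or.inr fun p hp => by
      obtain ⟨hp1, hp2⟩ := Finset.mem_filter.mp hp
      rcases h p hp1 with h | h
      · exact absurd h hp2
      · exact h)
  rw [← hs]
  omega

theorem Cn_exc (hv : LinearIndependent ℚ v) (R : ℕ)
    (F : Finset ((Fin d → ℤ) × (Fin d → ℤ))) (hF : ∀ p ∈ F, p.1 ∈ Bx d R ∧ p.2 ∈ Bx d R)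
    (h : ∀ p ∈ F, p.1 ≠ 0 ∧ p.2 ≠ 0 ∧ pr v p.1 p.2 = 0 ∧ Exc v p.1) :
    F.card ≤ 2 * (4 * R + 1) ^ d := by
  rcases F.eq_empty_or_nonempty with hE | ⟨p0, hp0⟩
  · rw [hE, Finset.card_empty]
    exact Nat.zero_le _
  · have key : ∀ p ∈ F, (d < 2 * rk (Mo v p.1 : Set (Fin d → ℤ))) ∨
        (d < 2 * rk (Mo v p.2 : Set (Fin d → ℤ))) := by
      intro p hp
      obtain ⟨a1, a2, a3, a4, a5⟩ := h p hp
      have := (Mo_Po hv a1 a2 (mem_Po.mpr a3)).1
      rw [this]
      omega
    have hex : ∃ u₀ : Fin d → ℤ, u₀ ≠ 0 ∧ d < 2 * rk (Mo v u₀ : Set (Fin d → ℤ)) := by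
      obtain ⟨a1, a2, -, -, -⟩ := h p0 hp0
      rcases key p0 hp0 with k | k
      · exact ⟨p0.1, a1, k⟩
      · exact ⟨p0.2, a2, k⟩
    obtain ⟨u₀, h0, hk⟩ := hex
    refine Cn_two hv h0 R F hF (fun p hp => ?_)
    obtain ⟨a1, a2, a3, -, -⟩ := h p hp
    rcases key p hp with k | k
    · exact Or.inl (CnA_big hv h0 a1 a3 hk k)
    · have := CnA_big hv h0 a2 (w := p.1) (by rw [pr_symm]; exact a3) hk k
      exact Or.inr ⟨this.2, this.1⟩

open Classical in
theorem Cn_dec (hv : LinearIndependent ℚ v) (R : ℕ) :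
    Zp v R ≤ 2 * (4 * R + 1) ^ d + ∑ y ∈ (Bx d R).filter fun y => Pmin v y ∧ ¬ Exc v y,
      2 * (cnt (Mo v y : Set (Fin d → ℤ)) R * cnt (Po v y : Set (Fin d → ℤ)) R) := by
  unfold Zp
  set F := (Bx d R ×ˢ Bx d R).filter fun p => p.1 ≠ 0 ∧ p.2 ≠ 0 ∧ pr v p.1 p.2 = 0 with hFdef
  have hmF : ∀ p ∈ F, (p.1 ∈ Bx d R ∧ p.2 ∈ Bx d R) ∧ p.1 ≠ 0 ∧ p.2 ≠ 0 ∧ pr v p.1 p.2 = 0 := by
    intro p hp
    rw [hFdef, Finset.mem_filter, Finset.mem_product] at hp
    exact hp
  rw [← Finset.card_filter_add_card_filter_not (s := F) (fun p => Exc v p.1)]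
  apply Nat.add_le_add
  · exact Cn_exc hv R _ (fun p hp => (hmF p (Finset.mem_filter.mp hp).1).1)
      (fun p hp => by
        obtain ⟨h1, h2⟩ := Finset.mem_filter.mp hp
        obtain ⟨-, a1, a2, a3⟩ := hmF p h1
        exact ⟨a1, a2, a3, h2⟩)
  · have hsub : F.filter (fun p => ¬ Exc v p.1) ⊆
        ((Bx d R).filter fun y => Pmin v y ∧ ¬ Exc v y).biUnion fun y =>
          (((Bx d R).filter (· ∈ (Mo v y : Set (Fin d → ℤ)))) ×ˢ
            ((Bx d R).filter (· ∈ (Po v y : Set (Fin d → ℤ))))) ∪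
          (((Bx d R).filter (· ∈ (Po v y : Set (Fin d → ℤ)))) ×ˢ
            ((Bx d R).filter (· ∈ (Mo v y : Set (Fin d → ℤ))))) := by
      intro p hp
      obtain ⟨hp1, hp2⟩ := Finset.mem_filter.mp hp
      obtain ⟨⟨b1, b2⟩, a1, a2, a3⟩ := hmF p hp1
      obtain ⟨y, ⟨hy0, hy⟩, hmin⟩ := WellFounded.has_min (measure (nm : (Fin d → ℤ) → ℕ)).wf
        {z | z ≠ 0 ∧ (z ∈ Mo v p.1 ∨ z ∈ Po v p.1)} ⟨p.1, a1, Or.inl (self_mem_Mo v p.1)⟩
      have hmin' : ∀ z, z ≠ 0 → (z ∈ Mo v p.1 ∨ z ∈ Po v p.1) → nm y ≤ nm z := by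
        intro z hz0 hz
        exact not_lt.mp (hmin z ⟨hz0, hz⟩)
      have hyR : y ∈ Bx d R := by
        rw [mem_Bx] at b1 ⊢
        exact (hmin' p.1 a1 (Or.inl (self_mem_Mo v p.1))).trans b1
      rw [Finset.mem_biUnion]
      refine ⟨y, ?_, ?_⟩
      · rw [Finset.mem_filter]
        refine ⟨hyR, ⟨hy0, ?_⟩, ?_⟩
        · intro z hz0 hz
          apply hmin' z hz0
          rcases hy with hy | hy
          · rw [(Mo_eq hv a1 hy0 hy).1, (Mo_eq hv a1 hy0 hy).2] at hz
            exact hz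
          · rw [(Mo_Po hv a1 hy0 hy).1, (Mo_Po hv a1 hy0 hy).2] at hz
            exact hz.symm
        · rintro ⟨e1, e2⟩
          apply hp2
          rcases hy with hy | hy
          · rw [(Mo_eq hv a1 hy0 hy).1, (Mo_eq hv a1 hy0 hy).2] at e1 e2
            exact ⟨e1, e2⟩
          · rw [(Mo_Po hv a1 hy0 hy).1, (Mo_Po hv a1 hy0 hy).2] at e1 e2
            exact ⟨by rw [add_comm]; exact e1, e2.symm⟩
      · rw [Finset.mem_union, Finset.mem_product, Finset.mem_product, Finset.mem_filter,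
          Finset.mem_filter, Finset.mem_filter, Finset.mem_filter]
        rcases hy with hy | hy
        · left
          refine ⟨⟨b1, ?_⟩, b2, ?_⟩
          · show p.1 ∈ Mo v y
            rw [(Mo_eq hv a1 hy0 hy).1]
            exact self_mem_Mo v p.1
          · show p.2 ∈ Po v y
            rw [(Mo_eq hv a1 hy0 hy).2]
            exact mem_Po.mpr a3
        · right
          refine ⟨⟨b1, ?_⟩, b2, ?_⟩
          · show p.1 ∈ Po v y
            rw [(Mo_Po hv a1 hy0 hy).2]
            exact self_mem_Mo v p.1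
          · show p.2 ∈ Mo v y
            rw [(Mo_Po hv a1 hy0 hy).1]
            exact mem_Po.mpr a3
    refine (Finset.card_le_card hsub).trans (Finset.card_biUnion_le.trans ?_)
    apply Finset.sum_le_sum
    intro y _
    refine (Finset.card_union_le _ _).trans ?_
    rw [Finset.card_product, Finset.card_product, cnt_eq, cnt_eq]
    apply le_of_eq
    ring

end Pool.Agent.RL
end

section

/-!
# TASK RL StA: half ranks give a real field

PROOF of `half_rank`.  `y ≠ 0` and `Mo v x`, `Mo v y` meet only in `0` (`Mo_inter`), so `rk (Mo v x) + rk (Mo v y) ≤ d`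
(`rk_add_le`) and both numbers are at least `d / 2`.

PROOF of `StA`.  Let `V = span ℚ (range v) ⊆ ℂ`, `a = L v u₀ ∈ V`, `b = L v w₀ ∈ V`, `b = s I a` with `s : ℝ`, `s ≠ 0` (`perp_iff`, `L_inj`).
Every `z ∈ V`, `z ≠ 0`, has a positive integer multiple `n z = L v x`, `x ∈ ℤ^d`, `x ≠ 0` (span induction / common denominator), and for such `z`
let `U z = {t : ℝ | t z ∈ V}`, a `ℚ`-subspace of `ℝ` containing `1`.  (1) `dim_ℚ (U z) = d / 2`, i.e. `2 finrank = d`: the space `U z` is isomorphic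
to `V_z = {y ∈ V | y ∈ ℝ z}`, which is the image of the `ℚ`-span of `toQ '' (Mo v x)` under the isomorphism `ℚ^d → V` (`par_iff`), so
its dimension is `rk (Mo v x)`, and `2 rk (Mo v x) = d` by `half_rank` (one of `u₀`, `w₀` is not parallel to `x`, because
`u₀` and `w₀` are not parallel: `Mo_Po_inter`, `Mo_eq`).
(2) `V = U a • a ⊕ U b • b`: the two subspaces `V_a`, `V_b` meet in `0` (`a`, `b` are linearly independent over `ℝ`) and their
dimensions add up to `d = dim V`.  So every `z ∈ V` is `t a + t' b` with unique real `t`, `t'`, and `t ∈ U a`, `t' ∈ U b`.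
(3) For `z = a + b`: `t z = t a + t b ∈ V` iff `t ∈ U a ∩ U b`.  By (1) `dim (U a ∩ U b) = d/2`, so `U a = U b = U`.
(4) For `c ∈ U`, `c ≠ 0` and `z = c a + b`: `t z = t c a + t b ∈ V` iff `t c ∈ U` and `t ∈ U`.  By (1)
`dim {t ∈ U | t c ∈ U} = d/2 = dim U`, so `c U ⊆ U`.  So `U` is a subring of `ℝ`, finite dimensional over `ℚ`; for `c ≠ 0` the injective
`ℚ`-linear map `t ↦ c t` of `U` is surjective, so `1 = c t` with `t ∈ U`: `U` is a subfield `F`.  By (2), (3):
`z ∈ V` iff `z = f a + g b` with `f, g ∈ F`.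
-/

set_option autoImplicit false

open scoped ComplexConjugate
open Finset

namespace Pool.Agent.RL

variable {d : ℕ} {v : Fin d → ℂ}

theorem half_rank (hv : LinearIndependent ℚ v)
    (hall : ∀ x : Fin d → ℤ, x ≠ 0 → d ≤ 2 * rk (Mo v x : Set (Fin d → ℤ)))
    {x y : Fin d → ℤ} (hx : x ≠ 0) (hy : y ∉ Mo v x) : 2 * rk (Mo v x : Set (Fin d → ℤ)) = d := by
  have hy0 : y ≠ 0 := by
    rintro rfl
    exact hy (zero_mem _)
  have h1 := rk_add_le (Mo v x) (Mo v y) (fun z h1 h2 => Mo_inter hv hx hy0 hy h1 h2)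
  have h2 := hall x hx
  have h3 := hall y hy0
  omega

/-- Multiplication of real numbers with `z`. -/
private noncomputable def StA_m (z : ℂ) : ℝ →ₗ[ℚ] ℂ where
  toFun t := (t : ℂ) * z
  map_add' a b := by push_cast; ring
  map_smul' q a := by
    rw [Rat.smul_def, RingHom.id_apply, Rat.smul_def]
    push_cast
    ring

private theorem StA_m_inj {z : ℂ} (hz : z ≠ 0) : Function.Injective (StA_m z) := by
  intro a b h
  have h1 : (a : ℂ) * z = (b : ℂ) * z := h
  exact Complex.ofReal_injective (mul_right_cancel₀ hz h1)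

/-- The real numbers `t` with `t z` in the rational span. -/
private noncomputable def StA_U (v : Fin d → ℂ) (z : ℂ) : Submodule ℚ ℝ :=
  (Submodule.span ℚ (Set.range v)).comap (StA_m z)

private theorem StA_mem {v : Fin d → ℂ} {z : ℂ} {t : ℝ} :
    t ∈ StA_U v z ↔ (t : ℂ) * z ∈ Submodule.span ℚ (Set.range v) := Iff.rfl

private theorem StA_fin (v : Fin d → ℂ) {z : ℂ} (hz : z ≠ 0) : Module.Finite ℚ (StA_U v z) := by
  have h1 : Module.Finite ℚ (Submodule.span ℚ (Set.range v)) :=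
    Module.Finite.span_of_finite ℚ (Set.finite_range v)
  refine Module.Finite.of_injective
    (((StA_m z).comp (StA_U v z).subtype).codRestrict (Submodule.span ℚ (Set.range v))
      (fun t => t.2)) ?_
  intro a b h
  have h2 : StA_m z a = StA_m z b := congrArg Subtype.val h
  exact Subtype.ext (StA_m_inj hz h2)

private theorem StA_lin (v : Fin d → ℂ) (x : Fin d → ℤ) :
    Fintype.linearCombination ℚ v (toQ x) = L v x := by
  rw [Fintype.linearCombination_apply]
  unfold toQ L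
  refine Finset.sum_congr rfl fun i _ => ?_
  rw [Rat.smul_def]
  push_cast
  rfl

private theorem StA_lin_inj (hv : LinearIndependent ℚ v) :
    Function.Injective (Fintype.linearCombination ℚ v) := by
  rw [← LinearMap.ker_eq_bot, LinearMap.ker_eq_bot']
  intro q hq
  rw [Fintype.linearCombination_apply] at hq
  exact funext (Fintype.linearIndependent_iff.1 hv q hq)

private theorem StA_range (v : Fin d → ℂ) {z : ℂ} :
    z ∈ Submodule.span ℚ (Set.range v) ↔ ∃ q, Fintype.linearCombination ℚ v q = z := by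
  rw [← Fintype.range_linearCombination]
  exact Iff.rfl

/-- Every rational vector has an integral multiple. -/
private theorem StA_den (q : Fin d → ℚ) : ∃ (n : ℕ) (w : Fin d → ℤ), 1 ≤ n ∧ (n : ℚ) • q = toQ w := by
  have h1 : q ∈ Submodule.span ℚ (toQ '' ((⊤ : Submodule ℤ (Fin d → ℤ)) : Set (Fin d → ℤ))) := by
    have h2 : q = ∑ i, q i • toQ (Pi.single i 1) := by
      funext j
      rw [Finset.sum_apply, Finset.sum_eq_single j]
      · simp [toQ]
      · intro i _ hij
        simp [toQ, Pi.single_eq_of_ne (fun h => hij h.symm)]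
      · intro h
        exact absurd (Finset.mem_univ j) h
    rw [h2]
    exact sum_mem fun i _ => Submodule.smul_mem _ _ (Submodule.subset_span ⟨_, trivial, rfl⟩)
  obtain ⟨n, w, hn, -, hw⟩ := clear_den ⊤ h1
  exact ⟨n, w, hn, hw⟩

private theorem StA_rk (hv : LinearIndependent ℚ v) {x : Fin d → ℤ} (hx : x ≠ 0) :
    Module.finrank ℚ (StA_U v (L v x)) = rk (Mo v x : Set (Fin d → ℤ)) := by
  have hz : L v x ≠ 0 := fun h => hx (L_inj hv h)
  have h1 : Submodule.map (StA_m (L v x)) (StA_U v (L v x)) =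
      Submodule.map (Fintype.linearCombination ℚ v)
        (Submodule.span ℚ (toQ '' (Mo v x : Set (Fin d → ℤ)))) := by
    ext y
    constructor
    · rintro ⟨t, ht, rfl⟩
      obtain ⟨q, hq⟩ := (StA_range v).1 (StA_mem.1 ht)
      obtain ⟨n, w, hn, hw⟩ := StA_den q
      have hn0 : (n : ℚ) ≠ 0 := by exact_mod_cast (by omega : n ≠ 0)
      refine ⟨q, ?_, hq⟩
      have h2 : L v w = ((n * t : ℝ) : ℂ) * L v x := by
        rw [← StA_lin, ← hw, map_smul, hq, Rat.smul_def]
        push_cast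
        ring
      have h3 : w ∈ Mo v x := (par_iff hv hx).2 ⟨_, h2⟩
      have h4 : q = (n : ℚ)⁻¹ • toQ w := by
        rw [← hw, smul_smul, inv_mul_cancel₀ hn0, one_smul]
      rw [h4]
      exact Submodule.smul_mem _ _ (Submodule.subset_span ⟨w, h3, rfl⟩)
    · rintro ⟨q, hq, rfl⟩
      obtain ⟨n, w, hn, hw1, hw⟩ := clear_den _ hq
      have hn0 : (n : ℚ) ≠ 0 := by exact_mod_cast (by omega : n ≠ 0)
      have hn1 : (n : ℂ) ≠ 0 := by exact_mod_cast (by omega : n ≠ 0)
      obtain ⟨t, ht⟩ := (par_iff hv hx).1 hw1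
      have h4 : q = (n : ℚ)⁻¹ • toQ w := by
        rw [← hw, smul_smul, inv_mul_cancel₀ hn0, one_smul]
      have h5 : Fintype.linearCombination ℚ v q = ((t / n : ℝ) : ℂ) * L v x := by
        rw [h4, map_smul, StA_lin, ht, Rat.smul_def]
        push_cast
        field_simp
      refine ⟨t / n, ?_, h5.symm⟩
      exact StA_mem.2 ((StA_range v).2 ⟨q, h5⟩)
  have h2 := (Submodule.equivMapOfInjective (StA_m (L v x)) (StA_m_inj hz) (StA_U v (L v x))).finrank_eq
  have h3 := (Submodule.equivMapOfInjective (Fintype.linearCombination ℚ v) (StA_lin_inj hv)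
    (Submodule.span ℚ (toQ '' (Mo v x : Set (Fin d → ℤ))))).finrank_eq
  rw [h2, h1, ← h3]
  rfl

private theorem StA_dim (hv : LinearIndependent ℚ v)
    (hall : ∀ x : Fin d → ℤ, x ≠ 0 → d ≤ 2 * rk (Mo v x : Set (Fin d → ℤ)))
    {u₀ w₀ : Fin d → ℤ} (hu : u₀ ≠ 0) (hw : w₀ ≠ 0) (hp : pr v u₀ w₀ = 0) {z : ℂ}
    (hz : z ∈ Submodule.span ℚ (Set.range v)) (hz0 : z ≠ 0) :
    2 * Module.finrank ℚ (StA_U v z) = d := by
  obtain ⟨q, hq⟩ := (StA_range v).1 hz
  obtain ⟨n, x, hn, hx⟩ := StA_den q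
  have hn1 : (n : ℂ) ≠ 0 := by exact_mod_cast (by omega : n ≠ 0)
  have h1 : L v x = n * z := by
    rw [← StA_lin, ← hx, map_smul, hq, Rat.smul_def]
    push_cast
    rfl
  have hx0 : x ≠ 0 := by
    rintro rfl
    rw [L_zero] at h1
    exact (mul_ne_zero hn1 hz0) h1.symm
  have h2 : StA_U v z = StA_U v (L v x) := by
    ext t
    rw [StA_mem, StA_mem, h1]
    have e : (t : ℂ) * (n * z) = (n : ℚ) • ((t : ℂ) * z) := by
      rw [Rat.smul_def]
      push_cast
      ring
    rw [e]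
    constructor
    · intro h
      exact Submodule.smul_mem _ _ h
    · intro h
      have h3 := Submodule.smul_mem _ ((n : ℚ)⁻¹) h
      rwa [smul_smul, inv_mul_cancel₀ (by exact_mod_cast (by omega : n ≠ 0)), one_smul] at h3
  rw [h2, StA_rk hv hx0]
  by_cases h3 : u₀ ∈ Mo v x
  · have h4 : w₀ ∉ Mo v x := by
      intro h4
      rw [← (Mo_eq hv hx0 hu h3).1] at h4
      exact hw (Mo_Po_inter hv hu h4 hp)
    exact half_rank hv hall hx0 h4
  · exact half_rank hv hall hx0 h3

theorem StA (hv : LinearIndependent ℚ v)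
    (hall : ∀ x : Fin d → ℤ, x ≠ 0 → d ≤ 2 * rk (Mo v x : Set (Fin d → ℤ)))
    {u₀ w₀ : Fin d → ℤ} (hu : u₀ ≠ 0) (hw : w₀ ≠ 0) (hp : pr v u₀ w₀ = 0) :
    ∃ (F : Subfield ℝ) (s : ℝ), s ≠ 0 ∧ L v w₀ = s * Complex.I * L v u₀ ∧
      ∀ z : ℂ, z ∈ Submodule.span ℚ (Set.range v) ↔
        ∃ f ∈ F, ∃ g ∈ F, z = (f : ℂ) * L v u₀ + (g : ℂ) * L v w₀ := by
  obtain ⟨s, hs⟩ := (perp_iff hv hu).1 hp
  have ha0 : L v u₀ ≠ 0 := fun h => hu (L_inj hv h)
  have hb0 : L v w₀ ≠ 0 := fun h => hw (L_inj hv h)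
  have hs0 : s ≠ 0 := by
    rintro rfl
    rw [Complex.ofReal_zero, zero_mul, zero_mul] at hs
    exact hb0 hs
  have haV : L v u₀ ∈ Submodule.span ℚ (Set.range v) := (StA_range v).2 ⟨_, StA_lin v u₀⟩
  have hbV : L v w₀ ∈ Submodule.span ℚ (Set.range v) := (StA_range v).2 ⟨_, StA_lin v w₀⟩
  -- uniqueness of coordinates
  have huniq : ∀ t t' r r' : ℝ, (t : ℂ) * L v u₀ + (t' : ℂ) * L v w₀ =
      (r : ℂ) * L v u₀ + (r' : ℂ) * L v w₀ → t = r ∧ t' = r' := by
    intro t t' r r' h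
    rw [hs] at h
    have h1 : ((t : ℂ) + t' * s * Complex.I) * L v u₀ = ((r : ℂ) + r' * s * Complex.I) * L v u₀ := by
      linear_combination h
    have h2 := mul_right_cancel₀ ha0 h1
    have h3 := congrArg Complex.re h2
    have h4 := congrArg Complex.im h2
    simp at h3 h4
    refine ⟨h3, ?_⟩
    rcases h4 with h4 | h4
    · exact h4
    · exact absurd h4 hs0
  have hVf : Module.Finite ℚ (Submodule.span ℚ (Set.range v)) :=
    Module.Finite.span_of_finite ℚ (Set.finite_range v)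
  have hda := StA_dim hv hall hu hw hp haV ha0
  have hdb := StA_dim hv hall hu hw hp hbV hb0
  have hfa := StA_fin v ha0
  have hfb := StA_fin v hb0
  -- the decomposition
  have hsup : Submodule.map (StA_m (L v u₀)) (StA_U v (L v u₀)) ⊔
      Submodule.map (StA_m (L v w₀)) (StA_U v (L v w₀)) = Submodule.span ℚ (Set.range v) := by
    have hle : Submodule.map (StA_m (L v u₀)) (StA_U v (L v u₀)) ⊔
        Submodule.map (StA_m (L v w₀)) (StA_U v (L v w₀)) ≤ Submodule.span ℚ (Set.range v) := by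
      refine sup_le ?_ ?_
      · rintro y ⟨t, ht, rfl⟩
        exact ht
      · rintro y ⟨t, ht, rfl⟩
        exact ht
    have hinf : Submodule.map (StA_m (L v u₀)) (StA_U v (L v u₀)) ⊓
        Submodule.map (StA_m (L v w₀)) (StA_U v (L v w₀)) = ⊥ := by
      rw [eq_bot_iff]
      rintro y ⟨⟨t, -, ht⟩, ⟨t', -, ht'⟩⟩
      have h1 : (t : ℂ) * L v u₀ = y := ht
      have h2 : (t' : ℂ) * L v w₀ = y := ht'
      have h3 := huniq t 0 0 t' (by
        rw [Complex.ofReal_zero, zero_mul, add_zero, zero_mul, zero_add, h1, h2])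
      rw [Submodule.mem_bot, ← h1, h3.1, Complex.ofReal_zero, zero_mul]
    have e1 := (Submodule.equivMapOfInjective (StA_m (L v u₀)) (StA_m_inj ha0)
      (StA_U v (L v u₀))).finrank_eq
    have e2 := (Submodule.equivMapOfInjective (StA_m (L v w₀)) (StA_m_inj hb0)
      (StA_U v (L v w₀))).finrank_eq
    have e3 := Submodule.finrank_sup_add_finrank_inf_eq
      (Submodule.map (StA_m (L v u₀)) (StA_U v (L v u₀)))
      (Submodule.map (StA_m (L v w₀)) (StA_U v (L v w₀)))
    rw [hinf, finrank_bot, add_zero, ← e1, ← e2] at e3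
    refine Submodule.eq_of_le_of_finrank_eq hle ?_
    rw [e3, finrank_span_eq_card hv, Fintype.card_fin]
    omega
  have hdec : ∀ t t' : ℝ, (t : ℂ) * L v u₀ + (t' : ℂ) * L v w₀ ∈ Submodule.span ℚ (Set.range v) ↔
      t ∈ StA_U v (L v u₀) ∧ t' ∈ StA_U v (L v w₀) := by
    intro t t'
    constructor
    · intro h
      rw [← hsup] at h
      obtain ⟨y, ⟨r, hr, rfl⟩, y', ⟨r', hr', rfl⟩, hy⟩ := Submodule.mem_sup.1 h
      have h1 : (r : ℂ) * L v u₀ + (r' : ℂ) * L v w₀ = (t : ℂ) * L v u₀ + (t' : ℂ) * L v w₀ := hy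
      obtain ⟨h2, h3⟩ := huniq _ _ _ _ h1
      rw [← h2, ← h3]
      exact ⟨hr, hr'⟩
    · rintro ⟨h1, h2⟩
      exact add_mem h1 h2
  -- the two spaces are equal
  have key : ∀ c : ℝ, c ∈ StA_U v (L v u₀) →
      StA_U v ((c : ℂ) * L v u₀ + L v w₀) = StA_U v (L v w₀) := by
    intro c hc
    have hV : (c : ℂ) * L v u₀ + L v w₀ ∈ Submodule.span ℚ (Set.range v) := add_mem hc hbV
    have h0 : (c : ℂ) * L v u₀ + L v w₀ ≠ 0 := by
      intro h0
      have h1 := huniq c 1 0 0 (by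
        rw [Complex.ofReal_one, one_mul, h0, Complex.ofReal_zero, zero_mul, zero_mul, add_zero])
      exact one_ne_zero h1.2
    have h1 := StA_dim hv hall hu hw hp hV h0
    refine Submodule.eq_of_le_of_finrank_eq ?_ (by omega)
    intro t ht
    have h2 : (t : ℂ) * ((c : ℂ) * L v u₀ + L v w₀) =
        ((t * c : ℝ) : ℂ) * L v u₀ + (t : ℂ) * L v w₀ := by
      push_cast
      ring
    have h3 := StA_mem.1 ht
    rw [h2] at h3
    exact ((hdec _ _).1 h3).2
  have hmul : ∀ c ∈ StA_U v (L v u₀), ∀ t ∈ StA_U v (L v w₀), t * c ∈ StA_U v (L v u₀) := by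
    intro c hc t ht
    rw [← key c hc] at ht
    have h2 : (t : ℂ) * ((c : ℂ) * L v u₀ + L v w₀) =
        ((t * c : ℝ) : ℂ) * L v u₀ + (t : ℂ) * L v w₀ := by
      push_cast
      ring
    have h3 := StA_mem.1 ht
    rw [h2] at h3
    exact ((hdec _ _).1 h3).1
  have h1a : (1 : ℝ) ∈ StA_U v (L v u₀) := by
    rw [StA_mem, Complex.ofReal_one, one_mul]
    exact haV
  have hUU : StA_U v (L v w₀) = StA_U v (L v u₀) := by
    refine Submodule.eq_of_le_of_finrank_eq ?_ (by omega)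
    intro t ht
    have h := hmul 1 h1a t ht
    rwa [mul_one] at h
  rw [hUU] at hmul hdec
  have hinv : ∀ c ∈ StA_U v (L v u₀), c⁻¹ ∈ StA_U v (L v u₀) := by
    intro c hc
    by_cases hc0 : c = 0
    · rw [hc0, inv_zero]
      exact zero_mem _
    · let f : StA_U v (L v u₀) →ₗ[ℚ] StA_U v (L v u₀) :=
        { toFun := fun t => ⟨t * c, hmul c hc t t.2⟩
          map_add' := fun a b => Subtype.ext (by
            change ((a : ℝ) + b) * c = a * c + b * c
            ring)
          map_smul' := fun q a => Subtype.ext (by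
            change (q • (a : ℝ)) * c = q • ((a : ℝ) * c)
            rw [smul_mul_assoc]) }
      have hf : Function.Injective f := by
        intro a b h
        have h1 : (a : ℝ) * c = b * c := congrArg Subtype.val h
        exact Subtype.ext (mul_right_cancel₀ hc0 h1)
      obtain ⟨t, ht⟩ := (LinearMap.injective_iff_surjective.1 hf) ⟨1, h1a⟩
      have h1 : (t : ℝ) * c = 1 := congrArg Subtype.val ht
      have h2 : c⁻¹ = t := by
        field_simp
        linarith
      rw [h2]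
      exact t.2
  let F : Subfield ℝ :=
    { carrier := StA_U v (L v u₀)
      mul_mem' := fun {a b} ha hb => hmul b hb a ha
      one_mem' := h1a
      add_mem' := fun {a b} ha hb => add_mem ha hb
      zero_mem' := zero_mem _
      neg_mem' := fun {a} ha => neg_mem ha
      inv_mem' := fun a ha => hinv a ha }
  refine ⟨F, s, hs0, hs, fun z => ?_⟩
  constructor
  · intro hz
    rw [← hsup, hUU] at hz
    obtain ⟨y, ⟨r, hr, rfl⟩, y', ⟨r', hr', rfl⟩, hy⟩ := Submodule.mem_sup.1 hz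
    exact ⟨r, hr, r', hr', hy.symm⟩
  · rintro ⟨f, hf, g, hg, rfl⟩
    exact (hdec f g).2 ⟨hf, hg⟩

end Pool.Agent.RL
end

section

/-!
# TASK RL StB: the structure of the group, or few perpendicular pairs

PROOF.  If there are no nonzero `u₀`, `w₀` with `pr v u₀ w₀ = 0` then `Zp v R = 0` for all `R`.  Otherwise take `F`, `s` from `StA`, let
`a = L v u₀`, `b = L v w₀ = s I a`, `V = span ℚ (range v) = F a + F b`.

Case 1: `s² ∈ F`.  Let `K = {f + g s I | f, g ∈ F}`.  It is a subfield of `ℂ`: closed under addition, multiplication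
(`(s I)² = -s² ∈ F`), inverses (`(f + g s I)⁻¹ = (f - g s I) / (f² + g² s²)`, the denominator is in `F` and is not `0`
unless `f = g = 0`), closed under conjugation, and contains `s I`, whose imaginary part is `s ≠ 0`.  `V = a K`: `f a + g b = a (f + g s I)`.
`finrank ℚ K = finrank ℚ V = d` (multiplication by `a ≠ 0` is a `ℚ`-linear isomorphism `K → V`; `finrank_span_eq_card` for the
linearly independent family `v`).  So `FieldStr v` with `lam = a`.

Case 2: `s² ∉ F`.  Let `u, w ∈ ℤ^d` be nonzero with `pr v u w = 0`.  Write `L v u = f a + g b`, `L v w = f' a + g' b` with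
`f, g, f', g' ∈ F`.  Then `0 = Re (conj (L u) * L w) = |a|² (f f' + s² g g')`.  If `g g' ≠ 0` then `s² = -f f' / (g g') ∈ F`, a
contradiction; so `g g' = 0` and `f f' = 0`.  If `g = 0` then `f ≠ 0` (`L_inj`), `f' = 0`: `u ∈ Mo v u₀` and `w ∈ Po v u₀`.  If `g' = 0` then
`f' ≠ 0`, `f = 0`: `u ∈ Po v u₀`, `w ∈ Mo v u₀`.  So `Cn_two` applies to the set of the pairs counted by `Zp v R`.
-/

set_option autoImplicit false

open scoped ComplexConjugate
open Finset

namespace Pool.Agent.RL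

variable {d : ℕ} {v : Fin d → ℂ}

private theorem StB_L_mem (v : Fin d → ℂ) (x : Fin d → ℤ) :
    L v x ∈ Submodule.span ℚ (Set.range v) := by
  unfold L
  refine Submodule.sum_mem _ fun i _ => ?_
  have h : ((x i : ℂ)) * v i = ((x i : ℚ)) • v i := by
    rw [Rat.smul_def]
    push_cast
    rfl
  rw [h]
  exact Submodule.smul_mem _ _ (Submodule.subset_span ⟨i, rfl⟩)

/-- The field `F + F s I`. -/
private noncomputable def StB_K (F : Subfield ℝ) (s : ℝ) (hsF : s ^ 2 ∈ F) : Subfield ℂ where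
  carrier := {z | ∃ f ∈ F, ∃ g ∈ F, z = (f : ℂ) + (g : ℂ) * (s * Complex.I)}
  mul_mem' := by
    rintro x y ⟨f, hf, g, hg, rfl⟩ ⟨f', hf', g', hg', rfl⟩
    refine ⟨f * f' - g * g' * s ^ 2, F.sub_mem (F.mul_mem hf hf') (F.mul_mem (F.mul_mem hg hg') hsF),
      f * g' + g * f', F.add_mem (F.mul_mem hf hg') (F.mul_mem hg hf'), ?_⟩
    push_cast
    linear_combination ((g : ℂ) * g' * s ^ 2) * Complex.I_sq
  one_mem' := ⟨1, F.one_mem, 0, F.zero_mem, by push_cast; ring⟩
  add_mem' := by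
    rintro x y ⟨f, hf, g, hg, rfl⟩ ⟨f', hf', g', hg', rfl⟩
    exact ⟨f + f', F.add_mem hf hf', g + g', F.add_mem hg hg', by push_cast; ring⟩
  zero_mem' := ⟨0, F.zero_mem, 0, F.zero_mem, by push_cast; ring⟩
  neg_mem' := by
    rintro x ⟨f, hf, g, hg, rfl⟩
    exact ⟨-f, F.neg_mem hf, -g, F.neg_mem hg, by push_cast; ring⟩
  inv_mem' := by
    rintro x ⟨f, hf, g, hg, rfl⟩
    by_cases h0 : f ^ 2 + g ^ 2 * s ^ 2 = 0
    · have h1 : f = 0 := by nlinarith [sq_nonneg f, sq_nonneg (g * s)]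
      have h2 : g * s = 0 := by nlinarith [sq_nonneg f, sq_nonneg (g * s)]
      refine ⟨0, F.zero_mem, 0, F.zero_mem, ?_⟩
      have h3 : (f : ℂ) + (g : ℂ) * (s * Complex.I) = 0 := by
        have h4 : (g : ℂ) * s = 0 := by exact_mod_cast h2
        rw [← mul_assoc, h4, h1]
        simp
      rw [h3]
      simp
    · have hD : f ^ 2 + g ^ 2 * s ^ 2 ∈ F :=
        F.add_mem (F.pow_mem hf 2) (F.mul_mem (F.pow_mem hg 2) hsF)
      refine ⟨f * (f ^ 2 + g ^ 2 * s ^ 2)⁻¹, F.mul_mem hf (F.inv_mem hD),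
        -g * (f ^ 2 + g ^ 2 * s ^ 2)⁻¹, F.mul_mem (F.neg_mem hg) (F.inv_mem hD), ?_⟩
      have hDC : ((f : ℂ) ^ 2 + (g : ℂ) ^ 2 * (s : ℂ) ^ 2) ≠ 0 := by exact_mod_cast h0
      have hne : (f : ℂ) + (g : ℂ) * (s * Complex.I) ≠ 0 := by
        intro h
        apply hDC
        have : ((f : ℂ) + (g : ℂ) * (s * Complex.I)) * ((f : ℂ) - (g : ℂ) * (s * Complex.I)) = 0 := by
          rw [h, zero_mul]
        linear_combination this + ((g : ℂ) ^ 2 * s ^ 2) * Complex.I_sq
      apply inv_eq_of_mul_eq_one_left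
      push_cast
      field_simp
      linear_combination (-((g : ℂ) ^ 2 * s ^ 2)) * Complex.I_sq

theorem StB (hv : LinearIndependent ℚ v)
    (hall : ∀ x : Fin d → ℤ, x ≠ 0 → d ≤ 2 * rk (Mo v x : Set (Fin d → ℤ))) :
    (∀ R, Zp v R ≤ 2 * (4 * R + 1) ^ d) ∨ FieldStr v := by
  classical
  by_cases hex : ∃ u₀ w₀ : Fin d → ℤ, u₀ ≠ 0 ∧ w₀ ≠ 0 ∧ pr v u₀ w₀ = 0
  · obtain ⟨u₀, w₀, hu, hw, hp⟩ := hex
    obtain ⟨F, s, hs, hb, hV⟩ := StA hv hall hu hw hp
    have ha : L v u₀ ≠ 0 := fun h => hu (L_inj hv h)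
    by_cases hsF : s ^ 2 ∈ F
    · right
      have hVK : ∀ z : ℂ, z ∈ Submodule.span ℚ (Set.range v) ↔
          ∃ k ∈ StB_K F s hsF, z = L v u₀ * k := by
        intro z
        rw [hV z]
        constructor
        · rintro ⟨f, hf, g, hg, rfl⟩
          refine ⟨(f : ℂ) + (g : ℂ) * (s * Complex.I), ⟨f, hf, g, hg, rfl⟩, ?_⟩
          rw [hb]
          ring
        · rintro ⟨k, ⟨f, hf, g, hg, rfl⟩, rfl⟩
          refine ⟨f, hf, g, hg, ?_⟩
          rw [hb]
          ring
      refine ⟨StB_K F s hsF, L v u₀, ha, ?_, ?_, ?_, hVK⟩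
      · rintro z ⟨f, hf, g, hg, rfl⟩
        refine ⟨f, hf, -g, F.neg_mem hg, ?_⟩
        simp only [map_add, map_mul, Complex.conj_ofReal, Complex.conj_I]
        push_cast
        ring
      · refine ⟨(s : ℂ) * Complex.I, ⟨0, F.zero_mem, 1, F.one_mem, by push_cast; ring⟩, ?_⟩
        simpa using hs
      · have hfin : Module.finrank ℚ (Submodule.span ℚ (Set.range v)) = d := by
          rw [finrank_span_eq_card hv, Fintype.card_fin]
        let φ : StB_K F s hsF →+ Submodule.span ℚ (Set.range v) :=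
          { toFun := fun k => ⟨L v u₀ * k, (hVK _).2 ⟨k, k.2, rfl⟩⟩
            map_zero' := by
              apply Subtype.ext
              simp
            map_add' := by
              intro x y
              apply Subtype.ext
              change L v u₀ * ((x : ℂ) + y) = L v u₀ * x + L v u₀ * y
              ring }
        have hφ : Function.Bijective φ := by
          constructor
          · intro x y h
            have h' : L v u₀ * (x : ℂ) = L v u₀ * y := congrArg Subtype.val h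
            exact Subtype.ext (mul_left_cancel₀ ha h')
          · rintro ⟨z, hz⟩
            obtain ⟨k, hk, rfl⟩ := (hVK z).1 hz
            exact ⟨⟨k, hk⟩, rfl⟩
        have e := LinearEquiv.ofBijective φ.toRatLinearMap hφ
        rw [← hfin]
        exact e.finrank_eq
    · left
      intro R
      apply Cn_two hv hu R
      · intro p hp'
        rw [mem_filter, mem_product] at hp'
        exact hp'.1
      · intro p hp'
        rw [mem_filter, mem_product] at hp'
        obtain ⟨_, hp1, hp2, hpr⟩ := hp'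
        obtain ⟨f, hf, g, hg, hfg⟩ := (hV _).1 (StB_L_mem v p.1)
        obtain ⟨f', hf', g', hg', hfg'⟩ := (hV _).1 (StB_L_mem v p.2)
        have hu' : L v p.1 = ((f : ℂ) + g * (s * Complex.I)) * L v u₀ := by
          rw [hfg, hb]; ring
        have hw' : L v p.2 = ((f' : ℂ) + g' * (s * Complex.I)) * L v u₀ := by
          rw [hfg', hb]; ring
        have hN : Complex.normSq (L v u₀) ≠ 0 := fun h => ha (Complex.normSq_eq_zero.1 h)
        have key : f * f' + g * g' * s ^ 2 = 0 := by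
          have h1 : pr v p.1 p.2 = (f * f' + g * g' * s ^ 2) * Complex.normSq (L v u₀) := by
            unfold pr
            rw [hu', hw']
            simp only [map_add, map_mul, Complex.conj_ofReal, Complex.conj_I]
            have h2 : (((f : ℂ) + g * (s * -Complex.I)) * conj (L v u₀)) *
                (((f' : ℂ) + g' * (s * Complex.I)) * L v u₀) =
                (((f * f' + g * g' * s ^ 2 : ℝ) : ℂ) + ((f * g' * s - g * f' * s : ℝ) : ℂ) * Complex.I) *
                  ((Complex.normSq (L v u₀) : ℝ) : ℂ) := by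
              rw [← Complex.mul_conj]
              push_cast
              linear_combination (-(g : ℂ) * g' * s ^ 2 * (L v u₀ * conj (L v u₀))) * Complex.I_sq
            rw [h2]
            simp only [Complex.mul_re, Complex.add_re, Complex.ofReal_re, Complex.ofReal_im,
              Complex.I_re, Complex.I_im, mul_zero, mul_one, sub_zero, sub_self, add_zero]
          rw [hpr] at h1
          rcases mul_eq_zero.1 h1.symm with h | h
          · exact h
          · exact absurd h hN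
        have hgg : g * g' = 0 := by
          by_contra hne
          apply hsF
          have : s ^ 2 = -(f * f') * (g * g')⁻¹ := by
            rw [eq_mul_inv_iff_mul_eq₀ hne]
            linarith
          rw [this]
          exact F.mul_mem (F.neg_mem (F.mul_mem hf hf')) (F.inv_mem (F.mul_mem hg hg'))
        have hff : f * f' = 0 := by
          rw [hgg, zero_mul, add_zero] at key
          exact key
        have hu0 : ¬ (f = 0 ∧ g = 0) := by
          rintro ⟨h1, h2⟩
          apply hp1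
          apply L_inj hv
          rw [hu', h1, h2]
          simp
        have hw0 : ¬ (f' = 0 ∧ g' = 0) := by
          rintro ⟨h1, h2⟩
          apply hp2
          apply L_inj hv
          rw [hw', h1, h2]
          simp
        rcases mul_eq_zero.1 hgg with h | h
        · left
          have hf0 : f' = 0 := by
            rcases mul_eq_zero.1 hff with h' | h'
            · exact absurd ⟨h', h⟩ hu0
            · exact h'
          refine ⟨(par_iff hv hu).2 ⟨f, ?_⟩, (perp_iff hv hu).2 ⟨g' * s, ?_⟩⟩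
          · rw [hu', h]; simp
          · rw [hw', hf0]; push_cast; ring
        · right
          have hf0 : f = 0 := by
            rcases mul_eq_zero.1 hff with h' | h'
            · exact h'
            · exact absurd ⟨h', h⟩ hw0
          refine ⟨(perp_iff hv hu).2 ⟨g * s, ?_⟩, (par_iff hv hu).2 ⟨f', ?_⟩⟩
          · rw [hu', hf0]; push_cast; ring
          · rw [hw', h]; simp
  · left
    intro R
    have h0 : Zp v R = 0 := by
      unfold Zp
      rw [card_eq_zero, filter_eq_empty_iff]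
      intro p _ hp
      exact hex ⟨p.1, p.2, hp.1, hp.2.1, hp.2.2⟩
    rw [h0]
    exact Nat.zero_le _

end Pool.Agent.RL
end
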