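import Pool.Agent.Lib.MP_6f2296_co.SD.Defs2
import Pool.Agent.Lib.MP_6f2296_co.Mg.G012
import Pool.Agent.Lib.MP_6f2296_co.Mg.G001
import Pool.Agent.Lib.MP_6f2296_co.SD.LLDefs

section

/-!
# TASK SD BasB: boxes and their volumes

PROOFS.  Membership is `mem_wB`; the first statements follow from the triangle inequality for the coordinates.
`W_le_card`, `card_le_W`: `(wB N t).card = ∏ i, (2 ⌊t N i⌋ + 1)` (`Fintype.card_piFinset`, `Int.card_Icc`; here `0 ≤ t N i`), and for `u ≥ 0`: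
`max 1 u ≤ 2 ⌊u⌋ + 1 ≤ 3 max 1 u`.  `W_scale`: `max 1 (s t N i) ≤ s * max 1 (t N i)` for `s ≥ 1`.  `W_eq`: if all `t N i ≥ 1` then every
`max 1 (t N i)` is `t N i`.  `W_ratio`: for `0 ≤ t`, `0 < t'`: `t ≤ s t'` with `s = max 1 (t/t')`, so `W N t ≤ W N (s t') ≤ s^d W N t'`.
`card_center`: the integers `x` with `|x - c| ≤ u` are at most `2 u + 1` many (they lie in `Icc ⌈c - u⌉ ⌊c + u⌋`); product over the coordinates.
-/

set_option autoImplicit false

open Finset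

namespace Pool.Agent.SD

variable {d : ℕ}

theorem zero_mem_wB {N : Fin d → ℝ} {t : ℝ} (h : ∀ i, 0 ≤ t * N i) : (0 : Fin d → ℤ) ∈ wB N t := by
  rw [mem_wB]
  intro i
  simpa using h i

theorem neg_mem_wB {N : Fin d → ℝ} {t : ℝ} {x : Fin d → ℤ} (h : x ∈ wB N t) : -x ∈ wB N t := by
  rw [mem_wB] at h ⊢
  intro i
  have := h i
  rw [Pi.neg_apply]
  push_cast
  rw [abs_neg]
  exact this

theorem add_mem_wB {N : Fin d → ℝ} {s t : ℝ} {x y : Fin d → ℤ} (hx : x ∈ wB N s) (hy : y ∈ wB N t) :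
    x + y ∈ wB N (s + t) := by
  rw [mem_wB] at hx hy ⊢
  intro i
  have h1 := hx i
  have h2 := hy i
  rw [Pi.add_apply]
  push_cast
  calc |(x i : ℝ) + (y i : ℝ)| ≤ |(x i : ℝ)| + |(y i : ℝ)| := abs_add_le _ _
    _ ≤ (s + t) * N i := by rw [add_mul]; exact add_le_add h1 h2

theorem sub_mem_wB {N : Fin d → ℝ} {s t : ℝ} {x y : Fin d → ℤ} (hx : x ∈ wB N s) (hy : y ∈ wB N t) :
    x - y ∈ wB N (s + t) := by
  rw [sub_eq_add_neg]
  exact add_mem_wB hx (neg_mem_wB hy)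

theorem smul_mem_wB {N : Fin d → ℝ} {t : ℝ} {x : Fin d → ℤ} (k : ℤ) (hx : x ∈ wB N t) :
    k • x ∈ wB N (|(k : ℝ)| * t) := by
  rw [mem_wB] at hx ⊢
  intro i
  rw [Pi.smul_apply, smul_eq_mul]
  push_cast
  rw [abs_mul, mul_assoc]
  exact mul_le_mul_of_nonneg_left (hx i) (abs_nonneg _)

theorem wB_mono {N : Fin d → ℝ} (hN : ∀ i, 0 ≤ N i) {s t : ℝ} (h : s ≤ t) : wB N s ⊆ wB N t := by
  intro x hx
  rw [mem_wB] at hx ⊢
  intro i
  exact (hx i).trans (mul_le_mul_of_nonneg_right h (hN i))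

theorem wB_smul (N : Fin d → ℝ) (s t : ℝ) : wB (fun i => s * N i) t = wB N (s * t) := by
  ext x
  rw [mem_wB, mem_wB]
  refine forall_congr' fun i => ?_
  have : t * (s * N i) = s * t * N i := by ring
  rw [this]

/-- For `t N i < 1` the coordinate `i` vanishes on the box. -/
theorem eq_zero_of_mem_wB {N : Fin d → ℝ} {t : ℝ} {x : Fin d → ℤ} (hx : x ∈ wB N t) {i : Fin d}
    (h : t * N i < 1) : x i = 0 := by
  rw [mem_wB] at hx
  have h1 := (hx i).trans_lt h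
  have h2 : |x i| < 1 := by
    have : ((|x i| : ℤ) : ℝ) < ((1 : ℤ) : ℝ) := by
      push_cast
      exact h1
    exact_mod_cast this
  exact Int.abs_lt_one_iff.mp h2

theorem one_le_W (N : Fin d → ℝ) (t : ℝ) : 1 ≤ W N t := by
  unfold W
  have h : ∀ S : Finset (Fin d), 1 ≤ ∏ i ∈ S, max 1 (t * N i) := by
    intro S
    classical
    refine Finset.induction_on S (by simp) ?_
    intro a S ha ih
    rw [Finset.prod_insert ha]
    exact one_le_mul_of_one_le_of_one_le (le_max_left _ _) ih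
  exact h _

theorem W_mono {N : Fin d → ℝ} (hN : ∀ i, 0 ≤ N i) {s t : ℝ} (h : s ≤ t) : W N s ≤ W N t := by
  unfold W
  refine Finset.prod_le_prod (fun i _ => zero_le_one.trans (le_max_left _ _)) fun i _ => ?_
  exact max_le_max le_rfl (mul_le_mul_of_nonneg_right h (hN i))

private theorem card_wB (N : Fin d → ℝ) {t : ℝ} (h : ∀ i, 0 ≤ t * N i) :
    ((wB N t).card : ℝ) = ∏ i, (2 * (⌊t * N i⌋ : ℝ) + 1) := by
  unfold wB
  rw [Fintype.card_piFinset]
  push_cast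
  refine Finset.prod_congr rfl fun i _ => ?_
  rw [Int.card_Icc]
  have h0 : 0 ≤ ⌊t * N i⌋ := Int.floor_nonneg.mpr (h i)
  have h1 : ((⌊t * N i⌋ + 1 - -⌊t * N i⌋).toNat : ℤ) = ⌊t * N i⌋ + 1 - -⌊t * N i⌋ :=
    Int.toNat_of_nonneg (by omega)
  have h2 : (((⌊t * N i⌋ + 1 - -⌊t * N i⌋).toNat : ℤ) : ℝ) = 2 * (⌊t * N i⌋ : ℝ) + 1 := by
    rw [h1]
    push_cast
    ring
  rw [← h2]
  norm_cast

theorem W_le_card {N : Fin d → ℝ} (hN : ∀ i, 0 ≤ N i) {t : ℝ} (ht : 0 ≤ t) :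
    W N t ≤ ((wB N t).card : ℝ) := by
  rw [card_wB N fun i => mul_nonneg ht (hN i)]
  unfold W
  refine Finset.prod_le_prod (fun i _ => zero_le_one.trans (le_max_left _ _)) fun i _ => ?_
  have h0 : (0 : ℝ) ≤ (⌊t * N i⌋ : ℝ) := by
    exact_mod_cast Int.floor_nonneg.mpr (mul_nonneg ht (hN i))
  have h1 := (Int.lt_floor_add_one (t * N i)).le
  exact max_le (by linarith) (by linarith)

theorem card_le_W {N : Fin d → ℝ} (hN : ∀ i, 0 ≤ N i) {t : ℝ} (ht : 0 ≤ t) :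
    ((wB N t).card : ℝ) ≤ 3 ^ d * W N t := by
  rw [card_wB N fun i => mul_nonneg ht (hN i)]
  unfold W
  have h3 : (3 : ℝ) ^ d = ∏ _i : Fin d, (3 : ℝ) := by
    rw [Finset.prod_const, Finset.card_univ, Fintype.card_fin]
  rw [h3, ← Finset.prod_mul_distrib]
  refine Finset.prod_le_prod (fun i _ => ?_) fun i _ => ?_
  · have h0 : (0 : ℝ) ≤ (⌊t * N i⌋ : ℝ) := by
      exact_mod_cast Int.floor_nonneg.mpr (mul_nonneg ht (hN i))
    linarith
  · have h1 := Int.floor_le (t * N i)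
    have h2 := le_max_left 1 (t * N i)
    have h4 := le_max_right 1 (t * N i)
    linarith

theorem W_scale {N : Fin d → ℝ} {s t : ℝ} (hs : 1 ≤ s) (hN : ∀ i, 0 ≤ N i) (ht : 0 ≤ t) :
    W N (s * t) ≤ s ^ d * W N t := by
  unfold W
  have h3 : s ^ d = ∏ _i : Fin d, s := by
    rw [Finset.prod_const, Finset.card_univ, Fintype.card_fin]
  rw [h3, ← Finset.prod_mul_distrib]
  refine Finset.prod_le_prod (fun i _ => zero_le_one.trans (le_max_left _ _)) fun i _ => ?_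
  have h1 := le_max_left 1 (t * N i)
  have h2 := le_max_right 1 (t * N i)
  have hs0 : 0 ≤ s := zero_le_one.trans hs
  refine max_le ?_ ?_
  · exact one_le_mul_of_one_le_of_one_le hs h1
  · rw [mul_assoc]
    exact mul_le_mul_of_nonneg_left h2 hs0

theorem W_ratio {N : Fin d → ℝ} (hN : ∀ i, 0 ≤ N i) {t t' : ℝ} (ht : 0 ≤ t) (ht' : 0 < t') :
    W N t ≤ (max 1 (t / t')) ^ d * W N t' := by
  refine le_trans (W_mono hN ?_) (W_scale (le_max_left _ _) hN ht'.le)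
  have h1 := le_max_right 1 (t / t')
  calc t = t / t' * t' := by field_simp
    _ ≤ max 1 (t / t') * t' := mul_le_mul_of_nonneg_right h1 ht'.le

theorem W_eq {N : Fin d → ℝ} {t : ℝ} (h : ∀ i, 1 ≤ t * N i) : W N t = t ^ d * ∏ i, N i := by
  unfold W
  have h3 : t ^ d = ∏ _i : Fin d, t := by
    rw [Finset.prod_const, Finset.card_univ, Fintype.card_fin]
  rw [h3, ← Finset.prod_mul_distrib]
  refine Finset.prod_congr rfl fun i _ => ?_
  exact max_eq_right (h i)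

/-- `#(t B) ≤ (3t)^d V` if all sides of `t B` are at least one. -/
theorem card_le_V {N : Fin d → ℝ} (hN : ∀ i, 0 ≤ N i) {t : ℝ} (ht : 0 ≤ t) (h : ∀ i, 1 ≤ t * N i) :
    ((wB N t).card : ℝ) ≤ (3 * t) ^ d * ∏ i, N i := by
  have h1 := card_le_W hN ht
  rw [W_eq h, ← mul_assoc, ← mul_pow] at h1
  exact h1

/-- The integer points of a box with an arbitrary real centre. -/
theorem card_center (N c : Fin d → ℝ) (hN : ∀ i, 0 ≤ N i) :
    ∃ T : Finset (Fin d → ℤ), (∀ x : Fin d → ℤ, (∀ i, |(x i : ℝ) - c i| ≤ N i) → x ∈ T) ∧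
      (T.card : ℝ) ≤ ∏ i, (2 * N i + 1) := by
  refine ⟨Fintype.piFinset fun i => Finset.Icc ⌈c i - N i⌉ ⌊c i + N i⌋, ?_, ?_⟩
  · intro x hx
    rw [Fintype.mem_piFinset]
    intro i
    have h1 := abs_le.mp (hx i)
    rw [Finset.mem_Icc, Int.ceil_le, Int.le_floor]
    exact ⟨by linarith [h1.1], by linarith [h1.2]⟩
  · rw [Fintype.card_piFinset]
    push_cast
    refine Finset.prod_le_prod (fun i _ => Nat.cast_nonneg _) fun i _ => ?_
    rw [Int.card_Icc]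
    have hu := hN i
    have h1 := Int.floor_le (c i + N i)
    have h2 := Int.le_ceil (c i - N i)
    rcases le_or_gt 0 (⌊c i + N i⌋ + 1 - ⌈c i - N i⌉) with h0 | h0
    · have h3 : ((⌊c i + N i⌋ + 1 - ⌈c i - N i⌉).toNat : ℤ) = ⌊c i + N i⌋ + 1 - ⌈c i - N i⌉ :=
        Int.toNat_of_nonneg h0
      have h4 : ((⌊c i + N i⌋ + 1 - ⌈c i - N i⌉).toNat : ℝ) =
          (⌊c i + N i⌋ : ℝ) + 1 - (⌈c i - N i⌉ : ℝ) := by
        have h5 : (((⌊c i + N i⌋ + 1 - ⌈c i - N i⌉).toNat : ℤ) : ℝ) =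
            (⌊c i + N i⌋ : ℝ) + 1 - (⌈c i - N i⌉ : ℝ) := by
          rw [h3]
          push_cast
          ring
        rw [← h5]
        norm_cast
      rw [h4]
      linarith
    · rw [Int.toNat_of_nonpos h0.le]
      push_cast
      linarith

theorem cM_mono {N : Fin d → ℝ} (hN : ∀ i, 0 ≤ N i) (M : Submodule ℤ (Fin d → ℤ)) {s t : ℝ} (h : s ≤ t) :
    cM N M s ≤ cM N M t := by
  unfold cM
  classical
  refine Finset.card_le_card fun x hx => ?_
  have hx' := Finset.mem_filter.mp hx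
  exact Finset.mem_filter.mpr ⟨wB_mono hN h hx'.1, hx'.2⟩

theorem one_le_cM {N : Fin d → ℝ} (M : Submodule ℤ (Fin d → ℤ)) {t : ℝ} (h : ∀ i, 0 ≤ t * N i) :
    1 ≤ cM N M t := by
  unfold cM
  classical
  exact Finset.card_pos.mpr ⟨0, Finset.mem_filter.mpr ⟨zero_mem_wB h, M.zero_mem⟩⟩

end Pool.Agent.SD
end

section

/-!
# TASK SD Bc: the excluded scales

PROOF.  `V = ∏ N i = W N 1` (`W_eq`), `n k = σ 2^k`.  Call `k` admissible if `Q^a ≤ n k` and `(n k)² ≤ V`.  For an admissible `k`: `C₁ V/(n k)² ≤ V = W N 1` (`(n k)² ≥ Q^(2a) ≥ Q ≥ C₁`, `a ≥ 1`) and `C₁ V/(n k)² ≥ C₁ ≥ 1`.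
Choice of `t k` for an admissible `k`: if `C₁ V/(n k)² ≤ W N (2^(-i))` for all `i` then take ... this is impossible unless `C₁ V/(n k)² ≤ 1` (for `2^i ≥ max N i` we have `W N (2^(-i)) = 1`), and in that case `C₁ = 1`, `(n k)² = V`; take `t k = 2^(-i)` for
such an `i`.  Otherwise let `i` be the last index with `C₁ V/(n k)² ≤ W N (2^(-i))` (`i = 0` has this property), `t k = 2^(-i)`; then `W N (t k) ≤ 2^d W N (2^(-i-1)) < 2^d C₁ V/(n k)²` (`W_scale`).  In both cases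
`C₁ V ≤ W N (t k) (n k)² ≤ 2^d C₁ V`, `0 < t k ≤ 1`.
`Bad`: (i) the `k` with `n k < Q^a`: `2^k < Q^a/σ ≤ Q^(a+1)`, so `k < (a+1) log Q/log 2 ≤ 2 (a+1) log Q`.  (ii) for every coordinate `l` the admissible `k` with `(Q^6)⁻¹ < t k N l < Q^6`: let `k < k'` be two of them.  `t k/t k' < Q^12`, so by `W_ratio`
`C₁ V/(n k)² ≤ W N (t k) ≤ Q^(12d) W N (t k') ≤ Q^(12d) 2^d C₁ V/(n k')²`, so `4^(k'-k) ≤ 2^d Q^(12 d)`, `k' - k ≤ (d + 12 d log Q/log 2)/2 ≤ 30 d log Q` (`log Q ≥ log 2 ≥ 1/2`).  A set of natural numbers with differences at most `D` has at most `D + 1`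
elements.  Only the `k ≤ K` with `4^K ≤ Q² V` matter for (ii), `Bad` is finite.  `|Bad| ≤ 2(a+1) log Q + 1 + d (30 d log Q + 1) ≤ C log Q`.
-/

set_option autoImplicit false

open Finset

namespace Pool.Agent.SD

private theorem Bc_choice {d : ℕ} {N : Fin d → ℝ} (hN : ∀ i, 1 ≤ N i) {C₁ x : ℝ} (hC : 1 ≤ C₁)
    (hx : C₁ ≤ x) (hxV : x ≤ ∏ i, N i) : ∃ t : ℝ, 0 < t ∧ t ≤ 1 ∧ C₁ * (∏ i, N i) ≤ W N t * x ∧
      W N t * x ≤ 2 ^ d * C₁ * ∏ i, N i := by
  have hN0 : ∀ i, 0 ≤ N i := fun i => zero_le_one.trans (hN i)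
  have hx0 : 0 < x := by linarith
  have hV0 : 0 < ∏ i, N i := hx0.trans_le hxV
  have h2d : (1 : ℝ) ≤ 2 ^ d := one_le_pow₀ (by norm_num)
  have hf0 : W N 1 = ∏ i, N i := by
    have h1 := W_eq (N := N) (t := 1) (fun i => by rw [one_mul]; exact hN i)
    rw [h1, one_pow, one_mul]
  by_cases hex : ∃ i : ℕ, W N ((1 / 2) ^ (i + 1)) * x < C₁ * ∏ i, N i
  · classical
    have hspec := Nat.find_spec hex
    set i := Nat.find hex with hi
    refine ⟨(1 / 2) ^ i, by positivity, pow_le_one₀ (by norm_num) (by norm_num), ?_, ?_⟩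
    · by_cases h0 : i = 0
      · rw [h0, pow_zero, hf0, mul_comm]
        exact mul_le_mul_of_nonneg_left hx hV0.le
      · have h1 := Nat.find_min hex (show i - 1 < i by omega)
        rw [not_lt] at h1
        have h2 : i - 1 + 1 = i := by omega
        rw [h2] at h1
        exact h1
    · have h1 : W N ((1 / 2 : ℝ) ^ i) ≤ 2 ^ d * W N ((1 / 2) ^ (i + 1)) := by
        have h2 := W_scale (N := N) (s := 2) (t := (1 / 2) ^ (i + 1)) (by norm_num) hN0 (by positivity)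
        have h3 : (2 : ℝ) * (1 / 2) ^ (i + 1) = (1 / 2) ^ i := by
          rw [pow_succ]
          ring
        rw [h3] at h2
        exact h2
      calc W N ((1 / 2 : ℝ) ^ i) * x ≤ (2 ^ d * W N ((1 / 2) ^ (i + 1))) * x :=
            mul_le_mul_of_nonneg_right h1 hx0.le
        _ = 2 ^ d * (W N ((1 / 2) ^ (i + 1)) * x) := by ring
        _ ≤ 2 ^ d * (C₁ * ∏ i, N i) := mul_le_mul_of_nonneg_left hspec.le (by positivity)
        _ = 2 ^ d * C₁ * ∏ i, N i := by ring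
  · push Not at hex
    obtain ⟨i, hi⟩ : ∃ i : ℕ, W N ((1 / 2 : ℝ) ^ (i + 1)) = 1 := by
      have h1 : ∃ B : ℝ, 0 < B ∧ ∀ i, N i ≤ B := by
        refine ⟨1 + ∑ i, N i, ?_, fun i => ?_⟩
        · have := Finset.sum_nonneg (fun i (_ : i ∈ (Finset.univ : Finset (Fin d))) => hN0 i)
          linarith
        · have := Finset.single_le_sum (f := N) (fun i _ => hN0 i) (mem_univ i)
          linarith
      obtain ⟨B, hB, hNB⟩ := h1
      obtain ⟨j, hj⟩ := exists_pow_lt_of_lt_one (show (0 : ℝ) < 1 / B by positivity) (show (1 / 2 : ℝ) < 1 by norm_num)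
      refine ⟨j, ?_⟩
      unfold W
      refine Finset.prod_eq_one fun i _ => max_eq_left ?_
      have h2 : (1 / 2 : ℝ) ^ (j + 1) ≤ (1 / 2) ^ j := pow_le_pow_of_le_one (by norm_num) (by norm_num) (by omega)
      calc (1 / 2 : ℝ) ^ (j + 1) * N i ≤ (1 / B) * B :=
            mul_le_mul (h2.trans hj.le) (hNB i) (hN0 i) (by positivity)
        _ = 1 := by field_simp
    refine ⟨(1 / 2) ^ (i + 1), by positivity, pow_le_one₀ (by norm_num) (by norm_num), hex i, ?_⟩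
    rw [hi, one_mul]
    calc x ≤ ∏ i, N i := hxV
      _ = 1 * 1 * ∏ i, N i := by ring
      _ ≤ 2 ^ d * C₁ * ∏ i, N i := by
        refine mul_le_mul_of_nonneg_right ?_ hV0.le
        exact mul_le_mul h2d hC (by norm_num) (by positivity)

private theorem Bc_card {S : Finset ℕ} {D : ℝ} (hD : 0 ≤ D)
    (h : ∀ k ∈ S, ∀ k' ∈ S, k < k' → ((k' : ℝ) - k) ≤ D) : (S.card : ℝ) ≤ D + 1 := by
  rcases S.eq_empty_or_nonempty with rfl | hne
  · simp only [Finset.card_empty, Nat.cast_zero]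
    linarith
  have h1 : S ⊆ Finset.Icc (S.min' hne) (S.min' hne + ⌊D⌋₊) := by
    intro k hk
    rw [Finset.mem_Icc]
    have h2 := S.min'_le k hk
    refine ⟨h2, ?_⟩
    rcases h2.eq_or_lt with h3 | h3
    · omega
    · have h4 := h _ (S.min'_mem hne) k hk h3
      have h5 : k - S.min' hne ≤ ⌊D⌋₊ := by
        refine Nat.le_floor ?_
        rw [Nat.cast_sub h2]
        exact h4
      omega
  have h2 := Finset.card_le_card h1
  rw [Nat.card_Icc] at h2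
  have h3 : S.card ≤ ⌊D⌋₊ + 1 := by omega
  have h4 : (S.card : ℝ) ≤ (⌊D⌋₊ : ℝ) + 1 := by exact_mod_cast h3
  have h5 := Nat.floor_le hD
  linarith

theorem scales (d a : ℕ) (ha : 1 ≤ a) : ∃ C : ℝ, 1 ≤ C ∧ ∀ (N : Fin d → ℝ) (σ Q C₁ : ℝ),
    (∀ i, 1 ≤ N i) → 2 ≤ Q → Q⁻¹ ≤ σ → σ ≤ 1 → 1 ≤ C₁ → C₁ ≤ Q →
    ∃ Bad : Finset ℕ, (Bad.card : ℝ) ≤ C * Real.log Q ∧ ∀ k, k ∉ Bad → (σ * 2 ^ k) ^ 2 ≤ ∏ i, N i →
      Q ^ a ≤ σ * 2 ^ k ∧ ∃ t : ℝ, 0 < t ∧ t ≤ 1 ∧ C₁ * (∏ i, N i) ≤ W N t * (σ * 2 ^ k) ^ 2 ∧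
        W N t * (σ * 2 ^ k) ^ 2 ≤ 2 ^ d * C₁ * ∏ i, N i ∧
        ∀ i, t * N i ≤ (Q ^ 6)⁻¹ ∨ Q ^ 6 ≤ t * N i := by
  classical
  refine ⟨2 * (a + 1) + 2 + 13 * d ^ 2 + 2 * d, ?_, ?_⟩
  · have h1 : (0 : ℝ) ≤ (a : ℝ) := Nat.cast_nonneg a
    have h2 : (0 : ℝ) ≤ (d : ℝ) := Nat.cast_nonneg d
    nlinarith
  intro N σ Q C₁ hN hQ hσ hσ1 hC1 hCQ
  have hN0 : ∀ i, 0 ≤ N i := fun i => zero_le_one.trans (hN i)
  have hQ0 : 0 < Q := by linarith
  have hσ0 : 0 < σ := (inv_pos.2 hQ0).trans_le hσ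
  have hV1 : 1 ≤ ∏ i, N i := by
    have h1 : (∏ _i : Fin d, (1 : ℝ)) ≤ ∏ i, N i :=
      Finset.prod_le_prod (fun _ _ => zero_le_one) (fun i _ => hN i)
    rwa [Finset.prod_const_one] at h1
  set V := ∏ i, N i with hV
  have hV0 : 0 < V := by linarith
  have hlog2 : Real.log 2 ≤ Real.log Q := Real.log_le_log (by norm_num) hQ
  have hl2 : (0.6931471803 : ℝ) < Real.log 2 := Real.log_two_gt_d9
  have hlQ : 1 / 2 ≤ Real.log Q := by linarith
  have hlQ0 : 0 < Real.log Q := by linarith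
  have hch : ∀ k : ℕ, Q ^ a ≤ σ * 2 ^ k → (σ * 2 ^ k) ^ 2 ≤ V → ∃ t : ℝ, 0 < t ∧ t ≤ 1 ∧
      C₁ * V ≤ W N t * (σ * 2 ^ k) ^ 2 ∧ W N t * (σ * 2 ^ k) ^ 2 ≤ 2 ^ d * C₁ * V := by
    intro k h1 h2
    refine Bc_choice hN hC1 ?_ h2
    have h3 : Q ≤ Q ^ a := le_self_pow₀ (by linarith) (by omega)
    have h4 : Q ≤ σ * 2 ^ k := h3.trans h1
    nlinarith
  choose! t ht using hch
  set K : Finset ℕ := Finset.range (⌈(a + 1) * Real.log Q / Real.log 2⌉₊) with hK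
  have hfinV : {k : ℕ | (σ * 2 ^ k) ^ 2 ≤ V}.Finite := by
    obtain ⟨n, hn⟩ := pow_unbounded_of_one_lt (V / σ ^ 2) (show (1 : ℝ) < 4 by norm_num)
    refine (Finset.range n).finite_toSet.subset fun k hk => ?_
    rw [Finset.coe_range, Set.mem_Iio]
    by_contra hkn
    rw [not_lt] at hkn
    have hk' : (σ * 2 ^ k) ^ 2 ≤ V := hk
    have h1 : (4 : ℝ) ^ n ≤ 4 ^ k := pow_le_pow_right₀ (by norm_num) hkn
    have h2 : (σ * 2 ^ k) ^ 2 = σ ^ 2 * 4 ^ k := by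
      rw [mul_pow, ← pow_mul, mul_comm k 2, pow_mul]
      norm_num
    rw [h2] at hk'
    rw [div_lt_iff₀ (by positivity)] at hn
    nlinarith [sq_nonneg σ, pow_pos hσ0 2]
  set Bd : Fin d → Finset ℕ := fun i => hfinV.toFinset.filter fun k =>
    Q ^ a ≤ σ * 2 ^ k ∧ (Q ^ 6)⁻¹ < t k * N i ∧ t k * N i < Q ^ 6 with hBd
  refine ⟨K ∪ Finset.univ.biUnion Bd, ?_, ?_⟩
  · have hcK : (K.card : ℝ) ≤ 2 * (a + 1) * Real.log Q + 1 := by
      rw [hK, Finset.card_range]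
      refine (Nat.ceil_lt_add_one (by positivity)).le.trans ?_
      have h1 : (a + 1) * Real.log Q / Real.log 2 ≤ 2 * (a + 1) * Real.log Q := by
        rw [div_le_iff₀ (by linarith)]
        have h2 : 0 ≤ (a + 1) * Real.log Q := by positivity
        nlinarith
      linarith
    have hcB : ∀ i, ((Bd i).card : ℝ) ≤ 13 * d * Real.log Q + 1 := by
      intro i
      refine Bc_card (by positivity) ?_
      intro k hk k' hk' hlt
      rw [hBd, mem_filter, Set.Finite.mem_toFinset] at hk hk'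
      obtain ⟨hkV, hka, hk1, hk2⟩ := hk
      obtain ⟨hkV', hka', hk1', hk2'⟩ := hk'
      obtain ⟨ht0, ht1, htl, htu⟩ := ht k hka hkV
      obtain ⟨ht0', ht1', htl', htu'⟩ := ht k' hka' hkV'
      have hNi : 0 < N i := zero_lt_one.trans_le (hN i)
      have hratio : t k / t k' ≤ Q ^ 12 := by
        rw [div_le_iff₀ ht0']
        have h1 : 1 < Q ^ 6 * (t k' * N i) := by
          rw [inv_lt_iff_one_lt_mul₀ (by positivity)] at hk1'
          linarith
        have h2 : t k * N i ≤ Q ^ 12 * t k' * N i := by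
          calc t k * N i ≤ Q ^ 6 * 1 := by linarith
            _ ≤ Q ^ 6 * (Q ^ 6 * (t k' * N i)) := mul_le_mul_of_nonneg_left h1.le (by positivity)
            _ = Q ^ 12 * t k' * N i := by ring
        exact le_of_mul_le_mul_right h2 hNi
      have hW := W_ratio hN0 ht0.le ht0'
      have hmax : (max 1 (t k / t k')) ^ d ≤ (Q ^ 12) ^ d := by
        refine pow_le_pow_left₀ (by positivity) (max_le ?_ hratio) d
        exact one_le_pow₀ (by linarith)
      have hW0 : 0 ≤ W N (t k') := zero_le_one.trans (one_le_W N _)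
      have hpow : (σ * 2 ^ k') ^ 2 = (σ * 2 ^ k) ^ 2 * 4 ^ (k' - k) := by
        have h1 : k' = k + (k' - k) := by omega
        have h2 : (2 : ℝ) ^ k' = 2 ^ k * 2 ^ (k' - k) := by rw [← pow_add, ← h1]
        have h3 : (4 : ℝ) ^ (k' - k) = (2 ^ (k' - k)) ^ 2 := by
          rw [← pow_mul, mul_comm, pow_mul]
          norm_num
        rw [h2, h3]
        ring
      have hmain : C₁ * V * 4 ^ (k' - k) ≤ (C₁ * V) * ((Q ^ 12) ^ d * 2 ^ d) := by
        calc C₁ * V * 4 ^ (k' - k) ≤ W N (t k) * (σ * 2 ^ k) ^ 2 * 4 ^ (k' - k) :=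
              mul_le_mul_of_nonneg_right htl (by positivity)
          _ ≤ ((Q ^ 12) ^ d * W N (t k')) * (σ * 2 ^ k) ^ 2 * 4 ^ (k' - k) := by
              refine mul_le_mul_of_nonneg_right (mul_le_mul_of_nonneg_right ?_ (by positivity)) (by positivity)
              exact hW.trans (mul_le_mul_of_nonneg_right hmax hW0)
          _ = (Q ^ 12) ^ d * (W N (t k') * (σ * 2 ^ k') ^ 2) := by rw [hpow]; ring
          _ ≤ (Q ^ 12) ^ d * (2 ^ d * C₁ * V) := mul_le_mul_of_nonneg_left htu' (by positivity)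
          _ = (C₁ * V) * ((Q ^ 12) ^ d * 2 ^ d) := by ring
      have h4 : (4 : ℝ) ^ (k' - k) ≤ (Q ^ 12) ^ d * 2 ^ d :=
        le_of_mul_le_mul_left hmain (by positivity)
      have h5 := Real.log_le_log (by positivity) h4
      rw [Real.log_mul (by positivity) (by positivity), Real.log_pow, Real.log_pow, Real.log_pow,
        Real.log_pow] at h5
      have h6 : Real.log 4 = 2 * Real.log 2 := by
        rw [show (4 : ℝ) = 2 ^ 2 by norm_num, Real.log_pow]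
        norm_num
      rw [h6, Nat.cast_sub hlt.le] at h5
      have h7 : 0 ≤ (k' : ℝ) - k := by
        have : (k : ℝ) ≤ k' := by exact_mod_cast hlt.le
        linarith
      have h8 : ((k' : ℝ) - k) * 1 ≤ ((k' : ℝ) - k) * (2 * Real.log 2) :=
        mul_le_mul_of_nonneg_left (by linarith) h7
      have h9 : (d : ℝ) * Real.log 2 ≤ d * Real.log Q :=
        mul_le_mul_of_nonneg_left hlog2 (Nat.cast_nonneg d)
      push_cast at h5
      nlinarith
    have h1 : ((K ∪ Finset.univ.biUnion Bd).card : ℝ) ≤ K.card + ∑ i, ((Bd i).card : ℝ) := by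
      have h2 := (Finset.card_union_le K (Finset.univ.biUnion Bd)).trans
        (Nat.add_le_add_left (Finset.card_biUnion_le (s := Finset.univ) (t := Bd)) K.card)
      exact_mod_cast h2
    have h3 : ∑ i, ((Bd i).card : ℝ) ≤ d * (13 * d * Real.log Q + 1) := by
      refine (Finset.sum_le_sum fun i _ => hcB i).trans ?_
      rw [Finset.sum_const, Finset.card_univ, Fintype.card_fin, nsmul_eq_mul]
    have h4 : (d : ℝ) * 1 ≤ d * (2 * Real.log Q) :=
      mul_le_mul_of_nonneg_left (by linarith) (Nat.cast_nonneg d)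
    nlinarith
  · intro k hk hkV
    rw [Finset.mem_union, not_or] at hk
    have hka : Q ^ a ≤ σ * 2 ^ k := by
      by_contra hcon
      rw [not_le] at hcon
      apply hk.1
      rw [hK, Finset.mem_range, Nat.lt_ceil, lt_div_iff₀ (by linarith)]
      have h1 : (2 : ℝ) ^ k < Q ^ (a + 1) := by
        have h2 : 1 ≤ Q * σ := by
          have h3 := mul_le_mul_of_nonneg_left hσ hQ0.le
          rwa [mul_inv_cancel₀ hQ0.ne'] at h3
        calc (2 : ℝ) ^ k = 1 * 2 ^ k := by ring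
          _ ≤ (Q * σ) * 2 ^ k := mul_le_mul_of_nonneg_right h2 (by positivity)
          _ = Q * (σ * 2 ^ k) := by ring
          _ < Q * Q ^ a := mul_lt_mul_of_pos_left hcon hQ0
          _ = Q ^ (a + 1) := by rw [pow_succ]; ring
      have h2 := Real.log_lt_log (by positivity) h1
      rw [Real.log_pow, Real.log_pow] at h2
      push_cast at h2
      exact h2
    obtain ⟨ht0, ht1, htl, htu⟩ := ht k hka hkV
    refine ⟨hka, t k, ht0, ht1, htl, htu, fun i => ?_⟩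
    by_contra hcon
    push Not at hcon
    apply hk.2
    rw [Finset.mem_biUnion]
    refine ⟨i, mem_univ i, ?_⟩
    rw [hBd, mem_filter, Set.Finite.mem_toFinset]
    exact ⟨hkV, hka, hcon.1, hcon.2⟩

end Pool.Agent.SD
end

section

/-!
# TASK SD BasC: counting in submodules, ranks

PROOFS.  `cnt_res`: the ball of `(bN N hN).res M` of radius `t` is mapped bijectively by the inclusion onto
`(wB N t).filter (· ∈ M)` (`LNorm.mem_ball`, `bN_le`/`ball_bN`).  `Gm_le`, `mem_Gm`: `Submodule.span_le`, `Submodule.subset_span`.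
`cnt_Gm`: a vector of `wB N 1` lies in `Gm L N θ` iff it lies in `Mt L θ` (`Gm ≤ Mt`, and the generators).
`span_ball_Gm`: the span inside `↥Γ` of the generators is `⊤` (`Submodule.span_span_coe_preimage` or: map the span by the injective
inclusion, `Submodule.map_span`).
`rk_eq`: `rk M = finrank ℤ M` for a submodule `M` of `ℤ^d`: take a `ℤ`-basis `b` of `M` (`Module.Free.chooseBasis` / `Module.finBasis`); `toQ (b i)` are
linearly independent over `ℚ` (clear denominators; `LinearIndependent.iff_fractionRing` or `LinearIndependent.of_fractionRing`...) and span the `ℚ`-span of `toQ '' M`.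
`finrank_add_le`: `M ⊓ M' = ⊥` inside `E`: `finrank M + finrank M' = finrank (M ⊔ M') ≤ finrank E` (the map `M × M' → E`, `(x, y) ↦ x + y`, is injective;
`LinearMap.finrank_le_finrank_of_injective`, `Module.finrank_prod`).  `finrank_Ej`: `Ej d j` is isomorphic to `ℤ^j` for `j ≤ d`; only `≤` is needed: the restriction to the
coordinates `< j` is injective on `Ej d j`.
`finrank_ge`: `s` linearly independent vectors of `M` give `s ≤ finrank M` (`LinearIndependent.fintype_card_le_finrank`).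
`exists_mul_mem`: if `finrank E ≤ finrank M + finrank M'`, `M, M' ≤ E`, `M ⊓ M' = ⊥`, then for every `z ∈ E` some positive multiple `n z` is `g + g'` with `g ∈ M`,
`g' ∈ M'`: otherwise `z` together with bases of `M` and `M'` would be `finrank M + finrank M' + 1` linearly independent vectors of `E`
(or: the quotient `E / (M ⊔ M')` has rank `0`, so it is torsion: `Submodule.finrank_quotient...`, `Module.finrank_eq_zero_iff_isTorsion`).
-/

set_option autoImplicit false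

open Finset

namespace Pool.Agent.SD

variable {d : ℕ}

/-- The inclusion of the integer vectors as a linear map. -/
private noncomputable def BasC_toQ (d : ℕ) : (Fin d → ℤ) →ₗ[ℤ] (Fin d → ℚ) where
  toFun := RL.toQ
  map_add' x y := by
    funext i
    simp [RL.toQ]
  map_smul' n x := by
    funext i
    simp [RL.toQ]

private theorem BasC_toQ_inj (d : ℕ) : Function.Injective (BasC_toQ d) := by
  intro x y h
  funext i
  have h1 := congrFun h i
  simpa [BasC_toQ, RL.toQ] using h1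

theorem cnt_res {N : Fin d → ℝ} (hN : ∀ i, 0 < N i) (M : Submodule ℤ (Fin d → ℤ)) {t : ℝ} (ht : 0 ≤ t) :
    ((bN N hN).res M).cnt t = cM N M t := by
  classical
  unfold LNorm.cnt cM
  refine Finset.card_bij (fun x _ => (x : Fin d → ℤ)) ?_ ?_ ?_
  · intro x hx
    have h0 : ((bN N hN).res M) x ≤ t := LNorm.mem_ball.mp hx
    have h1 : (bN N hN) (x : Fin d → ℤ) ≤ t := h0
    rw [Finset.mem_filter, mem_wB]
    exact ⟨(bN_le ht).mp h1, x.2⟩
  · intro x _ y _ h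
    exact Subtype.ext h
  · intro y hy
    rw [Finset.mem_filter, mem_wB] at hy
    refine ⟨⟨y, hy.2⟩, LNorm.mem_ball.mpr ?_, rfl⟩
    change (bN N hN) y ≤ t
    exact (bN_le ht).mpr hy.1

theorem Gm_le (L : (Fin d → ℤ) →+ ℂ) (N : Fin d → ℝ) (θ : ℂ) : Gm L N θ ≤ Mt L θ := by
  unfold Gm
  rw [Submodule.span_le]
  intro x hx
  exact hx.2

theorem mem_Gm {L : (Fin d → ℤ) →+ ℂ} {N : Fin d → ℝ} {θ : ℂ} {x : Fin d → ℤ} (h1 : x ∈ wB N 1)
    (h2 : x ∈ Mt L θ) : x ∈ Gm L N θ := by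
  unfold Gm
  exact Submodule.subset_span ⟨h1, h2⟩

theorem cM_Gm (L : (Fin d → ℤ) →+ ℂ) (N : Fin d → ℝ) (θ : ℂ) : cM N (Gm L N θ) 1 = cM N (Mt L θ) 1 := by
  classical
  unfold cM
  congr 1
  refine Finset.filter_congr fun x hx => ?_
  exact ⟨fun h => Gm_le L N θ h, fun h => mem_Gm hx h⟩

theorem span_ball_Gm (L : (Fin d → ℤ) →+ ℂ) (N : Fin d → ℝ) (hN : ∀ i, 0 < N i) (θ : ℂ) :
    Submodule.span ℤ ((((bN N hN).res (Gm L N θ)).ball 1 : Finset _) : Set (Gm L N θ)) = ⊤ := by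
  have h1 : ((((bN N hN).res (Gm L N θ)).ball 1 : Finset _) : Set (Gm L N θ)) =
      ((↑) : Gm L N θ → (Fin d → ℤ)) ⁻¹' {x | x ∈ wB N 1 ∧ x ∈ Mt L θ} := by
    ext x
    rw [Finset.mem_coe, LNorm.mem_ball]
    change (bN N hN) (x : Fin d → ℤ) ≤ 1 ↔ (x : Fin d → ℤ) ∈ wB N 1 ∧ (x : Fin d → ℤ) ∈ Mt L θ
    rw [bN_le zero_le_one, mem_wB]
    exact ⟨fun h => ⟨h, Gm_le L N θ x.2⟩, fun h => h.1⟩
  rw [h1]
  exact Submodule.span_span_coe_preimage

theorem rk_eq (M : Submodule ℤ (Fin d → ℤ)) :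
    RL.rk (M : Set (Fin d → ℤ)) = Module.finrank ℤ M := by
  classical
  set b := Module.finBasis ℤ M with hb
  have hli : LinearIndependent ℚ (fun i => RL.toQ ((b i : M) : Fin d → ℤ)) := by
    rw [← LinearIndependent.iff_fractionRing ℤ ℚ]
    have h1 : LinearIndependent ℤ ((BasC_toQ d).comp M.subtype ∘ b) :=
      b.linearIndependent.map' _ (LinearMap.ker_eq_bot.mpr
        ((BasC_toQ_inj d).comp M.injective_subtype))
    exact h1
  have hsp : Submodule.span ℚ (RL.toQ '' (M : Set (Fin d → ℤ))) =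
      Submodule.span ℚ (Set.range (fun i => RL.toQ ((b i : M) : Fin d → ℤ))) := by
    refine le_antisymm (Submodule.span_le.mpr ?_) (Submodule.span_mono ?_)
    · rintro _ ⟨x, hx, rfl⟩
      have h2 : x = ((∑ i, b.repr ⟨x, hx⟩ i • b i : M) : Fin d → ℤ) := by
        rw [b.sum_repr]
      have h3 : RL.toQ x = ∑ i, b.repr ⟨x, hx⟩ i • RL.toQ ((b i : M) : Fin d → ℤ) := by
        have h4 : (BasC_toQ d) x = (BasC_toQ d)
            ((∑ i, b.repr ⟨x, hx⟩ i • b i : M) : Fin d → ℤ) := congrArg _ h2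
        rw [Submodule.coe_sum, map_sum] at h4
        simp only [Submodule.coe_smul, map_smul] at h4
        exact h4
      rw [h3]
      refine Submodule.sum_mem _ fun i _ => ?_
      rw [← Int.cast_smul_eq_zsmul ℚ]
      exact Submodule.smul_mem _ _ (Submodule.subset_span ⟨i, rfl⟩)
    · rintro _ ⟨i, rfl⟩
      exact ⟨_, (b i).2, rfl⟩
  unfold RL.rk
  rw [hsp, finrank_span_eq_card hli, Fintype.card_fin]

theorem finrank_add_le {E M M' : Submodule ℤ (Fin d → ℤ)} (h1 : M ≤ E) (h2 : M' ≤ E)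
    (h : ∀ x, x ∈ M → x ∈ M' → x = 0) :
    Module.finrank ℤ M + Module.finrank ℤ M' ≤ Module.finrank ℤ E := by
  have hf : Function.Injective ((Submodule.inclusion h1).coprod (Submodule.inclusion h2)) := by
    rw [← LinearMap.ker_eq_bot, LinearMap.ker_eq_bot']
    rintro ⟨g, g'⟩ hg
    have h3 : ((g : M) : Fin d → ℤ) + ((g' : M') : Fin d → ℤ) = 0 := by
      have h4 := congrArg (fun e : E => (e : Fin d → ℤ)) hg
      exact h4
    have h5 : ((g : M) : Fin d → ℤ) = 0 := by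
      refine h _ g.2 ?_
      rw [eq_neg_of_add_eq_zero_left h3]
      exact M'.neg_mem g'.2
    have h6 : ((g' : M') : Fin d → ℤ) = 0 := by
      rw [h5, zero_add] at h3
      exact h3
    exact Prod.ext (Subtype.ext h5) (Subtype.ext h6)
  have h7 := LinearMap.finrank_le_finrank_of_injective hf
  rwa [Module.finrank_prod] at h7

theorem finrank_Ej_le {j : ℕ} (hj : j ≤ d) : Module.finrank ℤ (Ej d j) ≤ j := by
  let f : Ej d j →ₗ[ℤ] (Fin j → ℤ) :=
    (LinearMap.funLeft ℤ ℤ (Fin.castLE hj)).comp (Ej d j).subtype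
  have hf : Function.Injective f := by
    rw [← LinearMap.ker_eq_bot, LinearMap.ker_eq_bot']
    intro x hx
    refine Subtype.ext (funext fun l => ?_)
    by_cases hl : (l : ℕ) < j
    · exact congrFun hx ⟨l, hl⟩
    · exact mem_Ej.mp x.2 l (not_lt.mp hl)
  have h7 := LinearMap.finrank_le_finrank_of_injective hf
  rwa [Module.finrank_fin_fun] at h7

theorem finrank_ge {M : Submodule ℤ (Fin d → ℤ)} {s : ℕ} (u : Fin s → (Fin d → ℤ))
    (hu : LinearIndependent ℤ u) (hM : ∀ k, u k ∈ M) : s ≤ Module.finrank ℤ M := by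
  have h1 : LinearIndependent ℤ (fun k => (⟨u k, hM k⟩ : M)) :=
    LinearIndependent.of_comp M.subtype hu
  have h2 := h1.fintype_card_le_finrank
  rwa [Fintype.card_fin] at h2

theorem exists_mul_mem {E M M' : Submodule ℤ (Fin d → ℤ)} (h1 : M ≤ E) (h2 : M' ≤ E)
    (h : ∀ x, x ∈ M → x ∈ M' → x = 0)
    (hr : Module.finrank ℤ E ≤ Module.finrank ℤ M + Module.finrank ℤ M') {z : Fin d → ℤ} (hz : z ∈ E) :
    ∃ n : ℤ, n ≠ 0 ∧ ∃ g ∈ M, ∃ g' ∈ M', n • z = g + g' := by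
  let f : ((M × M') × ℤ) →ₗ[ℤ] E :=
    ((Submodule.inclusion h1).coprod (Submodule.inclusion h2)).coprod
      (LinearMap.toSpanSingleton ℤ E ⟨z, hz⟩)
  have hf : ¬ Function.Injective f := by
    intro hf
    have h7 := LinearMap.finrank_le_finrank_of_injective hf
    rw [Module.finrank_prod, Module.finrank_prod, Module.finrank_self] at h7
    omega
  rw [← LinearMap.ker_eq_bot, LinearMap.ker_eq_bot'] at hf
  push Not at hf
  obtain ⟨⟨⟨g, g'⟩, n⟩, h3, h4⟩ := hf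
  have h5 : ((g : M) : Fin d → ℤ) + ((g' : M') : Fin d → ℤ) + n • z = 0 :=
    congrArg (fun e : E => (e : Fin d → ℤ)) h3
  refine ⟨n, ?_, -((g : M) : Fin d → ℤ), M.neg_mem g.2, -((g' : M') : Fin d → ℤ),
    M'.neg_mem g'.2, ?_⟩
  · rintro rfl
    apply h4
    rw [zero_smul, add_zero] at h5
    have h6 : ((g : M) : Fin d → ℤ) = 0 := by
      refine h _ g.2 ?_
      rw [eq_neg_of_add_eq_zero_left h5]
      exact M'.neg_mem g'.2
    have h7 : ((g' : M') : Fin d → ℤ) = 0 := by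
      rw [h6, zero_add] at h5
      exact h5
    exact Prod.ext (Prod.ext (Subtype.ext h6) (Subtype.ext h7)) rfl
  · rw [eq_neg_of_add_eq_zero_right h5, neg_add]

end Pool.Agent.SD
end

section

/-!
# TASK SD NLa: growth of balls in lattices

Use `exists_red`, `Red.cnt_le`, `le_cnt` (file `SD/Red.lean`).  Let `C` be the constant of `exists_red r` and `b` the reduced basis, `β i = ν (b i) > 0`, `r' = max 1 r`.

PROOF of `cnt_upper`.  For `0 < s ≤ t` and `a > 0`: `max 1 (t/a) ≤ (t/s) max 1 (s/a)`.  So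
`cnt t ≤ (3C)^r ∏ max 1 (t/β i) ≤ (3C)^r (t/s)^r ∏ max 1 (s/β i) ≤ (3 C r' (t/s))^r cnt s`.

PROOF of `cnt_lower`.  Every `β i ≤ C`: since the ball of radius `1` spans, some `x` with `ν x ≤ 1` has `b.repr x i ≠ 0` (otherwise the span of the ball is contained in
the kernel of the coordinate function `b.coord i`, which is not everything), and then `β i ≤ |x_i| β i ≤ C ν x ≤ C`.  So for `R ≥ 1`, with `C ≥ 1`:
`cnt 1 ≤ (3C)^r ∏ max 1 (1/β i)`, and `max 1 (1/β i) ≤ C/β i`, `R/β i ≤ max 1 (R/β i)`, so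
`R^r cnt 1 ≤ (3C)^r C^r ∏ (R/β i) ≤ (3 C² r')^r cnt R`.
-/

set_option autoImplicit false

open Finset

namespace Pool.Agent.SD

theorem cnt_upper (r : ℕ) : ∃ C : ℝ, 1 ≤ C ∧ ∀ (Λ : Type) [AddCommGroup Λ] [Module.Free ℤ Λ]
    [Module.Finite ℤ Λ] (ν : LNorm Λ), Module.finrank ℤ Λ = r → ∀ s t : ℝ, 0 < s → s ≤ t →
    (ν.cnt t : ℝ) ≤ (C * (t / s)) ^ r * ν.cnt s := by
  obtain ⟨C, hC, H⟩ := exists_red r
  have hR1 : (1 : ℝ) ≤ max 1 (r : ℝ) := le_max_left _ _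
  refine ⟨3 * C * max 1 (r : ℝ), by nlinarith, ?_⟩
  intro Λ _ _ _ ν hr s t hs hst
  obtain ⟨b, hb⟩ := H Λ ν hr
  have hpos : ∀ i, 0 < ν (b i) := fun i => ν.pos _ (b.ne_zero i)
  have ht : 0 < t := lt_of_lt_of_le hs hst
  have h1 := hb.cnt_le hC ht.le
  have h2 := le_cnt (ν := ν) b hs.le
  have hts : 1 ≤ t / s := by rwa [one_le_div hs]
  have h3 : ∏ i, max 1 (t / ν (b i)) ≤ ∏ i : Fin r, (t / s) * max 1 (s / ν (b i)) := by
    refine prod_le_prod (fun i _ => le_trans zero_le_one (le_max_left _ _)) fun i _ => ?_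
    refine max_le ?_ ?_
    · have : (1 : ℝ) ≤ max 1 (s / ν (b i)) := le_max_left _ _
      nlinarith
    · have h4 : s / ν (b i) ≤ max 1 (s / ν (b i)) := le_max_right _ _
      calc t / ν (b i) = (t / s) * (s / ν (b i)) := by
            field_simp
        _ ≤ (t / s) * max 1 (s / ν (b i)) := mul_le_mul_of_nonneg_left h4 (by linarith)
  rw [prod_mul_distrib, prod_const, card_univ, Fintype.card_fin] at h3
  have hts0 : 0 ≤ (t / s) ^ r := by positivity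
  have hC0 : 0 ≤ (3 * C) ^ r := by positivity
  calc (ν.cnt t : ℝ) ≤ (3 * C) ^ r * ∏ i, max 1 (t / ν (b i)) := h1
    _ ≤ (3 * C) ^ r * ((t / s) ^ r * ∏ i, max 1 (s / ν (b i))) :=
        mul_le_mul_of_nonneg_left h3 hC0
    _ ≤ (3 * C) ^ r * ((t / s) ^ r * ((max 1 (r : ℝ)) ^ r * ν.cnt s)) :=
        mul_le_mul_of_nonneg_left (mul_le_mul_of_nonneg_left h2 hts0) hC0
    _ = (3 * C * max 1 (r : ℝ) * (t / s)) ^ r * ν.cnt s := by
        rw [mul_pow, mul_pow, mul_pow]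
        ring

theorem cnt_lower (r : ℕ) : ∃ C : ℝ, 1 ≤ C ∧ ∀ (Λ : Type) [AddCommGroup Λ] [Module.Free ℤ Λ]
    [Module.Finite ℤ Λ] (ν : LNorm Λ), Module.finrank ℤ Λ = r →
    Submodule.span ℤ ((ν.ball 1 : Finset Λ) : Set Λ) = ⊤ → ∀ R : ℝ, 1 ≤ R →
    R ^ r * (ν.cnt 1 : ℝ) ≤ C * ν.cnt R := by
  obtain ⟨C, hC, H⟩ := exists_red r
  have hR1 : (1 : ℝ) ≤ max 1 (r : ℝ) := le_max_left _ _
  refine ⟨(3 * C) ^ r * C ^ r * (max 1 (r : ℝ)) ^ r, ?_, ?_⟩
  · have e1 : (1 : ℝ) ≤ (3 * C) ^ r := one_le_pow₀ (by linarith)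
    have e2 : (1 : ℝ) ≤ C ^ r := one_le_pow₀ hC
    have e3 : (1 : ℝ) ≤ (max 1 (r : ℝ)) ^ r := one_le_pow₀ hR1
    have e4 : (1 : ℝ) ≤ (3 * C) ^ r * C ^ r := one_le_mul_of_one_le_of_one_le e1 e2
    exact one_le_mul_of_one_le_of_one_le e4 e3
  intro Λ _ _ _ ν hr hspan R hR
  obtain ⟨b, hb⟩ := H Λ ν hr
  have hpos : ∀ i, 0 < ν (b i) := fun i => ν.pos _ (b.ne_zero i)
  have hβ : ∀ i, ν (b i) ≤ C := by
    intro i
    by_contra hcon
    push Not at hcon
    have hall : ∀ x ∈ ((ν.ball 1 : Finset Λ) : Set Λ), b.coord i x = 0 := by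
      intro x hx
      have hx1 := LNorm.mem_ball.mp (mem_coe.mp hx)
      rw [Module.Basis.coord_apply]
      by_contra hne
      have h1 : (1 : ℝ) ≤ |(b.repr x i : ℝ)| := by
        rw [← Int.cast_abs]
        exact_mod_cast Int.one_le_abs hne
      have h2 := hb.2 x i
      have h3 : C * ν x ≤ C * 1 := mul_le_mul_of_nonneg_left hx1 (by linarith)
      have h4 : 1 * ν (b i) ≤ |(b.repr x i : ℝ)| * ν (b i) :=
        mul_le_mul_of_nonneg_right h1 (hpos i).le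
      linarith
    have hle : (⊤ : Submodule ℤ Λ) ≤ LinearMap.ker (b.coord i) := by
      rw [← hspan, Submodule.span_le]
      intro x hx
      exact LinearMap.mem_ker.mpr (hall x hx)
    have h5 := LinearMap.mem_ker.mp (hle (Submodule.mem_top (x := b i)))
    rw [Module.Basis.coord_apply, Module.Basis.repr_self, Finsupp.single_eq_same] at h5
    exact one_ne_zero h5
  have h1 := hb.cnt_le hC (t := 1) zero_le_one
  have h2 := le_cnt (ν := ν) b (t := R) (by linarith)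
  have h3 : R ^ r * ∏ i, max 1 (1 / ν (b i)) ≤ C ^ r * ∏ i, max 1 (R / ν (b i)) := by
    have e1 : R ^ r * ∏ i, max 1 (1 / ν (b i)) = ∏ i : Fin r, R * max 1 (1 / ν (b i)) := by
      rw [prod_mul_distrib, prod_const, card_univ, Fintype.card_fin]
    have e2 : C ^ r * ∏ i, max 1 (R / ν (b i)) = ∏ i : Fin r, C * max 1 (R / ν (b i)) := by
      rw [prod_mul_distrib, prod_const, card_univ, Fintype.card_fin]
    rw [e1, e2]
    refine prod_le_prod (fun i _ => ?_) fun i _ => ?_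
    · have : (1 : ℝ) ≤ max 1 (1 / ν (b i)) := le_max_left _ _
      nlinarith
    · have h4 : max 1 (1 / ν (b i)) ≤ C / ν (b i) := by
        refine max_le ?_ ?_
        · rw [one_le_div (hpos i)]
          exact hβ i
        · exact div_le_div_of_nonneg_right hC (hpos i).le
      have h5 : R / ν (b i) ≤ max 1 (R / ν (b i)) := le_max_right _ _
      calc R * max 1 (1 / ν (b i)) ≤ R * (C / ν (b i)) :=
            mul_le_mul_of_nonneg_left h4 (by linarith)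
        _ = C * (R / ν (b i)) := by ring
        _ ≤ C * max 1 (R / ν (b i)) := mul_le_mul_of_nonneg_left h5 (by linarith)
  have hC0 : 0 ≤ (3 * C) ^ r := by positivity
  have hCr : 0 ≤ C ^ r := by positivity
  have hR0 : 0 ≤ R ^ r := by positivity
  calc R ^ r * (ν.cnt 1 : ℝ) ≤ R ^ r * ((3 * C) ^ r * ∏ i, max 1 (1 / ν (b i))) :=
        mul_le_mul_of_nonneg_left h1 hR0
    _ = (3 * C) ^ r * (R ^ r * ∏ i, max 1 (1 / ν (b i))) := by ring
    _ ≤ (3 * C) ^ r * (C ^ r * ∏ i, max 1 (R / ν (b i))) := mul_le_mul_of_nonneg_left h3 hC0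
    _ ≤ (3 * C) ^ r * (C ^ r * ((max 1 (r : ℝ)) ^ r * ν.cnt R)) :=
        mul_le_mul_of_nonneg_left (mul_le_mul_of_nonneg_left h2 hCr) hC0
    _ = (3 * C) ^ r * C ^ r * (max 1 (r : ℝ)) ^ r * ν.cnt R := by ring

end Pool.Agent.SD
end

section

/-!
# TASK SD D1: directions of small rank

PROOF.  Let `Γ = Gm L N θ`, `r = finrank Γ`, so `r ≤ d` and `2 r + 1 ≤ d`; `C₁ ≥ 1` a constant for which `cnt_upper r` holds for all `r ≤ d` (the sum of the constants for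
`r ≤ d`; enlarging the constant is harmless).  For the norm `(bN N hN).res Γ` (`cnt_res`, `cM_Gm`): `ν ≤ cM N Γ 1 ≤ (C₁/τ)^r cM N Γ τ`.  So
`cM N Γ τ ≥ C₁^(-r) τ^r ν ≥ C₁^(-d) (√τ)^(d-1) ν =: u` (`τ ≤ 1`, `2 r ≤ d - 1`; `τ^r = (√τ)^(2r)`).  If `4 C₁^d ≤ ν τ^d` then `u ≥ 4`.  Let `S θ` be the image under `L` of
`(wB N τ).filter (· ∈ Γ)`.  `L` is injective on `wB N 1 ⊇ wB N τ` by the hypothesis on the kernel, so `|S θ| = cM N Γ τ ≥ u`; all elements are parallel to `θ` (`Gm_le`) and `S θ = -S θ`.  All sums lie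
in `W = image L (wB N (2τ))`, `|W| ≤ |wB N (2τ)| ≤ (6τ)^d V` (`card_le_V`; `2 τ N i ≥ 1`), `V = ∏ N i`.  By `SL`
`|Θ| ≤ 2 + 16 (6τ)^d V C₁^(2d) / (τ^(d-1) ν²) = 2 + 16 * 6^d C₁^(2d) τ V/ν²` (`u² = C₁^(-2d) τ^(d-1) ν²`).  (`Θ` empty or `d = 0`: trivial, `2 * finrank < 0` is impossible.)
-/

set_option autoImplicit false

open scoped ComplexConjugate
open Finset

namespace Pool.Agent.SD

private theorem D1_aux {d : ℕ} (C₁ : ℝ) (hC1 : 1 ≤ C₁)
    (hC : ∀ r ≤ d, ∀ (Λ : Type) [AddCommGroup Λ] [Module.Free ℤ Λ]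
      [Module.Finite ℤ Λ] (ν : LNorm Λ), Module.finrank ℤ Λ = r → ∀ s t : ℝ, 0 < s → s ≤ t →
      (ν.cnt t : ℝ) ≤ (C₁ * (t / s)) ^ r * ν.cnt s)
    (L : (Fin d → ℤ) →+ ℂ) (N : Fin d → ℝ) (τ ν : ℝ) (hτ : 0 < τ) (hτ1 : τ ≤ 1) (hν : 0 < ν)
    (hN : ∀ i, 0 < N i) (θ : ℂ) (h1 : ν ≤ (cM N (Mt L θ) 1 : ℝ))
    (h2 : 2 * Module.finrank ℤ (Gm L N θ) < d) :
    (Real.sqrt τ) ^ (d - 1) * ν / C₁ ^ d ≤ (cM N (Gm L N θ) τ : ℝ) := by
  set r := Module.finrank ℤ (Gm L N θ) with hr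
  have h3 := hC r (by omega) (Gm L N θ) ((bN N hN).res (Gm L N θ)) rfl τ 1 hτ hτ1
  rw [cnt_res hN _ zero_le_one, cnt_res hN _ hτ.le] at h3
  rw [← cM_Gm] at h1
  have hs0 : 0 < Real.sqrt τ := Real.sqrt_pos.mpr hτ
  have hs1 : Real.sqrt τ ≤ 1 := by
    rw [show (1 : ℝ) = Real.sqrt 1 by simp]
    exact Real.sqrt_le_sqrt hτ1
  have hC0 : 0 < C₁ := by linarith
  have h4 : ν ≤ (C₁ * (1 / τ)) ^ r * (cM N (Gm L N θ) τ : ℝ) := h1.trans h3
  have h5 : (C₁ * (1 / τ)) ^ r = C₁ ^ r / τ ^ r := by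
    rw [mul_one_div, div_pow]
  rw [h5] at h4
  have h6 : ν * τ ^ r ≤ C₁ ^ r * (cM N (Gm L N θ) τ : ℝ) := by
    have hp : 0 < τ ^ r := pow_pos hτ r
    rw [div_mul_eq_mul_div, le_div_iff₀ hp] at h4
    exact h4
  have h7 : (Real.sqrt τ) ^ (d - 1) ≤ τ ^ r := by
    have h8 : τ ^ r = (Real.sqrt τ) ^ (2 * r) := by
      rw [pow_mul, Real.sq_sqrt hτ.le]
    rw [h8]
    exact pow_le_pow_of_le_one hs0.le hs1 (by omega)
  have h9 : C₁ ^ r ≤ C₁ ^ d := pow_le_pow_right₀ hC1 (by omega)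
  rw [div_le_iff₀ (pow_pos hC0 d)]
  have h10 : (0 : ℝ) ≤ (cM N (Gm L N θ) τ : ℝ) := Nat.cast_nonneg _
  calc (Real.sqrt τ) ^ (d - 1) * ν ≤ τ ^ r * ν := mul_le_mul_of_nonneg_right h7 hν.le
    _ = ν * τ ^ r := mul_comm _ _
    _ ≤ C₁ ^ r * (cM N (Gm L N θ) τ : ℝ) := h6
    _ ≤ C₁ ^ d * (cM N (Gm L N θ) τ : ℝ) := mul_le_mul_of_nonneg_right h9 h10
    _ = (cM N (Gm L N θ) τ : ℝ) * C₁ ^ d := mul_comm _ _

open Classical in
private theorem D1_main {d : ℕ} (C₁ : ℝ) (hC1 : 1 ≤ C₁)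
    (hC : ∀ r ≤ d, ∀ (Λ : Type) [AddCommGroup Λ] [Module.Free ℤ Λ]
      [Module.Finite ℤ Λ] (ν : LNorm Λ), Module.finrank ℤ Λ = r → ∀ s t : ℝ, 0 < s → s ≤ t →
      (ν.cnt t : ℝ) ≤ (C₁ * (t / s)) ^ r * ν.cnt s)
    (L : (Fin d → ℤ) →+ ℂ) (N : Fin d → ℝ) (τ ν : ℝ) (Θ : Finset ℂ) (hτ : 0 < τ) (hτ1 : τ ≤ 1)
    (hτN : ∀ i, 1 ≤ τ * N i) (hker : ∀ x ∈ wB N 2, L x = 0 → x = 0) (hD : Dirs Θ)
    (hbig : 4 * C₁ ^ d ≤ ν * τ ^ d) (h1 : ∀ θ ∈ Θ, ν ≤ (cM N (Mt L θ) 1 : ℝ))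
    (h2 : ∀ θ ∈ Θ, 2 * Module.finrank ℤ (Gm L N θ) < d) (hd : 1 ≤ d) :
    (Θ.card : ℝ) ≤ 2 + 16 * 6 ^ d * C₁ ^ (2 * d) * τ * (∏ i, N i) / ν ^ 2 := by
  have hN : ∀ i, 0 < N i := fun i => by
    have h := hτN i
    by_contra hcon
    have h0 : N i ≤ 0 := not_lt.mp hcon
    have : τ * N i ≤ 0 := mul_nonpos_of_nonneg_of_nonpos hτ.le h0
    linarith
  have hC0 : 0 < C₁ := by linarith
  have hCd : 0 < C₁ ^ d := pow_pos hC0 d
  have hτd : 0 < τ ^ d := pow_pos hτ d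
  have hν : 0 < ν := by
    by_contra hcon
    have h0 : ν ≤ 0 := not_lt.mp hcon
    have : ν * τ ^ d ≤ 0 := mul_nonpos_of_nonpos_of_nonneg h0 hτd.le
    linarith
  have hs0 : 0 < Real.sqrt τ := Real.sqrt_pos.mpr hτ
  have hs1 : Real.sqrt τ ≤ 1 := by
    rw [show (1 : ℝ) = Real.sqrt 1 by simp]
    exact Real.sqrt_le_sqrt hτ1
  set u : ℝ := (Real.sqrt τ) ^ (d - 1) * ν / C₁ ^ d with hu
  have hu4 : 4 ≤ u := by
    rw [hu, le_div_iff₀ hCd]
    refine hbig.trans ?_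
    rw [mul_comm ν]
    refine mul_le_mul_of_nonneg_right ?_ hν.le
    have h8 : τ ^ d = (Real.sqrt τ) ^ (2 * d) := by
      rw [pow_mul, Real.sq_sqrt hτ.le]
    rw [h8]
    exact pow_le_pow_of_le_one hs0.le hs1 (by omega)
  set S : ℂ → Finset ℂ := fun θ => ((wB N τ).filter (· ∈ Gm L N θ)).image L with hS
  have hmono : ∀ x, x ∈ wB N τ → x ∈ wB N 1 := fun x hx => wB_mono (fun i => (hN i).le) hτ1 hx
  have hinj : ∀ x ∈ wB N τ, ∀ y ∈ wB N τ, L x = L y → x = y := fun x hx y hy hxy => by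
    have h3 : x - y ∈ wB N (1 + 1) := sub_mem_wB (hmono x hx) (hmono y hy)
    rw [one_add_one_eq_two] at h3
    have h4 := hker (x - y) h3 (by rw [map_sub, hxy, sub_self])
    exact sub_eq_zero.mp h4
  have hScard : ∀ θ ∈ Θ, u ≤ ((S θ).card : ℝ) := fun θ hθ => by
    have h3 := D1_aux C₁ hC1 hC L N τ ν hτ hτ1 hν hN θ (h1 θ hθ) (h2 θ hθ)
    have h4 : (S θ).card = cM N (Gm L N θ) τ := by
      unfold cM
      rw [hS]
      apply Finset.card_image_of_injOn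
      intro x hx y hy hxy
      rw [Finset.mem_coe, Finset.mem_filter] at hx hy
      exact hinj x hx.1 y hy.1 hxy
    rw [h4]
    exact h3
  have hpar : ∀ θ ∈ Θ, ∀ s ∈ S θ, par θ s := fun θ _ s hs => by
    rw [hS, Finset.mem_image] at hs
    obtain ⟨x, hx, rfl⟩ := hs
    rw [Finset.mem_filter] at hx
    exact Gm_le L N θ hx.2
  have hneg : ∀ θ ∈ Θ, ∀ s ∈ S θ, -s ∈ S θ := fun θ _ s hs => by
    rw [hS, Finset.mem_image] at hs ⊢
    obtain ⟨x, hx, rfl⟩ := hs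
    rw [Finset.mem_filter] at hx
    refine ⟨-x, ?_, map_neg L x⟩
    rw [Finset.mem_filter]
    exact ⟨neg_mem_wB hx.1, Submodule.neg_mem _ hx.2⟩
  have hsum : ∀ θ ∈ Θ, ∀ θ' ∈ Θ, θ ≠ θ' → ∀ s ∈ S θ, ∀ s' ∈ S θ',
      s + s' ∈ (wB N (2 * τ)).image L := fun θ _ θ' _ _ s hs s' hs' => by
    rw [hS, Finset.mem_image] at hs hs'
    obtain ⟨x, hx, rfl⟩ := hs
    obtain ⟨y, hy, rfl⟩ := hs'
    rw [Finset.mem_filter] at hx hy
    rw [Finset.mem_image]
    refine ⟨x + y, ?_, map_add L x y⟩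
    rw [two_mul]
    exact add_mem_wB hx.1 hy.1
  have hSL := SL hD S hpar hneg ((wB N (2 * τ)).image L) hsum hu4 hScard
  have hWc : (((wB N (2 * τ)).image L).card : ℝ) ≤ (3 * (2 * τ)) ^ d * ∏ i, N i := by
    have h3 : ((wB N (2 * τ)).image L).card ≤ (wB N (2 * τ)).card := Finset.card_image_le
    have h4 : (((wB N (2 * τ)).image L).card : ℝ) ≤ ((wB N (2 * τ)).card : ℝ) := by
      exact_mod_cast h3
    refine h4.trans (card_le_V (fun i => (hN i).le) (by positivity) fun i => ?_)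
    have h5 := hτN i
    have h6 : 2 * τ * N i = 2 * (τ * N i) := by ring
    rw [h6]
    linarith
  have hu0 : 0 < u := by linarith
  have hV : 0 < ∏ i, N i := Finset.prod_pos fun i _ => hN i
  refine hSL.trans ?_
  have hu2 : u ^ 2 = τ ^ (d - 1) * ν ^ 2 / C₁ ^ (2 * d) := by
    rw [hu, div_pow, mul_pow, ← pow_mul, ← pow_mul, mul_comm (d - 1) 2, pow_mul, Real.sq_sqrt hτ.le,
      mul_comm d 2]
  have hfin : 16 * (((wB N (2 * τ)).image L).card : ℝ) / u ^ 2 ≤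
      16 * 6 ^ d * C₁ ^ (2 * d) * τ * (∏ i, N i) / ν ^ 2 := by
    have hu2pos : 0 < u ^ 2 := pow_pos hu0 2
    calc 16 * (((wB N (2 * τ)).image L).card : ℝ) / u ^ 2
        ≤ 16 * ((3 * (2 * τ)) ^ d * ∏ i, N i) / u ^ 2 := by
          apply div_le_div_of_nonneg_right _ hu2pos.le
          linarith
      _ = 16 * 6 ^ d * C₁ ^ (2 * d) * τ * (∏ i, N i) / ν ^ 2 := by
          rw [hu2]
          have h3 : (3 * (2 * τ)) ^ d = 6 ^ d * (τ ^ (d - 1) * τ) := by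
            rw [← pow_succ, Nat.sub_add_cancel hd, ← mul_pow]
            congr 1
            ring
          rw [h3]
          have h4 : τ ^ (d - 1) ≠ 0 := (pow_pos hτ _).ne'
          have h5 : C₁ ^ (2 * d) ≠ 0 := (pow_pos hC0 _).ne'
          have h6 : ν ≠ 0 := hν.ne'
          field_simp
  linarith

theorem D1 (d : ℕ) : ∃ C : ℝ, 1 ≤ C ∧ ∀ (L : (Fin d → ℤ) →+ ℂ) (N : Fin d → ℝ) (τ ν : ℝ) (Θ : Finset ℂ),
    0 < τ → τ ≤ 1 → (∀ i, 1 ≤ τ * N i) → (∀ x ∈ wB N 2, L x = 0 → x = 0) → Dirs Θ →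
    C ≤ ν * τ ^ d → (∀ θ ∈ Θ, ν ≤ (cM N (Mt L θ) 1 : ℝ)) →
    (∀ θ ∈ Θ, 2 * Module.finrank ℤ (Gm L N θ) < d) →
    (Θ.card : ℝ) ≤ 2 + C * τ * (∏ i, N i) / ν ^ 2 := by
  choose Cr hCr1 hCr using fun r => cnt_upper r
  set C₁ : ℝ := ∑ r ∈ Finset.range (d + 1), Cr r with hC1def
  have hle : ∀ r ≤ d, Cr r ≤ C₁ := fun r hr => by
    rw [hC1def]
    exact Finset.single_le_sum (f := Cr) (fun i _ => by linarith [hCr1 i])
      (Finset.mem_range.mpr (by omega))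
  have hC1 : 1 ≤ C₁ := (hCr1 0).trans (hle 0 (Nat.zero_le _))
  have hC0 : 0 < C₁ := by linarith
  have hC : ∀ r ≤ d, ∀ (Λ : Type) [AddCommGroup Λ] [Module.Free ℤ Λ]
      [Module.Finite ℤ Λ] (ν : LNorm Λ), Module.finrank ℤ Λ = r → ∀ s t : ℝ, 0 < s → s ≤ t →
      (ν.cnt t : ℝ) ≤ (C₁ * (t / s)) ^ r * ν.cnt s := by
    intro r hr Λ _ _ _ ν hrk s t hs hst
    refine (hCr r Λ ν hrk s t hs hst).trans ?_
    apply mul_le_mul_of_nonneg_right _ (Nat.cast_nonneg _)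
    have ht : 0 ≤ t / s := div_nonneg (hs.le.trans hst) hs.le
    have hCr0 : 0 ≤ Cr r := by linarith [hCr1 r]
    exact pow_le_pow_left₀ (mul_nonneg hCr0 ht) (mul_le_mul_of_nonneg_right (hle r hr) ht) r
  have h4 : (1 : ℝ) ≤ C₁ ^ d := one_le_pow₀ hC1
  have h5 : (0 : ℝ) ≤ 16 * 6 ^ d * C₁ ^ (2 * d) := by positivity
  refine ⟨4 * C₁ ^ d + 16 * 6 ^ d * C₁ ^ (2 * d), by linarith, ?_⟩
  intro L N τ ν Θ hτ hτ1 hτN hker hD hbig h1 h2
  have hN : ∀ i, 0 < N i := fun i => by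
    have h := hτN i
    by_contra hcon
    have h0 : N i ≤ 0 := not_lt.mp hcon
    have : τ * N i ≤ 0 := mul_nonpos_of_nonneg_of_nonpos hτ.le h0
    linarith
  have hV : 0 < ∏ i, N i := Finset.prod_pos fun i _ => hN i
  have hq : 0 ≤ τ * (∏ i, N i) / ν ^ 2 := div_nonneg (mul_nonneg hτ.le hV.le) (sq_nonneg _)
  rcases Θ.eq_empty_or_nonempty with hΘ | ⟨θ₀, hθ₀⟩
  · rw [hΘ, Finset.card_empty, Nat.cast_zero]
    have h6 : 0 ≤ (4 * C₁ ^ d + 16 * 6 ^ d * C₁ ^ (2 * d)) * (τ * (∏ i, N i) / ν ^ 2) :=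
      mul_nonneg (by linarith) hq
    have h7 : (4 * C₁ ^ d + 16 * 6 ^ d * C₁ ^ (2 * d)) * τ * (∏ i, N i) / ν ^ 2 =
        (4 * C₁ ^ d + 16 * 6 ^ d * C₁ ^ (2 * d)) * (τ * (∏ i, N i) / ν ^ 2) := by ring
    rw [h7]
    linarith
  · have hd : 1 ≤ d := by
      have := h2 θ₀ hθ₀
      omega
    have h6 := D1_main C₁ hC1 hC L N τ ν Θ hτ hτ1 hτN hker hD (by linarith) h1 h2 hd
    refine h6.trans ?_
    have h7 : (4 * C₁ ^ d + 16 * 6 ^ d * C₁ ^ (2 * d)) * τ * (∏ i, N i) / ν ^ 2 =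
        16 * 6 ^ d * C₁ ^ (2 * d) * τ * (∏ i, N i) / ν ^ 2 +
          4 * C₁ ^ d * (τ * (∏ i, N i) / ν ^ 2) := by ring
    rw [h7]
    have h8 : 0 ≤ 4 * C₁ ^ d * (τ * (∏ i, N i) / ν ^ 2) := mul_nonneg (by linarith) hq
    linarith

end Pool.Agent.SD
end

section

/-!
# TASK SD D2a: directions without short kernel vectors

PROOF.  Let `Γ = Gm L N θ`, `r = finrank Γ ≤ d`, `d ≤ 2 r`, and `C₁` a constant for which `cnt_lower r` holds for all `r ≤ d`.  By `cnt_lower` for `(bN N hN).res Γ`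
(`span_ball_Gm`, `cnt_res`, `cM_Gm`): `R^r ν ≤ R^r cM N Γ 1 ≤ C₁ cM N Γ R`, so `cM N Γ R ≥ (√R)^d ν / C₁ =: u` (`R ≥ 1`, `2 r ≥ d`), and `u ≥ ν / C₁ ≥ 4`.  Let `S θ` be the image under `L` of
`(wB N R).filter (· ∈ Γ)`: if `L x = L y` for two such vectors then `x - y ∈ Γ ∩ wB N (2R)` and `L (x - y) = 0`, so `x = y` by the hypothesis.  So `|S θ| ≥ u`, `S θ = -S θ`,
parallel to `θ`.  The sums lie in `W = image L (wB N (2R))`.  Let `κ` be the number of `x ∈ wB N (2R)` with `L x = 0`.  `κ |W| ≤ |wB N (4R)|`: for every `w ∈ W` choose `x_w ∈ wB N (2R)` with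
`L x_w = w`; the vectors `x_w + y` (`w ∈ W`, `y` in the kernel, `y ∈ wB N (2R)`) are pairwise distinct and lie in `wB N (4R)`.  So `κ |W| ≤ (12 R)^d V` (`card_le_V`, `4 R N i ≥ 1`).
By `SL`: `(|Θ| - 2) κ ≤ 16 κ |W| / u² ≤ 16 * (12 R)^d V C₁² / (R^d ν²) = 16 * 12^d C₁² V/ν²`.
-/

set_option autoImplicit false

open scoped ComplexConjugate
open Finset

namespace Pool.Agent.SD

private theorem D2a_aux {d : ℕ} (C₁ : ℝ) (hC1 : 1 ≤ C₁)
    (hC : ∀ r ≤ d, ∀ (Λ : Type) [AddCommGroup Λ] [Module.Free ℤ Λ]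
      [Module.Finite ℤ Λ] (ν : LNorm Λ), Module.finrank ℤ Λ = r →
      Submodule.span ℤ ((ν.ball 1 : Finset Λ) : Set Λ) = ⊤ → ∀ R : ℝ, 1 ≤ R →
      R ^ r * (ν.cnt 1 : ℝ) ≤ C₁ * ν.cnt R)
    (L : (Fin d → ℤ) →+ ℂ) (N : Fin d → ℝ) (R ν : ℝ) (hR : 1 ≤ R) (hν : 0 ≤ ν)
    (hN : ∀ i, 0 < N i) (θ : ℂ) (h1 : ν ≤ (cM N (Mt L θ) 1 : ℝ))
    (h2 : d ≤ 2 * Module.finrank ℤ (Gm L N θ)) :
    (Real.sqrt R) ^ d * ν / C₁ ≤ (cM N (Gm L N θ) R : ℝ) := by
  have hR0 : 0 ≤ R := by linarith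
  have hrd : Module.finrank ℤ (Gm L N θ) ≤ d := by
    have h1 := Submodule.finrank_le (Gm L N θ)
    rw [Module.finrank_fin_fun] at h1
    exact h1
  have h3 := hC (Module.finrank ℤ (Gm L N θ)) hrd (Gm L N θ) ((bN N hN).res (Gm L N θ)) rfl
    (span_ball_Gm L N hN θ) R hR
  rw [cnt_res hN _ zero_le_one, cnt_res hN _ hR0, cM_Gm] at h3
  set r := Module.finrank ℤ (Gm L N θ) with hr
  have hs1 : 1 ≤ Real.sqrt R := by
    rw [show (1 : ℝ) = Real.sqrt 1 by simp]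
    exact Real.sqrt_le_sqrt hR
  have hC0 : 0 < C₁ := by linarith
  have h7 : (Real.sqrt R) ^ d ≤ R ^ r := by
    have h8 : R ^ r = (Real.sqrt R) ^ (2 * r) := by
      rw [pow_mul, Real.sq_sqrt hR0]
    rw [h8]
    exact pow_le_pow_right₀ hs1 h2
  rw [div_le_iff₀ hC0]
  have hRr : 0 ≤ R ^ r := by positivity
  calc (Real.sqrt R) ^ d * ν ≤ R ^ r * ν := mul_le_mul_of_nonneg_right h7 hν
    _ ≤ R ^ r * (cM N (Mt L θ) 1 : ℝ) := mul_le_mul_of_nonneg_left h1 hRr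
    _ ≤ C₁ * (cM N (Gm L N θ) R : ℝ) := h3
    _ = (cM N (Gm L N θ) R : ℝ) * C₁ := mul_comm _ _

open Classical in
private theorem D2a_ker {d : ℕ} (L : (Fin d → ℤ) →+ ℂ) (N : Fin d → ℝ) (R : ℝ) :
    ((wB N (2 * R)).image L).card * ((wB N (2 * R)).filter fun x => L x = 0).card ≤
      (wB N (4 * R)).card := by
  have hch : ∀ w ∈ (wB N (2 * R)).image L, ∃ x ∈ wB N (2 * R), L x = w := fun w hw => by
    obtain ⟨x, hx, hxw⟩ := Finset.mem_image.mp hw
    exact ⟨x, hx, hxw⟩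
  choose! f hf hLf using hch
  rw [← Finset.card_product]
  refine Finset.card_le_card_of_injOn (fun p => f p.1 + p.2) ?_ ?_
  · intro p hp
    rw [Finset.mem_coe, Finset.mem_product, Finset.mem_filter] at hp
    have h1 := add_mem_wB (hf p.1 hp.1) hp.2.1
    rw [Finset.mem_coe]
    have h2 : 2 * R + 2 * R = 4 * R := by ring
    rw [h2] at h1
    exact h1
  · intro p hp q hq hpq
    rw [Finset.mem_coe, Finset.mem_product, Finset.mem_filter] at hp hq
    have hpq' : f p.1 + p.2 = f q.1 + q.2 := hpq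
    have h1 := congrArg L hpq'
    rw [map_add, map_add, hp.2.2, hq.2.2, add_zero, add_zero, hLf p.1 hp.1, hLf q.1 hq.1] at h1
    have h2 : p.2 = q.2 := by
      rw [h1] at hpq'
      exact add_left_cancel hpq'
    exact Prod.ext h1 h2

open Classical in
theorem D2a (d : ℕ) : ∃ C : ℝ, 1 ≤ C ∧ ∀ (L : (Fin d → ℤ) →+ ℂ) (N : Fin d → ℝ) (R ν : ℝ) (Θ : Finset ℂ),
    1 ≤ R → (∀ i, 1 ≤ N i) → Dirs Θ → C ≤ ν → (∀ θ ∈ Θ, ν ≤ (cM N (Mt L θ) 1 : ℝ)) →
    (∀ θ ∈ Θ, d ≤ 2 * Module.finrank ℤ (Gm L N θ)) →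
    (∀ θ ∈ Θ, ∀ x ∈ Gm L N θ, x ∈ wB N (2 * R) → L x = 0 → x = 0) →
    ((Θ.card : ℝ) - 2) * (((wB N (2 * R)).filter fun x => L x = 0).card : ℝ) ≤
      C * (∏ i, N i) / ν ^ 2 := by
  choose Cr hCr1 hCr using fun r => cnt_lower r
  set C₁ : ℝ := ∑ r ∈ Finset.range (d + 1), Cr r with hC1def
  have hle : ∀ r ≤ d, Cr r ≤ C₁ := fun r hr => by
    rw [hC1def]
    exact Finset.single_le_sum (f := Cr) (fun i _ => by linarith [hCr1 i])
      (Finset.mem_range.mpr (by omega))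
  have hC1 : 1 ≤ C₁ := (hCr1 0).trans (hle 0 (Nat.zero_le _))
  have hC0 : 0 < C₁ := by linarith
  have hC : ∀ r ≤ d, ∀ (Λ : Type) [AddCommGroup Λ] [Module.Free ℤ Λ]
      [Module.Finite ℤ Λ] (ν : LNorm Λ), Module.finrank ℤ Λ = r →
      Submodule.span ℤ ((ν.ball 1 : Finset Λ) : Set Λ) = ⊤ → ∀ R : ℝ, 1 ≤ R →
      R ^ r * (ν.cnt 1 : ℝ) ≤ C₁ * ν.cnt R := by
    intro r hr Λ _ _ _ ν hrk hsp R hR
    refine (hCr r Λ ν hrk hsp R hR).trans ?_
    exact mul_le_mul_of_nonneg_right (hle r hr) (Nat.cast_nonneg _)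
  clear_value C₁
  have h12 : (1 : ℝ) ≤ 12 ^ d := one_le_pow₀ (by norm_num)
  have hCsq : (1 : ℝ) ≤ C₁ ^ 2 := one_le_pow₀ hC1
  have hbig : (4 : ℝ) * C₁ ≤ 16 * 12 ^ d * C₁ ^ 2 := by nlinarith
  refine ⟨16 * 12 ^ d * C₁ ^ 2, by nlinarith, ?_⟩
  intro L N R ν Θ hR hN1 hD hν h1 h2 hker
  have hN : ∀ i, 0 < N i := fun i => lt_of_lt_of_le one_pos (hN1 i)
  have hν4 : 4 * C₁ ≤ ν := hbig.trans hν
  have hν0 : 0 < ν := by linarith
  have hR0 : 0 < R := by linarith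
  have hs1 : 1 ≤ Real.sqrt R := by
    rw [show (1 : ℝ) = Real.sqrt 1 by simp]
    exact Real.sqrt_le_sqrt hR
  set u : ℝ := (Real.sqrt R) ^ d * ν / C₁ with hu
  have hu4 : 4 ≤ u := by
    rw [hu, le_div_iff₀ hC0]
    have h3 : (1 : ℝ) ≤ (Real.sqrt R) ^ d := one_le_pow₀ hs1
    nlinarith
  set S : ℂ → Finset ℂ := fun θ => ((wB N R).filter (· ∈ Gm L N θ)).image L with hS
  have hScard : ∀ θ ∈ Θ, u ≤ ((S θ).card : ℝ) := fun θ hθ => by
    have h3 := D2a_aux C₁ hC1 hC L N R ν hR hν0.le hN θ (h1 θ hθ) (h2 θ hθ)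
    have h4 : (S θ).card = cM N (Gm L N θ) R := by
      unfold cM
      rw [hS]
      apply Finset.card_image_of_injOn
      intro x hx y hy hxy
      rw [Finset.mem_coe, Finset.mem_filter] at hx hy
      have h5 : x - y ∈ wB N (R + R) := sub_mem_wB hx.1 hy.1
      rw [← two_mul] at h5
      have h6 := hker θ hθ (x - y) (Submodule.sub_mem _ hx.2 hy.2) h5
        (by rw [map_sub, hxy, sub_self])
      exact sub_eq_zero.mp h6
    rw [h4]
    exact h3
  have hpar : ∀ θ ∈ Θ, ∀ s ∈ S θ, par θ s := fun θ _ s hs => by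
    rw [hS, Finset.mem_image] at hs
    obtain ⟨x, hx, rfl⟩ := hs
    rw [Finset.mem_filter] at hx
    exact Gm_le L N θ hx.2
  have hneg : ∀ θ ∈ Θ, ∀ s ∈ S θ, -s ∈ S θ := fun θ _ s hs => by
    rw [hS, Finset.mem_image] at hs ⊢
    obtain ⟨x, hx, rfl⟩ := hs
    rw [Finset.mem_filter] at hx
    refine ⟨-x, ?_, map_neg L x⟩
    rw [Finset.mem_filter]
    exact ⟨neg_mem_wB hx.1, Submodule.neg_mem _ hx.2⟩
  have hsum : ∀ θ ∈ Θ, ∀ θ' ∈ Θ, θ ≠ θ' → ∀ s ∈ S θ, ∀ s' ∈ S θ',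
      s + s' ∈ (wB N (2 * R)).image L := fun θ _ θ' _ _ s hs s' hs' => by
    rw [hS, Finset.mem_image] at hs hs'
    obtain ⟨x, hx, rfl⟩ := hs
    obtain ⟨y, hy, rfl⟩ := hs'
    rw [Finset.mem_filter] at hx hy
    rw [Finset.mem_image]
    refine ⟨x + y, ?_, map_add L x y⟩
    rw [two_mul]
    exact add_mem_wB hx.1 hy.1
  have hSL := SL hD S hpar hneg ((wB N (2 * R)).image L) hsum hu4 hScard
  set κ : ℝ := (((wB N (2 * R)).filter fun x => L x = 0).card : ℝ) with hκ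
  have hκ0 : 0 ≤ κ := Nat.cast_nonneg _
  have hWκ : (((wB N (2 * R)).image L).card : ℝ) * κ ≤ (12 * R) ^ d * ∏ i, N i := by
    have h3 := D2a_ker L N R
    have h4 : (((wB N (2 * R)).image L).card : ℝ) * κ ≤ ((wB N (4 * R)).card : ℝ) := by
      rw [hκ]
      exact_mod_cast h3
    have h5 := card_le_V (N := N) (t := 4 * R) (fun i => (hN i).le) (by positivity) fun i => by
      have := hN1 i
      nlinarith
    have h6 : 3 * (4 * R) = 12 * R := by ring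
    rw [h6] at h5
    exact h4.trans h5
  have hu0 : 0 < u := by linarith
  have hu2pos : 0 < u ^ 2 := pow_pos hu0 2
  have hu2 : u ^ 2 = R ^ d * ν ^ 2 / C₁ ^ 2 := by
    rw [hu, div_pow, mul_pow, ← pow_mul, mul_comm d 2, pow_mul, Real.sq_sqrt hR0.le]
  have h3 : ((Θ.card : ℝ) - 2) ≤ 16 * (((wB N (2 * R)).image L).card : ℝ) / u ^ 2 := by linarith
  calc ((Θ.card : ℝ) - 2) * κ ≤ 16 * (((wB N (2 * R)).image L).card : ℝ) / u ^ 2 * κ :=
        mul_le_mul_of_nonneg_right h3 hκ0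
    _ = 16 * ((((wB N (2 * R)).image L).card : ℝ) * κ) / u ^ 2 := by ring
    _ ≤ 16 * ((12 * R) ^ d * ∏ i, N i) / u ^ 2 := by
        apply div_le_div_of_nonneg_right _ hu2pos.le
        linarith
    _ = 16 * 12 ^ d * C₁ ^ 2 * (∏ i, N i) / ν ^ 2 := by
        rw [hu2, mul_pow]
        have h4 : R ^ d ≠ 0 := (pow_pos hR0 _).ne'
        have h5 : C₁ ^ 2 ≠ 0 := (pow_pos hC0 _).ne'
        have h6 : ν ≠ 0 := hν0.ne'
        field_simp

end Pool.Agent.SD
end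

section

/-!
# TASK SD NLb: the tube around a primitive vector

PROOF.  Let `λ = ν k ≥ 8`, so `k ≠ 0`, `r ≥ 1`.  `Λ' = Λ / ℤk` with the norm `ν' = ν.quo k` (file `SD/Red.lean`) is finitely generated and torsion free, so it is free
(`Module.free_of_finite_type_torsion_free'` or an instance), of rank `r - 1` (`Submodule.finrank_quotient_add_finrank`, `finrank_span_singleton`-type statement; or
`Submodule.finrank_quotient...` over `ℤ`; the rank of `ℤk` is `1`).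
(1) `ν.cnt λ ≤ 5 ν'.cnt λ`: the map `x ↦ x mod k` sends the ball of radius `λ` of `Λ` into the ball of radius `λ` of `Λ'` (`quo_le`), and `x`, `x'` with the same
image differ by `i k` with `|i| λ = ν (i k) ≤ 2 λ`, so `|i| ≤ 2`: the fibres have at most `5` elements (`Finset.card_le_mul_card_image`).
(2) By `cnt_lower` for `Λ`: `λ^r ν.cnt 1 ≤ C₁ ν.cnt λ`; by `cnt_upper` for `Λ'` with `s = 1/2`, `t = λ`: `ν'.cnt λ ≤ (2 C₂ λ)^(r-1) ν'.cnt (1/2)`.  So
`λ^r ν.cnt 1 ≤ 5 C₁ (2 C₂ λ)^(r-1) ν'.cnt (1/2)`, that is `λ ν.cnt 1 ≤ C ν'.cnt (1/2)` with `C = 5 C₁ (2 C₂)^(r-1)`.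
(3) For every `z` of the ball of radius `1/2` of `Λ'` choose (`quo_lift`) `y z` with `y z mod k = z`, `ν (y z) ≤ 1/2 + 3λ/4`, and let `F` be the set of these `y z`; `|F| = ν'.cnt (1/2)`, and
`x - y ∈ ℤk`, `x, y ∈ F` implies `x = y`.  By `quo_near` with `ε = 1/2` there are `m ≥ 1`, `j` with `ν (m y - j k) ≤ m (1/2 + 1/2) = m`, and
`|j| λ = ν (j k) ≤ m + m ν y ≤ m (3/2 + 3λ/4) ≤ m λ` because `λ ≥ 8 ≥ 6`.  So `|j| ≤ m`.
The constant must not depend on `Λ`: `C₁ = cnt_lower r`, `C₂ = cnt_upper (r - 1)`; for `r = 0` nothing is to prove (`k ≠ 0` is impossible), take `C = 1`.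
-/

set_option autoImplicit false

open Finset

namespace Pool.Agent.SD

private theorem NLb_finrank {Λ : Type} [AddCommGroup Λ] [Module.Free ℤ Λ] [Module.Finite ℤ Λ] {k : Λ}
    (hk : k ≠ 0) : Module.finrank ℤ (Λ ⧸ Submodule.span ℤ {k}) + 1 = Module.finrank ℤ Λ := by
  have h1 := Submodule.finrank_quotient_add_finrank (Submodule.span ℤ {k})
  have h2 : Module.finrank ℤ (Submodule.span ℤ {k}) = 1 := by
    rw [← (LinearEquiv.toSpanNonzeroSingleton ℤ Λ k hk).finrank_eq]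
    exact Module.finrank_self ℤ
  rw [h2] at h1
  exact h1

private theorem NLb_fibre {Λ : Type} [AddCommGroup Λ] (ν : LNorm Λ) (k : Λ) (hk : 0 < ν k)
    [Module.IsTorsionFree ℤ (Λ ⧸ Submodule.span ℤ {k})] :
    ν.cnt (ν k) ≤ 5 * (ν.quo k).cnt (ν k) := by
  classical
  unfold LNorm.cnt
  refine Finset.card_le_mul_card_image_of_maps_to (f := fun x : Λ => (Submodule.Quotient.mk x : Λ ⧸ Submodule.span ℤ {k}))
    ?_ 5 ?_
  · intro x hx
    exact LNorm.mem_ball.mpr ((ν.quo_le k x).trans (LNorm.mem_ball.mp hx))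
  · intro z _
    by_cases hne : ((ν.ball (ν k)).filter
        fun x => (Submodule.Quotient.mk x : Λ ⧸ Submodule.span ℤ {k}) = z).Nonempty
    · obtain ⟨x₀, hx₀⟩ := hne
      rw [Finset.mem_filter] at hx₀
      have hsub : ((ν.ball (ν k)).filter
          fun x => (Submodule.Quotient.mk x : Λ ⧸ Submodule.span ℤ {k}) = z) ⊆
          (Finset.Icc (-2 : ℤ) 2).image fun i => x₀ + i • k := by
        intro x hx
        rw [Finset.mem_filter] at hx
        have h1 : x - x₀ ∈ Submodule.span ℤ {k} := by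
          rw [← Submodule.Quotient.eq, hx.2, hx₀.2]
        obtain ⟨i, hi⟩ := Submodule.mem_span_singleton.mp h1
        refine Finset.mem_image.mpr ⟨i, ?_, by rw [hi]; abel⟩
        have h2 : ν (i • k) ≤ ν k + ν k := by
          rw [hi]
          exact (ν.sub_le _ _).trans (add_le_add (LNorm.mem_ball.mp hx.1) (LNorm.mem_ball.mp hx₀.1))
        rw [ν.smul] at h2
        have h3 : |(i : ℝ)| ≤ 2 := by
          by_contra hcon
          push Not at hcon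
          nlinarith
        rw [Finset.mem_Icc]
        have h4 := abs_le.mp h3
        constructor
        · exact_mod_cast h4.1
        · exact_mod_cast h4.2
      refine (Finset.card_le_card hsub).trans (Finset.card_image_le.trans ?_)
      simp
    · rw [Finset.not_nonempty_iff_eq_empty] at hne
      rw [hne]
      simp

theorem tube (r : ℕ) : ∃ C : ℝ, 1 ≤ C ∧ ∀ (Λ : Type) [AddCommGroup Λ] [Module.Free ℤ Λ]
    [Module.Finite ℤ Λ] (ν : LNorm Λ), Module.finrank ℤ Λ = r →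
    Submodule.span ℤ ((ν.ball 1 : Finset Λ) : Set Λ) = ⊤ → ∀ k : Λ, 8 ≤ ν k →
    Module.IsTorsionFree ℤ (Λ ⧸ Submodule.span ℤ {k}) →
    ∃ F : Finset Λ, ν k * (ν.cnt 1 : ℝ) ≤ C * F.card ∧
      (∀ x ∈ F, ∃ (m : ℕ) (j : ℤ), 1 ≤ m ∧ ν (m • x - j • k) ≤ m ∧ |(j : ℝ)| ≤ m) ∧
      ∀ x ∈ F, ∀ y ∈ F, x - y ∈ Submodule.span ℤ {k} → x = y := by
  classical
  obtain ⟨C₁, hC₁, H₁⟩ := cnt_lower r
  obtain ⟨C₂, hC₂, H₂⟩ := cnt_upper (r - 1)
  refine ⟨5 * C₁ * (2 * C₂) ^ (r - 1), ?_, ?_⟩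
  · have h1 : (1 : ℝ) ≤ (2 * C₂) ^ (r - 1) := one_le_pow₀ (by linarith)
    nlinarith
  intro Λ _ _ _ ν hr hspan k hk htf
  have hlpos : 0 < ν k := by linarith
  have hk0 : k ≠ 0 := by
    rintro rfl
    rw [ν.zero] at hk
    linarith
  have hfr := NLb_finrank (Λ := Λ) hk0
  have : Module.Free ℤ (Λ ⧸ Submodule.span ℤ {k}) := inferInstance
  have hfr' : Module.finrank ℤ (Λ ⧸ Submodule.span ℤ {k}) = r - 1 := by omega
  have hrr : r = (r - 1) + 1 := by omega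
  have e1 := H₁ Λ ν hr hspan (ν k) (by linarith)
  have e2 : (ν.cnt (ν k) : ℝ) ≤ 5 * ((ν.quo k).cnt (ν k) : ℝ) := by
    exact_mod_cast NLb_fibre ν k hlpos
  have e3 := H₂ (Λ ⧸ Submodule.span ℤ {k}) (ν.quo k) hfr' (1 / 2) (ν k) (by norm_num) (by linarith)
  have e4 : C₂ * (ν k / (1 / 2)) = (2 * C₂) * ν k := by ring
  rw [e4, mul_pow] at e3
  -- the lifts
  choose y hy1 hy2 using fun x : Λ ⧸ Submodule.span ℤ {k} => ν.quo_lift k hk0 x
  have hyinj : Function.Injective y := by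
    intro a b hab
    rw [← hy1 a, ← hy1 b, hab]
  refine ⟨((ν.quo k).ball (1 / 2)).image y, ?_, ?_, ?_⟩
  · rw [Finset.card_image_of_injective _ hyinj]
    change ν k * (ν.cnt 1 : ℝ) ≤ 5 * C₁ * (2 * C₂) ^ (r - 1) * ((ν.quo k).cnt (1 / 2) : ℝ)
    have hp : 0 < ν k ^ (r - 1) := by positivity
    have e5 : ν k ^ (r - 1) * (ν k * (ν.cnt 1 : ℝ)) ≤
        ν k ^ (r - 1) * (5 * C₁ * (2 * C₂) ^ (r - 1) * ((ν.quo k).cnt (1 / 2) : ℝ)) := by
      calc ν k ^ (r - 1) * (ν k * (ν.cnt 1 : ℝ)) = ν k ^ r * (ν.cnt 1 : ℝ) := by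
            conv_rhs => rw [hrr, pow_succ]
            ring
        _ ≤ C₁ * ν.cnt (ν k) := e1
        _ ≤ C₁ * (5 * ((2 * C₂) ^ (r - 1) * ν k ^ (r - 1) * ((ν.quo k).cnt (1 / 2) : ℝ))) := by
            have : (0 : ℝ) ≤ C₁ := by linarith
            gcongr
            exact e2.trans (by linarith)
        _ = _ := by ring
    exact le_of_mul_le_mul_left e5 hp
  · intro x hx
    obtain ⟨z, hz, rfl⟩ := Finset.mem_image.mp hx
    have hz' := LNorm.mem_ball.mp hz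
    obtain ⟨m, j, hm, hmj⟩ := ν.quo_near k (y z) (ε := 1 / 2) (by norm_num)
    rw [hy1 z] at hmj
    have hmpos : (0 : ℝ) < m := by exact_mod_cast hm
    have h1 : ν (m • y z - j • k) ≤ m := by
      refine hmj.trans ?_
      nlinarith
    refine ⟨m, j, hm, h1, ?_⟩
    have h2 : ν (j • k) ≤ m + m * ν (y z) := by
      have h3 : j • k = (m • y z) - (m • y z - j • k) := by abel
      rw [h3]
      refine (ν.sub_le _ _).trans ?_
      have h4 : ν (m • y z) = m * ν (y z) := by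
        rw [← natCast_zsmul, ν.smul]
        simp
      rw [h4]
      linarith
    rw [ν.smul] at h2
    have h5 := hy2 z
    by_contra hcon
    push Not at hcon
    have h6 : |(j : ℝ)| * ν k ≤ m * (3 / 2 + 3 / 4 * ν k) := by nlinarith
    nlinarith
  · intro x hx x' hx' hxx
    obtain ⟨z, _, rfl⟩ := Finset.mem_image.mp hx
    obtain ⟨z', _, rfl⟩ := Finset.mem_image.mp hx'
    rw [← Submodule.Quotient.eq, hy1, hy1] at hxx
    rw [hxx]

end Pool.Agent.SD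
end

section

/-!
# TASK SD Tb: the number of integer points of a tube

PROOF.  Let `λ = bN N hN k ≥ 1`.  Let `x` be as in the statement, `s = j/m ∈ [-2, 2]`, so `|x i - s k i| ≤ 2 N i` for all `i` (`bN_le`: `ν (m x - j k) ≤ 2 m` gives
`|m x i - j k i| ≤ 2 m N i`).  Let `e = ⌊s λ⌋`, `|s - e/λ| ≤ 1/λ`, and `|k i| ≤ λ N i`, so `|x i - (e/λ) k i| ≤ 2 N i + N i = 3 N i`.  So `x` lies in the set `T_e` of `card_center` for the
sides `3 N i` and the centre `(e/λ) k`, `|T_e| ≤ ∏ (6 N i + 1) ≤ 7^d V`.  `e` is an integer in `[-2λ - 1, 2λ]`: at most `4 λ + 2 ≤ 6 λ` values.  So `T = ⋃ T_e` has at most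
`6 λ 7^d V` elements.
-/

set_option autoImplicit false

open Finset

namespace Pool.Agent.SD

theorem tube_card (d : ℕ) : ∃ C : ℝ, 1 ≤ C ∧ ∀ (N : Fin d → ℝ) (hN : ∀ i, 0 < N i), (∀ i, 1 ≤ N i) →
    ∀ k : Fin d → ℤ, 1 ≤ bN N hN k →
    ∃ T : Finset (Fin d → ℤ), (T.card : ℝ) ≤ C * bN N hN k * ∏ i, N i ∧
      ∀ (x : Fin d → ℤ) (m : ℕ) (j : ℤ), 1 ≤ m → bN N hN (m • x - j • k) ≤ 2 * m → |(j : ℝ)| ≤ 2 * m →
        x ∈ T := by
  classical
  refine ⟨7 * 7 ^ d, ?_, ?_⟩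
  · have h1 : (1 : ℝ) ≤ 7 ^ d := one_le_pow₀ (by norm_num)
    linarith
  intro N hN hN1 k hk
  set l : ℝ := bN N hN k with hl
  have hl0 : 0 < l := by linarith
  have hk' : ∀ i, |(k i : ℝ)| ≤ l * N i := (bN_le hl0.le).1 le_rfl
  have hc := fun e : ℤ => card_center (fun i => 3 * N i) (fun i => (e : ℝ) / l * k i)
    (fun i => by have := hN i; positivity)
  choose T hT hTc using hc
  refine ⟨(Finset.Icc (-⌈2 * l⌉) ⌈2 * l⌉).biUnion T, ?_, ?_⟩
  · have h1 : (((Finset.Icc (-⌈2 * l⌉) ⌈2 * l⌉).biUnion T).card : ℝ) ≤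
        ∑ e ∈ Finset.Icc (-⌈2 * l⌉) ⌈2 * l⌉, ((T e).card : ℝ) := by
      exact_mod_cast Finset.card_biUnion_le
    have hP : ∏ i, (2 * (3 * N i) + 1) ≤ 7 ^ d * ∏ i, N i := by
      have h2 : (7 : ℝ) ^ d * ∏ i, N i = ∏ i, (7 * N i) := by
        rw [Finset.prod_mul_distrib, Finset.prod_const, Finset.card_univ, Fintype.card_fin]
      rw [h2]
      refine Finset.prod_le_prod (fun i _ => ?_) fun i _ => ?_
      · have := hN i
        positivity
      · have := hN1 i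
        linarith
    have h3 : ∑ e ∈ Finset.Icc (-⌈2 * l⌉) ⌈2 * l⌉, ((T e).card : ℝ) ≤
        ∑ e ∈ Finset.Icc (-⌈2 * l⌉) ⌈2 * l⌉, (7 ^ d * ∏ i, N i) :=
      Finset.sum_le_sum fun e _ => (hTc e).trans hP
    rw [Finset.sum_const, nsmul_eq_mul, Int.card_Icc] at h3
    have h4 : ((⌈2 * l⌉ + 1 - -⌈2 * l⌉).toNat : ℝ) ≤ 7 * l := by
      have h5 : (0 : ℤ) ≤ ⌈2 * l⌉ := Int.ceil_nonneg (by linarith)
      have h6 : (((⌈2 * l⌉ + 1 - -⌈2 * l⌉).toNat : ℤ) : ℝ) =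
          ((⌈2 * l⌉ + 1 - -⌈2 * l⌉ : ℤ) : ℝ) := by
        rw [Int.toNat_of_nonneg (by omega)]
      have h7 : (⌈2 * l⌉ : ℝ) < 2 * l + 1 := Int.ceil_lt_add_one _
      rw [Int.cast_natCast] at h6
      rw [h6]
      push_cast
      linarith
    have hV : 0 ≤ ∏ i, N i := Finset.prod_nonneg fun i _ => (hN i).le
    calc (((Finset.Icc (-⌈2 * l⌉) ⌈2 * l⌉).biUnion T).card : ℝ)
        ≤ ((⌈2 * l⌉ + 1 - -⌈2 * l⌉).toNat : ℝ) * (7 ^ d * ∏ i, N i) := h1.trans h3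
      _ ≤ 7 * l * (7 ^ d * ∏ i, N i) := mul_le_mul_of_nonneg_right h4 (by positivity)
      _ = 7 * 7 ^ d * l * ∏ i, N i := by ring
  · intro x m j hm hx hj
    have hm0 : (0 : ℝ) < m := by
      have : (1 : ℝ) ≤ m := by exact_mod_cast hm
      linarith
    set s : ℝ := (j : ℝ) / m with hs
    have hs2 : |s| ≤ 2 := by
      rw [hs, abs_div, abs_of_pos hm0, div_le_iff₀ hm0]
      exact hj
    have hs3 := abs_le.1 hs2
    have hx' := (bN_le (hN := hN) (show (0 : ℝ) ≤ 2 * m by positivity)).1 hx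
    have hxs : ∀ i, |(x i : ℝ) - s * k i| ≤ 2 * N i := by
      intro i
      have h1 := hx' i
      have h2 : (((m • x - j • k) i : ℤ) : ℝ) = m * ((x i : ℝ) - s * k i) := by
        have h0 : (m • x - j • k) i = (m : ℤ) * x i - j * k i := by
          rw [Pi.sub_apply, Pi.smul_apply, Pi.smul_apply, smul_eq_mul, nsmul_eq_mul]
        rw [h0, hs]
        push_cast
        field_simp
      rw [h2, abs_mul, abs_of_pos hm0] at h1
      have h3 : (m : ℝ) * |(x i : ℝ) - s * k i| ≤ m * (2 * N i) := by linarith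
      exact le_of_mul_le_mul_left h3 hm0
    have he1 : (⌊s * l⌋ : ℝ) ≤ s * l := Int.floor_le _
    have he2 : s * l < ⌊s * l⌋ + 1 := Int.lt_floor_add_one _
    rw [Finset.mem_biUnion]
    refine ⟨⌊s * l⌋, ?_, hT _ x fun i => ?_⟩
    · rw [Finset.mem_Icc]
      constructor
      · rw [Int.le_floor]
        push_cast
        have h4 : 2 * l ≤ ⌈2 * l⌉ := Int.le_ceil _
        have h5 : -(2 * l) ≤ s * l := by nlinarith
        linarith
      · have h4 : 2 * l ≤ ⌈2 * l⌉ := Int.le_ceil _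
        have h5 : s * l ≤ 2 * l := by nlinarith
        have h6 : (⌊s * l⌋ : ℝ) ≤ (⌈2 * l⌉ : ℝ) := by linarith
        exact_mod_cast h6
    · have h1 : |s - (⌊s * l⌋ : ℝ) / l| ≤ 1 / l := by
        rw [abs_le]
        constructor
        · have h2 : (⌊s * l⌋ : ℝ) / l ≤ s := by
            rw [div_le_iff₀ hl0]
            exact he1
          have h3 : 0 < 1 / l := by positivity
          linarith
        · rw [sub_le_iff_le_add, ← add_div, le_div_iff₀ hl0]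
          linarith
      have h2 : (x i : ℝ) - (⌊s * l⌋ : ℝ) / l * k i =
          ((x i : ℝ) - s * k i) + (s - (⌊s * l⌋ : ℝ) / l) * k i := by ring
      have h3 : |(s - (⌊s * l⌋ : ℝ) / l) * k i| ≤ N i := by
        rw [abs_mul]
        calc |s - (⌊s * l⌋ : ℝ) / l| * |(k i : ℝ)| ≤ 1 / l * (l * N i) :=
              mul_le_mul h1 (hk' i) (abs_nonneg _) (by positivity)
          _ = N i := by field_simp
      rw [h2]
      calc |((x i : ℝ) - s * k i) + (s - (⌊s * l⌋ : ℝ) / l) * k i|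
          ≤ |(x i : ℝ) - s * k i| + |(s - (⌊s * l⌋ : ℝ) / l) * k i| := abs_add_le _ _
        _ ≤ 3 * N i := by
          have := hxs i
          linarith

end Pool.Agent.SD
end

section

/-!
# TASK SD D2b: directions which contain a given kernel vector

PROOF.  Let `λ = bN N hN k ≥ 8`, `θ ∈ Θ`, `Γ = Gm L N θ`, `r = finrank Γ ≤ d`, `C₁` a constant for which `tube r` holds for all `r ≤ d`, `μ = (bN N hN).res Γ`, `k' = ⟨k, _⟩ : Γ`.
(1) `Γ / ℤk'` is torsion free: `torsionFree_quo` for `μ` and `S = {x ∈ Γ | L x = 0}` (pure: `L (n x) = n L x` and `ℂ` is torsion free), in which `k'` is a shortest nonzero vector.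
(2) `tube` (with `span_ball_Gm`; `μ.cnt 1 = cM N Γ 1 = cM N (Mt L θ) 1 ≥ ν`) gives `F ⊆ Γ` with `λ ν ≤ C₁ |F|`.  `L` is injective on `F`: let `x, y ∈ F`, `L x = L y`,
`z = x - y ∈ Γ`, `L z = 0`; with the `m, j` of `x` and `m', j'` of `y`: `μ (m m' z - (m' j - m j') k') ≤ m' m + m m' = 2 m m'`.  Let `i` be an integer with
`|(m' j - m j') - i m m'| ≤ m m' / 2` (`round`).  Then `m m' μ (z - i k') ≤ 2 m m' + (m m' / 2) λ`, so `μ (z - i k') ≤ 2 + λ/2 < λ`.  Since `L (z - i k) = 0` and `z - i k ∈ Γ`, minimality of `k` gives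
`z = i k'`, so `x - y ∈ ℤk'` and `x = y`.
(3) Let `S θ = L(F) ∪ -L(F)`: `|S θ| ≥ |F| ≥ λ ν / C₁ =: u ≥ 4` (`ν ≥ C`), symmetric, parallel to `θ`.  Let `T` be the set of `tube_card` for `k`, `W = image L T`.  A sum
`s + s'` with `s ∈ S θ`, `s' ∈ S θ'` is `L (ε x + ε' y)` with signs `ε, ε'`, `x ∈ F_θ`, `y ∈ F_θ'`, and with `m, j, m', j'` as before:
`bN (m m' (ε x + ε' y) - (ε m' j + ε' m j') k) ≤ 2 m m'`, `|ε m' j + ε' m j'| ≤ 2 m m'`, so `ε x + ε' y ∈ T`.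
By `SL`: `|Θ| ≤ 2 + 16 |T| / u² ≤ 2 + 16 C₂ λ V C₁² / (λ² ν²)`.
-/

set_option autoImplicit false

open scoped ComplexConjugate
open Finset

namespace Pool.Agent.SD

private theorem D2b_F (d : ℕ) : ∃ C : ℝ, 1 ≤ C ∧ ∀ (L : (Fin d → ℤ) →+ ℂ) (N : Fin d → ℝ)
    (hN : ∀ i, 0 < N i) (k : Fin d → ℤ) (ν : ℝ) (θ : ℂ), ν ≤ (cM N (Mt L θ) 1 : ℝ) → L k = 0 →
    8 ≤ bN N hN k → k ∈ Gm L N θ →
    (∀ x ∈ Gm L N θ, L x = 0 → x ≠ 0 → bN N hN k ≤ bN N hN x) →
    ∃ F : Finset (Fin d → ℤ), bN N hN k * ν ≤ C * F.card ∧ (∀ x ∈ F, par θ (L x)) ∧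
      (∀ x ∈ F, ∃ (m : ℕ) (j : ℤ), 1 ≤ m ∧ bN N hN (m • x - j • k) ≤ m ∧ |(j : ℝ)| ≤ m) ∧
      ∀ x ∈ F, ∀ y ∈ F, L x = L y → x = y := by
  classical
  choose c hc1 hc using tube
  have hcs : ∀ r ≤ d, c r ≤ ∑ i ∈ Finset.range (d + 1), c i := fun r hr =>
    Finset.single_le_sum (f := c) (fun i _ => zero_le_one.trans (hc1 i))
      (Finset.mem_range.2 (Nat.lt_succ_of_le hr))
  refine ⟨∑ i ∈ Finset.range (d + 1), c i, (hc1 0).trans (hcs 0 (Nat.zero_le _)), ?_⟩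
  intro L N hN k ν θ hν hLk h8 hkΓ hmin
  have hk0 : k ≠ 0 := by
    rintro rfl
    rw [LNorm.zero] at h8
    norm_num at h8
  let μ : LNorm (Gm L N θ) := (bN N hN).res (Gm L N θ)
  let k' : Gm L N θ := ⟨k, hkΓ⟩
  have hk'0 : k' ≠ 0 := fun h => hk0 (congrArg Subtype.val h)
  have htf : Module.IsTorsionFree ℤ (Gm L N θ ⧸ Submodule.span ℤ {k'}) := by
    refine torsionFree_quo μ ((Kr L).comap (Gm L N θ).subtype) ?_ hk'0 ?_ ?_
    · intro n x hn hx
      have h1 : L (n • (x : Fin d → ℤ)) = 0 := hx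
      rw [map_zsmul, smul_eq_zero] at h1
      exact h1.resolve_left hn
    · exact hLk
    · intro x hx hx0
      exact hmin x x.2 hx fun h => hx0 (Subtype.ext h)
  obtain ⟨F, hF1, hF2, hF3⟩ := hc (Module.finrank ℤ (Gm L N θ)) (Gm L N θ) μ rfl
    (span_ball_Gm L N hN θ) k' h8 htf
  have hrank : Module.finrank ℤ (Gm L N θ) ≤ d := by
    have h1 := Submodule.finrank_le (Gm L N θ)
    rwa [Module.finrank_fin_fun] at h1
  refine ⟨F.map ⟨Subtype.val, Subtype.val_injective⟩, ?_, ?_, ?_, ?_⟩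
  · rw [Finset.card_map]
    have h1 : (μ.cnt 1 : ℝ) = (cM N (Mt L θ) 1 : ℝ) := by
      rw [cnt_res hN (Gm L N θ) zero_le_one, cM_Gm]
    rw [h1] at hF1
    have h2 : bN N hN k * ν ≤ bN N hN k * (cM N (Mt L θ) 1 : ℝ) :=
      mul_le_mul_of_nonneg_left hν ((by norm_num : (0 : ℝ) ≤ 8).trans h8)
    exact h2.trans (hF1.trans (mul_le_mul_of_nonneg_right (hcs _ hrank) (Nat.cast_nonneg _)))
  · intro x hx
    obtain ⟨y, _, rfl⟩ := Finset.mem_map.1 hx
    exact mem_Mt.1 (Gm_le L N θ y.2)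
  · intro x hx
    obtain ⟨y, hy, rfl⟩ := Finset.mem_map.1 hx
    exact hF2 y hy
  · intro x hx y hy hxy
    obtain ⟨x, hx', rfl⟩ := Finset.mem_map.1 hx
    obtain ⟨y, hy', rfl⟩ := Finset.mem_map.1 hy
    refine congrArg _ (hF3 x hx' y hy' ?_)
    obtain ⟨m, j, hm, h1, -⟩ := hF2 x hx'
    obtain ⟨m', j', hm', h2, -⟩ := hF2 y hy'
    have hLxy : L (x : Fin d → ℤ) = L (y : Fin d → ℤ) := hxy
    have hmpos : (1 : ℝ) ≤ m := by exact_mod_cast hm
    have hm'pos : (1 : ℝ) ≤ m' := by exact_mod_cast hm'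
    have hMpos : (0 : ℝ) < (m : ℝ) * m' := by positivity
    obtain ⟨t, ht⟩ : ∃ t : ℤ, t = m' * j - m * j' := ⟨_, rfl⟩
    obtain ⟨i, hi⟩ : ∃ i : ℤ, |(t : ℝ) - i * (m * m')| ≤ m * m' / 2 := by
      refine ⟨round ((t : ℝ) / (m * m')), ?_⟩
      have h3 := abs_sub_round ((t : ℝ) / (m * m'))
      have h4 : (t : ℝ) - round ((t : ℝ) / (m * m')) * (m * m') =
          ((t : ℝ) / (m * m') - round ((t : ℝ) / (m * m'))) * (m * m') := by
        field_simp
      rw [h4, abs_mul, abs_of_pos hMpos]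
      nlinarith
    have hz : x - y = i • k' := by
      by_contra hne
      have h3 : x - y - i • k' ≠ 0 := fun h => hne (sub_eq_zero.1 h)
      have h4 : bN N hN k ≤ μ (x - y - i • k') := by
        refine hmin _ (x - y - i • k').2 ?_ fun h => h3 (Subtype.ext h)
        show L ((x : Fin d → ℤ) - (y : Fin d → ℤ) - i • k) = 0
        rw [map_sub, map_sub, map_zsmul, hLk, smul_zero, hLxy, sub_self, sub_self]
      have h5 : ((m * m' : ℕ) : ℤ) • (x - y - i • k') =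
          ((m' : ℤ) • (m • x - j • k') - (m : ℤ) • (m' • y - j' • k')) +
            (t - i * (m * m')) • k' := by
        rw [ht]
        simp only [← natCast_zsmul, smul_sub, smul_smul, sub_smul, Nat.cast_mul]
        have e1 : ((m' : ℤ) * (m : ℤ)) • x = ((m : ℤ) * (m' : ℤ)) • x := by rw [mul_comm]
        have e2 : ((m : ℤ) * (m' : ℤ) * i) • k' = (i * ((m : ℤ) * (m' : ℤ))) • k' := by
          rw [mul_comm]
        rw [e1, e2]
        abel
      have h6 := μ.smul ((m * m' : ℕ) : ℤ) (x - y - i • k')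
      rw [h5] at h6
      have h7 : μ (((m' : ℤ) • (m • x - j • k') - (m : ℤ) • (m' • y - j' • k')) +
            (t - i * (m * m')) • k') ≤ (m' * m + m * m') + (m * m' / 2) * bN N hN k := by
        refine (μ.add _ _).trans (add_le_add ((μ.sub_le _ _).trans (add_le_add ?_ ?_)) ?_)
        · rw [μ.smul]
          simp only [Int.cast_natCast, Nat.abs_cast]
          exact mul_le_mul_of_nonneg_left h1 (Nat.cast_nonneg _)
        · rw [μ.smul]
          simp only [Int.cast_natCast, Nat.abs_cast]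
          exact mul_le_mul_of_nonneg_left h2 (Nat.cast_nonneg _)
        · rw [μ.smul]
          have h8' : ((t - i * (m * m') : ℤ) : ℝ) = (t : ℝ) - i * (m * m') := by push_cast; ring
          rw [h8']
          exact mul_le_mul_of_nonneg_right hi ((by norm_num : (0 : ℝ) ≤ 8).trans h8)
      rw [h6] at h7
      have h8' : |(((m * m' : ℕ) : ℤ) : ℝ)| = (m : ℝ) * m' := by
        push_cast
        exact abs_of_pos hMpos
      rw [h8'] at h7
      have h9 : ((m : ℝ) * m') * bN N hN k ≤ ((m : ℝ) * m') * (2 + bN N hN k / 2) := by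
        calc ((m : ℝ) * m') * bN N hN k ≤ ((m : ℝ) * m') * μ (x - y - i • k') :=
              mul_le_mul_of_nonneg_left h4 hMpos.le
          _ ≤ (m' * m + m * m') + (m * m' / 2) * bN N hN k := h7
          _ = ((m : ℝ) * m') * (2 + bN N hN k / 2) := by ring
      have h10 := le_of_mul_le_mul_left h9 hMpos
      linarith
    rw [hz]
    exact Submodule.mem_span_singleton.2 ⟨i, rfl⟩

private theorem D2b_T {d : ℕ} {N : Fin d → ℝ} {hN : ∀ i, 0 < N i} {k x y : Fin d → ℤ} {m m' : ℕ}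
    {j j' e e' : ℤ} (he : |(e : ℝ)| = 1) (he' : |(e' : ℝ)| = 1)
    (h1 : bN N hN (m • x - j • k) ≤ m) (hj : |(j : ℝ)| ≤ m)
    (h2 : bN N hN (m' • y - j' • k) ≤ m') (hj' : |(j' : ℝ)| ≤ m') :
    bN N hN ((m * m') • (e • x + e' • y) - (e * m' * j + e' * m * j') • k) ≤ 2 * (m * m' : ℕ) ∧
      |((e * m' * j + e' * m * j' : ℤ) : ℝ)| ≤ 2 * (m * m' : ℕ) := by
  constructor
  · have h3 : (m * m') • (e • x + e' • y) - (e * m' * j + e' * m * j') • k =
        (e * m') • (m • x - j • k) + (e' * m) • (m' • y - j' • k) := by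
      simp only [← natCast_zsmul, Nat.cast_mul]
      module
    rw [h3]
    refine ((bN N hN).add _ _).trans ?_
    rw [(bN N hN).smul, (bN N hN).smul]
    push_cast
    rw [abs_mul, abs_mul, he, he', Nat.abs_cast, Nat.abs_cast, one_mul, one_mul]
    have h4 := mul_le_mul_of_nonneg_left h1 (Nat.cast_nonneg (α := ℝ) m')
    have h5 := mul_le_mul_of_nonneg_left h2 (Nat.cast_nonneg (α := ℝ) m)
    linarith
  · push_cast
    refine (abs_add_le _ _).trans ?_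
    rw [abs_mul, abs_mul, abs_mul, abs_mul, he, he', Nat.abs_cast, Nat.abs_cast, one_mul, one_mul]
    have h4 := mul_le_mul_of_nonneg_left hj (Nat.cast_nonneg (α := ℝ) m')
    have h5 := mul_le_mul_of_nonneg_left hj' (Nat.cast_nonneg (α := ℝ) m)
    linarith

theorem D2b (d : ℕ) : ∃ C : ℝ, 1 ≤ C ∧ ∀ (L : (Fin d → ℤ) →+ ℂ) (N : Fin d → ℝ) (hN : ∀ i, 0 < N i)
    (k : Fin d → ℤ) (ν : ℝ) (Θ : Finset ℂ), (∀ i, 1 ≤ N i) → Dirs Θ → C ≤ ν →
    (∀ θ ∈ Θ, ν ≤ (cM N (Mt L θ) 1 : ℝ)) → L k = 0 → 8 ≤ bN N hN k → (∀ θ ∈ Θ, k ∈ Gm L N θ) →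
    (∀ θ ∈ Θ, ∀ x ∈ Gm L N θ, L x = 0 → x ≠ 0 → bN N hN k ≤ bN N hN x) →
    (Θ.card : ℝ) ≤ 2 + C * (∏ i, N i) / (bN N hN k * ν ^ 2) := by
  classical
  obtain ⟨C₁, hC₁, H1⟩ := D2b_F d
  obtain ⟨C₂, hC₂, H2⟩ := tube_card d
  refine ⟨16 * C₂ * C₁ ^ 2 + 4 * C₁, by nlinarith [sq_nonneg C₁], ?_⟩
  intro L N hN k ν Θ hN1 hΘ hν hνθ hLk h8 hkΓ hmin
  have hV : 0 < ∏ i, N i := Finset.prod_pos fun i _ => hN i
  have hlam : 0 < bN N hN k := lt_of_lt_of_le (by norm_num) h8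
  have hC₁pos : 0 < C₁ := by linarith
  have hνpos : 0 < ν := by nlinarith [sq_nonneg C₁]
  have H3 : ∀ θ : ℂ, ∃ F : Finset (Fin d → ℤ), θ ∈ Θ → (bN N hN k * ν ≤ C₁ * F.card ∧
      (∀ x ∈ F, par θ (L x)) ∧
      (∀ x ∈ F, ∃ (m : ℕ) (j : ℤ), 1 ≤ m ∧ bN N hN (m • x - j • k) ≤ m ∧ |(j : ℝ)| ≤ m) ∧
      ∀ x ∈ F, ∀ y ∈ F, L x = L y → x = y) := by
    intro θ
    by_cases hθ : θ ∈ Θ
    · obtain ⟨F, hF⟩ := H1 L N hN k ν θ (hνθ θ hθ) hLk h8 (hkΓ θ hθ) (hmin θ hθ)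
      exact ⟨F, fun _ => hF⟩
    · exact ⟨∅, fun h => absurd h hθ⟩
  choose F hF using H3
  obtain ⟨T, hT1, hT2⟩ := H2 N hN hN1 k (le_trans (by norm_num) h8)
  let S : ℂ → Finset ℂ := fun θ => (F θ).image (fun x => L x) ∪ (F θ).image (fun x => -L x)
  have hS : ∀ θ s, s ∈ S θ ↔ ∃ x ∈ F θ, ∃ e : ℤ, |(e : ℝ)| = 1 ∧ s = L (e • x) := by
    intro θ s
    constructor
    · intro hs
      rcases Finset.mem_union.1 hs with h | h
      · obtain ⟨x, hx, rfl⟩ := Finset.mem_image.1 h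
        exact ⟨x, hx, 1, by simp, by rw [one_smul]⟩
      · obtain ⟨x, hx, rfl⟩ := Finset.mem_image.1 h
        exact ⟨x, hx, -1, by simp, by rw [neg_smul, one_smul, map_neg]⟩
    · rintro ⟨x, hx, e, he, rfl⟩
      have he2 : e = 1 ∨ e = -1 := by
        have h1 : |e| = 1 := by exact_mod_cast he
        exact (abs_eq zero_le_one).1 h1
      rcases he2 with rfl | rfl
      · rw [one_smul]
        exact Finset.mem_union_left _ (Finset.mem_image.2 ⟨x, hx, rfl⟩)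
      · rw [neg_smul, one_smul, map_neg]
        exact Finset.mem_union_right _ (Finset.mem_image.2 ⟨x, hx, rfl⟩)
  have hpar : ∀ θ ∈ Θ, ∀ s ∈ S θ, par θ s := by
    intro θ hθ s hs
    obtain ⟨x, hx, e, -, rfl⟩ := (hS θ s).1 hs
    have h1 : x ∈ Mt L θ := mem_Mt.2 ((hF θ hθ).2.1 x hx)
    exact mem_Mt.1 ((Mt L θ).smul_mem e h1)
  have hneg : ∀ θ ∈ Θ, ∀ s ∈ S θ, -s ∈ S θ := by
    intro θ _ s hs
    obtain ⟨x, hx, e, he, rfl⟩ := (hS θ s).1 hs
    refine (hS θ _).2 ⟨x, hx, -e, ?_, ?_⟩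
    · rw [Int.cast_neg, abs_neg, he]
    · rw [neg_smul, map_neg]
  have hW : ∀ θ ∈ Θ, ∀ θ' ∈ Θ, θ ≠ θ' → ∀ s ∈ S θ, ∀ s' ∈ S θ', s + s' ∈ T.image (fun x => L x) := by
    intro θ hθ θ' hθ' _ s hs s' hs'
    obtain ⟨x, hx, e, he, rfl⟩ := (hS θ s).1 hs
    obtain ⟨y, hy, e', he', rfl⟩ := (hS θ' s').1 hs'
    obtain ⟨m, j, hm, h1, hj⟩ := (hF θ hθ).2.2.1 x hx
    obtain ⟨m', j', hm', h2, hj'⟩ := (hF θ' hθ').2.2.1 y hy
    obtain ⟨h3, h4⟩ := D2b_T he he' h1 hj h2 hj'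
    refine Finset.mem_image.2 ⟨e • x + e' • y, ?_, by rw [map_add]⟩
    exact hT2 _ (m * m') (e * m' * j + e' * m * j') (Nat.mul_pos hm hm') h3 h4
  have hu : 4 ≤ bN N hN k * ν / C₁ := by
    rw [le_div_iff₀ hC₁pos]
    have h1 : 4 * C₁ ≤ ν := by nlinarith [sq_nonneg C₁]
    nlinarith
  have hcard : ∀ θ ∈ Θ, bN N hN k * ν / C₁ ≤ ((S θ).card : ℝ) := by
    intro θ hθ
    rw [div_le_iff₀ hC₁pos]
    have h1 : (F θ).card ≤ (S θ).card := by
      have h2 : ((F θ).image (fun x => L x)).card = (F θ).card :=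
        Finset.card_image_of_injOn fun x hx y hy hxy => (hF θ hθ).2.2.2 x hx y hy hxy
      rw [← h2]
      exact Finset.card_le_card Finset.subset_union_left
    have h3 : ((F θ).card : ℝ) ≤ ((S θ).card : ℝ) := by exact_mod_cast h1
    calc bN N hN k * ν ≤ C₁ * (F θ).card := (hF θ hθ).1
      _ ≤ C₁ * (S θ).card := mul_le_mul_of_nonneg_left h3 hC₁pos.le
      _ = (S θ).card * C₁ := mul_comm _ _
  refine (SL hΘ S hpar hneg _ hW hu hcard).trans ?_
  have hTc : (((T.image (fun x => L x)).card : ℕ) : ℝ) ≤ C₂ * bN N hN k * ∏ i, N i :=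
    (Nat.cast_le.2 Finset.card_image_le).trans hT1
  have h1 : 16 * (((T.image (fun x => L x)).card : ℕ) : ℝ) / (bN N hN k * ν / C₁) ^ 2 ≤
      16 * C₂ * C₁ ^ 2 * (∏ i, N i) / (bN N hN k * ν ^ 2) := by
    rw [div_pow, div_div_eq_mul_div, div_le_div_iff₀ (by positivity) (by positivity)]
    have h2 : (0 : ℝ) ≤ 16 * C₁ ^ 2 * (bN N hN k * ν ^ 2) := by positivity
    have h3 := mul_le_mul_of_nonneg_right hTc h2
    calc 16 * (((T.image (fun x => L x)).card : ℕ) : ℝ) * C₁ ^ 2 * (bN N hN k * ν ^ 2)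
        = (((T.image (fun x => L x)).card : ℕ) : ℝ) * (16 * C₁ ^ 2 * (bN N hN k * ν ^ 2)) := by ring
      _ ≤ C₂ * bN N hN k * (∏ i, N i) * (16 * C₁ ^ 2 * (bN N hN k * ν ^ 2)) := h3
      _ = 16 * C₂ * C₁ ^ 2 * (∏ i, N i) * (bN N hN k * ν) ^ 2 := by ring
  have h2 : 16 * C₂ * C₁ ^ 2 * (∏ i, N i) / (bN N hN k * ν ^ 2) ≤
      (16 * C₂ * C₁ ^ 2 + 4 * C₁) * (∏ i, N i) / (bN N hN k * ν ^ 2) := by
    refine div_le_div_of_nonneg_right ?_ (by positivity)
    exact mul_le_mul_of_nonneg_right (by linarith) hV.le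
  linarith

end Pool.Agent.SD
end

section

/-!
# TASK SD Cv: change of notation (injective `L`)

PROOF.  `L_eq`: `x = ∑ i, x i • Pi.single i 1` and `L` is additive.  `indep_of_inj`: a rational relation between the `L (e i)` is multiplied by a common denominator, giving an integer vector `x` with
`L x = 0`.  (`Fintype.linearIndependent_iff`; or: `LinearIndependent.iff_fractionRing` for `ℤ ⊂ ℚ`.)
`conv`: let `v i = L (Pi.single i 1)`.  For `θ ∈ Θ` (as `ν ≥ 2`) choose a nonzero `y θ ∈ wB N 1` with `par θ (L (y θ))`, `L (y θ) ≠ 0`.  `Mo v (y θ) = Mt L θ` (`par_trans`, `par_symm`; `RL.om v x y` is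
`(conj (L x) * L y).im`, that is `par (L x) (L y)`).  For `θ ≠ θ'`: `y θ' ∉ Mo v (y θ)`, otherwise `par (L y θ) (L y θ')` gives `par θ θ'`.  In particular `y` is injective on `Θ`; `Y = Θ.image y`.
`Gm L N θ ≤ Mt L θ` gives `finrank (Gm L N θ) ≤ finrank (Mo v y)` (`Submodule.finrank_mono`-type statement over `ℤ`, or `LinearMap.finrank_le_finrank_of_injective` for the
inclusion).
-/

set_option autoImplicit false

open scoped ComplexConjugate
open Finset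

namespace Pool.Agent.SD

variable {d : ℕ}

theorem L_eq (L : (Fin d → ℤ) →+ ℂ) (x : Fin d → ℤ) : L x = RL.L (fun i => L (Pi.single i 1)) x := by
  have h1 : x = ∑ i, x i • (Pi.single i (1 : ℤ) : Fin d → ℤ) := by
    ext j
    simp [Finset.sum_apply, Pi.single_apply]
  conv_lhs => rw [h1, map_sum]
  unfold RL.L
  refine Finset.sum_congr rfl fun i _ => ?_
  rw [map_zsmul, zsmul_eq_mul]

theorem indep_of_inj (L : (Fin d → ℤ) →+ ℂ) (h : ∀ x, L x = 0 → x = 0) :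
    LinearIndependent ℚ (fun i => L (Pi.single i 1) : Fin d → ℂ) := by
  rw [← LinearIndependent.iff_fractionRing ℤ ℚ, Fintype.linearIndependent_iff]
  intro g hg i
  have h1 : L g = 0 := by
    rw [L_eq, ← hg]
    unfold RL.L
    refine Finset.sum_congr rfl fun i _ => ?_
    rw [zsmul_eq_mul]
  exact congrFun (h g h1) i

/-- Vectors pairwise non-parallel (with respect to `v`), nonzero. -/
def Np (v : Fin d → ℂ) (Y : Finset (Fin d → ℤ)) : Prop :=
  (∀ y ∈ Y, y ≠ 0) ∧ ∀ y ∈ Y, ∀ y' ∈ Y, y ≠ y' → y' ∉ RL.Mo v y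

theorem conv (L : (Fin d → ℤ) →+ ℂ) (h : ∀ x, L x = 0 → x = 0) (N : Fin d → ℝ) {ν : ℝ} (hν : 2 ≤ ν)
    (Θ : Finset ℂ) (hΘ : Dirs Θ) (hc : ∀ θ ∈ Θ, ν ≤ (cM N (Mt L θ) 1 : ℝ))
    (hr : ∀ θ ∈ Θ, d ≤ 2 * Module.finrank ℤ (Gm L N θ)) :
    ∃ Y : Finset (Fin d → ℤ), Y.card = Θ.card ∧ Np (fun i => L (Pi.single i 1)) Y ∧
      ∀ y ∈ Y, ν ≤ (cM N (RL.Mo (fun i => L (Pi.single i 1)) y) 1 : ℝ) ∧
        d ≤ 2 * Module.finrank ℤ (RL.Mo (fun i => L (Pi.single i 1)) y) := by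
  classical
  have hy : ∀ θ ∈ Θ, ∃ y : Fin d → ℤ, y ≠ 0 ∧ par θ (L y) := by
    intro θ hθ
    have h1 : (2 : ℝ) ≤ (cM N (Mt L θ) 1 : ℝ) := hν.trans (hc θ hθ)
    have h2 : 1 < cM N (Mt L θ) 1 := by
      have : 2 ≤ cM N (Mt L θ) 1 := by exact_mod_cast h1
      omega
    unfold cM at h2
    obtain ⟨a, ha, b, hb, hab⟩ := Finset.one_lt_card.1 h2
    rw [Finset.mem_filter] at ha hb
    by_cases ha0 : a = 0
    · refine ⟨b, ?_, hb.2⟩
      rintro rfl
      exact hab ha0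
    · exact ⟨a, ha0, ha.2⟩
  choose! y hy0 hyp using hy
  have hLy : ∀ θ ∈ Θ, L (y θ) ≠ 0 := fun θ hθ h1 => hy0 θ hθ (h _ h1)
  have hne : ∀ θ ∈ Θ, ∀ θ' ∈ Θ, θ ≠ θ' → ¬ par θ (L (y θ')) := by
    intro θ hθ θ' hθ' hn h1
    exact hLy θ' hθ' (par_two (hΘ.1 θ hθ) (hΘ.1 θ' hθ') (hΘ.2 θ hθ θ' hθ' hn) h1 (hyp θ' hθ'))
  have hMo : ∀ θ ∈ Θ, RL.Mo (fun i => L (Pi.single i 1)) (y θ) = Mt L θ := by
    intro θ hθ
    ext z
    have h1 : z ∈ RL.Mo (fun i => L (Pi.single i 1)) (y θ) ↔ par (L (y θ)) (L z) := by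
      rw [RL.mem_Mo]
      unfold RL.om par
      rw [← L_eq, ← L_eq]
    rw [h1, mem_Mt]
    constructor
    · intro h2
      exact par_trans (hLy θ hθ) (par_symm (hyp θ hθ)) h2
    · intro h2
      exact par_trans (hΘ.1 θ hθ) (hyp θ hθ) h2
  have hinj : Set.InjOn y (Θ : Set ℂ) := by
    intro θ hθ θ' hθ' he
    by_contra hn
    refine hne θ hθ θ' hθ' hn ?_
    rw [← he]
    exact hyp θ hθ
  refine ⟨Θ.image y, Finset.card_image_of_injOn hinj, ⟨?_, ?_⟩, ?_⟩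
  · intro z hz
    obtain ⟨θ, hθ, rfl⟩ := Finset.mem_image.1 hz
    exact hy0 θ hθ
  · intro z hz z' hz' hn
    obtain ⟨θ, hθ, rfl⟩ := Finset.mem_image.1 hz
    obtain ⟨θ', hθ', rfl⟩ := Finset.mem_image.1 hz'
    rw [hMo θ hθ, mem_Mt]
    refine hne θ hθ θ' hθ' ?_
    rintro rfl
    exact hn rfl
  · intro z hz
    obtain ⟨θ, hθ, rfl⟩ := Finset.mem_image.1 hz
    rw [hMo θ hθ]
    refine ⟨hc θ hθ, (hr θ hθ).trans ?_⟩
    have h1 := Submodule.finrank_mono (Gm_le L N θ)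
    omega

end Pool.Agent.SD
end

section

/-!
# TASK SD Ga: averaging over translates; many vectors from few short ones

PROOF of `averaging`.  The `|A| |U|` pairs `(a, u)` are mapped by `(a, u) ↦ a + u` into `Z`, so some `z ∈ Z` has at least `|A| |U|/|Z|` pairs (`Finset.exists_le_card_fiber...` or: if every fibre had fewer, sum).  Precisely: for some `z`,
`|A| |U| ≤ |Z| * #{(a, u) | a + u = z}` (if `Z` is empty then `A` or `U` is empty, take any `z`).  For these pairs `a = z - u` lies on the line `z + ℝ θ` (`par_iff_smul`), and `a` determines `u`.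

PROOF of `many`.  Let `B = ρ m`, `m ≥ 1`, `n = ⌊1/(ρ m)⌋`, a natural number.  For integers `c k ∈ [-n, n]` the vector `∑ c k • w k` lies in `M` and in `wB N 1` (`|c k| |w k l| ≤ n ρ N l`, sum at most `m n ρ N l ≤ N l`), different `c` give different vectors.  So
`cM N M 1 ≥ (2 n + 1)^m ≥ (1/(ρ m))^m`.
-/

set_option autoImplicit false

open scoped ComplexConjugate
open Finset

namespace Pool.Agent.SD

theorem averaging (A U Z : Finset ℂ) {θ : ℂ} (hθ : θ ≠ 0) (hU : ∀ u ∈ U, par θ u)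
    (hZ : ∀ a ∈ A, ∀ u ∈ U, a + u ∈ Z) :
    ∃ p : ℂ, A.card * U.card ≤ Z.card * (RL.onLine A p θ).card := by
  classical
  rcases Z.eq_empty_or_nonempty with hZe | hZe
  · refine ⟨0, ?_⟩
    have h1 : A.card * U.card = 0 := by
      by_contra h
      have hA : 0 < A.card := Nat.pos_of_ne_zero fun h0 => h (by rw [h0, zero_mul])
      have hU0 : 0 < U.card := Nat.pos_of_ne_zero fun h0 => h (by rw [h0, mul_zero])
      obtain ⟨a, ha⟩ := Finset.card_pos.1 hA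
      obtain ⟨u, hu⟩ := Finset.card_pos.1 hU0
      have := hZ a ha u hu
      rw [hZe] at this
      exact absurd this (Finset.notMem_empty _)
    rw [h1]
    exact Nat.zero_le _
  · obtain ⟨p, hp, hmax⟩ := Finset.exists_max_image Z (fun z => (RL.onLine A z θ).card) hZe
    refine ⟨p, ?_⟩
    have h1 : (A ×ˢ U).card = ∑ z ∈ Z, ((A ×ˢ U).filter fun q => q.1 + q.2 = z).card :=
      Finset.card_eq_sum_card_fiberwise fun q hq => by
        have hq' := Finset.mem_product.1 (Finset.mem_coe.1 hq)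
        exact Finset.mem_coe.2 (hZ q.1 hq'.1 q.2 hq'.2)
    have h2 : ∀ z ∈ Z, ((A ×ˢ U).filter fun q => q.1 + q.2 = z).card ≤ (RL.onLine A p θ).card := by
      intro z hz
      refine le_trans ?_ (hmax z hz)
      refine Finset.card_le_card_of_injOn (fun q => q.1) ?_ ?_
      · intro q hq
        have hq1 := Finset.mem_filter.1 (Finset.mem_coe.1 hq)
        have hq2 := Finset.mem_product.1 hq1.1
        obtain ⟨t, ht⟩ := (par_iff_smul hθ).1 (hU q.2 hq2.2)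
        refine Finset.mem_coe.2 (Finset.mem_filter.2 ⟨hq2.1, -t, ?_⟩)
        have h3 : q.1 + q.2 = z := hq1.2
        rw [← h3, ht]
        push_cast
        ring
      · intro q hq q' hq' hqq
        have hq1 := (Finset.mem_filter.1 (Finset.mem_coe.1 hq)).2
        have hq1' := (Finset.mem_filter.1 (Finset.mem_coe.1 hq')).2
        have hqq' : q.1 = q'.1 := hqq
        refine Prod.ext hqq' ?_
        rw [← hq1', hqq'] at hq1
        exact add_left_cancel hq1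
    rw [Finset.card_product] at h1
    rw [h1]
    calc ∑ z ∈ Z, ((A ×ˢ U).filter fun q => q.1 + q.2 = z).card
        ≤ ∑ _z ∈ Z, (RL.onLine A p θ).card := Finset.sum_le_sum h2
      _ = Z.card * (RL.onLine A p θ).card := by rw [Finset.sum_const, smul_eq_mul]

theorem many {d m : ℕ} (hm : 1 ≤ m) {N : Fin d → ℝ} (hN : ∀ i, 0 < N i) (M : Submodule ℤ (Fin d → ℤ))
    (w : Fin m → (Fin d → ℤ)) (hw : LinearIndependent ℤ w) {ρ : ℝ} (hρ : 0 < ρ)
    (h : ∀ k, w k ∈ M ∧ w k ∈ wB N ρ) : (1 / (ρ * m)) ^ m ≤ (cM N M 1 : ℝ) := by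
  classical
  have hm0 : (0 : ℝ) < m := by
    have : (1 : ℝ) ≤ m := by exact_mod_cast hm
    linarith
  have hr : 0 ≤ 1 / (ρ * m) := by positivity
  set n : ℕ := ⌊1 / (ρ * m)⌋₊ with hn
  have hn1 : (n : ℝ) ≤ 1 / (ρ * m) := Nat.floor_le hr
  have hn2 : 1 / (ρ * m) ≤ 2 * n + 1 := by
    have h1 := Nat.lt_floor_add_one (1 / (ρ * m))
    rw [← hn] at h1
    have h2 : (0 : ℝ) ≤ n := Nat.cast_nonneg n
    linarith
  have hcard : (Fintype.piFinset fun _ : Fin m => Finset.Icc (-(n : ℤ)) n).card = (2 * n + 1) ^ m := by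
    rw [Fintype.card_piFinset, Finset.prod_const, Finset.card_univ, Fintype.card_fin, Int.card_Icc]
    congr 1
    omega
  have hle : (Fintype.piFinset fun _ : Fin m => Finset.Icc (-(n : ℤ)) n).card ≤ cM N M 1 := by
    unfold cM
    refine Finset.card_le_card_of_injOn (fun c => ∑ k, c k • w k) ?_ ?_
    · intro c hc
      have hc1 := Fintype.mem_piFinset.1 (Finset.mem_coe.1 hc)
      refine Finset.mem_coe.2 (Finset.mem_filter.2 ⟨?_, ?_⟩)
      · rw [mem_wB]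
        intro i
        have h1 : (((∑ k, c k • w k) i : ℤ) : ℝ) = ∑ k, (c k : ℝ) * (w k i : ℝ) := by
          rw [Finset.sum_apply]
          push_cast
          refine Finset.sum_congr rfl fun k _ => ?_
          rw [Pi.smul_apply, smul_eq_mul]
          push_cast
          rfl
        rw [h1]
        calc |∑ k, (c k : ℝ) * (w k i : ℝ)| ≤ ∑ k, |(c k : ℝ) * (w k i : ℝ)| :=
              Finset.abs_sum_le_sum_abs _ _
          _ ≤ ∑ _k : Fin m, (n : ℝ) * (ρ * N i) := by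
              refine Finset.sum_le_sum fun k _ => ?_
              rw [abs_mul]
              have h2 := Finset.mem_Icc.1 (hc1 k)
              have h3 : |(c k : ℝ)| ≤ n := by
                rw [abs_le]
                exact ⟨by exact_mod_cast h2.1, by exact_mod_cast h2.2⟩
              exact mul_le_mul h3 (mem_wB.1 (h k).2 i) (abs_nonneg _) (Nat.cast_nonneg n)
          _ = m * ((n : ℝ) * (ρ * N i)) := by
              rw [Finset.sum_const, Finset.card_univ, Fintype.card_fin, nsmul_eq_mul]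
          _ ≤ m * ((1 / (ρ * m)) * (ρ * N i)) := by
              refine mul_le_mul_of_nonneg_left (mul_le_mul_of_nonneg_right hn1 ?_) hm0.le
              have := hN i
              positivity
          _ = 1 * N i := by field_simp
      · exact Submodule.sum_mem _ fun k _ => Submodule.smul_mem _ _ (h k).1
    · intro c _ c' _ hcc
      have hcc' : ∑ k, c k • w k = ∑ k, c' k • w k := hcc
      have h1 : ∑ k, (c k - c' k) • w k = 0 := by
        simp only [sub_smul]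
        rw [Finset.sum_sub_distrib, hcc', sub_self]
      have h2 := Fintype.linearIndependent_iff.1 hw (fun k => c k - c' k) h1
      funext k
      have := h2 k
      linarith
  rw [hcard] at hle
  calc (1 / (ρ * m)) ^ m ≤ (2 * (n : ℝ) + 1) ^ m := pow_le_pow_left₀ hr hn2 m
    _ = (((2 * n + 1) ^ m : ℕ) : ℝ) := by push_cast; ring
    _ ≤ (cM N M 1 : ℝ) := by exact_mod_cast hle

theorem onLine_mono {A A' : Finset ℂ} (h : A ⊆ A') (p w : ℂ) :
    (RL.onLine A p w).card ≤ (RL.onLine A' p w).card := by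
  classical
  unfold RL.onLine
  exact Finset.card_le_card (Finset.filter_subset_filter _ h)

theorem numDist_mono {A A' : Finset ℂ} (h : A ⊆ A') : RL.numDist A ≤ RL.numDist A' := by
  classical
  unfold RL.numDist
  refine Finset.card_le_card (Finset.image_subset_image ?_)
  intro q hq
  rw [Finset.mem_offDiag] at hq ⊢
  exact ⟨h hq.1, h hq.2.1, hq.2.2⟩

end Pool.Agent.SD
end

section

/-!
# TASK SD PA: parts of the last step

`n = |A|`, `A₁ = In N L z A` (the points of `A` in the translate `z + L(wB N 1)`).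

PROOF of `PA`.  `averaging` for `A₁`, `U = (image L (wB N 4)).filter (par θ)`, `Z = image (z + L ·) (wB N 5)`: `|A₁| |U| ≤ |Z| l`, `l` the number of points of `A₁` on the line (`onLine_mono`), `|Z| ≤ |wB N 5| ≤ 15^d ∏ N i ≤ 15^d |wB N 1| ≤ 15^d C n` (`card_le_V` with `t = 5`; `W_le_card`, `W_eq` with
`t = 1`).  So `c n |U| ≤ 15^d C n l`, and `√n ≤ X₀ |U| ≤ X₀ (15^d C/c) l` (`n > 0`; if `n = 0` the left side is `0`).

PROOF of `PB`.  `A₁` is nonempty (`c n ≥ 2`), `a₀ ∈ A₁`.  `dist_par` for `A₁` and `X = image L (wB N 4)`: `a - b ∈ L(wB N 2) ⊆ X`, `a + b - 2 a₀ ∈ L(wB N 4)`.  `(c n/2)² ≤ (|A₁| - 1)² ≤ D (Zpa X + 2 n)` with `D = numDist A ≥ numDist A₁` (`numDist_mono`), so `D > 0` and `Zpa X ≥ c² n²/(4 D) - 2 n ≥ c² n u/(4 c₁) - 2 n ≥ (c²/(8 c₁)) n u`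
(`D u ≤ c₁ n`; `2 ≤ c² u/(8 c₁)` because `c₁ ≤ c²/16`, `u ≥ 1`).

PROOF of `PC`.  `averaging` for `A₂ = In N L z A`, `U = image L ((wB N 1).filter (· ∈ Mt L θ))`, `|U| = cM N (Mt L θ) 1` (`L` injective), `Z = image (z + L ·) (wB N 2)`, `|Z| ≤ |wB N 2| ≤ 6^d V`: `σ n |U| ≤ 6^d V l`.  With `√V ≤ Y |U|`: `σ n √V ≤ Y σ n |U| ≤ Y 6^d V l`, so `σ n ≤ 6^d Y √V l ≤ 6^d Y √(B n/σ) l`
(`V ≤ B n/σ`), so `√n ≤ 6^d Y √B σ^(-3/2) l ≤ 6^d Y B/σ² l` (`σ ≤ 1`, `B ≥ 1`).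
-/

set_option autoImplicit false

open scoped ComplexConjugate
open Finset

namespace Pool.Agent.SD

open Classical in
/-- The points of `A` in the translate `z + L(wB N 1)`. -/
noncomputable def In {d : ℕ} (N : Fin d → ℝ) (L : (Fin d → ℤ) →+ ℂ) (z : ℂ) (A : Finset ℂ) : Finset ℂ :=
  A.filter fun a => ∃ x ∈ wB N 1, a = z + L x

private theorem PA_Z {d : ℕ} {N : Fin d → ℝ} (hN : ∀ i, 1 ≤ N i) (L : (Fin d → ℤ) →+ ℂ) (z : ℂ) {t : ℝ}
    (ht : 1 ≤ t) : (((wB N t).image fun x => z + L x).card : ℝ) ≤ (3 * t) ^ d * ∏ i, N i := by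
  have h1 : (((wB N t).image fun x => z + L x).card : ℝ) ≤ ((wB N t).card : ℝ) := by
    exact_mod_cast Finset.card_image_le
  refine h1.trans (card_le_V (fun i => zero_le_one.trans (hN i)) (by linarith) fun i => ?_)
  have := hN i
  nlinarith

private theorem PA_mem {d : ℕ} {N : Fin d → ℝ} {L : (Fin d → ℤ) →+ ℂ} {z : ℂ} {A : Finset ℂ} {a : ℂ}
    (h : a ∈ In N L z A) : a ∈ A ∧ ∃ x ∈ wB N 1, a = z + L x := by
  unfold In at h
  rw [Finset.mem_filter] at h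
  exact h

private theorem PA_sub {d : ℕ} (N : Fin d → ℝ) (L : (Fin d → ℤ) →+ ℂ) (z : ℂ) (A : Finset ℂ) :
    In N L z A ⊆ A := fun _ h => (PA_mem h).1

private theorem PA_V {d : ℕ} {N : Fin d → ℝ} (hN : ∀ i, 1 ≤ N i) :
    ∏ i, N i ≤ ((wB N 1).card : ℝ) := by
  have h1 : W N 1 = 1 ^ d * ∏ i, N i := W_eq (fun i => by have := hN i; linarith)
  rw [one_pow, one_mul] at h1
  rw [← h1]
  exact W_le_card (fun i => zero_le_one.trans (hN i)) zero_le_one

theorem PA (d : ℕ) (c C : ℝ) (hc : 0 < c) (hC : 1 ≤ C) (N : Fin d → ℝ) (L : (Fin d → ℤ) →+ ℂ) (z : ℂ)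
    (A : Finset ℂ) (hN : ∀ i, 1 ≤ N i) (h1 : ((wB N 1).card : ℝ) ≤ C * A.card)
    (h2 : c * (A.card : ℝ) ≤ ((In N L z A).card : ℝ)) {X₀ : ℝ} (hX : 0 ≤ X₀) {θ : ℂ} (hθ : θ ≠ 0)
    (h3 : Real.sqrt A.card ≤ X₀ * (nT ((wB N 4).image L) θ : ℝ)) :
    ∃ p : ℂ, Real.sqrt A.card ≤ 15 ^ d * C / c * X₀ * ((RL.onLine A p θ).card : ℝ) := by
  classical
  have hC0 : 0 < C := by linarith
  rcases Nat.eq_zero_or_pos A.card with h0 | hpos
  · refine ⟨0, ?_⟩
    rw [h0, Nat.cast_zero, Real.sqrt_zero]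
    positivity
  have hn : (0 : ℝ) < A.card := by exact_mod_cast hpos
  obtain ⟨p, hp⟩ := averaging (In N L z A) (((wB N 4).image L).filter fun x => par θ x)
    ((wB N 5).image fun x => z + L x) hθ (fun u hu => (Finset.mem_filter.1 hu).2) (by
      intro a ha u hu
      obtain ⟨_, x, hx, rfl⟩ := PA_mem ha
      obtain ⟨y, hy, rfl⟩ := Finset.mem_image.1 (Finset.mem_filter.1 hu).1
      refine Finset.mem_image.2 ⟨x + y, ?_, ?_⟩
      · have := add_mem_wB hx hy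
        norm_num at this
        exact this
      · rw [map_add]
        ring)
  refine ⟨p, ?_⟩
  have hnT : (((wB N 4).image L).filter fun x => par θ x).card = nT ((wB N 4).image L) θ := by
    unfold nT
    congr
  have hp' : ((In N L z A).card : ℝ) * (nT ((wB N 4).image L) θ : ℝ) ≤
      (((wB N 5).image fun x => z + L x).card : ℝ) * ((RL.onLine (In N L z A) p θ).card : ℝ) := by
    rw [← hnT]
    exact_mod_cast hp
  have hl : ((RL.onLine (In N L z A) p θ).card : ℝ) ≤ ((RL.onLine A p θ).card : ℝ) := by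
    exact_mod_cast onLine_mono (PA_sub N L z A) p θ
  have hZ : (((wB N 5).image fun x => z + L x).card : ℝ) ≤ 15 ^ d * (C * A.card) := by
    have e1 := PA_Z hN L z (t := 5) (by norm_num)
    have e2 : (3 * 5 : ℝ) = 15 := by norm_num
    rw [e2] at e1
    refine e1.trans ?_
    gcongr
    exact (PA_V hN).trans h1
  have hT0 : (0 : ℝ) ≤ (nT ((wB N 4).image L) θ : ℝ) := Nat.cast_nonneg _
  have hl0 : (0 : ℝ) ≤ ((RL.onLine (In N L z A) p θ).card : ℝ) := Nat.cast_nonneg _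
  have hl1 : (0 : ℝ) ≤ ((RL.onLine A p θ).card : ℝ) := Nat.cast_nonneg _
  have e3 : c * (A.card : ℝ) * (nT ((wB N 4).image L) θ : ℝ) ≤
      15 ^ d * (C * A.card) * ((RL.onLine A p θ).card : ℝ) := by
    calc c * (A.card : ℝ) * (nT ((wB N 4).image L) θ : ℝ)
        ≤ ((In N L z A).card : ℝ) * (nT ((wB N 4).image L) θ : ℝ) := by gcongr
      _ ≤ (((wB N 5).image fun x => z + L x).card : ℝ) * ((RL.onLine (In N L z A) p θ).card : ℝ) := hp'
      _ ≤ 15 ^ d * (C * A.card) * ((RL.onLine A p θ).card : ℝ) := by gcongr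
  have e4 : (nT ((wB N 4).image L) θ : ℝ) ≤ 15 ^ d * C / c * ((RL.onLine A p θ).card : ℝ) := by
    rw [div_mul_eq_mul_div, le_div_iff₀ hc]
    have : (A.card : ℝ) * ((nT ((wB N 4).image L) θ : ℝ) * c) ≤
        (A.card : ℝ) * (15 ^ d * C * ((RL.onLine A p θ).card : ℝ)) := by
      nlinarith [e3]
    exact le_of_mul_le_mul_left this hn
  calc Real.sqrt A.card ≤ X₀ * (nT ((wB N 4).image L) θ : ℝ) := h3
    _ ≤ X₀ * (15 ^ d * C / c * ((RL.onLine A p θ).card : ℝ)) := by gcongr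
    _ = 15 ^ d * C / c * X₀ * ((RL.onLine A p θ).card : ℝ) := by ring

theorem PB (d : ℕ) (c : ℝ) (hc : 0 < c) (N : Fin d → ℝ) (L : (Fin d → ℤ) →+ ℂ) (z : ℂ)
    (A : Finset ℂ) (hN : ∀ i, 1 ≤ N i) (h2 : c * (A.card : ℝ) ≤ ((In N L z A).card : ℝ))
    (hn : 2 ≤ c * (A.card : ℝ)) {c₁ u : ℝ} (hc₁ : 0 < c₁) (hc₁' : c₁ ≤ c ^ 2 / 16) (hu : 1 ≤ u)
    (hD : (RL.numDist A : ℝ) * u ≤ c₁ * A.card) :
    c ^ 2 / (8 * c₁) * A.card * u ≤ (Zpa ((wB N 4).image L) : ℝ) := by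
  have hN0 : ∀ i, 0 ≤ N i := fun i => zero_le_one.trans (hN i)
  have hA : (0 : ℝ) ≤ A.card := Nat.cast_nonneg _
  have hn0 : (0 : ℝ) < A.card := by
    rcases hA.eq_or_lt with h | h
    · rw [← h, mul_zero] at hn
      linarith
    · exact h
  have hne : (In N L z A).Nonempty := by
    rw [← Finset.card_pos]
    have : (0 : ℝ) < ((In N L z A).card : ℝ) := by linarith
    exact_mod_cast this
  obtain ⟨a₀, ha₀⟩ := hne
  have hsub : ∀ a ∈ In N L z A, ∀ b ∈ In N L z A, ∃ x ∈ wB N 2, a - b = L x := by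
    intro a ha b hb
    obtain ⟨_, x, hx, rfl⟩ := PA_mem ha
    obtain ⟨_, y, hy, rfl⟩ := PA_mem hb
    refine ⟨x - y, ?_, ?_⟩
    · have := sub_mem_wB hx hy
      norm_num at this
      exact this
    · rw [map_sub]
      ring
  have hd := dist_par (In N L z A) ((wB N 4).image L) ha₀ (by
    intro a ha b hb
    constructor
    · obtain ⟨x, hx, h⟩ := hsub a ha b hb
      exact Finset.mem_image.2 ⟨x, wB_mono hN0 (by norm_num) hx, h.symm⟩
    · obtain ⟨x, hx, h⟩ := hsub a ha a₀ ha₀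
      obtain ⟨y, hy, h'⟩ := hsub b hb a₀ ha₀
      refine Finset.mem_image.2 ⟨x + y, ?_, ?_⟩
      · have := add_mem_wB hx hy
        norm_num at this
        exact this
      · rw [map_add, ← h, ← h']
        ring)
  have hm : ((RL.numDist (In N L z A) : ℕ) : ℝ) ≤ (RL.numDist A : ℝ) := by
    exact_mod_cast numDist_mono (PA_sub N L z A)
  have hcard : ((In N L z A).card : ℝ) ≤ (A.card : ℝ) := by
    exact_mod_cast Finset.card_le_card (PA_sub N L z A)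
  have hZ0 : (0 : ℝ) ≤ (Zpa ((wB N 4).image L) : ℝ) := Nat.cast_nonneg _
  have hD0 : (0 : ℝ) ≤ (RL.numDist A : ℝ) := Nat.cast_nonneg _
  have e1 : (c * (A.card : ℝ) / 2) ^ 2 ≤ (RL.numDist A : ℝ) * ((Zpa ((wB N 4).image L) : ℝ) + 2 * A.card) := by
    have e2 : (c * (A.card : ℝ) / 2) ^ 2 ≤ (((In N L z A).card : ℝ) - 1) ^ 2 := by
      refine pow_le_pow_left₀ (by linarith) (by linarith) 2
    refine e2.trans (hd.trans ?_)
    gcongr
  have e3 : (c * (A.card : ℝ) / 2) ^ 2 * u ≤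
      c₁ * A.card * ((Zpa ((wB N 4).image L) : ℝ) + 2 * A.card) := by
    calc (c * (A.card : ℝ) / 2) ^ 2 * u
        ≤ (RL.numDist A : ℝ) * ((Zpa ((wB N 4).image L) : ℝ) + 2 * A.card) * u := by gcongr
      _ = (RL.numDist A : ℝ) * u * ((Zpa ((wB N 4).image L) : ℝ) + 2 * A.card) := by ring
      _ ≤ c₁ * A.card * ((Zpa ((wB N 4).image L) : ℝ) + 2 * A.card) := by gcongr
  have e4 : c ^ 2 * A.card * u / 4 ≤ c₁ * ((Zpa ((wB N 4).image L) : ℝ) + 2 * A.card) := by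
    have : (A.card : ℝ) * (c ^ 2 * A.card * u / 4) ≤
        (A.card : ℝ) * (c₁ * ((Zpa ((wB N 4).image L) : ℝ) + 2 * A.card)) := by
      nlinarith [e3]
    exact le_of_mul_le_mul_left this hn0
  have e5 : 2 * c₁ * A.card ≤ c ^ 2 * A.card * u / 8 := by
    have h5 : c₁ * A.card ≤ c ^ 2 / 16 * A.card := by gcongr
    have h6 : c ^ 2 / 16 * A.card * 1 ≤ c ^ 2 / 16 * A.card * u := by gcongr
    linarith
  have e6 : c ^ 2 * A.card * u / 8 ≤ c₁ * (Zpa ((wB N 4).image L) : ℝ) := by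
    rw [mul_add] at e4
    linarith
  have e7 : c ^ 2 / (8 * c₁) * A.card * u = c ^ 2 * A.card * u / 8 / c₁ := by
    field_simp
  rw [e7, div_le_iff₀ hc₁]
  linarith

theorem PC (d : ℕ) (N : Fin d → ℝ) (L : (Fin d → ℤ) →+ ℂ) (hL : ∀ x, L x = 0 → x = 0) (z : ℂ)
    (A : Finset ℂ) (hN : ∀ i, 1 ≤ N i) {σ B Y : ℝ} (hσ : 0 < σ) (hσ1 : σ ≤ 1) (hB : 1 ≤ B) (hY : 0 ≤ Y)
    (h1 : (∏ i, N i) * σ ≤ B * A.card) (h2 : σ * (A.card : ℝ) ≤ ((In N L z A).card : ℝ)) {θ : ℂ}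
    (hθ : θ ≠ 0) (h3 : Real.sqrt (∏ i, N i) ≤ Y * (cM N (Mt L θ) 1 : ℝ)) :
    ∃ p : ℂ, Real.sqrt A.card ≤ 6 ^ d * B / σ ^ 2 * Y * ((RL.onLine A p θ).card : ℝ) := by
  classical
  have hinj : Function.Injective L := (injective_iff_map_eq_zero L).2 hL
  rcases Nat.eq_zero_or_pos A.card with h0 | hpos
  · refine ⟨0, ?_⟩
    rw [h0, Nat.cast_zero, Real.sqrt_zero]
    positivity
  have hn : (0 : ℝ) < A.card := by exact_mod_cast hpos
  have hV : 0 < ∏ i, N i := Finset.prod_pos fun i _ => zero_lt_one.trans_le (hN i)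
  obtain ⟨p, hp⟩ := averaging (In N L z A) (((wB N 1).filter (· ∈ Mt L θ)).image L)
    ((wB N 2).image fun x => z + L x) hθ (by
      intro u hu
      obtain ⟨y, hy, rfl⟩ := Finset.mem_image.1 hu
      exact (Finset.mem_filter.1 hy).2) (by
      intro a ha u hu
      obtain ⟨_, x, hx, rfl⟩ := PA_mem ha
      obtain ⟨y, hy, rfl⟩ := Finset.mem_image.1 hu
      refine Finset.mem_image.2 ⟨x + y, ?_, ?_⟩
      · have := add_mem_wB hx (Finset.mem_filter.1 hy).1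
        norm_num at this
        exact this
      · rw [map_add]
        ring)
  refine ⟨p, ?_⟩
  have hU : (((wB N 1).filter (· ∈ Mt L θ)).image L).card = cM N (Mt L θ) 1 := by
    rw [Finset.card_image_of_injective _ hinj]
    unfold cM
    congr
  have hp' : ((In N L z A).card : ℝ) * (cM N (Mt L θ) 1 : ℝ) ≤
      (((wB N 2).image fun x => z + L x).card : ℝ) * ((RL.onLine (In N L z A) p θ).card : ℝ) := by
    rw [← hU]
    exact_mod_cast hp
  have hl : ((RL.onLine (In N L z A) p θ).card : ℝ) ≤ ((RL.onLine A p θ).card : ℝ) := by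
    exact_mod_cast onLine_mono (PA_sub N L z A) p θ
  have hZ : (((wB N 2).image fun x => z + L x).card : ℝ) ≤ 6 ^ d * ∏ i, N i := by
    have e1 := PA_Z hN L z (t := 2) (by norm_num)
    have e2 : (3 * 2 : ℝ) = 6 := by norm_num
    rw [e2] at e1
    exact e1
  have hU0 : (0 : ℝ) ≤ (cM N (Mt L θ) 1 : ℝ) := Nat.cast_nonneg _
  have hl0 : (0 : ℝ) ≤ ((RL.onLine (In N L z A) p θ).card : ℝ) := Nat.cast_nonneg _
  have hl1 : (0 : ℝ) ≤ ((RL.onLine A p θ).card : ℝ) := Nat.cast_nonneg _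
  have e3 : σ * (A.card : ℝ) * (cM N (Mt L θ) 1 : ℝ) ≤
      6 ^ d * (∏ i, N i) * ((RL.onLine A p θ).card : ℝ) := by
    calc σ * (A.card : ℝ) * (cM N (Mt L θ) 1 : ℝ)
        ≤ ((In N L z A).card : ℝ) * (cM N (Mt L θ) 1 : ℝ) := by gcongr
      _ ≤ (((wB N 2).image fun x => z + L x).card : ℝ) * ((RL.onLine (In N L z A) p θ).card : ℝ) := hp'
      _ ≤ 6 ^ d * (∏ i, N i) * ((RL.onLine A p θ).card : ℝ) := by gcongr
  generalize hl' : ((RL.onLine A p θ).card : ℝ) = l at *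
  generalize hV' : (∏ i, N i) = V at *
  generalize hn' : (A.card : ℝ) = n at *
  generalize hu' : (cM N (Mt L θ) 1 : ℝ) = u at *
  have hsV : 0 < Real.sqrt V := Real.sqrt_pos.2 hV
  have hsn : 0 < Real.sqrt n := Real.sqrt_pos.2 hn
  have hVV : Real.sqrt V * Real.sqrt V = V := Real.mul_self_sqrt hV.le
  have hnn : Real.sqrt n * Real.sqrt n = n := Real.mul_self_sqrt hn.le
  have e4 : σ * n ≤ Y * 6 ^ d * l * Real.sqrt V := by
    have : Real.sqrt V * (σ * n) ≤ Real.sqrt V * (Y * 6 ^ d * l * Real.sqrt V) := by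
      calc Real.sqrt V * (σ * n) ≤ (Y * u) * (σ * n) := by gcongr
        _ = Y * (σ * n * u) := by ring
        _ ≤ Y * (6 ^ d * V * l) := by gcongr
        _ = Real.sqrt V * (Y * 6 ^ d * l * Real.sqrt V) := by
          rw [← hVV]
          rw [hVV]
          linear_combination (-(Y * 6 ^ d * l)) * hVV
    exact le_of_mul_le_mul_left this hsV
  have hBσ : 1 ≤ B / σ := by
    rw [le_div_iff₀ hσ]
    linarith
  have e5 : Real.sqrt V ≤ B / σ * Real.sqrt n := by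
    refine Real.sqrt_le_iff.2 ⟨by positivity, ?_⟩
    have h5 : V ≤ B / σ * n := by
      rw [div_mul_eq_mul_div, le_div_iff₀ hσ]
      exact h1
    calc V ≤ B / σ * n := h5
      _ ≤ (B / σ) * (B / σ) * n := by nlinarith [mul_nonneg (sub_nonneg.2 hBσ) (mul_nonneg (zero_le_one.trans hBσ) hn.le)]
      _ = (B / σ * Real.sqrt n) ^ 2 := by
        rw [mul_pow, sq (Real.sqrt n), hnn]
        ring
  have e6 : σ * Real.sqrt n ≤ Y * 6 ^ d * l * (B / σ) := by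
    have : Real.sqrt n * (σ * Real.sqrt n) ≤ Real.sqrt n * (Y * 6 ^ d * l * (B / σ)) := by
      calc Real.sqrt n * (σ * Real.sqrt n) = σ * (Real.sqrt n * Real.sqrt n) := by ring
        _ = σ * n := by rw [hnn]
        _ ≤ Y * 6 ^ d * l * Real.sqrt V := e4
        _ ≤ Y * 6 ^ d * l * (B / σ * Real.sqrt n) := by gcongr
        _ = Real.sqrt n * (Y * 6 ^ d * l * (B / σ)) := by ring
    exact le_of_mul_le_mul_left this hsn
  have e7 : 6 ^ d * B / σ ^ 2 * Y * l = Y * 6 ^ d * l * (B / σ) / σ := by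
    field_simp
  rw [e7, le_div_iff₀ hσ]
  linarith

end Pool.Agent.SD
end

section

/-!
# Many points on rich lines
-/

set_option autoImplicit false

open scoped ComplexConjugate
open Finset

namespace Pool.Agent.SD

open Classical in
theorem mem_richPts {A : Finset ℂ} {w : ℂ} {T : ℝ} {a : ℂ} :
    a ∈ richPts A w T ↔ a ∈ A ∧ T ≤ ((RL.onLine A a w).card : ℝ) := by
  unfold richPts
  rw [mem_filter]

open Classical in
theorem mem_onLine {A : Finset ℂ} {p w a : ℂ} : a ∈ RL.onLine A p w ↔ a ∈ A ∧ ∃ t : ℝ, a = p + t * w := by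
  unfold RL.onLine
  rw [mem_filter]

theorem onLine_sub {A B : Finset ℂ} (h : B ⊆ A) {p w a : ℂ} (ha : a ∈ RL.onLine B p w) :
    RL.onLine B p w ⊆ RL.onLine A a w := by
  intro b hb
  obtain ⟨-, t, ht⟩ := mem_onLine.1 ha
  obtain ⟨hb1, s, hs⟩ := mem_onLine.1 hb
  refine mem_onLine.2 ⟨h hb1, s - t, ?_⟩
  rw [hs, ht]
  push_cast
  ring

theorem self_mem_onLine {A : Finset ℂ} {a : ℂ} (ha : a ∈ A) (w : ℂ) : a ∈ RL.onLine A a w :=
  mem_onLine.2 ⟨ha, 0, by simp⟩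

/-- If every more than half of `A₁` has a rich line then half of the points of `A₁` are on rich lines. -/
theorem poor {A A₁ : Finset ℂ} (hsub : A₁ ⊆ A) {θ : ℂ} {T : ℝ} (hT : 0 < T)
    (H : ∀ P ⊆ A₁, A₁.card < 2 * P.card → ∃ p, T ≤ ((RL.onLine P p θ).card : ℝ)) :
    A₁.card ≤ 2 * (richPts A θ T).card := by
  classical
  set P := A₁.filter fun a => ¬ T ≤ ((RL.onLine A a θ).card : ℝ) with hP
  have hPA : P ⊆ A₁ := filter_subset _ _
  have h1 : 2 * P.card ≤ A₁.card := by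
    by_contra h
    rw [not_le] at h
    obtain ⟨p, hp⟩ := H P hPA h
    have h2 : 0 < (RL.onLine P p θ).card := by
      have : (0 : ℝ) < ((RL.onLine P p θ).card : ℝ) := hT.trans_le hp
      exact_mod_cast this
    obtain ⟨a, ha⟩ := card_pos.1 h2
    have h3 := card_le_card (onLine_sub (hPA.trans hsub) ha)
    have h4 : a ∈ P := (mem_onLine.1 ha).1
    rw [hP, mem_filter] at h4
    exact h4.2 (hp.trans (by exact_mod_cast h3))
  have h2 : A₁.card ≤ P.card + (richPts A θ T).card := by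
    rw [← card_filter_add_card_filter_not (s := A₁) (fun a => ¬ T ≤ ((RL.onLine A a θ).card : ℝ))]
    refine add_le_add le_rfl (card_le_card ?_)
    intro a ha
    rw [mem_filter, not_not] at ha
    exact mem_richPts.2 ⟨hsub ha.1, ha.2⟩
  omega

/-- Rich points of a subset. -/
theorem richPts_mono {A B : Finset ℂ} (h : B ⊆ A) (w : ℂ) {S T : ℝ} (hST : S ≤ T) :
    richPts B w T ⊆ richPts A w S := by
  intro a ha
  obtain ⟨h1, h2⟩ := mem_richPts.1 ha
  refine mem_richPts.2 ⟨h h1, hST.trans (h2.trans ?_)⟩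
  exact_mod_cast onLine_mono h a w

theorem richPts_one (A : Finset ℂ) (w : ℂ) {T : ℝ} (hT : T ≤ 1) : richPts A w T = A := by
  ext a
  rw [mem_richPts]
  refine ⟨fun h => h.1, fun h => ⟨h, hT.trans ?_⟩⟩
  have : 0 < (RL.onLine A a w).card := card_pos.2 ⟨a, self_mem_onLine h w⟩
  exact_mod_cast this

/-- The whole set is dense in its own part of a progression. -/
theorem In_self {d : ℕ} {N : Fin d → ℝ} {L : (Fin d → ℤ) →+ ℂ} {z : ℂ} {A P : Finset ℂ}
    (h : P ⊆ In N L z A) : In N L z P = P := by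
  classical
  unfold In at h ⊢
  rw [filter_eq_self]
  intro a ha
  exact (mem_filter.1 (h ha)).2

end Pool.Agent.SD
end

section

/-!
# Distances and perpendicular pairs
-/

set_option autoImplicit false

open scoped ComplexConjugate
open Finset

namespace Pool.Agent.SD

open Classical in
private theorem Bd_cs (A' : Finset ℂ) (a₀ : ℂ) :
    A'.card ^ 2 ≤ (A'.image fun a => dist a a₀).card *
      ((A' ×ˢ A').filter fun p => dist p.1 a₀ = dist p.2 a₀).card := by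
  set I := A'.image fun a => dist a a₀ with hI
  set n : ℝ → ℕ := fun ρ => (A'.filter fun a => dist a a₀ = ρ).card with hn
  have e1 : A'.card = ∑ ρ ∈ I, n ρ :=
    Finset.card_eq_sum_card_fiberwise (fun a ha => Finset.mem_image_of_mem _ ha)
  have e2 : ((A' ×ˢ A').filter fun p => dist p.1 a₀ = dist p.2 a₀).card = ∑ ρ ∈ I, n ρ ^ 2 := by
    rw [Finset.card_eq_sum_card_fiberwise (f := fun p : ℂ × ℂ => dist p.1 a₀) (t := I)]
    · refine Finset.sum_congr rfl fun ρ _ => ?_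
      have : (((A' ×ˢ A').filter fun p => dist p.1 a₀ = dist p.2 a₀).filter
          fun p => dist p.1 a₀ = ρ)
          = (A'.filter fun a => dist a a₀ = ρ) ×ˢ (A'.filter fun a => dist a a₀ = ρ) := by
        ext ⟨a, b⟩
        simp only [Finset.mem_filter, Finset.mem_product]
        constructor
        · rintro ⟨⟨⟨ha, hb⟩, h⟩, h'⟩
          exact ⟨⟨ha, h'⟩, ⟨hb, h ▸ h'⟩⟩
        · rintro ⟨⟨ha, h⟩, ⟨hb, h'⟩⟩
          exact ⟨⟨⟨ha, hb⟩, h.trans h'.symm⟩, h⟩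
      rw [this, Finset.card_product, sq]
    · intro p hp
      have hp' := (Finset.mem_filter.1 (Finset.mem_coe.1 hp)).1
      exact Finset.mem_coe.2 (Finset.mem_image_of_mem _ (Finset.mem_product.1 hp').1)
  rw [e1, e2]
  exact sq_sum_le_card_mul_sum_sq

private theorem Bd_re (p q : ℂ) (h : ‖p‖ = ‖q‖) : (conj (p - q) * (p + q)).re = 0 := by
  have h2 : Complex.normSq p = Complex.normSq q := by
    rw [Complex.normSq_eq_norm_sq, Complex.normSq_eq_norm_sq, h]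
  rw [Complex.normSq_apply, Complex.normSq_apply] at h2
  simp only [map_sub, Complex.mul_re, Complex.sub_re, Complex.sub_im, Complex.add_re,
    Complex.add_im, Complex.conj_re, Complex.conj_im]
  nlinarith [h2]

theorem dist_perp (A X : Finset ℂ) {a₀ : ℂ} (h0 : a₀ ∈ A)
    (hX : ∀ a ∈ A, ∀ b ∈ A, a - b ∈ X ∧ a + b - 2 * a₀ ∈ X) :
    ((A.card : ℝ) - 1) ^ 2 ≤ (RL.numDist A : ℝ) * ((Zpe X : ℝ) + 2 * A.card) := by
  classical
  set A' := A.erase a₀ with hA'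
  have hcard : A'.card + 1 = A.card := Finset.card_erase_add_one h0
  have hsub : ∀ a ∈ A', a ∈ A := fun a ha => Finset.mem_of_mem_erase ha
  have himg : (A'.image fun a => dist a a₀).card ≤ RL.numDist A := by
    apply Finset.card_le_card
    intro r hr
    obtain ⟨a, ha, rfl⟩ := Finset.mem_image.1 hr
    exact Finset.mem_image.2 ⟨(a, a₀), Finset.mem_offDiag.2
      ⟨hsub a ha, h0, Finset.ne_of_mem_erase ha⟩, rfl⟩
  set P := (A' ×ˢ A').filter fun p => dist p.1 a₀ = dist p.2 a₀ with hP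
  set P1 := P.filter fun p => p.1 - p.2 ≠ 0 ∧ p.1 + p.2 - 2 * a₀ ≠ 0 with hP1
  set P2 := P.filter fun p => p.1 - p.2 = 0 with hP2
  set P3 := P.filter fun p => p.1 + p.2 - 2 * a₀ = 0 with hP3
  have hmem : ∀ p ∈ P, p.1 ∈ A' ∧ p.2 ∈ A' ∧ dist p.1 a₀ = dist p.2 a₀ := by
    intro p hp
    obtain ⟨h1, h2⟩ := Finset.mem_filter.1 hp
    obtain ⟨h3, h4⟩ := Finset.mem_product.1 h1
    exact ⟨h3, h4, h2⟩
  have hPsub : P ⊆ P1 ∪ (P2 ∪ P3) := by
    intro p hp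
    rw [Finset.mem_union, Finset.mem_union]
    by_cases z1 : p.1 - p.2 = 0
    · exact Or.inr (Or.inl (Finset.mem_filter.2 ⟨hp, z1⟩))
    · by_cases z2 : p.1 + p.2 - 2 * a₀ = 0
      · exact Or.inr (Or.inr (Finset.mem_filter.2 ⟨hp, z2⟩))
      · exact Or.inl (Finset.mem_filter.2 ⟨hp, z1, z2⟩)
  have c1 : P1.card ≤ Zpe X := by
    unfold Zpe
    apply Finset.card_le_card_of_injOn (fun p : ℂ × ℂ => (p.1 - p.2, p.1 + p.2 - 2 * a₀))
    · intro p hp
      obtain ⟨hp1, z1, z2⟩ := Finset.mem_filter.1 (Finset.mem_coe.1 hp)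
      obtain ⟨ha, hb, hd⟩ := hmem p hp1
      obtain ⟨x1, x2⟩ := hX p.1 (hsub _ ha) p.2 (hsub _ hb)
      refine Finset.mem_coe.2 (Finset.mem_filter.2 ⟨Finset.mem_product.2 ⟨x1, x2⟩, z1, z2, ?_⟩)
      have := Bd_re (p.1 - a₀) (p.2 - a₀) (by rw [← dist_eq_norm, ← dist_eq_norm]; exact hd)
      rw [show p.1 - a₀ - (p.2 - a₀) = p.1 - p.2 by ring,
        show p.1 - a₀ + (p.2 - a₀) = p.1 + p.2 - 2 * a₀ by ring] at this
      exact this
    · rintro ⟨a, b⟩ - ⟨a', b'⟩ - heq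
      simp only [Prod.mk.injEq] at heq
      obtain ⟨h1, h2⟩ := heq
      have k1 : a = a' := by linear_combination (h1 + h2) / 2
      have k2 : b = b' := by linear_combination (h2 - h1) / 2
      rw [k1, k2]
  have c2 : P2.card ≤ A.card := by
    apply Finset.card_le_card_of_injOn (fun p : ℂ × ℂ => p.1)
    · intro p hp
      exact Finset.mem_coe.2 (hsub _ (hmem p (Finset.mem_filter.1 (Finset.mem_coe.1 hp)).1).1)
    · rintro ⟨a, b⟩ hp ⟨a', b'⟩ hp' heq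
      have h1 := (Finset.mem_filter.1 (Finset.mem_coe.1 hp)).2
      have h2 := (Finset.mem_filter.1 (Finset.mem_coe.1 hp')).2
      simp only at h1 h2 heq
      have k2 : b = b' := by linear_combination heq - h1 + h2
      rw [heq, k2]
  have c3 : P3.card ≤ A.card := by
    apply Finset.card_le_card_of_injOn (fun p : ℂ × ℂ => p.1)
    · intro p hp
      exact Finset.mem_coe.2 (hsub _ (hmem p (Finset.mem_filter.1 (Finset.mem_coe.1 hp)).1).1)
    · rintro ⟨a, b⟩ hp ⟨a', b'⟩ hp' heq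
      have h1 := (Finset.mem_filter.1 (Finset.mem_coe.1 hp)).2
      have h2 := (Finset.mem_filter.1 (Finset.mem_coe.1 hp')).2
      simp only at h1 h2 heq
      have k2 : b = b' := by linear_combination h1 - h2 - heq
      rw [heq, k2]
  have hPc : P.card ≤ Zpe X + 2 * A.card := by
    have h1 := Finset.card_le_card hPsub
    have h2 := Finset.card_union_le P1 (P2 ∪ P3)
    have h3 := Finset.card_union_le P2 P3
    omega
  have hcs := Bd_cs A' a₀
  have hfin : A'.card ^ 2 ≤ RL.numDist A * (Zpe X + 2 * A.card) :=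
    hcs.trans (Nat.mul_le_mul himg hPc)
  have hcard' : (A.card : ℝ) - 1 = A'.card := by
    rw [← hcard]
    push_cast
    ring
  rw [hcard']
  exact_mod_cast hfin

private theorem Bd_mem {d : ℕ} {N : Fin d → ℝ} {L : (Fin d → ℤ) →+ ℂ} {z : ℂ} {A : Finset ℂ} {a : ℂ}
    (h : a ∈ In N L z A) : a ∈ A ∧ ∃ x ∈ wB N 1, a = z + L x := by
  unfold In at h
  rw [Finset.mem_filter] at h
  exact h

private theorem Bd_sub {d : ℕ} (N : Fin d → ℝ) (L : (Fin d → ℤ) →+ ℂ) (z : ℂ) (A : Finset ℂ) :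
    In N L z A ⊆ A := fun _ h => (Bd_mem h).1

theorem PBe (d : ℕ) (c : ℝ) (hc : 0 < c) (N : Fin d → ℝ) (L : (Fin d → ℤ) →+ ℂ) (z : ℂ)
    (A : Finset ℂ) (hN : ∀ i, 1 ≤ N i) (h2 : c * (A.card : ℝ) ≤ ((In N L z A).card : ℝ))
    (hn : 2 ≤ c * (A.card : ℝ)) {c₁ u : ℝ} (hc₁ : 0 < c₁) (hc₁' : c₁ ≤ c ^ 2 / 16) (hu : 1 ≤ u)
    (hD : (RL.numDist A : ℝ) * u ≤ c₁ * A.card) :
    c ^ 2 / (8 * c₁) * A.card * u ≤ (Zpe ((wB N 4).image L) : ℝ) := by
  have hN0 : ∀ i, 0 ≤ N i := fun i => zero_le_one.trans (hN i)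
  have hA : (0 : ℝ) ≤ A.card := Nat.cast_nonneg _
  have hn0 : (0 : ℝ) < A.card := by
    rcases hA.eq_or_lt with h | h
    · rw [← h, mul_zero] at hn
      linarith
    · exact h
  have hne : (In N L z A).Nonempty := by
    rw [← Finset.card_pos]
    have : (0 : ℝ) < ((In N L z A).card : ℝ) := by linarith
    exact_mod_cast this
  obtain ⟨a₀, ha₀⟩ := hne
  have hsub : ∀ a ∈ In N L z A, ∀ b ∈ In N L z A, ∃ x ∈ wB N 2, a - b = L x := by
    intro a ha b hb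
    obtain ⟨_, x, hx, rfl⟩ := Bd_mem ha
    obtain ⟨_, y, hy, rfl⟩ := Bd_mem hb
    refine ⟨x - y, ?_, ?_⟩
    · have := sub_mem_wB hx hy
      norm_num at this
      exact this
    · rw [map_sub]
      ring
  have hd := dist_perp (In N L z A) ((wB N 4).image L) ha₀ (by
    intro a ha b hb
    constructor
    · obtain ⟨x, hx, h⟩ := hsub a ha b hb
      exact Finset.mem_image.2 ⟨x, wB_mono hN0 (by norm_num) hx, h.symm⟩
    · obtain ⟨x, hx, h⟩ := hsub a ha a₀ ha₀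
      obtain ⟨y, hy, h'⟩ := hsub b hb a₀ ha₀
      refine Finset.mem_image.2 ⟨x + y, ?_, ?_⟩
      · have := add_mem_wB hx hy
        norm_num at this
        exact this
      · rw [map_add, ← h, ← h']
        ring)
  have hm : ((RL.numDist (In N L z A) : ℕ) : ℝ) ≤ (RL.numDist A : ℝ) := by
    exact_mod_cast numDist_mono (Bd_sub N L z A)
  have hcard : ((In N L z A).card : ℝ) ≤ (A.card : ℝ) := by
    exact_mod_cast Finset.card_le_card (Bd_sub N L z A)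
  have hZ0 : (0 : ℝ) ≤ (Zpe ((wB N 4).image L) : ℝ) := Nat.cast_nonneg _
  have hD0 : (0 : ℝ) ≤ (RL.numDist A : ℝ) := Nat.cast_nonneg _
  have e1 : (c * (A.card : ℝ) / 2) ^ 2 ≤ (RL.numDist A : ℝ) * ((Zpe ((wB N 4).image L) : ℝ) + 2 * A.card) := by
    have e2 : (c * (A.card : ℝ) / 2) ^ 2 ≤ (((In N L z A).card : ℝ) - 1) ^ 2 := by
      refine pow_le_pow_left₀ (by linarith) (by linarith) 2
    refine e2.trans (hd.trans ?_)
    gcongr
  have e3 : (c * (A.card : ℝ) / 2) ^ 2 * u ≤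
      c₁ * A.card * ((Zpe ((wB N 4).image L) : ℝ) + 2 * A.card) := by
    calc (c * (A.card : ℝ) / 2) ^ 2 * u
        ≤ (RL.numDist A : ℝ) * ((Zpe ((wB N 4).image L) : ℝ) + 2 * A.card) * u := by gcongr
      _ = (RL.numDist A : ℝ) * u * ((Zpe ((wB N 4).image L) : ℝ) + 2 * A.card) := by ring
      _ ≤ c₁ * A.card * ((Zpe ((wB N 4).image L) : ℝ) + 2 * A.card) := by gcongr
  have e4 : c ^ 2 * A.card * u / 4 ≤ c₁ * ((Zpe ((wB N 4).image L) : ℝ) + 2 * A.card) := by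
    have : (A.card : ℝ) * (c ^ 2 * A.card * u / 4) ≤
        (A.card : ℝ) * (c₁ * ((Zpe ((wB N 4).image L) : ℝ) + 2 * A.card)) := by
      nlinarith [e3]
    exact le_of_mul_le_mul_left this hn0
  have e5 : 2 * c₁ * A.card ≤ c ^ 2 * A.card * u / 8 := by
    have h5 : c₁ * A.card ≤ c ^ 2 / 16 * A.card := by gcongr
    have h6 : c ^ 2 / 16 * A.card * 1 ≤ c ^ 2 / 16 * A.card * u := by gcongr
    linarith
  have e6 : c ^ 2 * A.card * u / 8 ≤ c₁ * (Zpe ((wB N 4).image L) : ℝ) := by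
    rw [mul_add] at e4
    linarith
  have e7 : c ^ 2 / (8 * c₁) * A.card * u = c ^ 2 * A.card * u / 8 / c₁ := by
    field_simp
  rw [e7, div_le_iff₀ hc₁]
  linarith


end Pool.Agent.SD
end
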