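import Pool.Agent.Lib.MP_6f2296_co.SD.EDefs
import Pool.Agent.Lib.MP_6f2296_co.Mg.G001
import Pool.Agent.Lib.MP_6f2296_co.Mg.G002

section

/-!
# TASK SD E0: exceptional directions; Solymosi's lemma in coordinates

PROOF of `E0`.  For `j ≤ d` at most one `y ∈ Y` has `2 finrank (Mo v y ⊓ Ej d j) > j`: for two such `y ≠ y'` the submodules `Mo v y ⊓ Ej d j`, `Mo v y' ⊓ Ej d j` meet in `0`
(`RL.Mo_inter`), so by `finrank_add_le`, `finrank_Ej_le` the sum of their ranks is at most `j`.  Remove these at most `d + 1` vectors.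

PROOF of `E5`.  Take two different `y, y' ∈ Y`: `finrank (Mo v y) + finrank (Mo v y') ≤ finrank ⊤ ≤ d` (`finrank_add_le` with `E = ⊤`, or `E = Ej d d`, which is everything), and both are at least `d/2`: so both are
`d/2`, `d = 2 finrank (Mo v y)`.

PROOF of `SLv`.  Let `Θ = Y.image (RL.L v)`; `RL.L v` is injective on `Y` and `Dirs Θ`: `RL.L v y ≠ 0` (`RL.L_inj`), and `par (RL.L v y) (RL.L v y')` says `y' ∈ Mo v y`
(`RL.om v y y' = (conj (L y) * L y').im`, definition).  `|Θ| = |Y|`: if `L y = L y'` and `y ≠ y'` then `y' ∈ Mo v y`, a contradiction.  Apply `SL` with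
`S θ = ((wB N t).filter fun x => par θ (RL.L v x)).image (RL.L v)` (for `θ = L y`: `|S θ| = cM N (Mo v y) t` by `RL.L_inj`), `W = (wB N (2t)).image (RL.L v)`.
-/

set_option autoImplicit false

open scoped ComplexConjugate
open Finset

namespace Pool.Agent.SD

variable {d : ℕ} {v : Fin d → ℂ}

theorem E0 (hv : LinearIndependent ℚ v) (Y : Finset (Fin d → ℤ)) (hY : Np v Y) :
    ∃ Y1 ⊆ Y, Y.card ≤ Y1.card + (d + 1) ∧ ∀ y ∈ Y1, ∀ j, j ≤ d →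
      2 * Module.finrank ℤ (RL.Mo v y ⊓ Ej d j : Submodule ℤ (Fin d → ℤ)) ≤ j := by
  classical
  have hbad : ∀ j ∈ Finset.range (d + 1), (Y.filter fun y =>
      ¬ 2 * Module.finrank ℤ (RL.Mo v y ⊓ Ej d j : Submodule ℤ (Fin d → ℤ)) ≤ j).card ≤ 1 := by
    intro j hj
    have hjd : j ≤ d := by
      have := Finset.mem_range.mp hj
      omega
    rw [Finset.card_le_one]
    intro y hy y' hy'
    rw [Finset.mem_filter] at hy hy'
    by_contra hne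
    have h1 := finrank_add_le (E := Ej d j) (M := RL.Mo v y ⊓ Ej d j) (M' := RL.Mo v y' ⊓ Ej d j)
      inf_le_right inf_le_right (by
        intro x hx hx'
        exact RL.Mo_inter hv (hY.1 y hy.1) (hY.1 y' hy'.1) (hY.2 y hy.1 y' hy'.1 hne) hx.1 hx'.1)
    have h2 := finrank_Ej_le (d := d) hjd
    have h3 := hy.2
    have h4 := hy'.2
    omega
  refine ⟨Y.filter fun y => ∀ j, j ≤ d →
      2 * Module.finrank ℤ (RL.Mo v y ⊓ Ej d j : Submodule ℤ (Fin d → ℤ)) ≤ j,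
    Finset.filter_subset _ _, ?_, fun y hy => (Finset.mem_filter.mp hy).2⟩
  have h1 : (Y.filter fun y => ¬ ∀ j, j ≤ d →
      2 * Module.finrank ℤ (RL.Mo v y ⊓ Ej d j : Submodule ℤ (Fin d → ℤ)) ≤ j) ⊆
      (Finset.range (d + 1)).biUnion fun j => Y.filter fun y =>
      ¬ 2 * Module.finrank ℤ (RL.Mo v y ⊓ Ej d j : Submodule ℤ (Fin d → ℤ)) ≤ j := by
    intro y hy
    rw [Finset.mem_filter] at hy
    obtain ⟨hy1, hy2⟩ := hy
    push Not at hy2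
    obtain ⟨j, hj, hj2⟩ := hy2
    rw [Finset.mem_biUnion]
    exact ⟨j, Finset.mem_range.mpr (by omega), Finset.mem_filter.mpr ⟨hy1, not_le.mpr hj2⟩⟩
  have h2 := (Finset.card_le_card h1).trans (Finset.card_biUnion_le.trans (Finset.sum_le_sum hbad))
  have h3 := Finset.card_filter_add_card_filter_not (s := Y) (fun y => ∀ j, j ≤ d →
      2 * Module.finrank ℤ (RL.Mo v y ⊓ Ej d j : Submodule ℤ (Fin d → ℤ)) ≤ j)
  simp only [Finset.sum_const, Finset.card_range, smul_eq_mul, mul_one] at h2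
  omega

theorem E5 (hv : LinearIndependent ℚ v) (Y : Finset (Fin d → ℤ)) (hY : Np v Y) (h2 : 2 ≤ Y.card)
    (hr : ∀ y ∈ Y, d ≤ 2 * Module.finrank ℤ (RL.Mo v y)) : ∃ m, d = m + m := by
  obtain ⟨y, hy, y', hy', hne⟩ := Finset.one_lt_card.mp (by omega : 1 < Y.card)
  have htop : ∀ M : Submodule ℤ (Fin d → ℤ), M ≤ Ej d d := by
    intro M x _
    rw [mem_Ej]
    intro l hl
    exact absurd l.2 (not_lt.mpr hl)
  have h1 := finrank_add_le (htop (RL.Mo v y)) (htop (RL.Mo v y')) (by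
    intro x hx hx'
    exact RL.Mo_inter hv (hY.1 y hy) (hY.1 y' hy') (hY.2 y hy y' hy' hne) hx hx')
  have h3 := finrank_Ej_le (d := d) le_rfl
  have h4 := hr y hy
  have h5 := hr y' hy'
  exact ⟨Module.finrank ℤ (RL.Mo v y), by omega⟩

theorem SLv (hv : LinearIndependent ℚ v) {N : Fin d → ℝ} {t : ℝ} (Y : Finset (Fin d → ℤ)) (hY : Np v Y)
    {u : ℝ} (hu : 4 ≤ u) (hc : ∀ y ∈ Y, u ≤ (cM N (RL.Mo v y) t : ℝ)) :
    (Y.card : ℝ) ≤ 2 + 16 * ((wB N (2 * t)).card : ℝ) / u ^ 2 := by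
  classical
  have hinj : Function.Injective (RL.L v) := by
    intro x y h
    have h1 : RL.L v (x - y) = 0 := by rw [RL.L_sub, h, sub_self]
    exact sub_eq_zero.mp (RL.L_inj hv h1)
  have h1 : (Y.image (RL.L v)).card = Y.card := Finset.card_image_of_injective _ hinj
  have h2 : ((wB N (2 * t)).image (RL.L v)).card = (wB N (2 * t)).card :=
    Finset.card_image_of_injective _ hinj
  rw [← h1, ← h2]
  refine SL ⟨?_, ?_⟩ (fun θ => ((wB N t).filter fun x => par θ (RL.L v x)).image (RL.L v)) ?_ ?_ _ ?_ hu ?_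
  · intro θ hθ h0
    obtain ⟨y, hy, rfl⟩ := Finset.mem_image.mp hθ
    exact hY.1 y hy (RL.L_inj hv h0)
  · intro θ hθ θ' hθ' hne hp
    obtain ⟨y, hy, rfl⟩ := Finset.mem_image.mp hθ
    obtain ⟨y', hy', rfl⟩ := Finset.mem_image.mp hθ'
    exact hY.2 y hy y' hy' (fun h => hne (by rw [h])) hp
  · intro θ _ s hs
    obtain ⟨x, hx, rfl⟩ := Finset.mem_image.mp hs
    exact (Finset.mem_filter.mp hx).2
  · intro θ _ s hs
    obtain ⟨x, hx, rfl⟩ := Finset.mem_image.mp hs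
    rw [Finset.mem_filter] at hx
    rw [Finset.mem_image]
    refine ⟨-x, Finset.mem_filter.mpr ⟨neg_mem_wB hx.1, ?_⟩, RL.L_neg v x⟩
    rw [RL.L_neg]
    exact par_neg hx.2
  · intro θ _ θ' _ _ s hs s' hs'
    obtain ⟨x, hx, rfl⟩ := Finset.mem_image.mp hs
    obtain ⟨x', hx', rfl⟩ := Finset.mem_image.mp hs'
    rw [Finset.mem_filter] at hx hx'
    rw [Finset.mem_image]
    refine ⟨x + x', ?_, RL.L_add v x x'⟩
    rw [two_mul]
    exact add_mem_wB hx.1 hx'.1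
  · intro θ hθ
    obtain ⟨y, hy, rfl⟩ := Finset.mem_image.mp hθ
    refine (hc y hy).trans (le_of_eq ?_)
    rw [Finset.card_image_of_injective _ hinj]
    unfold cM
    congr 2

end Pool.Agent.SD
end

section

/-!
# TASK SD E1: the adapted basis

PROOF of `E1`.  Let `C₀` be the constant of `exists_red m`; take the reduced basis `c` of `↥M` for the norm `(bN N hN).res M` (`finrank M = m`; submodules of `ℤ^d` are free and
finite by instances), `b i = (c i : Fin (m+m) → ℤ)`, `β i = bN N hN (b i)`.  `ind`: a basis is linearly independent and the inclusion is injective.  `nrm`: `bN_le`.  `mono`: `Red`.  `up`, `lo`: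
`Red.cnt_le`, `le_cnt`, `cnt_res` with `C = (3 C₀)^m (max 1 m)^m`.
`low`: suppose `β i * N ⟨2i+1⟩ < 1`.  For `i' ≤ i` and every coordinate `l ≥ 2i+1`: `|b i' l| ≤ β i' N l ≤ β i N ⟨2i+1⟩ < 1` (`bN_le`, `Antitone N`), so `b i' l = 0`: the `i + 1` linearly independent vectors
`b i'` (`i' ≤ i`) lie in `M ⊓ Ej (m+m) (2i+1)`, so `2 (i+1) ≤ 2 i + 1` by `Half` (`finrank_ge`), a contradiction.

PROOF of `E2`.  For `0 < a ≤ n` and `0 < s ≤ t`: `(*) max 1 (t a) * max 1 (s n) ≤ max 1 (s a) * max 1 (t n)` (cases: if `t a ≤ 1` it follows from `s n ≤ t n`; if `s a ≥ 1` all four maxima are the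
second entries and both sides agree; if `s a < 1 < t a`: `t n ≥ t a > 1`, the claim is `t a * max 1 (s n) ≤ t n`, true because `t a ≤ t n` and `t a * s n = t n * (s a) ≤ t n`).  For every `i : Fin m` apply `(*)` with
`a = 1/β i` and `n = N ⟨2i+1⟩` and with `n = N ⟨2i⟩` (`a ≤ N ⟨2i+1⟩ ≤ N ⟨2i⟩` by `low` and `Antitone`), multiply the two inequalities, and multiply over `i`;
`W N t = ∏ i : Fin m, max 1 (t N ⟨2i⟩) * max 1 (t N ⟨2i+1⟩)` (reindex `Fin m × Fin 2 ≃ Fin (m+m)`, or prove `∏ l : Fin (m+m), g l = ∏ i : Fin m, g (2i) g (2i+1)` with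
`Fin.prod_univ_eq_prod_range`/`Finset.prod_range_succ` by induction on `m` for functions on `ℕ`).

PROOF of `E2'`: with `P t = ∏ max 1 (t/β i)`: `cM(t)² W(s) ≤ C² P(t)² W(s) ≤ C² P(s)² W(t) ≤ C⁴ cM(s)² W(t)`.
-/

set_option autoImplicit false

open Finset

namespace Pool.Agent.SD

private theorem E1_half (g : ℕ → ℝ) (k : ℕ) :
    ∏ n ∈ range (k + k), g n = ∏ n ∈ range k, g (2 * n) * g (2 * n + 1) := by
  induction k with
  | zero => simp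
  | succ k ih =>
    rw [prod_range_succ, ← ih, show k + 1 + (k + 1) = k + k + 1 + 1 by ring, prod_range_succ,
      prod_range_succ, show 2 * k = k + k by ring]
    ring

private theorem E1_prod {m : ℕ} (g : Fin (m + m) → ℝ) :
    ∏ l, g l = ∏ i : Fin m, g ⟨2 * (i : ℕ), by omega⟩ * g ⟨2 * (i : ℕ) + 1, by omega⟩ := by
  obtain ⟨f, hf⟩ : ∃ f : ℕ → ℝ, ∀ l : Fin (m + m), f l = g l := by
    refine ⟨fun n => if hn : n < m + m then g ⟨n, hn⟩ else 1, fun l => ?_⟩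
    have hl := l.isLt
    simp only [hl, dite_true, Fin.eta]
  have h1 : ∏ l, g l = ∏ l : Fin (m + m), f l := prod_congr rfl fun l _ => (hf l).symm
  have h2 : ∏ i : Fin m, g ⟨2 * (i : ℕ), by omega⟩ * g ⟨2 * (i : ℕ) + 1, by omega⟩ =
      ∏ i : Fin m, (fun n : ℕ => f (2 * n) * f (2 * n + 1)) i := by
    refine prod_congr rfl fun i _ => ?_
    have h3 := hf ⟨2 * (i : ℕ), by omega⟩
    have h4 := hf ⟨2 * (i : ℕ) + 1, by omega⟩
    rw [← h3, ← h4]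
  rw [h1, h2, Fin.prod_univ_eq_prod_range f (m + m),
    Fin.prod_univ_eq_prod_range (fun n : ℕ => f (2 * n) * f (2 * n + 1)) m, E1_half]

private theorem E1_star {a n s t : ℝ} (ha : 0 < a) (han : a ≤ n) (hs : 0 < s) (hst : s ≤ t) :
    max 1 (t * a) * max 1 (s * n) ≤ max 1 (s * a) * max 1 (t * n) := by
  have hn : 0 < n := lt_of_lt_of_le ha han
  have ht : 0 < t := lt_of_lt_of_le hs hst
  have h1 : t * a ≤ t * n := mul_le_mul_of_nonneg_left han ht.le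
  have h2 : s * a ≤ t * a := mul_le_mul_of_nonneg_right hst ha.le
  have h3 : s * n ≤ t * n := mul_le_mul_of_nonneg_right hst hn.le
  have h4 : s * a ≤ s * n := mul_le_mul_of_nonneg_left han hs.le
  rcases le_or_gt (t * a) 1 with hta | hta
  · rw [max_eq_left hta, max_eq_left (h2.trans hta), one_mul, one_mul]
    exact max_le_max le_rfl h3
  · rcases le_or_gt 1 (s * a) with hsa | hsa
    · rw [max_eq_right hta.le, max_eq_right hsa, max_eq_right (hsa.trans h4),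
        max_eq_right (hta.le.trans h1)]
      exact le_of_eq (by ring)
    · rw [max_eq_right hta.le, max_eq_left hsa.le, max_eq_right (hta.le.trans h1), one_mul]
      rcases le_or_gt (s * n) 1 with hsn | hsn
      · rw [max_eq_left hsn, mul_one]
        exact h1
      · rw [max_eq_right hsn.le]
        calc t * a * (s * n) = (s * a) * (t * n) := by ring
          _ ≤ 1 * (t * n) := mul_le_mul_of_nonneg_right hsa.le (by positivity)
          _ = t * n := one_mul _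

theorem E1 (m : ℕ) : ∃ C : ℝ, 1 ≤ C ∧ ∀ N : Fin (m + m) → ℝ, (∀ i, 0 < N i) → Antitone N →
    ∀ M : Submodule ℤ (Fin (m + m) → ℤ), Half M → ∃ b β, Bs N M C b β := by
  obtain ⟨C₀, hC₀, H⟩ := exists_red m
  have hA1 : (1 : ℝ) ≤ (3 * C₀) ^ m := one_le_pow₀ (by linarith)
  have hB1 : (1 : ℝ) ≤ (max 1 (m : ℝ)) ^ m := one_le_pow₀ (le_max_left _ _)
  refine ⟨(3 * C₀) ^ m * (max 1 (m : ℝ)) ^ m, one_le_mul_of_one_le_of_one_le hA1 hB1, ?_⟩
  intro N hN hA M hM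
  obtain ⟨c, hc⟩ := H M ((bN N hN).res M) hM.1
  have hβ0 : ∀ i, 0 < bN N hN (c i : Fin (m + m) → ℤ) := fun i =>
    ((bN N hN).res M).pos _ (c.ne_zero i)
  have hnrm : ∀ i t, 0 ≤ t → ((c i : Fin (m + m) → ℤ) ∈ wB N t ↔
      bN N hN (c i : Fin (m + m) → ℤ) ≤ t) := by
    intro i t ht
    rw [mem_wB, bN_le ht]
  have hind : LinearIndependent ℤ (fun i => (c i : Fin (m + m) → ℤ)) := by
    have h := c.linearIndependent.map' M.subtype (Submodule.ker_subtype M)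
    exact h
  refine ⟨fun i => (c i : Fin (m + m) → ℤ), fun i => bN N hN (c i : Fin (m + m) → ℤ), ?_⟩
  refine ⟨hind, fun i => (c i).2, hnrm, hβ0, hc.1, ?_, ?_, ?_⟩
  · intro i
    by_contra hlt
    rw [not_le] at hlt
    have hmem : ∀ i' : Fin m, i' ≤ i → (c i' : Fin (m + m) → ℤ) ∈ M ⊓ Ej (m + m) (2 * (i : ℕ) + 1) := by
      intro i' hi'
      refine Submodule.mem_inf.mpr ⟨(c i').2, mem_Ej.mpr fun l hl => ?_⟩
      have h1 : (c i' : Fin (m + m) → ℤ) ∈ wB N (bN N hN (c i : Fin (m + m) → ℤ)) :=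
        (hnrm i' _ (hβ0 i).le).mpr (hc.1 hi')
      refine eq_zero_of_mem_wB h1 (lt_of_le_of_lt ?_ hlt)
      exact mul_le_mul_of_nonneg_left (hA (Fin.mk_le_of_le_val hl)) (hβ0 i).le
    have hle : (i : ℕ) + 1 ≤ m := i.isLt
    have hge := finrank_ge (M := M ⊓ Ej (m + m) (2 * (i : ℕ) + 1))
      (fun k : Fin ((i : ℕ) + 1) => (c (Fin.castLE hle k) : Fin (m + m) → ℤ))
      (hind.comp (Fin.castLE hle) (Fin.castLE_injective hle))
      (fun k => hmem _ (by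
        rw [Fin.le_def, Fin.val_castLE]
        omega))
    have h2 := hM.2 (2 * (i : ℕ) + 1) (by omega)
    omega
  · intro t ht
    have h1 := Red.cnt_le hc hC₀ ht
    rw [cnt_res hN M ht] at h1
    refine h1.trans ?_
    have h2 : (0 : ℝ) ≤ ∏ i, max 1 (t / ((bN N hN).res M) (c i)) :=
      prod_nonneg fun i _ => le_trans zero_le_one (le_max_left _ _)
    have h3 : (3 * C₀) ^ m ≤ (3 * C₀) ^ m * (max 1 (m : ℝ)) ^ m :=
      le_mul_of_one_le_right (by positivity) hB1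
    exact mul_le_mul_of_nonneg_right h3 h2
  · intro t ht
    have h1 := le_cnt (ν := (bN N hN).res M) c ht
    rw [cnt_res hN M ht] at h1
    refine le_trans h1 ?_
    have h3 : (max 1 (m : ℝ)) ^ m ≤ (3 * C₀) ^ m * (max 1 (m : ℝ)) ^ m :=
      le_mul_of_one_le_left (by positivity) hA1
    exact mul_le_mul_of_nonneg_right h3 (Nat.cast_nonneg _)

theorem E2 {m : ℕ} {N : Fin (m + m) → ℝ} {M : Submodule ℤ (Fin (m + m) → ℤ)} {C : ℝ}
    {b : Fin m → (Fin (m + m) → ℤ)} {β : Fin m → ℝ} (h : Bs N M C b β) (hN : ∀ i, 0 < N i)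
    (hA : Antitone N) {s t : ℝ} (hs : 0 < s) (hst : s ≤ t) :
    (∏ i, max 1 (t / β i)) ^ 2 * W N s ≤ (∏ i, max 1 (s / β i)) ^ 2 * W N t := by
  have hper : ∀ i : Fin m, (max 1 (t / β i)) ^ 2 *
      (max 1 (s * N ⟨2 * (i : ℕ), by omega⟩) * max 1 (s * N ⟨2 * (i : ℕ) + 1, by omega⟩)) ≤
      (max 1 (s / β i)) ^ 2 *
      (max 1 (t * N ⟨2 * (i : ℕ), by omega⟩) * max 1 (t * N ⟨2 * (i : ℕ) + 1, by omega⟩)) := by
    intro i
    have hb := h.pos i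
    have ha : 0 < (β i)⁻¹ := inv_pos.mpr hb
    have han : (β i)⁻¹ ≤ N ⟨2 * (i : ℕ) + 1, by omega⟩ := by
      rw [inv_le_iff_one_le_mul₀' hb]
      exact h.low i
    have hnn : N ⟨2 * (i : ℕ) + 1, by omega⟩ ≤ N ⟨2 * (i : ℕ), by omega⟩ :=
      hA (Fin.mk_le_mk.mpr (by omega))
    have e1 := E1_star ha han hs hst
    have e0 := E1_star ha (han.trans hnn) hs hst
    rw [div_eq_mul_inv, div_eq_mul_inv]
    have hnn0 : ∀ x : ℝ, 0 ≤ max 1 x := fun x => le_trans zero_le_one (le_max_left _ _)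
    calc (max 1 (t * (β i)⁻¹)) ^ 2 *
        (max 1 (s * N ⟨2 * (i : ℕ), by omega⟩) * max 1 (s * N ⟨2 * (i : ℕ) + 1, by omega⟩))
        = (max 1 (t * (β i)⁻¹) * max 1 (s * N ⟨2 * (i : ℕ), by omega⟩)) *
          (max 1 (t * (β i)⁻¹) * max 1 (s * N ⟨2 * (i : ℕ) + 1, by omega⟩)) := by ring
      _ ≤ (max 1 (s * (β i)⁻¹) * max 1 (t * N ⟨2 * (i : ℕ), by omega⟩)) *
          (max 1 (s * (β i)⁻¹) * max 1 (t * N ⟨2 * (i : ℕ) + 1, by omega⟩)) :=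
          mul_le_mul e0 e1 (mul_nonneg (hnn0 _) (hnn0 _)) (mul_nonneg (hnn0 _) (hnn0 _))
      _ = _ := by ring
  unfold W
  rw [E1_prod (fun l => max 1 (s * N l)), E1_prod (fun l => max 1 (t * N l)), ← prod_pow, ← prod_pow,
    ← prod_mul_distrib, ← prod_mul_distrib]
  refine prod_le_prod (fun i _ => ?_) fun i _ => hper i
  have hnn0 : ∀ x : ℝ, 0 ≤ max 1 x := fun x => le_trans zero_le_one (le_max_left _ _)
  exact mul_nonneg (pow_nonneg (hnn0 _) _) (mul_nonneg (hnn0 _) (hnn0 _))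

theorem E2' {m : ℕ} {N : Fin (m + m) → ℝ} {M : Submodule ℤ (Fin (m + m) → ℤ)} {C : ℝ}
    {b : Fin m → (Fin (m + m) → ℤ)} {β : Fin m → ℝ} (h : Bs N M C b β) (hC : 1 ≤ C) (hN : ∀ i, 0 < N i)
    (hA : Antitone N) {s t : ℝ} (hs : 0 < s) (hst : s ≤ t) :
    (cM N M t : ℝ) ^ 2 * W N s ≤ C ^ 4 * (cM N M s : ℝ) ^ 2 * W N t := by
  have ht : 0 < t := lt_of_lt_of_le hs hst
  have h1 := h.up t ht.le
  have h2 := h.lo s hs.le
  have h3 := E2 h hN hA hs hst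
  have hWs : 0 ≤ W N s := le_trans zero_le_one (one_le_W N s)
  have hWt : 0 ≤ W N t := le_trans zero_le_one (one_le_W N t)
  have hPs : 0 ≤ ∏ i, max 1 (s / β i) := prod_nonneg fun i _ => le_trans zero_le_one (le_max_left _ _)
  have hC0 : 0 ≤ C := le_trans zero_le_one hC
  calc (cM N M t : ℝ) ^ 2 * W N s ≤ (C * ∏ i, max 1 (t / β i)) ^ 2 * W N s :=
        mul_le_mul_of_nonneg_right (pow_le_pow_left₀ (Nat.cast_nonneg _) h1 2) hWs
    _ = C ^ 2 * ((∏ i, max 1 (t / β i)) ^ 2 * W N s) := by ring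
    _ ≤ C ^ 2 * ((∏ i, max 1 (s / β i)) ^ 2 * W N t) := mul_le_mul_of_nonneg_left h3 (by positivity)
    _ ≤ C ^ 2 * ((C * (cM N M s : ℝ)) ^ 2 * W N t) := by
        refine mul_le_mul_of_nonneg_left ?_ (by positivity)
        exact mul_le_mul_of_nonneg_right (pow_le_pow_left₀ hPs h2 2) hWt
    _ = C ^ 4 * (cM N M s : ℝ) ^ 2 * W N t := by ring

end Pool.Agent.SD
end

section

/-!
# TASK SD E3: one direction, the two scales

PROOF.  Write `T = Q^4 t`, `P x = ∏ i, max 1 (x/β i)`; by `up`, `lo`: `cM x ≤ C P x`, `P x ≤ C cM x`.  Let `j` be the number of `i` with `Q^e ≤ t N i`; since `N` is antitone, `i < j ↔ Q^e ≤ t N i` (an initial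
segment), and `t N i ≤ (Q^e)⁻¹` for `i ≥ j`.  Let `s ≤ m` be the number of `i` with `β i ≤ T`; since `β` is monotone `i < s ↔ β i ≤ T`.
(1) `j ≤ 2 s`.  For `i < j`: `max 1 (T N i) = T N i = Q^4 max 1 (t N i)`; for `i ≥ j`: `T N i ≤ Q^4/Q^e ≤ 1`.  So `W N T = Q^(4j) W N t`.  The hypothesis at `T ≤ 1` gives
`Q^(4j) ≤ cM(T)²` (`W N t > 0`).  `P T ≤ Q^(4s) P t` (`max 1 (T/β i) ≤ Q^4 max 1 (t/β i)`, and the factors with `i ≥ s` of `P T` are `1`).  So `Q^(4j) ≤ C² P(T)² ≤ C² Q^(8s) P(t)² ≤ C⁴ Q^(8s) cM(t)² ≤ C⁴ C' Q^(8s+1)`.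
If `j ≥ 2s + 1` then `Q^3 ≤ C⁴ C'`, a contradiction for `Q ≥ C₃ = C⁴ C' + 2`.
(2) `2 s ≤ j`: if `s ≥ 1` put `i = s - 1`: `β i ≤ T`, so by `low` `1 ≤ T N ⟨2s-1⟩`; if `2 s - 1 ≥ j` then `T N ⟨2s-1⟩ ≤ Q^4/Q^e ≤ 1/Q < 1`, a contradiction.
(3) Let `s < m`, `l = ⟨2s, _⟩`, so `l ≥ j` and `t N l ≤ (Q^e)⁻¹`.  Let `τ = Q^2 / N l`: `τ ≤ 1` (`Q^2 ≤ N l`) and `t ≤ τ`.  Suppose `τ < β s`.  Then `P τ ≤ (τ/t)^s P t`, and
`W N τ ≥ (τ/t)^(2s) Q^2 W N t` (for `i < j = 2s`: `max 1 (τ N i) = τ N i = (τ/t) max 1 (t N i)`; for `i = l`: `τ N l = Q^2` and `max 1 (t N l) = 1`; for `i > l`: `1 ≤ max 1 (τ N i)`, `max 1 (t N i) = 1`).  So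
`(τ/t)^(2s) Q^2 W N t ≤ W N τ ≤ cM(τ)² W N t ≤ C² P(τ)² W N t ≤ C² (τ/t)^(2s) P(t)² W N t ≤ C⁴ (τ/t)^(2s) cM(t)² W N t ≤ C⁴ C' Q (τ/t)^(2s) W N t`, so `Q ≤ C⁴ C'`, a contradiction.
-/

set_option autoImplicit false

open Finset

namespace Pool.Agent.SD

private theorem E3_seg {n : ℕ} (p : Fin n → Prop) (hp : ∀ i k : Fin n, i ≤ k → p k → p i) :
    ∃ j : ℕ, j ≤ n ∧ ∀ i : Fin n, (i : ℕ) < j ↔ p i := by
  classical
  by_cases h : ∃ a : ℕ, ∃ h : a < n, ¬ p ⟨a, h⟩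
  · obtain ⟨ha, hna⟩ := Nat.find_spec h
    refine ⟨Nat.find h, ha.le, fun i => ⟨fun hi => ?_, fun hi => ?_⟩⟩
    · by_contra hc
      exact Nat.find_min h hi ⟨i.2, hc⟩
    · by_contra hc
      exact hna (hp ⟨Nat.find h, ha⟩ i (by rw [Fin.le_def]; exact not_lt.1 hc) hi)
  · refine ⟨n, le_refl _, fun i => ⟨fun _ => ?_, fun _ => i.2⟩⟩
    by_contra hc
    exact h ⟨i, i.2, hc⟩

private theorem E3_prod {n j : ℕ} (hj : j ≤ n) (a : ℝ) : ∏ i : Fin n, (if (i : ℕ) < j then a else 1) = a ^ j := by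
  rw [Fin.prod_univ_eq_prod_range (fun i => if i < j then a else 1) n, Finset.prod_ite, Finset.prod_const_one, mul_one,
    Finset.prod_const]
  congr 1
  have : (Finset.range n).filter (fun x => x < j) = Finset.range j := by
    ext x
    simp only [Finset.mem_filter, Finset.mem_range]
    omega
  rw [this, Finset.card_range]

theorem E3 (m : ℕ) (C C' : ℝ) (hC : 1 ≤ C) (hC' : 1 ≤ C') : ∃ C₃ : ℝ, 1 ≤ C₃ ∧
    ∀ (N : Fin (m + m) → ℝ) (M : Submodule ℤ (Fin (m + m) → ℤ)) (b : Fin m → (Fin (m + m) → ℤ))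
      (β : Fin m → ℝ) (Q t : ℝ) (e : ℕ), Bs N M C b β → Antitone N → C₃ ≤ Q → (∀ i, Q ^ 2 ≤ N i) →
      0 < t → Q ^ 4 * t ≤ 1 → 5 ≤ e → (∀ i, t * N i ≤ (Q ^ e)⁻¹ ∨ Q ^ e ≤ t * N i) →
      (∀ τ, t ≤ τ → τ ≤ 1 → W N τ ≤ (cM N M τ : ℝ) ^ 2 * W N t) → (cM N M t : ℝ) ^ 2 ≤ C' * Q →
      ∃ s : ℕ, s ≤ m ∧ (∀ i : Fin (m + m), (i : ℕ) < 2 * s ↔ Q ^ e ≤ t * N i) ∧
        (∀ i : Fin m, (i : ℕ) < s ↔ β i ≤ Q ^ 4 * t) ∧
        ∀ h : s < m, β ⟨s, h⟩ ≤ Q ^ 2 / N ⟨2 * s, by omega⟩ := by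
  refine ⟨C ^ 4 * C' + 2, ?_, ?_⟩
  · have : 0 ≤ C ^ 4 * C' := by positivity
    linarith
  intro N M b β Q t e hB hN hQ hQN ht hT he hgap hW hcM
  have hD0 : 0 ≤ C ^ 4 * C' := by positivity
  have hQ1 : 1 < Q := by linarith
  have hQ0 : 0 < Q := by linarith
  have hQe1 : 1 ≤ Q ^ e := one_le_pow₀ hQ1.le
  have hQe0 : 0 < Q ^ e := by linarith
  have hQQ : Q ^ 5 ≤ Q ^ e := pow_le_pow_right₀ hQ1.le he
  have hN0 : ∀ i, 0 < N i := fun i => lt_of_lt_of_le (by positivity) (hQN i)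
  have hinv : ∀ x : ℝ, x ≤ (Q ^ e)⁻¹ → Q ^ 4 * x ≤ Q⁻¹ := by
    intro x hx
    have h1 : (Q ^ e)⁻¹ ≤ (Q ^ 5)⁻¹ := inv_anti₀ (by positivity) hQQ
    calc Q ^ 4 * x ≤ Q ^ 4 * (Q ^ 5)⁻¹ := mul_le_mul_of_nonneg_left (hx.trans h1) (by positivity)
      _ = Q⁻¹ := by field_simp
  have hQi : Q⁻¹ < 1 := inv_lt_one_of_one_lt₀ hQ1
  have hQei : (Q ^ e)⁻¹ ≤ 1 := inv_le_one_of_one_le₀ hQe1
  have hWt : 0 < W N t := by
    unfold W
    exact Finset.prod_pos fun i _ => lt_of_lt_of_le one_pos (le_max_left _ _)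
  obtain ⟨j, hjm, hj⟩ := E3_seg (fun i : Fin (m + m) => Q ^ e ≤ t * N i) (fun i k hik hk =>
    hk.trans (mul_le_mul_of_nonneg_left (hN hik) ht.le))
  obtain ⟨s, hsm, hs⟩ := E3_seg (fun i : Fin m => β i ≤ Q ^ 4 * t) (fun i k hik hk => (hB.mono hik).trans hk)
  have hjn : ∀ i : Fin (m + m), ¬ (i : ℕ) < j → t * N i ≤ (Q ^ e)⁻¹ := by
    intro i hi
    rcases hgap i with h | h
    · exact h
    · exact absurd ((hj i).2 h) hi
  have hgen : ∀ τ ρ : ℝ, t ≤ τ → τ ≤ 1 → 0 ≤ ρ → ∏ i, max 1 (τ / β i) ≤ ρ * ∏ i, max 1 (t / β i) →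
      W N τ ≤ ρ ^ 2 * (C ^ 4 * C') * Q * W N t := by
    intro τ ρ h1 h2 hρ h3
    have hτ0 : 0 ≤ τ := ht.le.trans h1
    have hPt0 : 0 ≤ ∏ i, max 1 (t / β i) := Finset.prod_nonneg fun i _ => le_trans zero_le_one (le_max_left _ _)
    have hPτ0 : 0 ≤ ∏ i, max 1 (τ / β i) := Finset.prod_nonneg fun i _ => le_trans zero_le_one (le_max_left _ _)
    have hlo := hB.lo t ht.le
    have hup := hB.up τ hτ0
    have hc0 : (0 : ℝ) ≤ (cM N M τ : ℝ) := Nat.cast_nonneg _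
    have hct0 : (0 : ℝ) ≤ (cM N M t : ℝ) := Nat.cast_nonneg _
    have hC0 : 0 ≤ C := by linarith
    have h4 : (cM N M τ : ℝ) ≤ C ^ 2 * ρ * (cM N M t : ℝ) := by
      calc (cM N M τ : ℝ) ≤ C * ∏ i, max 1 (τ / β i) := hup
        _ ≤ C * (ρ * ∏ i, max 1 (t / β i)) := mul_le_mul_of_nonneg_left h3 hC0
        _ ≤ C * (ρ * (C * (cM N M t : ℝ))) :=
            mul_le_mul_of_nonneg_left (mul_le_mul_of_nonneg_left hlo hρ) hC0
        _ = C ^ 2 * ρ * (cM N M t : ℝ) := by ring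
    have h5 : (cM N M τ : ℝ) ^ 2 ≤ (C ^ 2 * ρ * (cM N M t : ℝ)) ^ 2 := pow_le_pow_left₀ hc0 h4 2
    calc W N τ ≤ (cM N M τ : ℝ) ^ 2 * W N t := hW τ h1 h2
      _ ≤ (C ^ 2 * ρ * (cM N M t : ℝ)) ^ 2 * W N t := mul_le_mul_of_nonneg_right h5 hWt.le
      _ = (C ^ 4 * ρ ^ 2 * W N t) * (cM N M t : ℝ) ^ 2 := by ring
      _ ≤ (C ^ 4 * ρ ^ 2 * W N t) * (C' * Q) := mul_le_mul_of_nonneg_left hcM (by positivity)
      _ = ρ ^ 2 * (C ^ 4 * C') * Q * W N t := by ring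
  have h1 : j ≤ 2 * s := by
    by_contra hc
    push Not at hc
    have hQ4 : 1 ≤ Q ^ 4 := one_le_pow₀ hQ1.le
    have hPP : ∏ i, max 1 (Q ^ 4 * t / β i) ≤ (Q ^ 4) ^ s * ∏ i, max 1 (t / β i) := by
      rw [← E3_prod hsm (Q ^ 4), ← Finset.prod_mul_distrib]
      refine Finset.prod_le_prod (fun i _ => le_trans zero_le_one (le_max_left _ _)) fun i _ => ?_
      by_cases hi : (i : ℕ) < s
      · rw [if_pos hi]
        refine max_le ?_ ?_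
        · exact one_le_mul_of_one_le_of_one_le hQ4 (le_max_left _ _)
        · rw [mul_div_assoc]
          exact mul_le_mul_of_nonneg_left (le_max_right _ _) (by positivity)
      · rw [if_neg hi, one_mul]
        refine max_le (le_max_left _ _) ?_
        have : ¬ β i ≤ Q ^ 4 * t := fun h => hi ((hs i).2 h)
        push Not at this
        exact ((div_le_one (hB.pos i)).2 this.le).trans (le_max_left _ _)
    have hWW : W N (Q ^ 4 * t) = (Q ^ 4) ^ j * W N t := by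
      unfold W
      rw [← E3_prod hjm (Q ^ 4), ← Finset.prod_mul_distrib]
      refine Finset.prod_congr rfl fun i _ => ?_
      by_cases hi : (i : ℕ) < j
      · rw [if_pos hi]
        have h2 : 1 ≤ t * N i := hQe1.trans ((hj i).1 hi)
        have h3 : 1 ≤ Q ^ 4 * t * N i := by
          rw [mul_assoc]
          exact one_le_mul_of_one_le_of_one_le hQ4 h2
        rw [max_eq_right h2, max_eq_right h3, mul_assoc]
      · rw [if_neg hi, one_mul]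
        have h2 := hjn i hi
        have h3 : Q ^ 4 * t * N i ≤ 1 := by
          rw [mul_assoc]
          exact (hinv _ h2).trans hQi.le
        rw [max_eq_left h3, max_eq_left (h2.trans hQei)]
    have h2 := hgen (Q ^ 4 * t) ((Q ^ 4) ^ s) (le_mul_of_one_le_left ht.le hQ4) hT (by positivity) hPP
    rw [hWW] at h2
    have h3 : (Q ^ 4) ^ j ≤ ((Q ^ 4) ^ s) ^ 2 * (C ^ 4 * C') * Q := le_of_mul_le_mul_right h2 hWt
    have h4 : (Q ^ 4) ^ (2 * s + 1) ≤ (Q ^ 4) ^ j := pow_le_pow_right₀ hQ4 hc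
    have h5 : (Q ^ 4) ^ (2 * s + 1) = ((Q ^ 4) ^ s) ^ 2 * Q ^ 4 := by ring
    have h6 : ((Q ^ 4) ^ s) ^ 2 * Q ^ 4 ≤ ((Q ^ 4) ^ s) ^ 2 * ((C ^ 4 * C') * Q) := by
      rw [← h5]
      calc (Q ^ 4) ^ (2 * s + 1) ≤ _ := h4.trans h3
        _ = _ := by ring
    have h7 : Q ^ 4 ≤ (C ^ 4 * C') * Q := le_of_mul_le_mul_left h6 (by positivity)
    have h8 : Q ^ 2 ≤ Q ^ 4 := pow_le_pow_right₀ hQ1.le (by norm_num)
    have h9 : Q * Q ≤ (C ^ 4 * C') * Q := by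
      calc Q * Q = Q ^ 2 := by ring
        _ ≤ _ := h8.trans h7
    have h10 : Q ≤ C ^ 4 * C' := le_of_mul_le_mul_right h9 hQ0
    linarith
  have h2 : 2 * s ≤ j := by
    by_contra hc
    push Not at hc
    have hs1 : 1 ≤ s := by omega
    have hlt : s - 1 < m := by omega
    have h3 : β ⟨s - 1, hlt⟩ ≤ Q ^ 4 * t := (hs ⟨s - 1, hlt⟩).1 (show s - 1 < s by omega)
    have h4 := hB.low ⟨s - 1, hlt⟩
    simp only at h4
    have h5 := hjn ⟨2 * (s - 1) + 1, by omega⟩ (show ¬ 2 * (s - 1) + 1 < j by omega)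
    have h6 := hinv _ h5
    have h7 : β ⟨s - 1, hlt⟩ * N ⟨2 * (s - 1) + 1, by omega⟩ ≤ Q ^ 4 * t * N ⟨2 * (s - 1) + 1, by omega⟩ :=
      mul_le_mul_of_nonneg_right h3 (hN0 _).le
    rw [mul_assoc] at h7
    linarith
  have hj2 : j = 2 * s := le_antisymm h1 h2
  refine ⟨s, hsm, fun i => by rw [← hj2]; exact hj i, hs, fun hlt => ?_⟩
  by_contra hc
  push Not at hc
  set l : Fin (m + m) := ⟨2 * s, by omega⟩ with hl
  have hlj : ¬ ((l : Fin (m + m)) : ℕ) < j := by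
    rw [hl]
    show ¬ 2 * s < j
    omega
  have h3 := hjn l hlj
  set τ : ℝ := Q ^ 2 / N l with hτ
  have hτl : τ * N l = Q ^ 2 := div_mul_cancel₀ _ (hN0 l).ne'
  have hτ1 : τ ≤ 1 := (div_le_one (hN0 l)).2 (hQN l)
  have hQ2 : 1 ≤ Q ^ 2 := one_le_pow₀ hQ1.le
  have htτ : t ≤ τ := by
    rw [hτ, le_div_iff₀ (hN0 l)]
    linarith
  have hτ0 : 0 < τ := lt_of_lt_of_le ht htτ
  have hr1 : 1 ≤ τ / t := (one_le_div ht).2 htτ
  have hrt : ∀ y : ℝ, τ / t * (t * y) = τ * y := by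
    intro y
    field_simp
  have hPP : ∏ i, max 1 (τ / β i) ≤ (τ / t) ^ s * ∏ i, max 1 (t / β i) := by
    rw [← E3_prod hsm (τ / t), ← Finset.prod_mul_distrib]
    refine Finset.prod_le_prod (fun i _ => le_trans zero_le_one (le_max_left _ _)) fun i _ => ?_
    by_cases hi : (i : ℕ) < s
    · rw [if_pos hi]
      refine max_le ?_ ?_
      · exact one_le_mul_of_one_le_of_one_le hr1 (le_max_left _ _)
      · calc τ / β i = τ / t * (t / β i) := by field_simp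
          _ ≤ _ := mul_le_mul_of_nonneg_left (le_max_right _ _) (by positivity)
    · rw [if_neg hi, one_mul]
      refine max_le (le_max_left _ _) ?_
      have h5 : β ⟨s, hlt⟩ ≤ β i := hB.mono (by rw [Fin.le_def]; exact not_lt.1 hi)
      exact ((div_le_one (hB.pos i)).2 (hc.le.trans h5)).trans (le_max_left _ _)
  have hWW : (τ / t) ^ (2 * s) * Q ^ 2 * W N t ≤ W N τ := by
    unfold W
    have e1 : (Q ^ 2 : ℝ) = ∏ i : Fin (m + m), (if i = l then Q ^ 2 else 1) := by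
      rw [Finset.prod_ite_eq' Finset.univ l (fun _ => Q ^ 2)]
      simp
    rw [e1, ← E3_prod (by omega : 2 * s ≤ m + m) (τ / t), ← Finset.prod_mul_distrib, ← Finset.prod_mul_distrib]
    refine Finset.prod_le_prod (fun i _ => ?_) fun i _ => ?_
    · refine mul_nonneg (mul_nonneg ?_ ?_) (le_trans zero_le_one (le_max_left _ _))
      · split_ifs <;> positivity
      · split_ifs <;> positivity
    · by_cases hi : (i : ℕ) < 2 * s
      · have hne : i ≠ l := by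
          rintro rfl
          rw [hl] at hi
          exact absurd hi (lt_irrefl _)
        rw [if_pos hi, if_neg hne, mul_one]
        have h5 : 1 ≤ t * N i := hQe1.trans ((hj i).1 (by omega))
        rw [max_eq_right h5, hrt]
        exact le_max_right _ _
      · rw [if_neg hi, one_mul]
        have h5 : t * N i ≤ 1 := (hjn i (by omega)).trans hQei
        rw [max_eq_left h5, mul_one]
        by_cases hil : i = l
        · rw [if_pos hil, hil, ← hτl]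
          exact le_max_right _ _
        · rw [if_neg hil]
          exact le_max_left _ _
  have h5 := hgen τ ((τ / t) ^ s) htτ hτ1 (by positivity) hPP
  have h6 : (τ / t) ^ (2 * s) * Q ^ 2 * W N t ≤ ((τ / t) ^ s) ^ 2 * (C ^ 4 * C') * Q * W N t := hWW.trans h5
  have h7 : (τ / t) ^ (2 * s) * Q ^ 2 ≤ ((τ / t) ^ s) ^ 2 * (C ^ 4 * C') * Q := le_of_mul_le_mul_right h6 hWt
  have h8 : ((τ / t) ^ s) ^ 2 * (Q * Q) ≤ ((τ / t) ^ s) ^ 2 * ((C ^ 4 * C') * Q) := by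
    calc ((τ / t) ^ s) ^ 2 * (Q * Q) = (τ / t) ^ (2 * s) * Q ^ 2 := by ring
      _ ≤ _ := h7
      _ = _ := by ring
  have h9 : Q * Q ≤ (C ^ 4 * C') * Q := le_of_mul_le_mul_left h8 (by positivity)
  have h10 : Q ≤ C ^ 4 * C' := le_of_mul_le_mul_right h9 hQ0
  linarith

end Pool.Agent.SD
end

section

/-!
# TASK SD E4: a vector outside of the coordinate subspace determines the direction

PROOF.  Let `l₀ = ⟨2s, _⟩`, `E = Ej (m+m) (2s)`, `q = ⌊Q^2⌋`.  For `y ∈ Y` choose `z y` as in the hypothesis and let `f y l = z y l` if `2 s ≤ l` and `0` otherwise.  `|z y l| ≤ (Q^2/N l₀) N l ≤ Q^2` for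
`l ≥ 2s` (`Antitone N`), so `f y` lies in the finset `Fintype.piFinset fun _ => Icc (-q) q`, which has `(2q+1)^(m+m) ≤ (2 Q^2 + 1)^(m+m)` elements.  `f` is injective on `Y`: let `y ≠ y'`, `f y = f y'`.  Then
`z y - z y' ∈ E`.  The submodules `Mo v y ⊓ E`, `Mo v y' ⊓ E` of `E` meet in `0` (`RL.Mo_inter`), the sum of their ranks is at least `2 s ≥ finrank E` (`finrank_Ej_le`), so by `exists_mul_mem`
`n (z y - z y') = g + g'` with `n ≠ 0`, `g ∈ Mo v y ⊓ E`, `g' ∈ Mo v y' ⊓ E`.  So `n z y - g = n z y' + g'` lies in `Mo v y` and in `Mo v y'`, so it is `0`, and `n z y = g ∈ E`, so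
`z y ∈ E` (`n ≠ 0`), a contradiction.
-/

set_option autoImplicit false

open scoped ComplexConjugate
open Finset

namespace Pool.Agent.SD

theorem E4 {m : ℕ} {v : Fin (m + m) → ℂ} (hv : LinearIndependent ℚ v) {N : Fin (m + m) → ℝ}
    (hN : ∀ i, 0 < N i) (hA : Antitone N) {Q : ℝ} (hQ : 1 ≤ Q) (Y : Finset (Fin (m + m) → ℤ))
    (hY : Np v Y) {s : ℕ} (hs : s < m)
    (hr : ∀ y ∈ Y, s ≤ Module.finrank ℤ (RL.Mo v y ⊓ Ej (m + m) (2 * s) :
      Submodule ℤ (Fin (m + m) → ℤ)))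
    (hz : ∀ y ∈ Y, ∃ z ∈ RL.Mo v y, z ∉ Ej (m + m) (2 * s) ∧ z ∈ wB N (Q ^ 2 / N ⟨2 * s, by omega⟩)) :
    (Y.card : ℝ) ≤ (2 * Q ^ 2 + 1) ^ (m + m) := by
  classical
  choose! z hz1 hz2 hz3 using hz
  let f : (Fin (m + m) → ℤ) → (Fin (m + m) → ℤ) := fun y l => if 2 * s ≤ (l : ℕ) then z y l else 0
  have hinj : Set.InjOn f (Y : Set (Fin (m + m) → ℤ)) := by
    intro y hy y' hy' hff
    by_contra hne
    have hy1 : y ∈ Y := hy
    have hy2 : y' ∈ Y := hy'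
    have hE : z y - z y' ∈ Ej (m + m) (2 * s) := by
      intro l hl
      have h1 : (if 2 * s ≤ (l : ℕ) then z y l else 0) = if 2 * s ≤ (l : ℕ) then z y' l else 0 :=
        congrFun hff l
      rw [if_pos hl, if_pos hl] at h1
      rw [Pi.sub_apply, h1, sub_self]
    have hint : ∀ x, x ∈ RL.Mo v y → x ∈ RL.Mo v y' → x = 0 := fun x h1 h2 =>
      RL.Mo_inter hv (hY.1 y hy1) (hY.1 y' hy2) (hY.2 y hy1 y' hy2 hne) h1 h2
    have hrk : Module.finrank ℤ (Ej (m + m) (2 * s)) ≤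
        Module.finrank ℤ (RL.Mo v y ⊓ Ej (m + m) (2 * s) : Submodule ℤ (Fin (m + m) → ℤ)) +
        Module.finrank ℤ (RL.Mo v y' ⊓ Ej (m + m) (2 * s) : Submodule ℤ (Fin (m + m) → ℤ)) := by
      have h1 := hr y hy1
      have h2 := hr y' hy2
      have h3 : Module.finrank ℤ (Ej (m + m) (2 * s)) ≤ 2 * s := finrank_Ej_le (by omega)
      omega
    obtain ⟨n, hn, g, hg, g', hg', e⟩ := exists_mul_mem
      (E := Ej (m + m) (2 * s)) (M := RL.Mo v y ⊓ Ej (m + m) (2 * s))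
      (M' := RL.Mo v y' ⊓ Ej (m + m) (2 * s)) inf_le_right inf_le_right
      (fun x h1 h2 => hint x h1.1 h2.1) hrk hE
    have h1 : n • z y - g = n • z y' + g' := by
      rw [smul_sub, sub_eq_iff_eq_add] at e
      rw [e]
      abel
    have h2 : n • z y - g = 0 := by
      refine hint _ (Submodule.sub_mem _ (Submodule.smul_mem _ n (hz1 y hy1)) hg.1) ?_
      rw [h1]
      exact Submodule.add_mem _ (Submodule.smul_mem _ n (hz1 y' hy2)) hg'.1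
    have h3 : n • z y = g := sub_eq_zero.1 h2
    apply hz2 y hy1
    intro l hl
    have h4 : (n • z y) l = 0 := by
      rw [h3]
      exact hg.2 l hl
    rw [Pi.smul_apply, smul_eq_mul] at h4
    exact (mul_eq_zero.1 h4).resolve_left hn
  have hsub : Y.image f ⊆ Fintype.piFinset (fun _ : Fin (m + m) => Icc (-⌊Q ^ 2⌋) ⌊Q ^ 2⌋) := by
    intro w hw
    obtain ⟨y, hy, rfl⟩ := mem_image.1 hw
    rw [Fintype.mem_piFinset]
    intro l
    show (if 2 * s ≤ (l : ℕ) then z y l else 0) ∈ Icc (-⌊Q ^ 2⌋) ⌊Q ^ 2⌋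
    split_ifs with hl
    · have h1 := mem_wB.1 (hz3 y hy) l
      have h2 : N l ≤ N ⟨2 * s, by omega⟩ := hA (Fin.mk_le_of_le_val hl)
      have h3 : |(z y l : ℝ)| ≤ Q ^ 2 := by
        refine h1.trans ?_
        rw [div_mul_eq_mul_div, div_le_iff₀ (hN _)]
        exact mul_le_mul_of_nonneg_left h2 (sq_nonneg _)
      rw [Finset.mem_Icc, ← abs_le, Int.le_floor]
      push_cast
      exact h3
    · have h0 : 0 ≤ ⌊Q ^ 2⌋ := Int.floor_nonneg.2 (sq_nonneg Q)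
      rw [Finset.mem_Icc]
      constructor <;> omega
  have hc1 : Y.card = (Y.image f).card := (Finset.card_image_of_injOn hinj).symm
  have hc2 := Finset.card_le_card hsub
  rw [← hc1, Fintype.card_piFinset_const, Int.card_Icc] at hc2
  have h0 : 0 ≤ ⌊Q ^ 2⌋ := Int.floor_nonneg.2 (sq_nonneg Q)
  have h5 : (((⌊Q ^ 2⌋ + 1 - -⌊Q ^ 2⌋).toNat : ℕ) : ℝ) ≤ 2 * Q ^ 2 + 1 := by
    have h6 : (((⌊Q ^ 2⌋ + 1 - -⌊Q ^ 2⌋).toNat : ℕ) : ℤ) = ⌊Q ^ 2⌋ + 1 - -⌊Q ^ 2⌋ :=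
      Int.toNat_of_nonneg (by omega)
    have h7 : (((⌊Q ^ 2⌋ + 1 - -⌊Q ^ 2⌋).toNat : ℕ) : ℝ) = (⌊Q ^ 2⌋ : ℝ) + 1 + (⌊Q ^ 2⌋ : ℝ) := by
      have h8 : ((((⌊Q ^ 2⌋ + 1 - -⌊Q ^ 2⌋).toNat : ℕ) : ℤ) : ℝ) =
          ((⌊Q ^ 2⌋ + 1 - -⌊Q ^ 2⌋ : ℤ) : ℝ) := by rw [h6]
      rw [Int.cast_natCast] at h8
      rw [h8]
      push_cast
      ring
    rw [h7]
    have h9 := Int.floor_le (Q ^ 2)
    linarith
  calc (Y.card : ℝ) ≤ ((((⌊Q ^ 2⌋ + 1 - -⌊Q ^ 2⌋).toNat) ^ (m + m) : ℕ) : ℝ) := by exact_mod_cast hc2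
    _ = (((⌊Q ^ 2⌋ + 1 - -⌊Q ^ 2⌋).toNat : ℕ) : ℝ) ^ (m + m) := by rw [Nat.cast_pow]
    _ ≤ _ := pow_le_pow_left₀ (Nat.cast_nonneg _) h5 _

end Pool.Agent.SD
end

section

/-!
# TASK SD E: the independent case, many directions in a small box

PROOF.  Let `d = m + m`, `V = ∏ N i = W N 1`, `C₀` the constant of `E1 m`, `C₁ = 4 C₀⁴`, `C' = 64 * 12^d C₁`, `C₃` the constant of `E3 m C₀ C'`, `a = 6 m + 4`, `C` large.  `m ≥ 1`, since for `m = 0` we have `V = 1`, but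
`Q^a ν² ≤ V`, `Q^a ≤ ν`, `Q ≥ 2`.
(0) `|Y| ≥ V/(Q ν²) ≥ Q^(a-1)`.  `Q^4 t ≤ 1`: `t^d V ≤ W N t ≤ 2^d C₁ V/ν²`, so `t^d ≤ 2^d C₁ Q^(-2a) ≤ Q^(-4d)` (`2 a ≥ 8 m + 1`, `Q ≥ 2^d C₁`), `(Q^4 t)^d ≤ 1`.
(1) `Y₁` from `E0`.  For `y ∈ Y₁` the module `M = Mo v y` satisfies `Half M`: `Ej d d` is everything, so `2 finrank M ≤ d`, and `d ≤ 2 finrank M`.  Take `b, β` from `E1`.  For `0 < τ ≤ 1` by `E2'`
`ν² W(τ) ≤ cM(1)² W(τ) ≤ C₀⁴ cM(τ)² V`; with `C₁ V ≤ W(t) ν²`: `C₁ V W(τ) ≤ ν² W(τ) W(t) ≤ C₀⁴ cM(τ)² V W(t)`, so `4 W(τ) ≤ cM(τ)² W(t)`.  For `τ = t`: `cM(t) ≥ 2`, so there is a nonzero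
`z ∈ wB N t ∩ M`.
(2) `Y_b = {y ∈ Y₁ | cM(t)² > C' Q}`.  `SLv` with `u = √(C' Q) ≥ 4`: `|Y_b| ≤ 2 + 16 |wB N (2t)|/(C' Q)`, `|wB N (2t)| ≤ 3^d W(2t) ≤ 6^d W(t) ≤ 12^d C₁ V/ν² ≤ 12^d C₁ Q |Y|`, so `|Y_b| ≤ 2 + |Y|/4`.  `Y' = Y₁ \ Y_b`,
`|Y'| ≥ |Y| - (d + 1) - 2 - |Y|/4 ≥ |Y|/2` (`|Y| ≥ Q^(a-1) ≥ 4 (d + 3)`).
(3) For `y ∈ Y'` apply `E3`: `s`; the second property shows that `s` is the same for all `y ∈ Y'`.  Suppose `s < m`.  `finrank (Mo v y ⊓ Ej d (2s)) ≥ s`: the vectors `b i`, `i < s`, lie in `wB N (Q^4 t)`, and for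
`l ≥ 2s`: `Q^4 t N l ≤ Q^4/Q^e < 1`, so they lie in `Ej d (2s)` (`finrank_ge`).  Among the `s + 1` independent vectors `b 0, ..., b s` (all in `wB N (Q^2/N ⟨2s⟩)`, `mono`) one is not in `Ej d (2s)`, otherwise
`2 (s+1) ≤ 2 s` by `Half`.  So `E4` gives `|Y'| ≤ (2 Q^2 + 1)^d ≤ Q^(6m)`, but `|Y'| ≥ |Y|/2 ≥ Q^(a-1)/2 > Q^(6m)`, a contradiction.  So `s = m`: all `Q^e ≤ t N i`, and all `b i` lie in `wB N (Q^4 t)`.
-/

set_option autoImplicit false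

open scoped ComplexConjugate
open Finset

namespace Pool.Agent.SD

private theorem E_top {d : ℕ} (M : Submodule ℤ (Fin d → ℤ)) : M ⊓ Ej d d = M :=
  inf_eq_left.2 fun _ _ => mem_Ej.2 fun l hl => absurd l.isLt (not_lt.2 hl)

/-- the two-scale inequality -/
private theorem E_scale {m : ℕ} {N : Fin (m + m) → ℝ} {M : Submodule ℤ (Fin (m + m) → ℤ)} {C : ℝ}
    {b : Fin m → (Fin (m + m) → ℤ)} {β : Fin m → ℝ} (h : Bs N M C b β) (hC : 1 ≤ C)
    (hN : ∀ i, 1 ≤ N i) (hA : Antitone N) {ν t : ℝ} (hν : 0 < ν) (hcM : ν ≤ (cM N M 1 : ℝ))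
    (ht : 4 * C ^ 4 * (∏ i, N i) ≤ W N t * ν ^ 2) {τ : ℝ} (hτ : 0 < τ) (hτ1 : τ ≤ 1) :
    4 * W N τ ≤ (cM N M τ : ℝ) ^ 2 * W N t := by
  have hN0 : ∀ i, 0 < N i := fun i => lt_of_lt_of_le one_pos (hN i)
  have h1 := E2' h hC hN0 hA hτ hτ1
  have h2 : W N 1 = ∏ i, N i := by
    rw [W_eq (fun i => by rw [one_mul]; exact hN i), one_pow, one_mul]
  rw [h2] at h1
  have hV : 0 < ∏ i, N i := prod_pos fun i _ => hN0 i
  have hW : 0 < W N τ := lt_of_lt_of_le one_pos (one_le_W N τ)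
  have hWt : 0 < W N t := lt_of_lt_of_le one_pos (one_le_W N t)
  have h3 : ν ^ 2 ≤ (cM N M 1 : ℝ) ^ 2 := by gcongr
  have h4 : ν ^ 2 * W N τ ≤ C ^ 4 * (cM N M τ : ℝ) ^ 2 * ∏ i, N i :=
    (mul_le_mul_of_nonneg_right h3 hW.le).trans h1
  have hC4 : 0 < C ^ 4 := by positivity
  have h5 : (C ^ 4 * ∏ i, N i) * (4 * W N τ) ≤
      (C ^ 4 * ∏ i, N i) * ((cM N M τ : ℝ) ^ 2 * W N t) := by
    calc (C ^ 4 * ∏ i, N i) * (4 * W N τ) = (4 * C ^ 4 * ∏ i, N i) * W N τ := by ring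
      _ ≤ (W N t * ν ^ 2) * W N τ := mul_le_mul_of_nonneg_right ht hW.le
      _ = W N t * (ν ^ 2 * W N τ) := by ring
      _ ≤ W N t * (C ^ 4 * (cM N M τ : ℝ) ^ 2 * ∏ i, N i) := mul_le_mul_of_nonneg_left h4 hWt.le
      _ = (C ^ 4 * ∏ i, N i) * ((cM N M τ : ℝ) ^ 2 * W N t) := by ring
  exact le_of_mul_le_mul_left h5 (by positivity)

/-- a nonzero vector -/
private theorem E_vec {d : ℕ} {N : Fin d → ℝ} {M : Submodule ℤ (Fin d → ℤ)} {t : ℝ}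
    (h : 4 * W N t ≤ (cM N M t : ℝ) ^ 2 * W N t) : ∃ z ∈ M, z ≠ 0 ∧ z ∈ wB N t := by
  classical
  have hWt : 0 < W N t := lt_of_lt_of_le one_pos (one_le_W N t)
  have h1 : (4 : ℝ) ≤ (cM N M t : ℝ) ^ 2 := le_of_mul_le_mul_right h hWt
  have h2 : 2 ≤ cM N M t := by
    by_contra hcon
    have h3 : cM N M t ≤ 1 := by omega
    have h4 : (cM N M t : ℝ) ≤ 1 := by exact_mod_cast h3
    have h5 : (0 : ℝ) ≤ (cM N M t : ℝ) := Nat.cast_nonneg _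
    nlinarith
  unfold cM at h2
  obtain ⟨x, hx, y, hy, hxy⟩ := Finset.one_lt_card.1 h2
  rw [mem_filter] at hx hy
  by_cases h0 : x = 0
  · exact ⟨y, hy.2, fun h => hxy (h0.trans h.symm), hy.1⟩
  · exact ⟨x, hx.2, h0, hx.1⟩

/-- the index `s` is `m` -/
private theorem E_s {m : ℕ} {v : Fin (m + m) → ℂ} (hv : LinearIndependent ℚ v)
    {N : Fin (m + m) → ℝ} (hN : ∀ i, 0 < N i) (hA : Antitone N) {C Q t : ℝ} {e : ℕ} (hQ : 3 ≤ Q)
    (ht : 0 < t) (he : 5 ≤ e) (hdich : ∀ i, t * N i ≤ (Q ^ e)⁻¹ ∨ Q ^ e ≤ t * N i)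
    (Y : Finset (Fin (m + m) → ℤ)) (hY : Np v Y)
    (hcard : Q ^ (6 * m) < (Y.card : ℝ))
    (hb : ∀ y ∈ Y, Half (RL.Mo v y) ∧ ∃ (b : Fin m → (Fin (m + m) → ℤ)) (β : Fin m → ℝ),
      Bs N (RL.Mo v y) C b β ∧ ∃ s : ℕ, s ≤ m ∧
        (∀ i : Fin (m + m), (i : ℕ) < 2 * s ↔ Q ^ e ≤ t * N i) ∧
        (∀ i : Fin m, (i : ℕ) < s ↔ β i ≤ Q ^ 4 * t) ∧
        ∀ h : s < m, β ⟨s, h⟩ ≤ Q ^ 2 / N ⟨2 * s, by omega⟩) :
    ∀ i, Q ^ e ≤ t * N i := by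
  have hQ0 : 0 < Q := by linarith
  have hne : Y.Nonempty := by
    rw [← card_pos]
    have : (0 : ℝ) < (Y.card : ℝ) := lt_of_lt_of_le (by positivity) hcard.le
    exact_mod_cast this
  obtain ⟨y0, hy0⟩ := hne
  obtain ⟨_, b0, β0, _, s, hsm, hs1, _, _⟩ := hb y0 hy0
  by_cases hs : s = m
  · intro i
    exact (hs1 i).1 (by have := i.isLt; omega)
  exfalso
  have hsm' : s < m := lt_of_le_of_ne hsm hs
  have hsame : ∀ s' : ℕ, s' ≤ m → (∀ i : Fin (m + m), (i : ℕ) < 2 * s' ↔ Q ^ e ≤ t * N i) →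
      s' = s := by
    intro s' hs' h'
    rcases lt_trichotomy s' s with hlt | heq | hgt
    · exfalso
      have h1 := (hs1 ⟨2 * s', by omega⟩).1 (by show 2 * s' < 2 * s; omega)
      have h2 := (h' ⟨2 * s', by omega⟩).2 h1
      exact absurd h2 (by show ¬ 2 * s' < 2 * s'; omega)
    · exact heq
    · exfalso
      have h1 := (h' ⟨2 * s, by omega⟩).1 (by show 2 * s < 2 * s'; omega)
      have h2 := (hs1 ⟨2 * s, by omega⟩).2 h1
      exact absurd h2 (by show ¬ 2 * s < 2 * s; omega)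
  have hsmall : ∀ x ∈ wB N (Q ^ 4 * t), x ∈ Ej (m + m) (2 * s) := by
    intro x hx
    rw [mem_Ej]
    intro l hl
    refine eq_zero_of_mem_wB hx ?_
    rcases hdich l with h1 | h1
    · have h2 : Q ^ 4 * t * N l ≤ Q ^ 4 * (Q ^ e)⁻¹ := by
        rw [mul_assoc]
        exact mul_le_mul_of_nonneg_left h1 (by positivity)
      have h3 : Q ^ 4 * (Q ^ e)⁻¹ < 1 := by
        rw [← div_eq_mul_inv, div_lt_one (by positivity)]
        exact pow_lt_pow_right₀ (by linarith) (by omega)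
      linarith
    · exact absurd ((hs1 l).2 h1) (by omega)
  have h4 := E4 hv hN hA (by linarith : (1 : ℝ) ≤ Q) Y hY hsm' (by
    intro y hy
    obtain ⟨_, b, β, hB, s', hs', k1, k2, _⟩ := hb y hy
    obtain rfl := hsame s' hs' k1
    refine finrank_ge (fun k : Fin s' => b ⟨k, by omega⟩) ?_ ?_
    · exact hB.ind.comp _ fun i j hij => by
        have := congrArg Fin.val hij
        exact Fin.ext this
    · intro k
      have h5 : β ⟨k, by omega⟩ ≤ Q ^ 4 * t := (k2 ⟨k, by omega⟩).1 k.isLt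
      exact Submodule.mem_inf.2 ⟨hB.mem _, hsmall _ ((hB.nrm _ _ (by positivity)).2 h5)⟩) (by
    intro y hy
    obtain ⟨hH, b, β, hB, s', hs', k1, k2, k3⟩ := hb y hy
    obtain rfl := hsame s' hs' k1
    by_contra hcon
    push Not at hcon
    have hin : ∀ k : Fin (s' + 1), b ⟨k, by omega⟩ ∈ wB N (Q ^ 2 / N ⟨2 * s', by omega⟩) := by
      intro k
      have hpos : 0 < N ⟨2 * s', by omega⟩ := hN _
      refine (hB.nrm _ _ (by positivity)).2 ((hB.mono ?_).trans (k3 hsm'))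
      show (k : ℕ) ≤ s'
      have := k.isLt
      omega
    have hall : ∀ k : Fin (s' + 1), b ⟨k, by omega⟩ ∈ RL.Mo v y ⊓ Ej (m + m) (2 * s') := by
      intro k
      refine Submodule.mem_inf.2 ⟨hB.mem _, ?_⟩
      by_contra hnot
      exact hcon _ (hB.mem _) hnot (hin k)
    have h6 := finrank_ge (fun k : Fin (s' + 1) => b ⟨k, by omega⟩)
      (hB.ind.comp _ fun i j hij => by
        have := congrArg Fin.val hij
        exact Fin.ext this) hall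
    have h7 := hH.2 (2 * s') (by omega)
    omega)
  have h8 : (2 * Q ^ 2 + 1) ^ (m + m) ≤ Q ^ (6 * m) := by
    have h9 : 2 * Q ^ 2 + 1 ≤ Q ^ 3 := by nlinarith [sq_nonneg (Q - 1), mul_pos hQ0 hQ0]
    calc (2 * Q ^ 2 + 1) ^ (m + m) ≤ (Q ^ 3) ^ (m + m) := pow_le_pow_left₀ (by positivity) h9 _
      _ = Q ^ (6 * m) := by rw [← pow_mul]; congr 1; ring
  linarith

theorem E (m : ℕ) : ∃ (C₁ C : ℝ) (a : ℕ), 1 ≤ C₁ ∧ 1 ≤ C ∧ ∀ (e : ℕ) (v : Fin (m + m) → ℂ)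
    (N : Fin (m + m) → ℝ) (Q ν t : ℝ) (Y : Finset (Fin (m + m) → ℤ)), 5 ≤ e → LinearIndependent ℚ v →
    Antitone N → C ≤ Q → (∀ i, Q ^ a ≤ N i) → 0 < t → t ≤ 1 → C₁ * (∏ i, N i) ≤ W N t * ν ^ 2 →
    W N t * ν ^ 2 ≤ 2 ^ (m + m) * C₁ * ∏ i, N i → (∀ i, t * N i ≤ (Q ^ e)⁻¹ ∨ Q ^ e ≤ t * N i) →
    Np v Y → Q ^ a ≤ ν → (∀ y ∈ Y, ν ≤ (cM N (RL.Mo v y) 1 : ℝ) ∧
      m + m ≤ 2 * Module.finrank ℤ (RL.Mo v y)) →
    (∏ i, N i) ≤ Q * ((Y.card : ℝ) * ν ^ 2) → Q ^ a * ν ^ 2 ≤ ∏ i, N i →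
    1 ≤ m ∧ (∀ i, Q ^ e ≤ t * N i) ∧ Q ^ 4 * t ≤ 1 ∧ ∃ Y' ⊆ Y, Y.card ≤ 2 * Y'.card ∧
      ∀ y ∈ Y', (∃ z ∈ RL.Mo v y, z ≠ 0 ∧ z ∈ wB N t) ∧
        ∃ u : Fin m → (Fin (m + m) → ℤ), LinearIndependent ℤ u ∧
          ∀ k, u k ∈ RL.Mo v y ∧ u k ∈ wB N (Q ^ 4 * t) := by
  classical
  obtain ⟨C₀, hC0, H1⟩ := E1 m
  have hC04 : 1 ≤ C₀ ^ 4 := one_le_pow₀ hC0
  have hC1 : (1 : ℝ) ≤ 4 * C₀ ^ 4 := by linarith
  have h12 : (1 : ℝ) ≤ 12 ^ (m + m) := one_le_pow₀ (by norm_num)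
  have hC' : (1 : ℝ) ≤ 64 * 12 ^ (m + m) * (4 * C₀ ^ 4) := by nlinarith
  obtain ⟨C₃, hC3, H3⟩ := E3 m C₀ (64 * 12 ^ (m + m) * (4 * C₀ ^ 4)) hC0 hC'
  have h2d : (1 : ℝ) ≤ 2 ^ (m + m) := one_le_pow₀ (by norm_num)
  have hA0 : (1 : ℝ) ≤ 2 ^ (m + m) * (4 * C₀ ^ 4) := by nlinarith
  have hm0 : (0 : ℝ) ≤ (m : ℝ) := Nat.cast_nonneg m
  refine ⟨4 * C₀ ^ 4, 2 ^ (m + m) * (4 * C₀ ^ 4) + C₃ + 4 * ((m : ℝ) + m + 3), 6 * m + 4, hC1,
    by linarith, ?_⟩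
  intro e v N Q ν t Y he hv hA hCQ hNQ ht ht1 hlow hupp hdich hNp hν hYy hV1 hV2
  have hQC3 : C₃ ≤ Q := by linarith
  have hQ1 : 2 ^ (m + m) * (4 * C₀ ^ 4) ≤ Q := by linarith
  have hQ2 : 4 * ((m : ℝ) + m + 3) ≤ Q := by linarith
  have hQ12 : (12 : ℝ) ≤ Q := by linarith
  have hQ0 : 0 < Q := by linarith
  have hQone : 1 ≤ Q := by linarith
  have hQa : 1 ≤ Q ^ (6 * m + 4) := one_le_pow₀ hQone
  have hν0 : 0 < ν := by linarith
  have hν1 : 1 ≤ ν := by linarith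
  have hN1 : ∀ i, 1 ≤ N i := fun i => hQa.trans (hNQ i)
  have hN0 : ∀ i, 0 < N i := fun i => lt_of_lt_of_le one_pos (hN1 i)
  have hV : 0 < ∏ i, N i := prod_pos fun i _ => hN0 i
  have hν2 : 0 < ν ^ 2 := by positivity
  have hm : 1 ≤ m := by
    by_contra hcon
    have h0 : m = 0 := by omega
    subst h0
    have h1 : ∏ i : Fin (0 + 0), N i = 1 := by
      have : (univ : Finset (Fin (0 + 0))) = ∅ := by
        ext i
        exact i.elim0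
      rw [this, prod_empty]
    rw [h1] at hV2
    have h2 : Q ≤ Q ^ (6 * 0 + 4) := le_self_pow₀ hQone (by norm_num)
    have h3 : 1 ≤ ν ^ 2 := one_le_pow₀ hν1
    nlinarith
  have hYc : Q ^ (6 * m + 3) ≤ (Y.card : ℝ) := by
    have h1 : Q ^ (6 * m + 4) * ν ^ 2 ≤ Q * ((Y.card : ℝ) * ν ^ 2) := hV2.trans hV1
    have h2 : (Q * ν ^ 2) * Q ^ (6 * m + 3) ≤ (Q * ν ^ 2) * (Y.card : ℝ) := by
      calc (Q * ν ^ 2) * Q ^ (6 * m + 3) = Q ^ (6 * m + 4) * ν ^ 2 := by ring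
        _ ≤ Q * ((Y.card : ℝ) * ν ^ 2) := h1
        _ = (Q * ν ^ 2) * (Y.card : ℝ) := by ring
    exact le_of_mul_le_mul_left h2 (by positivity)
  have hQt : Q ^ 4 * t ≤ 1 := by
    have h1 : t ^ (m + m) * ∏ i, N i ≤ W N t := by
      have h2 : t ^ (m + m) * ∏ i, N i = ∏ i, (t * N i) := by
        rw [prod_mul_distrib, prod_const, card_univ, Fintype.card_fin]
      rw [h2]
      unfold W
      exact prod_le_prod (fun i _ => (mul_pos ht (hN0 i)).le) fun i _ => le_max_right _ _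
    have h3 : (∏ i, N i) * (t ^ (m + m) * ν ^ 2) ≤ (∏ i, N i) * Q := by
      calc (∏ i, N i) * (t ^ (m + m) * ν ^ 2) = (t ^ (m + m) * ∏ i, N i) * ν ^ 2 := by ring
        _ ≤ W N t * ν ^ 2 := mul_le_mul_of_nonneg_right h1 hν2.le
        _ ≤ 2 ^ (m + m) * (4 * C₀ ^ 4) * ∏ i, N i := hupp
        _ ≤ Q * ∏ i, N i := mul_le_mul_of_nonneg_right hQ1 hV.le
        _ = (∏ i, N i) * Q := by ring
    have h4 : t ^ (m + m) * ν ^ 2 ≤ Q := le_of_mul_le_mul_left h3 hV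
    have h5 : (Q ^ (6 * m + 4)) ^ 2 ≤ ν ^ 2 := pow_le_pow_left₀ (by positivity) hν 2
    have h6 : t ^ (m + m) * (Q ^ (6 * m + 4)) ^ 2 ≤ Q :=
      (mul_le_mul_of_nonneg_left h5 (by positivity)).trans h4
    have h7 : (Q ^ 4 * t) ^ (m + m) * (Q ^ (6 * m + 4)) ^ 2 ≤ 1 * (Q ^ (6 * m + 4)) ^ 2 := by
      calc (Q ^ 4 * t) ^ (m + m) * (Q ^ (6 * m + 4)) ^ 2
          = (Q ^ 4) ^ (m + m) * (t ^ (m + m) * (Q ^ (6 * m + 4)) ^ 2) := by rw [mul_pow]; ring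
        _ ≤ (Q ^ 4) ^ (m + m) * Q := mul_le_mul_of_nonneg_left h6 (by positivity)
        _ = Q ^ (8 * m + 1) := by rw [← pow_mul, ← pow_succ]; congr 1; ring
        _ ≤ Q ^ ((6 * m + 4) * 2) := pow_le_pow_right₀ hQone (by omega)
        _ = 1 * (Q ^ (6 * m + 4)) ^ 2 := by rw [← pow_mul, one_mul]
    have h8 : (Q ^ 4 * t) ^ (m + m) ≤ 1 := le_of_mul_le_mul_right h7 (by positivity)
    exact (pow_le_one_iff_of_nonneg (by positivity) (by omega)).1 h8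
  obtain ⟨Y1, hY1s, hY1c, hY1⟩ := E0 hv Y hNp
  have hHalf : ∀ y ∈ Y1, Half (RL.Mo v y) := by
    intro y hy
    have h1 := hY1 y hy
    refine ⟨?_, h1⟩
    have h2 := h1 (m + m) le_rfl
    rw [E_top] at h2
    have h3 := (hYy y (hY1s hy)).2
    omega
  have hBs : ∀ y ∈ Y1, ∃ (b : Fin m → (Fin (m + m) → ℤ)) (β : Fin m → ℝ),
      Bs N (RL.Mo v y) C₀ b β := fun y hy => H1 N hN0 hA _ (hHalf y hy)
  have hsc : ∀ y ∈ Y1, ∀ τ, 0 < τ → τ ≤ 1 →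
      4 * W N τ ≤ (cM N (RL.Mo v y) τ : ℝ) ^ 2 * W N t := by
    intro y hy τ hτ hτ1
    obtain ⟨b, β, hB⟩ := hBs y hy
    exact E_scale hB hC0 hN1 hA hν0 (hYy y (hY1s hy)).1 hlow hτ hτ1
  set C' : ℝ := 64 * 12 ^ (m + m) * (4 * C₀ ^ 4) with hC'def
  set Yb := Y1.filter fun y => C' * Q < (cM N (RL.Mo v y) t : ℝ) ^ 2 with hYb
  have hYbc : (Yb.card : ℝ) ≤ 2 + (Y.card : ℝ) / 4 := by
    have hNpb : Np v Yb := by
      refine ⟨fun y hy => hNp.1 y (hY1s (mem_filter.1 hy).1), fun y hy y' hy' hne =>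
        hNp.2 y (hY1s (mem_filter.1 hy).1) y' (hY1s (mem_filter.1 hy').1) hne⟩
    have hC'Q : 64 ≤ C' * Q := by
      have : 64 ≤ C' := by rw [hC'def]; nlinarith
      nlinarith
    have hu : (4 : ℝ) ≤ Real.sqrt (C' * Q) := by
      refine Real.le_sqrt_of_sq_le ?_
      linarith
    have h1 := SLv hv (N := N) (t := t) Yb hNpb hu (by
      intro y hy
      have h2 := (mem_filter.1 hy).2
      refine Real.sqrt_le_iff.2 ⟨Nat.cast_nonneg _, h2.le⟩)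
    rw [Real.sq_sqrt (by linarith)] at h1
    have h3 : ((wB N (2 * t)).card : ℝ) ≤ 12 ^ (m + m) * (4 * C₀ ^ 4) * (Q * (Y.card : ℝ)) := by
      have h4 := card_le_W (fun i => (hN0 i).le) (by linarith : (0 : ℝ) ≤ 2 * t)
      have h5 := W_scale (N := N) (s := 2) (t := t) (by norm_num) (fun i => (hN0 i).le) ht.le
      have h6 : ((wB N (2 * t)).card : ℝ) ≤ 6 ^ (m + m) * W N t := by
        calc ((wB N (2 * t)).card : ℝ) ≤ 3 ^ (m + m) * W N (2 * t) := h4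
          _ ≤ 3 ^ (m + m) * (2 ^ (m + m) * W N t) := mul_le_mul_of_nonneg_left h5 (by positivity)
          _ = (3 * 2) ^ (m + m) * W N t := by rw [mul_pow]; ring
          _ = 6 ^ (m + m) * W N t := by norm_num
      have h7 : ν ^ 2 * ((wB N (2 * t)).card : ℝ) ≤
          ν ^ 2 * (12 ^ (m + m) * (4 * C₀ ^ 4) * (Q * (Y.card : ℝ))) := by
        calc ν ^ 2 * ((wB N (2 * t)).card : ℝ) ≤ ν ^ 2 * (6 ^ (m + m) * W N t) :=
              mul_le_mul_of_nonneg_left h6 hν2.le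
          _ = 6 ^ (m + m) * (W N t * ν ^ 2) := by ring
          _ ≤ 6 ^ (m + m) * (2 ^ (m + m) * (4 * C₀ ^ 4) * ∏ i, N i) :=
              mul_le_mul_of_nonneg_left hupp (by positivity)
          _ = (6 * 2) ^ (m + m) * (4 * C₀ ^ 4) * ∏ i, N i := by rw [mul_pow]; ring
          _ = 12 ^ (m + m) * (4 * C₀ ^ 4) * ∏ i, N i := by norm_num
          _ ≤ 12 ^ (m + m) * (4 * C₀ ^ 4) * (Q * ((Y.card : ℝ) * ν ^ 2)) :=
              mul_le_mul_of_nonneg_left hV1 (by positivity)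
          _ = ν ^ 2 * (12 ^ (m + m) * (4 * C₀ ^ 4) * (Q * (Y.card : ℝ))) := by ring
      exact le_of_mul_le_mul_left h7 hν2
    have h8 : 16 * ((wB N (2 * t)).card : ℝ) / (C' * Q) ≤ (Y.card : ℝ) / 4 := by
      rw [div_le_iff₀ (by linarith)]
      calc 16 * ((wB N (2 * t)).card : ℝ) ≤
            16 * (12 ^ (m + m) * (4 * C₀ ^ 4) * (Q * (Y.card : ℝ))) := by linarith
        _ = (Y.card : ℝ) / 4 * (C' * Q) := by rw [hC'def]; ring
    linarith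
  have hY'c : (Y.card : ℝ) ≤ 2 * ((Y1 \ Yb).card : ℝ) := by
    have hsub : Yb ⊆ Y1 := filter_subset _ _
    have h1 : Y1.card ≤ (Y1 \ Yb).card + Yb.card :=
      (card_sdiff_add_card_eq_card hsub).ge
    have h2 : (Y1.card : ℝ) ≤ ((Y1 \ Yb).card : ℝ) + (Yb.card : ℝ) := by exact_mod_cast h1
    have h3 : (Y.card : ℝ) ≤ (Y1.card : ℝ) + ((m : ℝ) + m + 1) := by exact_mod_cast hY1c
    have h4 : Q ≤ Q ^ (6 * m + 3) := le_self_pow₀ hQone (by omega)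
    linarith
  have hmain : ∀ y ∈ Y1 \ Yb, Half (RL.Mo v y) ∧ ∃ (b : Fin m → (Fin (m + m) → ℤ)) (β : Fin m → ℝ),
      Bs N (RL.Mo v y) C₀ b β ∧ ∃ s : ℕ, s ≤ m ∧
        (∀ i : Fin (m + m), (i : ℕ) < 2 * s ↔ Q ^ e ≤ t * N i) ∧
        (∀ i : Fin m, (i : ℕ) < s ↔ β i ≤ Q ^ 4 * t) ∧
        ∀ h : s < m, β ⟨s, h⟩ ≤ Q ^ 2 / N ⟨2 * s, by omega⟩ := by
    intro y hy
    obtain ⟨hy1, hyb⟩ := mem_sdiff.1 hy
    obtain ⟨b, β, hB⟩ := hBs y hy1
    refine ⟨hHalf y hy1, b, β, hB, ?_⟩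
    refine H3 N (RL.Mo v y) b β Q t e hB hA hQC3 ?_ ht hQt he hdich ?_ ?_
    · intro i
      exact (pow_le_pow_right₀ hQone (by omega)).trans (hNQ i)
    · intro τ hτ hτ1
      have h1 := hsc y hy1 τ (lt_of_lt_of_le ht hτ) hτ1
      have h2 : 0 < W N τ := lt_of_lt_of_le one_pos (one_le_W N τ)
      linarith
    · by_contra hcon
      exact hyb (mem_filter.2 ⟨hy1, not_le.1 hcon⟩)
  have hNp' : Np v (Y1 \ Yb) :=
    ⟨fun y hy => hNp.1 y (hY1s (mem_sdiff.1 hy).1), fun y hy y' hy' hne =>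
      hNp.2 y (hY1s (mem_sdiff.1 hy).1) y' (hY1s (mem_sdiff.1 hy').1) hne⟩
  have hbig : Q ^ (6 * m) < ((Y1 \ Yb).card : ℝ) := by
    have h1 : Q ^ (6 * m + 3) = Q ^ (6 * m) * Q ^ 3 := by rw [pow_add]
    have h2 : (0 : ℝ) < Q ^ (6 * m) := by positivity
    have h3 : Q ≤ Q ^ 3 := le_self_pow₀ hQone (by norm_num)
    nlinarith
  have hall := E_s hv hN0 hA (by linarith : (3 : ℝ) ≤ Q) ht he hdich (Y1 \ Yb) hNp' hbig hmain
  refine ⟨hm, hall, hQt, Y1 \ Yb, fun y hy => hY1s (mem_sdiff.1 hy).1, by exact_mod_cast hY'c, ?_⟩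
  intro y hy
  have hy1 := (mem_sdiff.1 hy).1
  obtain ⟨_, b, β, hB, s, hsm, k1, k2, _⟩ := hmain y hy
  refine ⟨E_vec (hsc y hy1 t ht ht1), b, hB.ind, fun k => ⟨hB.mem k, ?_⟩⟩
  refine (hB.nrm k _ (by positivity)).2 ((k2 k).1 ?_)
  have hs : s = m := by
    by_contra hne
    have h1 : s < m := lt_of_le_of_ne hsm hne
    have h2 := (k1 ⟨2 * s, by omega⟩).2 (hall _)
    exact absurd h2 (by show ¬ 2 * s < 2 * s; omega)
  rw [hs]
  exact k.isLt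

end Pool.Agent.SD
end
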