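import Mathlib
import Pool.Agent.Lib.MP_6f2296_co.SD.FDefs
import Pool.Agent.Lib.MP_6f2296_co.Mg.G012
import Pool.Agent.Lib.MP_6f2296_co.SD.EDefs
import Pool.Agent.Lib.MP_6f2296_co.Mg.G002
import Pool.Agent.Lib.MP_6f2296_co.SD.Red

section

/-!
# TASK SD F9: a real inequality (bound for the logarithm of the common multiple)

PROOF.  From the main hypothesis `(g - 2 - 2m) X ≤ (g - 2) Lg + 4 m² W E`.  Since `g ≥ 4m + 4`: `g - 2 - 2m ≥ (g - 2)/2` and `g - 2 ≥ g/2`, so
`X ≤ 2 Lg + 8 m² W E/(g - 2) ≤ 2 Lg + 16 m² Lg E` (`W ≤ Lg g`).  `log (1 + X) ≤ 4 (1 + X)^(1/4)` (compare the proof of `RL.R9`), so `E ≤ 1 + (1 + log (1+X))² ≤ 1 + 25 √(1+X) ≤ 26 √(1+X)`.  So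
`1 + X ≤ 1 + Lg (2 + 416 m² √(1+X)) ≤ (3 + 416 m²) Lg √(1+X)`, so `√(1+X) ≤ (3 + 416 m²) Lg` and `X ≤ (3 + 416 m²)² Lg²`.
-/

set_option autoImplicit false

namespace Pool.Agent.SD

theorem F9 (m : ℕ) : ∃ C : ℝ, 1 ≤ C ∧ ∀ g W Lg X E : ℝ, 1 ≤ Lg → 0 ≤ W → W ≤ Lg * g →
    4 * m + 4 ≤ g → 0 ≤ X → 0 ≤ E → E ≤ 1 + (1 + Real.log (1 + X)) ^ 2 →
    (g - 2) * X ≤ (g - 2) * Lg + 2 * (W * (2 * (m : ℝ) ^ 2 * E) + m * X) → X ≤ C * Lg ^ 2 := by
  have hm : (0 : ℝ) ≤ (m : ℝ) ^ 2 := by positivity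
  have hm0 : (0 : ℝ) ≤ (m : ℝ) := Nat.cast_nonneg m
  refine ⟨(3 + 272 * (m : ℝ) ^ 2) ^ 2, by nlinarith, ?_⟩
  intro g W Lg X E hLg hW hWg hg hX hE hE2 h
  have hg2 : 0 < g - 2 := by linarith
  -- the first bound
  have h1 : X ≤ 2 * Lg + 16 * (m : ℝ) ^ 2 * Lg * E := by
    have h2 : (g - 2) / 2 * X ≤ (g - 2 - 2 * m) * X :=
      mul_le_mul_of_nonneg_right (by linarith) hX
    have h3 : W * (m : ℝ) ^ 2 * E ≤ (Lg * g) * (m : ℝ) ^ 2 * E :=
      mul_le_mul_of_nonneg_right (mul_le_mul_of_nonneg_right hWg hm) hE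
    have h4 : (Lg * g) * (m : ℝ) ^ 2 * E ≤ (Lg * (2 * (g - 2))) * (m : ℝ) ^ 2 * E :=
      mul_le_mul_of_nonneg_right (mul_le_mul_of_nonneg_right
        (mul_le_mul_of_nonneg_left (by linarith) (by linarith)) hm) hE
    have h5 : (g - 2) * X ≤ (g - 2) * (2 * Lg + 16 * (m : ℝ) ^ 2 * Lg * E) := by
      nlinarith
    exact le_of_mul_le_mul_left h5 hg2
  -- the logarithm
  have hs0 : 0 ≤ 1 + X := by linarith
  set s : ℝ := Real.sqrt (1 + X) with hs
  set u : ℝ := Real.sqrt s with hu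
  have hss : s ^ 2 = 1 + X := Real.sq_sqrt hs0
  have hs1 : 1 ≤ s := by
    rw [hs]
    exact Real.one_le_sqrt.2 (by linarith)
  have huu : u ^ 2 = s := Real.sq_sqrt (by linarith)
  have hu1 : 1 ≤ u := by
    rw [hu]
    exact Real.one_le_sqrt.2 hs1
  have hlog : Real.log (1 + X) ≤ 4 * (u - 1) := by
    have h2 : 1 + X = u ^ 4 := by
      rw [← hss, ← huu]
      ring
    rw [h2, Real.log_pow]
    have := Real.log_le_sub_one_of_pos (show 0 < u by linarith)
    push_cast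
    linarith
  have hlog0 : 0 ≤ Real.log (1 + X) := Real.log_nonneg (by linarith)
  have hE3 : E ≤ 17 * s := by
    have h2 : (1 + Real.log (1 + X)) ^ 2 ≤ (4 * u) ^ 2 :=
      pow_le_pow_left₀ (by linarith) (by linarith) 2
    have h3 : (4 * u) ^ 2 = 16 * s := by
      rw [← huu]
      ring
    linarith
  have hLs : 0 ≤ Lg * s := by nlinarith
  have h6 : X ≤ 2 * Lg + 272 * (m : ℝ) ^ 2 * Lg * s := by
    have h7 : 16 * (m : ℝ) ^ 2 * Lg * E ≤ 16 * (m : ℝ) ^ 2 * Lg * (17 * s) :=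
      mul_le_mul_of_nonneg_left hE3 (by positivity)
    linarith
  have h8 : s * s ≤ s * ((3 + 272 * (m : ℝ) ^ 2) * Lg) := by
    have h9 : s * s = 1 + X := by
      rw [← hss]
      ring
    have h10 : Lg ≤ Lg * s := le_mul_of_one_le_right (by linarith) hs1
    nlinarith
  have h11 : s ≤ (3 + 272 * (m : ℝ) ^ 2) * Lg := le_of_mul_le_mul_left h8 (by linarith)
  have h12 : s ^ 2 ≤ ((3 + 272 * (m : ℝ) ^ 2) * Lg) ^ 2 := pow_le_pow_left₀ (by linarith) h11 2
  rw [mul_pow] at h12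
  linarith

end Pool.Agent.SD
end

section

/-!
# TASK SD Fa: minors, unequal sides

The statements are the weighted versions of `RL.R1`, `RL.R2`, `RL.Rdt`, and the proofs in `RL/Ra.lean`, `RL/Rb.lean`, `RL/Rc.lean` can be copied (also their private lemmas) with the following changes.

`R1w`: only the bound of the determinant `D g = det [E_g | Y]` changes.  Over `ℝ` let `Y' i j = Y i j / M i`, `|Y' i j| ≤ 1`.  Multiply row `i` of `[E_g | Y']` by `M i` and divide the column `l` of the left block by `M (g l)`: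
the result is `[E_g | Y]` (the entry `1` of the column `l` of `E_g` is in the row `g l`).  So `det [E_g | Y] = (∏ i, M i) / (∏ l, M (g l)) * det [E_g | Y']` (`Matrix.det_mul_column`, `Matrix.det_mul_row`), and
`|det [E_g | Y']| ≤ (2m)!`, all entries being at most `1` in absolute value (Leibniz).  So `|D g| ≤ J1 M g`.

`R2w`: `c f = ∏ k, Y (f k) k`, `|c f| ≤ ∏ k, M (f k) = J2 M f`.

`RdtW`: as `RL.Rdt` (use `RL.Rc` for the content).
-/

set_option autoImplicit false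

open Finset Polynomial

namespace Pool.Agent.SD

open RL

/-- The matrix with the unit columns `g 0, ..., g (m-1)`. -/
private def Fa_E {m : ℕ} (g : Fin m → Fin (m + m)) : Matrix (Fin (m + m)) (Fin m) ℤ :=
  fun i l => if i = g l then 1 else 0

private theorem Fa_mul_E {m : ℕ} (A : Matrix (Fin m) (Fin (m + m)) ℤ) (g : Fin m → Fin (m + m)) :
    A * Fa_E g = A.submatrix id g := by
  ext i l
  rw [Matrix.mul_apply, Matrix.submatrix_apply]
  simp [Fa_E]

private theorem Fa_det {m : ℕ} (A B : Matrix (Fin m) (Fin (m + m)) ℤ)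
    (Y : Matrix (Fin (m + m)) (Fin m) ℤ) (hA : A * Y = 0) (g : Fin m → Fin (m + m)) :
    mi A g * (B * Y).det = ((Matrix.fromRows A B).submatrix id finSumFinEquiv).det *
      ((Matrix.fromCols (Fa_E g) Y).submatrix finSumFinEquiv id).det := by
  rw [← Matrix.det_mul, Matrix.submatrix_mul_equiv, Matrix.fromRows_mul_fromCols, hA, Fa_mul_E,
    Matrix.submatrix_id_id, Matrix.det_fromBlocks_zero₁₂]
  rfl

private theorem Fa_bound {m : ℕ} (Y : Matrix (Fin (m + m)) (Fin m) ℤ)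
    (M : Fin (m + m) → ℝ) (hM : ∀ i, 0 < M i) (hY : ∀ i j, |(Y i j : ℝ)| ≤ M i)
    (g : Fin m → Fin (m + m)) :
    |((((Matrix.fromCols (Fa_E g) Y).submatrix finSumFinEquiv id).det : ℤ) : ℝ)| ≤ J1 M g := by
  set Q : Matrix (Fin m ⊕ Fin m) (Fin m ⊕ Fin m) ℤ :=
    (Matrix.fromCols (Fa_E g) Y).submatrix finSumFinEquiv id with hQ
  have hl : ∀ i l, |((Q i (Sum.inl l) : ℤ) : ℝ)| = if finSumFinEquiv i = g l then 1 else 0 := by
    intro i l
    have h1 : Q i (Sum.inl l) = Fa_E g (finSumFinEquiv i) l := rfl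
    rw [h1]
    unfold Fa_E
    split_ifs <;> simp
  have hr : ∀ i l, |((Q i (Sum.inr l) : ℤ) : ℝ)| ≤ M (finSumFinEquiv i) := by
    intro i l
    have h1 : Q i (Sum.inr l) = Y (finSumFinEquiv i) l := rfl
    rw [h1]
    exact hY _ _
  have hpos : 0 < (∏ i, M i) / ∏ k, M (g k) :=
    div_pos (Finset.prod_pos fun i _ => hM i) (Finset.prod_pos fun k _ => hM (g k))
  have hterm : ∀ σ : Equiv.Perm (Fin m ⊕ Fin m),
      |((Equiv.Perm.sign σ • ∏ i, Q (σ i) i : ℤ) : ℝ)| ≤ (∏ i, M i) / ∏ k, M (g k) := by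
    intro σ
    have h3 : |((Equiv.Perm.sign σ • ∏ i, Q (σ i) i : ℤ) : ℝ)| = ∏ i, |((Q (σ i) i : ℤ) : ℝ)| := by
      rw [← Finset.abs_prod, Units.smul_def, smul_eq_mul, Int.cast_mul, abs_mul]
      have h8 : |(((Equiv.Perm.sign σ : ℤˣ) : ℤ) : ℝ)| = 1 := by
        rcases Int.units_eq_one_or (Equiv.Perm.sign σ) with h | h
        · rw [h]; simp
        · rw [h]; simp
      rw [h8, one_mul, Int.cast_prod]
    rw [h3, Fintype.prod_sum_type]
    by_cases hall : ∀ l, finSumFinEquiv (σ (Sum.inl l)) = g l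
    · have h4 : ∏ l : Fin m, |((Q (σ (Sum.inl l)) (Sum.inl l) : ℤ) : ℝ)| = 1 := by
        refine Finset.prod_eq_one fun l _ => ?_
        rw [hl, if_pos (hall l)]
      have h5 : ∏ l : Fin m, |((Q (σ (Sum.inr l)) (Sum.inr l) : ℤ) : ℝ)| ≤
          ∏ l : Fin m, M (finSumFinEquiv (σ (Sum.inr l))) :=
        Finset.prod_le_prod (fun _ _ => abs_nonneg _) fun l _ => hr _ l
      have h6 : (∏ i, M i) = (∏ k, M (g k)) * ∏ l : Fin m, M (finSumFinEquiv (σ (Sum.inr l))) := by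
        have h7 : (∏ i, M i) = ∏ s : Fin m ⊕ Fin m, M ((σ.trans finSumFinEquiv) s) :=
          (Equiv.prod_comp (σ.trans finSumFinEquiv) M).symm
        rw [h7, Fintype.prod_sum_type]
        congr 1
        refine Finset.prod_congr rfl fun l _ => ?_
        rw [← hall l]
        rfl
      have h9 : (∏ i, M i) / ∏ k, M (g k) = ∏ l : Fin m, M (finSumFinEquiv (σ (Sum.inr l))) := by
        rw [h6, mul_div_cancel_left₀]
        exact (Finset.prod_pos fun k _ => hM (g k)).ne'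
      rw [h9, h4, one_mul]
      exact h5
    · rw [not_forall] at hall
      obtain ⟨l, hl'⟩ := hall
      have h4 : ∏ l : Fin m, |((Q (σ (Sum.inl l)) (Sum.inl l) : ℤ) : ℝ)| = 0 := by
        refine Finset.prod_eq_zero (Finset.mem_univ l) ?_
        rw [hl, if_neg hl']
      rw [h4, zero_mul]
      exact hpos.le
  rw [Matrix.det_apply, Int.cast_sum]
  refine (Finset.abs_sum_le_sum_abs _ _).trans ?_
  refine (Finset.sum_le_sum fun σ _ => hterm σ).trans ?_
  rw [Finset.sum_const, Finset.card_univ, Fintype.card_perm, Fintype.card_sum, Fintype.card_fin,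
    nsmul_eq_mul]
  unfold J1
  rw [mul_div_assoc]

theorem R1w {m : ℕ} (A B : Matrix (Fin m) (Fin (m + m)) ℤ) (Y : Matrix (Fin (m + m)) (Fin m) ℤ)
    (M : Fin (m + m) → ℝ) (hM : ∀ i, 0 < M i) (hY : ∀ i j, |(Y i j : ℝ)| ≤ M i) (hA : A * Y = 0)
    (hB : (B * Y).det ≠ 0) (f : Fin m → Fin (m + m)) :
    |(mi A f : ℝ)| ≤
      ((Finset.univ.gcd fun g : Fin m → Fin (m + m) => (mi A g).natAbs : ℕ) : ℝ) * J1 M f := by
  have key : (mi A f).natAbs ≤ (Finset.univ.gcd fun g : Fin m → Fin (m + m) => (mi A g).natAbs) *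
      (((Matrix.fromCols (Fa_E f) Y).submatrix finSumFinEquiv id).det).natAbs := by
    set Δ : ℤ := ((Matrix.fromRows A B).submatrix id finSumFinEquiv).det
    let D : (Fin m → Fin (m + m)) → ℤ := fun g =>
      ((Matrix.fromCols (Fa_E g) Y).submatrix finSumFinEquiv id).det
    have hstar : ∀ g : Fin m → Fin (m + m),
        (mi A g).natAbs * (B * Y).det.natAbs = Δ.natAbs * (D g).natAbs := by
      intro g
      rw [← Int.natAbs_mul, ← Int.natAbs_mul]
      exact congrArg Int.natAbs (Fa_det A B Y hA g)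
    have hρ : 0 < (B * Y).det.natAbs := Int.natAbs_pos.2 hB
    set G : ℕ := Finset.univ.gcd fun g : Fin m → Fin (m + m) => (mi A g).natAbs with hG
    have hdvd : G ∣ (mi A f).natAbs := Finset.gcd_dvd (Finset.mem_univ f)
    rcases Nat.eq_zero_or_pos G with h0 | h0
    · rw [h0] at hdvd
      rw [Nat.eq_zero_of_zero_dvd hdvd]
      exact Nat.zero_le _
    · have h1 : G * (B * Y).det.natAbs = Δ.natAbs * Finset.univ.gcd fun g : Fin m → Fin (m + m) => (D g).natAbs := by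
        have h2 := Finset.gcd_mul_right (s := (Finset.univ : Finset (Fin m → Fin (m + m))))
          (f := fun g => (mi A g).natAbs) (a := (B * Y).det.natAbs)
        have h3 := Finset.gcd_mul_left (s := (Finset.univ : Finset (Fin m → Fin (m + m))))
          (f := fun g => (D g).natAbs) (a := Δ.natAbs)
        rw [normalize_eq] at h2 h3
        rw [← h3, ← h2]
        exact congrArg (Finset.gcd Finset.univ) (funext hstar)
      have h4 : 0 < Δ.natAbs * Finset.univ.gcd fun g : Fin m → Fin (m + m) => (D g).natAbs := by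
        rw [← h1]
        exact Nat.mul_pos h0 hρ
      have h5 : 0 < Finset.univ.gcd fun g : Fin m → Fin (m + m) => (D g).natAbs :=
        Nat.pos_of_mul_pos_left h4
      have h6 : Δ.natAbs ≤ G * (B * Y).det.natAbs := by
        rw [h1]
        exact Nat.le_mul_of_pos_right _ h5
      have h7 : (mi A f).natAbs * (B * Y).det.natAbs ≤ G * (D f).natAbs * (B * Y).det.natAbs := by
        rw [hstar f]
        calc Δ.natAbs * (D f).natAbs ≤ G * (B * Y).det.natAbs * (D f).natAbs := Nat.mul_le_mul_right _ h6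
          _ = G * (D f).natAbs * (B * Y).det.natAbs := by ring
      exact Nat.le_of_mul_le_mul_right h7 hρ
  have hb := Fa_bound Y M hM hY f
  have h1 : |(mi A f : ℝ)| = (((mi A f).natAbs : ℕ) : ℝ) := by
    rw [Nat.cast_natAbs, Int.cast_abs]
  have h2 : |((((Matrix.fromCols (Fa_E f) Y).submatrix finSumFinEquiv id).det : ℤ) : ℝ)| =
      (((((Matrix.fromCols (Fa_E f) Y).submatrix finSumFinEquiv id).det).natAbs : ℕ) : ℝ) := by
    rw [Nat.cast_natAbs, Int.cast_abs]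
  rw [h2] at hb
  rw [h1]
  have h3 : (((mi A f).natAbs : ℕ) : ℝ) ≤
      ((Finset.univ.gcd fun g : Fin m → Fin (m + m) => (mi A g).natAbs : ℕ) : ℝ) *
      (((((Matrix.fromCols (Fa_E f) Y).submatrix finSumFinEquiv id).det).natAbs : ℕ) : ℝ) := by
    exact_mod_cast key
  exact h3.trans (mul_le_mul_of_nonneg_left hb (Nat.cast_nonneg _))

private theorem Fa_expand {m d : ℕ} (M : Matrix (Fin m) (Fin d) ℤ[X]) (N : Matrix (Fin d) (Fin m) ℤ[X]) :
    (M * N).det = ∑ f : Fin m → Fin d, (∏ k, N (f k) k) * (M.submatrix id f).det := by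
  rw [← Matrix.det_transpose]
  have h : (M * N).transpose = fun k => ∑ j, N j k • (fun i => M i j) := by
    refine Matrix.ext fun k i => ?_
    rw [Matrix.transpose_apply, Matrix.mul_apply, Finset.sum_apply]
    exact Finset.sum_congr rfl fun j _ => by rw [Pi.smul_apply, smul_eq_mul, mul_comm]
  rw [h]
  change (Matrix.detRowAlternating (n := Fin m) (R := ℤ[X])).toMultilinearMap _ = _
  rw [MultilinearMap.map_sum]
  refine Finset.sum_congr rfl (fun f _ => ?_)
  rw [MultilinearMap.map_smul_univ, smul_eq_mul]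
  congr 1
  change Matrix.det (fun k i => M i (f k)) = _
  rw [← Matrix.det_transpose]
  rfl

theorem R2w {m : ℕ} (A0 A1 : Matrix (Fin m) (Fin (m + m)) ℤ) {M : Fin (m + m) → ℝ} {T : ℤ}
    (h : HypW A0 A1 M T) :
    ∃ (ρ : ℤ) (c : (Fin m → Fin (m + m)) → ℤ), ρ ≠ 0 ∧ (∀ f, |(c f : ℝ)| ≤ J2 M f) ∧
      ∑ f, C (c f) * mp A0 A1 f = C ρ * (X - C T) ^ m := by
  obtain ⟨Y, hY, hA, hB⟩ := h
  refine ⟨(A1 * Y).det, fun f => ∏ k, Y (f k) k, hB, fun f => ?_, ?_⟩
  · rw [Int.cast_prod, Finset.abs_prod]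
    exact Finset.prod_le_prod (fun k _ => abs_nonneg _) (fun k _ => hY (f k) k)
  · have h0 : A0 * Y = -(T • (A1 * Y)) := by
      have h1 : A0 * Y + T • (A1 * Y) = 0 := by
        rw [← hA, Matrix.add_mul, Matrix.smul_mul]
      exact eq_neg_of_add_eq_zero_left h1
    have h2 : ((X : ℤ[X]) • A1.map C + A0.map C) * Y.map C = (X - C T) • (A1 * Y).map C := by
      rw [Matrix.add_mul, Matrix.smul_mul, ← Matrix.map_mul, ← Matrix.map_mul, h0]
      refine Matrix.ext fun i j => ?_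
      simp only [Matrix.add_apply, Matrix.smul_apply, Matrix.map_apply, Matrix.neg_apply, smul_eq_mul, map_neg,
        map_mul]
      ring
    have h3 : (((X : ℤ[X]) • A1.map C + A0.map C) * Y.map C).det = C (A1 * Y).det * (X - C T) ^ m := by
      rw [h2, Matrix.det_smul, Fintype.card_fin, mul_comm]
      congr 1
      exact (RingHom.map_det (C : ℤ →+* ℤ[X]) (A1 * Y)).symm
    rw [← h3, Fa_expand]
    refine Finset.sum_congr rfl (fun f _ => ?_)
    rw [map_prod]
    rfl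

theorem RdtW {m : ℕ} (A0 A1 : Matrix (Fin m) (Fin (m + m)) ℤ) {M : Fin (m + m) → ℝ}
    (hM : ∀ i, 0 < M i) {G : Finset ℤ} (hG : G.Nonempty) (h : ∀ T ∈ G, HypW A0 A1 M T) :
    ∃ (γ : ℕ) (P' : (Fin m → Fin (m + m)) → ℤ[X]), 1 ≤ γ ∧
      (∀ f, mp A0 A1 f = C (γ : ℤ) * P' f) ∧ RdatW m P' G (J1 M) (J2 M) := by
  classical
  have hne : ∃ f, mp A0 A1 f ≠ 0 := by
    obtain ⟨T, hT⟩ := hG
    obtain ⟨ρ, c, hρ, _, hs⟩ := R2w A0 A1 (h T hT)
    by_contra hcon
    push Not at hcon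
    have h0 : C ρ * (X - C T) ^ m = 0 := by
      rw [← hs]
      exact Finset.sum_eq_zero fun f _ => by rw [hcon f, mul_zero]
    rcases mul_eq_zero.1 h0 with h1 | h1
    · exact hρ (Polynomial.C_eq_zero.1 h1)
    · exact pow_ne_zero m (Polynomial.X_sub_C_ne_zero T) h1
  obtain ⟨γ, P', hγ, hP', hprim⟩ := Rc (mp A0 A1) hne
  have hγ0 : (γ : ℤ) ≠ 0 := by exact_mod_cast (by omega : γ ≠ 0)
  have hγr : (0 : ℝ) < (γ : ℝ) := by exact_mod_cast hγ
  refine ⟨γ, P', hγ, hP', ⟨fun f => ?_, hprim, fun T hT f => ?_, fun T hT => ?_⟩⟩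
  · have h1 := natDegree_mp A0 A1 f
    rwa [hP' f, Polynomial.natDegree_C_mul hγ0] at h1
  · obtain ⟨Y, hY, hA, hB⟩ := h T hT
    have h1 := R1w (A0 + T • A1) A1 Y M hM hY hA hB f
    have h2 : ∀ f, mi (A0 + T • A1) f = (γ : ℤ) * (P' f).eval T := fun f => by
      rw [← eval_mp, hP' f, Polynomial.eval_mul, Polynomial.eval_C]
    have h3 : (Finset.univ.gcd fun g : Fin m → Fin (m + m) => (mi (A0 + T • A1) g).natAbs) = γ * hh P' T := by
      simp only [h2, Int.natAbs_mul, Int.natAbs_natCast]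
      rw [Finset.gcd_mul_left, normalize_eq]
      rfl
    rw [h3, h2 f] at h1
    have h4 : (γ : ℝ) * |(((P' f).eval T : ℤ) : ℝ)| ≤ (γ : ℝ) * (hh P' T * J1 M f) := by
      have h5 : |(((γ : ℤ) * (P' f).eval T : ℤ) : ℝ)| = (γ : ℝ) * |(((P' f).eval T : ℤ) : ℝ)| := by
        rw [Int.cast_mul, abs_mul, Int.cast_natCast, abs_of_pos hγr]
      rw [← h5]
      refine h1.trans (le_of_eq ?_)
      push_cast
      ring
    exact le_of_mul_le_mul_left h4 hγr
  · obtain ⟨ρ, c, hρ, hc, hs⟩ := R2w A0 A1 (h T hT)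
    have h1 : C (γ : ℤ) * ∑ f, C (c f) * P' f = C ρ * (X - C T) ^ m := by
      rw [← hs, Finset.mul_sum]
      exact Finset.sum_congr rfl fun f _ => by rw [hP' f]; ring
    have h2 : ((X - C T : ℤ[X]) ^ m).coeff m = 1 := by
      have h3 := ((Polynomial.monic_X_sub_C T).pow m).coeff_natDegree
      rwa [Polynomial.natDegree_pow, Polynomial.natDegree_X_sub_C, mul_one] at h3
    have h4 : (γ : ℤ) * (∑ f, C (c f) * P' f).coeff m = ρ := by
      have h5 := congrArg (fun p : ℤ[X] => p.coeff m) h1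
      simp only [Polynomial.coeff_C_mul, h2, mul_one] at h5
      exact h5
    refine ⟨(∑ f, C (c f) * P' f).coeff m, c, fun h0 => hρ (by rw [← h4, h0, mul_zero]), hc, ?_⟩
    have h7 : C (γ : ℤ) * ∑ f, C (c f) * P' f =
        C (γ : ℤ) * (C ((∑ f, C (c f) * P' f).coeff m) * (X - C T) ^ m) := by
      rw [h1, ← mul_assoc, ← Polynomial.C_mul, h4]
    exact mul_left_cancel₀ (by rwa [Ne, Polynomial.C_eq_zero]) h7

end Pool.Agent.SD
end

section

/-!
# TASK SD Fb: a common multiple of the greatest common divisors, unequal sides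

The proof of `R3w` is that of `RL.R3` (file `RL/R3.lean`, copy it with its private lemmas): the only change is
`|ρ₀| ≤ |∑ f, c₀ f * (P f)(T)| ≤ ∑ f, J2 f * (h * J1 f) ≤ h * (card ι * J)` for `T ∈ G`, `T ≠ T₀`.
-/

set_option autoImplicit false

open Finset Polynomial

namespace Pool.Agent.SD

open RL

private theorem Fb_gcd (m : ℕ) (a b h r : ℤ) (hab : a ≠ b) (h1 : h ∣ r * a ^ m) (h2 : h ∣ r * b ^ m) :
    h ∣ r * (a - b) ^ m := by
  have hg : 0 < Int.gcd a b := by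
    rw [Int.gcd_pos_iff]
    by_contra hc
    push Not at hc
    exact hab (hc.1.trans hc.2.symm)
  obtain ⟨a', b', hc, ha, hb⟩ := Int.exists_gcd_one hg
  have hcop : IsCoprime a' b' := Int.isCoprime_iff_gcd_eq_one.2 hc
  obtain ⟨u, v, huv⟩ := hcop.pow (m := m) (n := m)
  have h3 : u * a ^ m + v * b ^ m = (Int.gcd a b : ℤ) ^ m := by
    have e1 : a ^ m = a' ^ m * (Int.gcd a b : ℤ) ^ m := by
      rw [← mul_pow, ← ha]
    have e2 : b ^ m = b' ^ m * (Int.gcd a b : ℤ) ^ m := by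
      rw [← mul_pow, ← hb]
    rw [e1, e2]
    calc u * (a' ^ m * (Int.gcd a b : ℤ) ^ m) + v * (b' ^ m * (Int.gcd a b : ℤ) ^ m)
        = (u * a' ^ m + v * b' ^ m) * (Int.gcd a b : ℤ) ^ m := by ring
      _ = (Int.gcd a b : ℤ) ^ m := by rw [huv, one_mul]
  have h4 : h ∣ r * (Int.gcd a b : ℤ) ^ m := by
    rw [← h3]
    have : r * (u * a ^ m + v * b ^ m) = u * (r * a ^ m) + v * (r * b ^ m) := by ring
    rw [this]
    exact dvd_add (Dvd.dvd.mul_left h1 u) (Dvd.dvd.mul_left h2 v)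
  refine h4.trans (mul_dvd_mul_left r (pow_dvd_pow_of_dvd ?_ m))
  exact dvd_sub (Int.gcd_dvd_left a b) (Int.gcd_dvd_right a b)

private theorem Fb_eval {ι : Type*} [Fintype ι] {m : ℕ} {P : ι → ℤ[X]} {T₀ ρ : ℤ} {c : ι → ℤ}
    (h : ∑ f, C (c f) * P f = C ρ * (X - C T₀) ^ m) (T : ℤ) :
    ∑ f, c f * (P f).eval T = ρ * (T - T₀) ^ m := by
  have h1 := congrArg (Polynomial.eval T) h
  simpa [Polynomial.eval_finsetSum] using h1

private theorem Fb_dvd {ι : Type*} [Fintype ι] {m : ℕ} {P : ι → ℤ[X]} {T₀ ρ : ℤ} {c : ι → ℤ}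
    (h : ∑ f, C (c f) * P f = C ρ * (X - C T₀) ^ m) (T : ℤ) :
    (hh P T : ℤ) ∣ ρ * (T - T₀) ^ m := by
  rw [← Fb_eval h T]
  refine Finset.dvd_sum fun f _ => Dvd.dvd.mul_left ?_ _
  have h1 : hh P T ∣ ((P f).eval T).natAbs := Finset.gcd_dvd (Finset.mem_univ f)
  exact Int.natCast_dvd.2 h1

private theorem Fb_le {ι : Type*} [Fintype ι] {m : ℕ} {P : ι → ℤ[X]} {G : Finset ℤ} {J1 J2 : ι → ℝ} {J : ℝ}
    (D : RdatW m P G J1 J2) (hJ : ∀ f, J1 f * J2 f ≤ J) {T₀ ρ : ℤ} {c : ι → ℤ} (hρ : ρ ≠ 0)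
    (hc : ∀ f, |(c f : ℝ)| ≤ J2 f)
    (h : ∑ f, C (c f) * P f = C ρ * (X - C T₀) ^ m) {T : ℤ} (hT : T ∈ G) (hne : T ≠ T₀) :
    |(ρ : ℝ)| ≤ hh P T * (Fintype.card ι * J) := by
  have h1 : (1 : ℝ) ≤ |((T - T₀ : ℤ) : ℝ)| := by
    have : (1 : ℤ) ≤ |T - T₀| := Int.one_le_abs (sub_ne_zero.2 hne)
    exact_mod_cast this
  have h2 : |(ρ : ℝ)| ≤ |((ρ * (T - T₀) ^ m : ℤ) : ℝ)| := by
    rw [Int.cast_mul, Int.cast_pow, abs_mul, abs_pow]
    exact le_mul_of_one_le_right (abs_nonneg _) (one_le_pow₀ h1)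
  refine h2.trans ?_
  rw [← Fb_eval h T]
  push_cast
  refine (Finset.abs_sum_le_sum_abs _ _).trans ?_
  have h3 : ∀ f ∈ (Finset.univ : Finset ι), |(c f : ℝ) * (((P f).eval T : ℤ) : ℝ)| ≤
      hh P T * J := by
    intro f _
    rw [abs_mul]
    refine (mul_le_mul (hc f) (D.val T hT f) (abs_nonneg _) ((abs_nonneg _).trans (hc f))).trans ?_
    have h4 : J2 f * ((hh P T : ℝ) * J1 f) = (hh P T : ℝ) * (J1 f * J2 f) := by ring
    rw [h4]
    exact mul_le_mul_of_nonneg_left (hJ f) (Nat.cast_nonneg _)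
  refine (Finset.sum_le_card_nsmul _ _ _ h3).trans (le_of_eq ?_)
  rw [Finset.card_univ, nsmul_eq_mul]
  ring

theorem R3w {ι : Type*} [Fintype ι] {m : ℕ} {P : ι → ℤ[X]} {G : Finset ℤ} {J1 J2 : ι → ℝ} {J : ℝ}
    (D : RdatW m P G J1 J2) (hJ : ∀ f, J1 f * J2 f ≤ J) {T₀ T₁ : ℤ} (h0 : T₀ ∈ G) (h1 : T₁ ∈ G)
    (h01 : T₀ ≠ T₁) :
    ∃ R : ℕ, R ≠ 0 ∧ (∀ T, hh P T ∣ R) ∧ ∀ T ∈ G, T ≠ T₀ → T ≠ T₁ →
      (R : ℝ) ≤ |((T₀ - T₁ : ℤ) : ℝ)| ^ m * (hh P T * (Fintype.card ι * J)) ^ 2 := by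
  obtain ⟨ρ₀, c₀, hρ₀, hc₀, e₀⟩ := D.comb T₀ h0
  obtain ⟨ρ₁, c₁, hρ₁, hc₁, e₁⟩ := D.comb T₁ h1
  refine ⟨(ρ₀ * ρ₁ * (T₀ - T₁) ^ m).natAbs, ?_, ?_, ?_⟩
  · rw [Int.natAbs_ne_zero]
    exact mul_ne_zero (mul_ne_zero hρ₀ hρ₁) (pow_ne_zero _ (sub_ne_zero.2 h01))
  · intro T
    rw [← Int.natCast_dvd]
    have d0 : (hh P T : ℤ) ∣ ρ₀ * ρ₁ * (T - T₀) ^ m := by
      have := Dvd.dvd.mul_left (Fb_dvd e₀ T) ρ₁
      rwa [show ρ₁ * (ρ₀ * (T - T₀) ^ m) = ρ₀ * ρ₁ * (T - T₀) ^ m by ring] at this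
    have d1 : (hh P T : ℤ) ∣ ρ₀ * ρ₁ * (T - T₁) ^ m := by
      have := Dvd.dvd.mul_left (Fb_dvd e₁ T) ρ₀
      rwa [← mul_assoc] at this
    have h2 : (T - T₁) - (T - T₀) = T₀ - T₁ := by ring
    rw [← h2]
    refine Fb_gcd m _ _ _ _ ?_ d1 d0
    intro h3
    exact h01 (by linarith)
  · intro T hT hT0 hT1
    have l0 := Fb_le D hJ hρ₀ hc₀ e₀ hT hT0
    have l1 := Fb_le D hJ hρ₁ hc₁ e₁ hT hT1
    rw [Nat.cast_natAbs, Int.cast_abs, Int.cast_mul, Int.cast_mul, abs_mul, abs_mul, Int.cast_pow,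
      abs_pow, mul_comm (|(ρ₀ : ℝ)| * |(ρ₁ : ℝ)|), sq]
    exact mul_le_mul_of_nonneg_left
      (mul_le_mul l0 l1 (abs_nonneg _) ((abs_nonneg _).trans l0)) (pow_nonneg (abs_nonneg _) m)

end Pool.Agent.SD
end

section

/-!
# TASK SD Fc: residue classes

PROOF of `fewCl_hh`.  By `Prim` some coefficient of some `P f` is not divisible by `p`.  `p ^ a ∣ hh P T` implies `p ^ a ∣ (P f)(T)` (`Finset.gcd_dvd`, `Int.natCast_dvd`).  The set `K` of all classes
modulo `p ^ b` of the integers `T` with `p ^ a ∣ hh P T` (`ZMod (p ^ b)` is finite: `NeZero (p ^ b)`) has at most `m` elements: otherwise there are `m + 1` integers `T i` with pairwise different classes (`p ^ b ∤ T i - T j`,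
`ZMod.intCast_zmod_eq_zero_iff_dvd`/`ZMod.intCast_eq_intCast_iff_dvd_sub`), and `RL.R6a` says that `p` divides all coefficients of `P f`.

PROOF of `count_div`.  Let `q ≥ 1`, `b p = (q.factorization p + m - 1) / m = ⌈v_p(q)/m⌉` for `p ∈ q.primeFactors`: `1 ≤ b p`, `(b p - 1) m < v_p(q)`.  If `q ∣ h T` then `p ^ v_p(q) ∣ h T`, so the class of `T` modulo
`p ^ b p` lies in `K p`, `|K p| ≤ m`.  So the vector of the classes of `T` modulo `p ^ b p` (`p ∈ q.primeFactors`) takes at most `m ^ (number of prime factors)` values.  If `T`, `T'` have the same vector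
then `p ^ b p ∣ T - T'` for all `p`, so `star m q ∣ T - T'` (pairwise coprime factors: `Finset.prod_dvd_of_coprime` over `ℤ`, or `Nat` with `natAbs`).  The integers `T ∈ Icc (-M) M` in one class modulo `s = star m q ≥ 1` are at most
`(2M+1)/s + 1` many (the map `T ↦ (T + M) / s` is injective on a class and has values in `[0, 2M/s]`).  `Finset.card_le_mul_card_image`.
-/

set_option autoImplicit false

open Finset Polynomial

namespace Pool.Agent.SD

open RL

theorem fewCl_hh {ι : Type*} [Fintype ι] {m : ℕ} {P : ι → ℤ[X]} (hP : Prim P)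
    (hd : ∀ f, (P f).natDegree ≤ m) : FewCl m (hh P) := by
  intro p a b hp hb hab
  obtain ⟨f₀, i₀, hf₀⟩ := hP p hp
  have hne : NeZero (p ^ b) := ⟨(pow_pos hp.pos b).ne'⟩
  have hfin : {c : ZMod (p ^ b) | ∃ T : ℤ, p ^ a ∣ hh P T ∧ (T : ZMod (p ^ b)) = c}.Finite :=
    Set.toFinite _
  refine ⟨hfin.toFinset, ?_, fun T hT => ?_⟩
  swap
  · rw [Set.Finite.mem_toFinset]
    exact ⟨T, hT, rfl⟩
  by_contra hcon
  obtain ⟨I', hI', hcard⟩ := Finset.exists_subset_card_eq
    (show m + 1 ≤ hfin.toFinset.card by omega)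
  let e := (I'.equivFinOfCardEq hcard).symm
  have hch : ∀ i : Fin (m + 1), ∃ T : ℤ, p ^ a ∣ hh P T ∧ (T : ZMod (p ^ b)) = (e i : ZMod (p ^ b)) := by
    intro i
    have h1 := hI' (e i).2
    rw [Set.Finite.mem_toFinset] at h1
    exact h1
  choose T hTS hTe using hch
  have hev : ∀ i, (p : ℤ) ^ a ∣ (P f₀).eval (T i) := by
    intro i
    have h1 : p ^ a ∣ hh P (T i) := hTS i
    have h2 : hh P (T i) ∣ ((P f₀).eval (T i)).natAbs := Finset.gcd_dvd (mem_univ f₀)
    have h3 := Int.natCast_dvd.2 (h1.trans h2)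
    push_cast at h3
    exact h3
  refine hf₀ (R6a hp hb m (P f₀) (hd f₀) hab T hev ?_ i₀)
  intro i j hij hdvd
  apply hij
  have h1 : (T i : ZMod (p ^ b)) = (T j : ZMod (p ^ b)) := by
    rw [ZMod.intCast_eq_intCast_iff_dvd_sub]
    have h2 : (((p ^ b : ℕ)) : ℤ) ∣ T i - T j := by
      push_cast
      exact hdvd
    rw [← dvd_neg]
    have h3 : -(T j - T i) = T i - T j := by ring
    rw [h3]
    exact h2
  rw [hTe, hTe] at h1
  exact e.injective (Subtype.ext h1)

private theorem Fc_class {q : ℕ} (hq : 0 < q) (M : ℕ) (c : ℤ) :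
    ((Finset.Icc (-(M : ℤ)) M).filter fun T => T % (q : ℤ) = c).card ≤ (2 * M + 1) / q + 1 := by
  have h0 : ((Finset.Icc (-(M : ℤ)) M).filter fun T => T % (q : ℤ) = c).card ≤
      (Finset.range ((2 * M + 1) / q + 1)).card := by
    refine Finset.card_le_card_of_injOn (fun T => ((T + M) / (q : ℤ)).toNat) ?_ ?_
    · intro T hT
      have hT' := (mem_filter.1 (mem_coe.1 hT)).1
      rw [Finset.mem_Icc] at hT'
      have hqz : (0:ℤ) < q := by exact_mod_cast hq
      have h1 : 0 ≤ (T + M) / (q : ℤ) := Int.ediv_nonneg (by linarith) hqz.le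
      have h2 : (T + M) / (q : ℤ) ≤ ((2 * M + 1 : ℕ) : ℤ) / (q : ℤ) :=
        Int.ediv_le_ediv hqz (by push_cast; linarith)
      rw [mem_coe, Finset.mem_range, Nat.lt_succ_iff]
      have h3 : (((2 * M + 1) / q : ℕ) : ℤ) = ((2 * M + 1 : ℕ) : ℤ) / (q : ℤ) := by push_cast; rfl
      show ((T + M) / (q : ℤ)).toNat ≤ (2 * M + 1) / q
      omega
    · intro T hT T' hT' h
      have hT1 := mem_filter.1 (mem_coe.1 hT)
      have hT2 := mem_filter.1 (mem_coe.1 hT')
      rw [Finset.mem_Icc] at hT1 hT2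
      have hqz : (0:ℤ) < q := by exact_mod_cast hq
      have h1 : 0 ≤ (T + M) / (q : ℤ) := Int.ediv_nonneg (by linarith [hT1.1.1]) hqz.le
      have h2 : 0 ≤ (T' + M) / (q : ℤ) := Int.ediv_nonneg (by linarith [hT2.1.1]) hqz.le
      have h3 : (T + M) / (q : ℤ) = (T' + M) / (q : ℤ) := by
        have h4 : ((T + M) / (q : ℤ)).toNat = ((T' + M) / (q : ℤ)).toNat := h
        omega
      have h5 : (T + M) % (q : ℤ) = (T' + M) % (q : ℤ) := by
        rw [Int.add_emod, hT1.2, Int.add_emod T' M, hT2.2]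
      have h6 := Int.emod_add_mul_ediv (T + M) (q : ℤ)
      have h7 := Int.emod_add_mul_ediv (T' + M) (q : ℤ)
      rw [h3, h5] at h6
      linarith
  rwa [Finset.card_range] at h0

theorem count_div {m : ℕ} (hm : 1 ≤ m) {h : ℤ → ℕ} (hc : FewCl m h) {q : ℕ} (hq : 1 ≤ q) (M : ℕ) :
    (((Finset.Icc (-(M : ℤ)) M).filter fun T => q ∣ h T).card : ℝ) ≤
      (m : ℝ) ^ q.primeFactors.card * ((2 * M + 1) / star m q + 1) := by
  classical
  set b : ℕ → ℕ := fun p => (q.factorization p + m - 1) / m with hb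
  have hs : 0 < star m q := by
    unfold star
    exact Finset.prod_pos fun p hp => pow_pos (Nat.prime_of_mem_primeFactors hp).pos _
  have hex : ∀ p : q.primeFactors, ∃ K : Finset (ZMod ((p : ℕ) ^ b p)), K.card ≤ m ∧
      ∀ T : ℤ, (p : ℕ) ^ (q.factorization p) ∣ h T → (T : ZMod ((p : ℕ) ^ b p)) ∈ K := by
    intro p
    have hpp : (p : ℕ).Prime := Nat.prime_of_mem_primeFactors p.2
    have h1 : 1 ≤ q.factorization p := hpp.factorization_pos_of_dvd (by omega) (Nat.dvd_of_mem_primeFactors p.2)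
    refine hc p _ (b p) hpp ?_ ?_
    · show 1 ≤ (q.factorization p + m - 1) / m
      rw [Nat.le_div_iff_mul_le (by omega)]
      omega
    · have h2 : b p * m ≤ q.factorization p + m - 1 := Nat.div_mul_le_self _ _
      have h3 : (b p - 1) * m = b p * m - m := by rw [Nat.sub_mul, one_mul]
      omega
  choose K hK hKm using hex
  set S := (Finset.Icc (-(M : ℤ)) M).filter fun T => q ∣ h T with hS
  let Φ : ℤ → (∀ p : q.primeFactors, ZMod ((p : ℕ) ^ b p)) := fun T p => (T : ZMod ((p : ℕ) ^ b p))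
  have himg : (S.image Φ).card ≤ m ^ q.primeFactors.card := by
    have h1 : S.image Φ ⊆ Fintype.piFinset K := by
      intro v hv
      obtain ⟨T, hT, rfl⟩ := mem_image.1 hv
      rw [Fintype.mem_piFinset]
      intro p
      exact hKm p T ((Nat.ordProj_dvd q p).trans (mem_filter.1 hT).2)
    refine (Finset.card_le_card h1).trans ?_
    rw [Fintype.card_piFinset]
    refine (Finset.prod_le_prod' fun p _ => hK p).trans ?_
    rw [Finset.prod_const, Finset.card_univ, Fintype.card_coe]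
  have hfib : ∀ v ∈ S.image Φ, (S.filter fun T => Φ T = v).card ≤ (2 * M + 1) / star m q + 1 := by
    intro v hv
    obtain ⟨T₀, _, rfl⟩ := mem_image.1 hv
    refine le_trans (Finset.card_le_card ?_) (Fc_class hs M (T₀ % (star m q : ℤ)))
    intro T hT
    rw [mem_filter] at hT ⊢
    refine ⟨(mem_filter.1 hT.1).1, ?_⟩
    have h1 : (star m q : ℤ) ∣ T₀ - T := by
      unfold star
      rw [Nat.cast_prod]
      refine Finset.prod_dvd_of_coprime ?_ ?_
      · intro p hp p' hp' hne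
        have h2 : Nat.Coprime (p ^ b p) (p' ^ b p') :=
          Nat.Coprime.pow _ _ ((Nat.coprime_primes (Nat.prime_of_mem_primeFactors hp)
            (Nat.prime_of_mem_primeFactors hp')).2 hne)
        exact Nat.isCoprime_iff_coprime.2 h2
      · intro p hp
        have h2 : (T : ZMod (p ^ b p)) = (T₀ : ZMod (p ^ b p)) := congrFun hT.2 ⟨p, hp⟩
        exact (ZMod.intCast_eq_intCast_iff_dvd_sub _ _ _).1 h2
    have h3 : T ≡ T₀ [ZMOD (star m q : ℤ)] := Int.modEq_iff_dvd.2 h1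
    exact h3
  have hcard := Finset.card_le_mul_card_image (f := Φ) S ((2 * M + 1) / star m q + 1) hfib
  have h1 : (S.card : ℝ) ≤ ((((2 * M + 1) / star m q + 1) * (S.image Φ).card : ℕ) : ℝ) := by
    exact_mod_cast hcard
  refine h1.trans ?_
  rw [Nat.cast_mul, mul_comm]
  have h2 : (((2 * M + 1) / star m q : ℕ) : ℝ) ≤ (2 * M + 1) / star m q := by
    refine Nat.cast_div_le.trans ?_
    push_cast
    exact le_refl _
  refine mul_le_mul (by exact_mod_cast himg) ?_ (Nat.cast_nonneg _) (by positivity)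
  push_cast at h2 ⊢
  linarith

end Pool.Agent.SD
end

section

/-!
# TASK SD Fd: Rankin's trick, smooth divisors

PROOF of `smooth_divisor`.  Let `q` be the smallest divisor of `n` with `Y ≤ q` (`n` itself is one).  `q > 1` (`Y > 1`), let `p` be a prime factor of `q`: `q / p` is a divisor of `n` smaller than `q`, so `q/p < Y` and `q < Y p ≤ Y z`.

PROOF of `rankin`.  With `s = 1/(4 m log z)` the weight `m^ω(q) q^s / star m q` is the product of the
local weights `m p^(a s) / p^⌈a/m⌉`; each local sum is at most `1 + 4 m ^ 2 / p`, and the product over the primes up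
to `z` is at most `exp (4 m ^ 2 (1 + log z))`.
-/

set_option autoImplicit false

open Finset

namespace Pool.Agent.SD

theorem smooth_divisor {n z : ℕ} {Y : ℝ} (hn : n ≠ 0) (hY : 1 < Y) (h : Y ≤ n)
    (hs : ∀ p, p.Prime → p ∣ n → p ≤ z) : ∃ q, q ∣ n ∧ Y ≤ (q : ℝ) ∧ (q : ℝ) < Y * z := by
  classical
  have hex : ∃ q : ℕ, q ∣ n ∧ Y ≤ (q : ℝ) := ⟨n, dvd_rfl, h⟩
  obtain ⟨hq1, hq2⟩ := Nat.find_spec hex
  set q := Nat.find hex with hq
  have hmin : ∀ r : ℕ, r < q → ¬ (r ∣ n ∧ Y ≤ (r : ℝ)) := fun r hr => Nat.find_min hex hr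
  refine ⟨q, hq1, hq2, ?_⟩
  have hq0 : 0 < q := Nat.pos_of_dvd_of_pos hq1 (Nat.pos_of_ne_zero hn)
  have hqne : q ≠ 1 := by
    intro h1
    rw [h1] at hq2
    push_cast at hq2
    linarith
  obtain ⟨p, hp, hpq⟩ := Nat.exists_prime_and_dvd hqne
  obtain ⟨r, hr⟩ := hpq
  have hr0 : 0 < r := by
    rcases Nat.eq_zero_or_pos r with h0 | h0
    · rw [h0, mul_zero] at hr
      omega
    · exact h0
  have hrq : r < q := by
    have := hp.two_le
    nlinarith
  have hrn : r ∣ n := dvd_trans ⟨p, by rw [hr, mul_comm]⟩ hq1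
  have hrY : (r : ℝ) < Y := by
    by_contra hcon
    exact hmin r hrq ⟨hrn, not_lt.mp hcon⟩
  have hpz : p ≤ z := hs p hp (dvd_trans ⟨r, hr⟩ hq1)
  have hpz' : (p : ℝ) ≤ z := by exact_mod_cast hpz
  have hp0 : (0 : ℝ) < p := by exact_mod_cast hp.pos
  calc (q : ℝ) = p * r := by rw [hr]; push_cast; ring
    _ < p * Y := by
      exact mul_lt_mul_of_pos_left hrY hp0
    _ ≤ z * Y := by
      exact mul_le_mul_of_nonneg_right hpz' (by linarith)
    _ = Y * z := mul_comm _ _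

/-- The local weight. -/
private noncomputable def Fd_g (m : ℕ) (s : ℝ) (p a : ℕ) : ℝ :=
  if a = 0 then 1 else (m : ℝ) * ((p : ℝ) ^ a) ^ s / (p : ℝ) ^ ((a + m - 1) / m)

private theorem Fd_g_nonneg (m : ℕ) (s : ℝ) (p a : ℕ) : 0 ≤ Fd_g m s p a := by
  unfold Fd_g
  split_ifs
  · exact zero_le_one
  · positivity

private theorem Fd_g_le {m z p : ℕ} (hm : 1 ≤ m) (hz : 2 ≤ z) (hp : p.Prime) (hpz : p ≤ z) (b j : ℕ)
    (hj : j < m) :
    Fd_g m (1 / (4 * m * Real.log z)) p (b * m + 1 + j) ≤ m * (Real.exp (1 / 4) / p) ^ (b + 1) := by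
  have hlz : 0 < Real.log z := Real.log_pos (by exact_mod_cast (by omega : 1 < z))
  have hp0 : (0 : ℝ) < p := by exact_mod_cast hp.pos
  have hm0 : (0 : ℝ) < m := by exact_mod_cast hm
  have hlp : Real.log p ≤ Real.log z := Real.log_le_log hp0 (by exact_mod_cast hpz)
  have hdiv : (b * m + 1 + j + m - 1) / m = b + 1 := by
    have : b * m + 1 + j + m - 1 = j + m * (b + 1) := by
      have : m * (b + 1) = b * m + m := by ring
      omega
    rw [this, Nat.add_mul_div_left _ _ (by omega), Nat.div_eq_of_lt hj, zero_add]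
  unfold Fd_g
  rw [if_neg (by omega), hdiv, div_pow, mul_div_assoc]
  refine mul_le_mul_of_nonneg_left ?_ hm0.le
  refine div_le_div_of_nonneg_right ?_ (by positivity)
  rw [Real.rpow_def_of_pos (by positivity), ← Real.exp_nat_mul, Real.log_pow]
  refine Real.exp_le_exp.mpr ?_
  have h1 : ((b * m + 1 + j : ℕ) : ℝ) ≤ ((b + 1 : ℕ) : ℝ) * m := by
    have : b * m + 1 + j ≤ (b + 1) * m := by
      have : (b + 1) * m = b * m + m := by ring
      omega
    exact_mod_cast this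
  have h2 : ((b * m + 1 + j : ℕ) : ℝ) * Real.log p ≤ ((b + 1 : ℕ) : ℝ) * m * Real.log z :=
    mul_le_mul h1 hlp (Real.log_nonneg (by exact_mod_cast hp.one_lt.le)) (by positivity)
  calc ((b * m + 1 + j : ℕ) : ℝ) * Real.log p * (1 / (4 * m * Real.log z))
      ≤ ((b + 1 : ℕ) : ℝ) * m * Real.log z * (1 / (4 * m * Real.log z)) :=
        mul_le_mul_of_nonneg_right h2 (by positivity)
    _ = ((b + 1 : ℕ) : ℝ) * (1 / 4) := by
        field_simp

private theorem Fd_exp_quarter : Real.exp (1 / 4) ≤ 1.3 := by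
  have h1 : Real.exp (1 / 4) ^ 4 = Real.exp 1 := by
    rw [← Real.exp_nat_mul]
    norm_num
  have h2 := Real.exp_one_lt_d9
  by_contra hcon
  push Not at hcon
  have h3 : (1.3 : ℝ) ^ 4 < Real.exp (1 / 4) ^ 4 := pow_lt_pow_left₀ hcon (by norm_num) (by norm_num)
  rw [h1] at h3
  norm_num at h3 h2
  linarith

private theorem Fd_sum_range {m z p : ℕ} (hm : 1 ≤ m) (hz : 2 ≤ z) (hp : p.Prime) (hpz : p ≤ z) (B : ℕ) :
    ∑ a ∈ range (B * m + 1), Fd_g m (1 / (4 * m * Real.log z)) p a ≤ 1 + 4 * m ^ 2 / p := by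
  set x : ℝ := Real.exp (1 / 4) / p with hx
  have hp0 : (0 : ℝ) < p := by exact_mod_cast hp.pos
  have hp2 : (2 : ℝ) ≤ p := by exact_mod_cast hp.two_le
  have hm0 : (0 : ℝ) < m := by exact_mod_cast hm
  have hq := Fd_exp_quarter
  have hx0 : 0 < x := by positivity
  have hx1 : x ≤ 0.65 := by
    rw [hx, div_le_iff₀ hp0]
    nlinarith
  have key : ∑ a ∈ range (B * m + 1), Fd_g m (1 / (4 * m * Real.log z)) p a ≤
      1 + m ^ 2 * ∑ b ∈ range B, x ^ (b + 1) := by
    induction B with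
    | zero => simp [Fd_g]
    | succ B ih =>
      have e1 : (B + 1) * m + 1 = (B * m + 1) + m := by ring
      rw [e1, Finset.sum_range_add, Finset.sum_range_succ (fun b => x ^ (b + 1))]
      have h1 : ∑ j ∈ range m, Fd_g m (1 / (4 * m * Real.log z)) p (B * m + 1 + j) ≤
          ∑ j ∈ range m, (m : ℝ) * x ^ (B + 1) :=
        Finset.sum_le_sum fun j hj => Fd_g_le hm hz hp hpz B j (Finset.mem_range.mp hj)
      rw [Finset.sum_const, Finset.card_range, nsmul_eq_mul] at h1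
      have h2 : (m : ℝ) * (m * x ^ (B + 1)) = m ^ 2 * x ^ (B + 1) := by ring
      linarith
  have hgeo : ∑ b ∈ range B, x ^ (b + 1) ≤ x / (1 - x) := by
    have h1 : ∀ B : ℕ, ∑ b ∈ range B, x ^ (b + 1) = x * (1 - x ^ B) / (1 - x) := by
      intro B
      induction B with
      | zero => simp
      | succ B ih =>
        rw [Finset.sum_range_succ, ih]
        have : (1 - x) ≠ 0 := by linarith
        field_simp
        ring
    rw [h1]
    refine div_le_div_of_nonneg_right ?_ (by linarith)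
    have : 0 ≤ x ^ B := by positivity
    nlinarith
  have hfin : x / (1 - x) ≤ 4 / p := by
    rw [div_le_div_iff₀ (by linarith) hp0]
    have : x * p = Real.exp (1 / 4) := by
      rw [hx]; field_simp
    rw [this]
    nlinarith
  calc ∑ a ∈ range (B * m + 1), Fd_g m (1 / (4 * m * Real.log z)) p a
      ≤ 1 + m ^ 2 * ∑ b ∈ range B, x ^ (b + 1) := key
    _ ≤ 1 + m ^ 2 * (4 / p) := by
        have := mul_le_mul_of_nonneg_left (hgeo.trans hfin) (by positivity : (0 : ℝ) ≤ (m : ℝ) ^ 2)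
        linarith
    _ = 1 + 4 * m ^ 2 / p := by ring

/-- The weight of `q` is the product of the local weights. -/
private theorem Fd_weight {m q : ℕ} (hm : 1 ≤ m) (s : ℝ) (hq : q ≠ 0) (P : Finset ℕ) (hP : q.primeFactors ⊆ P) :
    (m : ℝ) ^ q.primeFactors.card * (q : ℝ) ^ s / star m q = ∏ p ∈ P, Fd_g m s p (q.factorization p) := by
  classical
  have h1 : ∏ p ∈ P, Fd_g m s p (q.factorization p) =
      ∏ p ∈ q.primeFactors, Fd_g m s p (q.factorization p) := by
    symm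
    refine Finset.prod_subset hP fun p _ hp => ?_
    have : q.factorization p = 0 := by
      rw [← Nat.support_factorization, Finsupp.mem_support_iff, not_not] at hp
      exact hp
    simp [Fd_g, this]
  rw [h1]
  have h2 : ∏ p ∈ q.primeFactors, Fd_g m s p (q.factorization p) =
      ∏ p ∈ q.primeFactors, ((m : ℝ) * ((p : ℝ) ^ (q.factorization p)) ^ s /
        (p : ℝ) ^ ((q.factorization p + m - 1) / m)) := by
    refine Finset.prod_congr rfl fun p hp => ?_
    have : q.factorization p ≠ 0 := by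
      rw [← Nat.support_factorization, Finsupp.mem_support_iff] at hp
      exact hp
    simp [Fd_g, this]
  rw [h2, Finset.prod_div_distrib, Finset.prod_mul_distrib, Finset.prod_const,
    Real.finset_prod_rpow _ _ (fun p _ => by positivity)]
  congr 1
  · congr 2
    conv_lhs => rw [← Nat.factorization_prod_pow_eq_self hq]
    unfold Finsupp.prod
    rw [Nat.support_factorization]
    push_cast
    rfl
  · unfold star
    push_cast
    rfl

private theorem Fd_sum {m z : ℕ} (hm : 1 ≤ m) (hz : 2 ≤ z) (F : Finset ℕ) (P : Finset ℕ)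
    (hP : ∀ p ∈ P, p.Prime ∧ p ≤ z) (hF : ∀ q ∈ F, q ≠ 0 ∧ q.primeFactors ⊆ P) :
    ∑ q ∈ F, ∏ p ∈ P, Fd_g m (1 / (4 * m * Real.log z)) p (q.factorization p) ≤
      ∏ p ∈ P, (1 + 4 * (m : ℝ) ^ 2 / p) := by
  classical
  set s : ℝ := 1 / (4 * m * Real.log z) with hs
  -- a common bound for the exponents
  set B : ℕ := ∑ q ∈ F, ∑ p ∈ P, q.factorization p with hB
  have hBle : ∀ q ∈ F, ∀ p ∈ P, q.factorization p < B * m + 1 := by
    intro q hq p hp
    have h1 : q.factorization p ≤ ∑ p ∈ P, q.factorization p :=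
      Finset.single_le_sum (f := fun p => q.factorization p) (fun _ _ => Nat.zero_le _) hp
    have h2 : ∑ p ∈ P, q.factorization p ≤ B :=
      Finset.single_le_sum (f := fun q => ∑ p ∈ P, q.factorization p) (fun _ _ => Nat.zero_le _) hq
    have h3 : B ≤ B * m := Nat.le_mul_of_pos_right _ (by omega)
    omega
  have step : ∑ q ∈ F, ∏ p ∈ P, Fd_g m s p (q.factorization p) ≤
      ∏ p ∈ P, ∑ a ∈ range (B * m + 1), Fd_g m s p a := by
    rw [Finset.prod_sum]
    set e : ℕ → (∀ a ∈ P, ℕ) := fun q => fun p _ => q.factorization p with he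
    have hinj : Set.InjOn e (F : Set ℕ) := by
      intro q hq q' hq' h
      refine Nat.eq_of_factorization_eq (hF q hq).1 (hF q' hq').1 fun p => ?_
      by_cases hp : p ∈ P
      · exact congrFun (congrFun h p) hp
      · have h1 : q.factorization p = 0 := by
          by_contra hcon
          exact hp ((hF q hq).2 (by
            rw [← Nat.support_factorization, Finsupp.mem_support_iff]; exact hcon))
        have h2 : q'.factorization p = 0 := by
          by_contra hcon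
          exact hp ((hF q' hq').2 (by
            rw [← Nat.support_factorization, Finsupp.mem_support_iff]; exact hcon))
        rw [h1, h2]
    have h1 : ∑ q ∈ F, ∏ p ∈ P, Fd_g m s p (q.factorization p) =
        ∑ φ ∈ F.image e, ∏ x ∈ P.attach, Fd_g m s x.1 (φ x.1 x.2) := by
      rw [Finset.sum_image hinj]
      refine Finset.sum_congr rfl fun q _ => ?_
      rw [← Finset.prod_attach]
    rw [h1]
    refine Finset.sum_le_sum_of_subset_of_nonneg ?_ ?_
    · intro φ hφ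
      obtain ⟨q, hq, rfl⟩ := Finset.mem_image.mp hφ
      rw [Finset.mem_pi]
      intro p hp
      exact Finset.mem_range.mpr (hBle q hq p hp)
    · intro φ _ _
      exact Finset.prod_nonneg fun x _ => Fd_g_nonneg _ _ _ _
  refine step.trans ?_
  refine Finset.prod_le_prod (fun p _ => Finset.sum_nonneg fun a _ => Fd_g_nonneg _ _ _ _) ?_
  intro p hp
  exact Fd_sum_range hm hz (hP p hp).1 (hP p hp).2 B

theorem rankin {m z : ℕ} (hm : 1 ≤ m) (hz : 2 ≤ z) {Y : ℝ} (hY : 1 ≤ Y) (F : Finset ℕ)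
    (hF : ∀ q ∈ F, Y ≤ (q : ℝ) ∧ ∀ p, p.Prime → p ∣ q → p ≤ z) :
    ∑ q ∈ F, (m : ℝ) ^ q.primeFactors.card / star m q ≤
      Y ^ (-(1 / (4 * m * Real.log z))) * Real.exp (4 * m ^ 2 * (1 + Real.log z)) := by
  classical
  have hlz : 0 < Real.log z := Real.log_pos (by exact_mod_cast (by omega : 1 < z))
  have hm0 : (0 : ℝ) < m := by exact_mod_cast hm
  set s : ℝ := 1 / (4 * m * Real.log z) with hs
  have hs0 : 0 < s := by positivity
  set P : Finset ℕ := (Finset.Icc 1 z).filter Nat.Prime with hPdef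
  have hP : ∀ p ∈ P, p.Prime ∧ p ≤ z := by
    intro p hp
    rw [hPdef, Finset.mem_filter, Finset.mem_Icc] at hp
    exact ⟨hp.2, hp.1.2⟩
  have hq0 : ∀ q ∈ F, q ≠ 0 := by
    intro q hq h0
    have := (hF q hq).1
    rw [h0] at this
    push_cast at this
    linarith
  have hFP : ∀ q ∈ F, q ≠ 0 ∧ q.primeFactors ⊆ P := by
    intro q hq
    refine ⟨hq0 q hq, fun p hp => ?_⟩
    have h1 := Nat.prime_of_mem_primeFactors hp
    have h2 := Nat.dvd_of_mem_primeFactors hp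
    rw [hPdef, Finset.mem_filter, Finset.mem_Icc]
    exact ⟨⟨h1.one_lt.le, (hF q hq).2 p h1 h2⟩, h1⟩
  have hsum := Fd_sum hm hz F P hP hFP
  -- termwise
  have hterm : ∀ q ∈ F, (m : ℝ) ^ q.primeFactors.card / star m q ≤
      Y ^ (-s) * ∏ p ∈ P, Fd_g m s p (q.factorization p) := by
    intro q hq
    rw [← Fd_weight hm s (hq0 q hq) P (hFP q hq).2]
    have hYq := (hF q hq).1
    have hY0 : 0 < Y := by linarith
    have hqpos : (0 : ℝ) < q := by linarith
    have h1 : Y ^ s ≤ (q : ℝ) ^ s := Real.rpow_le_rpow hY0.le hYq hs0.le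
    have h2 : 1 ≤ Y ^ (-s) * (q : ℝ) ^ s := by
      rw [Real.rpow_neg hY0.le, inv_mul_eq_div, le_div_iff₀ (Real.rpow_pos_of_pos hY0 _), one_mul]
      exact h1
    have h3 : (0 : ℝ) ≤ (m : ℝ) ^ q.primeFactors.card / star m q := by positivity
    calc (m : ℝ) ^ q.primeFactors.card / star m q
        = 1 * ((m : ℝ) ^ q.primeFactors.card / star m q) := (one_mul _).symm
      _ ≤ (Y ^ (-s) * (q : ℝ) ^ s) * ((m : ℝ) ^ q.primeFactors.card / star m q) :=
          mul_le_mul_of_nonneg_right h2 h3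
      _ = Y ^ (-s) * ((m : ℝ) ^ q.primeFactors.card * (q : ℝ) ^ s / star m q) := by ring
  have hY0 : 0 < Y := by linarith
  have hprod : ∏ p ∈ P, (1 + 4 * (m : ℝ) ^ 2 / p) ≤ Real.exp (4 * m ^ 2 * (1 + Real.log z)) := by
    have h1 : ∏ p ∈ P, (1 + 4 * (m : ℝ) ^ 2 / p) ≤ ∏ p ∈ P, Real.exp (4 * (m : ℝ) ^ 2 / p) := by
      refine Finset.prod_le_prod (fun p _ => by positivity) fun p _ => ?_
      have := Real.add_one_le_exp (4 * (m : ℝ) ^ 2 / p)
      linarith
    refine h1.trans ?_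
    rw [← Real.exp_sum]
    refine Real.exp_le_exp.mpr ?_
    have h2 : ∑ p ∈ P, 4 * (m : ℝ) ^ 2 / p ≤ ∑ p ∈ Finset.Icc 1 z, 4 * (m : ℝ) ^ 2 / p :=
      Finset.sum_le_sum_of_subset_of_nonneg (Finset.filter_subset _ _) fun p _ _ => by positivity
    refine h2.trans ?_
    have h3 : ∑ p ∈ Finset.Icc 1 z, 4 * (m : ℝ) ^ 2 / p = 4 * m ^ 2 * (harmonic z : ℝ) := by
      rw [harmonic_eq_sum_Icc]
      push_cast
      rw [Finset.mul_sum]
      refine Finset.sum_congr rfl fun p _ => ?_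
      rw [div_eq_mul_inv]
    rw [h3]
    exact mul_le_mul_of_nonneg_left (harmonic_le_one_add_log z) (by positivity)
  calc ∑ q ∈ F, (m : ℝ) ^ q.primeFactors.card / star m q
      ≤ ∑ q ∈ F, Y ^ (-s) * ∏ p ∈ P, Fd_g m s p (q.factorization p) := Finset.sum_le_sum hterm
    _ = Y ^ (-s) * ∑ q ∈ F, ∏ p ∈ P, Fd_g m s p (q.factorization p) := by rw [Finset.mul_sum]
    _ ≤ Y ^ (-s) * Real.exp (4 * m ^ 2 * (1 + Real.log z)) :=
        mul_le_mul_of_nonneg_left (hsum.trans hprod) (Real.rpow_nonneg hY0.le _)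

end Pool.Agent.SD
end

section

/-!
# TASK SD Fe: the values are rarely large

PROOF.  All `h T ≠ 0` (they divide `R ≠ 0`).  Let `I = Icc (-M) M`, `Y ≤ h T`, `T ∈ I`.
(a) If some prime `p > z` divides `h T`, then `p ∣ R`; for every such `p` by `count_div` with `q = p` (`star m p = p`, one prime factor) at most `m ((2M+1)/p + 1) ≤ m ((2M+1)/z + 1)` integers `T ∈ I` satisfy `p ∣ h T`.
`R` has at most `2 log R` prime factors (`2^ω(R) ≤ R`: `Nat.prod_primeFactors_dvd`, `Finset.pow_card_le_prod`-type; `log 2 ≥ 1/2`).  Together at most `2 m log R ((2M+1)/z + 1)`.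
(b) Otherwise all prime factors of `h T` are at most `z`, and by `smooth_divisor` some `q` in the set `F` of the numbers `1 ≤ q < Y z`, `Y ≤ q`, with all prime factors at most `z`, divides `h T`.  By `count_div` the number of these `T` is at most
`∑_{q ∈ F} m^ω(q) ((2M+1)/star m q + 1) = (2M+1) ∑_{q ∈ F} m^ω(q)/star m q + ∑_{q ∈ F} m^ω(q)`.  The first sum is bounded by `rankin`; `m^ω(q) ≤ (2^m)^ω(q) = (2^ω(q))^m ≤ q^m ≤ (Y z)^m` and `|F| ≤ Y z`, so the second sum is at most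
`(Y z)^(m+1)`.
-/

set_option autoImplicit false

open Finset

namespace Pool.Agent.SD

private theorem Fe_two_pow {n : ℕ} (hn : n ≠ 0) : 2 ^ n.primeFactors.card ≤ n := by
  have h1 : 2 ^ n.primeFactors.card ≤ ∏ p ∈ n.primeFactors, p :=
    Finset.pow_card_le_prod _ _ _ fun p hp => (Nat.prime_of_mem_primeFactors hp).two_le
  exact h1.trans (Nat.le_of_dvd (Nat.pos_of_ne_zero hn) (Nat.prod_primeFactors_dvd n))

private theorem Fe_omega {R : ℕ} (hR : R ≠ 0) : (R.primeFactors.card : ℝ) ≤ 2 * Real.log R := by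
  have h1 : (2 : ℝ) ^ R.primeFactors.card ≤ R := by exact_mod_cast Fe_two_pow hR
  have h2 := Real.log_le_log (by positivity) h1
  rw [Real.log_pow] at h2
  have h3 := Real.log_two_gt_d9
  have h4 : (0 : ℝ) ≤ (R.primeFactors.card : ℝ) := by positivity
  nlinarith

private theorem Fe_pow_le (m : ℕ) {q : ℕ} (hq : q ≠ 0) : m ^ q.primeFactors.card ≤ q ^ m := by
  calc m ^ q.primeFactors.card ≤ (2 ^ m) ^ q.primeFactors.card :=
        Nat.pow_le_pow_left (Nat.lt_two_pow_self).le _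
    _ = (2 ^ q.primeFactors.card) ^ m := by rw [← pow_mul, ← pow_mul, Nat.mul_comm]
    _ ≤ q ^ m := Nat.pow_le_pow_left (Fe_two_pow hq) _

private theorem Fe_star {m p : ℕ} (hm : 1 ≤ m) (hp : p.Prime) : star m p = p := by
  unfold star
  rw [hp.primeFactors, Finset.prod_singleton, hp.factorization_self]
  have h1 : (1 + m - 1) / m = 1 := by
    rw [Nat.add_sub_cancel_left]
    exact Nat.div_self (by omega)
  rw [h1, pow_one]

theorem moment {m : ℕ} (hm : 1 ≤ m) {h : ℤ → ℕ} (hc : FewCl m h) {R : ℕ} (hR : R ≠ 0)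
    (hdiv : ∀ T, h T ∣ R) {z : ℕ} (hz : 2 ≤ z) {Y : ℝ} (hY : 1 < Y) (M : ℕ) :
    (((Finset.Icc (-(M : ℤ)) M).filter fun T => Y ≤ (h T : ℝ)).card : ℝ) ≤
      2 * m * Real.log R * ((2 * M + 1) / z + 1) +
        (2 * M + 1) * (Y ^ (-(1 / (4 * m * Real.log z))) * Real.exp (4 * m ^ 2 * (1 + Real.log z))) +
        (Y * z) ^ (m + 1) := by
  classical
  set I : Finset ℤ := Finset.Icc (-(M : ℤ)) M with hI
  set P : Finset ℕ := R.primeFactors.filter fun p => z < p with hP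
  set F : Finset ℕ := (Finset.Icc 1 ⌊Y * z⌋₊).filter fun q =>
    Y ≤ (q : ℝ) ∧ ∀ p, p.Prime → p ∣ q → p ≤ z with hF
  have hz0 : (0 : ℝ) < z := by
    have : 0 < z := by omega
    exact_mod_cast this
  have hYz : (0 : ℝ) ≤ Y * z := by positivity
  have hM : (0 : ℝ) ≤ 2 * (M : ℝ) + 1 := by positivity
  have hsub : (I.filter fun T => Y ≤ (h T : ℝ)) ⊆
      (P.biUnion fun p => I.filter fun T => p ∣ h T) ∪ (F.biUnion fun q => I.filter fun T => q ∣ h T) := by
    intro T hT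
    rw [Finset.mem_filter] at hT
    obtain ⟨hTI, hTY⟩ := hT
    have hT0 : h T ≠ 0 := by
      intro h0
      have h1 := hdiv T
      rw [h0] at h1
      exact hR (Nat.eq_zero_of_zero_dvd h1)
    rw [Finset.mem_union]
    by_cases hbig : ∃ p, p.Prime ∧ p ∣ h T ∧ z < p
    · left
      obtain ⟨p, hp, hpd, hpz⟩ := hbig
      rw [Finset.mem_biUnion]
      refine ⟨p, ?_, Finset.mem_filter.2 ⟨hTI, hpd⟩⟩
      rw [hP, Finset.mem_filter]
      exact ⟨Nat.mem_primeFactors.2 ⟨hp, hpd.trans (hdiv T), hR⟩, hpz⟩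
    · right
      have hs : ∀ p, p.Prime → p ∣ h T → p ≤ z := by
        intro p hp hpd
        by_contra hcon
        exact hbig ⟨p, hp, hpd, by omega⟩
      obtain ⟨q, hq, hq1, hq2⟩ := smooth_divisor hT0 hY hTY hs
      rw [Finset.mem_biUnion]
      refine ⟨q, ?_, Finset.mem_filter.2 ⟨hTI, hq⟩⟩
      rw [hF, Finset.mem_filter, Finset.mem_Icc]
      refine ⟨⟨?_, Nat.le_floor hq2.le⟩, hq1, fun p hp hpq => hs p hp (hpq.trans hq)⟩
      have h1 : (1 : ℝ) < q := lt_of_lt_of_le hY hq1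
      have h2 : 1 < q := by exact_mod_cast h1
      omega
  have hcard : (((I.filter fun T => Y ≤ (h T : ℝ)).card : ℕ) : ℝ) ≤
      ∑ p ∈ P, ((I.filter fun T => p ∣ h T).card : ℝ) + ∑ q ∈ F, ((I.filter fun T => q ∣ h T).card : ℝ) := by
    have h1 := (Finset.card_le_card hsub).trans (Finset.card_union_le _ _)
    have h2 := h1.trans (Nat.add_le_add Finset.card_biUnion_le Finset.card_biUnion_le)
    exact_mod_cast h2
  have hA : ∑ p ∈ P, ((I.filter fun T => p ∣ h T).card : ℝ) ≤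
      2 * m * Real.log R * ((2 * M + 1) / z + 1) := by
    have h1 : ∀ p ∈ P, ((I.filter fun T => p ∣ h T).card : ℝ) ≤ (m : ℝ) * ((2 * M + 1) / z + 1) := by
      intro p hp
      rw [hP, Finset.mem_filter] at hp
      obtain ⟨hp1, hpz⟩ := hp
      have hpp := Nat.prime_of_mem_primeFactors hp1
      have h2 := count_div hm hc hpp.one_le M
      rw [hpp.primeFactors, Finset.card_singleton, pow_one, Fe_star hm hpp] at h2
      refine h2.trans ?_
      have h3 : (z : ℝ) ≤ p := by exact_mod_cast hpz.le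
      have h4 : (2 * (M : ℝ) + 1) / p ≤ (2 * (M : ℝ) + 1) / z := div_le_div_of_nonneg_left hM hz0 h3
      have h5 : (0 : ℝ) ≤ m := by positivity
      exact mul_le_mul_of_nonneg_left (by linarith) h5
    refine (Finset.sum_le_card_nsmul _ _ _ h1).trans ?_
    rw [nsmul_eq_mul]
    have h6 : (P.card : ℝ) ≤ 2 * Real.log R := by
      refine le_trans ?_ (Fe_omega hR)
      exact_mod_cast Finset.card_filter_le _ _
    have h7 : (0 : ℝ) ≤ (m : ℝ) * ((2 * M + 1) / z + 1) := by positivity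
    have h8 := mul_le_mul_of_nonneg_right h6 h7
    linarith
  have hB : ∑ q ∈ F, ((I.filter fun T => q ∣ h T).card : ℝ) ≤
      (2 * M + 1) * (Y ^ (-(1 / (4 * m * Real.log z))) * Real.exp (4 * m ^ 2 * (1 + Real.log z))) +
        (Y * z) ^ (m + 1) := by
    have h1 : ∀ q ∈ F, ((I.filter fun T => q ∣ h T).card : ℝ) ≤
        (2 * M + 1) * ((m : ℝ) ^ q.primeFactors.card / star m q) + (Y * z) ^ m := by
      intro q hq
      rw [hF, Finset.mem_filter, Finset.mem_Icc] at hq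
      obtain ⟨⟨hq1, hq2⟩, -, -⟩ := hq
      refine (count_div hm hc hq1 M).trans ?_
      have h2 : (m : ℝ) ^ q.primeFactors.card ≤ (Y * z) ^ m := by
        have h3 : (m : ℝ) ^ q.primeFactors.card ≤ (q : ℝ) ^ m := by
          exact_mod_cast Fe_pow_le m (by omega : q ≠ 0)
        refine h3.trans (pow_le_pow_left₀ (by positivity) ?_ _)
        exact (Nat.le_floor_iff hYz).1 hq2
      have h4 : (m : ℝ) ^ q.primeFactors.card * ((2 * M + 1) / star m q + 1)
          = (2 * M + 1) * ((m : ℝ) ^ q.primeFactors.card / star m q) + (m : ℝ) ^ q.primeFactors.card := by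
        ring
      rw [h4]
      linarith
    refine (Finset.sum_le_sum h1).trans ?_
    rw [Finset.sum_add_distrib, ← Finset.mul_sum, Finset.sum_const, nsmul_eq_mul]
    have h5 := rankin hm hz hY.le F (fun q hq => by
      rw [hF, Finset.mem_filter] at hq
      exact hq.2)
    have h6 : (F.card : ℝ) ≤ Y * z := by
      have h7 : F.card ≤ ⌊Y * z⌋₊ := by
        refine (Finset.card_filter_le _ _).trans ?_
        rw [Nat.card_Icc]
        omega
      exact (Nat.le_floor_iff hYz).1 h7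
    have h8 : (0 : ℝ) ≤ (Y * z) ^ m := by positivity
    have h9 := mul_le_mul_of_nonneg_right h6 h8
    have h10 := mul_le_mul_of_nonneg_left h5 hM
    rw [pow_succ (Y * z) m]
    linarith
  linarith

end Pool.Agent.SD
end

section

/-!
# TASK SD Fr: the rank along a line

PROOF.  Let `e j = Pi.single j 1`, `d = m + m`.  Suppose `rk (Mo v w) < m`.  By `RL.rk_Mo` the `ℚ`-span of the numbers `om v w (e j)` has dimension at least `m + 1`, so there are `j : Fin (m+1) → Fin d` such that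
`om v w (e (j l))` are linearly independent over `ℚ`, and `ℚ`-linear functions `ψ k : ℝ → ℚ`, `k : Fin (m+1)`, with `ψ k (om v w (e (j l))) = δ_kl` (exactly as in the proof of `RL.Al`, file `RL/Al.lean`, which can be copied).
Let `B1 = (ψ k (om v w (e (j l))))_{k,l} = 1`, `B0 = (ψ k (om v a (e (j l))))_{k,l}`, rational matrices, and `D = det (X • B1.map C + B0.map C) ∈ ℚ[X]`: its coefficient at `X^(m+1)` is `det B1 = 1` (`Polynomial.coeff_det_X_add_C_card`) and its degree is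
at most `m + 1` (`Polynomial.natDegree_det_X_add_C_le`), so `D ≠ 0` has at most `m + 1` roots (`Polynomial.card_roots'`).  Let `T ∈ G`, `x = a + T w`: `om v x y = om v a y + T om v w y`, so the matrix
`(ψ k (om v x (e (j l))))` is `B0 + T B1` and its determinant is `D(T)`.  If `D(T) ≠ 0` then the `m + 1` numbers `om v x (e (j l))` are linearly independent over `ℚ`, so by `RL.rk_Mo` `rk (Mo v x) ≤ d - (m + 1) < m`, a
contradiction.  So all `T ∈ G` are roots of `D`, and `|G| ≤ m + 1`, a contradiction.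
-/

set_option autoImplicit false

open Finset

namespace Pool.Agent.SD

open RL

private theorem Fr_dual {r : ℕ} {b : Fin r → ℝ} (hb : LinearIndependent ℚ b) :
    ∃ ψ : Fin r → (ℝ →ₗ[ℚ] ℚ), ∀ k l, ψ k (b l) = if k = l then 1 else 0 := by
  classical
  obtain ⟨g, hg⟩ := LinearMap.exists_extend (hb.repr : Submodule.span ℚ (Set.range b) →ₗ[ℚ] (Fin r →₀ ℚ))
  refine ⟨fun k => (Finsupp.lapply k).comp g, fun k l => ?_⟩
  have h1 : g (b l) = Finsupp.single l 1 := by
    have h2 := congrArg (fun f => f ⟨b l, Submodule.subset_span ⟨l, rfl⟩⟩) hg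
    have h3 : g (b l) = hb.repr ⟨b l, Submodule.subset_span ⟨l, rfl⟩⟩ := h2
    rw [h3]
    exact hb.repr_eq_single l _ rfl
  show (g (b l)) k = _
  rw [h1, Finsupp.single_apply]
  by_cases hkl : l = k
  · simp [hkl]
  · have : ¬ k = l := fun h => hkl h.symm
    simp [hkl, this]

theorem Fr {m : ℕ} (v : Fin (m + m) → ℂ) (w a : Fin (m + m) → ℤ) (G : Finset ℤ)
    (hG : m + 2 ≤ G.card)
    (h : ∀ T ∈ G, m ≤ rk (Mo v (a + T • w) : Set (Fin (m + m) → ℤ))) :
    m ≤ rk (Mo v w : Set (Fin (m + m) → ℤ)) := by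
  classical
  by_contra hcon
  push Not at hcon
  have hrkw := rk_Mo v w
  set a' : (Fin (m + m) → ℤ) → Fin (m + m) → ℝ := fun x j => om v x (Pi.single j 1) with ha'
  have hfr : m + 1 ≤ Module.finrank ℚ (Submodule.span ℚ (Set.range (a' w))) := by
    have : rk (Mo v w : Set (Fin (m + m) → ℤ)) +
      Module.finrank ℚ (Submodule.span ℚ (Set.range (a' w))) = m + m := hrkw
    omega
  have : FiniteDimensional ℚ (Submodule.span ℚ (Set.range (a' w))) :=
    FiniteDimensional.span_of_finite ℚ (Set.finite_range _)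
  obtain ⟨f, hf1, -, hf3⟩ := Submodule.exists_fun_fin_finrank_span_eq ℚ (Set.range (a' w))
  choose j0 hj0 using hf1
  set j : Fin (m + 1) → Fin (m + m) := fun l => j0 (Fin.castLE hfr l) with hj
  have hb : LinearIndependent ℚ (fun l => a' w (j l)) := by
    have e : (fun l => a' w (j l)) = f ∘ Fin.castLE hfr := by
      funext l
      exact hj0 _
    rw [e]
    exact hf3.comp _ (Fin.castLE_injective hfr)
  obtain ⟨ψ, hψ⟩ := Fr_dual hb
  set B0 : Matrix (Fin (m + 1)) (Fin (m + 1)) ℚ := Matrix.of fun k l => ψ k (a' a (j l)) with hB0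
  set D : Polynomial ℚ := Matrix.det ((Polynomial.X : Polynomial ℚ) •
    (1 : Matrix (Fin (m + 1)) (Fin (m + 1)) ℚ).map Polynomial.C + B0.map Polynomial.C) with hD
  have hDdeg : D.natDegree ≤ m + 1 := by
    have h1 := Polynomial.natDegree_det_X_add_C_le (1 : Matrix (Fin (m + 1)) (Fin (m + 1)) ℚ) B0
    rwa [Fintype.card_fin] at h1
  have hDc : D.coeff (m + 1) = 1 := by
    have h1 := Polynomial.coeff_det_X_add_C_card (1 : Matrix (Fin (m + 1)) (Fin (m + 1)) ℚ) B0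
    rw [Fintype.card_fin, Matrix.det_one] at h1
    exact h1
  have hD0 : D ≠ 0 := by
    intro h0
    rw [h0, Polynomial.coeff_zero] at hDc
    exact zero_ne_one hDc
  have heval : ∀ T : ℤ, D.eval (T : ℚ) =
      (Matrix.of fun k l => ψ k (a' (a + T • w) (j l)) : Matrix (Fin (m + 1)) (Fin (m + 1)) ℚ).det := by
    intro T
    rw [hD, ← Polynomial.coe_evalRingHom, RingHom.map_det]
    congr 1
    ext k l
    simp only [RingHom.mapMatrix_apply, Matrix.map_apply, Matrix.add_apply, Matrix.smul_apply, map_add,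
      Polynomial.coe_evalRingHom, Polynomial.eval_C, smul_eq_mul, hB0,
      Matrix.of_apply]
    have h1 : a' (a + T • w) (j l) = a' a (j l) + (T : ℚ) • a' w (j l) := by
      rw [ha']
      dsimp only
      rw [om_add_left, om_smul_left, Rat.smul_def]
      push_cast
      rfl
    rw [h1, map_add, map_smul, hψ, smul_eq_mul, Matrix.one_apply, add_comm, Polynomial.eval_mul,
      Polynomial.eval_X, Polynomial.eval_C]
  have hroot : ∀ T ∈ G, D.eval (T : ℚ) = 0 := by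
    intro T hT
    by_contra hne
    rw [heval] at hne
    set x := a + T • w with hx
    have hli : LinearIndependent ℚ (fun l => a' x (j l)) := by
      rw [Fintype.linearIndependent_iff]
      intro c hc
      have h1 : (Matrix.of fun k l => ψ k (a' x (j l)) :
          Matrix (Fin (m + 1)) (Fin (m + 1)) ℚ).mulVec c = 0 := by
        ext k
        have h2 := congrArg (ψ k) hc
        rw [map_sum, map_zero] at h2
        rw [Pi.zero_apply, ← h2]
        simp only [Matrix.mulVec, dotProduct, Matrix.of_apply, map_smul, smul_eq_mul]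
        exact Finset.sum_congr rfl (fun l _ => mul_comm _ _)
      exact fun l => congrFun (Matrix.eq_zero_of_mulVec_eq_zero hne h1) l
    have h3 : m + 1 ≤ Module.finrank ℚ (Submodule.span ℚ (Set.range (a' x))) := by
      have h4 := finrank_span_eq_card hli
      rw [Fintype.card_fin] at h4
      rw [← h4]
      have : FiniteDimensional ℚ (Submodule.span ℚ (Set.range (a' x))) :=
        FiniteDimensional.span_of_finite ℚ (Set.finite_range _)
      apply Submodule.finrank_mono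
      apply Submodule.span_mono
      rintro _ ⟨l, rfl⟩
      exact ⟨j l, rfl⟩
    have h5 : rk (Mo v x : Set (Fin (m + m) → ℤ)) +
        Module.finrank ℚ (Submodule.span ℚ (Set.range (a' x))) = m + m := rk_Mo v x
    have h6 := h T hT
    rw [← hx] at h6
    omega
  have h7 : (G.image (fun T : ℤ => (T : ℚ))).card ≤ m + 1 := by
    refine (Polynomial.card_le_degree_of_subset_roots (p := D) ?_).trans hDdeg
    intro q hq
    rw [Finset.mem_val, Finset.mem_image] at hq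
    obtain ⟨T, hT, rfl⟩ := hq
    rw [Polynomial.mem_roots hD0]
    exact hroot T hT
  rw [Finset.card_image_of_injective _ Int.cast_injective] at h7
  omega

end Pool.Agent.SD
end

section

/-!
# TASK SD Fg: a line with many good points (compare `RL/Gd.lean`)

PROOF.  Let `w = Pi.single i₀ 1`, `d = m + m`, `M0 = ⌊M i₀⌋₊`.
(1) Pigeonhole: every `x ∈ S` is `a + T w` with `T = x i₀ ∈ [-M0, M0]` and `a i₀ = 0`, `|a i| ≤ M i`; there are at most `∏_{i ≠ i₀} (2 M i + 1) ≤ 3^d (∏ M i)/M i₀` such `a` (count `(x_i)_{i ≠ i₀}`: e.g. the `a` lie in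
`Fintype.piFinset fun i => if i = i₀ then {0} else Icc (-⌊M i⌋) ⌊M i⌋`).  So some `a` has a set `G ⊆ Icc (-M0) M0` of `T` with `a + T w ∈ S` and `|S| ≤ 3^d (∏ M i)/M i₀ * |G|`, so `M i₀ ≤ 3^d K |G|` (`∏ M i ≤ K |S|`), and
`|G| ≥ m + 3` by `hbig`.
(2) `a ∉ Mo v w`: otherwise all `a + T w`, `T ∈ G`, lie in `Mo v w`; take two of them, `x ≠ x'` in `S`, nonzero; `Mo v x = Mo v w ∋ x'` (`RL.Mo_eq`, `w ≠ 0`), contradicting `Np`.  The same argument shows: no
`x = a + T w ∈ S` lies in `Mo v w` (then `a = x - T w ∈ Mo v w`).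
(3) `rk (Mo v w) = m`.  `≥`: for `y ∈ S` the `m` independent vectors give `m ≤ finrank (Mo v y) = rk (Mo v y)` (`finrank_ge`, `rk_eq`), so `Fr` (`|G| ≥ m + 2`) applies.  `≤`: take `x = a + T w ∈ S`; `Mo v x` and `Mo v w` meet in `0`
(`RL.Mo_inter`; `w ∉ Mo v x` because `x ∉ Mo v w`, `RL.om_symm`), so `rk (Mo v w) ≤ 2m - rk (Mo v x) ≤ m` (`RL.rk_add_le`).
(4) Take `𝒜` from `RL.Mt`, `A0 = 𝒜 a`, `A1 = 𝒜 w`, `𝒜 (a + T w) = A0 + T • A1`.  For `T ∈ G`, `x = a + T w`, let `Y` be the matrix with the columns `u k` of the hypothesis for `x`: `|Y i k| ≤ M i` (`mem_wB`), `(A0 + T • A1) * Y = 0` because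
`om v x (u k) = 0`.  `det (A1 * Y) ≠ 0`: otherwise some integer vector `c ≠ 0` has `(A1 * Y) *ᵥ c = 0` (`Matrix.exists_mulVec_eq_zero_iff`), `y = ∑ c k • u k ≠ 0` (independence) lies in `Mo v w` and in `Mo v x`, a contradiction
(`RL.Mo_inter`).
-/

set_option autoImplicit false

open Finset

namespace Pool.Agent.SD

open RL

private theorem Fg_split {d : ℕ} (i : Fin d) (x : Fin d → ℤ) :
    x = Function.update x i 0 + x i • (Pi.single i 1 : Fin d → ℤ) := by
  funext j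
  by_cases h : j = i
  · subst h
    simp
  · simp [h]

/-- The hypothesis at one point. -/
private theorem Fg_hyp {m : ℕ} {v : Fin (m + m) → ℂ} (hv : LinearIndependent ℚ v)
    {w a x : Fin (m + m) → ℤ} (hw0 : w ≠ 0) {M : Fin (m + m) → ℝ} {T : ℤ} (hx : x = a + T • w)
    (hx0 : x ≠ 0) (hxw : x ∉ Mo v w)
    (hu : ∃ u : Fin m → (Fin (m + m) → ℤ), LinearIndependent ℤ u ∧
      ∀ k, u k ∈ Mo v x ∧ u k ∈ wB M 1)
    (𝒜 : (Fin (m + m) → ℤ) → Matrix (Fin m) (Fin (m + m)) ℤ)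
    (h1 : ∀ x y, 𝒜 (x + y) = 𝒜 x + 𝒜 y) (h2 : ∀ (n : ℤ) x, 𝒜 (n • x) = n • 𝒜 x)
    (h3 : ∀ x y, om v x y = 0 → (𝒜 x).mulVec y = 0)
    (h4 : ∀ y, (𝒜 w).mulVec y = 0 → om v w y = 0) : HypW (𝒜 a) (𝒜 w) M T := by
  obtain ⟨y, hyi, hy⟩ := hu
  have hmul : ∀ (A : Matrix (Fin m) (Fin (m + m)) ℤ) (k r : Fin m),
      (A * (Matrix.of fun j k => y k j : Matrix (Fin (m + m)) (Fin m) ℤ)) r k =
        A.mulVec (y k) r := by
    intro A k r
    rw [Matrix.mul_apply, Matrix.mulVec, dotProduct]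
    rfl
  refine ⟨Matrix.of fun j k => y k j, ?_, ?_, ?_⟩
  · intro j k
    have h5 := (mem_wB.1 (hy k).2) j
    rw [one_mul] at h5
    exact h5
  · ext r k
    rw [← h2, ← h1, ← hx, hmul, h3 x (y k) (hy k).1]
    rfl
  · intro hdet
    obtain ⟨c, hc0, hc⟩ := Matrix.exists_mulVec_eq_zero_iff.mpr hdet
    rw [← Matrix.mulVec_mulVec] at hc
    have h5 := h4 _ hc
    have h6 : (Matrix.of fun j k => y k j : Matrix (Fin (m + m)) (Fin m) ℤ).mulVec c =
        ∑ k, c k • y k := by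
      funext j
      rw [Matrix.mulVec, dotProduct, Finset.sum_apply]
      refine Finset.sum_congr rfl fun k _ => ?_
      rw [Matrix.of_apply, Pi.smul_apply, smul_eq_mul, mul_comm]
    rw [h6] at h5
    have h7 : ∑ k, c k • y k ∈ Mo v x :=
      Submodule.sum_mem _ fun k _ => Submodule.smul_mem _ _ (hy k).1
    have h9 : ∑ k, c k • y k = 0 := Mo_inter hv hw0 hx0 hxw h5 h7
    apply hc0
    funext k
    exact (Fintype.linearIndependent_iff.mp hyi) c h9 k

private theorem Fg_card {d : ℕ} (M : Fin d → ℝ) (hM : ∀ i, 1 ≤ M i) (i₀ : Fin d) :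
    ((Fintype.piFinset fun i => if i = i₀ then ({0} : Finset ℤ) else
      Finset.Icc (-⌊M i⌋) ⌊M i⌋).card : ℝ) * M i₀ ≤ 3 ^ d * ∏ i, M i := by
  have h1 : ∏ i, (if i = i₀ then M i₀ else 1) = M i₀ := by
    rw [Finset.prod_ite_eq' Finset.univ i₀ (fun _ => M i₀)]
    simp
  rw [Fintype.card_piFinset]
  push_cast
  have h2 : (∏ i, (((if i = i₀ then ({0} : Finset ℤ) else
      Finset.Icc (-⌊M i⌋) ⌊M i⌋).card : ℕ) : ℝ)) * M i₀ =
      ∏ i, ((((if i = i₀ then ({0} : Finset ℤ) else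
      Finset.Icc (-⌊M i⌋) ⌊M i⌋).card : ℕ) : ℝ) * (if i = i₀ then M i₀ else 1)) := by
    rw [Finset.prod_mul_distrib, h1]
  rw [h2]
  have h3 : (3 : ℝ) ^ d * ∏ i, M i = ∏ i, (3 * M i) := by
    rw [Finset.prod_mul_distrib, Finset.prod_const, Finset.card_univ, Fintype.card_fin]
  rw [h3]
  refine Finset.prod_le_prod ?_ ?_
  · intro i _
    have := hM i₀
    by_cases h : i = i₀
    · simp only [h, if_true]
      positivity
    · simp only [h, if_false]
      positivity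
  · intro i _
    by_cases h : i = i₀
    · subst h
      simp only [if_true, Finset.card_singleton, Nat.cast_one, one_mul]
      have := hM i
      linarith
    · simp only [h, if_false, mul_one]
      rw [Int.card_Icc]
      have h4 : (0 : ℤ) ≤ ⌊M i⌋ := Int.floor_nonneg.2 (le_trans zero_le_one (hM i))
      have h5 : (((⌊M i⌋ + 1 - -⌊M i⌋).toNat : ℕ) : ℝ) = 2 * (⌊M i⌋ : ℝ) + 1 := by
        have h6 : (((⌊M i⌋ + 1 - -⌊M i⌋).toNat : ℕ) : ℤ) = 2 * ⌊M i⌋ + 1 := by omega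
        exact_mod_cast h6
      rw [h5]
      have h6 := Int.floor_le (M i)
      have := hM i
      linarith

theorem Fg {m : ℕ} (hm : 1 ≤ m) {v : Fin (m + m) → ℂ} (hv : LinearIndependent ℚ v)
    (M : Fin (m + m) → ℝ) (hM : ∀ i, 1 ≤ M i) (i₀ : Fin (m + m)) (S : Finset (Fin (m + m) → ℤ))
    (hS : S ⊆ wB M 1) (hNp : Np v S)
    (hu : ∀ y ∈ S, ∃ u : Fin m → (Fin (m + m) → ℤ), LinearIndependent ℤ u ∧
      ∀ k, u k ∈ Mo v y ∧ u k ∈ wB M 1) {K : ℝ} (hK : (∏ i, M i) ≤ K * S.card)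
    (hbig : (m + 3) * (3 ^ (m + m) * K) ≤ M i₀) :
    ∃ (A0 A1 : Matrix (Fin m) (Fin (m + m)) ℤ) (G : Finset ℤ),
      G ⊆ Finset.Icc (-(⌊M i₀⌋₊ : ℤ)) ⌊M i₀⌋₊ ∧ M i₀ ≤ 3 ^ (m + m) * K * G.card ∧
      (∀ T ∈ G, HypW A0 A1 M T) ∧ ∀ y, A1.mulVec y = 0 → y ∈ Mo v (Pi.single i₀ 1) := by
  classical
  set w : Fin (m + m) → ℤ := Pi.single i₀ 1 with hwdef
  have hw0 : w ≠ 0 := by
    intro h
    have := congrFun h i₀
    simp [hwdef] at this
  obtain ⟨hN0, hNe⟩ := hNp
  set AA : Finset (Fin (m + m) → ℤ) := Fintype.piFinset fun i => if i = i₀ then ({0} : Finset ℤ) else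
      Finset.Icc (-⌊M i⌋) ⌊M i⌋ with hAA
  have hAAc := Fg_card M hM i₀
  rw [← hAA] at hAAc
  have hprod : 1 ≤ ∏ i, M i := by
    have h1 : ∏ i : Fin (m + m), (1 : ℝ) ≤ ∏ i, M i :=
      Finset.prod_le_prod (fun _ _ => zero_le_one) fun i _ => hM i
    simpa using h1
  have hScard : (0 : ℝ) < S.card := by
    rcases Nat.eq_zero_or_pos S.card with h | h
    · rw [h] at hK
      simp only [Nat.cast_zero, mul_zero] at hK
      linarith
    · exact_mod_cast h
  have hK0 : 0 < K := by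
    by_contra h
    push Not at h
    have h1 := mul_nonpos_of_nonpos_of_nonneg h hScard.le
    linarith
  have hmaps : ∀ x ∈ S, Function.update x i₀ 0 ∈ AA := by
    intro x hx
    rw [hAA, Fintype.mem_piFinset]
    intro i
    by_cases h : i = i₀
    · subst h
      simp
    · have h1 := (mem_wB.1 (hS hx)) i
      rw [one_mul] at h1
      rw [Function.update_of_ne h]
      simp only [h, if_false]
      rw [Finset.mem_Icc, ← abs_le, Int.le_floor]
      push_cast
      exact h1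
  have hAAne : AA.Nonempty := by
    have h1 : S.Nonempty := Finset.card_pos.1 (by exact_mod_cast hScard)
    obtain ⟨x, hx⟩ := h1
    exact ⟨_, hmaps x hx⟩
  have hAApos : (0 : ℝ) < AA.card := by
    exact_mod_cast Finset.card_pos.2 hAAne
  obtain ⟨a, haA, haf⟩ := Finset.exists_le_card_fiber_of_nsmul_le_card_of_maps_to
    (b := (S.card : ℝ) / AA.card) hmaps hAAne (by
      rw [nsmul_eq_mul]
      exact le_of_eq (mul_div_cancel₀ _ hAApos.ne'))
  have ha0 : a i₀ = 0 := by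
    rw [hAA, Fintype.mem_piFinset] at haA
    have h1 := haA i₀
    simpa using h1
  set G : Finset ℤ := (Finset.Icc (-(⌊M i₀⌋₊ : ℤ)) ⌊M i₀⌋₊).filter fun T => a + T • w ∈ S with hG
  have hfG : (S.filter fun x => Function.update x i₀ 0 = a).card ≤ G.card := by
    apply Finset.card_le_card_of_injOn (fun x => x i₀)
    · intro x hx
      rw [Finset.mem_coe, Finset.mem_filter] at hx
      obtain ⟨hxS, hxa⟩ := hx
      rw [Finset.mem_coe, hG, Finset.mem_filter]
      refine ⟨?_, ?_⟩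
      · have h1 := (mem_wB.1 (hS hxS)) i₀
        rw [one_mul] at h1
        have h2 : (((x i₀).natAbs : ℕ) : ℝ) ≤ M i₀ := by
          rw [Nat.cast_natAbs]
          push_cast
          exact h1
        have h3 : (x i₀).natAbs ≤ ⌊M i₀⌋₊ := Nat.le_floor h2
        rw [Finset.mem_Icc]
        have h4 : x i₀ ∈ Finset.Icc (-(⌊M i₀⌋₊ : ℤ)) ⌊M i₀⌋₊ := by
          rw [Finset.mem_Icc]
          omega
        exact Finset.mem_Icc.1 h4
      · rw [← hxa, hwdef, ← Fg_split i₀ x]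
        exact hxS
    · intro x hx y hy hxy
      rw [Finset.mem_coe, Finset.mem_filter] at hx hy
      have hxy' : x i₀ = y i₀ := hxy
      rw [Fg_split i₀ x, Fg_split i₀ y, hx.2, hy.2, hxy']
  have hSG : (S.card : ℝ) ≤ AA.card * G.card := by
    have h1 : (S.card : ℝ) / AA.card ≤ G.card := le_trans haf (by exact_mod_cast hfG)
    rw [div_le_iff₀ hAApos] at h1
    linarith
  have hMG : M i₀ ≤ 3 ^ (m + m) * K * G.card := by
    have hM0 : 0 ≤ M i₀ := le_trans zero_le_one (hM i₀)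
    have hG0 : (0 : ℝ) ≤ G.card := Nat.cast_nonneg _
    have h1 : M i₀ * S.card ≤ (3 ^ (m + m) * K * G.card) * S.card := by
      calc M i₀ * S.card ≤ M i₀ * (AA.card * G.card) := mul_le_mul_of_nonneg_left hSG hM0
        _ = (AA.card * M i₀) * G.card := by ring
        _ ≤ (3 ^ (m + m) * ∏ i, M i) * G.card := mul_le_mul_of_nonneg_right hAAc hG0
        _ ≤ (3 ^ (m + m) * (K * S.card)) * G.card := by
            refine mul_le_mul_of_nonneg_right ?_ hG0
            exact mul_le_mul_of_nonneg_left hK (by positivity)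
        _ = _ := by ring
    exact le_of_mul_le_mul_right h1 hScard
  have hGm : m + 3 ≤ G.card := by
    have h1 : (0 : ℝ) < 3 ^ (m + m) * K := by positivity
    have h2 : ((m : ℝ) + 3) * (3 ^ (m + m) * K) ≤ G.card * (3 ^ (m + m) * K) := by
      refine hbig.trans (hMG.trans (le_of_eq ?_))
      ring
    have h3 := le_of_mul_le_mul_right h2 h1
    exact_mod_cast h3
  have hmemG : ∀ T ∈ G, a + T • w ∈ S := fun T hT => (Finset.mem_filter.1 hT).2
  -- no point of the line lies in `Mo v w`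
  have hno : ∀ T : ℤ, a + T • w ∈ S → a + T • w ∉ Mo v w := by
    intro T hT hTw
    have haw : a ∈ Mo v w := by
      have h8 : a = (a + T • w) - T • w := by abel
      rw [h8]
      exact Submodule.sub_mem _ hTw (Submodule.smul_mem _ _ (self_mem_Mo v w))
    have h1 : 1 < G.card := by omega
    obtain ⟨T1, hT1, T2, hT2, hne⟩ := Finset.one_lt_card.1 h1
    have hx1 := hmemG T1 hT1
    have hx2 := hmemG T2 hT2
    have hmem : ∀ T : ℤ, a + T • w ∈ Mo v w := fun T =>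
      Submodule.add_mem _ haw (Submodule.smul_mem _ _ (self_mem_Mo v w))
    have hne' : a + T1 • w ≠ a + T2 • w := by
      intro h
      have h2 := congrFun h i₀
      simp [hwdef] at h2
      exact hne h2
    refine hNe _ hx1 _ hx2 hne' ?_
    rw [(Mo_eq hv hw0 (hN0 _ hx1) (hmem T1)).1]
    exact hmem T2
  obtain ⟨T0, hT0⟩ : G.Nonempty := Finset.card_pos.1 (by omega)
  have hrk : ∀ y ∈ S, m ≤ rk (Mo v y : Set (Fin (m + m) → ℤ)) := by
    intro y hy
    obtain ⟨u, hui, hum⟩ := hu y hy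
    rw [rk_eq]
    exact finrank_ge u hui fun k => (hum k).1
  have hge : m ≤ rk (Mo v w : Set (Fin (m + m) → ℤ)) :=
    Fr v w a G (by omega) fun T hT => hrk _ (hmemG T hT)
  have hle : rk (Mo v w : Set (Fin (m + m) → ℤ)) ≤ m := by
    have hx := hmemG T0 hT0
    have h1 := rk_add_le (Mo v (a + T0 • w)) (Mo v w) (by
      intro z hz1 hz2
      exact Mo_inter hv hw0 (hN0 _ hx) (hno T0 hx) hz2 hz1)
    have h2 := hrk _ hx
    omega
  have hrkw : rk (Mo v w : Set (Fin (m + m) → ℤ)) = m := le_antisymm hle hge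
  obtain ⟨𝒜, h1, h2, h3, h4⟩ := RL.Mt v w hrkw
  refine ⟨𝒜 a, 𝒜 w, G, Finset.filter_subset _ _, hMG, ?_, fun y hy => h4 y hy⟩
  intro T hT
  have hx := hmemG T hT
  exact Fg_hyp hv hw0 rfl (hN0 _ hx) (hno T hx) (hu _ hx) 𝒜 h1 h2 h3 h4

end Pool.Agent.SD
end

section

/-!
# TASK SD Fh: short kernel vectors (Cramer; compare `RL/Ct.lean`)

PROOF.  Choose `f₀` with `|ℓ f₀| ∏ k, M (f₀ k)` maximal (`Finite.exists_max`); it is positive, so `ℓ f₀ ≠ 0`, and `f₀` is injective (a minor with two equal columns is `0`: `mi A1 f₀ = γ ℓ f₀ ≠ 0`).  For `l ∉ range f₀` (exactly `m` indices) let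
`y l = ℓ f₀ • e_l - ∑ k, ℓ (Function.update f₀ k l) • e_(f₀ k)` (`e_i = Pi.single i 1`).  `A1 *ᵥ (y l) = 0` by Cramer's rule (see `RL/Ct.lean`, whose private lemmas can be copied).  The `y l` are linearly independent: the coordinate `l' ∉ range f₀` of `y l`
is `ℓ f₀` if `l' = l` and `0` otherwise.
Size: at `l`: `|ℓ f₀|`.  At `f₀ k`: `|ℓ (update f₀ k l)|`; by maximality `|ℓ (update f₀ k l)| M l ∏_{k' ≠ k} M (f₀ k') ≤ |ℓ f₀| ∏ M (f₀ k')`, so `|ℓ (update f₀ k l)| ≤ |ℓ f₀| M (f₀ k)/M l`.  So `y l ∈ wB M (|ℓ f₀|/M l)`.  By the hypothesis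
`|ℓ f₀| ≤ X (∏ i, M i)/(∏ k, M (f₀ k))/M0^m = X (∏_{i ∉ range f₀} M i)/M0^m`, so `|ℓ f₀|/M l ≤ X (∏_{i ∉ range f₀, i ≠ l} M i)/M0^m ≤ X (2 M0)^(m-1)/M0^m ≤ 2^m X/M0` (there are `m - 1` factors, each at most `2 M0` and at least `1`).
-/

set_option autoImplicit false

open Finset

namespace Pool.Agent.SD

open RL

private theorem Fh_inj {m : ℕ} (A1 : Matrix (Fin m) (Fin (m + m)) ℤ) (f : Fin m → Fin (m + m))
    (h : mi A1 f ≠ 0) : Function.Injective f := by
  intro a b hab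
  by_contra hne
  apply h
  unfold mi
  apply Matrix.det_zero_of_column_eq hne
  intro k
  simp only [Matrix.submatrix_apply, id_eq, hab]

/-- The kernel vector of the index `l`. -/
private def Fh_y {m : ℕ} (ℓ : (Fin m → Fin (m + m)) → ℤ) (f0 : Fin m → Fin (m + m))
    (l : Fin (m + m)) : Fin (m + m) → ℤ :=
  fun j => (if j = l then ℓ f0 else 0) - ∑ k, if j = f0 k then ℓ (Function.update f0 k l) else 0

private theorem Fh_ker {m : ℕ} (A1 : Matrix (Fin m) (Fin (m + m)) ℤ) {γ : ℕ} (hγ : 1 ≤ γ)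
    {ℓ : (Fin m → Fin (m + m)) → ℤ} (hl : ∀ f, mi A1 f = γ * ℓ f) (f0 : Fin m → Fin (m + m))
    (l : Fin (m + m)) : A1.mulVec (Fh_y ℓ f0 l) = 0 := by
  funext r
  have hγ0 : (γ : ℤ) ≠ 0 := by
    have : 0 < γ := hγ
    exact_mod_cast this.ne'
  apply mul_left_cancel₀ hγ0
  rw [Pi.zero_apply, mul_zero]
  have h1 : A1.mulVec (Fh_y ℓ f0 l) r =
      A1 r l * ℓ f0 - ∑ k, A1 r (f0 k) * ℓ (Function.update f0 k l) := by
    unfold Fh_y Matrix.mulVec dotProduct
    simp only [mul_sub, Finset.sum_sub_distrib, mul_ite, mul_zero, Finset.sum_ite_eq',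
      Finset.mem_univ, if_true, Finset.mul_sum]
    congr 1
    rw [Finset.sum_comm]
    refine Finset.sum_congr rfl fun k _ => ?_
    rw [Finset.sum_ite_eq' Finset.univ (f0 k)]
    simp
  have h2 := congrFun (Matrix.mulVec_cramer (A1.submatrix id f0) (fun i => A1 i l)) r
  have h3 : ∀ k, Matrix.cramer (A1.submatrix id f0) (fun i => A1 i l) k =
      γ * ℓ (Function.update f0 k l) := by
    intro k
    rw [Matrix.cramer_apply, ← hl]
    unfold mi
    congr 1
    ext i j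
    rw [Matrix.updateCol_apply]
    by_cases hjk : j = k
    · subst hjk
      simp
    · rw [if_neg hjk]
      simp [Function.update_of_ne hjk]
  have h4 : (A1.submatrix id f0).det = γ * ℓ f0 := hl f0
  simp only [Matrix.mulVec, dotProduct, Pi.smul_apply, smul_eq_mul, h3, h4,
    Matrix.submatrix_apply, id_eq] at h2
  rw [h1, mul_sub, Finset.mul_sum]
  have h5 : (γ : ℤ) * (A1 r l * ℓ f0) = γ * ℓ f0 * A1 r l := by ring
  rw [h5, ← h2, sub_eq_zero]
  refine Finset.sum_congr rfl fun k _ => ?_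
  ring

theorem Fh {m : ℕ} (hm : 1 ≤ m) (A1 : Matrix (Fin m) (Fin (m + m)) ℤ) {γ : ℕ} (hγ : 1 ≤ γ)
    {ℓ : (Fin m → Fin (m + m)) → ℤ} (hl : ∀ f, mi A1 f = γ * ℓ f) (h0 : ∃ f, ℓ f ≠ 0)
    {M : Fin (m + m) → ℝ} (hM : ∀ i, 1 ≤ M i) {M0 X : ℝ} (hM0 : 1 ≤ M0) (hmax : ∀ i, M i ≤ 2 * M0)
    (hX : 0 ≤ X) (hb : ∀ f, |(ℓ f : ℝ)| * (∏ k, M (f k)) * M0 ^ m ≤ X * ∏ i, M i) :
    ∃ w : Fin m → (Fin (m + m) → ℤ), LinearIndependent ℤ w ∧
      ∀ k, A1.mulVec (w k) = 0 ∧ w k ∈ wB M (2 ^ m * X / M0) := by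
  classical
  have hMp : ∀ i, 0 < M i := fun i => lt_of_lt_of_le one_pos (hM i)
  have hM0p : 0 < M0 := lt_of_lt_of_le one_pos hM0
  have : Nonempty (Fin m → Fin (m + m)) := ⟨h0.choose⟩
  obtain ⟨f0, hmx⟩ := Finite.exists_max
    (fun f : Fin m → Fin (m + m) => |(ℓ f : ℝ)| * ∏ k, M (f k))
  have hf0 : ℓ f0 ≠ 0 := by
    obtain ⟨f, hf⟩ := h0
    intro h
    have h1 : |(ℓ f : ℝ)| * ∏ k, M (f k) ≤ |(ℓ f0 : ℝ)| * ∏ k, M (f0 k) := hmx f
    rw [h, Int.cast_zero, abs_zero, zero_mul] at h1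
    have h2 : 0 < |(ℓ f : ℝ)| * ∏ k, M (f k) :=
      mul_pos (abs_pos.2 (by exact_mod_cast hf)) (Finset.prod_pos fun k _ => hMp _)
    linarith
  have hinj : Function.Injective f0 := by
    apply Fh_inj A1 f0
    rw [hl]
    have hγ0 : (γ : ℤ) ≠ 0 := by
      have : 0 < γ := hγ
      exact_mod_cast this.ne'
    exact mul_ne_zero hγ0 hf0
  have hS : ((univ : Finset (Fin (m + m))) \ univ.image f0).card = m := by
    rw [Finset.card_sdiff_of_subset (Finset.subset_univ _), Finset.card_image_of_injective _ hinj,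
      Finset.card_univ, Finset.card_univ, Fintype.card_fin, Fintype.card_fin]
    omega
  set g := ((univ : Finset (Fin (m + m))) \ univ.image f0).orderEmbOfFin hS with hg
  have hginj : Function.Injective g := g.injective
  have hgS : ∀ i k, g i ≠ f0 k := by
    intro i k h
    have h1 := Finset.orderEmbOfFin_mem _ hS i
    rw [Finset.mem_sdiff] at h1
    exact h1.2 (Finset.mem_image.2 ⟨k, Finset.mem_univ _, h.symm⟩)
  have hgim : univ.image g = (univ : Finset (Fin (m + m))) \ univ.image f0 := by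
    rw [← Finset.coe_inj, Finset.coe_image, Finset.coe_univ, Set.image_univ, hg,
      Finset.range_orderEmbOfFin]
  have hcov : ∀ j, (∃ i, j = g i) ∨ ∃ k, j = f0 k := by
    intro j
    by_cases hj : ∃ k, j = f0 k
    · exact Or.inr hj
    · left
      have h1 : j ∈ Set.range g := by
        rw [hg, Finset.range_orderEmbOfFin]
        rw [Finset.mem_coe, Finset.mem_sdiff]
        refine ⟨Finset.mem_univ _, fun h => hj ?_⟩
        obtain ⟨k, _, hk⟩ := Finset.mem_image.1 h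
        exact ⟨k, hk.symm⟩
      obtain ⟨i, hi⟩ := h1
      exact ⟨i, hi.symm⟩
  have hprod : ∏ i, M i = (∏ i, M (g i)) * ∏ k, M (f0 k) := by
    rw [← Finset.prod_sdiff (Finset.subset_univ (univ.image f0)), ← hgim,
      Finset.prod_image (fun a _ b _ h => hginj h), Finset.prod_image (fun a _ b _ h => hinj h)]
  have hPf : 0 < ∏ k, M (f0 k) := Finset.prod_pos fun k _ => hMp _
  have hyg : ∀ i i', Fh_y ℓ f0 (g i') (g i) = if i' = i then ℓ f0 else 0 := by
    intro i i'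
    unfold Fh_y
    have h2 : (∑ k, if g i = f0 k then ℓ (Function.update f0 k (g i')) else 0) = 0 :=
      Finset.sum_eq_zero fun k _ => if_neg (hgS i k)
    rw [h2, sub_zero]
    by_cases h3 : i' = i
    · rw [if_pos h3, h3, if_pos rfl]
    · rw [if_neg h3, if_neg fun h => h3 (hginj h).symm]
  have hyf : ∀ i k, Fh_y ℓ f0 (g i) (f0 k) = -ℓ (Function.update f0 k (g i)) := by
    intro i k
    unfold Fh_y
    rw [if_neg fun h => hgS i k h.symm]
    have h2 : (∑ k', if f0 k = f0 k' then ℓ (Function.update f0 k' (g i)) else 0) =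
        ℓ (Function.update f0 k (g i)) := by
      rw [Finset.sum_eq_single k]
      · rw [if_pos rfl]
      · intro k' _ hk'
        exact if_neg fun h => hk' (hinj h).symm
      · intro h
        exact absurd (Finset.mem_univ k) h
    rw [h2, zero_sub]
  have hkey : ∀ i, |(ℓ f0 : ℝ)| ≤ 2 ^ m * X / M0 * M (g i) := by
    intro i
    have h1 := hb f0
    rw [hprod] at h1
    have h2 : |(ℓ f0 : ℝ)| * M0 ^ m ≤ X * ∏ i, M (g i) := by
      refine le_of_mul_le_mul_right ?_ hPf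
      calc |(ℓ f0 : ℝ)| * M0 ^ m * ∏ k, M (f0 k)
          = |(ℓ f0 : ℝ)| * (∏ k, M (f0 k)) * M0 ^ m := by ring
        _ ≤ X * ((∏ i, M (g i)) * ∏ k, M (f0 k)) := h1
        _ = X * (∏ i, M (g i)) * ∏ k, M (f0 k) := by ring
    have h3 : ∏ i', M (g i') = M (g i) * ∏ i' ∈ univ.erase i, M (g i') :=
      (Finset.mul_prod_erase univ (fun i' => M (g i')) (Finset.mem_univ i)).symm
    have h4 : ∏ i' ∈ univ.erase i, M (g i') ≤ (2 * M0) ^ (m - 1) := by
      calc ∏ i' ∈ univ.erase i, M (g i') ≤ ∏ _i' ∈ univ.erase i, (2 * M0) :=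
            Finset.prod_le_prod (fun i' _ => (hMp _).le) fun i' _ => hmax _
        _ = (2 * M0) ^ (m - 1) := by
            rw [Finset.prod_const, Finset.card_erase_of_mem (Finset.mem_univ i),
              Finset.card_univ, Fintype.card_fin]
    have h5 : |(ℓ f0 : ℝ)| * M0 ^ m ≤ X * (M (g i) * (2 * M0) ^ (m - 1)) := by
      refine h2.trans ?_
      rw [h3]
      exact mul_le_mul_of_nonneg_left (mul_le_mul_of_nonneg_left h4 (hMp _).le) hX
    obtain ⟨n, rfl⟩ : ∃ n, m = n + 1 := ⟨m - 1, by omega⟩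
    rw [Nat.add_sub_cancel, pow_succ, mul_pow] at h5
    have h6 : |(ℓ f0 : ℝ)| * M0 ≤ X * (M (g i) * 2 ^ n) := by
      refine le_of_mul_le_mul_right ?_ (pow_pos hM0p n)
      calc |(ℓ f0 : ℝ)| * M0 * M0 ^ n = |(ℓ f0 : ℝ)| * (M0 ^ n * M0) := by ring
        _ ≤ X * (M (g i) * (2 ^ n * M0 ^ n)) := h5
        _ = X * (M (g i) * 2 ^ n) * M0 ^ n := by ring
    rw [div_mul_eq_mul_div, le_div_iff₀ hM0p]
    refine h6.trans ?_
    have h7 : 0 ≤ X * (M (g i) * 2 ^ n) :=
      mul_nonneg hX (mul_nonneg (hMp _).le (by positivity))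
    calc X * (M (g i) * 2 ^ n) ≤ X * (M (g i) * 2 ^ n) + X * (M (g i) * 2 ^ n) := by linarith
      _ = 2 ^ (n + 1) * X * M (g i) := by ring
  have hXM : 0 ≤ 2 ^ m * X / M0 := by positivity
  refine ⟨fun i => Fh_y ℓ f0 (g i), ?_, fun i => ⟨Fh_ker A1 hγ hl f0 (g i), ?_⟩⟩
  · rw [Fintype.linearIndependent_iff]
    intro c hc i
    have h1 := congrFun hc (g i)
    rw [Finset.sum_apply] at h1
    simp only [Pi.smul_apply, smul_eq_mul, hyg, mul_ite, mul_zero, Finset.sum_ite_eq',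
      Finset.mem_univ, if_true, Pi.zero_apply] at h1
    exact (mul_eq_zero.1 h1).resolve_right hf0
  · rw [mem_wB]
    intro j
    change |((Fh_y ℓ f0 (g i) j : ℤ) : ℝ)| ≤ _
    rcases hcov j with ⟨i', rfl⟩ | ⟨k, rfl⟩
    · rw [hyg]
      by_cases h : i = i'
      · rw [if_pos h, ← h]
        exact hkey i
      · rw [if_neg h, Int.cast_zero, abs_zero]
        exact mul_nonneg hXM (hMp _).le
    · rw [hyf, Int.cast_neg, abs_neg]
      have h1 : |(ℓ (Function.update f0 k (g i)) : ℝ)| *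
          ∏ k', M (Function.update f0 k (g i) k') ≤ |(ℓ f0 : ℝ)| * ∏ k, M (f0 k) :=
        hmx (Function.update f0 k (g i))
      have h2 : ∏ k', M (Function.update f0 k (g i) k') =
          M (g i) * ∏ k' ∈ univ.erase k, M (f0 k') := by
        rw [← Finset.mul_prod_erase univ _ (Finset.mem_univ k), Function.update_self]
        congr 1
        refine Finset.prod_congr rfl fun k' hk' => ?_
        rw [Function.update_of_ne (Finset.ne_of_mem_erase hk')]
      have h3 : ∏ k', M (f0 k') = M (f0 k) * ∏ k' ∈ univ.erase k, M (f0 k') :=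
        (Finset.mul_prod_erase univ (fun k' => M (f0 k')) (Finset.mem_univ k)).symm
      have hE : 0 < ∏ k' ∈ univ.erase k, M (f0 k') := Finset.prod_pos fun k _ => hMp _
      rw [h2, h3] at h1
      have h4 : |(ℓ (Function.update f0 k (g i)) : ℝ)| * M (g i) ≤
          |(ℓ f0 : ℝ)| * M (f0 k) := by
        refine le_of_mul_le_mul_right ?_ hE
        calc |(ℓ (Function.update f0 k (g i)) : ℝ)| * M (g i) * ∏ k' ∈ univ.erase k, M (f0 k')
            = |(ℓ (Function.update f0 k (g i)) : ℝ)| *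
              (M (g i) * ∏ k' ∈ univ.erase k, M (f0 k')) := by ring
          _ ≤ |(ℓ f0 : ℝ)| * (M (f0 k) * ∏ k' ∈ univ.erase k, M (f0 k')) := h1
          _ = |(ℓ f0 : ℝ)| * M (f0 k) * ∏ k' ∈ univ.erase k, M (f0 k') := by ring
      refine le_of_mul_le_mul_right ?_ (hMp (g i))
      calc |(ℓ (Function.update f0 k (g i)) : ℝ)| * M (g i)
          ≤ |(ℓ f0 : ℝ)| * M (f0 k) := h4
        _ ≤ 2 ^ m * X / M0 * M (g i) * M (f0 k) :=
            mul_le_mul_of_nonneg_right (hkey i) (hMp _).le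
        _ = 2 ^ m * X / M0 * M (f0 k) * M (g i) := by ring

end Pool.Agent.SD
end

section

/-!
# Regularisation of generalised boxes

Starting with a box `N0`, a homomorphism `L0` to the plane and a finite set `A`, we drop short coordinates and divide by
short kernel vectors until all sides and all kernel vectors are long, with polylogarithmic losses.
-/

set_option autoImplicit false

open scoped ComplexConjugate
open Finset

namespace Pool.Agent.SD

theorem reg_par_sub {θ z w : ℂ} (hz : par θ z) (hw : par θ w) : par θ (z - w) := by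
  unfold par at *
  rw [mul_sub, Complex.sub_im, hz, hw, sub_zero]

open Classical in
/-- The points of `A` in `z + L (box)`. -/
noncomputable def pts (A : Finset ℂ) {d : ℕ} (N : Fin d → ℝ) (L : (Fin d → ℤ) →+ ℂ) (z : ℂ) : Finset ℂ :=
  A.filter fun a => ∃ x ∈ wB N 1, a = z + L x

open Classical in
/-- The points of `L (box)` in the direction `θ`. -/
noncomputable def dir {d : ℕ} (N : Fin d → ℝ) (L : (Fin d → ℤ) →+ ℂ) (θ : ℂ) : Finset ℂ :=
  ((wB N 1).image L).filter fun p => par θ p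

theorem mem_pts {A : Finset ℂ} {d : ℕ} {N : Fin d → ℝ} {L : (Fin d → ℤ) →+ ℂ} {z a : ℂ} :
    a ∈ pts A N L z ↔ a ∈ A ∧ ∃ x ∈ wB N 1, a = z + L x := by
  unfold pts
  rw [mem_filter]

theorem mem_dir {d : ℕ} {N : Fin d → ℝ} {L : (Fin d → ℤ) →+ ℂ} {θ p : ℂ} :
    p ∈ dir N L θ ↔ (∃ x ∈ wB N 1, L x = p) ∧ par θ p := by
  simp only [dir, mem_filter, mem_image]

/-- Pigeonhole. -/
theorem pigeon {α : Type*} [DecidableEq α] (S : Finset α) (g : α → ℤ) {T : ℝ} (hT : 1 ≤ T)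
    (hg : ∀ a ∈ S, |(g a : ℝ)| ≤ T) (hS : S.Nonempty) :
    ∃ c : ℤ, (S.filter fun a => g a = c).Nonempty ∧ (S.card : ℝ) ≤ 3 * T * (S.filter fun a => g a = c).card := by
  classical
  set I : Finset ℤ := Finset.Icc (-⌊T⌋) ⌊T⌋ with hI
  have hmaps : ∀ a ∈ S, g a ∈ I := by
    intro a ha
    rw [hI, Finset.mem_Icc, ← abs_le, Int.le_floor]
    push_cast
    exact hg a ha
  obtain ⟨a0, ha0⟩ := hS
  have hIne : I.Nonempty := ⟨g a0, hmaps a0 ha0⟩
  obtain ⟨c, hc, hmax⟩ := I.exists_max_image (fun c => (S.filter fun a => g a = c).card) hIne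
  have h1 : S.card ≤ (S.filter fun a => g a = c).card * I.card :=
    card_le_mul_card_image_of_maps_to hmaps _ fun b hb => hmax b hb
  have hfl : (0 : ℤ) ≤ ⌊T⌋ := Int.floor_nonneg.mpr (by linarith)
  have hIc : (I.card : ℝ) ≤ 3 * T := by
    rw [hI, Int.card_Icc]
    have : (((⌊T⌋ + 1 - -⌊T⌋).toNat : ℤ) : ℝ) = ((⌊T⌋ + 1 - -⌊T⌋ : ℤ) : ℝ) := by
      rw [Int.toNat_of_nonneg (by omega)]
    rw [← Int.cast_natCast, this]
    push_cast
    have := Int.floor_le T
    linarith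
  refine ⟨c, ?_, ?_⟩
  · rw [← card_pos]
    have h2 := hmax (g a0) (hmaps a0 ha0)
    have h3 : 0 < (S.filter fun a => g a = g a0).card := card_pos.mpr ⟨a0, mem_filter.mpr ⟨ha0, rfl⟩⟩
    omega
  · calc (S.card : ℝ) ≤ (S.filter fun a => g a = c).card * I.card := by exact_mod_cast h1
      _ ≤ (S.filter fun a => g a = c).card * (3 * T) := by gcongr
      _ = 3 * T * (S.filter fun a => g a = c).card := by ring

/-- Insert a zero coordinate. -/
noncomputable def ins {m : ℕ} (i : Fin (m + 1)) : (Fin m → ℤ) →+ (Fin (m + 1) → ℤ) where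
  toFun y := i.insertNth (α := fun _ => ℤ) 0 y
  map_zero' := by
    ext j
    refine Fin.succAboveCases i ?_ (fun j => ?_) j
    · simp
    · simp
  map_add' y z := by
    ext j
    refine Fin.succAboveCases i ?_ (fun j => ?_) j
    · simp
    · simp

theorem ins_eq {m : ℕ} {i : Fin (m + 1)} {x : Fin (m + 1) → ℤ} (hx : x i = 0) :
    ins i (fun j => x (i.succAbove j)) = x := by
  ext j
  refine Fin.succAboveCases i ?_ (fun j => ?_) j
  · simp [ins, hx]
  · simp [ins]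

theorem card_wB {d : ℕ} {N : Fin d → ℝ} {R : ℝ} (hN : ∀ i, 0 ≤ R * N i) :
    ((wB N R).card : ℝ) = ∏ i, (2 * (⌊R * N i⌋ : ℝ) + 1) := by
  unfold wB
  rw [Fintype.card_piFinset, Nat.cast_prod]
  refine prod_congr rfl fun i _ => ?_
  rw [Int.card_Icc]
  have h4 : (0 : ℤ) ≤ ⌊R * N i⌋ := Int.floor_nonneg.mpr (hN i)
  have : (((⌊R * N i⌋ + 1 - -⌊R * N i⌋).toNat : ℤ) : ℝ) = ((⌊R * N i⌋ + 1 - -⌊R * N i⌋ : ℤ) : ℝ) := by
    rw [Int.toNat_of_nonneg (by omega)]
  rw [← Int.cast_natCast, this]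
  push_cast
  ring

/-- Dropping a short coordinate. -/
theorem drop_step {m : ℕ} {N : Fin (m + 1) → ℝ} (hN : ∀ i, 1 ≤ N i) {T : ℝ} (hT : 1 ≤ T) {i : Fin (m + 1)}
    (hi : N i < T) (L : (Fin (m + 1) → ℤ) →+ ℂ) :
    ∃ (N' : Fin m → ℝ) (L' : (Fin m → ℤ) →+ ℂ), (∀ j, 1 ≤ N' j) ∧
      ((wB N' 1).card : ℝ) ≤ 3 ^ m * (wB N 1).card ∧
      (∀ (A : Finset ℂ) (z : ℂ), ∃ z' : ℂ, ((pts A N L z).card : ℝ) ≤ 3 * T * (pts A N' L' z').card) ∧
      ∀ θ, ((dir N L θ).card : ℝ) ≤ 3 * T * (dir N' L' θ).card := by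
  classical
  set N' : Fin m → ℝ := fun j => 2 * N (i.succAbove j) with hN'
  set L' : (Fin m → ℤ) →+ ℂ := L.comp (ins i) with hL'
  have hcard : ((wB N' 1).card : ℝ) ≤ 3 ^ m * (wB N 1).card := by
    rw [card_wB (fun j => by rw [hN']; have := hN (i.succAbove j); linarith),
      card_wB (fun j => by have := hN j; linarith), Fin.prod_univ_succAbove _ i]
    have h0 : (1 : ℝ) ≤ 2 * (⌊1 * N i⌋ : ℝ) + 1 := by
      have : (0 : ℤ) ≤ ⌊1 * N i⌋ := Int.floor_nonneg.mpr (by have := hN i; linarith)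
      have : (0 : ℝ) ≤ (⌊1 * N i⌋ : ℝ) := by exact_mod_cast this
      linarith
    have h1 : ∏ j, (2 * (⌊1 * N' j⌋ : ℝ) + 1) ≤ ∏ j : Fin m, 3 * (2 * (⌊1 * N (i.succAbove j)⌋ : ℝ) + 1) := by
      refine prod_le_prod (fun j _ => ?_) fun j _ => ?_
      · have : (0 : ℤ) ≤ ⌊1 * N' j⌋ := Int.floor_nonneg.mpr (by rw [hN']; have := hN (i.succAbove j); linarith)
        have : (0 : ℝ) ≤ (⌊1 * N' j⌋ : ℝ) := by exact_mod_cast this
        linarith
      · have h2 : (⌊1 * N' j⌋ : ℝ) ≤ 1 * N' j := Int.floor_le _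
        have h3 : 1 * N (i.succAbove j) < ⌊1 * N (i.succAbove j)⌋ + 1 := Int.lt_floor_add_one _
        have h4 : (0 : ℤ) ≤ ⌊1 * N (i.succAbove j)⌋ :=
          Int.floor_nonneg.mpr (by have := hN (i.succAbove j); linarith)
        have h5 : N' j = 2 * N (i.succAbove j) := rfl
        have h6 : (⌊1 * N' j⌋ : ℤ) < 2 * (⌊1 * N (i.succAbove j)⌋ + 1) := by
          have : ((⌊1 * N' j⌋ : ℤ) : ℝ) < ((2 * (⌊1 * N (i.succAbove j)⌋ + 1) : ℤ) : ℝ) := by
            push_cast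
            rw [h5] at h2 ⊢
            linarith
          exact_mod_cast this
        have h7 : ((2 * ⌊1 * N' j⌋ + 1 : ℤ) : ℝ) ≤ ((3 * (2 * ⌊1 * N (i.succAbove j)⌋ + 1) : ℤ) : ℝ) := by
          exact_mod_cast (by omega : 2 * ⌊1 * N' j⌋ + 1 ≤ 3 * (2 * ⌊1 * N (i.succAbove j)⌋ + 1))
        push_cast at h7
        exact h7
    have h8 : ∏ j : Fin m, 3 * (2 * (⌊1 * N (i.succAbove j)⌋ : ℝ) + 1) =
        3 ^ m * ∏ j : Fin m, (2 * (⌊1 * N (i.succAbove j)⌋ : ℝ) + 1) := by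
      rw [prod_mul_distrib, prod_const, card_univ, Fintype.card_fin]
    rw [h8] at h1
    refine h1.trans ?_
    have h9 : 0 ≤ ∏ j : Fin m, (2 * (⌊1 * N (i.succAbove j)⌋ : ℝ) + 1) := by
      refine prod_nonneg fun j _ => ?_
      have : (0 : ℤ) ≤ ⌊1 * N (i.succAbove j)⌋ := Int.floor_nonneg.mpr (by have := hN (i.succAbove j); linarith)
      have : (0 : ℝ) ≤ (⌊1 * N (i.succAbove j)⌋ : ℝ) := by exact_mod_cast this
      linarith
    gcongr
    nlinarith
  -- the key fact on differences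
  have hdiff : ∀ x ∈ wB N 1, ∀ y ∈ wB N 1, x i = y i →
      (fun j => (x - y) (i.succAbove j)) ∈ wB N' 1 ∧ L' (fun j => (x - y) (i.succAbove j)) = L x - L y := by
    intro x hx y hy hxy
    rw [mem_wB] at hx hy
    refine ⟨mem_wB.mpr fun j => ?_, ?_⟩
    · have h1 := hx (i.succAbove j)
      have h2 := hy (i.succAbove j)
      have h3 : N' j = 2 * N (i.succAbove j) := rfl
      rw [h3, Pi.sub_apply, Int.cast_sub]
      calc |(x (i.succAbove j) : ℝ) - y (i.succAbove j)| ≤ |(x (i.succAbove j) : ℝ)| + |(y (i.succAbove j) : ℝ)| :=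
            abs_sub _ _
        _ ≤ 1 * (2 * N (i.succAbove j)) := by linarith
    · have h1 : ins i (fun j => (x - y) (i.succAbove j)) = x - y := ins_eq (by simp [hxy])
      rw [hL', AddMonoidHom.comp_apply, h1, map_sub]
  have hdir : ∀ θ, ((dir N L θ).card : ℝ) ≤ 3 * T * (dir N' L' θ).card := by
    intro θ
    have hex : ∀ p ∈ dir N L θ, ∃ x ∈ wB N 1, L x = p := fun p hp => (mem_dir.mp hp).1
    choose! x hx1 hx2 using hex
    have hne : (dir N L θ).Nonempty := by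
      refine ⟨0, mem_dir.mpr ⟨⟨0, mem_wB.mpr fun j => ?_, map_zero L⟩, ?_⟩⟩
      · have := hN j
        simp only [Pi.zero_apply, Int.cast_zero, abs_zero]
        linarith
      · unfold par; simp
    obtain ⟨c, ⟨p0, hp0⟩, hle⟩ := pigeon (dir N L θ) (fun p => x p i) hT (fun p hp => by
      have := (mem_wB.mp (hx1 p hp)) i
      linarith) hne
    rw [mem_filter] at hp0
    refine hle.trans ?_
    have h1 : ((dir N L θ).filter fun p => x p i = c).card ≤ (dir N' L' θ).card := by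
      refine card_le_card_of_injOn (fun p => p - p0) ?_ (fun a _ b _ hab => by simpa using hab)
      intro p hp
      have hp' := mem_filter.mp (mem_coe.mp hp)
      obtain ⟨h2, h3⟩ := hdiff (x p) (hx1 p hp'.1) (x p0) (hx1 p0 hp0.1) (by rw [hp'.2, hp0.2])
      refine mem_coe.mpr (mem_dir.mpr ⟨⟨_, h2, ?_⟩, ?_⟩)
      · rw [h3, hx2 p hp'.1, hx2 p0 hp0.1]
      · exact reg_par_sub (mem_dir.mp hp'.1).2 (mem_dir.mp hp0.1).2
    have hT0 : (0 : ℝ) ≤ 3 * T := by linarith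
    gcongr
  refine ⟨N', L', fun j => ?_, hcard, fun A z => ?_, hdir⟩
  · have := hN (i.succAbove j)
    change 1 ≤ 2 * N (i.succAbove j)
    linarith
  rcases (pts A N L z).eq_empty_or_nonempty with hemp | hne
  · refine ⟨z, ?_⟩
    rw [hemp, card_empty, Nat.cast_zero]
    positivity
  · have hex : ∀ p ∈ pts A N L z, ∃ x ∈ wB N 1, p = z + L x := fun p hp => (mem_pts.mp hp).2
    choose! x hx1 hx2 using hex
    obtain ⟨c, ⟨p0, hp0⟩, hle⟩ := pigeon (pts A N L z) (fun p => x p i) hT (fun p hp => by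
      have := (mem_wB.mp (hx1 p hp)) i
      linarith) hne
    rw [mem_filter] at hp0
    refine ⟨p0, ?_⟩
    · refine hle.trans ?_
      have h1 : ((pts A N L z).filter fun p => x p i = c).card ≤ (pts A N' L' p0).card := by
        refine card_le_card fun p hp => ?_
        have hp' := mem_filter.mp hp
        obtain ⟨h2, h3⟩ := hdiff (x p) (hx1 p hp'.1) (x p0) (hx1 p0 hp0.1) (by rw [hp'.2, hp0.2])
        refine mem_pts.mpr ⟨(mem_pts.mp hp'.1).1, _, h2, ?_⟩
        rw [h3]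
        linear_combination (hx2 p hp'.1) - (hx2 p0 hp0.1)
      have hT0 : (0 : ℝ) ≤ 3 * T := by linarith
      gcongr

/-- Dividing by a short kernel vector. -/
theorem quot_step (m : ℕ) : ∃ K : ℝ, 1 ≤ K ∧ ∀ {N : Fin (m + 1) → ℝ} (_ : ∀ i, 1 ≤ N i) {T : ℝ} (_ : 1 ≤ T)
    (L : (Fin (m + 1) → ℤ) →+ ℂ) {k : Fin (m + 1) → ℤ} (_ : k ≠ 0) (_ : k ∈ wB N T) (_ : L k = 0),
    ∃ (N' : Fin m → ℝ) (L' : (Fin m → ℤ) →+ ℂ), (∀ j, 1 ≤ N' j) ∧
      ((wB N' 1).card : ℝ) ≤ K * T ^ (m + 1) * (wB N 1).card ∧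
      ∀ x ∈ wB N 1, ∃ y ∈ wB N' 1, L' y = L x := by
  classical
  obtain ⟨C, hC, HC⟩ := exists_reduced m
  refine ⟨3 ^ m * (3 * (m * C + 1)) ^ (m + 1), ?_, ?_⟩
  · have h1 : (1 : ℝ) ≤ 3 ^ m := one_le_pow₀ (by norm_num)
    have h2 : (1 : ℝ) ≤ (3 * (m * C + 1)) ^ (m + 1) := one_le_pow₀ (by
      have : (0 : ℝ) ≤ m * C := by positivity
      linarith)
    nlinarith
  intro N hN T hT L k hk hkT hLk
  have hNpos : ∀ i, 0 < N i := fun i => by have := hN i; linarith
  set ν : LNorm (Fin (m + 1) → ℤ) := bN N hNpos with hν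
  obtain ⟨b, ⟨hbL, hb0⟩, hmin⟩ := ν.exists_min (S := {x | x ∈ Kr L ∧ x ≠ 0}) ⟨k, hLk, hk⟩
  have hbT : ν b ≤ T := by
    refine (hmin k ⟨hLk, hk⟩).trans ?_
    rw [hν, bN_le (by linarith)]
    exact mem_wB.mp hkT
  have htf : Module.IsTorsionFree ℤ ((Fin (m + 1) → ℤ) ⧸ (Submodule.span ℤ {b})) := by
    refine torsionFree_quo ν (Kr L) ?_ hb0 hbL fun x hx hx0 => hmin x ⟨hx, hx0⟩
    intro n x hn hx
    rw [mem_Kr, map_zsmul] at hx
    rw [mem_Kr]
    exact (smul_eq_zero.mp hx).resolve_left hn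
  have hfr : Module.finrank ℤ ((Fin (m + 1) → ℤ) ⧸ (Submodule.span ℤ {b})) = m :=
    finrank_quot hb0 (by simp)
  set ν' : LNorm ((Fin (m + 1) → ℤ) ⧸ (Submodule.span ℤ {b})) := ν.quo b with hν'
  obtain ⟨e, he⟩ := HC _ hfr ν'.val ν'.isLN
  have hpos : ∀ i : Fin m, 0 < ν' (e.symm (Pi.single i 1)) := by
    intro i
    refine ν'.pos _ fun h => ?_
    rw [e.symm.map_eq_zero_iff] at h
    have h3 := congrFun h i
    simp at h3
  set N2 : Fin m → ℝ := fun i => C / ν' (e.symm (Pi.single i 1)) with hN2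
  have hN2pos : ∀ i, 0 < N2 i := fun i => div_pos (by linarith) (hpos i)
  set N' : Fin m → ℝ := fun i => max 1 (N2 i) with hN'
  have hspan : Submodule.span ℤ {b} ≤ LinearMap.ker L.toIntLinearMap := by
    rw [Submodule.span_singleton_le_iff_mem]
    exact hbL
  set L2 : ((Fin (m + 1) → ℤ) ⧸ (Submodule.span ℤ {b})) →ₗ[ℤ] ℂ :=
    (Submodule.span ℤ {b}).liftQ L.toIntLinearMap hspan with hL2
  set L' : (Fin m → ℤ) →+ ℂ := (L2.comp e.symm.toLinearMap).toAddMonoidHom with hL'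
  refine ⟨N', L', fun j => le_max_left _ _, ?_, ?_⟩
  · have h1 : ((wB N' 1).card : ℝ) ≤ 3 ^ m * (wB N2 1).card := by
      rw [card_wB (fun j => by have : (1 : ℝ) ≤ N' j := le_max_left _ _; linarith),
        card_wB (fun j => by have := hN2pos j; linarith)]
      have h2 : ∏ i : Fin m, (2 * (⌊1 * N' i⌋ : ℝ) + 1) ≤ ∏ i : Fin m, 3 * (2 * (⌊1 * N2 i⌋ : ℝ) + 1) := by
        refine prod_le_prod (fun j _ => ?_) fun j _ => ?_
        · have : (0 : ℤ) ≤ ⌊1 * N' j⌋ := Int.floor_nonneg.mpr (by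
            have : (1 : ℝ) ≤ N' j := le_max_left _ _
            linarith)
          have : (0 : ℝ) ≤ (⌊1 * N' j⌋ : ℝ) := by exact_mod_cast this
          linarith
        · have h3 : (0 : ℤ) ≤ ⌊1 * N2 j⌋ := Int.floor_nonneg.mpr (by have := hN2pos j; linarith)
          have h3' : (0 : ℝ) ≤ (⌊1 * N2 j⌋ : ℝ) := by exact_mod_cast h3
          rcases le_total 1 (N2 j) with h4 | h4
          · have h5 : N' j = N2 j := max_eq_right h4
            rw [h5]
            linarith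
          · have h5 : N' j = 1 := max_eq_left h4
            rw [h5]
            simp only [one_mul, Int.floor_one, Int.cast_one] at h3' ⊢
            linarith
      refine h2.trans_eq ?_
      rw [prod_mul_distrib, prod_const, card_univ, Fintype.card_fin]
    have h2 : (wB N2 1).card ≤ (wB N (m * C + T)).card := by
      have hlift : ∀ y : Fin m → ℤ, ∃ x : Fin (m + 1) → ℤ, Submodule.Quotient.mk x = e.symm y ∧
          ν x ≤ ν' (e.symm y) + 3 / 4 * ν b := fun y => ν.quo_lift b hb0 (e.symm y)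
      choose g hg1 hg2 using hlift
      refine card_le_card_of_injOn g ?_ ?_
      · intro y hy
        have hy' := mem_wB.mp (mem_coe.mp hy)
        refine mem_coe.mpr (mem_wB.mpr ?_)
        have hmC : (0 : ℝ) ≤ m * C := by positivity
        rw [← bN_le (hN := hNpos) (by linarith)]
        have h3 : e.symm y = ∑ i, y i • e.symm (Pi.single i 1) := by
          have h4 : y = ∑ i : Fin m, y i • (Pi.single i 1 : Fin m → ℤ) := by
            ext j
            simp [Finset.sum_apply, Pi.single_apply]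
          conv_lhs => rw [h4]
          rw [map_sum]
          exact sum_congr rfl fun i _ => by rw [map_smul]
        have h5 : ν' (e.symm y) ≤ m * C := by
          rw [h3]
          calc ν' (∑ i, y i • e.symm (Pi.single i 1)) ≤ ∑ i, ν' (y i • e.symm (Pi.single i 1)) := ν'.sum_le _ _
            _ ≤ ∑ _i : Fin m, C := by
                gcongr with i _
                rw [ν'.smul]
                have h6 := hy' i
                rw [one_mul] at h6
                have h7 : N2 i = C / ν' (e.symm (Pi.single i 1)) := rfl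
                rw [h7, le_div_iff₀ (hpos i)] at h6
                exact h6
            _ = m * C := by simp
        have h8 := hg2 y
        have h9 := ν.nonneg b
        change ν (g y) ≤ m * C + T
        linarith
      · intro y _ y' _ hyy
        have h3 : e.symm y = e.symm y' := by rw [← hg1 y, ← hg1 y', hyy]
        exact e.symm.injective h3
    have h3 : ((wB N (m * C + T)).card : ℝ) ≤ (3 * (m * C + 1)) ^ (m + 1) * T ^ (m + 1) * (wB N 1).card := by
      have hmC : (0 : ℝ) ≤ m * C := by positivity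
      rw [card_wB (fun j => by have := hNpos j; positivity), card_wB (fun j => by have := hNpos j; linarith),
        ← mul_pow]
      have h4 : (3 * (m * C + 1) * T) ^ (m + 1) * ∏ i : Fin (m + 1), (2 * (⌊1 * N i⌋ : ℝ) + 1) =
          ∏ i : Fin (m + 1), (3 * (m * C + 1) * T) * (2 * (⌊1 * N i⌋ : ℝ) + 1) := by
        rw [prod_mul_distrib, prod_const, card_univ, Fintype.card_fin]
      rw [h4]
      refine prod_le_prod (fun j _ => ?_) fun j _ => ?_
      · have : (0 : ℤ) ≤ ⌊(m * C + T) * N j⌋ := Int.floor_nonneg.mpr (by have := hNpos j; positivity)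
        have : (0 : ℝ) ≤ (⌊(m * C + T) * N j⌋ : ℝ) := by exact_mod_cast this
        linarith
      · have h5 : (⌊(m * C + T) * N j⌋ : ℝ) ≤ (m * C + T) * N j := Int.floor_le _
        have h6 : 1 * N j < ⌊1 * N j⌋ + 1 := Int.lt_floor_add_one _
        have h7 := hN j
        have h8 : N j ≤ 2 * (⌊1 * N j⌋ : ℝ) + 1 := by linarith
        have h9 : m * C + T ≤ (m * C + 1) * T := by nlinarith
        have h10 : 0 ≤ (m * C + 1) * T := by positivity
        calc 2 * (⌊(m * C + T) * N j⌋ : ℝ) + 1 ≤ 2 * ((m * C + T) * N j) + 1 := by linarith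
          _ ≤ 2 * ((m * C + 1) * T * N j) + (m * C + 1) * T * N j := by
              have h11 : (m * C + T) * N j ≤ (m * C + 1) * T * N j := by gcongr
              have h12 : 1 ≤ (m * C + 1) * T * N j := by
                have : 1 ≤ (m * C + 1) * T := by nlinarith
                nlinarith
              linarith
          _ = 3 * (m * C + 1) * T * N j := by ring
          _ ≤ 3 * (m * C + 1) * T * (2 * (⌊1 * N j⌋ : ℝ) + 1) := by gcongr
    calc ((wB N' 1).card : ℝ) ≤ 3 ^ m * (wB N2 1).card := h1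
      _ ≤ 3 ^ m * (wB N (m * C + T)).card := by gcongr
      _ ≤ 3 ^ m * ((3 * (m * C + 1)) ^ (m + 1) * T ^ (m + 1) * (wB N 1).card) := by gcongr
      _ = 3 ^ m * (3 * (m * C + 1)) ^ (m + 1) * T ^ (m + 1) * (wB N 1).card := by ring
  · intro x hx
    refine ⟨e (Submodule.Quotient.mk x), mem_wB.mpr fun i => ?_, ?_⟩
    · have h1 := he (Submodule.Quotient.mk x) i
      have h2 : ν' (Submodule.Quotient.mk x) ≤ ν x := ν.quo_le b x
      have h3 : ν x ≤ 1 := by
        rw [hν, bN_le (by norm_num)]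
        exact mem_wB.mp hx
      rw [one_mul]
      refine le_trans ?_ (le_max_right _ _)
      rw [le_div_iff₀ (hpos i)]
      calc _ ≤ C * ν' (Submodule.Quotient.mk x) := h1
        _ ≤ C * 1 := by gcongr; linarith
        _ = C := mul_one C
    · have h1 : L' (e (Submodule.Quotient.mk x)) = L2 (e.symm (e (Submodule.Quotient.mk x))) := rfl
      rw [h1, LinearEquiv.symm_apply_apply, hL2, Submodule.liftQ_apply]
      rfl

/-- The data `(d, N, L)` is obtained from `(d0, N0, L0)` with loss `s`. -/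
structure RegTo {d0 : ℕ} (N0 : Fin d0 → ℝ) (L0 : (Fin d0 → ℤ) →+ ℂ)
    {d : ℕ} (N : Fin d → ℝ) (L : (Fin d → ℤ) →+ ℂ) (s : ℝ) : Prop where
  /-- the sides are at least one -/
  side : ∀ i, 1 ≤ N i
  /-- the box is not much bigger -/
  card : ((wB N 1).card : ℝ) ≤ s * (wB N0 1).card
  /-- many points of `A` are kept -/
  pts : ∀ (A : Finset ℂ) (z0 : ℂ), ∃ z : ℂ, ((pts A N0 L0 z0).card : ℝ) ≤ s * (pts A N L z).card
  /-- many points in every direction are kept -/
  dir : ∀ θ, ((dir N0 L0 θ).card : ℝ) ≤ s * (dir N L θ).card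

theorem RegTo.refl {d0 : ℕ} {N0 : Fin d0 → ℝ} (hN : ∀ i, 1 ≤ N0 i) (L0 : (Fin d0 → ℤ) →+ ℂ)
    {s : ℝ} (hs : 1 ≤ s) : RegTo N0 L0 N0 L0 s where
  side := hN
  card := le_mul_of_one_le_left (Nat.cast_nonneg _) hs
  pts _ z0 := ⟨z0, le_mul_of_one_le_left (Nat.cast_nonneg _) hs⟩
  dir _ := le_mul_of_one_le_left (Nat.cast_nonneg _) hs

/-- One step of the regularisation. -/
theorem reg_step (m a : ℕ) : ∃ F : ℕ, 1 ≤ F ∧ ∀ {d0 : ℕ} (N0 : Fin d0 → ℝ)
    (L0 : (Fin d0 → ℤ) →+ ℂ) (N : Fin (m + 1) → ℝ) (L : (Fin (m + 1) → ℤ) →+ ℂ) (s : ℝ),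
    3 / 2 ≤ s → RegTo N0 L0 N L s →
    ¬((∀ i, s ^ a ≤ N i) ∧ ∀ k ∈ wB N (s ^ a), L k = 0 → k = 0) →
    ∃ (N' : Fin m → ℝ) (L' : (Fin m → ℤ) →+ ℂ), RegTo N0 L0 N' L' (s ^ F) := by
  obtain ⟨K, hK, HK⟩ := quot_step m
  obtain ⟨c, hc⟩ := pow_unbounded_of_one_lt (max (3 ^ (m + 1)) K) (by norm_num : (1 : ℝ) < 3 / 2)
  refine ⟨1 + c + a * (m + 1), by omega, ?_⟩
  intro d0 N0 L0 N L s hs hR hnot
  have hs1 : (1 : ℝ) ≤ s := by linarith
  have hs0 : (0 : ℝ) < s := by linarith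
  have hcs : max (3 ^ (m + 1)) K ≤ s ^ c := hc.le.trans (by gcongr)
  have hc1 : (3 : ℝ) ^ (m + 1) ≤ s ^ c := (le_max_left _ _).trans hcs
  have hc2 : K ≤ s ^ c := (le_max_right _ _).trans hcs
  have hT : 1 ≤ s ^ a := one_le_pow₀ hs1
  have hF : s ^ (1 + c + a * (m + 1)) = s * s ^ c * (s ^ a) ^ (m + 1) := by
    rw [pow_add, pow_add, pow_one, pow_mul]
  have hTm : s ^ a ≤ (s ^ a) ^ (m + 1) := by
    calc s ^ a = (s ^ a) ^ 1 := (pow_one _).symm
      _ ≤ (s ^ a) ^ (m + 1) := pow_le_pow_right₀ hT (by omega)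
  rw [not_and_or] at hnot
  rcases hnot with h | h
  · push Not at h
    obtain ⟨i, hi⟩ := h
    obtain ⟨N', L', h1, h2, h3, h4⟩ := drop_step hR.side hT hi L
    have h3m : (3 : ℝ) ^ m ≤ s ^ c := le_trans (pow_le_pow_right₀ (by norm_num) (by omega)) hc1
    have h31 : (3 : ℝ) ≤ s ^ c := by
      calc (3 : ℝ) = 3 ^ 1 := (pow_one _).symm
        _ ≤ 3 ^ (m + 1) := pow_le_pow_right₀ (by norm_num) (by omega)
        _ ≤ s ^ c := hc1
    have hloss : s * (3 * s ^ a) ≤ s ^ (1 + c + a * (m + 1)) := by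
      rw [hF]
      calc s * (3 * s ^ a) ≤ s * (s ^ c * (s ^ a) ^ (m + 1)) := by gcongr
        _ = s * s ^ c * (s ^ a) ^ (m + 1) := by ring
    refine ⟨N', L', h1, ?_, fun A z0 => ?_, fun θ => ?_⟩
    · calc ((wB N' 1).card : ℝ) ≤ 3 ^ m * (wB N 1).card := h2
        _ ≤ 3 ^ m * (s * (wB N0 1).card) := by gcongr; exact hR.card
        _ = (s * 3 ^ m) * (wB N0 1).card := by ring
        _ ≤ s ^ (1 + c + a * (m + 1)) * (wB N0 1).card := by
            gcongr
            rw [hF]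
            calc s * 3 ^ m ≤ s * s ^ c := by gcongr
              _ = s * s ^ c * 1 := (mul_one _).symm
              _ ≤ s * s ^ c * (s ^ a) ^ (m + 1) := by gcongr; exact one_le_pow₀ hT
    · obtain ⟨z, hz⟩ := hR.pts A z0
      obtain ⟨z', hz'⟩ := h3 A z
      refine ⟨z', ?_⟩
      calc ((pts A N0 L0 z0).card : ℝ) ≤ s * (pts A N L z).card := hz
        _ ≤ s * (3 * s ^ a * (pts A N' L' z').card) := by gcongr
        _ = s * (3 * s ^ a) * (pts A N' L' z').card := by ring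
        _ ≤ s ^ (1 + c + a * (m + 1)) * (pts A N' L' z').card := by gcongr
    · calc ((dir N0 L0 θ).card : ℝ) ≤ s * (dir N L θ).card := hR.dir θ
        _ ≤ s * (3 * s ^ a * (dir N' L' θ).card) := by gcongr; exact h4 θ
        _ = s * (3 * s ^ a) * (dir N' L' θ).card := by ring
        _ ≤ s ^ (1 + c + a * (m + 1)) * (dir N' L' θ).card := by gcongr
  · push Not at h
    obtain ⟨k, hk1, hk2, hk3⟩ := h
    obtain ⟨N', L', h1, h2, h3⟩ := HK hR.side hT L hk3 hk1 hk2
    have hs2 : s ≤ s ^ (1 + c + a * (m + 1)) := by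
      calc s = s ^ 1 := (pow_one _).symm
        _ ≤ s ^ (1 + c + a * (m + 1)) := pow_le_pow_right₀ hs1 (by omega)
    have hp : ∀ (A : Finset ℂ) (z : ℂ), pts A N L z ⊆ pts A N' L' z := by
      intro A z p hp
      obtain ⟨hpA, x, hx, rfl⟩ := mem_pts.mp hp
      obtain ⟨y, hy, hyx⟩ := h3 x hx
      exact mem_pts.mpr ⟨hpA, y, hy, by rw [hyx]⟩
    have hd : ∀ θ, dir N L θ ⊆ dir N' L' θ := by
      intro θ p hp
      obtain ⟨⟨x, hx, rfl⟩, hpar⟩ := mem_dir.mp hp
      obtain ⟨y, hy, hyx⟩ := h3 x hx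
      exact mem_dir.mpr ⟨⟨y, hy, hyx⟩, hpar⟩
    refine ⟨N', L', h1, ?_, fun A z0 => ?_, fun θ => ?_⟩
    · calc ((wB N' 1).card : ℝ) ≤ K * (s ^ a) ^ (m + 1) * (wB N 1).card := h2
        _ ≤ K * (s ^ a) ^ (m + 1) * (s * (wB N0 1).card) := by gcongr; exact hR.card
        _ ≤ s ^ c * (s ^ a) ^ (m + 1) * (s * (wB N0 1).card) := by gcongr
        _ = s ^ (1 + c + a * (m + 1)) * (wB N0 1).card := by rw [hF]; ring
    · obtain ⟨z, hz⟩ := hR.pts A z0
      refine ⟨z, ?_⟩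
      have h4 : ((pts A N L z).card : ℝ) ≤ (pts A N' L' z).card := by exact_mod_cast card_le_card (hp A z)
      calc ((pts A N0 L0 z0).card : ℝ) ≤ s * (pts A N L z).card := hz
        _ ≤ s ^ (1 + c + a * (m + 1)) * (pts A N' L' z).card := by gcongr
    · have h4 : ((dir N L θ).card : ℝ) ≤ (dir N' L' θ).card := by exact_mod_cast card_le_card (hd θ)
      calc ((dir N0 L0 θ).card : ℝ) ≤ s * (dir N L θ).card := hR.dir θ
        _ ≤ s ^ (1 + c + a * (m + 1)) * (dir N' L' θ).card := by gcongr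

theorem reg_aux (a d : ℕ) : ∃ E : ℕ, 1 ≤ E ∧ ∀ {d0 : ℕ} (N0 : Fin d0 → ℝ)
    (L0 : (Fin d0 → ℤ) →+ ℂ) (N : Fin d → ℝ) (L : (Fin d → ℤ) →+ ℂ) (s : ℝ),
    3 / 2 ≤ s → RegTo N0 L0 N L s →
    ∃ (d' : ℕ) (N' : Fin d' → ℝ) (L' : (Fin d' → ℤ) →+ ℂ) (s' : ℝ), d' ≤ d ∧ s ≤ s' ∧ s' ≤ s ^ E ∧
      RegTo N0 L0 N' L' s' ∧ (∀ i, s' ^ a ≤ N' i) ∧ ∀ k ∈ wB N' (s' ^ a), L' k = 0 → k = 0 := by
  induction d with
  | zero =>
    refine ⟨1, le_refl _, ?_⟩
    intro d0 N0 L0 N L s hs hR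
    exact ⟨0, N, L, s, le_refl _, le_refl _, (pow_one s).ge, hR, fun i => i.elim0, fun k _ _ => Subsingleton.elim _ _⟩
  | succ m ih =>
    obtain ⟨E, hE, HE⟩ := ih
    obtain ⟨F, hF, HF⟩ := reg_step m a
    refine ⟨F * E, Nat.mul_pos hF hE, ?_⟩
    intro d0 N0 L0 N L s hs hR
    have hs1 : (1 : ℝ) ≤ s := by linarith
    by_cases hcase : (∀ i, s ^ a ≤ N i) ∧ ∀ k ∈ wB N (s ^ a), L k = 0 → k = 0
    · refine ⟨m + 1, N, L, s, le_refl _, le_refl _, ?_, hR, hcase.1, hcase.2⟩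
      calc s = s ^ 1 := (pow_one _).symm
        _ ≤ s ^ (F * E) := pow_le_pow_right₀ hs1 (Nat.mul_pos hF hE)
    · obtain ⟨N1, L1, hR1⟩ := HF N0 L0 N L s hs hR hcase
      have hsF : s ≤ s ^ F := by
        calc s = s ^ 1 := (pow_one _).symm
          _ ≤ s ^ F := pow_le_pow_right₀ hs1 hF
      obtain ⟨d', N', L', s', h1, h2, h3, h4, h5, h6⟩ :=
        HE N0 L0 N1 L1 (s ^ F) (hs.trans hsF) hR1
      exact ⟨d', N', L', s', by omega, hsF.trans h2, by rw [pow_mul]; exact h3, h4, h5, h6⟩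

theorem regularise (a d0 : ℕ) : ∃ E : ℕ, 1 ≤ E ∧ ∀ (N0 : Fin d0 → ℝ)
    (L0 : (Fin d0 → ℤ) →+ ℂ) (s0 : ℝ), (∀ i, 1 ≤ N0 i) → 3 / 2 ≤ s0 →
    ∃ (d : ℕ) (N : Fin d → ℝ) (L : (Fin d → ℤ) →+ ℂ) (s : ℝ), d ≤ d0 ∧ s0 ≤ s ∧ s ≤ s0 ^ E ∧
      RegTo N0 L0 N L s ∧ (∀ i, s ^ a ≤ N i) ∧ ∀ k ∈ wB N (s ^ a), L k = 0 → k = 0 := by
  obtain ⟨E, hE, HE⟩ := reg_aux a d0
  refine ⟨E, hE, ?_⟩
  intro N0 L0 s0 hN hs
  exact HE N0 L0 N0 L0 s0 hs (RegTo.refl hN L0 (by linarith))

/-- Permutation of the coordinates. -/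
noncomputable def prm {d : ℕ} (σ : Equiv.Perm (Fin d)) : (Fin d → ℤ) →+ (Fin d → ℤ) where
  toFun y := fun i => y (σ.symm i)
  map_zero' := rfl
  map_add' _ _ := rfl

theorem prm_apply {d : ℕ} (σ : Equiv.Perm (Fin d)) (x : Fin d → ℤ) : prm σ (fun i => x (σ i)) = x := by
  funext i
  change x (σ (σ.symm i)) = x i
  rw [Equiv.apply_symm_apply]

theorem mem_wB_prm {d : ℕ} {σ : Equiv.Perm (Fin d)} {N : Fin d → ℝ} {R : ℝ} {y : Fin d → ℤ} :
    y ∈ wB (fun i => N (σ i)) R ↔ prm σ y ∈ wB N R := by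
  rw [mem_wB, mem_wB]
  constructor
  · intro h i
    have h1 := h (σ.symm i)
    rw [Equiv.apply_symm_apply] at h1
    exact h1
  · intro h i
    have h1 := h (σ i)
    have h2 : prm σ y (σ i) = y i := by
      change y (σ.symm (σ i)) = y i
      rw [Equiv.symm_apply_apply]
    rw [h2] at h1
    exact h1

open Classical in
/-- **Regularisation.** -/
theorem reg (a d0 : ℕ) : ∃ E : ℕ, ∀ s0 : ℝ, 0 < s0 → s0 ≤ 1 / 2 → ∀ (N0 : Fin d0 → ℝ)
    (L0 : (Fin d0 → ℤ) →+ ℂ), (∀ i, 1 ≤ N0 i) →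
    ∃ (d : ℕ) (N : Fin d → ℝ) (L : (Fin d → ℤ) →+ ℂ) (s : ℝ), d ≤ d0 ∧ s0 ^ E ≤ s ∧ s ≤ s0 ∧ Antitone N ∧
      (∀ i, (s ^ a)⁻¹ ≤ N i) ∧ (∀ x ∈ wB N ((s ^ a)⁻¹), L x = 0 → x = 0) ∧
      s * (wB N 1).card ≤ (wB N0 1).card ∧
      (∀ (A : Finset ℂ) (z0 : ℂ), ∃ z : ℂ, s * (A.filter fun b => ∃ x ∈ wB N0 1, b = z0 + L0 x).card ≤
        (A.filter fun b => ∃ x ∈ wB N 1, b = z + L x).card) ∧
      ∀ θ, s * (((wB N0 1).image L0).filter fun p => par θ p).card ≤
        (((wB N 1).image L).filter fun p => par θ p).card := by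
  obtain ⟨E, -, HE⟩ := regularise a d0
  refine ⟨E, ?_⟩
  intro s0 hs0 hs1 N0 L0 hN0
  have h32 : 3 / 2 ≤ s0⁻¹ := by
    have : (2 : ℝ) ≤ s0⁻¹ := by
      rw [le_inv_comm₀ (by norm_num) hs0]
      linarith
    linarith
  obtain ⟨d, N, L, t, h1, h2, h3, hR, h5, h6⟩ := HE N0 L0 s0⁻¹ hN0 h32
  have ht : 0 < t := by linarith
  set σ : Equiv.Perm (Fin d) := Tuple.sort (fun i => -N i) with hσ
  have hanti : Antitone (fun i => N (σ i)) := by
    have h7 := Tuple.monotone_sort (fun i => -N i)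
    intro i j hij
    have h8 := h7 hij
    simp only [Function.comp_apply] at h8
    change N (σ j) ≤ N (σ i)
    rw [hσ]
    linarith
  have hcard : ∀ R, (wB (fun i => N (σ i)) R).card = (wB N R).card := by
    intro R
    unfold wB
    rw [Fintype.card_piFinset, Fintype.card_piFinset]
    exact Equiv.prod_comp σ (fun i => (Finset.Icc (-⌊R * N i⌋) ⌊R * N i⌋).card)
  have hset : ∀ R p, (∃ y ∈ wB (fun i => N (σ i)) R, (L.comp (prm σ)) y = p) ↔ ∃ x ∈ wB N R, L x = p := by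
    intro R p
    constructor
    · rintro ⟨y, hy, rfl⟩
      exact ⟨prm σ y, mem_wB_prm.mp hy, rfl⟩
    · rintro ⟨x, hx, rfl⟩
      refine ⟨fun i => x (σ i), mem_wB_prm.mpr ?_, ?_⟩
      · rw [prm_apply]; exact hx
      · rw [AddMonoidHom.comp_apply, prm_apply]
  have hpow : ((t⁻¹) ^ a)⁻¹ = t ^ a := by rw [inv_pow, inv_inv]
  refine ⟨d, fun i => N (σ i), L.comp (prm σ), t⁻¹, h1, ?_, ?_, hanti, ?_, ?_, ?_, ?_, ?_⟩
  · rw [le_inv_comm₀ (by positivity) ht, ← inv_pow]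
    exact h3
  · rw [inv_le_comm₀ ht hs0]
    exact h2
  · intro i
    rw [hpow]
    exact h5 (σ i)
  · intro y hy hLy
    rw [hpow] at hy
    have h7 := h6 (prm σ y) (mem_wB_prm.mp hy) hLy
    funext i
    have h8 := congrFun h7 (σ i)
    have h9 : prm σ y (σ i) = y i := by
      change y (σ.symm (σ i)) = y i
      rw [Equiv.symm_apply_apply]
    rw [h9] at h8
    exact h8
  · rw [hcard, inv_mul_le_iff₀ ht]
    exact hR.card
  · intro A z0
    obtain ⟨z, hz⟩ := hR.pts A z0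
    refine ⟨z, ?_⟩
    rw [inv_mul_le_iff₀ ht]
    have h7 : (A.filter fun b => ∃ x ∈ wB (fun i => N (σ i)) 1, b = z + (L.comp (prm σ)) x) = pts A N L z := by
      unfold pts
      refine filter_congr fun b _ => ?_
      have h8 := hset 1 (b - z)
      constructor
      · rintro ⟨y, hy, hb⟩
        obtain ⟨x, hx, hx2⟩ := h8.mp ⟨y, hy, by rw [hb]; ring⟩
        exact ⟨x, hx, by rw [hx2]; ring⟩
      · rintro ⟨x, hx, hb⟩
        obtain ⟨y, hy, hy2⟩ := h8.mpr ⟨x, hx, by rw [hb]; ring⟩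
        exact ⟨y, hy, by rw [hy2]; ring⟩
    rw [h7]
    exact hz
  · intro θ
    rw [inv_mul_le_iff₀ ht]
    have h7 : ((wB (fun i => N (σ i)) 1).image (L.comp (prm σ))) = (wB N 1).image L := by
      ext p
      rw [mem_image, mem_image]
      exact hset 1 p
    rw [h7]
    exact hR.dir θ

end Pool.Agent.SD
end

section

/-!
# TASK SD AlW: large ranks occur everywhere or rarely, unequal sides (copy of `RL/Al.lean`)

PROOF.  Exactly the proof of `RL.Al` (file `RL/Al.lean`, copy it with its private lemmas under new names): all `x` with `d ≤ 2 rk (Mo v x)` are zeros of a nonzero polynomial `Q` in `d` variables over `ℚ` of total degree at most `d`.  Only the last step changes: use the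
Schwartz-Zippel lemma for sets `S i` of different sizes (`MvPolynomial.schwartz_zippel_sum_degreeOf` with `S i` = the rational numbers `-⌊M i⌋, ..., ⌊M i⌋`, `|S i| = 2 ⌊M i⌋ + 1 ≥ M i ≥ H`; `degreeOf i Q ≤ totalDegree Q ≤ d`): the number of zeros of `Q` in the box is at most
`|box| ∑ i, d/|S i| ≤ d² |box|/H`.
-/

set_option autoImplicit false

open Finset

namespace Pool.Agent.SD

open RL

private theorem AlW_det_degree {d r : ℕ} (A : Matrix (Fin r) (Fin r) (MvPolynomial (Fin d) ℚ))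
    (h : ∀ k l, (A k l).totalDegree ≤ 1) : A.det.totalDegree ≤ r := by
  rw [Matrix.det_apply]
  apply MvPolynomial.totalDegree_finsetSum_le
  intro σ _
  have h1 : (∏ i, A (σ i) i).totalDegree ≤ r := by
    refine (MvPolynomial.totalDegree_finsetProd _ _).trans ?_
    calc ∑ i, (A (σ i) i).totalDegree ≤ ∑ _i : Fin r, 1 := Finset.sum_le_sum (fun i _ => h _ _)
      _ = r := by simp
  rcases Int.units_eq_one_or (Equiv.Perm.sign σ) with hs | hs
  · rw [hs, one_smul]; exact h1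
  · rw [hs, Units.neg_smul, one_smul, MvPolynomial.totalDegree_neg]; exact h1

private theorem AlW_dual {r : ℕ} {b : Fin r → ℝ} (hb : LinearIndependent ℚ b) :
    ∃ ψ : Fin r → (ℝ →ₗ[ℚ] ℚ), ∀ k l, ψ k (b l) = if k = l then 1 else 0 := by
  classical
  obtain ⟨g, hg⟩ := LinearMap.exists_extend (hb.repr : Submodule.span ℚ (Set.range b) →ₗ[ℚ] (Fin r →₀ ℚ))
  refine ⟨fun k => (Finsupp.lapply k).comp g, fun k l => ?_⟩
  have h1 : g (b l) = Finsupp.single l 1 := by
    have h2 := congrArg (fun f => f ⟨b l, Submodule.subset_span ⟨l, rfl⟩⟩) hg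
    have h3 : g (b l) = hb.repr ⟨b l, Submodule.subset_span ⟨l, rfl⟩⟩ := h2
    rw [h3]
    exact hb.repr_eq_single l _ rfl
  show (g (b l)) k = _
  rw [h1, Finsupp.single_apply]
  by_cases hkl : l = k
  · simp [hkl]
  · have : ¬ k = l := fun h => hkl h.symm
    simp [hkl, this]

open Classical in
theorem AlW {d : ℕ} {v : Fin d → ℂ} {x₀ : Fin d → ℤ} (h : 2 * rk (Mo v x₀ : Set (Fin d → ℤ)) < d)
    (M : Fin d → ℝ) {H : ℝ} (hH : 1 ≤ H) (hM : ∀ i, H ≤ M i) :
    (((wB M 1).filter fun x => d ≤ 2 * rk (Mo v x : Set (Fin d → ℤ))).card : ℝ) * H ≤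
      (d : ℝ) ^ 2 * ((wB M 1).card : ℝ) := by
  have hrk0 := rk_Mo v x₀
  set a : (Fin d → ℤ) → Fin d → ℝ := fun x j => om v x (Pi.single j 1) with ha
  set r : ℕ := Module.finrank ℚ (Submodule.span ℚ (Set.range (a x₀))) with hr
  have hrk0' : rk (Mo v x₀ : Set (Fin d → ℤ)) + r = d := hrk0
  have hd : 0 < d := by omega
  have hrd : r ≤ d := by omega
  have : FiniteDimensional ℚ (Submodule.span ℚ (Set.range (a x₀))) :=
    FiniteDimensional.span_of_finite ℚ (Set.finite_range _)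
  obtain ⟨f, hf1, -, hf3⟩ := Submodule.exists_fun_fin_finrank_span_eq ℚ (Set.range (a x₀))
  choose j hj using hf1
  change Fin r → Fin d at j
  have hb : LinearIndependent ℚ (fun l => a x₀ (j l)) := by
    have : (fun l => a x₀ (j l)) = f := funext hj
    rw [this]; exact hf3
  obtain ⟨ψ, hψ⟩ := AlW_dual hb
  set B : Matrix (Fin r) (Fin r) (MvPolynomial (Fin d) ℚ) := Matrix.of fun k l =>
    ∑ i, MvPolynomial.C (ψ k (om v (Pi.single i 1) (Pi.single (j l) 1))) * MvPolynomial.X i with hB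
  set Q : MvPolynomial (Fin d) ℚ := B.det with hQ
  have hdeg : Q.totalDegree ≤ r := by
    apply AlW_det_degree
    intro k l
    rw [hB]
    simp only [Matrix.of_apply]
    apply MvPolynomial.totalDegree_finsetSum_le
    intro i _
    refine (MvPolynomial.totalDegree_mul _ _).trans ?_
    rw [MvPolynomial.totalDegree_C, MvPolynomial.totalDegree_X]
  have hψlin : ∀ (k : Fin r) (x : Fin d → ℤ) (y : Fin d → ℤ), ψ k (om v x y) =
      ∑ i, ψ k (om v (Pi.single i 1) y) * (x i : ℚ) := by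
    intro k x y
    rw [om_eq_sum_left v x y, map_sum]
    refine Finset.sum_congr rfl (fun i _ => ?_)
    have h1 : ((x i : ℤ) : ℝ) * om v (Pi.single i 1) y = ((x i : ℤ) : ℚ) • om v (Pi.single i 1) y := by
      rw [Rat.smul_def]
      push_cast
      rfl
    rw [h1, map_smul, smul_eq_mul, mul_comm]
  have heval : ∀ x : Fin d → ℤ, MvPolynomial.eval (fun i => (x i : ℚ)) Q =
      (Matrix.of fun k l => ψ k (a x (j l)) : Matrix (Fin r) (Fin r) ℚ).det := by
    intro x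
    rw [hQ, RingHom.map_det]
    congr 1
    ext k l
    simp only [RingHom.mapMatrix_apply, Matrix.map_apply, hB, Matrix.of_apply, map_sum, map_mul,
      MvPolynomial.eval_C, MvPolynomial.eval_X]
    rw [ha, hψlin]
  have hQ0 : Q ≠ 0 := by
    intro h0
    have h1 := heval x₀
    rw [h0, map_zero] at h1
    have h2 : (Matrix.of fun k l => ψ k (a x₀ (j l)) : Matrix (Fin r) (Fin r) ℚ) = 1 := by
      ext k l
      rw [Matrix.of_apply, hψ, Matrix.one_apply]
    rw [h2, Matrix.det_one] at h1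
    exact zero_ne_one h1
  have hzero : ∀ x : Fin d → ℤ, d ≤ 2 * rk (Mo v x : Set (Fin d → ℤ)) →
      MvPolynomial.eval (fun i => (x i : ℚ)) Q = 0 := by
    intro x hx
    by_contra hne
    rw [heval] at hne
    have hli : LinearIndependent ℚ (fun l => a x (j l)) := by
      rw [Fintype.linearIndependent_iff]
      intro c hc
      have h1 : (Matrix.of fun k l => ψ k (a x (j l)) : Matrix (Fin r) (Fin r) ℚ).mulVec c = 0 := by
        ext k
        have h2 := congrArg (ψ k) hc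
        rw [map_sum, map_zero] at h2
        rw [Pi.zero_apply, ← h2]
        simp only [Matrix.mulVec, dotProduct, Matrix.of_apply, map_smul, smul_eq_mul]
        exact Finset.sum_congr rfl (fun l _ => mul_comm _ _)
      exact fun l => congrFun (Matrix.eq_zero_of_mulVec_eq_zero hne h1) l
    have h3 : r ≤ Module.finrank ℚ (Submodule.span ℚ (Set.range (a x))) := by
      have h4 := finrank_span_eq_card hli
      rw [Fintype.card_fin] at h4
      rw [← h4]
      have : FiniteDimensional ℚ (Submodule.span ℚ (Set.range (a x))) :=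
        FiniteDimensional.span_of_finite ℚ (Set.finite_range _)
      apply Submodule.finrank_mono
      apply Submodule.span_mono
      rintro _ ⟨l, rfl⟩
      exact ⟨j l, rfl⟩
    have h5 : rk (Mo v x : Set (Fin d → ℤ)) +
        Module.finrank ℚ (Submodule.span ℚ (Set.range (a x))) = d := rk_Mo v x
    omega
  -- counting
  have hH0 : 0 < H := by linarith
  set S : Fin d → Finset ℚ := fun i =>
    (Finset.Icc (-⌊1 * M i⌋) ⌊1 * M i⌋).image (fun n : ℤ => (n : ℚ)) with hS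
  have hScard : ∀ i, (S i).card = (Finset.Icc (-⌊1 * M i⌋) ⌊1 * M i⌋).card := fun i =>
    Finset.card_image_of_injective _ Int.cast_injective
  have hSge : ∀ i, H ≤ ((S i).card : ℝ) := by
    intro i
    rw [hScard, Int.card_Icc]
    have h1 : (1 : ℝ) * M i - 1 < ⌊1 * M i⌋ := Int.sub_one_lt_floor _
    have h2 : H ≤ M i := hM i
    have h3 : (0 : ℤ) ≤ ⌊1 * M i⌋ := Int.floor_nonneg.mpr (by linarith)
    have h4 : (((⌊1 * M i⌋ + 1 - -⌊1 * M i⌋).toNat : ℕ) : ℝ) = ((⌊1 * M i⌋ + 1 - -⌊1 * M i⌋ : ℤ) : ℝ) := by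
      have : (((⌊1 * M i⌋ + 1 - -⌊1 * M i⌋).toNat : ℕ) : ℤ) = (⌊1 * M i⌋ + 1 - -⌊1 * M i⌋ : ℤ) :=
        Int.toNat_of_nonneg (by omega)
      exact_mod_cast this
    rw [h4]
    push_cast
    linarith
  have hbox : (((wB M 1).card : ℕ) : ℝ) = ∏ i, ((S i).card : ℝ) := by
    rw [wB, Fintype.card_piFinset]
    push_cast
    exact Finset.prod_congr rfl fun i _ => by rw [hScard]
  have hSZ := MvPolynomial.schwartz_zippel_sum_degreeOf hQ0 S
  set Z := (Fintype.piFinset fun i : Fin d => S i).filter (fun f => MvPolynomial.eval f Q = 0) with hZ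
  have hcnt : ((wB M 1).filter fun x => d ≤ 2 * rk (Mo v x : Set (Fin d → ℤ))).card ≤ Z.card := by
    apply Finset.card_le_card_of_injOn (fun x i => (x i : ℚ))
    · intro x hx
      rw [Finset.mem_coe, Finset.mem_filter] at hx
      rw [Finset.mem_coe, hZ, Finset.mem_filter, Fintype.mem_piFinset]
      refine ⟨fun i => ?_, hzero x hx.2⟩
      have h1 := Fintype.mem_piFinset.mp hx.1 i
      rw [hS]
      exact Finset.mem_image.mpr ⟨x i, h1, rfl⟩
    · intro x _ y _ hxy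
      funext i
      have h9 : ((x i : ℤ) : ℚ) = ((y i : ℤ) : ℚ) := congrFun hxy i
      exact_mod_cast h9
  have hSZ' : (Z.card : ℝ) / ∏ i, ((S i).card : ℝ) ≤
      ∑ i, ((MvPolynomial.degreeOf i Q : ℕ) : ℝ) / ((S i).card : ℝ) := by
    have h1 : (((Z.card : NNRat) / ∏ i, ((S i).card : NNRat) : NNRat) : ℝ) ≤
        ((∑ i, ((MvPolynomial.degreeOf i Q : ℕ) : NNRat) / ((S i).card : NNRat) : NNRat) : ℝ) := by
      exact_mod_cast hSZ
    push_cast at h1
    exact h1
  have hprod : 0 < ∏ i, ((S i).card : ℝ) := Finset.prod_pos fun i _ => lt_of_lt_of_le hH0 (hSge i)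
  rw [div_le_iff₀ hprod, ← hbox] at hSZ'
  have hsum : ∑ i, ((MvPolynomial.degreeOf i Q : ℕ) : ℝ) / ((S i).card : ℝ) ≤ (d : ℝ) ^ 2 / H := by
    calc ∑ i, ((MvPolynomial.degreeOf i Q : ℕ) : ℝ) / ((S i).card : ℝ)
        ≤ ∑ _i : Fin d, (d : ℝ) / H := by
          refine Finset.sum_le_sum fun i _ => ?_
          have h1 : ((MvPolynomial.degreeOf i Q : ℕ) : ℝ) ≤ d := by
            exact_mod_cast (MvPolynomial.degreeOf_le_totalDegree Q i).trans (hdeg.trans hrd)
          exact div_le_div₀ (by positivity) h1 hH0 (hSge i)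
      _ = (d : ℝ) ^ 2 / H := by
          rw [Finset.sum_const, Finset.card_univ, Fintype.card_fin, nsmul_eq_mul, sq, mul_div_assoc]
  have hfin : (Z.card : ℝ) ≤ (d : ℝ) ^ 2 / H * ((wB M 1).card : ℝ) :=
    hSZ'.trans (mul_le_mul_of_nonneg_right hsum (Nat.cast_nonneg _))
  calc (((wB M 1).filter fun x => d ≤ 2 * rk (Mo v x : Set (Fin d → ℤ))).card : ℝ) * H
      ≤ (Z.card : ℝ) * H := mul_le_mul_of_nonneg_right (by exact_mod_cast hcnt) hH0.le
    _ ≤ (d : ℝ) ^ 2 / H * ((wB M 1).card : ℝ) * H := mul_le_mul_of_nonneg_right hfin hH0.le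
    _ = (d : ℝ) ^ 2 * ((wB M 1).card : ℝ) := by
        rw [div_mul_eq_mul_div, div_mul_cancel₀ _ hH0.ne']

end Pool.Agent.SD
end

section

/-!
# Change of notation with the directions kept; perpendicular numbers
-/

set_option autoImplicit false

open scoped ComplexConjugate
open Finset

namespace Pool.Agent.SD

theorem conv2 {d : ℕ} (L : (Fin d → ℤ) →+ ℂ) (h : ∀ x, L x = 0 → x = 0) (N : Fin d → ℝ) {ν : ℝ} (hν : 2 ≤ ν)
    (Θ : Finset ℂ) (hΘ : Dirs Θ) (hc : ∀ θ ∈ Θ, ν ≤ (cM N (Mt L θ) 1 : ℝ))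
    (hr : ∀ θ ∈ Θ, d ≤ 2 * Module.finrank ℤ (Gm L N θ)) :
    ∃ Y : Finset (Fin d → ℤ), Y.card = Θ.card ∧ Np (fun i => L (Pi.single i 1)) Y ∧
      (∀ y ∈ Y, ν ≤ (cM N (RL.Mo (fun i => L (Pi.single i 1)) y) 1 : ℝ) ∧
        d ≤ 2 * Module.finrank ℤ (RL.Mo (fun i => L (Pi.single i 1)) y)) ∧
      ∀ y ∈ Y, ∃ θ ∈ Θ, par θ (L y) := by
  classical
  have hy : ∀ θ ∈ Θ, ∃ y : Fin d → ℤ, y ≠ 0 ∧ par θ (L y) := by
    intro θ hθ
    have h1 : (2 : ℝ) ≤ (cM N (Mt L θ) 1 : ℝ) := hν.trans (hc θ hθ)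
    have h2 : 1 < cM N (Mt L θ) 1 := by
      have : 2 ≤ cM N (Mt L θ) 1 := by exact_mod_cast h1
      omega
    unfold cM at h2
    obtain ⟨a, ha, b, hb, hab⟩ := Finset.one_lt_card.1 h2
    rw [Finset.mem_filter] at ha hb
    by_cases ha0 : a = 0
    · refine ⟨b, ?_, hb.2⟩
      rintro rfl
      exact hab ha0
    · exact ⟨a, ha0, ha.2⟩
  choose! y hy0 hyp using hy
  have hLy : ∀ θ ∈ Θ, L (y θ) ≠ 0 := fun θ hθ h1 => hy0 θ hθ (h _ h1)
  have hne : ∀ θ ∈ Θ, ∀ θ' ∈ Θ, θ ≠ θ' → ¬ par θ (L (y θ')) := by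
    intro θ hθ θ' hθ' hn h1
    exact hLy θ' hθ' (par_two (hΘ.1 θ hθ) (hΘ.1 θ' hθ') (hΘ.2 θ hθ θ' hθ' hn) h1 (hyp θ' hθ'))
  have hMo : ∀ θ ∈ Θ, RL.Mo (fun i => L (Pi.single i 1)) (y θ) = Mt L θ := by
    intro θ hθ
    ext z
    have h1 : z ∈ RL.Mo (fun i => L (Pi.single i 1)) (y θ) ↔ par (L (y θ)) (L z) := by
      rw [RL.mem_Mo]
      unfold RL.om par
      rw [← L_eq, ← L_eq]
    rw [h1, mem_Mt]
    constructor
    · intro h2
      exact par_trans (hLy θ hθ) (par_symm (hyp θ hθ)) h2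
    · intro h2
      exact par_trans (hΘ.1 θ hθ) (hyp θ hθ) h2
  have hinj : Set.InjOn y (Θ : Set ℂ) := by
    intro θ hθ θ' hθ' he
    by_contra hn
    refine hne θ hθ θ' hθ' hn ?_
    rw [← he]
    exact hyp θ hθ
  refine ⟨Θ.image y, Finset.card_image_of_injOn hinj, ⟨?_, ?_⟩, ?_, ?_⟩
  · intro z hz
    obtain ⟨θ, hθ, rfl⟩ := Finset.mem_image.1 hz
    exact hy0 θ hθ
  · intro z hz z' hz' hn
    obtain ⟨θ, hθ, rfl⟩ := Finset.mem_image.1 hz
    obtain ⟨θ', hθ', rfl⟩ := Finset.mem_image.1 hz'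
    rw [hMo θ hθ, mem_Mt]
    refine hne θ hθ θ' hθ' ?_
    rintro rfl
    exact hn rfl
  · intro z hz
    obtain ⟨θ, hθ, rfl⟩ := Finset.mem_image.1 hz
    rw [hMo θ hθ]
    refine ⟨hc θ hθ, (hr θ hθ).trans ?_⟩
    have h1 := Submodule.finrank_mono (Gm_le L N θ)
    omega
  · intro z hz
    obtain ⟨θ, hθ, rfl⟩ := Finset.mem_image.1 hz
    exact ⟨θ, hθ, hyp θ hθ⟩

/-- Two numbers parallel to `θ` and to `i θ` are perpendicular. -/
theorem par_perp {θ z w : ℂ} (hθ : θ ≠ 0) (hz : par θ z) (hw : par (Complex.I * θ) w) :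
    (conj z * w).re = 0 := by
  obtain ⟨s, rfl⟩ := (par_iff_smul hθ).1 hz
  obtain ⟨t, rfl⟩ := (par_iff_smul (mul_ne_zero Complex.I_ne_zero hθ)).1 hw
  have e : conj (((s : ℝ) : ℂ) * θ) * (((t : ℝ) : ℂ) * (Complex.I * θ)) =
      ((s * t : ℝ) : ℂ) * (Complex.I * ((Complex.normSq θ : ℝ) : ℂ)) := by
    rw [map_mul, Complex.conj_ofReal, Complex.normSq_eq_conj_mul_self]
    push_cast
    ring
  rw [e, Complex.re_ofReal_mul, Complex.I_mul_re, Complex.ofReal_im]
  simp

end Pool.Agent.SD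
end

section

/-!
# TASK SD StP: three directions with perpendicular partners give a number field (compare `RL/StB.lean`)

PROOF.  Let `y₁ ∈ Y`, `u₀ = y₁`, `w₀` its perpendicular partner (`pr v u₀ w₀ = 0`, both nonzero).  Take `F`, `s` from `RL.StA`, `a = L v u₀`, `b = L v w₀ = s I a`.
Case 1: `s² ∈ F`: `FieldStr v` exactly as in Case 1 of the proof of `RL.StB` (file `RL/StB.lean`; copy it with its private lemmas under new names).
Case 2: `s² ∉ F`.  As in Case 2 of `RL.StB`: for all nonzero `u, w` with `pr v u w = 0`: `u ∈ Mo v u₀` (and `w ∈ Po v u₀`) or `u ∈ Po v u₀` (and `w ∈ Mo v u₀`).  Let `y₂, y₃` be two more elements of `Y`.  They are not in `Mo v u₀` (`Np`), so `y₂, y₃ ∈ Po v u₀ = Mo v w₀` (`RL.Mo_Po`), so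
`Mo v y₂ = Mo v w₀ ∋ y₃` (`RL.Mo_eq`), contradicting `Np`.
-/

set_option autoImplicit false

open scoped ComplexConjugate
open Finset

namespace Pool.Agent.SD

open RL

private theorem StP_L_mem {d : ℕ} (v : Fin d → ℂ) (x : Fin d → ℤ) :
    L v x ∈ Submodule.span ℚ (Set.range v) := by
  unfold L
  refine Submodule.sum_mem _ fun i _ => ?_
  have h : ((x i : ℂ)) * v i = ((x i : ℚ)) • v i := by
    rw [Rat.smul_def]
    push_cast
    rfl
  rw [h]
  exact Submodule.smul_mem _ _ (Submodule.subset_span ⟨i, rfl⟩)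

/-- The field `F + F s I`. -/
private noncomputable def StP_K (F : Subfield ℝ) (s : ℝ) (hsF : s ^ 2 ∈ F) : Subfield ℂ where
  carrier := {z | ∃ f ∈ F, ∃ g ∈ F, z = (f : ℂ) + (g : ℂ) * (s * Complex.I)}
  mul_mem' := by
    rintro x y ⟨f, hf, g, hg, rfl⟩ ⟨f', hf', g', hg', rfl⟩
    refine ⟨f * f' - g * g' * s ^ 2, F.sub_mem (F.mul_mem hf hf') (F.mul_mem (F.mul_mem hg hg') hsF),
      f * g' + g * f', F.add_mem (F.mul_mem hf hg') (F.mul_mem hg hf'), ?_⟩
    push_cast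
    linear_combination ((g : ℂ) * g' * s ^ 2) * Complex.I_sq
  one_mem' := ⟨1, F.one_mem, 0, F.zero_mem, by push_cast; ring⟩
  add_mem' := by
    rintro x y ⟨f, hf, g, hg, rfl⟩ ⟨f', hf', g', hg', rfl⟩
    exact ⟨f + f', F.add_mem hf hf', g + g', F.add_mem hg hg', by push_cast; ring⟩
  zero_mem' := ⟨0, F.zero_mem, 0, F.zero_mem, by push_cast; ring⟩
  neg_mem' := by
    rintro x ⟨f, hf, g, hg, rfl⟩
    exact ⟨-f, F.neg_mem hf, -g, F.neg_mem hg, by push_cast; ring⟩
  inv_mem' := by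
    rintro x ⟨f, hf, g, hg, rfl⟩
    by_cases h0 : f ^ 2 + g ^ 2 * s ^ 2 = 0
    · have h1 : f = 0 := by nlinarith [sq_nonneg f, sq_nonneg (g * s)]
      have h2 : g * s = 0 := by nlinarith [sq_nonneg f, sq_nonneg (g * s)]
      refine ⟨0, F.zero_mem, 0, F.zero_mem, ?_⟩
      have h3 : (f : ℂ) + (g : ℂ) * (s * Complex.I) = 0 := by
        have h4 : (g : ℂ) * s = 0 := by exact_mod_cast h2
        rw [← mul_assoc, h4, h1]
        simp
      rw [h3]
      simp
    · have hD : f ^ 2 + g ^ 2 * s ^ 2 ∈ F :=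
        F.add_mem (F.pow_mem hf 2) (F.mul_mem (F.pow_mem hg 2) hsF)
      refine ⟨f * (f ^ 2 + g ^ 2 * s ^ 2)⁻¹, F.mul_mem hf (F.inv_mem hD),
        -g * (f ^ 2 + g ^ 2 * s ^ 2)⁻¹, F.mul_mem (F.neg_mem hg) (F.inv_mem hD), ?_⟩
      have hDC : ((f : ℂ) ^ 2 + (g : ℂ) ^ 2 * (s : ℂ) ^ 2) ≠ 0 := by exact_mod_cast h0
      have hne : (f : ℂ) + (g : ℂ) * (s * Complex.I) ≠ 0 := by
        intro h
        apply hDC
        have : ((f : ℂ) + (g : ℂ) * (s * Complex.I)) * ((f : ℂ) - (g : ℂ) * (s * Complex.I)) = 0 := by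
          rw [h, zero_mul]
        linear_combination this + ((g : ℂ) ^ 2 * s ^ 2) * Complex.I_sq
      apply inv_eq_of_mul_eq_one_left
      push_cast
      field_simp
      linear_combination (-((g : ℂ) ^ 2 * s ^ 2)) * Complex.I_sq

theorem StP {d : ℕ} {v : Fin d → ℂ} (hv : LinearIndependent ℚ v)
    (hall : ∀ x : Fin d → ℤ, x ≠ 0 → d ≤ 2 * rk (Mo v x : Set (Fin d → ℤ)))
    (Y : Finset (Fin d → ℤ)) (hY : Np v Y) (h3 : 3 ≤ Y.card)
    (hp : ∀ y ∈ Y, ∃ w : Fin d → ℤ, w ≠ 0 ∧ pr v y w = 0) : FieldStr v := by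
  classical
  obtain ⟨u₀, y₂, y₃, hy1, hy2, hy3, h12, h13, h23⟩ := Finset.two_lt_card_iff.1 h3
  have hu : u₀ ≠ 0 := hY.1 u₀ hy1
  obtain ⟨w₀, hw, hp0⟩ := hp u₀ hy1
  obtain ⟨F, s, hs, hb, hV⟩ := StA hv hall hu hw hp0
  have ha : L v u₀ ≠ 0 := fun h => hu (L_inj hv h)
  by_cases hsF : s ^ 2 ∈ F
  · have hVK : ∀ z : ℂ, z ∈ Submodule.span ℚ (Set.range v) ↔
        ∃ k ∈ StP_K F s hsF, z = L v u₀ * k := by
      intro z
      rw [hV z]
      constructor
      · rintro ⟨f, hf, g, hg, rfl⟩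
        refine ⟨(f : ℂ) + (g : ℂ) * (s * Complex.I), ⟨f, hf, g, hg, rfl⟩, ?_⟩
        rw [hb]
        ring
      · rintro ⟨k, ⟨f, hf, g, hg, rfl⟩, rfl⟩
        refine ⟨f, hf, g, hg, ?_⟩
        rw [hb]
        ring
    refine ⟨StP_K F s hsF, L v u₀, ha, ?_, ?_, ?_, hVK⟩
    · rintro z ⟨f, hf, g, hg, rfl⟩
      refine ⟨f, hf, -g, F.neg_mem hg, ?_⟩
      simp only [map_add, map_mul, Complex.conj_ofReal, Complex.conj_I]
      push_cast
      ring
    · refine ⟨(s : ℂ) * Complex.I, ⟨0, F.zero_mem, 1, F.one_mem, by push_cast; ring⟩, ?_⟩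
      simpa using hs
    · have hfin : Module.finrank ℚ (Submodule.span ℚ (Set.range v)) = d := by
        rw [finrank_span_eq_card hv, Fintype.card_fin]
      let φ : StP_K F s hsF →+ Submodule.span ℚ (Set.range v) :=
        { toFun := fun k => ⟨L v u₀ * k, (hVK _).2 ⟨k, k.2, rfl⟩⟩
          map_zero' := by
            apply Subtype.ext
            simp
          map_add' := by
            intro x y
            apply Subtype.ext
            change L v u₀ * ((x : ℂ) + y) = L v u₀ * x + L v u₀ * y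
            ring }
      have hφ : Function.Bijective φ := by
        constructor
        · intro x y h
          have h' : L v u₀ * (x : ℂ) = L v u₀ * y := congrArg Subtype.val h
          exact Subtype.ext (mul_left_cancel₀ ha h')
        · rintro ⟨z, hz⟩
          obtain ⟨k, hk, rfl⟩ := (hVK z).1 hz
          exact ⟨⟨k, hk⟩, rfl⟩
      have e := LinearEquiv.ofBijective φ.toRatLinearMap hφ
      rw [← hfin]
      exact e.finrank_eq
  · exfalso
    have main : ∀ y w : Fin d → ℤ, y ≠ 0 → w ≠ 0 → pr v y w = 0 → y ∉ Mo v u₀ → y ∈ Po v u₀ := by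
      intro y w hp1 hp2 hpr hyM
      have hor : (y ∈ Mo v u₀ ∧ w ∈ Po v u₀) ∨ (y ∈ Po v u₀ ∧ w ∈ Mo v u₀) := by
        obtain ⟨f, hf, g, hg, hfg⟩ := (hV _).1 (StP_L_mem v y)
        obtain ⟨f', hf', g', hg', hfg'⟩ := (hV _).1 (StP_L_mem v w)
        have hu' : L v y = ((f : ℂ) + g * (s * Complex.I)) * L v u₀ := by
          rw [hfg, hb]; ring
        have hw' : L v w = ((f' : ℂ) + g' * (s * Complex.I)) * L v u₀ := by
          rw [hfg', hb]; ring
        have hN : Complex.normSq (L v u₀) ≠ 0 := fun h => ha (Complex.normSq_eq_zero.1 h)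
        have key : f * f' + g * g' * s ^ 2 = 0 := by
          have h1 : pr v y w = (f * f' + g * g' * s ^ 2) * Complex.normSq (L v u₀) := by
            unfold pr
            rw [hu', hw']
            simp only [map_add, map_mul, Complex.conj_ofReal, Complex.conj_I]
            have h2 : (((f : ℂ) + g * (s * -Complex.I)) * conj (L v u₀)) *
                (((f' : ℂ) + g' * (s * Complex.I)) * L v u₀) =
                (((f * f' + g * g' * s ^ 2 : ℝ) : ℂ) + ((f * g' * s - g * f' * s : ℝ) : ℂ) * Complex.I) *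
                  ((Complex.normSq (L v u₀) : ℝ) : ℂ) := by
              rw [← Complex.mul_conj]
              push_cast
              linear_combination (-(g : ℂ) * g' * s ^ 2 * (L v u₀ * conj (L v u₀))) * Complex.I_sq
            rw [h2]
            simp only [Complex.mul_re, Complex.add_re, Complex.ofReal_re, Complex.ofReal_im,
              Complex.I_re, Complex.I_im, mul_zero, mul_one, sub_zero, sub_self, add_zero]
          rw [hpr] at h1
          rcases mul_eq_zero.1 h1.symm with h | h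
          · exact h
          · exact absurd h hN
        have hgg : g * g' = 0 := by
          by_contra hne
          apply hsF
          have : s ^ 2 = -(f * f') * (g * g')⁻¹ := by
            rw [eq_mul_inv_iff_mul_eq₀ hne]
            linarith
          rw [this]
          exact F.mul_mem (F.neg_mem (F.mul_mem hf hf')) (F.inv_mem (F.mul_mem hg hg'))
        have hff : f * f' = 0 := by
          rw [hgg, zero_mul, add_zero] at key
          exact key
        have hu0 : ¬ (f = 0 ∧ g = 0) := by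
          rintro ⟨h1, h2⟩
          apply hp1
          apply L_inj hv
          rw [hu', h1, h2]
          simp
        have hw0 : ¬ (f' = 0 ∧ g' = 0) := by
          rintro ⟨h1, h2⟩
          apply hp2
          apply L_inj hv
          rw [hw', h1, h2]
          simp
        rcases mul_eq_zero.1 hgg with h | h
        · left
          have hf0 : f' = 0 := by
            rcases mul_eq_zero.1 hff with h' | h'
            · exact absurd ⟨h', h⟩ hu0
            · exact h'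
          refine ⟨(RL.par_iff hv hu).2 ⟨f, ?_⟩, (RL.perp_iff hv hu).2 ⟨g' * s, ?_⟩⟩
          · rw [hu', h]; simp
          · rw [hw', hf0]; push_cast; ring
        · right
          have hf0 : f = 0 := by
            rcases mul_eq_zero.1 hff with h' | h'
            · exact h'
            · exact absurd ⟨h', h⟩ hw0
          refine ⟨(RL.perp_iff hv hu).2 ⟨g * s, ?_⟩, (RL.par_iff hv hu).2 ⟨f', ?_⟩⟩
          · rw [hu', hf0]; push_cast; ring
          · rw [hw', h]; simp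
      rcases hor with h | h
      · exact absurd h.1 hyM
      · exact h.1
    obtain ⟨w₂, hw2, hp2⟩ := hp y₂ hy2
    obtain ⟨w₃, hw3, hp3⟩ := hp y₃ hy3
    have e2 := main y₂ w₂ (hY.1 y₂ hy2) hw2 hp2 (hY.2 u₀ hy1 y₂ hy2 h12)
    have e3 := main y₃ w₃ (hY.1 y₃ hy3) hw3 hp3 (hY.2 u₀ hy1 y₃ hy3 h13)
    refine hY.2 y₂ hy2 y₃ hy3 h23 ?_
    rw [(Mo_Po hv hu (hY.1 y₂ hy2) e2).1]
    exact e3

end Pool.Agent.SD
end

section

/-!
# A greedy covering by translates
-/

set_option autoImplicit false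

open Finset

namespace Pool.Agent.SD

open Classical in
/-- The points of `A` in the translates `z + L(wB N 1)`, `z ∈ Z`. -/
noncomputable def Cvd {d : ℕ} (N : Fin d → ℝ) (L : (Fin d → ℤ) →+ ℂ) (Z A : Finset ℂ) : Finset ℂ :=
  A.filter fun a => ∃ z ∈ Z, ∃ x ∈ wB N 1, a = z + L x

open Classical in
theorem mem_Cvd {d : ℕ} {N : Fin d → ℝ} {L : (Fin d → ℤ) →+ ℂ} {Z A : Finset ℂ} {a : ℂ} :
    a ∈ Cvd N L Z A ↔ a ∈ A ∧ ∃ z ∈ Z, ∃ x ∈ wB N 1, a = z + L x := by
  unfold Cvd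
  rw [mem_filter]

open Classical in
theorem mem_In {d : ℕ} {N : Fin d → ℝ} {L : (Fin d → ℤ) →+ ℂ} {z : ℂ} {A : Finset ℂ} {a : ℂ} :
    a ∈ In N L z A ↔ a ∈ A ∧ ∃ x ∈ wB N 1, a = z + L x := by
  unfold In
  rw [mem_filter]

theorem Cvd_mono {d : ℕ} (N : Fin d → ℝ) (L : (Fin d → ℤ) →+ ℂ) (Z : Finset ℂ) {A B : Finset ℂ} (h : B ⊆ A) :
    Cvd N L Z B ⊆ Cvd N L Z A := by
  intro a ha
  obtain ⟨h1, h2⟩ := mem_Cvd.1 ha
  exact mem_Cvd.2 ⟨h h1, h2⟩

private theorem greedy_aux {d : ℕ} (N : Fin d → ℝ) (L : (Fin d → ℤ) →+ ℂ) {σ : ℝ} (hσ1 : σ ≤ 1)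
    (A₁ : Finset ℂ) (H : ∀ P ⊆ A₁, ∃ z : ℂ, σ * (P.card : ℝ) ≤ ((In N L z P).card : ℝ)) (j : ℕ) :
    ∃ Z : Finset ℂ, Z.card ≤ j ∧
      (((A₁ \ Cvd N L Z A₁).card : ℕ) : ℝ) ≤ (1 - σ) ^ j * A₁.card := by
  classical
  induction j with
  | zero =>
    refine ⟨∅, by simp, ?_⟩
    rw [pow_zero, one_mul]
    exact_mod_cast card_le_card sdiff_subset
  | succ j ih =>
    obtain ⟨Z, hZ, hj⟩ := ih
    set P := A₁ \ Cvd N L Z A₁ with hP
    obtain ⟨z, hz⟩ := H P sdiff_subset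
    refine ⟨insert z Z, (card_insert_le z Z).trans (by omega), ?_⟩
    have hInP : In N L z P ⊆ P := fun a ha => (mem_In.1 ha).1
    have h1 : A₁ \ Cvd N L (insert z Z) A₁ ⊆ P \ In N L z P := by
      intro a ha
      rw [mem_sdiff] at ha
      have h2 : a ∈ P := by
        rw [hP, mem_sdiff]
        refine ⟨ha.1, fun h3 => ha.2 ?_⟩
        obtain ⟨h4, z', hz', x, hx, h5⟩ := mem_Cvd.1 h3
        exact mem_Cvd.2 ⟨h4, z', mem_insert_of_mem hz', x, hx, h5⟩
      rw [mem_sdiff]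
      refine ⟨h2, fun h3 => ha.2 ?_⟩
      obtain ⟨-, x, hx, h5⟩ := mem_In.1 h3
      exact mem_Cvd.2 ⟨ha.1, z, mem_insert_self _ _, x, hx, h5⟩
    have h2 : (P \ In N L z P).card + (In N L z P).card = P.card := card_sdiff_add_card_eq_card hInP
    have h3 : (((P \ In N L z P).card : ℕ) : ℝ) + ((In N L z P).card : ℝ) = P.card := by exact_mod_cast h2
    have h4 : (((A₁ \ Cvd N L (insert z Z) A₁).card : ℕ) : ℝ) ≤ (((P \ In N L z P).card : ℕ) : ℝ) := by
      exact_mod_cast card_le_card h1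
    calc (((A₁ \ Cvd N L (insert z Z) A₁).card : ℕ) : ℝ) ≤ (1 - σ) * P.card := by linarith
      _ ≤ (1 - σ) * ((1 - σ) ^ j * A₁.card) := mul_le_mul_of_nonneg_left hj (by linarith)
      _ = _ := by rw [pow_succ]; ring

/-- Half of the points are covered by few translates. -/
theorem greedy {d : ℕ} (N : Fin d → ℝ) (L : (Fin d → ℤ) →+ ℂ) {σ : ℝ} (hσ : 0 < σ) (hσ1 : σ ≤ 1)
    (A₁ : Finset ℂ) (H : ∀ P ⊆ A₁, ∃ z : ℂ, σ * (P.card : ℝ) ≤ ((In N L z P).card : ℝ)) :
    ∃ Z : Finset ℂ, (Z.card : ℝ) ≤ 2 * σ⁻¹ ∧ (A₁.card : ℝ) ≤ 2 * ((Cvd N L Z A₁).card : ℝ) := by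
  classical
  obtain ⟨Z, hZ, hj⟩ := greedy_aux N L hσ1 A₁ H ⌈σ⁻¹⌉₊
  have hinv : 1 ≤ σ⁻¹ := (one_le_inv₀ hσ).2 hσ1
  refine ⟨Z, ?_, ?_⟩
  · have h1 := Nat.ceil_lt_add_one (zero_le_one.trans hinv)
    have h2 : (Z.card : ℝ) ≤ (⌈σ⁻¹⌉₊ : ℝ) := by exact_mod_cast hZ
    linarith
  · have h1 : (1 - σ) ^ ⌈σ⁻¹⌉₊ ≤ 1 / 2 := by
      have h2 : 1 - σ ≤ Real.exp (-σ) := by linarith [Real.add_one_le_exp (-σ)]
      calc (1 - σ) ^ ⌈σ⁻¹⌉₊ ≤ Real.exp (-σ) ^ ⌈σ⁻¹⌉₊ := pow_le_pow_left₀ (by linarith) h2 _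
        _ = Real.exp (⌈σ⁻¹⌉₊ * -σ) := (Real.exp_nat_mul _ _).symm
        _ ≤ Real.exp (-1) := by
            apply Real.exp_le_exp.2
            have h3 := mul_le_mul_of_nonneg_right (Nat.le_ceil σ⁻¹) hσ.le
            rw [inv_mul_cancel₀ hσ.ne'] at h3
            linarith
        _ ≤ 1 / 2 := by
            rw [Real.exp_neg, one_div]
            apply inv_anti₀ (by norm_num)
            linarith [Real.add_one_le_exp (1 : ℝ)]
    have hsub : Cvd N L Z A₁ ⊆ A₁ := fun a ha => (mem_Cvd.1 ha).1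
    have h2 : (A₁ \ Cvd N L Z A₁).card + (Cvd N L Z A₁).card = A₁.card := card_sdiff_add_card_eq_card hsub
    have h3 : (((A₁ \ Cvd N L Z A₁).card : ℕ) : ℝ) + ((Cvd N L Z A₁).card : ℝ) = A₁.card := by exact_mod_cast h2
    have h4 : (((A₁ \ Cvd N L Z A₁).card : ℕ) : ℝ) ≤ 1 / 2 * A₁.card :=
      hj.trans (mul_le_mul_of_nonneg_right h1 (Nat.cast_nonneg _))
    linarith

end Pool.Agent.SD
end
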