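import Pool.Agent.Lib.MP_6f2296_co.Mg.G002
import Pool.Agent.Lib.MP_6f2296_co.SD.D2
import Pool.Agent.Lib.MP_6f2296_co.Mg.G004
import Pool.Agent.Lib.MP_6f2296_co.Mg.G005

section

/-!
# TASK SD D: the group is torsion free of full rank, large ranks

PROOF.  Let `C₁`, `C₂` be the constants of `D1 d`, `D2 d`, `V = ∏ N i`, `a = 2 d + 5`, `C` large.  `Θ_b = {θ ∈ Θ | 2 finrank (Gm L N θ) < d}`.  `D1` with `τ = (Q^2)⁻¹`
(`τ N i ≥ 1` as `N i ≥ Q^a ≥ Q^2`; `wB N 2 ⊆ wB N (Q^a)`; `ν τ^d ≥ Q^(a - 2d) ≥ Q ≥ C₁`): `|Θ_b| ≤ 2 + C₁ Q^(-2) V/ν² ≤ 2 + (C₁/Q) |Θ|`.  `|Θ| ≥ V/(Q ν²) ≥ Q^(a-1) ≥ 8`,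
`C₁/Q ≤ 1/4`: `|Θ_b| ≤ |Θ|/4 + |Θ|/4 = |Θ|/2`.  Let `Θ' = Θ \ Θ_b`, `|Θ'| ≥ |Θ|/2`.  `D2` for `Θ'` with `2Q` in the place of `Q` (`V ≤ Q |Θ| ν² ≤ (2Q) |Θ'| ν²`; `(2Q)^3 ≤ Q^a`, `C₂ (2Q)^3 ν² ≤ Q^a ν² ≤ V` for
`Q ≥ C`): the kernel is `0`.
-/

set_option autoImplicit false

open scoped ComplexConjugate
open Finset

namespace Pool.Agent.SD

theorem D (d : ℕ) : ∃ (C : ℝ) (a : ℕ), 1 ≤ C ∧ ∀ (L : (Fin d → ℤ) →+ ℂ) (N : Fin d → ℝ) (Q ν : ℝ)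
    (Θ : Finset ℂ), C ≤ Q → (∀ i, Q ^ a ≤ N i) → (∀ x ∈ wB N (Q ^ a), L x = 0 → x = 0) → Dirs Θ →
    Q ^ a ≤ ν → (∀ θ ∈ Θ, ν ≤ (cM N (Mt L θ) 1 : ℝ)) →
    (∏ i, N i) ≤ Q * ((Θ.card : ℝ) * ν ^ 2) → Q ^ a * ν ^ 2 ≤ ∏ i, N i →
    (∀ x, L x = 0 → x = 0) ∧ ∃ Θ' ⊆ Θ, Θ.card ≤ 2 * Θ'.card ∧
      ∀ θ ∈ Θ', d ≤ 2 * Module.finrank ℤ (Gm L N θ) := by
  classical
  obtain ⟨C₁, hC₁, h1⟩ := D1 d
  obtain ⟨C₂, hC₂, h2⟩ := D2 d
  refine ⟨max 8 (max (4 * C₁) C₂), 2 * d + 5, le_trans (by norm_num) (le_max_left _ _), ?_⟩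
  intro L N Q ν Θ hQ hN hL hΘ hν hcM hV hV2
  have hQ8 : 8 ≤ Q := (le_max_left _ _).trans hQ
  have hQ1 : 4 * C₁ ≤ Q := ((le_max_left _ _).trans (le_max_right _ _)).trans hQ
  have hQ2 : C₂ ≤ Q := ((le_max_right _ _).trans (le_max_right _ _)).trans hQ
  have hQone : (1 : ℝ) ≤ Q := by linarith
  have hQ0 : (0 : ℝ) < Q := by linarith
  have hpow : ∀ j k : ℕ, j ≤ k → Q ^ j ≤ Q ^ k := fun j k hjk => pow_le_pow_right₀ hQone hjk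
  have hQa : Q ≤ Q ^ (2 * d + 5) := by
    have := hpow 1 (2 * d + 5) (by omega)
    rwa [pow_one] at this
  have hνQ : Q ≤ ν := hQa.trans hν
  have hν0 : (0 : ℝ) < ν := by linarith
  have hν2 : (0 : ℝ) < ν ^ 2 := by positivity
  have hN0 : ∀ i, 0 ≤ N i := fun i => le_trans (by positivity) (hN i)
  have hN1 : ∀ i, 1 ≤ N i := fun i => (hQone.trans hQa).trans (hN i)
  -- the size of the set of directions
  have hcard : Q ^ (2 * d + 4) ≤ (Θ.card : ℝ) := by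
    have h3 : Q ^ (2 * d + 5) * ν ^ 2 ≤ Q * (Θ.card : ℝ) * ν ^ 2 := by
      rw [mul_assoc Q]
      exact hV2.trans hV
    have h4 : Q ^ (2 * d + 5) ≤ Q * (Θ.card : ℝ) := le_of_mul_le_mul_right h3 hν2
    have h5 : Q ^ (2 * d + 5) = Q * Q ^ (2 * d + 4) := by ring
    rw [h5] at h4
    exact le_of_mul_le_mul_left h4 hQ0
  have hcard8 : (8 : ℝ) ≤ (Θ.card : ℝ) := by
    have h3 := hpow 1 (2 * d + 4) (by omega)
    rw [pow_one] at h3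
    linarith
  set Θb := Θ.filter fun θ => 2 * Module.finrank ℤ (Gm L N θ) < d with hΘb
  set Θg := Θ.filter fun θ => ¬ 2 * Module.finrank ℤ (Gm L N θ) < d with hΘg
  have hsum : Θb.card + Θg.card = Θ.card := Finset.card_filter_add_card_filter_not _
  have hDb : Dirs Θb := ⟨fun θ hθ => hΘ.1 θ (Finset.mem_filter.1 hθ).1,
    fun θ hθ θ' hθ' => hΘ.2 θ (Finset.mem_filter.1 hθ).1 θ' (Finset.mem_filter.1 hθ').1⟩
  have hDg : Dirs Θg := ⟨fun θ hθ => hΘ.1 θ (Finset.mem_filter.1 hθ).1,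
    fun θ hθ θ' hθ' => hΘ.2 θ (Finset.mem_filter.1 hθ).1 θ' (Finset.mem_filter.1 hθ').1⟩
  have hVν : (∏ i, N i) / ν ^ 2 ≤ Q * (Θ.card : ℝ) := by
    rw [div_le_iff₀ hν2, mul_assoc]
    exact hV
  -- few directions of small rank
  have hb : (Θb.card : ℝ) ≤ (Θ.card : ℝ) / 2 := by
    have h3 := h1 L N (Q ^ 2)⁻¹ ν Θb (by positivity) (inv_le_one_of_one_le₀ (one_le_pow₀ hQone)) (fun i => by
        rw [inv_mul_eq_div, le_div_iff₀ (by positivity), one_mul]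
        exact (hpow 2 _ (by omega)).trans (hN i))
      (fun x hx h => hL x (wB_mono hN0 (by linarith) hx) h) hDb ?_
      (fun θ hθ => hcM θ (Finset.mem_filter.1 hθ).1) (fun θ hθ => (Finset.mem_filter.1 hθ).2)
    · have h4 : C₁ * (Q ^ 2)⁻¹ * (∏ i, N i) / ν ^ 2 ≤ C₁ * (Q ^ 2)⁻¹ * (Q * (Θ.card : ℝ)) := by
        rw [mul_div_assoc]
        exact mul_le_mul_of_nonneg_left hVν (by positivity)
      have h5 : C₁ * (Q ^ 2)⁻¹ * (Q * (Θ.card : ℝ)) = C₁ / Q * (Θ.card : ℝ) := by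
        field_simp
      have h6 : C₁ / Q ≤ 1 / 4 := by
        rw [div_le_div_iff₀ hQ0 (by norm_num)]
        linarith
      have h7 : C₁ / Q * (Θ.card : ℝ) ≤ 1 / 4 * (Θ.card : ℝ) := mul_le_mul_of_nonneg_right h6 (by linarith)
      rw [h5] at h4
      linarith
    · have h4 : (Q : ℝ) ^ (2 * d + 5) * ((Q ^ 2)⁻¹) ^ d = Q ^ 5 := by
        rw [inv_pow, ← pow_mul, pow_add]
        field_simp
      have h5 : Q ^ (2 * d + 5) * ((Q ^ 2)⁻¹) ^ d ≤ ν * ((Q ^ 2)⁻¹) ^ d :=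
        mul_le_mul_of_nonneg_right hν (by positivity)
      have h6 := hpow 1 5 (by omega)
      rw [pow_one] at h6
      rw [h4] at h5
      linarith
  have hg : (Θ.card : ℝ) ≤ 2 * (Θg.card : ℝ) := by
    have h3 : ((Θb.card : ℕ) : ℝ) + (Θg.card : ℝ) = (Θ.card : ℝ) := by exact_mod_cast hsum
    linarith
  have h83 : 8 * Q ^ 3 ≤ Q ^ (2 * d + 5) := by
    calc 8 * Q ^ 3 ≤ Q * Q ^ 3 := mul_le_mul_of_nonneg_right hQ8 (by positivity)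
      _ = Q ^ 4 := by ring
      _ ≤ Q ^ (2 * d + 5) := hpow _ _ (by omega)
  have h85 : C₂ * (2 * Q) ^ 3 ≤ Q ^ (2 * d + 5) := by
    calc C₂ * (2 * Q) ^ 3 = C₂ * (8 * Q ^ 3) := by ring
      _ ≤ Q * (Q * Q ^ 3) := mul_le_mul hQ2 (mul_le_mul_of_nonneg_right hQ8 (by positivity)) (by positivity) hQ0.le
      _ = Q ^ 5 := by ring
      _ ≤ Q ^ (2 * d + 5) := hpow _ _ (by omega)
  refine ⟨h2 L N (2 * Q) ν Θg (by linarith) hN1 (fun x hx h => hL x (wB_mono hN0 ?_ hx) h) hDg (by linarith)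
    (fun θ hθ => hcM θ (Finset.mem_filter.1 hθ).1) (fun θ hθ => not_lt.1 (Finset.mem_filter.1 hθ).2) ?_ ?_,
    Θg, Finset.filter_subset _ _, by exact_mod_cast hg, fun θ hθ => not_lt.1 (Finset.mem_filter.1 hθ).2⟩
  · calc (2 * Q) ^ 3 = 8 * Q ^ 3 := by ring
      _ ≤ Q ^ (2 * d + 5) := h83
  · refine hV.trans ?_
    calc Q * ((Θ.card : ℝ) * ν ^ 2) ≤ Q * ((2 * (Θg.card : ℝ)) * ν ^ 2) :=
          mul_le_mul_of_nonneg_left (mul_le_mul_of_nonneg_right hg hν2.le) hQ0.le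
      _ = 2 * Q * ((Θg.card : ℝ) * ν ^ 2) := by ring
  · exact (mul_le_mul_of_nonneg_right h85 hν2.le).trans hV2

end Pool.Agent.SD
end

section

/-!
# One dense scale gives the number field
-/

set_option autoImplicit false

open scoped ComplexConjugate
open Finset

namespace Pool.Agent.SD

private theorem CoreS_all {m : ℕ} {v : Fin (m + m) → ℂ} (hv : LinearIndependent ℚ v)
    {N : Fin (m + m) → ℝ} {Q t : ℝ} {Y' : Finset (Fin (m + m) → ℤ)}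
    (hQ : ((m + m : ℕ) : ℝ) ^ 2 * 3 ^ (m + m) + 2 ≤ Q) (hN : ∀ i, 0 < N i)
    (ht : 0 < t) (htN : ∀ i, Q ^ 5 ≤ t * N i) (hY : Np v Y') (hne : Y'.Nonempty)
    (hY' : ∀ y ∈ Y', (∃ z ∈ RL.Mo v y, z ≠ 0 ∧ z ∈ wB N t) ∧
      m + m ≤ 2 * Module.finrank ℤ (RL.Mo v y))
    (hcard : (∏ i, (t * N i)) ≤ Q ^ 3 * (Y'.card : ℝ)) (x₀ : Fin (m + m) → ℤ) :
    m + m ≤ 2 * RL.rk (RL.Mo v x₀ : Set (Fin (m + m) → ℤ)) := by
  classical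
  by_contra hlt
  rw [not_le] at hlt
  have hd0 : (0 : ℝ) ≤ ((m + m : ℕ) : ℝ) ^ 2 * 3 ^ (m + m) := by positivity
  have hQ2 : 2 ≤ Q := by linarith
  have hQ0 : 0 < Q := by linarith
  have hN0 : ∀ i, 0 ≤ N i := fun i => (hN i).le
  have h1 := AlW hlt (fun i => t * N i) (H := Q ^ 5) (one_le_pow₀ (by linarith)) htN
  rw [wB_smul N t 1, mul_one] at h1
  choose! z hz using fun y (hy : y ∈ Y') => (hY' y hy).1
  have hMo : ∀ y ∈ Y', RL.Mo v (z y) = RL.Mo v y := fun y hy =>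
    (RL.Mo_eq hv (hY.1 y hy) (hz y hy).2.1 (hz y hy).1).1
  have hinj : Set.InjOn z Y' := by
    intro y hy y' hy' h
    by_contra hne'
    have h2 : z y' ∈ RL.Mo v y := by
      rw [← h]
      exact (hz y hy).1
    exact (hz y' hy').2.1 (RL.Mo_inter hv (hY.1 y hy) (hY.1 y' hy') (hY.2 y hy y' hy' hne') h2
      (hz y' hy').1)
  have h2 : Y'.card ≤ ((wB N t).filter fun x =>
      m + m ≤ 2 * RL.rk (RL.Mo v x : Set (Fin (m + m) → ℤ))).card := by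
    refine Finset.card_le_card_of_injOn z ?_ hinj
    intro y hy
    rw [Finset.mem_coe] at hy
    refine Finset.mem_coe.2 (Finset.mem_filter.2 ⟨(hz y hy).2.2, ?_⟩)
    rw [hMo y hy, rk_eq]
    exact (hY' y hy).2
  have ht1 : ∀ i, 1 ≤ t * N i := fun i => (one_le_pow₀ (by linarith : 1 ≤ Q)).trans (htN i)
  have h3 : ((wB N t).card : ℝ) ≤ 3 ^ (m + m) * ∏ i, (t * N i) := by
    have h4 := card_le_W hN0 ht.le
    have h5 : W N t = ∏ i, (t * N i) := by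
      unfold W
      exact Finset.prod_congr rfl fun i _ => max_eq_right (ht1 i)
    rw [h5] at h4
    exact h4
  have h4 : (Y'.card : ℝ) ≤ (((wB N t).filter fun x =>
      m + m ≤ 2 * RL.rk (RL.Mo v x : Set (Fin (m + m) → ℤ))).card : ℝ) := by exact_mod_cast h2
  have hcp : (0 : ℝ) < Y'.card := by exact_mod_cast Finset.card_pos.2 hne
  have hQ5 : (0 : ℝ) < Q ^ 5 := pow_pos hQ0 5
  have h5 : (Y'.card : ℝ) * Q ^ 5 ≤ ((m + m : ℕ) : ℝ) ^ 2 * (3 ^ (m + m) * (Q ^ 3 * Y'.card)) := by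
    calc (Y'.card : ℝ) * Q ^ 5 ≤ _ := mul_le_mul_of_nonneg_right h4 hQ5.le
      _ ≤ ((m + m : ℕ) : ℝ) ^ 2 * ((wB N t).card : ℝ) := h1
      _ ≤ ((m + m : ℕ) : ℝ) ^ 2 * (3 ^ (m + m) * ∏ i, (t * N i)) :=
          mul_le_mul_of_nonneg_left h3 (by positivity)
      _ ≤ _ := mul_le_mul_of_nonneg_left (mul_le_mul_of_nonneg_left hcard (by positivity))
          (by positivity)
  have h6 : (Y'.card : ℝ) * Q ^ 3 * Q ^ 2 ≤ (Y'.card : ℝ) * Q ^ 3 *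
      (((m + m : ℕ) : ℝ) ^ 2 * 3 ^ (m + m)) := by
    calc (Y'.card : ℝ) * Q ^ 3 * Q ^ 2 = (Y'.card : ℝ) * Q ^ 5 := by ring
      _ ≤ _ := h5
      _ = _ := by ring
  have h7 := le_of_mul_le_mul_left h6 (mul_pos hcp (pow_pos hQ0 3))
  nlinarith

theorem CoreS (d : ℕ) : ∃ (a : ℕ) (C₁ C : ℝ), 1 ≤ a ∧ 1 ≤ C₁ ∧ 1 ≤ C ∧ ∀ (L : (Fin d → ℤ) →+ ℂ)
    (N : Fin d → ℝ) (Q ν t : ℝ) (Θ : Finset ℂ), C ≤ Q → Antitone N → (∀ i, Q ^ a ≤ N i) →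
    (∀ x ∈ wB N (Q ^ a), L x = 0 → x = 0) → Dirs Θ → Q ^ a ≤ ν →
    (∀ θ ∈ Θ, ν ≤ (cM N (Mt L θ) 1 : ℝ)) →
    (∀ θ ∈ Θ, ∃ w, L w ≠ 0 ∧ par (Complex.I * θ) (L w)) →
    (∏ i, N i) ≤ Q * ((Θ.card : ℝ) * ν ^ 2) →
    0 < t → t ≤ 1 → C₁ * (∏ i, N i) ≤ W N t * ν ^ 2 →
    W N t * ν ^ 2 ≤ 2 ^ d * C₁ * ∏ i, N i → (∀ i, t * N i ≤ (Q ^ 6)⁻¹ ∨ Q ^ 6 ≤ t * N i) →
    Q ^ a * ν ^ 2 ≤ ∏ i, N i →
    (∀ x, L x = 0 → x = 0) ∧ RL.FieldStr (fun i => L (Pi.single i 1)) := by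
  obtain ⟨CD, aD, hCD, hD⟩ := D d
  obtain ⟨m, hm⟩ : ∃ m, m = d / 2 := ⟨_, rfl⟩
  obtain ⟨C₁, CE, aE, hC₁, hCE, hE⟩ := E m
  obtain ⟨a, ha⟩ : ∃ a, a = 2 * (aD + aE) + 3 := ⟨_, rfl⟩
  obtain ⟨C, hC1, hC2, hC6, hC7, hC8⟩ : ∃ C : ℝ, CD ≤ C ∧ CE ≤ C ∧
      2 ^ (m + m + 1) * C₁ ≤ C ∧ 32 ≤ C ∧
      ((m + m : ℕ) : ℝ) ^ 2 * 3 ^ (m + m) + 2 ≤ C := by
    have h2 : (0 : ℝ) ≤ 2 ^ (m + m + 1) * C₁ := by positivity
    have h4 : (0 : ℝ) ≤ ((m + m : ℕ) : ℝ) ^ 2 * 3 ^ (m + m) := by positivity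
    refine ⟨CD + CE + 2 ^ (m + m + 1) * C₁ + 32 +
      ((m + m : ℕ) : ℝ) ^ 2 * 3 ^ (m + m), ?_, ?_, ?_, ?_, ?_⟩ <;> linarith
  refine ⟨a, C₁, C, by omega, hC₁, by linarith, ?_⟩
  intro L N Q ν t Θ hCQ hA hN hker0 hdirs hν hc hpart hV ht ht1 hW1 hW2 hdich hQaV
  have hQ32 : 32 ≤ Q := by linarith
  have hQ1 : 1 ≤ Q := by linarith
  have hQ0 : 0 < Q := by linarith
  have hpow : ∀ k, k ≤ a → Q ^ k ≤ Q ^ a := fun k hk => pow_le_pow_right₀ hQ1 hk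
  have hNpos : ∀ i, 0 < N i := fun i => (pow_pos hQ0 a).trans_le (hN i)
  have hN0 : ∀ i, 0 ≤ N i := fun i => (hNpos i).le
  have hνpos : 0 < ν := (pow_pos hQ0 a).trans_le hν
  have hν2 : 0 < ν ^ 2 := pow_pos hνpos 2
  -- step 1
  have haD : Q ^ aD ≤ Q ^ a := hpow aD (by omega)
  obtain ⟨hker, Θ', hΘ', hΘc, hrk⟩ := hD L N Q ν Θ (hC1.trans hCQ) (fun i => haD.trans (hN i))
    (fun x hx => hker0 x (wB_mono hN0 haD hx)) hdirs (haD.trans hν) hc hV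
    ((mul_le_mul_of_nonneg_right haD hν2.le).trans hQaV)
  refine ⟨hker, ?_⟩
  have hv : LinearIndependent ℚ (fun i => L (Pi.single i 1) : Fin d → ℂ) := indep_of_inj L hker
  have hν2' : 2 ≤ ν := by
    have h1 : Q ^ 1 ≤ Q ^ a := hpow 1 (by omega)
    rw [pow_one] at h1
    linarith
  have hdirs' : Dirs Θ' := ⟨fun θ hθ => hdirs.1 θ (hΘ' hθ),
    fun θ hθ θ' hθ' => hdirs.2 θ (hΘ' hθ) θ' (hΘ' hθ')⟩
  obtain ⟨Y, hYc, hYNp, hY, hYθ⟩ := conv2 L hker N hν2' Θ' hdirs' (fun θ hθ => hc θ (hΘ' hθ)) hrk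
  have hVY : (∏ i, N i) ≤ (2 * Q) * ((Y.card : ℝ) * ν ^ 2) := by
    have h1 : (Θ.card : ℝ) ≤ 2 * (Y.card : ℝ) := by
      rw [hYc]
      exact_mod_cast hΘc
    refine hV.trans ?_
    have h2 : (Θ.card : ℝ) * ν ^ 2 ≤ 2 * (Y.card : ℝ) * ν ^ 2 := mul_le_mul_of_nonneg_right h1 hν2.le
    nlinarith
  have hY3 : 3 ≤ Y.card := by
    have h1 : Q ^ a * ν ^ 2 ≤ (2 * Q * Y.card) * ν ^ 2 := by
      refine (hQaV.trans hVY).trans (le_of_eq ?_)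
      ring
    have h2 : Q ^ a ≤ 2 * Q * Y.card := le_of_mul_le_mul_right h1 hν2
    have h3 : Q ^ 3 ≤ Q ^ a := hpow 3 (by omega)
    have h4 : Q * Q ^ 2 ≤ Q * (2 * Y.card) := by
      calc Q * Q ^ 2 = Q ^ 3 := by ring
        _ ≤ Q ^ a := h3
        _ ≤ 2 * Q * Y.card := h2
        _ = Q * (2 * Y.card) := by ring
    have h5 : Q ^ 2 ≤ 2 * Y.card := le_of_mul_le_mul_left h4 hQ0
    have h6 : (3 : ℝ) ≤ Y.card := by nlinarith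
    exact_mod_cast h6
  have hY2 : 2 ≤ Y.card := by omega
  obtain ⟨m', hm'⟩ := E5 hv Y hYNp hY2 (fun y hy => (hY y hy).2)
  have hd : d = m + m := by omega
  clear hm hm'
  subst hd
  -- step 2
  have hQ'1 : (1 : ℝ) ≤ 2 * Q := by linarith
  have hQ'a : (2 * Q) ^ aE ≤ Q ^ a := by
    calc (2 * Q) ^ aE ≤ (Q * Q) ^ aE := pow_le_pow_left₀ (by linarith) (by nlinarith) _
      _ = Q ^ (2 * aE) := by rw [← pow_two, ← pow_mul]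
      _ ≤ Q ^ a := hpow _ (by omega)
  have hQ'5 : (2 * Q) ^ 5 ≤ Q ^ 6 := by
    have h1 : (0 : ℝ) < Q ^ 5 := pow_pos hQ0 5
    nlinarith
  obtain ⟨hm1, htN5, hQt, Y', hY'sub, hY'c, hY'⟩ := hE 5 (fun i => L (Pi.single i 1)) N (2 * Q) ν t Y
    le_rfl hv hA (by linarith) (fun i => hQ'a.trans (hN i)) ht ht1 hW1 hW2
    (fun i => by
      rcases hdich i with h | h
      · left
        refine h.trans ?_
        exact inv_anti₀ (pow_pos (by linarith) 5) hQ'5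
      · right
        exact hQ'5.trans h)
    hYNp (hQ'a.trans hν) hY hVY ((mul_le_mul_of_nonneg_right hQ'a hν2.le).trans hQaV)
  -- step 3
  have htN : ∀ i, 1 ≤ t * N i := fun i => (one_le_pow₀ hQ'1).trans (htN5 i)
  have hWN : W N t = ∏ i, (t * N i) := by
    unfold W
    exact Finset.prod_congr rfl fun i _ => max_eq_right (htN i)
  have hcard : (∏ i, (t * N i)) ≤ (2 * Q) ^ 3 * (Y'.card : ℝ) := by
    have h1 : (∏ i, (t * N i)) * ν ^ 2 ≤ (2 ^ (m + m) * C₁ * ((2 * Q) * Y.card)) * ν ^ 2 := by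
      rw [← hWN]
      refine hW2.trans ?_
      calc 2 ^ (m + m) * C₁ * ∏ i, N i ≤ 2 ^ (m + m) * C₁ * ((2 * Q) * ((Y.card : ℝ) * ν ^ 2)) :=
            mul_le_mul_of_nonneg_left hVY (by positivity)
        _ = (2 ^ (m + m) * C₁ * ((2 * Q) * Y.card)) * ν ^ 2 := by ring
    have h2 := le_of_mul_le_mul_right h1 hν2
    have h3 : (Y.card : ℝ) ≤ 2 * (Y'.card : ℝ) := by exact_mod_cast hY'c
    have h4 : 2 ^ (m + m) * C₁ * ((2 * Q) * (Y.card : ℝ)) ≤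
        2 ^ (m + m) * C₁ * ((2 * Q) * (2 * (Y'.card : ℝ))) := by
      apply mul_le_mul_of_nonneg_left _ (by positivity)
      exact mul_le_mul_of_nonneg_left h3 (by linarith)
    have h5 : 2 ^ (m + m) * C₁ * ((2 * Q) * (2 * (Y'.card : ℝ))) =
        (2 ^ (m + m + 1) * C₁) * ((2 * Q) * (Y'.card : ℝ)) := by ring
    have h6 : (2 ^ (m + m + 1) * C₁) * ((2 * Q) * (Y'.card : ℝ)) ≤
        (2 * Q) ^ 2 * ((2 * Q) * (Y'.card : ℝ)) := by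
      apply mul_le_mul_of_nonneg_right _ (by positivity)
      nlinarith
    calc (∏ i, (t * N i)) ≤ _ := h2
      _ ≤ _ := h4
      _ = _ := h5
      _ ≤ _ := h6
      _ = (2 * Q) ^ 3 * (Y'.card : ℝ) := by ring
  have hY'Np : Np (fun i => L (Pi.single i 1)) Y' :=
    ⟨fun y hy => hYNp.1 y (hY'sub hy), fun y hy y' hy' => hYNp.2 y (hY'sub hy) y' (hY'sub hy')⟩
  have hY'ne : Y'.Nonempty := by
    rw [← Finset.card_pos]
    omega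
  have hall := CoreS_all hv (Q := 2 * Q) (t := t) (N := N) (Y' := Y') (by linarith) hNpos ht htN5
    hY'Np hY'ne (fun y hy => ⟨(hY' y hy).1, (hY y (hY'sub hy)).2⟩) hcard
  have hfield : RL.FieldStr (fun i => L (Pi.single i 1)) := by
    refine StP hv (fun x _ => hall x) Y hYNp hY3 ?_
    intro y hy
    obtain ⟨θ, hθ, hpθ⟩ := hYθ y hy
    obtain ⟨w, hw, hwp⟩ := hpart θ (hΘ' hθ)
    refine ⟨w, ?_, ?_⟩
    · rintro rfl
      exact hw (map_zero L)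
    · unfold RL.pr
      rw [← L_eq, ← L_eq]
      exact par_perp (hdirs.1 θ (hΘ' hθ)) hpθ hwp
  exact hfield

end Pool.Agent.SD
end
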