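import Pool.Agent.Lib.MP_6f2296_co.Mg.G003
import Pool.Agent.Lib.MP_6f2296_co.Mg.G004
import Pool.Agent.Lib.MP_6f2296_co.SD.F
import Pool.Agent.Lib.MP_6f2296_co.Mg.G002
import Pool.Agent.Lib.MP_6f2296_co.Mg.G001
import Pool.Agent.Lib.MP_6f2296_co.Mg.G005

section

/-!
# TASK SD Core: one dense scale gives a rich line

PROOF.  Let `m = d / 2` (natural division), `C₁, C_E, a_E` from `E m`, `C_D, a_D` from `D d`, `C_F` from `F m _ (8 m + 3)` (`C_F = 1` if `m = 0`), `a = 2 (a_D + a_E) + 1`, `C` large (`C ≥ a`, `C ≥ 4 d C_F`, ...), `V = ∏ N i`, `u = 1 + log Q`,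
`Q' = 2 Q`.  `exp (C u²) ≥ exp (C log Q) = Q^C ≥ Q^a` (real power), so `Q^a ν² ≤ V`.
1. `D` (`Q^a_D ≤ Q^a`): the kernel is `0`, `Θ' ⊆ Θ`, `|Θ| ≤ 2 |Θ'|`.  `conv` for `Θ'`: `v i = L (Pi.single i 1)`, `v` is linearly independent (`indep_of_inj`), `Y`, `|Y| = |Θ'|`, `V ≤ Q' |Y| ν²`.  `|Y| ≥ V/(Q' ν²) ≥ Q^a/(2Q) ≥ 2`, so by `E5` `d = m' + m'`, and `m' = m`; substitute.
2. `E` with `Q'`, `e = 5` (`Q'^a_E ≤ Q^(2 a_E) ≤ Q^a`; `Q'^5 = 32 Q^5 ≤ Q^6`): `m ≥ 1`, `Q'^5 ≤ t N i`, `Q'^4 t ≤ 1`, `Y'`, `|Y| ≤ 2 |Y'|`.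
3. `M i = Q'^4 t N i`, `1 ≤ M i ≤ N i`, `wB M 1 = wB N (Q'^4 t)` (`wB_smul`), `i₀ = ⟨0, _⟩`.  For `y ∈ Y'` choose `z y` as in `E` and let `S` be the set of the `z y`: `Mo v (z y) = Mo v y` (`RL.Mo_eq`), so for `y ≠ y'`: `z y' ∉ Mo v (z y)` (otherwise `z y' ∈ Mo v y ∩ Mo v y' = 0`,
`RL.Mo_inter`), `Np v S`, `|S| = |Y'|`, `S ⊆ wB N t ⊆ wB M 1` (`1 ≤ Q'^4`).  The vectors `u k` of `y` serve for `z y`.  `∏ M i = Q'^(4d) ∏ (t N i) = Q'^(4d) W N t` (all `t N i ≥ 1`) `≤ Q'^(4d) 2^d C₁ V/ν² ≤ Q'^(4d) 2^d C₁ Q' |Y| ≤ Q'^(4d) 2^(d+1) C₁ Q' |S| ≤ Q'^(4d+2) |S| ≤ Q'^(8m+3) |S|`.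
`log (∏ M i) ≤ log V ≤ Q ≤ Q'`.  `M i₀ ≥ t N i₀` and `(t N i₀)^d ≥ ∏ (t N i) = W N t ≥ C₁ V/ν² ≥ exp (C u²)`, so `t N i₀ ≥ exp (C u²/d) ≥ exp (C_F (1 + log Q')²)` (`1 + log Q' ≤ 2 u`, `C ≥ 4 d C_F`).
4. `F` with `Q'` (`i₀` has the longest side) gives `w`: `w k ∈ Mo v (e i₀)`, `w k ∈ wB M (X/M i₀) = wB N (X/N i₀)`, `X = exp (C_F (1 + log Q')²)` (`Q'^4 t X/M i₀ = X/N i₀`).  `many` with `ρ = X/N i₀`: `cM N (Mo v (e i₀)) 1 ≥ (N i₀/(X m))^m`, and `√V ≤ (N i₀)^m` (`V ≤ (N i₀)^(2m)`), so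
`√V ≤ (X m)^m cM ≤ exp (C u²) cM`.  `θ = L (e i₀) ≠ 0`, `Mt L θ = Mo v (e i₀)` (`L_eq`; both are `par`).
-/

set_option autoImplicit false

open scoped ComplexConjugate
open Finset

namespace Pool.Agent.SD

private theorem Core_F (m : ℕ) : ∃ C : ℝ, 1 ≤ C ∧ (1 ≤ m → ∀ (v : Fin (m + m) → ℂ)
    (M : Fin (m + m) → ℝ) (i₀ : Fin (m + m)) (Q : ℝ) (S : Finset (Fin (m + m) → ℤ)),
    LinearIndependent ℚ v → C ≤ Q → (∀ i, 1 ≤ M i) → (∀ i, M i ≤ M i₀) → Real.log (∏ i, M i) ≤ Q →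
    Real.exp (C * (1 + Real.log Q) ^ 2) ≤ M i₀ → S ⊆ wB M 1 → Np v S →
    (∏ i, M i) ≤ Q ^ (8 * m + 3) * S.card →
    (∀ y ∈ S, ∃ u : Fin m → (Fin (m + m) → ℤ), LinearIndependent ℤ u ∧
      ∀ k, u k ∈ RL.Mo v y ∧ u k ∈ wB M 1) →
    ∃ w : Fin m → (Fin (m + m) → ℤ), LinearIndependent ℤ w ∧
      ∀ k, w k ∈ RL.Mo v (Pi.single i₀ 1) ∧
        w k ∈ wB M (Real.exp (C * (1 + Real.log Q) ^ 2) / M i₀)) := by
  by_cases hm : 1 ≤ m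
  · obtain ⟨C, h1, h2⟩ := F m hm (8 * m + 3)
    exact ⟨C, h1, fun _ => h2⟩
  · exact ⟨1, le_rfl, fun h => absurd h hm⟩

private theorem Core_fin {m : ℕ} (hm : 1 ≤ m) {CF : ℝ}
    (hF : ∀ (v : Fin (m + m) → ℂ)
    (M : Fin (m + m) → ℝ) (i₀ : Fin (m + m)) (Q : ℝ) (S : Finset (Fin (m + m) → ℤ)),
    LinearIndependent ℚ v → CF ≤ Q → (∀ i, 1 ≤ M i) → (∀ i, M i ≤ M i₀) → Real.log (∏ i, M i) ≤ Q →
    Real.exp (CF * (1 + Real.log Q) ^ 2) ≤ M i₀ → S ⊆ wB M 1 → Np v S →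
    (∏ i, M i) ≤ Q ^ (8 * m + 3) * S.card →
    (∀ y ∈ S, ∃ u : Fin m → (Fin (m + m) → ℤ), LinearIndependent ℤ u ∧
      ∀ k, u k ∈ RL.Mo v y ∧ u k ∈ wB M 1) →
    ∃ w : Fin m → (Fin (m + m) → ℤ), LinearIndependent ℤ w ∧
      ∀ k, w k ∈ RL.Mo v (Pi.single i₀ 1) ∧
        w k ∈ wB M (Real.exp (CF * (1 + Real.log Q) ^ 2) / M i₀))
    {v : Fin (m + m) → ℂ} (hv : LinearIndependent ℚ v) {N : Fin (m + m) → ℝ}
    {Q t : ℝ} {Y' : Finset (Fin (m + m) → ℤ)} (i₀ : Fin (m + m)) (hmax : ∀ i, N i ≤ N i₀)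
    (hQ : CF ≤ Q) (hQ1 : 2 ≤ Q) (hN : ∀ i, 0 < N i)
    (ht : 0 < t) (htN : ∀ i, 1 ≤ t * N i) (hQt : Q ^ 4 * t ≤ 1) (hlog : Real.log (∏ i, N i) ≤ Q)
    (hY : Np v Y')
    (hY' : ∀ y ∈ Y', (∃ z ∈ RL.Mo v y, z ≠ 0 ∧ z ∈ wB N t) ∧
      ∃ u : Fin m → (Fin (m + m) → ℤ), LinearIndependent ℤ u ∧
        ∀ k, u k ∈ RL.Mo v y ∧ u k ∈ wB N (Q ^ 4 * t))
    (hcard : (∏ i, (t * N i)) ≤ Q ^ 3 * (Y'.card : ℝ))
    (hX : Real.exp (CF * (1 + Real.log Q) ^ 2) ≤ t * N i₀) :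
    (N i₀ / (Real.exp (CF * (1 + Real.log Q) ^ 2) * m)) ^ m ≤
      (cM N (RL.Mo v (Pi.single i₀ 1)) 1 : ℝ) := by
  classical
  have hQ0 : 0 < Q := by linarith
  have hQ4 : 1 ≤ Q ^ 4 := one_le_pow₀ (by linarith)
  have hN0 : ∀ i, 0 ≤ N i := fun i => (hN i).le
  obtain ⟨M, hM⟩ : ∃ M : Fin (m + m) → ℝ, M = fun i => (Q ^ 4 * t) * N i := ⟨_, rfl⟩
  have hMi : ∀ i, M i = Q ^ 4 * (t * N i) := fun i => by rw [hM]; ring
  have hMw : ∀ s, wB M s = wB N (Q ^ 4 * t * s) := fun s => by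
    rw [hM]
    exact wB_smul N (Q ^ 4 * t) s
  choose! z hz using fun y (hy : y ∈ Y') => (hY' y hy).1
  have hMo : ∀ y ∈ Y', RL.Mo v (z y) = RL.Mo v y := fun y hy =>
    (RL.Mo_eq hv (hY.1 y hy) (hz y hy).2.1 (hz y hy).1).1
  have hnot : ∀ y ∈ Y', ∀ y' ∈ Y', y ≠ y' → z y' ∉ RL.Mo v (z y) := by
    intro y hy y' hy' hne hmem
    rw [hMo y hy] at hmem
    exact (hz y' hy').2.1 (RL.Mo_inter hv (hY.1 y hy) (hY.1 y' hy') (hY.2 y hy y' hy' hne) hmem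
      (hz y' hy').1)
  have hinj : Set.InjOn z Y' := by
    intro y hy y' hy' h
    by_contra hne
    apply hnot y hy y' hy' hne
    rw [← h]
    exact RL.self_mem_Mo v (z y)
  obtain ⟨S, hSdef⟩ : ∃ S, S = Y'.image z := ⟨_, rfl⟩
  have hSmem : ∀ s ∈ S, ∃ y ∈ Y', z y = s := by
    intro s hs
    rw [hSdef] at hs
    obtain ⟨y, hy, hys⟩ := Finset.mem_image.mp hs
    exact ⟨y, hy, hys⟩
  have hS : S.card = Y'.card := by
    rw [hSdef]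
    exact Finset.card_image_of_injOn hinj
  have hNp : Np v S := by
    refine ⟨?_, ?_⟩
    · intro s hs
      obtain ⟨y, hy, rfl⟩ := hSmem s hs
      exact (hz y hy).2.1
    · intro s hs s' hs' hne
      obtain ⟨y, hy, rfl⟩ := hSmem s hs
      obtain ⟨y', hy', rfl⟩ := hSmem s' hs'
      exact hnot y hy y' hy' (fun h => hne (by rw [h]))
  have hSub : S ⊆ wB M 1 := by
    intro s hs
    obtain ⟨y, hy, rfl⟩ := hSmem s hs
    rw [hMw]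
    refine wB_mono hN0 ?_ (hz y hy).2.2
    nlinarith
  have hu : ∀ y ∈ S, ∃ u : Fin m → (Fin (m + m) → ℤ), LinearIndependent ℤ u ∧
      ∀ k, u k ∈ RL.Mo v y ∧ u k ∈ wB M 1 := by
    intro s hs
    obtain ⟨y, hy, rfl⟩ := hSmem s hs
    obtain ⟨u, hu1, hu2⟩ := (hY' y hy).2
    refine ⟨u, hu1, fun k => ⟨?_, ?_⟩⟩
    · rw [hMo y hy]
      exact (hu2 k).1
    · rw [hMw, mul_one]
      exact (hu2 k).2
  have hprod : ∏ i, M i = Q ^ (8 * m) * ∏ i, (t * N i) := by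
    simp only [hMi]
    rw [Finset.prod_mul_distrib, Finset.prod_const, Finset.card_univ, Fintype.card_fin, ← pow_mul]
    congr 2
    ring
  have hM1 : ∀ i, 1 ≤ M i := fun i => by
    rw [hMi]
    nlinarith [htN i]
  have hMN : ∀ i, M i ≤ N i := fun i => by
    rw [hM]
    change Q ^ 4 * t * N i ≤ N i
    nlinarith [hN i]
  have hMmax : ∀ i, M i ≤ M i₀ := fun i => by
    rw [hM]
    exact mul_le_mul_of_nonneg_left (hmax i) (by positivity)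
  have hMlog : Real.log (∏ i, M i) ≤ Q := by
    refine le_trans (Real.log_le_log ?_ ?_) hlog
    · exact Finset.prod_pos fun i _ => by linarith [hM1 i]
    · exact Finset.prod_le_prod (fun i _ => by linarith [hM1 i]) (fun i _ => hMN i)
  have hMX : Real.exp (CF * (1 + Real.log Q) ^ 2) ≤ M i₀ := by
    rw [hMi]
    nlinarith [htN i₀]
  have hMcard : (∏ i, M i) ≤ Q ^ (8 * m + 3) * S.card := by
    rw [hprod, hS, pow_add, mul_assoc]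
    exact mul_le_mul_of_nonneg_left hcard (by positivity)
  obtain ⟨w, hw1, hw2⟩ := hF v M i₀ Q S hv hQ hM1 hMmax hMlog hMX hSub hNp hMcard hu
  have hXpos := Real.exp_pos (CF * (1 + Real.log Q) ^ 2)
  have hm0 : (0 : ℝ) < m := by exact_mod_cast hm
  have hρ : Q ^ 4 * t * (Real.exp (CF * (1 + Real.log Q) ^ 2) / M i₀) =
      Real.exp (CF * (1 + Real.log Q) ^ 2) / N i₀ := by
    have h1 := (hN i₀).ne'
    rw [hMi]
    field_simp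
  have h1 := many hm hN (RL.Mo v (Pi.single i₀ 1)) w hw1
    (ρ := Real.exp (CF * (1 + Real.log Q) ^ 2) / N i₀) (div_pos hXpos (hN i₀))
    (fun k => ⟨(hw2 k).1, by
      have h2 := (hw2 k).2
      rw [hMw, hρ] at h2
      exact h2⟩)
  refine le_trans (le_of_eq ?_) h1
  congr 1
  have h2 := (hN i₀).ne'
  field_simp

theorem Core (d : ℕ) : ∃ (a : ℕ) (C₁ C : ℝ), 1 ≤ a ∧ 1 ≤ C₁ ∧ 1 ≤ C ∧ ∀ (L : (Fin d → ℤ) →+ ℂ)
    (N : Fin d → ℝ) (Q ν t : ℝ) (Θ : Finset ℂ), C ≤ Q → Antitone N → (∀ i, Q ^ a ≤ N i) →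
    (∀ x ∈ wB N (Q ^ a), L x = 0 → x = 0) → Dirs Θ → Q ^ a ≤ ν →
    (∀ θ ∈ Θ, ν ≤ (cM N (Mt L θ) 1 : ℝ)) → (∏ i, N i) ≤ Q * ((Θ.card : ℝ) * ν ^ 2) →
    Real.log (∏ i, N i) ≤ Q → 0 < t → t ≤ 1 → C₁ * (∏ i, N i) ≤ W N t * ν ^ 2 →
    W N t * ν ^ 2 ≤ 2 ^ d * C₁ * ∏ i, N i → (∀ i, t * N i ≤ (Q ^ 6)⁻¹ ∨ Q ^ 6 ≤ t * N i) →
    Real.exp (C * (1 + Real.log Q) ^ 2) * ν ^ 2 ≤ ∏ i, N i →
    (∀ x, L x = 0 → x = 0) ∧ ∃ θ : ℂ, θ ≠ 0 ∧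
      Real.sqrt (∏ i, N i) ≤ Real.exp (C * (1 + Real.log Q) ^ 2) * (cM N (Mt L θ) 1 : ℝ) := by
  obtain ⟨CD, aD, hCD, hD⟩ := D d
  obtain ⟨m, hm⟩ : ∃ m, m = d / 2 := ⟨_, rfl⟩
  obtain ⟨C₁, CE, aE, hC₁, hCE, hE⟩ := E m
  obtain ⟨CF, hCF, hF⟩ := Core_F m
  obtain ⟨a, ha⟩ : ∃ a, a = 2 * (aD + aE) + 3 := ⟨_, rfl⟩
  obtain ⟨C, hC1, hC2, hC3, hC4, hC5, hC6, hC7⟩ : ∃ C : ℝ, CD ≤ C ∧ CE ≤ C ∧ CF ≤ C ∧ (a : ℝ) ≤ C ∧
      8 * m * CF + (m : ℝ) ^ 2 ≤ C ∧ 2 ^ (m + m + 1) * C₁ ≤ C ∧ 32 ≤ C := by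
    have h1 : (0 : ℝ) ≤ 8 * m * CF + (m : ℝ) ^ 2 := by positivity
    have h2 : (0 : ℝ) ≤ 2 ^ (m + m + 1) * C₁ := by positivity
    have h3 : (0 : ℝ) ≤ a := by positivity
    refine ⟨CD + CE + CF + a + (8 * m * CF + (m : ℝ) ^ 2) + 2 ^ (m + m + 1) * C₁ + 32, ?_, ?_, ?_, ?_,
      ?_, ?_, ?_⟩ <;> linarith
  refine ⟨a, C₁, C, by omega, hC₁, by linarith, ?_⟩
  intro L N Q ν t Θ hCQ hA hN hker0 hdirs hν hc hV hlog ht ht1 hW1 hW2 hdich hexp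
  have hQ32 : 32 ≤ Q := by linarith
  have hQ1 : 1 ≤ Q := by linarith
  have hQ0 : 0 < Q := by linarith
  have hlogQ : 0 ≤ Real.log Q := Real.log_nonneg hQ1
  have hpow : ∀ k, k ≤ a → Q ^ k ≤ Q ^ a := fun k hk => pow_le_pow_right₀ hQ1 hk
  have hNpos : ∀ i, 0 < N i := fun i => (pow_pos hQ0 a).trans_le (hN i)
  have hN0 : ∀ i, 0 ≤ N i := fun i => (hNpos i).le
  have hνpos : 0 < ν := (pow_pos hQ0 a).trans_le hν
  have hν2 : 0 < ν ^ 2 := pow_pos hνpos 2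
  have hexpQ : Q ^ a ≤ Real.exp (C * (1 + Real.log Q) ^ 2) := by
    rw [← Real.exp_log (pow_pos hQ0 a), Real.exp_le_exp, Real.log_pow]
    have h1 : Real.log Q ≤ (1 + Real.log Q) ^ 2 := by nlinarith
    have h2 : (0 : ℝ) ≤ a := by positivity
    nlinarith
  have hQaV : Q ^ a * ν ^ 2 ≤ ∏ i, N i :=
    (mul_le_mul_of_nonneg_right hexpQ hν2.le).trans hexp
  -- step 1
  have haD : Q ^ aD ≤ Q ^ a := hpow aD (by omega)
  obtain ⟨hker, Θ', hΘ', hΘc, hrk⟩ := hD L N Q ν Θ (hC1.trans hCQ) (fun i => haD.trans (hN i))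
    (fun x hx => hker0 x (wB_mono hN0 haD hx)) hdirs (haD.trans hν) hc hV
    ((mul_le_mul_of_nonneg_right haD hν2.le).trans hQaV)
  refine ⟨hker, ?_⟩
  have hv : LinearIndependent ℚ (fun i => L (Pi.single i 1) : Fin d → ℂ) := indep_of_inj L hker
  have hν2' : 2 ≤ ν := by
    have h1 : Q ^ 1 ≤ Q ^ a := hpow 1 (by omega)
    rw [pow_one] at h1
    linarith
  have hdirs' : Dirs Θ' := ⟨fun θ hθ => hdirs.1 θ (hΘ' hθ),
    fun θ hθ θ' hθ' => hdirs.2 θ (hΘ' hθ) θ' (hΘ' hθ')⟩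
  obtain ⟨Y, hYc, hYNp, hY⟩ := conv L hker N hν2' Θ' hdirs' (fun θ hθ => hc θ (hΘ' hθ)) hrk
  have hVY : (∏ i, N i) ≤ (2 * Q) * ((Y.card : ℝ) * ν ^ 2) := by
    have h1 : (Θ.card : ℝ) ≤ 2 * (Y.card : ℝ) := by
      rw [hYc]
      exact_mod_cast hΘc
    refine hV.trans ?_
    have h2 : (Θ.card : ℝ) * ν ^ 2 ≤ 2 * (Y.card : ℝ) * ν ^ 2 := mul_le_mul_of_nonneg_right h1 hν2.le
    nlinarith
  have hY2 : 2 ≤ Y.card := by
    have h1 : Q ^ a * ν ^ 2 ≤ (2 * Q * Y.card) * ν ^ 2 := by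
      refine (hQaV.trans hVY).trans (le_of_eq ?_)
      ring
    have h2 : Q ^ a ≤ 2 * Q * Y.card := le_of_mul_le_mul_right h1 hν2
    have h3 : Q ^ 3 ≤ Q ^ a := hpow 3 (by omega)
    have h4 : Q * Q ^ 2 ≤ Q * (2 * Y.card) := by
      calc Q * Q ^ 2 = Q ^ 3 := by ring
        _ ≤ Q ^ a := h3
        _ ≤ 2 * Q * Y.card := h2
        _ = Q * (2 * Y.card) := by ring
    have h5 : Q ^ 2 ≤ 2 * Y.card := le_of_mul_le_mul_left h4 hQ0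
    have h6 : (2 : ℝ) ≤ Y.card := by nlinarith
    exact_mod_cast h6
  obtain ⟨m', hm'⟩ := E5 hv Y hYNp hY2 (fun y hy => (hY y hy).2)
  have hd : d = m + m := by omega
  clear hm hm'
  subst hd
  -- step 2
  have hQ'1 : (1 : ℝ) ≤ 2 * Q := by linarith
  have hQ'a : (2 * Q) ^ aE ≤ Q ^ a := by
    calc (2 * Q) ^ aE ≤ (Q * Q) ^ aE := pow_le_pow_left₀ (by linarith) (by nlinarith) _
      _ = Q ^ (2 * aE) := by rw [← pow_two, ← pow_mul]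
      _ ≤ Q ^ a := hpow _ (by omega)
  have hQ'5 : (2 * Q) ^ 5 ≤ Q ^ 6 := by
    have h1 : (0 : ℝ) < Q ^ 5 := pow_pos hQ0 5
    nlinarith
  obtain ⟨hm1, htN5, hQt, Y', hY'sub, hY'c, hY'⟩ := hE 5 (fun i => L (Pi.single i 1)) N (2 * Q) ν t Y
    le_rfl hv hA (by linarith) (fun i => hQ'a.trans (hN i)) ht ht1 hW1 hW2
    (fun i => by
      rcases hdich i with h | h
      · left
        refine h.trans ?_
        exact inv_anti₀ (pow_pos (by linarith) 5) hQ'5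
      · right
        exact hQ'5.trans h)
    hYNp (hQ'a.trans hν) hY hVY ((mul_le_mul_of_nonneg_right hQ'a hν2.le).trans hQaV)
  -- step 3
  have htN : ∀ i, 1 ≤ t * N i := fun i => (one_le_pow₀ hQ'1).trans (htN5 i)
  have hWN : W N t = ∏ i, (t * N i) := by
    unfold W
    exact Finset.prod_congr rfl fun i _ => max_eq_right (htN i)
  obtain ⟨i₀, hi₀⟩ : ∃ i₀ : Fin (m + m), i₀ = ⟨0, by omega⟩ := ⟨_, rfl⟩
  have hmax : ∀ i, N i ≤ N i₀ := fun i => hA (by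
    rw [hi₀]
    exact Nat.zero_le _)
  have hu4 : (1 + Real.log (2 * Q)) ^ 2 ≤ 4 * (1 + Real.log Q) ^ 2 := by
    have h1 : Real.log (2 * Q) = Real.log 2 + Real.log Q := Real.log_mul (by norm_num) hQ0.ne'
    have h2 : Real.log 2 ≤ 1 := by
      have := Real.log_two_lt_d9
      linarith
    have h3 : 0 ≤ Real.log 2 := Real.log_nonneg (by norm_num)
    rw [h1]
    nlinarith
  have hu1 : 1 ≤ (1 + Real.log Q) ^ 2 := by nlinarith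
  have hVpos : 0 < ∏ i, N i := Finset.prod_pos fun i _ => hNpos i
  have hm0 : (1 : ℝ) ≤ m := by exact_mod_cast hm1
  have hX : Real.exp (CF * (1 + Real.log (2 * Q)) ^ 2) ≤ t * N i₀ := by
    by_contra hlt
    rw [not_le] at hlt
    have h1 : (∏ i, (t * N i)) ≤ (t * N i₀) ^ (m + m) := by
      calc (∏ i, (t * N i)) ≤ ∏ _i : Fin (m + m), (t * N i₀) :=
            Finset.prod_le_prod (fun i _ => by linarith [htN i])
              (fun i _ => mul_le_mul_of_nonneg_left (hmax i) ht.le)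
        _ = (t * N i₀) ^ (m + m) := by
            rw [Finset.prod_const, Finset.card_univ, Fintype.card_fin]
    have h2 : (t * N i₀) ^ (m + m) < (Real.exp (CF * (1 + Real.log (2 * Q)) ^ 2)) ^ (m + m) :=
      pow_lt_pow_left₀ hlt (by linarith [htN i₀]) (by omega)
    have h3 : (Real.exp (CF * (1 + Real.log (2 * Q)) ^ 2)) ^ (m + m) ≤
        Real.exp (C * (1 + Real.log Q) ^ 2) := by
      rw [← Real.exp_nat_mul, Real.exp_le_exp]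
      push_cast
      have h4 : ((m : ℝ) + m) * (CF * (1 + Real.log (2 * Q)) ^ 2) ≤
          ((m : ℝ) + m) * (CF * (4 * (1 + Real.log Q) ^ 2)) := by
        apply mul_le_mul_of_nonneg_left _ (by positivity)
        exact mul_le_mul_of_nonneg_left hu4 (by linarith)
      have h5 : ((m : ℝ) + m) * (CF * (4 * (1 + Real.log Q) ^ 2)) =
          (8 * m * CF) * (1 + Real.log Q) ^ 2 := by ring
      have h6 : (8 * m * CF) * (1 + Real.log Q) ^ 2 ≤ C * (1 + Real.log Q) ^ 2 := by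
        apply mul_le_mul_of_nonneg_right _ (by linarith)
        nlinarith
      linarith
    have h4 : Real.exp (C * (1 + Real.log Q) ^ 2) * ν ^ 2 ≤ (∏ i, (t * N i)) * ν ^ 2 := by
      calc Real.exp (C * (1 + Real.log Q) ^ 2) * ν ^ 2 ≤ ∏ i, N i := hexp
        _ ≤ C₁ * ∏ i, N i := le_mul_of_one_le_left hVpos.le hC₁
        _ ≤ W N t * ν ^ 2 := hW1
        _ = (∏ i, (t * N i)) * ν ^ 2 := by rw [hWN]
    have h5 := le_of_mul_le_mul_right h4 hν2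
    linarith
  have hcard : (∏ i, (t * N i)) ≤ (2 * Q) ^ 3 * (Y'.card : ℝ) := by
    have h1 : (∏ i, (t * N i)) * ν ^ 2 ≤ (2 ^ (m + m) * C₁ * ((2 * Q) * Y.card)) * ν ^ 2 := by
      rw [← hWN]
      refine hW2.trans ?_
      calc 2 ^ (m + m) * C₁ * ∏ i, N i ≤ 2 ^ (m + m) * C₁ * ((2 * Q) * ((Y.card : ℝ) * ν ^ 2)) :=
            mul_le_mul_of_nonneg_left hVY (by positivity)
        _ = (2 ^ (m + m) * C₁ * ((2 * Q) * Y.card)) * ν ^ 2 := by ring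
    have h2 := le_of_mul_le_mul_right h1 hν2
    have h3 : (Y.card : ℝ) ≤ 2 * (Y'.card : ℝ) := by exact_mod_cast hY'c
    have h4 : 2 ^ (m + m) * C₁ * ((2 * Q) * (Y.card : ℝ)) ≤
        2 ^ (m + m) * C₁ * ((2 * Q) * (2 * (Y'.card : ℝ))) := by
      apply mul_le_mul_of_nonneg_left _ (by positivity)
      exact mul_le_mul_of_nonneg_left h3 (by linarith)
    have h5 : 2 ^ (m + m) * C₁ * ((2 * Q) * (2 * (Y'.card : ℝ))) =
        (2 ^ (m + m + 1) * C₁) * ((2 * Q) * (Y'.card : ℝ)) := by ring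
    have h6 : (2 ^ (m + m + 1) * C₁) * ((2 * Q) * (Y'.card : ℝ)) ≤
        (2 * Q) ^ 2 * ((2 * Q) * (Y'.card : ℝ)) := by
      apply mul_le_mul_of_nonneg_right _ (by positivity)
      nlinarith
    calc (∏ i, (t * N i)) ≤ _ := h2
      _ ≤ _ := h4
      _ = _ := h5
      _ ≤ _ := h6
      _ = (2 * Q) ^ 3 * (Y'.card : ℝ) := by ring
  have hfin := Core_fin hm1 (hF hm1) hv i₀ hmax (Y' := Y') (Q := 2 * Q) (t := t) (by linarith)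
    (by linarith) hNpos ht htN hQt (by linarith)
    ⟨fun y hy => hYNp.1 y (hY'sub hy), fun y hy y' hy' => hYNp.2 y (hY'sub hy) y' (hY'sub hy')⟩
    hY' hcard hX
  -- step 4
  refine ⟨L (Pi.single i₀ 1), ?_, ?_⟩
  · intro h
    have h1 := congrFun (hker _ h) i₀
    rw [Pi.single_eq_same, Pi.zero_apply] at h1
    exact one_ne_zero h1
  · have hMt : Mt L (L (Pi.single i₀ 1)) = RL.Mo (fun i => L (Pi.single i 1)) (Pi.single i₀ 1) := by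
      ext x
      rw [mem_Mt, RL.mem_Mo]
      unfold par RL.om
      rw [← L_eq, ← L_eq]
    rw [hMt]
    have hXpos := Real.exp_pos (CF * (1 + Real.log (2 * Q)) ^ 2)
    have h1 : Real.sqrt (∏ i, N i) ≤ N i₀ ^ m := by
      rw [Real.sqrt_le_left (pow_nonneg (hN0 i₀) m), ← pow_mul, mul_two]
      calc (∏ i, N i) ≤ ∏ _i : Fin (m + m), N i₀ :=
            Finset.prod_le_prod (fun i _ => hN0 i) (fun i _ => hmax i)
        _ = N i₀ ^ (m + m) := by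
            rw [Finset.prod_const, Finset.card_univ, Fintype.card_fin]
    have h2 : N i₀ ^ m = (Real.exp (CF * (1 + Real.log (2 * Q)) ^ 2) * m) ^ m *
        (N i₀ / (Real.exp (CF * (1 + Real.log (2 * Q)) ^ 2) * m)) ^ m := by
      rw [← mul_pow]
      congr 1
      have h3 : (m : ℝ) ≠ 0 := by linarith
      field_simp
    have h3 : (Real.exp (CF * (1 + Real.log (2 * Q)) ^ 2) * m) ^ m ≤
        Real.exp (C * (1 + Real.log Q) ^ 2) := by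
      have h4 : (m : ℝ) ≤ Real.exp m := by linarith [Real.add_one_le_exp (m : ℝ)]
      have h5 : Real.exp (CF * (1 + Real.log (2 * Q)) ^ 2) * m ≤
          Real.exp (CF * (1 + Real.log (2 * Q)) ^ 2 + m) := by
        rw [Real.exp_add]
        exact mul_le_mul_of_nonneg_left h4 hXpos.le
      refine (pow_le_pow_left₀ (by positivity) h5 m).trans ?_
      rw [← Real.exp_nat_mul, Real.exp_le_exp]
      have h6 : (m : ℝ) * (CF * (1 + Real.log (2 * Q)) ^ 2) ≤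
          (m : ℝ) * (CF * (4 * (1 + Real.log Q) ^ 2)) := by
        apply mul_le_mul_of_nonneg_left _ (by positivity)
        exact mul_le_mul_of_nonneg_left hu4 (by linarith)
      have h7 : (m : ℝ) * m ≤ (m : ℝ) ^ 2 * (1 + Real.log Q) ^ 2 := by nlinarith
      have h8 : (8 * m * CF + (m : ℝ) ^ 2) * (1 + Real.log Q) ^ 2 ≤ C * (1 + Real.log Q) ^ 2 :=
        mul_le_mul_of_nonneg_right hC5 (by linarith)
      have h9 : 0 ≤ (m : ℝ) * CF * (1 + Real.log Q) ^ 2 := by positivity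
      nlinarith
    calc Real.sqrt (∏ i, N i) ≤ N i₀ ^ m := h1
      _ = _ := h2
      _ ≤ Real.exp (C * (1 + Real.log Q) ^ 2) *
          (N i₀ / (Real.exp (CF * (1 + Real.log (2 * Q)) ^ 2) * m)) ^ m := by
          apply mul_le_mul_of_nonneg_right h3
          exact pow_nonneg (div_nonneg (hN0 i₀) (by positivity)) m
      _ ≤ _ := mul_le_mul_of_nonneg_left hfin (Real.exp_pos _).le

end Pool.Agent.SD
end

section

/-!
# Uniform constants for all dimensions at most `d₀`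
-/

set_option autoImplicit false

open scoped ComplexConjugate
open Finset

namespace Pool.Agent.SD

theorem CoreU (d₀ : ℕ) : ∃ (a : ℕ) (C₁ : ℕ → ℝ) (C : ℝ), 1 ≤ a ∧ (∀ d, 1 ≤ C₁ d) ∧
    (∀ d, d ≤ d₀ → C₁ d ≤ C) ∧ 1 ≤ C ∧ ∀ d, d ≤ d₀ → ∀ (L : (Fin d → ℤ) →+ ℂ)
    (N : Fin d → ℝ) (Q ν t : ℝ) (Θ : Finset ℂ), C ≤ Q → Antitone N → (∀ i, Q ^ a ≤ N i) →
    (∀ x ∈ wB N (Q ^ a), L x = 0 → x = 0) → Dirs Θ → Q ^ a ≤ ν →
    (∀ θ ∈ Θ, ν ≤ (cM N (Mt L θ) 1 : ℝ)) → (∏ i, N i) ≤ Q * ((Θ.card : ℝ) * ν ^ 2) →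
    Real.log (∏ i, N i) ≤ Q → 0 < t → t ≤ 1 → C₁ d * (∏ i, N i) ≤ W N t * ν ^ 2 →
    W N t * ν ^ 2 ≤ 2 ^ d * C₁ d * ∏ i, N i → (∀ i, t * N i ≤ (Q ^ 6)⁻¹ ∨ Q ^ 6 ≤ t * N i) →
    Real.exp (C * (1 + Real.log Q) ^ 2) * ν ^ 2 ≤ ∏ i, N i →
    (∀ x, L x = 0 → x = 0) ∧ ∃ θ : ℂ, θ ≠ 0 ∧
      Real.sqrt (∏ i, N i) ≤ Real.exp (C * (1 + Real.log Q) ^ 2) * (cM N (Mt L θ) 1 : ℝ) := by
  choose a C₁ C ha hC₁ hC H using Core
  set a' : ℕ := ∑ d ∈ range (d₀ + 1), a d with ha'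
  set C' : ℝ := ∑ d ∈ range (d₀ + 1), (C d + C₁ d) with hC'
  have hle : ∀ d, d ≤ d₀ → C d + C₁ d ≤ C' := by
    intro d hd
    refine Finset.single_le_sum (f := fun d => C d + C₁ d) (fun i _ => ?_) (mem_range.2 (by omega))
    have := hC i
    have := hC₁ i
    positivity
  have hale : ∀ d, d ≤ d₀ → a d ≤ a' := fun d hd =>
    Finset.single_le_sum (f := a) (fun i _ => Nat.zero_le _) (mem_range.2 (by omega))
  have hC'1 : 1 ≤ C' := by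
    have := hle 0 (Nat.zero_le _)
    have := hC 0
    have := hC₁ 0
    linarith
  refine ⟨a', C₁, C', (ha 0).trans (hale 0 (Nat.zero_le _)), hC₁, fun d hd => ?_, hC'1, ?_⟩
  · have := hle d hd
    have := hC d
    linarith
  intro d hd L N Q ν t Θ hQ hA hN hk hΘ hν hc hV hlog ht ht1 hW1 hW2 hgap hbig
  have hCd : C d ≤ C' := by
    have := hle d hd
    have := hC₁ d
    linarith
  have hQ1 : 1 ≤ Q := hC'1.trans hQ
  have hpow : Q ^ a d ≤ Q ^ a' := pow_le_pow_right₀ hQ1 (hale d hd)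
  have hexp : Real.exp (C d * (1 + Real.log Q) ^ 2) ≤ Real.exp (C' * (1 + Real.log Q) ^ 2) := by
    apply Real.exp_le_exp.2
    exact mul_le_mul_of_nonneg_right hCd (sq_nonneg _)
  have hN0 : ∀ i, 0 ≤ N i := fun i => le_trans (by positivity) (hN i)
  have hsub : wB N (Q ^ a d) ⊆ wB N (Q ^ a') := by
    intro x hx
    rw [mem_wB] at hx ⊢
    intro i
    exact (hx i).trans (mul_le_mul_of_nonneg_right hpow (hN0 i))
  obtain ⟨h1, θ, hθ, h2⟩ := H d L N Q ν t Θ (hCd.trans hQ) hA (fun i => hpow.trans (hN i))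
    (fun x hx => hk x (hsub hx)) hΘ (hpow.trans hν) hc hV hlog ht ht1 hW1 hW2 hgap
    ((mul_le_mul_of_nonneg_right hexp (sq_nonneg _)).trans hbig)
  exact ⟨h1, θ, hθ, h2.trans (mul_le_mul_of_nonneg_right hexp (Nat.cast_nonneg _))⟩

theorem scalesU (d₀ a : ℕ) (ha : 1 ≤ a) : ∃ C : ℝ, 1 ≤ C ∧ ∀ d, d ≤ d₀ → ∀ (N : Fin d → ℝ)
    (σ Q C₁ : ℝ), (∀ i, 1 ≤ N i) → 2 ≤ Q → Q⁻¹ ≤ σ → σ ≤ 1 → 1 ≤ C₁ → C₁ ≤ Q →
    ∃ Bad : Finset ℕ, (Bad.card : ℝ) ≤ C * Real.log Q ∧ ∀ k, k ∉ Bad → (σ * 2 ^ k) ^ 2 ≤ ∏ i, N i →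
      Q ^ a ≤ σ * 2 ^ k ∧ ∃ t : ℝ, 0 < t ∧ t ≤ 1 ∧ C₁ * (∏ i, N i) ≤ W N t * (σ * 2 ^ k) ^ 2 ∧
        W N t * (σ * 2 ^ k) ^ 2 ≤ 2 ^ d * C₁ * ∏ i, N i ∧
        ∀ i, t * N i ≤ (Q ^ 6)⁻¹ ∨ Q ^ 6 ≤ t * N i := by
  have H := fun d => scales d a ha
  choose C hC H using H
  have hle : ∀ d, d ≤ d₀ → C d ≤ ∑ d ∈ range (d₀ + 1), C d := by
    intro d hd
    exact Finset.single_le_sum (f := C) (fun i _ => zero_le_one.trans (hC i)) (mem_range.2 (by omega))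
  refine ⟨∑ d ∈ range (d₀ + 1), C d, (hC 0).trans (hle 0 (Nat.zero_le _)), ?_⟩
  intro d hd N σ Q C₁ hN hQ hσ hσ1 h1 h2
  obtain ⟨Bad, hB, h3⟩ := H d N σ Q C₁ hN hQ hσ hσ1 h1 h2
  refine ⟨Bad, hB.trans (mul_le_mul_of_nonneg_right (hle d hd) (Real.log_nonneg (by linarith))), h3⟩

end Pool.Agent.SD
end

section

/-!
# The theorem for sets which are dense in a generalised arithmetic progression
-/

set_option autoImplicit false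

open scoped ComplexConjugate
open Finset

namespace Pool.Agent.SD

/-- Elementary facts about `u = 1 + log (log n)`. -/
theorem Mn_u {n : ℕ} (hn : 3 ≤ n) : 1 ≤ Real.log n ∧ 1 ≤ 1 + Real.log (Real.log n) ∧
    Real.log (1 + Real.log n) ≤ 1 + Real.log (Real.log n) := by
  have h3 : (3 : ℝ) ≤ n := by exact_mod_cast hn
  have h1 : 1 ≤ Real.log n := by
    rw [Real.le_log_iff_exp_le (by linarith)]
    have := Real.exp_one_lt_d9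
    linarith
  have h2 : 0 ≤ Real.log (Real.log n) := Real.log_nonneg h1
  refine ⟨h1, by linarith, ?_⟩
  have h4 : 1 + Real.log n ≤ Real.exp 1 * Real.log n := by
    have := Real.add_one_le_exp (1 : ℝ)
    nlinarith
  calc Real.log (1 + Real.log n) ≤ Real.log (Real.exp 1 * Real.log n) :=
        Real.log_le_log (by linarith) h4
    _ = 1 + Real.log (Real.log n) := by
        rw [Real.log_mul (Real.exp_pos 1).ne' (by linarith), Real.log_exp]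

/-- The scale of the regularisation. -/
theorem Mn_Q (E a : ℕ) (C₃ Lg u σ : ℝ) (hC₃ : 2 ≤ C₃) (hLg : 1 ≤ Lg) (hu : 1 ≤ u)
    (hLu : Real.log Lg ≤ u) (h1 : ((C₃ * Lg)⁻¹) ^ E ≤ σ) (h2 : σ ≤ (C₃ * Lg)⁻¹) :
    0 < σ ∧ σ ≤ 1 / 2 ∧ C₃ * Lg ≤ (σ ^ 4)⁻¹ ∧ C₃ * Lg ≤ σ⁻¹ ∧ ((σ ^ 4)⁻¹)⁻¹ ≤ σ ∧
      ((σ ^ 4)⁻¹) ^ a = (σ ^ (4 * a))⁻¹ ∧ (σ ^ 2)⁻¹ ≤ (σ ^ 4)⁻¹ ∧
      Real.log ((σ ^ 4)⁻¹) ≤ 4 * E * (1 + Real.log C₃) * u := by
  have hpos : 0 < C₃ * Lg := by nlinarith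
  have hσ : 0 < σ := lt_of_lt_of_le (pow_pos (inv_pos.2 hpos) E) h1
  have h3 : C₃ * Lg ≤ σ⁻¹ := by
    rw [le_inv_comm₀ hpos hσ]
    exact h2
  have h4 : σ ≤ 1 / 2 := by
    refine h2.trans ?_
    rw [one_div, inv_le_inv₀ hpos (by norm_num)]
    nlinarith
  have h5 : σ ^ 4 ≤ σ := by
    have := pow_le_pow_of_le_one hσ.le (by linarith : σ ≤ 1) (show 1 ≤ 4 by norm_num)
    simpa using this
  have h6 : σ⁻¹ ≤ (σ ^ 4)⁻¹ := by
    rw [inv_le_inv₀ hσ (pow_pos hσ 4)]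
    exact h5
  refine ⟨hσ, h4, h3.trans h6, h3, by rw [inv_inv]; exact h5, ?_, ?_, ?_⟩
  · rw [inv_pow, ← pow_mul]
  · rw [inv_le_inv₀ (pow_pos hσ 2) (pow_pos hσ 4)]
    exact pow_le_pow_of_le_one hσ.le (by linarith) (by norm_num)
  · have h7 : Real.log (((C₃ * Lg)⁻¹) ^ E) ≤ Real.log σ := Real.log_le_log (pow_pos (inv_pos.2 hpos) E) h1
    rw [Real.log_pow, Real.log_inv, Real.log_mul (by linarith) (by linarith)] at h7
    rw [Real.log_inv, Real.log_pow]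
    have h8 : 0 ≤ Real.log C₃ := Real.log_nonneg (by linarith)
    have h9 : Real.log C₃ + Real.log Lg ≤ (1 + Real.log C₃) * u := by nlinarith
    have h10 : (E : ℝ) * (Real.log C₃ + Real.log Lg) ≤ E * ((1 + Real.log C₃) * u) :=
      mul_le_mul_of_nonneg_left h9 (Nat.cast_nonneg E)
    push_cast
    nlinarith

theorem le_exp_of_log {x C u : ℝ} (hx : 0 < x) (hu : 1 ≤ u) (h : |Real.log x| ≤ C) :
    x ≤ Real.exp (C * u ^ 2) := by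
  rw [← Real.log_le_iff_le_exp hx]
  have h1 := (abs_le.1 h).2
  have h2 : 0 ≤ C := (abs_nonneg _).trans h
  nlinarith [sq_nonneg u, mul_le_mul hu hu zero_le_one (by linarith)]

end Pool.Agent.SD
end
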