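import Pool.Agent.Lib.MP_6f2296_co.Mg.G006
import Pool.Agent.Lib.MP_6f2296_co.Mg.G002
import Pool.Agent.Lib.MP_6f2296_co.Mg.G001

section

/-!
# The theorem for sets which are dense in a generalised arithmetic progression: conclusion
-/

set_option autoImplicit false

open scoped ComplexConjugate
open Finset

namespace Pool.Agent.SD


private theorem MnP_ZB {B₀ n u c c₁ C₄ Cs bad lQ : ℝ} (hB₀ : 1 ≤ B₀) (hn : 0 < n) (hu : 1 ≤ u)
    (hc : 0 < c) (hc₁ : 0 < c₁) (hC₄ : 0 ≤ C₄) (hCs : 1 ≤ Cs)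
    (h6 : c₁ ≤ c ^ 2 / (8 * B₀ * (72 * Cs * C₄ + 1))) (hb : bad ≤ Cs * lQ) (hl : lQ ≤ C₄ * u) :
    72 * (B₀ * n) * bad + B₀ * n ≤ c ^ 2 / (8 * c₁) * n * u := by
  have hden : 0 < 8 * B₀ * (72 * Cs * C₄ + 1) := by positivity
  have h3 : bad ≤ Cs * (C₄ * u) := hb.trans (mul_le_mul_of_nonneg_left hl (by linarith))
  have h4 : 72 * (B₀ * n) * bad + B₀ * n ≤ B₀ * n * ((72 * Cs * C₄ + 1) * u) := by
    have h5 : 72 * (B₀ * n) * bad ≤ 72 * (B₀ * n) * (Cs * (C₄ * u)) :=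
      mul_le_mul_of_nonneg_left h3 (by positivity)
    have h6 : B₀ * n ≤ B₀ * n * u := le_mul_of_one_le_right (by positivity) hu
    calc 72 * (B₀ * n) * bad + B₀ * n ≤ 72 * (B₀ * n) * (Cs * (C₄ * u)) + B₀ * n * u := add_le_add h5 h6
      _ = _ := by ring
  refine h4.trans ?_
  have h7 : B₀ * (72 * Cs * C₄ + 1) ≤ c ^ 2 / (8 * c₁) := by
    rw [le_div_iff₀ (by positivity)]
    rw [le_div_iff₀ hden] at h6
    linarith
  calc B₀ * n * ((72 * Cs * C₄ + 1) * u) = B₀ * (72 * Cs * C₄ + 1) * (n * u) := by ring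
    _ ≤ c ^ 2 / (8 * c₁) * (n * u) := mul_le_mul_of_nonneg_right h7 (by positivity)
    _ = c ^ 2 / (8 * c₁) * n * u := by ring

private theorem MnP_dens {V σ B lB T CL : ℝ} (k : ℕ) (hσ : 0 < σ) (hT : 0 ≤ T) (h1 : V * σ ≤ B)
    (h2 : B ≤ lB * (4 ^ (k + 1) * T)) (h3 : lB ≤ CL) (h4 : CL * 4 ≤ σ⁻¹) :
    V ≤ (σ ^ 4)⁻¹ * (T * (σ * 2 ^ k) ^ 2) := by
  have h5 : V * σ ≤ CL * (4 ^ (k + 1) * T) := h1.trans (h2.trans (mul_le_mul_of_nonneg_right h3 (by positivity)))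
  have h6 : V * σ ≤ σ⁻¹ * (4 ^ k * T) := by
    calc V * σ ≤ CL * (4 ^ (k + 1) * T) := h5
      _ = CL * 4 * (4 ^ k * T) := by ring
      _ ≤ _ := mul_le_mul_of_nonneg_right h4 (by positivity)
  have h7 : (σ * 2 ^ k) ^ 2 = σ ^ 2 * 4 ^ k := by
    rw [mul_pow, ← pow_mul, mul_comm k 2, pow_mul]
    norm_num
  have h8 : (σ ^ 4)⁻¹ * (T * (σ * 2 ^ k) ^ 2) * σ = σ⁻¹ * (4 ^ k * T) := by
    rw [h7]
    field_simp
  have h9 : V * σ ≤ (σ ^ 4)⁻¹ * (T * (σ * 2 ^ k) ^ 2) * σ := by rw [h8]; exact h6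
  exact le_of_mul_le_mul_right h9 hσ

private theorem MnP_exp {x Y Z W u : ℝ} (hx : 0 < x) (hu : 1 ≤ u) (hY : Y ≤ Z * u ^ 2)
    (hW : |Real.log x| + Z ≤ W) : x * Real.exp Y ≤ Real.exp (W * u ^ 2) := by
  have h7 : x ≤ Real.exp (|Real.log x| * u ^ 2) := le_exp_of_log hx hu le_rfl
  calc x * Real.exp Y ≤ Real.exp (|Real.log x| * u ^ 2) * Real.exp (Z * u ^ 2) :=
        mul_le_mul h7 (Real.exp_le_exp.2 hY) (Real.exp_pos _).le (Real.exp_pos _).le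
    _ = Real.exp ((|Real.log x| + Z) * u ^ 2) := by
        rw [← Real.exp_add]
        congr 1
        ring
    _ ≤ Real.exp (W * u ^ 2) := by
        apply Real.exp_le_exp.2
        exact mul_le_mul_of_nonneg_right hW (sq_nonneg u)

private theorem MnP_big {σ c n V nT X₀ e D : ℝ} (k : ℕ) (hσ : 0 < σ) (hσ1 : σ ≤ 1) (hc : 0 < c)
    (hn : 0 < n) (hX₀ : 1 ≤ X₀) (hD : 0 < D) (he : 0 ≤ e) (h3 : (2 : ℝ) ^ k ≤ nT) (h4 : nT ^ 2 * X₀ ^ 2 ≤ n)
    (h5 : D / c * e ≤ X₀) (h6 : σ * (c * n) ≤ D * V) : e * (σ * 2 ^ k) ^ 2 ≤ V := by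
  have h7 : (σ * 2 ^ k) ^ 2 ≤ σ ^ 2 * nT ^ 2 := by
    rw [mul_pow]
    exact mul_le_mul_of_nonneg_left (pow_le_pow_left₀ (by positivity) h3 2) (sq_nonneg σ)
  have h8 : D / c * e ≤ X₀ ^ 2 := h5.trans (by nlinarith)
  have h9 : e * (σ * 2 ^ k) ^ 2 * (D / c) ≤ V * (D / c) := by
    calc e * (σ * 2 ^ k) ^ 2 * (D / c) = (σ * 2 ^ k) ^ 2 * (D / c * e) := by ring
      _ ≤ (σ * 2 ^ k) ^ 2 * X₀ ^ 2 := mul_le_mul_of_nonneg_left h8 (sq_nonneg _)
      _ ≤ σ ^ 2 * nT ^ 2 * X₀ ^ 2 := mul_le_mul_of_nonneg_right h7 (sq_nonneg _)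
      _ = σ ^ 2 * (nT ^ 2 * X₀ ^ 2) := by ring
      _ ≤ σ ^ 2 * n := mul_le_mul_of_nonneg_left h4 (sq_nonneg _)
      _ ≤ σ * n := by
          have : σ ^ 2 ≤ σ := by nlinarith
          exact mul_le_mul_of_nonneg_right this hn.le
      _ ≤ V * (D / c) := by
          rw [mul_div_assoc', le_div_iff₀ hc]
          linarith
  exact le_of_mul_le_mul_right h9 (by positivity)

private theorem MnP_logV {V B σ CL Q : ℝ} (hV : 0 < V) (hB : 1 ≤ B) (hσ : 0 < σ) (hσ2 : σ ≤ 1 / 2)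
    (h1 : V * σ ≤ B) (h2 : Real.log B ≤ σ⁻¹) (h3 : (σ ^ 2)⁻¹ ≤ Q) : Real.log V ≤ Q := by
  have h4 : V ≤ B * σ⁻¹ := by
    rw [← div_eq_mul_inv, le_div_iff₀ hσ]
    exact h1
  have h5 : Real.log V ≤ Real.log B + Real.log σ⁻¹ := by
    rw [← Real.log_mul (by linarith) (by positivity)]
    exact Real.log_le_log hV h4
  have h6 : Real.log σ⁻¹ ≤ σ⁻¹ := (Real.log_le_sub_one_of_pos (by positivity)).trans (by linarith)
  have h8 : 2 ≤ σ⁻¹ := by
    rw [le_inv_comm₀ (by norm_num) hσ]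
    linarith
  have h10 : (σ ^ 2)⁻¹ = σ⁻¹ * σ⁻¹ := by rw [sq, mul_inv]
  rw [h10] at h3
  nlinarith

private theorem MnP_fin {d d₀ : ℕ} (hd : d ≤ d₀) {B₀ c σ Q e l : ℝ} (hB₀ : 1 ≤ B₀) (hc : 0 < c) (hσ : 0 < σ)
    (hQ : (σ ^ 2)⁻¹ ≤ Q) (he : 0 ≤ e) (h : 6 ^ d₀ * B₀ / c ^ 2 * (Q * e) ≤ l) :
    (6 : ℝ) ^ d * B₀ / (c * σ) ^ 2 * e ≤ l := by
  refine le_trans ?_ h
  have h4 : (6 : ℝ) ^ d ≤ 6 ^ d₀ := pow_le_pow_right₀ (by norm_num) hd
  have h5 : (6 : ℝ) ^ d * B₀ / (c * σ) ^ 2 = 6 ^ d * (B₀ / c ^ 2) * (σ ^ 2)⁻¹ := by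
    field_simp
  rw [h5]
  calc 6 ^ d * (B₀ / c ^ 2) * (σ ^ 2)⁻¹ * e ≤ 6 ^ d₀ * (B₀ / c ^ 2) * Q * e := by
        apply mul_le_mul_of_nonneg_right _ he
        apply mul_le_mul _ hQ (by positivity) (by positivity)
        exact mul_le_mul_of_nonneg_right h4 (by positivity)
    _ = _ := by ring

/-- The case where no direction is rich: there is a dense scale. -/
theorem MnP_mid (d₀ : ℕ) (c C : ℝ) (hc : 0 < c) (hC : 1 ≤ C) : ∃ C₅ : ℝ, 1 ≤ C₅ ∧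
    ∃ c₁ C₆ : ℝ, 0 < c₁ ∧ 1 ≤ C₆ ∧
    ∀ (N₀ : Fin d₀ → ℝ) (L₀ : (Fin d₀ → ℤ) →+ ℂ) (z₀ : ℂ) (A : Finset ℂ), (∀ i, 1 ≤ N₀ i) →
      ((wB N₀ 1).card : ℝ) ≤ C * A.card → c * (A.card : ℝ) ≤ ((In N₀ L₀ z₀ A).card : ℝ) →
      3 ≤ A.card → 2 ≤ c * (A.card : ℝ) →
      (RL.numDist A : ℝ) * (1 + Real.log (Real.log A.card)) ≤ c₁ * A.card →
      (∀ θ : ℂ, θ ≠ 0 → Real.exp (C₅ * (1 + Real.log (Real.log A.card)) ^ 2) *
        (nT ((wB N₀ 4).image L₀) θ : ℝ) < Real.sqrt A.card) →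
      ∃ θ : ℂ, θ ≠ 0 ∧ (In N₀ L₀ z₀ A).card ≤ 2 * (richPts A θ (Real.sqrt A.card *
        Real.exp (-(C₆ * (1 + Real.log (Real.log A.card)) ^ 2)))).card := by
  classical
  obtain ⟨a, C₁, Cc, ha, hC₁, hC₁', hCc, hcore⟩ := CoreU d₀
  obtain ⟨Cs, hCs, hscales⟩ := scalesU d₀ a ha
  obtain ⟨E, hreg⟩ := reg (4 * a) d₀
  -- constants
  set B₀ : ℝ := 24 ^ d₀ * C with hB₀
  have hB₀1 : 1 ≤ B₀ := one_le_mul_of_one_le_of_one_le (one_le_pow₀ (by norm_num)) hC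
  have hlogB₀ : 0 ≤ Real.log B₀ := Real.log_nonneg hB₀1
  set C₇ : ℝ := 2 + Real.log B₀ with hC₇
  set C₃ : ℝ := 4 * C₇ + Cc + 2 with hC₃
  have hC₃2 : 2 ≤ C₃ := by linarith
  set C₄ : ℝ := 4 * E * (1 + Real.log C₃) with hC₄
  have hC₄0 : 0 ≤ C₄ := by
    have : 0 ≤ Real.log C₃ := Real.log_nonneg (by linarith)
    positivity
  set C₅ : ℝ := Cc * (1 + C₄) ^ 2 + |Real.log (3 ^ d₀ / c)| + 1 with hC₅
  have hC₅1 : 1 ≤ C₅ := by
    have h1 : 0 ≤ |Real.log (3 ^ d₀ / c)| := abs_nonneg _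
    have h2 : 0 ≤ Cc * (1 + C₄) ^ 2 := by positivity
    linarith
  set c₁ : ℝ := min (c ^ 2 / 16) (c ^ 2 / (8 * B₀ * (72 * Cs * C₄ + 1))) with hc₁
  have hden : 0 < 8 * B₀ * (72 * Cs * C₄ + 1) := by positivity
  have hc₁0 : 0 < c₁ := lt_min (by positivity) (by positivity)
  set C₆ : ℝ := |Real.log (6 ^ d₀ * (4 * B₀) / c ^ 2)| + C₄ + Cc * (1 + C₄) ^ 2 + 1 with hC₆
  have hC₆1 : 1 ≤ C₆ := by
    have : 0 ≤ |Real.log (6 ^ d₀ * (4 * B₀) / c ^ 2)| := abs_nonneg _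
    have : 0 ≤ Cc * (1 + C₄) ^ 2 := by positivity
    linarith
  refine ⟨C₅, hC₅1, c₁, C₆, hc₁0, hC₆1, ?_⟩
  intro N₀ L₀ z₀ A hN₀ h1 h2 hn3 hcn hD hno
  obtain ⟨hlog1, hu1, hlu⟩ := Mn_u hn3
  set n : ℝ := (A.card : ℝ) with hn
  set u : ℝ := 1 + Real.log (Real.log n) with hu
  have hn3' : (3 : ℝ) ≤ n := by rw [hn]; exact_mod_cast hn3
  have hnpos : 0 < n := by linarith
  set Lg : ℝ := 1 + Real.log n with hLg
  have hLg1 : 1 ≤ Lg := by linarith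
  have hsq0 : ∀ i, 0 ≤ N₀ i := fun i => zero_le_one.trans (hN₀ i)
  set X : Finset ℂ := (wB N₀ 4).image L₀ with hX
  set W' : Finset ℂ := (wB N₀ 8).image L₀ with hW'
  set B : ℝ := B₀ * n with hB
  have hB1 : 1 ≤ B := one_le_mul_of_one_le_of_one_le hB₀1 (by linarith)
  have hnB : n ≤ B := le_mul_of_one_le_left hnpos.le hB₀1
  -- cardinalities
  have hcard8 : ((wB N₀ 8).card : ℝ) ≤ B := by
    have h3 := card_le_V hsq0 (show (0 : ℝ) ≤ 8 by norm_num) (fun i => by have := hN₀ i; linarith)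
    have h4 := W_le_card hsq0 (zero_le_one' ℝ)
    rw [W_eq (fun i => by rw [one_mul]; exact hN₀ i), one_pow, one_mul] at h4
    have h5 : (3 * 8 : ℝ) ^ d₀ = 24 ^ d₀ := by norm_num
    calc ((wB N₀ 8).card : ℝ) ≤ (3 * 8) ^ d₀ * ∏ i, N₀ i := h3
      _ ≤ 24 ^ d₀ * (C * n) := by
          rw [h5]
          exact mul_le_mul_of_nonneg_left (h4.trans h1) (by positivity)
      _ = B := by rw [hB, hB₀]; ring
  have hcard4 : ((wB N₀ 4).card : ℝ) ≤ B := by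
    refine le_trans ?_ hcard8
    exact_mod_cast card_le_card (wB_mono hsq0 (by norm_num))
  have hWB : (W'.card : ℝ) ≤ B := by
    refine le_trans ?_ hcard8
    exact_mod_cast card_image_le
  have hXB : (X.card : ℝ) ≤ B := by
    refine le_trans ?_ hcard4
    exact_mod_cast card_image_le
  have h0X : (0 : ℂ) ∈ X := by
    rw [hX, mem_image]
    exact ⟨0, zero_mem_wB (fun i => by have := hsq0 i; positivity), map_zero L₀⟩
  have hnegX : ∀ x ∈ X, -x ∈ X := by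
    intro x hx
    rw [hX, mem_image] at hx ⊢
    obtain ⟨y, hy, rfl⟩ := hx
    exact ⟨-y, neg_mem_wB hy, map_neg L₀ y⟩
  have hWX : ∀ x ∈ X, ∀ y ∈ X, x + y ∈ W' := by
    intro x hx y hy
    rw [hX, mem_image] at hx hy
    rw [hW', mem_image]
    obtain ⟨x', hx', rfl⟩ := hx
    obtain ⟨y', hy', rfl⟩ := hy
    refine ⟨x' + y', ?_, map_add L₀ x' y'⟩
    have := add_mem_wB hx' hy'
    norm_num at this
    exact this
  -- the number of parallel pairs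
  have hZ := PB d₀ c hc N₀ L₀ z₀ A hN₀ h2 hcn hc₁0 (min_le_left _ _) hu1 hD
  obtain ⟨Θ, hΘX, hΘ, hZΘ⟩ := exists_dirs X h0X
  -- regularisation
  have hC₃Lg : 0 < C₃ * Lg := mul_pos (by linarith) (by linarith)
  have hσ₀ : 0 < (C₃ * Lg)⁻¹ := inv_pos.2 hC₃Lg
  have hσ₀' : (C₃ * Lg)⁻¹ ≤ 1 / 2 := by
    rw [one_div, inv_le_inv₀ hC₃Lg (by norm_num)]
    exact hC₃2.trans (le_mul_of_one_le_right (by linarith) hLg1)
  obtain ⟨d, N, L, σ, hd, hσE, hσσ, hanti, hN, hker, hcardN, hpts, hdir⟩ :=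
    hreg (C₃ * Lg)⁻¹ hσ₀ hσ₀' (fun i => 4 * N₀ i) L₀ (fun i => by have := hN₀ i; linarith)
  obtain ⟨hσ, hσ2, hQ1, hQ2, hQ3, hQa, hQ4, hQlog⟩ := Mn_Q E a C₃ Lg u σ hC₃2 hLg1 hu1 hlu hσE hσσ
  set Q : ℝ := (σ ^ 4)⁻¹ with hQ
  have hσ1 : σ ≤ 1 := by linarith
  have hwB4 : wB (fun i => 4 * N₀ i) 1 = wB N₀ 4 := by rw [wB_smul, mul_one]
  rw [hwB4] at hcardN hpts hdir
  have hC₃Q : C₃ ≤ Q := by
    refine le_trans ?_ hQ1
    exact le_mul_of_one_le_right (by linarith) hLg1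
  have hQ2' : 2 ≤ Q := hC₃2.trans hC₃Q
  have hCcQ : Cc ≤ Q := by linarith
  have hNQ : ∀ i, Q ^ a ≤ N i := fun i => by rw [hQa]; exact hN i
  have hN1 : ∀ i, 1 ≤ N i := fun i => (one_le_pow₀ (by linarith)).trans (hNQ i)
  have hN0 : ∀ i, 0 ≤ N i := fun i => zero_le_one.trans (hN1 i)
  obtain ⟨Bad, hBad, hsc⟩ := hscales d hd N σ Q (C₁ d) hN1 hQ2' hQ3 hσ1 (hC₁ d)
    ((hC₁' d hd).trans hCcQ)
  have hX₀ : 1 ≤ Real.exp (C₅ * u ^ 2) := Real.one_le_exp (by positivity)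
  have hnT : ∀ θ : ℂ, θ ≠ 0 → (nT X θ : ℝ) ^ 2 * Real.exp (C₅ * u ^ 2) ^ 2 ≤ n := by
    intro θ hθ
    have h3 := hno θ hθ
    have h4 : (Real.exp (C₅ * u ^ 2) * (nT X θ : ℝ)) ^ 2 ≤ Real.sqrt n ^ 2 :=
      pow_le_pow_left₀ (by positivity) h3.le 2
    rw [Real.sq_sqrt hnpos.le] at h4
    calc (nT X θ : ℝ) ^ 2 * Real.exp (C₅ * u ^ 2) ^ 2 = (Real.exp (C₅ * u ^ 2) * (nT X θ : ℝ)) ^ 2 := by ring
      _ ≤ n := h4
  have hnTB : ∀ θ ∈ Θ, (nT X θ : ℝ) ^ 2 ≤ B := by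
    intro θ hθ
    refine le_trans ?_ ((hnT θ (hΘ.1 θ hθ)).trans hnB)
    exact le_mul_of_one_le_right (by positivity) (one_le_pow₀ hX₀)
  have hZB : 72 * B * Bad.card + B ≤ ∑ θ ∈ Θ, ((nT X θ : ℝ) - 1) ^ 2 := by
    rw [← hZΘ]
    exact le_trans (MnP_ZB hB₀1 hnpos hu1 hc hc₁0 hC₄0 hCs (min_le_right _ _) hBad hQlog) hZ
  obtain ⟨k, hk, hkB⟩ := dyadic h0X hnegX hWX hΘ hΘX hB1 hWB hXB hnTB Bad hZB
  set Θk : Finset ℂ := Θ.filter fun θ => 2 ^ k ≤ nT X θ ∧ nT X θ < 2 ^ (k + 1) with hΘk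
  have hlogB : 1 + Real.log B ≤ C₇ * Lg := by
    rw [hB, Real.log_mul (by linarith) (by linarith)]
    have h3 : 0 ≤ Real.log B₀ * Real.log n := mul_nonneg hlogB₀ (by linarith)
    calc 1 + (Real.log B₀ + Real.log n) ≤ 1 + (Real.log B₀ + Real.log n) +
          (1 + Real.log n + Real.log B₀ * Real.log n) := le_add_of_nonneg_right (by linarith)
      _ = C₇ * Lg := by rw [hC₇, hLg]; ring
  have hlogB0 : 0 ≤ Real.log B := Real.log_nonneg hB1
  have hΘk0 : 0 < Θk.card := by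
    rcases Nat.eq_zero_or_pos Θk.card with h3 | h3
    · rw [h3, Nat.cast_zero, mul_zero, mul_zero] at hkB
      linarith
    · exact h3
  -- the number `ν`
  set ν : ℝ := σ * 2 ^ k with hν
  have hνpos : 0 < ν := by positivity
  have hΘkdirs : Dirs Θk := ⟨fun θ hθ => hΘ.1 θ (mem_filter.1 hθ).1, fun θ hθ θ' hθ' =>
    hΘ.2 θ (mem_filter.1 hθ).1 θ' (mem_filter.1 hθ').1⟩
  have hcM : ∀ θ ∈ Θk, ν ≤ (cM N (Mt L θ) 1 : ℝ) := by
    intro θ hθ
    have h3 : ((2 : ℝ) ^ k) ≤ nT X θ := by exact_mod_cast (mem_filter.1 hθ).2.1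
    have h4 := hdir θ
    have h5 : ((((wB N 1).image L).filter fun z => par θ z).card : ℝ) ≤ cM N (Mt L θ) 1 := by
      have h6 : ((wB N 1).image L).filter (fun z => par θ z) ⊆
          ((wB N 1).filter (· ∈ Mt L θ)).image L := by
        intro z hz
        rw [mem_filter, mem_image] at hz
        obtain ⟨⟨x, hx, rfl⟩, hz2⟩ := hz
        exact mem_image.2 ⟨x, mem_filter.2 ⟨hx, hz2⟩, rfl⟩
      have h7 := (card_le_card h6).trans card_image_le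
      unfold cM
      exact_mod_cast h7
    calc ν = σ * 2 ^ k := hν
      _ ≤ σ * nT X θ := mul_le_mul_of_nonneg_left h3 hσ.le
      _ ≤ _ := h4
      _ ≤ _ := h5
  -- the volume
  set V : ℝ := ∏ i, N i with hV
  have hVpos : 0 < V := prod_pos fun i _ => lt_of_lt_of_le one_pos (hN1 i)
  have hW1 : W N 1 = V := by rw [W_eq (fun i => by rw [one_mul]; exact hN1 i), one_pow, one_mul]
  have hVcard : V ≤ ((wB N 1).card : ℝ) := by rw [← hW1]; exact W_le_card hN0 zero_le_one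
  have hcardV : ((wB N 1).card : ℝ) ≤ 3 ^ d₀ * V := by
    rw [← hW1]
    refine (card_le_W hN0 zero_le_one).trans ?_
    exact mul_le_mul_of_nonneg_right (pow_le_pow_right₀ (by norm_num) hd) (by rw [hW1]; exact hVpos.le)
  have hVσ : V * σ ≤ B := by
    calc V * σ ≤ (wB N 1).card * σ := mul_le_mul_of_nonneg_right hVcard hσ.le
      _ = σ * (wB N 1).card := mul_comm _ _
      _ ≤ _ := hcardN
      _ ≤ B := hcard4
  obtain ⟨z, hz⟩ := hpts A z₀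
  have hz' : σ * (c * n) ≤ ((In N L z A).card : ℝ) := by
    refine le_trans (mul_le_mul_of_nonneg_left (h2.trans ?_) hσ.le) hz
    have h3 : In N₀ L₀ z₀ A ⊆ A.filter fun a => ∃ x ∈ wB N₀ 4, a = z₀ + L₀ x := by
      intro b hb
      unfold In at hb
      rw [mem_filter] at hb ⊢
      obtain ⟨hb1, x, hx, hb2⟩ := hb
      exact ⟨hb1, x, wB_mono hsq0 (by norm_num) hx, hb2⟩
    exact_mod_cast card_le_card h3
  have hInle : ((In N L z A).card : ℝ) ≤ (wB N 1).card := by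
    have h3 : In N L z A ⊆ (wB N 1).image fun x => z + L x := by
      intro b hb
      unfold In at hb
      rw [mem_filter] at hb
      obtain ⟨_, x, hx, rfl⟩ := hb
      exact mem_image.2 ⟨x, hx, rfl⟩
    exact_mod_cast (card_le_card h3).trans card_image_le
  have hVlow : σ * (c * n) ≤ 3 ^ d₀ * V := hz'.trans (hInle.trans hcardV)
  -- density
  have h47 : C₇ * Lg * 4 ≤ σ⁻¹ := by
    refine le_trans ?_ hQ2
    have : 0 ≤ (Cc + 2) * Lg := by positivity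
    calc C₇ * Lg * 4 ≤ C₇ * Lg * 4 + (Cc + 2) * Lg := le_add_of_nonneg_right this
      _ = C₃ * Lg := by rw [hC₃]; ring
  have hdens : V ≤ Q * ((Θk.card : ℝ) * ν ^ 2) :=
    MnP_dens k hσ (Nat.cast_nonneg _) hVσ hkB hlogB h47
  -- largeness
  have hlogQ0 : 0 ≤ Real.log Q := Real.log_nonneg (by linarith)
  have hCQ : Cc * (1 + Real.log Q) ^ 2 ≤ Cc * (1 + C₄) ^ 2 * u ^ 2 := by
    have h3 : 1 + Real.log Q ≤ (1 + C₄) * u := by
      calc 1 + Real.log Q ≤ u + C₄ * u := add_le_add hu1 hQlog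
        _ = _ := by ring
    have h4 : (1 + Real.log Q) ^ 2 ≤ ((1 + C₄) * u) ^ 2 := pow_le_pow_left₀ (by linarith) h3 2
    calc Cc * (1 + Real.log Q) ^ 2 ≤ Cc * ((1 + C₄) * u) ^ 2 :=
          mul_le_mul_of_nonneg_left h4 (by linarith)
      _ = _ := by ring
  have hbig : Real.exp (Cc * (1 + Real.log Q) ^ 2) * ν ^ 2 ≤ V := by
    obtain ⟨θ, hθ⟩ := card_pos.1 hΘk0
    have h3 : ((2 : ℝ) ^ k) ≤ nT X θ := by exact_mod_cast (mem_filter.1 hθ).2.1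
    have h4 := hnT θ (hΘkdirs.1 θ hθ)
    exact MnP_big k hσ hσ1 hc hnpos hX₀ (by positivity) (Real.exp_pos _).le h3 h4
      (MnP_exp (x := 3 ^ d₀ / c) (by positivity) hu1 hCQ (by rw [hC₅]; linarith)) hVlow
  have hνV : ν ^ 2 ≤ V := by
    refine le_trans ?_ hbig
    exact le_mul_of_one_le_left (sq_nonneg _) (Real.one_le_exp (by positivity))
  have hlogV : Real.log V ≤ Q := by
    refine MnP_logV (CL := 0) hVpos hB1 hσ hσ2 hVσ ?_ hQ4
    refine le_trans ?_ h47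
    have h3 : 0 ≤ C₇ * Lg := by positivity
    linarith
  obtain ⟨hνQ, t, ht, ht1, hW1', hW2', hgap⟩ := hsc k hk hνV
  obtain ⟨hinj, θ, hθ, hfin⟩ := hcore d hd L N Q ν t Θk hCcQ hanti hNQ
    (fun x hx => hker x (by rw [← hQa]; exact hx)) hΘkdirs hνQ hcM hdens hlogV ht ht1 hW1' hW2' hgap hbig
  -- conclusion
  have hc1 : c ≤ 1 := by
    have h3 : ((In N₀ L₀ z₀ A).card : ℝ) ≤ n := by
      rw [hn]
      exact_mod_cast card_le_card (filter_subset _ _)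
    exact le_of_mul_le_mul_right (by rw [one_mul]; exact h2.trans h3) hnpos
  refine ⟨θ, hθ, ?_⟩
  have hIn : In N₀ L₀ z₀ A ⊆ A := by
    unfold In
    exact filter_subset _ _
  refine poor hIn (mul_pos (Real.sqrt_pos.2 hnpos) (Real.exp_pos _)) ?_
  intro P hP hPcard
  have hPc : c * n ≤ 2 * (P.card : ℝ) := by
    refine h2.trans ?_
    exact_mod_cast hPcard.le
  have hPpos : (0 : ℝ) < P.card := by
    have : 0 < c * n := by positivity
    linarith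
  obtain ⟨z₁, hz₁⟩ := hpts P z₀
  have hPf : (P.filter fun b => ∃ x ∈ wB N₀ 4, b = z₀ + L₀ x) = P := by
    rw [filter_eq_self]
    intro b hb
    have hb' := hP hb
    unfold In at hb'
    rw [mem_filter] at hb'
    obtain ⟨_, x, hx, hb2⟩ := hb'
    exact ⟨x, wB_mono hsq0 (by norm_num) hx, hb2⟩
  rw [hPf] at hz₁
  have h2c : 1 ≤ 2 / c := by
    rw [le_div_iff₀ hc]
    linarith
  obtain ⟨p, hp⟩ := PC d N L hinj z₁ P hN1 (σ := σ) (B := B₀ * (2 / c)) hσ hσ1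
    (one_le_mul_of_one_le_of_one_le hB₀1 h2c) (Real.exp_pos _).le (by
      calc (∏ i, N i) * σ ≤ B₀ * n := hVσ
        _ = B₀ / c * (c * n) := by field_simp
        _ ≤ B₀ / c * (2 * P.card) := mul_le_mul_of_nonneg_left hPc (by positivity)
        _ = B₀ * (2 / c) * P.card := by ring) (by
      unfold In
      exact hz₁) hθ hfin
  refine ⟨p, ?_⟩
  have hsn : Real.sqrt n ≤ 2 / c * Real.sqrt P.card := by
    refine Real.sqrt_le_iff.2 ⟨by positivity, ?_⟩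
    rw [mul_pow, Real.sq_sqrt hPpos.le]
    have h3 : n ≤ 2 / c * P.card := by
      rw [div_mul_eq_mul_div, le_div_iff₀ hc]
      linarith
    have h4 : 2 / c ≤ (2 / c) ^ 2 := le_self_pow₀ h2c two_ne_zero
    exact h3.trans (mul_le_mul_of_nonneg_right h4 hPpos.le)
  rw [Real.exp_neg, ← div_eq_mul_inv, div_le_iff₀ (Real.exp_pos _), mul_comm]
  have hl0 : (0 : ℝ) ≤ ((RL.onLine P p θ).card : ℝ) := Nat.cast_nonneg _
  have hkey : (6 : ℝ) ^ d * (4 * B₀) / (c * σ) ^ 2 * Real.exp (Cc * (1 + Real.log Q) ^ 2) ≤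
      Real.exp (C₆ * u ^ 2) := by
    refine MnP_fin hd (by linarith) hc hσ hQ4 (Real.exp_pos _).le ?_
    have h7 : Q ≤ Real.exp (C₄ * u ^ 2) := by
      rw [← Real.log_le_iff_le_exp (by linarith)]
      refine hQlog.trans ?_
      have : u ≤ u ^ 2 := le_self_pow₀ hu1 two_ne_zero
      exact mul_le_mul_of_nonneg_left this hC₄0
    have h8 : Q * Real.exp (Cc * (1 + Real.log Q) ^ 2) ≤
        Real.exp (C₄ * u ^ 2 + Cc * (1 + C₄) ^ 2 * u ^ 2) := by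
      rw [Real.exp_add]
      exact mul_le_mul h7 (Real.exp_le_exp.2 hCQ) (Real.exp_pos _).le (Real.exp_pos _).le
    refine (mul_le_mul_of_nonneg_left h8 (by positivity)).trans ?_
    exact MnP_exp (x := 6 ^ d₀ * (4 * B₀) / c ^ 2) (Z := C₄ + Cc * (1 + C₄) ^ 2) (by positivity) hu1
      (le_of_eq (by ring)) (by rw [hC₆]; linarith)
  calc Real.sqrt n ≤ 2 / c * Real.sqrt P.card := hsn
    _ ≤ 2 / c * (6 ^ d * (B₀ * (2 / c)) / σ ^ 2 * Real.exp (Cc * (1 + Real.log Q) ^ 2) *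
        ((RL.onLine P p θ).card : ℝ)) := mul_le_mul_of_nonneg_left hp (by positivity)
    _ = 6 ^ d * (4 * B₀) / (c * σ) ^ 2 * Real.exp (Cc * (1 + Real.log Q) ^ 2) *
        ((RL.onLine P p θ).card : ℝ) := by
        field_simp
        ring
    _ ≤ _ := mul_le_mul_of_nonneg_right hkey hl0

end Pool.Agent.SD
end

section

/-!
# Rich lines in sets of small doubling with few distances
-/

set_option autoImplicit false

open scoped ComplexConjugate Pointwise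
open Finset

namespace Pool.Agent.SD

/-- A set with a bounded number of points. -/
theorem GP_small {c C : ℝ} (hc : 0 < c) (hC : |Real.log (2 / c)| ≤ C) {A : Finset ℂ} (hA : 3 ≤ A.card)
    (h : c * (A.card : ℝ) < 2) (w : ℂ) :
    richPts A w (Real.sqrt A.card * Real.exp (-(C * (1 + Real.log (Real.log A.card)) ^ 2))) = A := by
  obtain ⟨-, hu1, -⟩ := Mn_u hA
  apply richPts_one
  have hn1 : (1 : ℝ) ≤ A.card := by exact_mod_cast (by omega : 1 ≤ A.card)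
  have h3 : (A.card : ℝ) ≤ 2 / c := by
    rw [le_div_iff₀ hc]
    linarith
  have h4 : Real.sqrt A.card ≤ 2 / c := by
    refine le_trans (Real.sqrt_le_iff.2 ⟨by linarith, ?_⟩) h3
    nlinarith
  have h5 := le_exp_of_log (by positivity : 0 < 2 / c) hu1 hC
  rw [Real.exp_neg, ← div_eq_mul_inv, div_le_one (Real.exp_pos _)]
  exact h4.trans h5

theorem In_subset {d : ℕ} (N : Fin d → ℝ) (L : (Fin d → ℤ) →+ ℂ) (z : ℂ) (A : Finset ℂ) :
    In N L z A ⊆ A := by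
  classical
  unfold In
  exact filter_subset _ _

/-- The theorem for sets which are dense in a generalised arithmetic progression of rank `d`. -/
theorem GP1 (d : ℕ) (c C : ℝ) (hc : 0 < c) (hC : 1 ≤ C) : ∃ c₁ C₈ : ℝ, 0 < c₁ ∧ 1 ≤ C₈ ∧
    ∀ (N₀ : Fin d → ℝ) (L₀ : (Fin d → ℤ) →+ ℂ) (z₀ : ℂ) (A : Finset ℂ), (∀ i, 1 ≤ N₀ i) →
      ((wB N₀ 1).card : ℝ) ≤ C * A.card → c * (A.card : ℝ) ≤ ((In N₀ L₀ z₀ A).card : ℝ) →
      3 ≤ A.card →
      (RL.numDist A : ℝ) * (1 + Real.log (Real.log A.card)) ≤ c₁ * A.card →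
      ∃ θ : ℂ, θ ≠ 0 ∧ c / 2 * (A.card : ℝ) ≤ ((richPts A θ (Real.sqrt A.card *
        Real.exp (-(C₈ * (1 + Real.log (Real.log A.card)) ^ 2)))).card : ℝ) := by
  classical
  obtain ⟨C₅, hC₅, c₁, C₆, hc₁, hC₆, hmid⟩ := MnP_mid d c C hc hC
  obtain ⟨C₈, hC₈⟩ : ∃ C₈ : ℝ, C₈ = |Real.log (2 / c)| + C₆ +
      (|Real.log (2 / c * (15 ^ d * (C * (2 / c))))| + C₅) := ⟨_, rfl⟩
  have e1 : 0 ≤ |Real.log (2 / c)| := abs_nonneg _
  have e2 : 0 ≤ |Real.log (2 / c * (15 ^ d * (C * (2 / c))))| := abs_nonneg _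
  refine ⟨c₁, C₈, hc₁, by linarith, ?_⟩
  intro N₀ L₀ z₀ A hN₀ h1 h2 hn3 hD
  obtain ⟨-, hu1, -⟩ := Mn_u hn3
  have hnpos : (0 : ℝ) < A.card := by exact_mod_cast (by omega : 0 < A.card)
  have hIn : In N₀ L₀ z₀ A ⊆ A := In_subset _ _ _ _
  have hInR : ((In N₀ L₀ z₀ A).card : ℝ) ≤ A.card := by exact_mod_cast card_le_card hIn
  have hcn1 : c * (A.card : ℝ) ≤ A.card := h2.trans hInR
  have hc1 : c ≤ 1 := by
    have : c * (A.card : ℝ) ≤ 1 * A.card := by linarith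
    exact le_of_mul_le_mul_right this hnpos
  by_cases hcn : c * (A.card : ℝ) < 2
  · refine ⟨1, one_ne_zero, ?_⟩
    rw [GP_small hc (by linarith) hn3 hcn]
    nlinarith
  rw [not_lt] at hcn
  by_cases hno : ∀ θ : ℂ, θ ≠ 0 → Real.exp (C₅ * (1 + Real.log (Real.log A.card)) ^ 2) *
        (nT ((wB N₀ 4).image L₀) θ : ℝ) < Real.sqrt A.card
  · obtain ⟨θ, hθ, hfin⟩ := hmid N₀ L₀ z₀ A hN₀ h1 h2 hn3 hcn hD hno
    refine ⟨θ, hθ, ?_⟩
    have h3 : ((In N₀ L₀ z₀ A).card : ℝ) ≤ 2 * ((richPts A θ (Real.sqrt A.card *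
        Real.exp (-(C₆ * (1 + Real.log (Real.log A.card)) ^ 2)))).card : ℝ) := by
      exact_mod_cast hfin
    have h4 := card_le_card (richPts_mono (Finset.Subset.refl A) θ
      (S := Real.sqrt A.card * Real.exp (-(C₈ * (1 + Real.log (Real.log A.card)) ^ 2)))
      (T := Real.sqrt A.card * Real.exp (-(C₆ * (1 + Real.log (Real.log A.card)) ^ 2)))
      (mul_le_mul_of_nonneg_left (Real.exp_le_exp.2 (neg_le_neg
        (mul_le_mul_of_nonneg_right (by linarith) (sq_nonneg _)))) (Real.sqrt_nonneg _)))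
    have h5 : ((richPts A θ (Real.sqrt A.card *
        Real.exp (-(C₆ * (1 + Real.log (Real.log A.card)) ^ 2)))).card : ℝ) ≤
        ((richPts A θ (Real.sqrt A.card *
        Real.exp (-(C₈ * (1 + Real.log (Real.log A.card)) ^ 2)))).card : ℝ) := by exact_mod_cast h4
    linarith
  · push Not at hno
    obtain ⟨θ, hθ, hrich⟩ := hno
    refine ⟨θ, hθ, ?_⟩
    have h2c : 1 ≤ 2 / c := by
      rw [le_div_iff₀ hc]
      linarith
    have hpoor : (In N₀ L₀ z₀ A).card ≤ 2 * (richPts A θ (Real.sqrt A.card *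
        Real.exp (-(C₈ * (1 + Real.log (Real.log A.card)) ^ 2)))).card := by
      refine poor hIn (mul_pos (Real.sqrt_pos.2 hnpos) (Real.exp_pos _)) ?_
      intro P hP hPcard
      have hPc : c * (A.card : ℝ) ≤ 2 * (P.card : ℝ) := by
        refine h2.trans ?_
        exact_mod_cast hPcard.le
      have hPA : (P.card : ℝ) ≤ A.card := by exact_mod_cast card_le_card (hP.trans hIn)
      have hPpos : (0 : ℝ) < P.card := by
        have : 0 < c * (A.card : ℝ) := by positivity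
        linarith
      obtain ⟨p, hp⟩ := PA d 1 (C * (2 / c)) one_pos (one_le_mul_of_one_le_of_one_le hC h2c) N₀ L₀ z₀ P
        hN₀ (by
          calc ((wB N₀ 1).card : ℝ) ≤ C * A.card := h1
            _ = C / c * (c * A.card) := by field_simp
            _ ≤ C / c * (2 * P.card) := mul_le_mul_of_nonneg_left hPc (by positivity)
            _ = C * (2 / c) * P.card := by ring) (by rw [In_self hP, one_mul])
        (Real.exp_pos _).le hθ ((Real.sqrt_le_sqrt hPA).trans hrich)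
      refine ⟨p, ?_⟩
      have hsn : Real.sqrt A.card ≤ 2 / c * Real.sqrt P.card := by
        refine Real.sqrt_le_iff.2 ⟨by positivity, ?_⟩
        rw [mul_pow, Real.sq_sqrt hPpos.le]
        have h3 : (A.card : ℝ) ≤ 2 / c * P.card := by
          rw [div_mul_eq_mul_div, le_div_iff₀ hc]
          linarith
        have h4 : 2 / c ≤ (2 / c) ^ 2 := le_self_pow₀ h2c two_ne_zero
        exact h3.trans (mul_le_mul_of_nonneg_right h4 hPpos.le)
      rw [Real.exp_neg, ← div_eq_mul_inv, div_le_iff₀ (Real.exp_pos _), mul_comm]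
      have hl0 : (0 : ℝ) ≤ ((RL.onLine P p θ).card : ℝ) := Nat.cast_nonneg _
      have hpos : 0 < 2 / c * (15 ^ d * (C * (2 / c))) := by positivity
      have hkey : 2 / c * (15 ^ d * (C * (2 / c))) *
          Real.exp (C₅ * (1 + Real.log (Real.log A.card)) ^ 2) ≤
          Real.exp (C₈ * (1 + Real.log (Real.log A.card)) ^ 2) := by
        refine (mul_le_mul_of_nonneg_right (le_exp_of_log hpos hu1 le_rfl) (Real.exp_pos _).le).trans ?_
        rw [← Real.exp_add, ← add_mul]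
        exact Real.exp_le_exp.2 (mul_le_mul_of_nonneg_right (by linarith) (sq_nonneg _))
      calc Real.sqrt A.card ≤ 2 / c * Real.sqrt P.card := hsn
        _ ≤ 2 / c * (15 ^ d * (C * (2 / c)) / 1 *
            Real.exp (C₅ * (1 + Real.log (Real.log A.card)) ^ 2) *
            ((RL.onLine P p θ).card : ℝ)) := mul_le_mul_of_nonneg_left hp (by positivity)
        _ = 2 / c * (15 ^ d * (C * (2 / c))) *
            Real.exp (C₅ * (1 + Real.log (Real.log A.card)) ^ 2) *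
            ((RL.onLine P p θ).card : ℝ) := by ring
        _ ≤ _ := mul_le_mul_of_nonneg_right hkey hl0
    have h3 : ((In N₀ L₀ z₀ A).card : ℝ) ≤ 2 * ((richPts A θ (Real.sqrt A.card *
        Real.exp (-(C₈ * (1 + Real.log (Real.log A.card)) ^ 2)))).card : ℝ) := by
      exact_mod_cast hpoor
    linarith

/-- The theorem for sets of small doubling. -/
theorem GPdoub (K : ℝ) : ∃ c c' C : ℝ, 0 < c ∧ 0 < c' ∧ 1 ≤ C ∧ ∀ A : Finset ℂ, 3 ≤ A.card →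
    ((A + A).card : ℝ) ≤ K * A.card →
    (RL.numDist A : ℝ) * (1 + Real.log (Real.log A.card)) ≤ c * A.card →
    ∃ θ : ℂ, θ ≠ 0 ∧ c' * (A.card : ℝ) ≤ ((richPts A θ (Real.sqrt A.card *
        Real.exp (-(C * (1 + Real.log (Real.log A.card)) ^ 2)))).card : ℝ) := by
  classical
  obtain ⟨D, c, C, hc, hC, hF⟩ := FreimanRuzsa K
  have H := fun d => GP1 d c (max C 1) hc (le_max_right _ _)
  choose c₁ C₈ hc₁ hC₈ H using H
  have hne : (range (D + 1)).Nonempty := ⟨0, mem_range.2 (by omega)⟩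
  obtain ⟨c₂, hc₂⟩ : ∃ c₂, c₂ = (range (D + 1)).inf' hne c₁ := ⟨_, rfl⟩
  have hc₂0 : 0 < c₂ := by
    rw [hc₂, lt_inf'_iff]
    exact fun d _ => hc₁ d
  refine ⟨c₂, c / 2, ∑ d ∈ range (D + 1), C₈ d, hc₂0, by positivity, ?_, ?_⟩
  · refine (hC₈ 0).trans (single_le_sum (f := C₈) (fun i _ => zero_le_one.trans (hC₈ i)) ?_)
    exact mem_range.2 (by omega)
  intro A hn3 hAA hD
  obtain ⟨d, hd, N, L, z, hN, h1, h2⟩ := hF A (card_pos.1 (by omega)) hAA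
  have hn0 : (0 : ℝ) ≤ A.card := Nat.cast_nonneg _
  have hmem : d ∈ range (D + 1) := mem_range.2 (by omega)
  obtain ⟨θ, hθ, hfin⟩ := H d N L z A hN
    (h1.trans (mul_le_mul_of_nonneg_right (le_max_left _ _) hn0)) (by
      unfold In
      exact h2) hn3 (hD.trans (mul_le_mul_of_nonneg_right (by
        rw [hc₂]
        exact inf'_le _ hmem) hn0))
  refine ⟨θ, hθ, hfin.trans ?_⟩
  have h4 := card_le_card (richPts_mono (Finset.Subset.refl A) θ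
      (S := Real.sqrt A.card * Real.exp (-((∑ d ∈ range (D + 1), C₈ d) *
        (1 + Real.log (Real.log A.card)) ^ 2)))
      (T := Real.sqrt A.card * Real.exp (-(C₈ d * (1 + Real.log (Real.log A.card)) ^ 2)))
      (mul_le_mul_of_nonneg_left (Real.exp_le_exp.2 (neg_le_neg
        (mul_le_mul_of_nonneg_right
          (single_le_sum (f := C₈) (fun i _ => zero_le_one.trans (hC₈ i)) hmem) (sq_nonneg _))))
        (Real.sqrt_nonneg _)))
  exact_mod_cast h4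

end Pool.Agent.SD
end
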