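import Pool.Agent.Lib.MP_6f2296_co.Mg.G006
import Pool.Agent.Lib.MP_6f2296_co.SD.CoreSU
import Pool.Agent.Lib.MP_6f2296_co.Mg.G001
import Pool.Agent.Lib.MP_6f2296_co.Mg.G002
import Pool.Agent.Lib.MP_6f2296_co.Mg.G005
import Pool.Agent.Lib.MP_6f2296_co.Mg.G007

section

/-!
# The structure theorem for sets which are dense in a generalised arithmetic progression
-/

set_option autoImplicit false

open scoped ComplexConjugate
open Finset

namespace Pool.Agent.SD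

/-- The scale of the regularisation. -/
private theorem MnS_Q (E a : ℕ) (C₃ Lg u σ : ℝ) (hC₃ : 2 ≤ C₃) (hLg : 1 ≤ Lg) (hu : 1 ≤ u)
    (hLu : Real.log Lg ≤ u) (h1 : ((C₃ * Lg)⁻¹) ^ E ≤ σ) (h2 : σ ≤ (C₃ * Lg)⁻¹) :
    0 < σ ∧ σ ≤ 1 / 2 ∧ C₃ * Lg ≤ (σ ^ 8)⁻¹ ∧ C₃ * Lg ≤ σ⁻¹ ∧ ((σ ^ 8)⁻¹)⁻¹ ≤ σ ∧
      ((σ ^ 8)⁻¹) ^ a = (σ ^ (8 * a))⁻¹ ∧ (σ ^ 7)⁻¹ ≤ (σ ^ 8)⁻¹ ∧
      Real.log ((σ ^ 8)⁻¹) ≤ 8 * E * (1 + Real.log C₃) * u := by
  have hpos : 0 < C₃ * Lg := by nlinarith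
  have hσ : 0 < σ := lt_of_lt_of_le (pow_pos (inv_pos.2 hpos) E) h1
  have h3 : C₃ * Lg ≤ σ⁻¹ := by
    rw [le_inv_comm₀ hpos hσ]
    exact h2
  have h4 : σ ≤ 1 / 2 := by
    refine h2.trans ?_
    rw [one_div, inv_le_inv₀ hpos (by norm_num)]
    nlinarith
  have h5 : σ ^ 8 ≤ σ := by
    have := pow_le_pow_of_le_one hσ.le (by linarith : σ ≤ 1) (show 1 ≤ 8 by norm_num)
    simpa using this
  have h6 : σ⁻¹ ≤ (σ ^ 8)⁻¹ := by
    rw [inv_le_inv₀ hσ (pow_pos hσ 8)]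
    exact h5
  refine ⟨hσ, h4, h3.trans h6, h3, by rw [inv_inv]; exact h5, ?_, ?_, ?_⟩
  · rw [inv_pow, ← pow_mul]
  · rw [inv_le_inv₀ (pow_pos hσ 7) (pow_pos hσ 8)]
    exact pow_le_pow_of_le_one hσ.le (by linarith) (by norm_num)
  · have h7 : Real.log (((C₃ * Lg)⁻¹) ^ E) ≤ Real.log σ := Real.log_le_log (pow_pos (inv_pos.2 hpos) E) h1
    rw [Real.log_pow, Real.log_inv, Real.log_mul (by linarith) (by linarith)] at h7
    rw [Real.log_inv, Real.log_pow]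
    have h8 : 0 ≤ Real.log C₃ := Real.log_nonneg (by linarith)
    have h9 : Real.log C₃ + Real.log Lg ≤ (1 + Real.log C₃) * u := by nlinarith
    have h10 : (E : ℝ) * (Real.log C₃ + Real.log Lg) ≤ E * ((1 + Real.log C₃) * u) :=
      mul_le_mul_of_nonneg_left h9 (Nat.cast_nonneg E)
    push_cast
    nlinarith

/-- The number of powers of `4` in an interval. -/
private theorem MnS_top {x y : ℝ} (hx : 0 < x) (hxy : x ≤ y) (T : Finset ℕ)
    (hT : ∀ k ∈ T, x < (4 : ℝ) ^ k ∧ (4 : ℝ) ^ k ≤ y) : (T.card : ℝ) ≤ Real.log (y / x) + 1 := by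
  have h0 : 0 ≤ Real.log (y / x) := Real.log_nonneg (by rw [le_div_iff₀ hx]; linarith)
  rcases T.eq_empty_or_nonempty with h | h
  · rw [h, card_empty, Nat.cast_zero]
    linarith
  have hmin := T.min'_mem h
  have hmax := T.max'_mem h
  have hle : T.min' h ≤ T.max' h := T.min'_le _ hmax
  have hsub : T ⊆ Icc (T.min' h) (T.max' h) := fun k hk => mem_Icc.2 ⟨T.min'_le k hk, T.le_max' k hk⟩
  have hc := card_le_card hsub
  rw [Nat.card_Icc] at hc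
  obtain ⟨e, he⟩ := Nat.exists_eq_add_of_le hle
  have hc' : (T.card : ℝ) ≤ e + 1 := by
    have : T.card ≤ e + 1 := by omega
    exact_mod_cast this
  have h1 : (4 : ℝ) ^ e * x ≤ y := by
    have h2 := (hT _ hmax).2
    rw [he, pow_add] at h2
    have h3 := (hT _ hmin).1
    have h4 : (0 : ℝ) < 4 ^ e := by positivity
    nlinarith
  have h2 : (4 : ℝ) ^ e ≤ y / x := by
    rw [le_div_iff₀ hx]
    exact h1
  have h3 := Real.log_le_log (by positivity) h2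
  rw [Real.log_pow] at h3
  have h4 : (1 : ℝ) ≤ Real.log 4 := by
    rw [Real.le_log_iff_exp_le (by norm_num)]
    linarith [Real.exp_one_lt_d9]
  have h5 : (0 : ℝ) ≤ (e : ℝ) := Nat.cast_nonneg _
  nlinarith

private theorem MnS_ZB {B₀ n u c c₁ Cb bad Z : ℝ} (hB₀ : 1 ≤ B₀) (hn : 0 < n) (hu : 1 ≤ u)
    (hc₁ : 0 < c₁) (hCb : 0 ≤ Cb)
    (h6 : c₁ ≤ c ^ 2 / (8 * B₀ * (300 * Cb + 3))) (hb : bad ≤ Cb * u)
    (hZ : c ^ 2 / (8 * c₁) * n * u ≤ 2 * (B₀ * n) + Z) :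
    300 * (B₀ * n) * bad + B₀ * n ≤ Z := by
  have hden : 0 < 8 * B₀ * (300 * Cb + 3) := by positivity
  have h4 : 300 * (B₀ * n) * bad + 3 * (B₀ * n) ≤ B₀ * n * ((300 * Cb + 3) * u) := by
    have h5 : 300 * (B₀ * n) * bad ≤ 300 * (B₀ * n) * (Cb * u) :=
      mul_le_mul_of_nonneg_left hb (by positivity)
    have h6 : 3 * (B₀ * n) ≤ 3 * (B₀ * n) * u := le_mul_of_one_le_right (by positivity) hu
    calc 300 * (B₀ * n) * bad + 3 * (B₀ * n) ≤ 300 * (B₀ * n) * (Cb * u) + 3 * (B₀ * n) * u := add_le_add h5 h6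
      _ = _ := by ring
  have h7 : B₀ * (300 * Cb + 3) ≤ c ^ 2 / (8 * c₁) := by
    rw [le_div_iff₀ (by positivity)]
    rw [le_div_iff₀ hden] at h6
    linarith
  have h8 : B₀ * n * ((300 * Cb + 3) * u) ≤ c ^ 2 / (8 * c₁) * n * u := by
    calc B₀ * n * ((300 * Cb + 3) * u) = B₀ * (300 * Cb + 3) * (n * u) := by ring
      _ ≤ c ^ 2 / (8 * c₁) * (n * u) := mul_le_mul_of_nonneg_right h7 (by positivity)
      _ = c ^ 2 / (8 * c₁) * n * u := by ring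
  linarith

private theorem MnS_dens {V σ B lB T CL : ℝ} (k : ℕ) (hσ : 0 < σ) (hT : 0 ≤ T) (h1 : V * σ ≤ B)
    (h2 : B ≤ 576 * lB ^ 4 * (4 ^ k * T)) (hlB : 0 ≤ lB) (h3 : lB ≤ CL) (h4 : CL * 5 ≤ σ⁻¹) :
    V ≤ (σ ^ 7)⁻¹ * (T * (σ * 2 ^ k) ^ 2) := by
  have h5 : 576 * lB ^ 4 ≤ (σ ^ 4)⁻¹ := by
    calc 576 * lB ^ 4 ≤ 625 * lB ^ 4 := mul_le_mul_of_nonneg_right (by norm_num) (by positivity)
      _ = (lB * 5) ^ 4 := by ring
      _ ≤ (σ⁻¹) ^ 4 := pow_le_pow_left₀ (by positivity) (by linarith) 4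
      _ = (σ ^ 4)⁻¹ := by rw [inv_pow]
  have h6 : V * σ ≤ (σ ^ 4)⁻¹ * (4 ^ k * T) :=
    h1.trans (h2.trans (mul_le_mul_of_nonneg_right h5 (by positivity)))
  have h7 : (σ * 2 ^ k) ^ 2 = σ ^ 2 * 4 ^ k := by
    rw [mul_pow, ← pow_mul, mul_comm k 2, pow_mul]
    norm_num
  have h8 : (σ ^ 7)⁻¹ * (T * (σ * 2 ^ k) ^ 2) * σ = (σ ^ 4)⁻¹ * (4 ^ k * T) := by
    rw [h7]
    field_simp
  have h9 : V * σ ≤ (σ ^ 7)⁻¹ * (T * (σ * 2 ^ k) ^ 2) * σ := by rw [h8]; exact h6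
  exact le_of_mul_le_mul_right h9 hσ

theorem MnS (d₀ : ℕ) (c C : ℝ) (hc : 0 < c) (hC : 1 ≤ C) : ∃ (c₁ C₉ : ℝ) (E : ℕ), 0 < c₁ ∧ 1 ≤ C₉ ∧
    ∀ (N₀ : Fin d₀ → ℝ) (L₀ : (Fin d₀ → ℤ) →+ ℂ) (z₀ : ℂ) (A : Finset ℂ), (∀ i, 1 ≤ N₀ i) →
      ((wB N₀ 1).card : ℝ) ≤ C * A.card → c * (A.card : ℝ) ≤ ((In N₀ L₀ z₀ A).card : ℝ) →
      3 ≤ A.card → 2 ≤ c * (A.card : ℝ) →
      (RL.numDist A : ℝ) * (1 + Real.log (Real.log A.card)) ≤ c₁ * A.card →
      ∃ d ≤ d₀, ∃ (N : Fin d → ℝ) (L : (Fin d → ℤ) →+ ℂ) (Z : Finset ℂ), (∀ i, 1 ≤ N i) ∧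
        (∀ x, L x = 0 → x = 0) ∧ RL.FieldStr (fun i => L (Pi.single i 1)) ∧
        (∏ i, N i) ≤ (C₉ * (1 + Real.log A.card)) ^ E * A.card ∧
        (Z.card : ℝ) ≤ (C₉ * (1 + Real.log A.card)) ^ E ∧
        c / 2 * (A.card : ℝ) ≤ (Cvd N L Z A).card := by
  classical
  obtain ⟨a, C₁, Cc, ha, hC₁, hC₁', hCc, hcore⟩ := CoreSU d₀
  obtain ⟨Cs, hCs, hscales⟩ := scalesU d₀ a ha
  obtain ⟨E, hreg⟩ := reg (8 * a) d₀
  -- constants
  set B₀ : ℝ := 24 ^ d₀ * C with hB₀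
  have hB₀1 : 1 ≤ B₀ := one_le_mul_of_one_le_of_one_le (one_le_pow₀ (by norm_num)) hC
  have hlogB₀ : 0 ≤ Real.log B₀ := Real.log_nonneg hB₀1
  set C₇ : ℝ := 2 + Real.log B₀ with hC₇
  set C₃ : ℝ := 5 * C₇ + Cc + 2 with hC₃
  have hC₃2 : 2 ≤ C₃ := by linarith
  set C₄ : ℝ := 8 * E * (1 + Real.log C₃) with hC₄
  have hC₄0 : 0 ≤ C₄ := by
    have : 0 ≤ Real.log C₃ := Real.log_nonneg (by linarith)
    positivity
  set Cl : ℝ := |Real.log (B₀ * 3 ^ d₀ / c)| with hCl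
  have hCl0 : 0 ≤ Cl := abs_nonneg _
  set Cb : ℝ := Cs * C₄ + (Cl + a * C₄ + 1) with hCb
  have hCb0 : 0 ≤ Cb := by positivity
  set c₁ : ℝ := min (c ^ 2 / 16) (c ^ 2 / (8 * B₀ * (300 * Cb + 3))) with hc₁
  have hc₁0 : 0 < c₁ := lt_min (by positivity) (by positivity)
  set C₉ : ℝ := max 2 B₀ * C₃ with hC₉
  have hm1 : (1 : ℝ) ≤ max 2 B₀ := le_trans (by norm_num) (le_max_left _ _)
  have hC₉1 : 1 ≤ C₉ := one_le_mul_of_one_le_of_one_le hm1 (by linarith)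
  refine ⟨c₁, C₉, E + 1, hc₁0, hC₉1, ?_⟩
  intro N₀ L₀ z₀ A hN₀ h1 h2 hn3 hcn hD
  obtain ⟨hlog1, hu1, hlu⟩ := Mn_u hn3
  set n : ℝ := (A.card : ℝ) with hn
  set u : ℝ := 1 + Real.log (Real.log n) with hu
  have hn3' : (3 : ℝ) ≤ n := by rw [hn]; exact_mod_cast hn3
  have hnpos : 0 < n := by linarith
  set Lg : ℝ := 1 + Real.log n with hLg
  have hLg1 : 1 ≤ Lg := by linarith
  have hsq0 : ∀ i, 0 ≤ N₀ i := fun i => zero_le_one.trans (hN₀ i)
  set X : Finset ℂ := (wB N₀ 4).image L₀ with hX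
  set W' : Finset ℂ := (wB N₀ 8).image L₀ with hW'
  set B : ℝ := B₀ * n with hB
  have hB1 : 1 ≤ B := one_le_mul_of_one_le_of_one_le hB₀1 (by linarith)
  have hnB : n ≤ B := le_mul_of_one_le_left hnpos.le hB₀1
  -- cardinalities
  have hcard8 : ((wB N₀ 8).card : ℝ) ≤ B := by
    have h3 := card_le_V hsq0 (show (0 : ℝ) ≤ 8 by norm_num) (fun i => by have := hN₀ i; linarith)
    have h4 := W_le_card hsq0 (zero_le_one' ℝ)
    rw [W_eq (fun i => by rw [one_mul]; exact hN₀ i), one_pow, one_mul] at h4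
    have h5 : (3 * 8 : ℝ) ^ d₀ = 24 ^ d₀ := by norm_num
    calc ((wB N₀ 8).card : ℝ) ≤ (3 * 8) ^ d₀ * ∏ i, N₀ i := h3
      _ ≤ 24 ^ d₀ * (C * n) := by
          rw [h5]
          exact mul_le_mul_of_nonneg_left (h4.trans h1) (by positivity)
      _ = B := by rw [hB, hB₀]; ring
  have hcard4 : ((wB N₀ 4).card : ℝ) ≤ B := by
    refine le_trans ?_ hcard8
    exact_mod_cast card_le_card (wB_mono hsq0 (by norm_num))
  have hWB : (W'.card : ℝ) ≤ B := by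
    refine le_trans ?_ hcard8
    exact_mod_cast card_image_le
  have hXB : (X.card : ℝ) ≤ B := by
    refine le_trans ?_ hcard4
    exact_mod_cast card_image_le
  have h0X : (0 : ℂ) ∈ X := by
    rw [hX, mem_image]
    exact ⟨0, zero_mem_wB (fun i => by have := hsq0 i; positivity), map_zero L₀⟩
  have hnegX : ∀ x ∈ X, -x ∈ X := by
    intro x hx
    rw [hX, mem_image] at hx ⊢
    obtain ⟨y, hy, rfl⟩ := hx
    exact ⟨-y, neg_mem_wB hy, map_neg L₀ y⟩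
  have hWX : ∀ x ∈ X, ∀ y ∈ X, x + y ∈ W' := by
    intro x hx y hy
    rw [hX, mem_image] at hx hy
    rw [hW', mem_image]
    obtain ⟨x', hx', rfl⟩ := hx
    obtain ⟨y', hy', rfl⟩ := hy
    refine ⟨x' + y', ?_, map_add L₀ x' y'⟩
    have := add_mem_wB hx' hy'
    norm_num at this
    exact this
  -- the number of perpendicular pairs
  have hZ := PBe d₀ c hc N₀ L₀ z₀ A hN₀ h2 hcn hc₁0 (min_le_left _ _) hu1 hD
  obtain ⟨Θ₀, hcov⟩ := exists_cov X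
  have hZΘ := Zpe_eq h0X hcov
  obtain ⟨hΘ₀, hΘ₀X, -⟩ := hcov
  set Θ : Finset ℂ := Θ₀.filter (fun θ => (nT X θ : ℝ) ^ 2 ≤ B ∧ (nT X (Complex.I * θ) : ℝ) ^ 2 ≤ B)
    with hΘdef
  have hdrop := drop_rich hWX hΘ₀ h0X (by linarith : (0 : ℝ) ≤ B) hWB
  have hΘX : Θ ⊆ X := (filter_subset _ _).trans hΘ₀X
  have hΘ : Dirs Θ := ⟨fun θ hθ => hΘ₀.1 θ (mem_filter.1 hθ).1, fun θ hθ θ' hθ' =>
    hΘ₀.2 θ (mem_filter.1 hθ).1 θ' (mem_filter.1 hθ').1⟩
  -- regularisation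
  have hC₃Lg : 0 < C₃ * Lg := mul_pos (by linarith) (by linarith)
  have hσ₀ : 0 < (C₃ * Lg)⁻¹ := inv_pos.2 hC₃Lg
  have hσ₀' : (C₃ * Lg)⁻¹ ≤ 1 / 2 := by
    rw [one_div, inv_le_inv₀ hC₃Lg (by norm_num)]
    exact hC₃2.trans (le_mul_of_one_le_right (by linarith) hLg1)
  obtain ⟨d, N, L, σ, hd, hσE, hσσ, hanti, hN, hker, hcardN, hpts, hdir⟩ :=
    hreg (C₃ * Lg)⁻¹ hσ₀ hσ₀' (fun i => 4 * N₀ i) L₀ (fun i => by have := hN₀ i; linarith)
  obtain ⟨hσ, hσ2, hQ1, hQ2, hQ3, hQa, hQ7, hQlog⟩ := MnS_Q E a C₃ Lg u σ hC₃2 hLg1 hu1 hlu hσE hσσ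
  set Q : ℝ := (σ ^ 8)⁻¹ with hQ
  have hσ1 : σ ≤ 1 := by linarith
  have hwB4 : wB (fun i => 4 * N₀ i) 1 = wB N₀ 4 := by rw [wB_smul, mul_one]
  rw [hwB4] at hcardN hpts hdir
  have hC₃Q : C₃ ≤ Q := by
    refine le_trans ?_ hQ1
    exact le_mul_of_one_le_right (by linarith) hLg1
  have hQ2' : 2 ≤ Q := hC₃2.trans hC₃Q
  have hCcQ : Cc ≤ Q := by linarith
  have hNQ : ∀ i, Q ^ a ≤ N i := fun i => by rw [hQa]; exact hN i
  have hN1 : ∀ i, 1 ≤ N i := fun i => (one_le_pow₀ (by linarith)).trans (hNQ i)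
  have hN0 : ∀ i, 0 ≤ N i := fun i => zero_le_one.trans (hN1 i)
  obtain ⟨Bad, hBad, hsc⟩ := hscales d hd N σ Q (C₁ d) hN1 hQ2' hQ3 hσ1 (hC₁ d)
    ((hC₁' d hd).trans hCcQ)
  -- the volume
  set V : ℝ := ∏ i, N i with hV
  have hVpos : 0 < V := prod_pos fun i _ => lt_of_lt_of_le one_pos (hN1 i)
  have hW1 : W N 1 = V := by rw [W_eq (fun i => by rw [one_mul]; exact hN1 i), one_pow, one_mul]
  have hVcard : V ≤ ((wB N 1).card : ℝ) := by rw [← hW1]; exact W_le_card hN0 zero_le_one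
  have hcardV : ((wB N 1).card : ℝ) ≤ 3 ^ d₀ * V := by
    rw [← hW1]
    refine (card_le_W hN0 zero_le_one).trans ?_
    exact mul_le_mul_of_nonneg_right (pow_le_pow_right₀ (by norm_num) hd) (by rw [hW1]; exact hVpos.le)
  have hVσ : V * σ ≤ B := by
    calc V * σ ≤ (wB N 1).card * σ := mul_le_mul_of_nonneg_right hVcard hσ.le
      _ = σ * (wB N 1).card := mul_comm _ _
      _ ≤ _ := hcardN
      _ ≤ B := hcard4
  obtain ⟨z, hz⟩ := hpts A z₀
  have hz' : σ * (c * n) ≤ ((In N L z A).card : ℝ) := by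
    refine le_trans (mul_le_mul_of_nonneg_left (h2.trans ?_) hσ.le) hz
    have h3 : In N₀ L₀ z₀ A ⊆ A.filter fun a => ∃ x ∈ wB N₀ 4, a = z₀ + L₀ x := by
      intro b hb
      unfold In at hb
      rw [mem_filter] at hb ⊢
      obtain ⟨hb1, x, hx, hb2⟩ := hb
      exact ⟨hb1, x, wB_mono hsq0 (by norm_num) hx, hb2⟩
    exact_mod_cast card_le_card h3
  have hInle : ((In N L z A).card : ℝ) ≤ (wB N 1).card := by
    have h3 : In N L z A ⊆ (wB N 1).image fun x => z + L x := by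
      intro b hb
      unfold In at hb
      rw [mem_filter] at hb
      obtain ⟨_, x, hx, rfl⟩ := hb
      exact mem_image.2 ⟨x, hx, rfl⟩
    exact_mod_cast (card_le_card h3).trans card_image_le
  have hVlow : σ * (c * n) ≤ 3 ^ d₀ * V := hz'.trans (hInle.trans hcardV)
  have hlogB0 : 0 ≤ Real.log B := Real.log_nonneg hB1
  have hlogQ0 : 0 ≤ Real.log Q := Real.log_nonneg (by linarith)
  -- the large scales
  set Top : Finset ℕ := (range (⌊Real.log B⌋₊ + 1)).filter fun k =>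
    V < Q ^ a * (σ * 2 ^ k) ^ 2 ∧ (4 : ℝ) ^ k ≤ B with hTop
  have h24 : ∀ k : ℕ, (σ * 2 ^ k) ^ 2 = σ ^ 2 * (4 : ℝ) ^ k := by
    intro k
    rw [mul_pow, ← pow_mul, mul_comm k 2, pow_mul]
    norm_num
  have hQapos : 0 < Q ^ a := pow_pos (by linarith) a
  have hx : 0 < V / (Q ^ a * σ ^ 2) := by positivity
  have hyx : B / (V / (Q ^ a * σ ^ 2)) ≤ B₀ * 3 ^ d₀ / c * Q ^ a := by
    have h3 : B / (V / (Q ^ a * σ ^ 2)) = B * (Q ^ a * σ ^ 2) / V := by field_simp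
    rw [h3, div_le_iff₀ hVpos]
    have h4 : σ * n ≤ 3 ^ d₀ / c * V := by
      rw [div_mul_eq_mul_div, le_div_iff₀ hc]
      linarith
    calc B * (Q ^ a * σ ^ 2) = B₀ * Q ^ a * σ * (σ * n) := by rw [hB]; ring
      _ ≤ B₀ * Q ^ a * 1 * (3 ^ d₀ / c * V) := by
          apply mul_le_mul _ h4 (by positivity) (by positivity)
          exact mul_le_mul_of_nonneg_left hσ1 (by positivity)
      _ = B₀ * 3 ^ d₀ / c * Q ^ a * V := by ring
  have hTopc : (Top.card : ℝ) ≤ (Cl + a * C₄ + 1) * u := by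
    rcases le_or_gt (V / (Q ^ a * σ ^ 2)) B with h3 | h3
    · have h4 := MnS_top hx h3 Top (fun k hk => by
        rw [hTop, mem_filter] at hk
        refine ⟨?_, hk.2.2⟩
        have h5 := hk.2.1
        rw [h24] at h5
        rw [div_lt_iff₀ (by positivity)]
        linarith)
      have h5 : Real.log (B / (V / (Q ^ a * σ ^ 2))) ≤ Cl + a * Real.log Q := by
        refine (Real.log_le_log (by positivity) hyx).trans ?_
        rw [Real.log_mul (by positivity) hQapos.ne', Real.log_pow]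
        exact add_le_add (le_abs_self _) le_rfl
      have h6 : (a : ℝ) * Real.log Q ≤ a * (C₄ * u) :=
        mul_le_mul_of_nonneg_left hQlog (Nat.cast_nonneg a)
      have h7 : Cl ≤ Cl * u := le_mul_of_one_le_right hCl0 hu1
      calc (Top.card : ℝ) ≤ Cl * u + a * (C₄ * u) + 1 * u := by linarith
        _ = _ := by ring
    · have h4 : Top = ∅ := by
        rw [hTop, filter_eq_empty_iff]
        rintro k _ ⟨h5, h6⟩
        rw [h24] at h5
        rw [lt_div_iff₀ (by positivity)] at h3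
        have h7 : Q ^ a * (σ ^ 2 * 4 ^ k) ≤ Q ^ a * (σ ^ 2 * B) :=
          mul_le_mul_of_nonneg_left (mul_le_mul_of_nonneg_left h6 (by positivity)) hQapos.le
        linarith
      rw [h4, card_empty, Nat.cast_zero]
      positivity
  have hBadc : (((Bad ∪ Top).card : ℕ) : ℝ) ≤ Cb * u := by
    have h3 : (((Bad ∪ Top).card : ℕ) : ℝ) ≤ Bad.card + Top.card := by
      exact_mod_cast card_union_le _ _
    have h4 : (Bad.card : ℝ) ≤ Cs * C₄ * u := by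
      refine hBad.trans ?_
      rw [mul_assoc]
      exact mul_le_mul_of_nonneg_left hQlog (by linarith)
    calc (((Bad ∪ Top).card : ℕ) : ℝ) ≤ Cs * C₄ * u + (Cl + a * C₄ + 1) * u := by linarith
      _ = Cb * u := by rw [hCb]; ring
  have hZB : 300 * B * (((Bad ∪ Top).card : ℕ) : ℝ) + B ≤
      ∑ θ ∈ Θ, ((nT X θ : ℝ) - 1) * ((nT X (Complex.I * θ) : ℝ) - 1) := by
    refine MnS_ZB hB₀1 hnpos hu1 hc₁0 hCb0 (min_le_right _ _) hBadc ?_
    refine hZ.trans ?_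
    rw [hZΘ]
    exact hdrop
  obtain ⟨k, hk, hkB⟩ := dyadic3 h0X hnegX hWX hΘ hΘX hB1 hWB hXB
    (fun θ hθ => (mem_filter.1 hθ).2.1) (fun θ hθ => (mem_filter.1 hθ).2.2) (Bad ∪ Top) hZB
  rw [mem_union, not_or] at hk
  set Θk : Finset ℂ := Θ.filter fun θ => 2 ^ k ≤ nT X θ ∧ 2 ^ k ≤ nT X (Complex.I * θ) with hΘk
  have hlogB : 1 + Real.log B ≤ C₇ * Lg := by
    rw [hB, Real.log_mul (by linarith) (by linarith)]
    have h3 : 0 ≤ Real.log B₀ * Real.log n := mul_nonneg hlogB₀ (by linarith)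
    calc 1 + (Real.log B₀ + Real.log n) ≤ 1 + (Real.log B₀ + Real.log n) +
          (1 + Real.log n + Real.log B₀ * Real.log n) := le_add_of_nonneg_right (by linarith)
      _ = C₇ * Lg := by rw [hC₇, hLg]; ring
  have hΘk0 : 0 < Θk.card := by
    rcases Nat.eq_zero_or_pos Θk.card with h3 | h3
    · rw [h3, Nat.cast_zero, mul_zero, mul_zero] at hkB
      linarith
    · exact h3
  -- the number `ν`
  set ν : ℝ := σ * 2 ^ k with hν
  have hνpos : 0 < ν := by positivity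
  have hΘkdirs : Dirs Θk := ⟨fun θ hθ => hΘ.1 θ (mem_filter.1 hθ).1, fun θ hθ θ' hθ' =>
    hΘ.2 θ (mem_filter.1 hθ).1 θ' (mem_filter.1 hθ').1⟩
  have hcount : ∀ θ : ℂ, 2 ^ k ≤ nT X θ →
      ν ≤ ((((wB N 1).image L).filter fun z => par θ z).card : ℝ) := by
    intro θ hθ
    have h3 : ((2 : ℝ) ^ k) ≤ nT X θ := by exact_mod_cast hθ
    have h4 := hdir θ
    calc ν = σ * 2 ^ k := hν
      _ ≤ σ * nT X θ := mul_le_mul_of_nonneg_left h3 hσ.le
      _ ≤ _ := h4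
  have hcM : ∀ θ ∈ Θk, ν ≤ (cM N (Mt L θ) 1 : ℝ) := by
    intro θ hθ
    refine (hcount θ (mem_filter.1 hθ).2.1).trans ?_
    have h6 : ((wB N 1).image L).filter (fun z => par θ z) ⊆
        ((wB N 1).filter (· ∈ Mt L θ)).image L := by
      intro z hz
      rw [mem_filter, mem_image] at hz
      obtain ⟨⟨x, hx, rfl⟩, hz2⟩ := hz
      exact mem_image.2 ⟨x, mem_filter.2 ⟨hx, hz2⟩, rfl⟩
    have h7 := (card_le_card h6).trans card_image_le
    unfold cM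
    exact_mod_cast h7
  have h4kB : (4 : ℝ) ^ k ≤ B := by
    obtain ⟨θ, hθ⟩ := card_pos.1 hΘk0
    have h3 := (mem_filter.1 (mem_filter.1 hθ).1).2.1
    have h4 : ((2 : ℝ) ^ k) ≤ nT X θ := by exact_mod_cast (mem_filter.1 hθ).2.1
    refine le_trans ?_ h3
    calc (4 : ℝ) ^ k = (2 ^ k) ^ 2 := by
          rw [← pow_mul, mul_comm, pow_mul]
          norm_num
      _ ≤ _ := pow_le_pow_left₀ (by positivity) h4 2
  have hbig : Q ^ a * ν ^ 2 ≤ V := by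
    by_contra h3
    rw [not_le] at h3
    apply hk.2
    rw [hTop, mem_filter]
    refine ⟨?_, h3, h4kB⟩
    rw [mem_range, Nat.lt_succ_iff]
    apply Nat.le_floor
    have h5 := Real.log_le_log (by positivity) h4kB
    rw [Real.log_pow] at h5
    have h6 : (1 : ℝ) ≤ Real.log 4 := by
      rw [Real.le_log_iff_exp_le (by norm_num)]
      linarith [Real.exp_one_lt_d9]
    have h7 : (k : ℝ) ≤ k * Real.log 4 := le_mul_of_one_le_right (Nat.cast_nonneg k) h6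
    linarith
  have hνV : ν ^ 2 ≤ V := by
    refine le_trans ?_ hbig
    exact le_mul_of_one_le_left (sq_nonneg _) (one_le_pow₀ (by linarith))
  obtain ⟨hνQ, t, ht, ht1, hW1', hW2', hgap⟩ := hsc k hk.1 hνV
  -- partners
  have hpart : ∀ θ ∈ Θk, ∃ w, L w ≠ 0 ∧ par (Complex.I * θ) (L w) := by
    intro θ hθ
    have h3 := hcount (Complex.I * θ) (mem_filter.1 hθ).2.2
    have h4 : (1 : ℝ) < ((((wB N 1).image L).filter fun z => par (Complex.I * θ) z).card : ℝ) := by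
      have h5 : Q ≤ Q ^ a := le_self_pow₀ (by linarith) (by omega)
      linarith
    have h5 : 1 < (((wB N 1).image L).filter fun z => par (Complex.I * θ) z).card := by
      exact_mod_cast h4
    obtain ⟨p, hp, q, hq, hpq⟩ := one_lt_card.1 h5
    have h6 : ∃ r ∈ ((wB N 1).image L).filter (fun z => par (Complex.I * θ) z), r ≠ 0 := by
      by_cases hp0 : p = 0
      · refine ⟨q, hq, ?_⟩
        rintro rfl
        exact hpq hp0
      · exact ⟨p, hp, hp0⟩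
    obtain ⟨r, hr, hr0⟩ := h6
    rw [mem_filter, mem_image] at hr
    obtain ⟨⟨w, _, hw⟩, hr2⟩ := hr
    refine ⟨w, ?_, ?_⟩
    · rw [hw]
      exact hr0
    · rw [hw]
      exact hr2
  -- density
  have h57 : C₇ * Lg * 5 ≤ σ⁻¹ := by
    refine le_trans ?_ hQ2
    have : 0 ≤ (Cc + 2) * Lg := by positivity
    calc C₇ * Lg * 5 ≤ C₇ * Lg * 5 + (Cc + 2) * Lg := le_add_of_nonneg_right this
      _ = C₃ * Lg := by rw [hC₃]; ring
  have hdens : V ≤ Q * ((Θk.card : ℝ) * ν ^ 2) := by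
    refine (MnS_dens k hσ (Nat.cast_nonneg Θk.card) hVσ hkB (by linarith) hlogB h57).trans ?_
    exact mul_le_mul_of_nonneg_right hQ7 (by positivity)
  obtain ⟨hinj, hfield⟩ := hcore d hd L N Q ν t Θk hCcQ hanti hNQ
    (fun x hx => hker x (by rw [← hQa]; exact hx)) hΘkdirs hνQ hcM hpart hdens ht ht1 hW1' hW2' hgap hbig
  -- conclusion
  have hinvσ : σ⁻¹ ≤ (C₃ * Lg) ^ E := by
    rw [inv_le_comm₀ hσ (by positivity), ← inv_pow]
    exact hσE
  have hfin : ∀ x : ℝ, 0 ≤ x → x ≤ max 2 B₀ → x * σ⁻¹ ≤ (C₉ * Lg) ^ (E + 1) := by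
    intro x hx0 hx
    have h3 : (1 : ℝ) ≤ C₃ * Lg := one_le_mul_of_one_le_of_one_le (by linarith) hLg1
    set m : ℝ := max 2 B₀ with hm
    calc x * σ⁻¹ ≤ m * (C₃ * Lg) ^ E := mul_le_mul hx hinvσ (by positivity) (by linarith)
      _ ≤ m ^ (E + 1) * (C₃ * Lg) ^ (E + 1) := by
          apply mul_le_mul (le_self_pow₀ hm1 (by omega)) _ (by positivity) (by positivity)
          exact pow_le_pow_right₀ h3 (by omega)
      _ = (C₉ * Lg) ^ (E + 1) := by rw [← mul_pow, hC₉]; ring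
  obtain ⟨Z, hZc, hZ2⟩ := greedy N L hσ hσ1 (In N₀ L₀ z₀ A) (by
    intro P hP
    obtain ⟨z₁, hz₁⟩ := hpts P z₀
    refine ⟨z₁, ?_⟩
    have hPf : (P.filter fun b => ∃ x ∈ wB N₀ 4, b = z₀ + L₀ x) = P := by
      rw [filter_eq_self]
      intro b hb
      obtain ⟨-, x, hx, hb2⟩ := mem_In.1 (hP hb)
      exact ⟨x, wB_mono hsq0 (by norm_num) hx, hb2⟩
    rw [hPf] at hz₁
    unfold In
    exact hz₁)
  refine ⟨d, hd, N, L, Z, hN1, hinj, hfield, ?_, ?_, ?_⟩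
  · have h3 : V ≤ B₀ * σ⁻¹ * n := by
      have h4 : V ≤ B / σ := by
        rw [le_div_iff₀ hσ]
        exact hVσ
      calc V ≤ B / σ := h4
        _ = B₀ * σ⁻¹ * n := by rw [hB]; ring
    exact h3.trans (mul_le_mul_of_nonneg_right (hfin B₀ (by linarith) (le_max_right _ _)) hnpos.le)
  · exact hZc.trans (hfin 2 (by norm_num) (le_max_left _ _))
  · have h3 : ((Cvd N L Z (In N₀ L₀ z₀ A)).card : ℝ) ≤ ((Cvd N L Z A).card : ℝ) := by
      exact_mod_cast card_le_card (Cvd_mono N L Z (fun a ha => (mem_In.1 ha).1))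
    linarith

end Pool.Agent.SD
end

section

/-!
# Sets of large additive energy with few distances: conclusion
-/

set_option autoImplicit false

open scoped ComplexConjugate Pointwise
open Finset

namespace Pool.Agent.SD

theorem one_le_numDist {A : Finset ℂ} (h : 2 ≤ A.card) : 1 ≤ RL.numDist A := by
  classical
  obtain ⟨p, hp, q, hq, hpq⟩ := one_lt_card.1 (by omega : 1 < A.card)
  unfold RL.numDist
  rw [Nat.one_le_iff_ne_zero, ← Nat.pos_iff_ne_zero, card_pos]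
  exact ⟨dist p q, mem_image.2 ⟨(p, q), mem_offDiag.2 ⟨hp, hq, hpq⟩, rfl⟩⟩

/-- Few distances: many points. -/
theorem card_large {A : Finset ℂ} (h : 3 ≤ A.card) {c : ℝ}
    (hD : (RL.numDist A : ℝ) * (1 + Real.log (Real.log A.card)) ≤ c * A.card) :
    1 ≤ c * A.card := by
  obtain ⟨-, hu1, -⟩ := Mn_u h
  have h1 : (1 : ℝ) ≤ RL.numDist A := by exact_mod_cast one_le_numDist (by omega)
  nlinarith

/-- The function `1 + log log n` is monotone. -/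
theorem loglog_mono {m n : ℕ} (hm : 3 ≤ m) (h : m ≤ n) :
    1 + Real.log (Real.log m) ≤ 1 + Real.log (Real.log n) := by
  obtain ⟨h1, -, -⟩ := Mn_u hm
  have h2 : (0 : ℝ) < m := by exact_mod_cast (by omega : 0 < m)
  have h3 : Real.log m ≤ Real.log n := Real.log_le_log h2 (by exact_mod_cast h)
  have h4 := Real.log_le_log (by linarith) h3
  linarith

/-- The structure theorem for sets which are dense in a generalised arithmetic progression. -/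
theorem GP2 (d₀ : ℕ) (c C : ℝ) (hc : 0 < c) (hC : 1 ≤ C) : ∃ (c₁ C₉ : ℝ) (E : ℕ), 0 < c₁ ∧ 1 ≤ C₉ ∧
    ∀ (N₀ : Fin d₀ → ℝ) (L₀ : (Fin d₀ → ℤ) →+ ℂ) (z₀ : ℂ) (A : Finset ℂ), (∀ i, 1 ≤ N₀ i) →
      ((wB N₀ 1).card : ℝ) ≤ C * A.card → c * (A.card : ℝ) ≤ ((In N₀ L₀ z₀ A).card : ℝ) →
      3 ≤ A.card →
      (RL.numDist A : ℝ) * (1 + Real.log (Real.log A.card)) ≤ c₁ * A.card →
      ∃ d ≤ d₀, ∃ (N : Fin d → ℝ) (L : (Fin d → ℤ) →+ ℂ) (Z : Finset ℂ), (∀ i, 1 ≤ N i) ∧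
        (∀ x, L x = 0 → x = 0) ∧ RL.FieldStr (fun i => L (Pi.single i 1)) ∧
        (∏ i, N i) ≤ (C₉ * (1 + Real.log A.card)) ^ E * A.card ∧
        (Z.card : ℝ) ≤ (C₉ * (1 + Real.log A.card)) ^ E ∧
        c / 2 * (A.card : ℝ) ≤ (Cvd N L Z A).card := by
  obtain ⟨c₁, C₉, E, hc₁, hC₉, H⟩ := MnS d₀ c C hc hC
  refine ⟨min c₁ (c / 2), C₉, E, lt_min hc₁ (by positivity), hC₉, ?_⟩
  intro N₀ L₀ z₀ A hN₀ h1 h2 hn3 hD
  have hn0 : (0 : ℝ) ≤ A.card := Nat.cast_nonneg _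
  have h3 := card_large hn3 (hD.trans (mul_le_mul_of_nonneg_right (min_le_right _ _) hn0))
  exact H N₀ L₀ z₀ A hN₀ h1 h2 hn3 (by linarith)
    (hD.trans (mul_le_mul_of_nonneg_right (min_le_left _ _) hn0))

/-- The structure theorem for sets of small doubling. -/
theorem LSdoub (K : ℝ) : ∃ (D : ℕ) (c c' C : ℝ) (E : ℕ), 0 < c ∧ 0 < c' ∧ 1 ≤ C ∧
    ∀ A : Finset ℂ, 3 ≤ A.card → ((A + A).card : ℝ) ≤ K * A.card →
    (RL.numDist A : ℝ) * (1 + Real.log (Real.log A.card)) ≤ c * A.card →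
    ∃ d ≤ D, ∃ (N : Fin d → ℝ) (L : (Fin d → ℤ) →+ ℂ) (Z : Finset ℂ), (∀ i, 1 ≤ N i) ∧
        (∀ x, L x = 0 → x = 0) ∧ RL.FieldStr (fun i => L (Pi.single i 1)) ∧
        (∏ i, N i) ≤ (C * (1 + Real.log A.card)) ^ E * A.card ∧
        (Z.card : ℝ) ≤ (C * (1 + Real.log A.card)) ^ E ∧
        c' * (A.card : ℝ) ≤ (Cvd N L Z A).card := by
  classical
  obtain ⟨D, c, C, hc, hC, hF⟩ := FreimanRuzsa K
  have H := fun d => GP2 d c (max C 1) hc (le_max_right _ _)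
  choose c₁ C₉ E hc₁ hC₉ H using H
  have hne : (range (D + 1)).Nonempty := ⟨0, mem_range.2 (by omega)⟩
  obtain ⟨c₂, hc₂⟩ : ∃ c₂, c₂ = (range (D + 1)).inf' hne c₁ := ⟨_, rfl⟩
  have hc₂0 : 0 < c₂ := by
    rw [hc₂, lt_inf'_iff]
    exact fun d _ => hc₁ d
  have hCs : ∀ d ∈ range (D + 1), C₉ d ≤ ∑ d ∈ range (D + 1), C₉ d := fun d hd =>
    single_le_sum (f := C₉) (fun i _ => zero_le_one.trans (hC₉ i)) hd
  have hEs : ∀ d ∈ range (D + 1), E d ≤ ∑ d ∈ range (D + 1), E d := fun d hd =>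
    single_le_sum (f := E) (fun i _ => Nat.zero_le _) hd
  refine ⟨D, c₂, c / 2, ∑ d ∈ range (D + 1), C₉ d, ∑ d ∈ range (D + 1), E d, hc₂0, by positivity,
    (hC₉ 0).trans (hCs 0 (mem_range.2 (by omega))), ?_⟩
  intro A hn3 hAA hD
  obtain ⟨hlog1, -, -⟩ := Mn_u hn3
  obtain ⟨d, hd, N, L, z, hN, h1, h2⟩ := hF A (card_pos.1 (by omega)) hAA
  have hn0 : (0 : ℝ) ≤ A.card := Nat.cast_nonneg _
  have hmem : d ∈ range (D + 1) := mem_range.2 (by omega)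
  obtain ⟨d', hd', N', L', Z, hN', hinj, hfield, h3, h4, h5'⟩ := H d N L z A hN
    (h1.trans (mul_le_mul_of_nonneg_right (le_max_left _ _) hn0)) (by
      unfold In
      exact h2) hn3 (hD.trans (mul_le_mul_of_nonneg_right (by
        rw [hc₂]
        exact inf'_le _ hmem) hn0))
  have h5 : (C₉ d * (1 + Real.log A.card)) ^ E d ≤
      ((∑ d ∈ range (D + 1), C₉ d) * (1 + Real.log A.card)) ^ (∑ d ∈ range (D + 1), E d) := by
    have h6 : 1 ≤ C₉ d * (1 + Real.log A.card) :=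
      one_le_mul_of_one_le_of_one_le (hC₉ d) (by linarith)
    calc (C₉ d * (1 + Real.log A.card)) ^ E d ≤
        (C₉ d * (1 + Real.log A.card)) ^ (∑ d ∈ range (D + 1), E d) :=
          pow_le_pow_right₀ h6 (hEs d hmem)
      _ ≤ _ := pow_le_pow_left₀ (by linarith)
          (mul_le_mul_of_nonneg_right (hCs d hmem) (by linarith)) _
  exact ⟨d', hd'.trans hd, N', L', Z, hN', hinj, hfield,
    h3.trans (mul_le_mul_of_nonneg_right h5 hn0), h4.trans h5, h5'⟩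

/-- The passage from large energy to small doubling. -/
private theorem Fin_sub {c' c₂ : ℝ} (hc' : 0 < c') {A A' : Finset ℂ} (hsub : A' ⊆ A)
    (hA' : c' * (A.card : ℝ) ≤ A'.card) (h3 : 3 ≤ A.card)
    (hD : (RL.numDist A : ℝ) * (1 + Real.log (Real.log A.card)) ≤ min (c' * c₂) (c' / 3) * A.card) :
    3 ≤ A'.card ∧ (RL.numDist A' : ℝ) * (1 + Real.log (Real.log A'.card)) ≤ c₂ * A'.card ∧
      1 + Real.log (Real.log A'.card) ≤ 1 + Real.log (Real.log A.card) ∧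
      1 ≤ 1 + Real.log (Real.log A'.card) ∧ 1 ≤ Real.log A'.card ∧
      Real.log A'.card ≤ Real.log A.card ∧ (A'.card : ℝ) ≤ A.card ∧ 0 ≤ c₂ := by
  have hn0 : (0 : ℝ) < A.card := by exact_mod_cast (by omega : 0 < A.card)
  have h4 := card_large h3 (hD.trans (mul_le_mul_of_nonneg_right (min_le_right _ _) hn0.le))
  have h5 : 3 ≤ A'.card := by
    have : (3 : ℝ) ≤ A'.card := by linarith
    exact_mod_cast this
  have hcard := card_le_card hsub
  have hcardR : (A'.card : ℝ) ≤ A.card := by exact_mod_cast hcard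
  have h6 := loglog_mono h5 hcard
  obtain ⟨hl1, hu1, -⟩ := Mn_u h5
  obtain ⟨-, huA, -⟩ := Mn_u h3
  have h7 : (RL.numDist A' : ℝ) ≤ RL.numDist A := by exact_mod_cast numDist_mono hsub
  have h8 := card_large h3 (hD.trans (mul_le_mul_of_nonneg_right (min_le_left _ _) hn0.le))
  have hc₂ : 0 ≤ c₂ := by
    by_contra h9
    rw [not_le] at h9
    have : c' * c₂ * (A.card : ℝ) < 0 := mul_neg_of_neg_of_pos (mul_neg_of_pos_of_neg hc' h9) hn0
    linarith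
  refine ⟨h5, ?_, h6, hu1, hl1, Real.log_le_log (by exact_mod_cast (by omega : 0 < A'.card)) hcardR,
    hcardR, hc₂⟩
  calc (RL.numDist A' : ℝ) * (1 + Real.log (Real.log A'.card))
      ≤ (RL.numDist A : ℝ) * (1 + Real.log (Real.log A.card)) :=
        mul_le_mul h7 h6 (by linarith) (Nat.cast_nonneg _)
    _ ≤ c' * c₂ * A.card := hD.trans (mul_le_mul_of_nonneg_right (min_le_left _ _) hn0.le)
    _ = c₂ * (c' * A.card) := by ring
    _ ≤ c₂ * A'.card := mul_le_mul_of_nonneg_left hA' hc₂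

/-- Small doubling implies large energy. -/
theorem energy_of_doubling {K : ℝ} {A : Finset ℂ} (h : ((A + A).card : ℝ) ≤ K * A.card) :
    (A.card : ℝ) ^ 3 ≤ K * (Finset.addEnergy A A : ℕ) := by
  rcases Nat.eq_zero_or_pos A.card with h0 | h0
  · have h1 : A = ∅ := card_eq_zero.1 h0
    subst h1
    simp
  have hn0 : (0 : ℝ) < A.card := by exact_mod_cast h0
  have h1 := le_card_add_mul_addEnergy A A
  have h2 : (A.card : ℝ) ^ 2 * (A.card : ℝ) ^ 2 ≤ ((A + A).card : ℝ) * (Finset.addEnergy A A : ℕ) := by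
    exact_mod_cast h1
  have h3 : (A.card : ℝ) * (A.card : ℝ) ^ 3 ≤ (A.card : ℝ) * (K * (Finset.addEnergy A A : ℕ)) := by
    calc (A.card : ℝ) * (A.card : ℝ) ^ 3 = (A.card : ℝ) ^ 2 * (A.card : ℝ) ^ 2 := by ring
      _ ≤ ((A + A).card : ℝ) * (Finset.addEnergy A A : ℕ) := h2
      _ ≤ K * A.card * (Finset.addEnergy A A : ℕ) := mul_le_mul_of_nonneg_right h (Nat.cast_nonneg _)
      _ = _ := by ring
  exact le_of_mul_le_mul_left h3 hn0

/-- The threshold for a subset. -/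
private theorem Fin_T {cB C₂ m n u u' : ℝ} (hcB : 0 < cB) (hC₂ : 0 ≤ C₂) (hm : cB * n ≤ m) (hn : 0 ≤ n)
    (hu' : 1 ≤ u') (hu : u' ≤ u) :
    Real.sqrt n * Real.exp (-((|Real.log (Real.sqrt (1 / cB))| + C₂) * u ^ 2)) ≤
      Real.sqrt m * Real.exp (-(C₂ * u' ^ 2)) := by
  have hu1 : 1 ≤ u := hu'.trans hu
  have h4 : Real.sqrt n ≤ Real.sqrt (1 / cB) * Real.sqrt m := by
    rw [← Real.sqrt_mul (by positivity)]
    apply Real.sqrt_le_sqrt
    rw [div_mul_eq_mul_div, le_div_iff₀ hcB]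
    linarith
  have h7 : Real.sqrt (1 / cB) ≤ Real.exp (|Real.log (Real.sqrt (1 / cB))| * u ^ 2) :=
    le_exp_of_log (Real.sqrt_pos.2 (by positivity)) hu1 le_rfl
  have h8 : Real.exp (-(C₂ * u ^ 2)) ≤ Real.exp (-(C₂ * u' ^ 2)) := by
    apply Real.exp_le_exp.2
    exact neg_le_neg (mul_le_mul_of_nonneg_left (pow_le_pow_left₀ (by linarith) hu 2) hC₂)
  rw [add_mul, neg_add, Real.exp_add]
  calc Real.sqrt n * (Real.exp (-(|Real.log (Real.sqrt (1 / cB))| * u ^ 2)) * Real.exp (-(C₂ * u ^ 2)))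
      ≤ (Real.exp (|Real.log (Real.sqrt (1 / cB))| * u ^ 2) * Real.sqrt m) *
        (Real.exp (-(|Real.log (Real.sqrt (1 / cB))| * u ^ 2)) * Real.exp (-(C₂ * u ^ 2))) := by
        apply mul_le_mul_of_nonneg_right _ (by positivity)
        exact h4.trans (mul_le_mul_of_nonneg_right h7 (Real.sqrt_nonneg _))
    _ = Real.sqrt m * Real.exp (-(C₂ * u ^ 2)) *
        (Real.exp (|Real.log (Real.sqrt (1 / cB))| * u ^ 2) *
          Real.exp (-(|Real.log (Real.sqrt (1 / cB))| * u ^ 2))) := by ring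
    _ = Real.sqrt m * Real.exp (-(C₂ * u ^ 2)) := by
        rw [← Real.exp_add, add_neg_cancel, Real.exp_zero, mul_one]
    _ ≤ _ := mul_le_mul_of_nonneg_left h8 (Real.sqrt_nonneg _)

/-- Rich lines in sets of large energy. -/
theorem LE (K : ℝ) : ∃ c c' C : ℝ, 0 < c ∧ 0 < c' ∧ 1 ≤ C ∧ ∀ A : Finset ℂ, 3 ≤ A.card →
    (A.card : ℝ) ^ 3 ≤ K * (Finset.addEnergy A A : ℕ) →
    (RL.numDist A : ℝ) * (1 + Real.log (Real.log A.card)) ≤ c * A.card →
    ∃ θ : ℂ, θ ≠ 0 ∧ c' * (A.card : ℝ) ≤ ((richPts A θ (Real.sqrt A.card *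
        Real.exp (-(C * (1 + Real.log (Real.log A.card)) ^ 2)))).card : ℝ) := by
  classical
  obtain ⟨K', cB, hcB, hB⟩ := BSG_energy K
  obtain ⟨c₂, c₃, C₂, hc₂, hc₃, hC₂, H⟩ := GPdoub K'
  refine ⟨min (cB * c₂) (cB / 3), c₃ * cB, |Real.log (Real.sqrt (1 / cB))| + C₂,
    lt_min (by positivity) (by positivity), by positivity,
    by linarith [abs_nonneg (Real.log (Real.sqrt (1 / cB)))], ?_⟩
  intro A hn3 hE hD
  obtain ⟨A', hsub, hA', hAA⟩ := hB A (card_pos.1 (by omega)) hE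
  obtain ⟨h3, hD', hu, hu1, -, -, hcard, -⟩ := Fin_sub hcB hsub hA' hn3 hD
  obtain ⟨θ, hθ, hfin⟩ := H A' h3 hAA hD'
  refine ⟨θ, hθ, ?_⟩
  have h4 := card_le_card (richPts_mono hsub θ
    (Fin_T (C₂ := C₂) hcB (by linarith) hA' (Nat.cast_nonneg _) hu1 hu))
  have h5 : ((richPts A' θ (Real.sqrt A'.card *
      Real.exp (-(C₂ * (1 + Real.log (Real.log A'.card)) ^ 2)))).card : ℝ) ≤
      ((richPts A θ (Real.sqrt A.card * Real.exp (-((|Real.log (Real.sqrt (1 / cB))| + C₂) *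
        (1 + Real.log (Real.log A.card)) ^ 2)))).card : ℝ) := by exact_mod_cast h4
  refine le_trans ?_ (hfin.trans h5)
  calc c₃ * cB * (A.card : ℝ) = c₃ * (cB * A.card) := by ring
    _ ≤ _ := mul_le_mul_of_nonneg_left hA' hc₃.le

/-- Almost all points are on rich lines, small doubling. -/
theorem AAR (K η : ℝ) (hη : 0 < η) : ∃ c C : ℝ, 0 < c ∧ 1 ≤ C ∧ ∀ A : Finset ℂ, 3 ≤ A.card →
    ((A + A).card : ℝ) ≤ K * A.card →
    (RL.numDist A : ℝ) * (1 + Real.log (Real.log A.card)) ≤ c * A.card →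
    ∀ P ⊆ A, (∀ a ∈ P, ∀ w : ℂ, w ≠ 0 → ((RL.onLine A a w).card : ℝ) < Real.sqrt A.card *
        Real.exp (-(C * (1 + Real.log (Real.log A.card)) ^ 2))) → (P.card : ℝ) ≤ η * A.card := by
  classical
  obtain ⟨c₂, c₃, C₂, hc₂, hc₃, hC₂, H⟩ := LE (K / η)
  refine ⟨min (η * c₂) (η / 3), |Real.log (Real.sqrt (1 / η))| + C₂,
    lt_min (by positivity) (by positivity),
    by linarith [abs_nonneg (Real.log (Real.sqrt (1 / η)))], ?_⟩
  intro A hn3 hAA hD P hPA hP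
  by_contra hlt
  rw [not_le] at hlt
  obtain ⟨h3, hD', hu, hu1, -, -, hcard, -⟩ := Fin_sub hη hPA hlt.le hn3 hD
  have hPpos : (0 : ℝ) < P.card := by exact_mod_cast (by omega : 0 < P.card)
  have hn0 : (0 : ℝ) < A.card := by exact_mod_cast (by omega : 0 < A.card)
  have hK : 0 ≤ K := by
    by_contra h
    rw [not_le] at h
    have h5 : (0 : ℝ) ≤ ((A + A).card : ℝ) := Nat.cast_nonneg _
    have h6 := mul_neg_of_neg_of_pos h hn0
    linarith
  have hPP : ((P + P).card : ℝ) ≤ K / η * P.card := by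
    have h5 : ((P + P).card : ℝ) ≤ ((A + A).card : ℝ) := by
      exact_mod_cast card_le_card (add_subset_add hPA hPA)
    calc ((P + P).card : ℝ) ≤ K * A.card := h5.trans hAA
      _ = K / η * (η * A.card) := by field_simp
      _ ≤ _ := mul_le_mul_of_nonneg_left hlt.le (by positivity)
  obtain ⟨θ, hθ, hfin⟩ := H P h3 (energy_of_doubling hPP) hD'
  have h6 : (0 : ℝ) < ((richPts P θ (Real.sqrt P.card *
      Real.exp (-(C₂ * (1 + Real.log (Real.log P.card)) ^ 2)))).card : ℝ) :=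
    (mul_pos hc₃ hPpos).trans_le hfin
  obtain ⟨a, ha⟩ := card_pos.1 (by exact_mod_cast h6 : 0 < (richPts P θ (Real.sqrt P.card *
      Real.exp (-(C₂ * (1 + Real.log (Real.log P.card)) ^ 2)))).card)
  have haP := (mem_richPts.1 ha).1
  have h7 := (mem_richPts.1 (richPts_mono hPA θ
    (Fin_T (C₂ := C₂) hη (by linarith) hlt.le (Nat.cast_nonneg _) hu1 hu) ha)).2
  exact absurd h7 (not_le.2 (hP a haP θ hθ))

/-- The structure of sets of large energy. -/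
theorem LS (K : ℝ) : ∃ (D : ℕ) (c c' C : ℝ) (E : ℕ), 0 < c ∧ 0 < c' ∧ 1 ≤ C ∧
    ∀ A : Finset ℂ, 3 ≤ A.card → (A.card : ℝ) ^ 3 ≤ K * (Finset.addEnergy A A : ℕ) →
    (RL.numDist A : ℝ) * (1 + Real.log (Real.log A.card)) ≤ c * A.card →
    ∃ d ≤ D, ∃ (N : Fin d → ℝ) (L : (Fin d → ℤ) →+ ℂ) (Z : Finset ℂ), (∀ i, 1 ≤ N i) ∧
        (∀ x, L x = 0 → x = 0) ∧ RL.FieldStr (fun i => L (Pi.single i 1)) ∧
        (∏ i, N i) ≤ (C * (1 + Real.log A.card)) ^ E * A.card ∧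
        (Z.card : ℝ) ≤ (C * (1 + Real.log A.card)) ^ E ∧
        c' * (A.card : ℝ) ≤ (Cvd N L Z A).card := by
  classical
  obtain ⟨K', cB, hcB, hB⟩ := BSG_energy K
  obtain ⟨D, c₂, c₃, C₂, E, hc₂, hc₃, hC₂, H⟩ := LSdoub K'
  refine ⟨D, min (cB * c₂) (cB / 3), c₃ * cB, C₂, E,
    lt_min (by positivity) (by positivity), by positivity, hC₂, ?_⟩
  intro A hn3 hE hD
  obtain ⟨A', hsub, hA', hAA⟩ := hB A (card_pos.1 (by omega)) hE
  obtain ⟨h3, hD', hu, hu1, hl1, hll, hcard, -⟩ := Fin_sub hcB hsub hA' hn3 hD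
  obtain ⟨d, hd, N, L, Z, hN, hinj, hfield, h4, h5, h6⟩ := H A' h3 hAA hD'
  have h7 : (C₂ * (1 + Real.log A'.card)) ^ E ≤ (C₂ * (1 + Real.log A.card)) ^ E := by
    apply pow_le_pow_left₀ (by positivity)
    exact mul_le_mul_of_nonneg_left (by linarith) (by linarith)
  refine ⟨d, hd, N, L, Z, hN, hinj, hfield, ?_, h5.trans h7, ?_⟩
  · exact h4.trans (mul_le_mul h7 hcard (Nat.cast_nonneg _)
      (pow_nonneg (mul_nonneg (by linarith) (by linarith)) _))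
  · have h8 : ((Cvd N L Z A').card : ℝ) ≤ ((Cvd N L Z A).card : ℝ) := by
      exact_mod_cast card_le_card (Cvd_mono N L Z hsub)
    calc c₃ * cB * (A.card : ℝ) = c₃ * (cB * A.card) := by ring
      _ ≤ c₃ * A'.card := mul_le_mul_of_nonneg_left hA' hc₃.le
      _ ≤ _ := h6.trans h8

/-- Powers of the logarithm. -/
theorem pow_log (C : ℝ) (hC : 1 ≤ C) (E : ℕ) : ∃ F : ℕ, ∀ n : ℕ, 3 ≤ n →
    (C * (1 + Real.log n)) ^ E ≤ Real.log n ^ F := by
  have h3 : 1 < Real.log 3 := by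
    rw [Real.lt_log_iff_exp_lt (by norm_num)]
    linarith [Real.exp_one_lt_d9]
  obtain ⟨k, hk⟩ := pow_unbounded_of_one_lt (2 * C) h3
  refine ⟨(k + 1) * E, ?_⟩
  intro n hn
  obtain ⟨hl, -, -⟩ := Mn_u hn
  have hn' : (3 : ℝ) ≤ n := by exact_mod_cast hn
  have h4 : Real.log 3 ≤ Real.log n := Real.log_le_log (by norm_num) hn'
  rw [pow_mul]
  apply pow_le_pow_left₀ (by positivity)
  have h5 : 2 * C ≤ Real.log n ^ k := hk.le.trans (pow_le_pow_left₀ (by linarith) h4 k)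
  calc C * (1 + Real.log n) ≤ C * (2 * Real.log n) := mul_le_mul_of_nonneg_left (by linarith) (by linarith)
    _ = 2 * C * Real.log n := by ring
    _ ≤ Real.log n ^ k * Real.log n := mul_le_mul_of_nonneg_right h5 (by linarith)
    _ = Real.log n ^ (k + 1) := by rw [pow_succ]

/-- The structure theorem, final form. -/
theorem LSfin (K : ℝ) : ∃ (D F : ℕ) (c : ℝ), 0 < c ∧ ∀ A : Finset ℂ, 3 ≤ A.card →
    (A.card : ℝ) ^ 3 ≤ K * (Finset.addEnergy A A : ℕ) →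
    (RL.numDist A : ℝ) * (1 + Real.log (Real.log A.card)) ≤ c * A.card → LatticeLike D F c A := by
  classical
  obtain ⟨D, c, c', C, E, hc, hc', hC, H⟩ := LS K
  obtain ⟨F, hF⟩ := pow_log (3 ^ D * C) (one_le_mul_of_one_le_of_one_le (one_le_pow₀ (by norm_num)) hC)
    (E + 1)
  refine ⟨D, F, min c c', lt_min hc hc', ?_⟩
  intro A hn3 hE hD
  have hn0 : (0 : ℝ) ≤ A.card := Nat.cast_nonneg _
  obtain ⟨d, hd, N, L, Z, hN, hinj, hfield, h4, h5, h5'⟩ :=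
    H A hn3 hE (hD.trans (mul_le_mul_of_nonneg_right (min_le_left _ _) hn0))
  obtain ⟨hl, -, -⟩ := Mn_u hn3
  have h3D : (1 : ℝ) ≤ 3 ^ D := one_le_pow₀ (by norm_num)
  have h6 : 1 ≤ C * (1 + Real.log A.card) := one_le_mul_of_one_le_of_one_le hC (by linarith)
  have h7 : 3 ^ D * (C * (1 + Real.log A.card)) ^ E ≤ Real.log A.card ^ F := by
    refine le_trans ?_ (hF A.card hn3)
    calc 3 ^ D * (C * (1 + Real.log A.card)) ^ E ≤
          (3 ^ D) ^ (E + 1) * (C * (1 + Real.log A.card)) ^ (E + 1) := by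
          apply mul_le_mul (le_self_pow₀ h3D (by omega)) _ (by positivity) (by positivity)
          exact pow_le_pow_right₀ h6 (by omega)
      _ = _ := by rw [← mul_pow, mul_assoc]
  refine ⟨d, fun i => L (Pi.single i 1), fun i => ⌊N i⌋₊, Z, hd, indep_of_inj L hinj, hfield,
    fun i => Nat.le_floor (by simpa using hN i), ?_, ?_, ?_⟩
  · have h8 : (∏ i, (2 * ((⌊N i⌋₊ : ℕ) : ℝ) + 1)) ≤ 3 ^ D * ∏ i, N i := by
      calc (∏ i, (2 * ((⌊N i⌋₊ : ℕ) : ℝ) + 1)) ≤ ∏ i, (3 * N i) := by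
            apply prod_le_prod (fun i _ => by positivity)
            intro i _
            have h9 := Nat.floor_le (zero_le_one.trans (hN i))
            have h10 := hN i
            linarith
        _ = 3 ^ d * ∏ i, N i := by
            rw [prod_mul_distrib, prod_const, card_univ, Fintype.card_fin]
        _ ≤ 3 ^ D * ∏ i, N i := by
            apply mul_le_mul_of_nonneg_right (pow_le_pow_right₀ (by norm_num) hd)
            exact prod_nonneg fun i _ => zero_le_one.trans (hN i)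
    calc (∏ i, (2 * ((⌊N i⌋₊ : ℕ) : ℝ) + 1)) ≤ 3 ^ D * ∏ i, N i := h8
      _ ≤ 3 ^ D * ((C * (1 + Real.log A.card)) ^ E * A.card) :=
          mul_le_mul_of_nonneg_left h4 (by positivity)
      _ = 3 ^ D * (C * (1 + Real.log A.card)) ^ E * A.card := by ring
      _ ≤ Real.log A.card ^ F * A.card := mul_le_mul_of_nonneg_right h7 hn0
      _ = _ := by ring
  · refine h5.trans (le_trans ?_ h7)
    exact le_mul_of_one_le_left (by positivity) h3D
  · have h8 : (Cvd N L Z A).card ≤ (A.filter fun a => ∃ z ∈ Z, ∃ x : Fin d → ℤ,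
        (∀ i, |x i| ≤ ((⌊N i⌋₊ : ℕ) : ℤ)) ∧ a = z + ∑ i, (x i : ℂ) * L (Pi.single i 1)).card := by
      apply card_le_card
      intro a ha
      obtain ⟨ha1, z, hz, x, hx, ha2⟩ := mem_Cvd.1 ha
      rw [mem_filter]
      refine ⟨ha1, z, hz, x, ?_, ?_⟩
      · intro i
        have h9 := mem_wB.1 hx i
        rw [one_mul] at h9
        have h10 : (0 : ℝ) ≤ N i := zero_le_one.trans (hN i)
        rw [Int.abs_eq_natAbs]
        have h11 : (x i).natAbs ≤ ⌊N i⌋₊ := by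
          apply Nat.le_floor
          rw [← Int.cast_natCast, ← Int.abs_eq_natAbs, Int.cast_abs]
          exact h9
        exact_mod_cast h11
      · rw [ha2, L_eq]
        rfl
    refine ((mul_le_mul_of_nonneg_right (min_le_right _ _) hn0).trans h5').trans ?_
    exact_mod_cast h8

/-- `1 + log y` is small compared with `√y`. -/
theorem log_small (δ : ℝ) (hδ : 0 < δ) : ∃ y₀ : ℝ, 1 ≤ y₀ ∧ ∀ y, y₀ ≤ y → 1 + Real.log y ≤ δ * Real.sqrt y := by
  refine ⟨max 1 ((5 / δ) ^ 4), le_max_left _ _, ?_⟩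
  intro y hy
  have h1 : 1 ≤ y := (le_max_left _ _).trans hy
  have h2 : (5 / δ) ^ 4 ≤ y := (le_max_right _ _).trans hy
  have hy0 : 0 ≤ y := by linarith
  obtain ⟨s, hs⟩ : ∃ s, s = Real.sqrt (Real.sqrt y) := ⟨_, rfl⟩
  have hs0 : 0 ≤ s := by rw [hs]; exact Real.sqrt_nonneg _
  have hs2 : s ^ 2 = Real.sqrt y := by rw [hs, Real.sq_sqrt (Real.sqrt_nonneg _)]
  have hs4 : s ^ 4 = y := by
    calc s ^ 4 = (s ^ 2) ^ 2 := by ring
      _ = y := by rw [hs2, Real.sq_sqrt hy0]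
  have hs1 : 1 ≤ s := by
    by_contra h
    rw [not_le] at h
    have : s ^ 4 < 1 := pow_lt_one₀ hs0 h (by norm_num)
    linarith
  have h3 : Real.log y ≤ 4 * (s - 1) := by
    rw [← hs4, Real.log_pow]
    have := Real.log_le_sub_one_of_pos (by linarith : 0 < s)
    push_cast
    linarith
  have h4 : 5 / δ ≤ s := by
    have : (5 / δ) ^ 4 ≤ s ^ 4 := by rw [hs4]; exact h2
    exact le_of_pow_le_pow_left₀ (by norm_num) hs0 this
  rw [div_le_iff₀ hδ] at h4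
  rw [← hs2]
  nlinarith

end Pool.Agent.SD
end
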