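import Mathlib
import Pool.Agent.Lib.MP_6f2296_co.Mg.G012

section

/-!
# TASK RL Pk: coordinates of a subgroup (a maximal minor)

PROOF of `Pk_coord`.  Let `r = rk W`, `V` the `ℚ`-span of `toQ '' W` in `ℚ^d`, `dim V = r`, and `b` a basis of `V`
(`Module.finBasis ℚ V`).  For `f : Fin r → Fin d` let `B_f` be the `r × r` matrix `(b k (f l))_{k,l}`.  Some
`det B_f` is not `0`: the matrix `B = (b k j)` (`r × d`) has linearly independent rows, so it has rank `r`, so `r` of its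
columns are linearly independent (for instance: the columns span `ℚ^r`; choose a basis of `ℚ^r` among them).  Choose `f` with `|det B_f|` maximal
(`Finite.exists_max`), so `det B_f ≠ 0`.  For a column `j` let `t = B_f⁻¹ *ᵥ (column j of B)`; by Cramer's rule
(`Matrix.cramer`, `Matrix.mulVec_cramer`, `Matrix.cramer_apply`)
`t l = det (B_f with column l replaced by column j) / det B_f = det B_{f[l ↦ j]} / det B_f`, so `|t l| ≤ 1`.  For
`x = ∑ c k * b k ∈ V`: `x j = ∑ k, c k * B k j = ∑ k, c k ∑ l, B k (f l) * t l = ∑ l, x (f l) * t l`, so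
`|x j| ≤ ∑ l, |x (f l)|`.  Apply it to `toQ x` and cast.

PROOF of `Pk_inj`: `x - y ∈ W` vanishes at all `f k`, so it is `0` by the inequality.
-/

set_option autoImplicit false

open Finset

namespace Pool.Agent.RL

variable {d : ℕ}

private theorem Pk_choose {r d : ℕ} (B : Matrix (Fin r) (Fin d) ℚ) (h : B.rank = r) :
    ∃ f : Fin r → Fin d, (Matrix.of fun k l => B k (f l)).det ≠ 0 := by
  classical
  have hspan : Module.finrank ℚ (Submodule.span ℚ (Set.range B.col)) = r :=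
    (Matrix.rank_eq_finrank_span_cols B).symm.trans h
  obtain ⟨g, hg1, -, hg3⟩ := Submodule.exists_fun_fin_finrank_span_eq ℚ (Set.range B.col)
  choose f hf using hg1
  let σ : Fin r ≃ Fin (Module.finrank ℚ (Submodule.span ℚ (Set.range B.col))) := finCongr hspan.symm
  refine ⟨fun l => f (σ l), ?_⟩
  have hli : LinearIndependent ℚ (Matrix.of fun k l => B k (f (σ l))).col := by
    have h1 := hg3.comp σ σ.injective
    have e : (Matrix.of fun k l => B k (f (σ l))).col = g ∘ σ := by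
      funext l
      exact hf (σ l)
    rw [e]
    exact h1
  have hu := Matrix.linearIndependent_cols_iff_isUnit.mp hli
  exact ((Matrix.isUnit_iff_isUnit_det _).mp hu).ne_zero

private theorem Pk_cramer {r d : ℕ} (B : Matrix (Fin r) (Fin d) ℚ) (f : Fin r → Fin d)
    (h0 : (Matrix.of fun k l => B k (f l)).det ≠ 0)
    (hmax : ∀ g : Fin r → Fin d, |(Matrix.of fun k l => B k (g l)).det| ≤
      |(Matrix.of fun k l => B k (f l)).det|) (j : Fin d) :
    ∃ t : Fin r → ℚ, (∀ l, |t l| ≤ 1) ∧ ∀ k, B k j = ∑ l, B k (f l) * t l := by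
  classical
  set A : Matrix (Fin r) (Fin r) ℚ := Matrix.of fun k l => B k (f l) with hA
  refine ⟨fun l => A.cramer (fun k => B k j) l / A.det, ?_, ?_⟩
  · intro l
    show |A.cramer (fun k => B k j) l / A.det| ≤ 1
    rw [Matrix.cramer_apply, abs_div, div_le_one (abs_pos.mpr h0)]
    have e : A.updateCol l (fun k => B k j) =
        Matrix.of fun k l' => B k ((Function.update f l j) l') := by
      ext k l'
      rw [Matrix.updateCol_apply]
      by_cases hl : l' = l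
      · rw [if_pos hl, hl]
        simp
      · rw [if_neg hl]
        simp [hA, Function.update_of_ne hl]
    rw [e]
    exact hmax _
  · intro k
    have h1 := congrFun (Matrix.mulVec_cramer A (fun k => B k j)) k
    rw [Pi.smul_apply, smul_eq_mul] at h1
    have h2 : ∑ l, B k (f l) * (A.cramer (fun k => B k j) l / A.det) =
        (A.mulVec (A.cramer fun k => B k j)) k / A.det := by
      rw [Matrix.mulVec, dotProduct, Finset.sum_div]
      apply Finset.sum_congr rfl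
      intro l _
      rw [mul_div_assoc]
      rfl
    rw [h2, h1]
    field_simp

theorem Pk_coord (W : Submodule ℤ (Fin d → ℤ)) :
    ∃ f : Fin (rk (W : Set (Fin d → ℤ))) → Fin d, ∀ x ∈ W, ∀ j, |x j| ≤ ∑ k, |x (f k)| := by
  classical
  let V := Submodule.span ℚ (toQ '' (W : Set (Fin d → ℤ)))
  let b : Module.Basis (Fin (rk (W : Set (Fin d → ℤ)))) ℚ V := Module.finBasis ℚ V
  let B : Matrix (Fin (rk (W : Set (Fin d → ℤ)))) (Fin d) ℚ :=
    Matrix.of fun k j => (b k : Fin d → ℚ) j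
  have hrow : LinearIndependent ℚ B.row := by
    have h1 := b.linearIndependent
    exact h1.map' V.subtype (Submodule.ker_subtype V)
  have hrank : B.rank = rk (W : Set (Fin d → ℤ)) := by
    have := LinearIndependent.rank_matrix hrow
    rw [this, Fintype.card_fin]
  obtain ⟨f0, hf0⟩ := Pk_choose B hrank
  have : Nonempty (Fin (rk (W : Set (Fin d → ℤ))) → Fin d) := ⟨f0⟩
  obtain ⟨f, hf⟩ := Finite.exists_max
    (fun f : Fin (rk (W : Set (Fin d → ℤ))) → Fin d => |(Matrix.of fun k l => B k (f l)).det|)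
  have hne : (Matrix.of fun k l => B k (f l)).det ≠ 0 := by
    intro h0
    have := hf f0
    simp only [h0, abs_zero] at this
    exact hf0 (abs_eq_zero.mp (le_antisymm this (abs_nonneg _)))
  refine ⟨f, fun x hx j => ?_⟩
  obtain ⟨t, ht1, ht2⟩ := Pk_cramer B f hne hf j
  have hxV : toQ x ∈ V := Submodule.subset_span ⟨x, hx, rfl⟩
  have hrep := b.sum_repr ⟨toQ x, hxV⟩
  set c := b.repr ⟨toQ x, hxV⟩ with hc
  have hcoord : ∀ i, (x i : ℚ) = ∑ k, c k * B k i := by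
    intro i
    have h1 := congrArg (fun y : V => (y : Fin d → ℚ) i) hrep
    simp only [Submodule.coe_sum, Submodule.coe_smul, Finset.sum_apply, Pi.smul_apply,
      smul_eq_mul] at h1
    exact h1.symm
  have hq : |(x j : ℚ)| ≤ ∑ k, |(x (f k) : ℚ)| := by
    have e1 : (x j : ℚ) = ∑ l, (x (f l) : ℚ) * t l := by
      rw [hcoord j]
      simp only [hcoord (f _), ht2, Finset.mul_sum, Finset.sum_mul]
      rw [Finset.sum_comm]
      apply Finset.sum_congr rfl
      intro l _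
      apply Finset.sum_congr rfl
      intro k _
      ring
    rw [e1]
    refine (Finset.abs_sum_le_sum_abs _ _).trans (Finset.sum_le_sum fun l _ => ?_)
    rw [abs_mul]
    exact mul_le_of_le_one_right (abs_nonneg _) (ht1 l)
  exact_mod_cast hq

theorem Pk_inj (W : Submodule ℤ (Fin d → ℤ)) {r : ℕ} (f : Fin r → Fin d)
    (hf : ∀ x ∈ W, ∀ j, |x j| ≤ ∑ k, |x (f k)|) {x y : Fin d → ℤ} (hx : x ∈ W) (hy : y ∈ W)
    (h : ∀ k, x (f k) = y (f k)) : x = y := by
  funext j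
  have h1 := hf (x - y) (W.sub_mem hx hy) j
  have h2 : ∑ k, |(x - y) (f k)| = 0 := by
    apply Finset.sum_eq_zero
    intro k _
    rw [Pi.sub_apply, h k, sub_self, abs_zero]
  rw [h2] at h1
  have h3 := abs_eq_zero.mp (le_antisymm h1 (abs_nonneg _))
  rw [Pi.sub_apply] at h3
  exact sub_eq_zero.mp h3

end Pool.Agent.RL
end

section

/-!
# TASK RL Pk2: packing

PROOF of `Pk_cells`.  Take `f` from `Pk_coord`, `r = rk W`.  For `x ∈ W` with `nm x ≤ R` the cell of `x` is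
`(x (f k) / s)_k` (floor division of integers): every entry lies in `[-(R/s) - 1, R/s]` (a set of `2 (R/s) + 2`
integers), so there are at most `(2 (R/s) + 2)^r` cells.  Fix `x₀` in a nonempty cell; for `x` in the same cell
`|x (f k) - x₀ (f k)| ≤ s - 1`, so `nm (x - x₀) ≤ r (s - 1) ≤ d (s - 1)` (`Pk_coord` for `x - x₀ ∈ W`, `nm_le_iff`,
`rk_le`), and `x ↦ x - x₀` is injective: every cell has at most `cnt W (d (s - 1))` elements
(`Finset.card_le_mul_card_image` or `card_eq_sum_card_fiberwise`).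

PROOF of `Pk_pow`: `s = 1` in `Pk_cells` gives a weaker bound; instead use the injection `x ↦ (x (f k))_k`
(`Pk_inj`) into `(Icc (-R) R)^r`.

PROOF of `Pk_min`.  If `d = 0` all is trivial (`cnt ≤ 1`, base `≥ 1`).  Otherwise `s = (μ - 1) / d + 1` (floor division):
`d (s - 1) ≤ μ - 1 < μ`, so `cnt W (d (s - 1)) = 1` (only the zero vector), and `d s ≥ μ`, so
`2 (R / s) + 2 ≤ 2 d R / μ + 2 ≤ (2 d + 2) (R / μ)` as real numbers (`R / μ ≥ 1`).  Then raise the exponent from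
`rk W` to `r` (`one_le_pow`, the base is at least `1`).
-/

set_option autoImplicit false

open Finset

namespace Pool.Agent.RL

variable {d : ℕ}

theorem Pk_cells (W : Submodule ℤ (Fin d → ℤ)) (R s : ℕ) (hs : 1 ≤ s) :
    cnt (W : Set (Fin d → ℤ)) R ≤
      (2 * (R / s) + 2) ^ rk (W : Set (Fin d → ℤ)) * cnt (W : Set (Fin d → ℤ)) (d * (s - 1)) := by
  classical
  obtain ⟨r, hr, f, hf⟩ : ∃ r, r = rk (W : Set (Fin d → ℤ)) ∧ ∃ f : Fin r → Fin d, ∀ x ∈ W, ∀ j,
      |x j| ≤ ∑ k, |x (f k)| := ⟨_, rfl, Pk_coord W⟩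
  have hs0 : (0 : ℤ) < s := by exact_mod_cast hs
  have hrd := rk_le (W : Set (Fin d → ℤ))
  rw [← hr] at hrd ⊢
  set T : Finset (Fin r → ℤ) := Fintype.piFinset fun _ => Finset.Icc (-((R / s : ℕ) : ℤ) - 1) ((R / s : ℕ) : ℤ) with hT
  have hTc : T.card = (2 * (R / s) + 2) ^ r := by
    rw [hT, Fintype.card_piFinset, Finset.prod_const, Finset.card_univ, Fintype.card_fin, Int.card_Icc]
    congr 1
    omega
  rw [cnt_eq (W : Set (Fin d → ℤ)) R, ← hTc, mul_comm]
  refine Finset.card_le_mul_card_image_of_maps_to (f := fun x : Fin d → ℤ => fun k : Fin r => x (f k) / (s : ℤ)) ?_ _ ?_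
  · intro x hx
    obtain ⟨hx1, hx2⟩ := mem_cnt.mp hx
    rw [nm_le_iff] at hx1
    rw [hT, Fintype.mem_piFinset]
    intro k
    rw [Finset.mem_Icc]
    have h1 := hx1 (f k)
    rw [abs_le] at h1
    constructor
    · rw [Int.le_ediv_iff_mul_le hs0]
      have h2 : (R : ℤ) < ((R : ℤ) / (s : ℤ) + 1) * s := Int.lt_ediv_add_one_mul_self _ hs0
      push_cast
      nlinarith [h1.1]
    · push_cast
      exact Int.ediv_le_ediv hs0 h1.2
  · intro b _
    rw [cnt_eq (W : Set (Fin d → ℤ)) (d * (s - 1))]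
    rcases Finset.eq_empty_or_nonempty
      (((Bx d R).filter (· ∈ (W : Set (Fin d → ℤ)))).filter fun x => (fun k : Fin r => x (f k) / (s : ℤ)) = b) with h0 | ⟨x₀, hx₀⟩
    · rw [h0]
      exact Nat.zero_le _
    · rw [Finset.mem_filter] at hx₀
      obtain ⟨hx₀1, hx₀2⟩ := hx₀
      have hx₀3 := (mem_cnt.mp hx₀1).2
      refine Finset.card_le_card_of_injOn (fun x => x - x₀) ?_ ?_
      · intro x hx
        rw [Finset.mem_coe, Finset.mem_filter] at hx
        obtain ⟨hx1, hx2⟩ := hx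
        have hx3 := (mem_cnt.mp hx1).2
        have hW : x - x₀ ∈ W := W.sub_mem hx3 hx₀3
        rw [Finset.mem_coe, mem_cnt]
        refine ⟨?_, hW⟩
        rw [nm_le_iff]
        intro j
        refine (hf _ hW j).trans ?_
        have h1 : ∀ k : Fin r, |(x - x₀) (f k)| ≤ (s : ℤ) - 1 := by
          intro k
          have e1 : x (f k) / (s : ℤ) = x₀ (f k) / (s : ℤ) := by
            have e2 := congrFun (hx2.trans hx₀2.symm) k
            exact e2
          have a1 := Int.emod_add_mul_ediv (x (f k)) s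
          have a2 := Int.emod_add_mul_ediv (x₀ (f k)) s
          have b1 := Int.emod_nonneg (x (f k)) hs0.ne'
          have b2 := Int.emod_nonneg (x₀ (f k)) hs0.ne'
          have c1 := Int.emod_lt_of_pos (x (f k)) hs0
          have c2 := Int.emod_lt_of_pos (x₀ (f k)) hs0
          rw [Pi.sub_apply, abs_le]
          rw [e1] at a1
          constructor <;> linarith
        calc ∑ k : Fin r, |(x - x₀) (f k)| ≤ ∑ _k : Fin r, ((s : ℤ) - 1) := Finset.sum_le_sum fun k _ => h1 k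
          _ = (r : ℤ) * ((s : ℤ) - 1) := by
              rw [Finset.sum_const, Finset.card_univ, Fintype.card_fin, nsmul_eq_mul]
          _ ≤ (d : ℤ) * ((s : ℤ) - 1) := by
              refine mul_le_mul_of_nonneg_right (by exact_mod_cast hrd) (by linarith)
          _ = ((d * (s - 1) : ℕ) : ℤ) := by
              push_cast [Nat.cast_sub hs]
              ring
      · intro x _ y _ hxy
        exact sub_left_injective hxy

theorem Pk_pow (W : Submodule ℤ (Fin d → ℤ)) (R : ℕ) :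
    cnt (W : Set (Fin d → ℤ)) R ≤ (2 * R + 1) ^ rk (W : Set (Fin d → ℤ)) := by
  classical
  obtain ⟨f, hf⟩ := Pk_coord W
  rw [cnt_eq (W : Set (Fin d → ℤ)) R, ← card_Bx]
  refine Finset.card_le_card_of_injOn (fun x k => x (f k)) ?_ ?_
  · intro x hx
    rw [Finset.mem_coe, mem_cnt, nm_le_iff] at hx
    rw [Finset.mem_coe, mem_Bx']
    intro k
    exact hx.1 (f k)
  · intro x hx y hy hxy
    rw [Finset.mem_coe, mem_cnt] at hx hy
    exact Pk_inj W f hf hx.2 hy.2 (fun k => congrFun hxy k)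

theorem Pk_min (W : Submodule ℤ (Fin d → ℤ)) {μ R r : ℕ} (hμ : 1 ≤ μ)
    (hW : ∀ x ∈ W, x ≠ 0 → μ ≤ nm x) (hR : μ ≤ R) (hr : rk (W : Set (Fin d → ℤ)) ≤ r) :
    (cnt (W : Set (Fin d → ℤ)) R : ℝ) ≤ ((2 * d + 2) * ((R : ℝ) / μ)) ^ r := by
  classical
  have hμ0 : (0 : ℝ) < μ := by exact_mod_cast hμ
  have hRμ : (1 : ℝ) ≤ (R : ℝ) / μ := by
    rw [le_div_iff₀ hμ0, one_mul]
    exact_mod_cast hR
  have hd0 : (0 : ℝ) ≤ d := Nat.cast_nonneg d
  have hbase : (1 : ℝ) ≤ (2 * d + 2) * ((R : ℝ) / μ) := by nlinarith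
  rcases Nat.eq_zero_or_pos d with hd | hd
  · subst hd
    have h1 : (cnt (W : Set (Fin 0 → ℤ)) R : ℝ) ≤ 1 := by
      have := cnt_le (W : Set (Fin 0 → ℤ)) R
      rw [pow_zero] at this
      exact_mod_cast this
    exact h1.trans (one_le_pow₀ hbase)
  · have hd' : (0 : ℝ) < d := by exact_mod_cast hd
    have h1 : d * ((μ - 1) / d + 1 - 1) < μ := by
      rw [Nat.add_sub_cancel]
      have := Nat.mul_div_le (μ - 1) d
      omega
    have h2 : cnt (W : Set (Fin d → ℤ)) (d * ((μ - 1) / d + 1 - 1)) ≤ 1 := by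
      rw [cnt_eq, Finset.card_le_one]
      have h3 : ∀ x ∈ (Bx d (d * ((μ - 1) / d + 1 - 1))).filter (· ∈ (W : Set (Fin d → ℤ))), x = 0 := by
        intro x hx
        obtain ⟨hx1, hx2⟩ := mem_cnt.mp hx
        by_contra h
        have := hW x hx2 h
        omega
      intro x hx y hy
      rw [h3 x hx, h3 y hy]
    have h3 : μ ≤ d * ((μ - 1) / d + 1) := by
      have := Nat.lt_mul_div_succ (μ - 1) hd
      omega
    have h4 := Pk_cells W R ((μ - 1) / d + 1) (Nat.le_add_left 1 _)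
    set s := (μ - 1) / d + 1 with hs
    have hs0 : (0 : ℝ) < s := by
      have : 0 < s := Nat.succ_pos _
      exact_mod_cast this
    have h3' : (μ : ℝ) ≤ d * s := by exact_mod_cast h3
    have h5 : ((2 * (R / s) + 2 : ℕ) : ℝ) ≤ (2 * d + 2) * ((R : ℝ) / μ) := by
      have e1 : ((R / s : ℕ) : ℝ) ≤ (R : ℝ) / s := Nat.cast_div_le
      have e2 : (R : ℝ) / s ≤ d * ((R : ℝ) / μ) := by
        rw [div_le_iff₀ hs0]
        have e3 : (d : ℝ) * ((R : ℝ) / μ) * s = (R : ℝ) / μ * (d * s) := by ring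
        rw [e3]
        calc (R : ℝ) = (R : ℝ) / μ * μ := by field_simp
          _ ≤ (R : ℝ) / μ * (d * s) := mul_le_mul_of_nonneg_left h3' (by positivity)
      push_cast
      nlinarith
    have h6 : (cnt (W : Set (Fin d → ℤ)) R : ℝ) ≤ ((2 * (R / s) + 2 : ℕ) : ℝ) ^ rk (W : Set (Fin d → ℤ)) := by
      have h7 : cnt (W : Set (Fin d → ℤ)) R ≤ (2 * (R / s) + 2) ^ rk (W : Set (Fin d → ℤ)) * 1 :=
        h4.trans (Nat.mul_le_mul_left _ h2)
      rw [mul_one] at h7
      exact_mod_cast h7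
    calc (cnt (W : Set (Fin d → ℤ)) R : ℝ) ≤ ((2 * (R / s) + 2 : ℕ) : ℝ) ^ rk (W : Set (Fin d → ℤ)) := h6
      _ ≤ ((2 * d + 2) * ((R : ℝ) / μ)) ^ rk (W : Set (Fin d → ℤ)) := pow_le_pow_left₀ (Nat.cast_nonneg _) h5 _
      _ ≤ ((2 * d + 2) * ((R : ℝ) / μ)) ^ r := pow_le_pow_right₀ hbase hr

end Pool.Agent.RL
end

section

/-!
# TASK RL Pk4: subgroups whose short vectors span less

PROOF of `Pk_unbal`.  Let `X = {z | z ∈ W ∧ nm z ≤ H μ}`, `rk X ≤ m - 1`, `1 ≤ m`, and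
`W' = {x ∈ W | toQ x ∈ span ℚ (toQ '' X)}` (a submodule over `ℤ`: `toQ` is additive), `rk W' ≤ rk X ≤ m - 1` (`rk_span`).
Write `D = 2 d + 2`.
Case `R ≤ H μ`: the vectors of `W` with norm at most `R` lie in `X ⊆ W'`, so by `Pk_min` for `W'`:
`cnt W R = cnt W' R ≤ (D (R/μ))^(m-1) ≤ D^(2m) (R/μ)^m (μ/R)`.
Case `R > H μ`: if `d = 0` then `rk W' < m` and `cnt ≤ 1`...: all is trivial (`cnt W R ≤ 1` and the right side is at least
`(R/μ)^m / H`, `R / μ > H`).  Otherwise let `s = H μ / d + 1` (floor division): `d (s - 1) ≤ H μ` and `d s ≥ H μ`.  By `Pk_cells` and `Pk_min`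
for `W'` (with `R` replaced by `H μ ≥ μ`):
`cnt W R ≤ (2 (R/s) + 2)^(rk W) * cnt W (H μ) ≤ (2 d R/(H μ) + 2)^m * (D H)^(m-1) ≤ (D R/(H μ))^m (D H)^(m-1)`
`≤ D^(2m) (R/μ)^m / H`  (`cnt W (d (s-1)) ≤ cnt W (H μ) = cnt W' (H μ)`; monotonicity of `cnt` in the radius:
the filter over a larger box; `R/(H μ) ≥ 1`).
-/

set_option autoImplicit false

open Finset

namespace Pool.Agent.RL

variable {d : ℕ}

private theorem Pk4_toQ_add (x y : Fin d → ℤ) : toQ (x + y) = toQ x + toQ y := by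
  funext i
  simp [toQ]

private theorem Pk4_toQ_zero : toQ (0 : Fin d → ℤ) = 0 := by
  funext i
  simp [toQ]

private theorem Pk4_toQ_smul (n : ℤ) (x : Fin d → ℤ) : toQ (n • x) = (n : ℚ) • toQ x := by
  funext i
  simp [toQ]

theorem Pk_unbal (W : Submodule ℤ (Fin d → ℤ)) {μ R H m : ℕ} (hμ : 1 ≤ μ)
    (hW : ∀ x ∈ W, x ≠ 0 → μ ≤ nm x) (hH : 1 ≤ H) (hR : μ ≤ R) (hm : rk (W : Set (Fin d → ℤ)) ≤ m)
    (hb : rk {z : Fin d → ℤ | z ∈ W ∧ nm z ≤ H * μ} < m) :
    (cnt (W : Set (Fin d → ℤ)) R : ℝ) ≤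
      (2 * d + 2) ^ (2 * m) * ((R : ℝ) / μ) ^ m * (1 / H + (μ : ℝ) / R) := by
  classical
  set X : Set (Fin d → ℤ) := {z : Fin d → ℤ | z ∈ W ∧ nm z ≤ H * μ} with hX
  obtain ⟨W', hW'⟩ : ∃ W' : Submodule ℤ (Fin d → ℤ), ∀ x, x ∈ W' ↔ x ∈ W ∧ toQ x ∈ Submodule.span ℚ (toQ '' X) :=
    ⟨{ carrier := {x | x ∈ W ∧ toQ x ∈ Submodule.span ℚ (toQ '' X)}
       add_mem' := by
         rintro x y ⟨hx, hx'⟩ ⟨hy, hy'⟩
         refine ⟨W.add_mem hx hy, ?_⟩
         rw [Pk4_toQ_add]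
         exact Submodule.add_mem _ hx' hy'
       zero_mem' := by
         refine ⟨W.zero_mem, ?_⟩
         rw [Pk4_toQ_zero]
         exact Submodule.zero_mem _
       smul_mem' := by
         rintro n x ⟨hx, hx'⟩
         refine ⟨W.smul_mem n hx, ?_⟩
         rw [Pk4_toQ_smul]
         exact Submodule.smul_mem _ _ hx' }, fun x => Iff.rfl⟩
  have hr' : rk (W' : Set (Fin d → ℤ)) ≤ m - 1 := by
    have h1 : rk (W' : Set (Fin d → ℤ)) ≤ rk X := rk_span fun x hx => ((hW' x).mp hx).2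
    omega
  have hm1 : 1 ≤ m := by omega
  have hWm : ∀ x ∈ W', x ≠ 0 → μ ≤ nm x := fun x hx h => hW x ((hW' x).mp hx).1 h
  -- comparison of the counting functions
  have hcmp : ∀ ρ ρ' : ℕ, ρ ≤ H * μ → ρ ≤ ρ' → cnt (W : Set (Fin d → ℤ)) ρ ≤ cnt (W' : Set (Fin d → ℤ)) ρ' := by
    intro ρ ρ' h1 h2
    rw [cnt_eq (W : Set (Fin d → ℤ)), cnt_eq (W' : Set (Fin d → ℤ))]
    apply Finset.card_le_card
    intro x hx
    obtain ⟨hx1, hx2⟩ := mem_cnt.mp hx
    rw [mem_cnt]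
    refine ⟨hx1.trans h2, (hW' x).mpr ⟨hx2, Submodule.subset_span ⟨x, ⟨hx2, hx1.trans h1⟩, rfl⟩⟩⟩
  have hμ0 : (0 : ℝ) < μ := by exact_mod_cast hμ
  have hH0 : (0 : ℝ) < H := by exact_mod_cast hH
  have hR0 : (0 : ℝ) < R := by
    have : 0 < R := by omega
    exact_mod_cast this
  have hRμ : (1 : ℝ) ≤ (R : ℝ) / μ := by
    rw [le_div_iff₀ hμ0, one_mul]
    exact_mod_cast hR
  have hd0 : (0 : ℝ) ≤ d := Nat.cast_nonneg d
  have hD : (1 : ℝ) ≤ 2 * d + 2 := by linarith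
  have hD0 : (0 : ℝ) < 2 * d + 2 := by linarith
  have hpos1 : 0 ≤ (2 * (d : ℝ) + 2) ^ (2 * m) * ((R : ℝ) / μ) ^ m := by positivity
  obtain ⟨n, rfl⟩ : ∃ n, m = n + 1 := ⟨m - 1, by omega⟩
  rw [Nat.add_sub_cancel] at hr'
  by_cases hcase : R ≤ H * μ
  · have h1 : (cnt (W : Set (Fin d → ℤ)) R : ℝ) ≤ cnt (W' : Set (Fin d → ℤ)) R := by
      exact_mod_cast hcmp R R hcase le_rfl
    have h2 := Pk_min W' hμ hWm hR hr'
    refine (h1.trans h2).trans ?_
    have h3 : (2 * (d : ℝ) + 2) ^ n ≤ (2 * (d : ℝ) + 2) ^ (2 * (n + 1)) := pow_le_pow_right₀ hD (by omega)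
    calc ((2 * (d : ℝ) + 2) * ((R : ℝ) / μ)) ^ n = (2 * (d : ℝ) + 2) ^ n * ((R : ℝ) / μ) ^ n := mul_pow _ _ _
      _ ≤ (2 * (d : ℝ) + 2) ^ (2 * (n + 1)) * ((R : ℝ) / μ) ^ n :=
          mul_le_mul_of_nonneg_right h3 (by positivity)
      _ = (2 * (d : ℝ) + 2) ^ (2 * (n + 1)) * ((R : ℝ) / μ) ^ (n + 1) * ((μ : ℝ) / R) := by
          rw [pow_succ ((R : ℝ) / μ) n]
          field_simp
      _ ≤ (2 * (d : ℝ) + 2) ^ (2 * (n + 1)) * ((R : ℝ) / μ) ^ (n + 1) * (1 / H + (μ : ℝ) / R) := by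
          refine mul_le_mul_of_nonneg_left ?_ hpos1
          have : (0 : ℝ) ≤ 1 / H := by positivity
          linarith
  · push Not at hcase
    have hcase' : (H : ℝ) * μ < R := by exact_mod_cast hcase
    have hRH : (1 : ℝ) ≤ (R : ℝ) / (H * μ) := by
      rw [le_div_iff₀ (by positivity), one_mul]
      exact hcase'.le
    have key : (cnt (W : Set (Fin d → ℤ)) R : ℝ) ≤
        ((2 * (d : ℝ) + 2) * ((R : ℝ) / (H * μ))) ^ (n + 1) * ((2 * (d : ℝ) + 2) * H) ^ n := by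
      have b1 : (1 : ℝ) ≤ (2 * (d : ℝ) + 2) * ((R : ℝ) / (H * μ)) := by nlinarith
      have b2 : (1 : ℝ) ≤ (2 * (d : ℝ) + 2) * H := by
        have : (1 : ℝ) ≤ H := by exact_mod_cast hH
        nlinarith
      rcases Nat.eq_zero_or_pos d with hd | hd
      · subst hd
        have h1 : (cnt (W : Set (Fin 0 → ℤ)) R : ℝ) ≤ 1 := by
          have := cnt_le (W : Set (Fin 0 → ℤ)) R
          rw [pow_zero] at this
          exact_mod_cast this
        refine h1.trans ?_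
        exact one_le_mul_of_one_le_of_one_le (one_le_pow₀ b1) (one_le_pow₀ b2)
      · have hd' : (0 : ℝ) < d := by exact_mod_cast hd
        have h4 := Pk_cells W R ((H * μ) / d + 1) (Nat.le_add_left 1 _)
        have h1 : d * ((H * μ) / d + 1 - 1) ≤ H * μ := by
          rw [Nat.add_sub_cancel]
          exact Nat.mul_div_le (H * μ) d
        have h2 : (cnt (W : Set (Fin d → ℤ)) (d * ((H * μ) / d + 1 - 1)) : ℝ) ≤ ((2 * (d : ℝ) + 2) * H) ^ n := by
          have e1 : (cnt (W : Set (Fin d → ℤ)) (d * ((H * μ) / d + 1 - 1)) : ℝ) ≤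
              cnt (W' : Set (Fin d → ℤ)) (H * μ) := by
            exact_mod_cast hcmp _ _ h1 h1
          have e2 := Pk_min W' hμ hWm (R := H * μ) (Nat.le_mul_of_pos_left μ hH) hr'
          refine (e1.trans e2).trans (le_of_eq ?_)
          congr 1
          push_cast
          field_simp
        have h3 : H * μ ≤ d * ((H * μ) / d + 1) := (Nat.lt_mul_div_succ (H * μ) hd).le
        set s := (H * μ) / d + 1 with hs
        have hs0 : (0 : ℝ) < s := by
          have : 0 < s := Nat.succ_pos _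
          exact_mod_cast this
        have h3' : (H : ℝ) * μ ≤ d * s := by exact_mod_cast h3
        have h5 : ((2 * (R / s) + 2 : ℕ) : ℝ) ≤ (2 * d + 2) * ((R : ℝ) / (H * μ)) := by
          have e1 : ((R / s : ℕ) : ℝ) ≤ (R : ℝ) / s := Nat.cast_div_le
          have e2 : (R : ℝ) / s ≤ d * ((R : ℝ) / (H * μ)) := by
            rw [div_le_iff₀ hs0]
            have e3 : (d : ℝ) * ((R : ℝ) / (H * μ)) * s = (R : ℝ) / (H * μ) * (d * s) := by ring
            rw [e3]
            calc (R : ℝ) = (R : ℝ) / (H * μ) * (H * μ) := by field_simp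
              _ ≤ (R : ℝ) / (H * μ) * (d * s) := mul_le_mul_of_nonneg_left h3' (by positivity)
          push_cast
          nlinarith
        have h6 : (cnt (W : Set (Fin d → ℤ)) R : ℝ) ≤ ((2 * (R / s) + 2 : ℕ) : ℝ) ^ rk (W : Set (Fin d → ℤ)) *
            (cnt (W : Set (Fin d → ℤ)) (d * (s - 1)) : ℝ) := by
          exact_mod_cast h4
        refine h6.trans (mul_le_mul ?_ h2 (Nat.cast_nonneg _) (by positivity))
        calc ((2 * (R / s) + 2 : ℕ) : ℝ) ^ rk (W : Set (Fin d → ℤ))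
            ≤ ((2 * d + 2) * ((R : ℝ) / (H * μ))) ^ rk (W : Set (Fin d → ℤ)) :=
              pow_le_pow_left₀ (Nat.cast_nonneg _) h5 _
          _ ≤ ((2 * d + 2) * ((R : ℝ) / (H * μ))) ^ (n + 1) := pow_le_pow_right₀ b1 hm
    refine key.trans ?_
    have h7 : ((2 * (d : ℝ) + 2) * ((R : ℝ) / (H * μ))) ^ (n + 1) * ((2 * (d : ℝ) + 2) * H) ^ n =
        (2 * (d : ℝ) + 2) ^ (2 * n + 1) * (((R : ℝ) / μ) ^ (n + 1) * (1 / H)) := by
      have e1 : (R : ℝ) / (H * μ) = (R : ℝ) / μ * (1 / H) := by field_simp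
      rw [e1, mul_pow, mul_pow, mul_pow, pow_succ (1 / (H : ℝ)) n]
      have e2 : (1 / (H : ℝ)) ^ n * (H : ℝ) ^ n = 1 := by
        rw [← mul_pow, one_div_mul_cancel hH0.ne', one_pow]
      calc (2 * (d : ℝ) + 2) ^ (n + 1) * (((R : ℝ) / μ) ^ (n + 1) * ((1 / (H : ℝ)) ^ n * (1 / H))) *
            ((2 * (d : ℝ) + 2) ^ n * (H : ℝ) ^ n)
          = (2 * (d : ℝ) + 2) ^ (n + 1) * (2 * (d : ℝ) + 2) ^ n * ((R : ℝ) / μ) ^ (n + 1) * (1 / H) *
            ((1 / (H : ℝ)) ^ n * (H : ℝ) ^ n) := by ring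
        _ = (2 * (d : ℝ) + 2) ^ (2 * n + 1) * (((R : ℝ) / μ) ^ (n + 1) * (1 / H)) := by
            rw [e2, ← pow_add]
            ring_nf
    rw [h7]
    calc (2 * (d : ℝ) + 2) ^ (2 * n + 1) * (((R : ℝ) / μ) ^ (n + 1) * (1 / H))
        ≤ (2 * (d : ℝ) + 2) ^ (2 * (n + 1)) * (((R : ℝ) / μ) ^ (n + 1) * (1 / H)) :=
          mul_le_mul_of_nonneg_right (pow_le_pow_right₀ hD (by omega)) (by positivity)
      _ = (2 * (d : ℝ) + 2) ^ (2 * (n + 1)) * ((R : ℝ) / μ) ^ (n + 1) * (1 / H) := by ring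
      _ ≤ (2 * (d : ℝ) + 2) ^ (2 * (n + 1)) * ((R : ℝ) / μ) ^ (n + 1) * (1 / H + (μ : ℝ) / R) := by
          refine mul_le_mul_of_nonneg_left ?_ hpos1
          have : (0 : ℝ) ≤ (μ : ℝ) / R := by positivity
          linarith

end Pool.Agent.RL
end

section

/-!
# TASK RL Sh: sums over the vectors of a cube

PROOF of `shell`.  The number of the integer vectors with `nm y = k`, `k ≥ 1`, is `(2k+1)^d - (2k-1)^d`
(`card_Bx`), which is at most `2 d (2k+1)^(d-1) ≤ 2 d (3k)^(d-1)`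
(`a^d - b^d ≤ d (a - b) a^(d-1)` for `0 ≤ b ≤ a`: induction on `d`, or `Commute.geom_sum...`), and `≤ 2 d 3^d k^(d-1)`.  Group the
sum by `k = nm y ∈ [1, R]` (`Finset.sum_fiberwise_of_maps_to`).

PROOF of `shell1`: `g k = (R/k)^(d-1)`, `k^(d-1) (R/k)^(d-1) = R^(d-1)`, `R` terms.
PROOF of `shell2`: `g k = (R/k)^d`, `k^(d-1) (R/k)^d = R^d / k` and `∑_{k ≤ R} 1/k ≤ 1 + log R`
(`harmonic_le_one_add_log`).
-/

set_option autoImplicit false

open Finset

namespace Pool.Agent.RL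

private theorem Sh_pow (e : ℕ) {a b : ℝ} (hb : 0 ≤ b) (hab : b ≤ a) :
    a ^ (e + 1) - b ^ (e + 1) ≤ (e + 1) * (a - b) * a ^ e := by
  have ha : 0 ≤ a := hb.trans hab
  induction e with
  | zero => simp
  | succ e ih =>
    have h1 : a * (a ^ (e + 1) - b ^ (e + 1)) ≤ a * ((e + 1) * (a - b) * a ^ e) :=
      mul_le_mul_of_nonneg_left ih ha
    have h2 : b ^ (e + 1) * (a - b) ≤ a ^ (e + 1) * (a - b) :=
      mul_le_mul_of_nonneg_right (pow_le_pow_left₀ hb hab _) (by linarith)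
    push_cast
    calc a ^ (e + 1 + 1) - b ^ (e + 1 + 1)
        = a * (a ^ (e + 1) - b ^ (e + 1)) + b ^ (e + 1) * (a - b) := by ring
      _ ≤ a * ((e + 1) * (a - b) * a ^ e) + a ^ (e + 1) * (a - b) := add_le_add h1 h2
      _ = (e + 1 + 1) * (a - b) * a ^ (e + 1) := by ring

private theorem Sh_card (d R k : ℕ) (hd : 1 ≤ d) (hk : 1 ≤ k) :
    ((((Bx d R).filter (· ≠ 0)).filter fun y => nm y = k).card : ℝ) ≤
      2 * d * 3 ^ d * (k : ℝ) ^ (d - 1) := by
  classical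
  have hsub : (((Bx d R).filter (· ≠ 0)).filter fun y => nm y = k) ⊆ Bx d k \ Bx d (k - 1) := by
    intro y hy
    rw [Finset.mem_filter] at hy
    rw [Finset.mem_sdiff, mem_Bx, mem_Bx]
    omega
  have h1 := Finset.card_le_card hsub
  have hBB : Bx d (k - 1) ⊆ Bx d k := by
    intro y hy
    rw [mem_Bx] at hy ⊢
    omega
  rw [Finset.card_sdiff_of_subset hBB, card_Bx, card_Bx] at h1
  have h2 : (2 * (k - 1) + 1) ^ d ≤ (2 * k + 1) ^ d := Nat.pow_le_pow_left (by omega) d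
  have h3 : ((((Bx d R).filter (· ≠ 0)).filter fun y => nm y = k).card : ℝ) ≤
      (2 * (k : ℝ) + 1) ^ d - (2 * (k : ℝ) - 1) ^ d := by
    have h4 : ((((Bx d R).filter (· ≠ 0)).filter fun y => nm y = k).card : ℝ) ≤
        (((2 * k + 1) ^ d - (2 * (k - 1) + 1) ^ d : ℕ) : ℝ) := by exact_mod_cast h1
    rw [Nat.cast_sub h2] at h4
    push_cast at h4
    rw [Nat.cast_sub hk] at h4
    have h5 : 2 * ((k : ℝ) - ((1 : ℕ) : ℝ)) + 1 = 2 * (k : ℝ) - 1 := by push_cast; ring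
    rw [h5] at h4
    exact h4
  refine h3.trans ?_
  obtain ⟨e, rfl⟩ : ∃ e, d = e + 1 := ⟨d - 1, by omega⟩
  have hk1 : (1 : ℝ) ≤ k := by exact_mod_cast hk
  have h6 := Sh_pow e (a := 2 * (k : ℝ) + 1) (b := 2 * (k : ℝ) - 1) (by linarith) (by linarith)
  refine h6.trans ?_
  have h7 : (2 * (k : ℝ) + 1) ^ e ≤ (3 * (k : ℝ)) ^ e :=
    pow_le_pow_left₀ (by linarith) (by linarith) e
  rw [Nat.add_sub_cancel]
  push_cast
  calc ((e : ℝ) + 1) * (2 * (k : ℝ) + 1 - (2 * (k : ℝ) - 1)) * (2 * (k : ℝ) + 1) ^ e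
      = 2 * ((e : ℝ) + 1) * (2 * (k : ℝ) + 1) ^ e := by ring
    _ ≤ 2 * ((e : ℝ) + 1) * (3 * (k : ℝ)) ^ e := mul_le_mul_of_nonneg_left h7 (by positivity)
    _ = 2 * ((e : ℝ) + 1) * 3 ^ e * (k : ℝ) ^ e := by rw [mul_pow]; ring
    _ ≤ 2 * ((e : ℝ) + 1) * 3 ^ (e + 1) * (k : ℝ) ^ e := by
        apply mul_le_mul_of_nonneg_right _ (by positivity)
        apply mul_le_mul_of_nonneg_left _ (by positivity)
        exact pow_le_pow_right₀ (by norm_num) (by omega)

theorem shell (d R : ℕ) (hd : 1 ≤ d) (g : ℕ → ℝ) (hg : ∀ k, 0 ≤ g k) :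
    ∑ y ∈ (Bx d R).filter (· ≠ 0), g (nm y) ≤
      2 * d * 3 ^ d * ∑ k ∈ Icc 1 R, (k : ℝ) ^ (d - 1) * g k := by
  classical
  have hmaps : ∀ y ∈ (Bx d R).filter (· ≠ 0), nm y ∈ Icc 1 R := by
    intro y hy
    rw [Finset.mem_filter, mem_Bx] at hy
    rw [Finset.mem_Icc]
    exact ⟨nm_pos hy.2, hy.1⟩
  rw [← Finset.sum_fiberwise_of_maps_to hmaps, Finset.mul_sum]
  apply Finset.sum_le_sum
  intro k hk
  have h1 : ∑ y ∈ ((Bx d R).filter (· ≠ 0)).filter (fun y => nm y = k), g (nm y) =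
      ((((Bx d R).filter (· ≠ 0)).filter fun y => nm y = k).card : ℝ) * g k := by
    rw [Finset.sum_congr rfl (fun y hy => by rw [(Finset.mem_filter.1 hy).2]), Finset.sum_const,
      nsmul_eq_mul]
  rw [h1]
  calc ((((Bx d R).filter (· ≠ 0)).filter fun y => nm y = k).card : ℝ) * g k
      ≤ (2 * d * 3 ^ d * (k : ℝ) ^ (d - 1)) * g k :=
        mul_le_mul_of_nonneg_right (Sh_card d R k hd (Finset.mem_Icc.1 hk).1) (hg k)
    _ = _ := by ring

theorem shell1 (d R : ℕ) (hd : 1 ≤ d) :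
    ∑ y ∈ (Bx d R).filter (· ≠ 0), ((R : ℝ) / nm y) ^ (d - 1) ≤ 2 * d * 3 ^ d * (R : ℝ) ^ d := by
  have h1 := shell d R hd (fun k => ((R : ℝ) / k) ^ (d - 1)) (fun k => by positivity)
  refine h1.trans (le_of_eq ?_)
  congr 1
  have h2 : ∀ k ∈ Icc 1 R, (k : ℝ) ^ (d - 1) * ((R : ℝ) / k) ^ (d - 1) = (R : ℝ) ^ (d - 1) := by
    intro k hk
    have hk0 : (k : ℝ) ≠ 0 := by
      have := (Finset.mem_Icc.1 hk).1
      exact_mod_cast (by omega : k ≠ 0)
    rw [← mul_pow, mul_div_cancel₀ _ hk0]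
  rw [Finset.sum_congr rfl h2, Finset.sum_const, Nat.card_Icc, nsmul_eq_mul, Nat.add_sub_cancel]
  obtain ⟨e, rfl⟩ : ∃ e, d = e + 1 := ⟨d - 1, by omega⟩
  rw [Nat.add_sub_cancel, pow_succ]
  ring

theorem shell2 (d R : ℕ) (hd : 1 ≤ d) (hR : 1 ≤ R) :
    ∑ y ∈ (Bx d R).filter (· ≠ 0), ((R : ℝ) / nm y) ^ d ≤
      2 * d * 3 ^ d * (R : ℝ) ^ d * (1 + Real.log R) := by
  have h1 := shell d R hd (fun k => ((R : ℝ) / k) ^ d) (fun k => by positivity)
  refine h1.trans ?_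
  have h2 : ∀ k ∈ Icc 1 R, (k : ℝ) ^ (d - 1) * ((R : ℝ) / k) ^ d = (R : ℝ) ^ d * (k : ℝ)⁻¹ := by
    intro k hk
    have hk0 : (k : ℝ) ≠ 0 := by
      have := (Finset.mem_Icc.1 hk).1
      exact_mod_cast (by omega : k ≠ 0)
    obtain ⟨e, rfl⟩ : ∃ e, d = e + 1 := ⟨d - 1, by omega⟩
    rw [Nat.add_sub_cancel, div_pow]
    field_simp
    ring
  rw [Finset.sum_congr rfl h2, ← Finset.mul_sum, mul_assoc (2 * (d : ℝ) * 3 ^ d)]
  apply mul_le_mul_of_nonneg_left _ (by positivity)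
  apply mul_le_mul_of_nonneg_left _ (by positivity)
  have h3 := harmonic_le_one_add_log R
  rw [harmonic_eq_sum_Icc] at h3
  push_cast at h3
  exact h3

end Pool.Agent.RL
end

section

/-!
# TASK RL Ds: distances and perpendicular pairs

PROOF.  Choose `x : ℂ → ℤ^d` with `nm (x z) ≤ N` and `z = L v (x z)` for `z ∈ A`, and fix `a₀ ∈ A`, `x₀ = x a₀`.  Let `A' = A \ {a₀}`,
`Q = {(a, b) ∈ A' × A' | dist a a₀ = dist b a₀}`.  The values `dist a a₀`, `a ∈ A'`, are among the `numDist A` distances, so by the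
Cauchy-Schwarz inequality `(|A| - 1)² ≤ numDist A * |Q|` (`Finset.sq_sum_le_card_mul_sum_sq`, `∑_ρ n_ρ = |A'|`,
`∑_ρ n_ρ² = |Q|`).  For `(a, b) ∈ Q` put `p = x a - x₀`, `q = x b - x₀`, `u = p - q`, `w = p + q`: `nm u, nm w ≤ 4N`,
`pr v u w = Re ((conj α - conj β)(α + β)) = |α|² - |β|² = 0` with `α = L v p = a - a₀`, `β = L v q = b - a₀`.  The map
`(a, b) ↦ (u, w)` is injective (`2 p = u + w`, `2 q = w - u`, so `a`, `b` are determined).  The pairs `(u, w)` with `u = 0` or `w = 0` in the cube are at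
most `2 (8N+1)^d` many (`card_Bx`), the others are counted by `Zp v (4N)`.
-/

set_option autoImplicit false

open Finset

namespace Pool.Agent.RL

variable {d : ℕ} {v : Fin d → ℂ}

open Classical in
private theorem Ds_cs (A' : Finset ℂ) (a₀ : ℂ) :
    A'.card ^ 2 ≤ (A'.image fun a => dist a a₀).card *
      ((A' ×ˢ A').filter fun p => dist p.1 a₀ = dist p.2 a₀).card := by
  set I := A'.image fun a => dist a a₀ with hI
  set n : ℝ → ℕ := fun ρ => (A'.filter fun a => dist a a₀ = ρ).card with hn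
  have e1 : A'.card = ∑ ρ ∈ I, n ρ :=
    Finset.card_eq_sum_card_fiberwise (fun a ha => Finset.mem_image_of_mem _ ha)
  have e2 : ((A' ×ˢ A').filter fun p => dist p.1 a₀ = dist p.2 a₀).card = ∑ ρ ∈ I, n ρ ^ 2 := by
    rw [Finset.card_eq_sum_card_fiberwise (f := fun p : ℂ × ℂ => dist p.1 a₀) (t := I)]
    · refine Finset.sum_congr rfl fun ρ _ => ?_
      have : (((A' ×ˢ A').filter fun p => dist p.1 a₀ = dist p.2 a₀).filter
          fun p => dist p.1 a₀ = ρ)
          = (A'.filter fun a => dist a a₀ = ρ) ×ˢ (A'.filter fun a => dist a a₀ = ρ) := by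
        ext ⟨a, b⟩
        simp only [Finset.mem_filter, Finset.mem_product]
        constructor
        · rintro ⟨⟨⟨ha, hb⟩, h⟩, h'⟩
          exact ⟨⟨ha, h'⟩, ⟨hb, h ▸ h'⟩⟩
        · rintro ⟨⟨ha, h⟩, ⟨hb, h'⟩⟩
          exact ⟨⟨⟨ha, hb⟩, h.trans h'.symm⟩, h⟩
      rw [this, Finset.card_product, sq]
    · intro p hp
      have hp' := (Finset.mem_filter.1 (Finset.mem_coe.1 hp)).1
      exact Finset.mem_coe.2 (Finset.mem_image_of_mem _ (Finset.mem_product.1 hp').1)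
  rw [e1, e2]
  exact sq_sum_le_card_mul_sum_sq

private theorem Ds_perp (v : Fin d → ℂ) (p q : Fin d → ℤ) (h : ‖L v p‖ = ‖L v q‖) :
    pr v (p - q) (p + q) = 0 := by
  have h2 : Complex.normSq (L v p) = Complex.normSq (L v q) := by
    rw [Complex.normSq_eq_norm_sq, Complex.normSq_eq_norm_sq, h]
  simp only [pr, L_sub, L_add]
  rw [Complex.normSq_apply, Complex.normSq_apply] at h2
  simp only [map_sub, Complex.mul_re, Complex.sub_re, Complex.sub_im, Complex.add_re,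
    Complex.add_im, Complex.conj_re, Complex.conj_im]
  nlinarith [h2]

theorem Ds (v : Fin d → ℂ) (N : ℕ) (A : Finset ℂ)
    (hA : ∀ z ∈ A, ∃ x, nm x ≤ N ∧ z = L v x) (h1 : 1 ≤ A.card) :
    ((A.card : ℝ) - 1) ^ 2 ≤ numDist A * (Zp v (4 * N) + 2 * (8 * N + 1) ^ d) := by
  classical
  obtain ⟨x, hx⟩ : ∃ x : ℂ → (Fin d → ℤ), ∀ z ∈ A, nm (x z) ≤ N ∧ z = L v (x z) := by
    choose! x hx using hA
    exact ⟨x, hx⟩
  obtain ⟨a₀, ha₀⟩ := Finset.card_pos.1 h1
  set A' := A.erase a₀ with hA'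
  have hcard : A'.card + 1 = A.card := Finset.card_erase_add_one ha₀
  have hsub : ∀ a ∈ A', a ∈ A := fun a ha => Finset.mem_of_mem_erase ha
  have himg : (A'.image fun a => dist a a₀).card ≤ numDist A := by
    apply Finset.card_le_card
    intro r hr
    obtain ⟨a, ha, rfl⟩ := Finset.mem_image.1 hr
    exact Finset.mem_image.2 ⟨(a, a₀), Finset.mem_offDiag.2
      ⟨hsub a ha, ha₀, Finset.ne_of_mem_erase ha⟩, rfl⟩
  have hQ : ((A' ×ˢ A').filter fun p => dist p.1 a₀ = dist p.2 a₀).card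
      ≤ Zp v (4 * N) + 2 * (8 * N + 1) ^ d := by
    set S1 := (Bx d (4 * N) ×ˢ Bx d (4 * N)).filter
      fun p => p.1 ≠ 0 ∧ p.2 ≠ 0 ∧ pr v p.1 p.2 = 0 with hS1
    set S2 := ({0} : Finset (Fin d → ℤ)) ×ˢ Bx d (4 * N) with hS2
    set S3 := Bx d (4 * N) ×ˢ ({0} : Finset (Fin d → ℤ)) with hS3
    have c1 : S1.card = Zp v (4 * N) := by
      rw [hS1, Zp]
    have c2 : S2.card = (8 * N + 1) ^ d := by
      rw [hS2, Finset.card_product, Finset.card_singleton, one_mul, card_Bx]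
      congr 1; ring
    have c3 : S3.card = (8 * N + 1) ^ d := by
      rw [hS3, Finset.card_product, Finset.card_singleton, mul_one, card_Bx]
      congr 1; ring
    have hle : ((A' ×ˢ A').filter fun p => dist p.1 a₀ = dist p.2 a₀).card
        ≤ (S1 ∪ (S2 ∪ S3)).card := by
      apply Finset.card_le_card_of_injOn
        (fun p : ℂ × ℂ => (x p.1 - x p.2, (x p.1 - x a₀) + (x p.2 - x a₀)))
      · rintro ⟨a, b⟩ hp
        obtain ⟨hp1, hp2⟩ := Finset.mem_filter.1 (Finset.mem_coe.1 hp)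
        obtain ⟨ha, hb⟩ := Finset.mem_product.1 hp1
        simp only at ha hb hp2
        obtain ⟨na, ea⟩ := hx a (hsub a ha)
        obtain ⟨nb, eb⟩ := hx b (hsub b hb)
        obtain ⟨n0, e0⟩ := hx a₀ ha₀
        have hu : x a - x b ∈ Bx d (4 * N) := by
          rw [mem_Bx]
          have := nm_sub_le (x a) (x b)
          omega
        have hw : (x a - x a₀) + (x b - x a₀) ∈ Bx d (4 * N) := by
          rw [mem_Bx]
          have h1 := nm_sub_le (x a) (x a₀)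
          have h2 := nm_sub_le (x b) (x a₀)
          have h3 := nm_add_le (x a - x a₀) (x b - x a₀)
          omega
        have hperp : pr v (x a - x b) ((x a - x a₀) + (x b - x a₀)) = 0 := by
          have : x a - x b = (x a - x a₀) - (x b - x a₀) := by abel
          rw [this]
          apply Ds_perp
          rw [L_sub, L_sub, ← ea, ← eb, ← e0, ← dist_eq_norm, ← dist_eq_norm]
          exact hp2
        simp only [Finset.coe_union, Set.mem_union, Finset.mem_coe]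
        by_cases z1 : x a - x b = 0
        · right; left
          rw [hS2, Finset.mem_product]
          exact ⟨Finset.mem_singleton.2 z1, hw⟩
        · by_cases z2 : (x a - x a₀) + (x b - x a₀) = 0
          · right; right
            rw [hS3, Finset.mem_product]
            exact ⟨hu, Finset.mem_singleton.2 z2⟩
          · left
            rw [hS1, Finset.mem_filter, Finset.mem_product]
            exact ⟨⟨hu, hw⟩, z1, z2, hperp⟩
      · rintro ⟨a, b⟩ hp ⟨a', b'⟩ hp' heq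
        obtain ⟨hp1, -⟩ := Finset.mem_filter.1 (Finset.mem_coe.1 hp)
        obtain ⟨ha, hb⟩ := Finset.mem_product.1 hp1
        obtain ⟨hp1', -⟩ := Finset.mem_filter.1 (Finset.mem_coe.1 hp')
        obtain ⟨ha', hb'⟩ := Finset.mem_product.1 hp1'
        simp only at ha hb ha' hb'
        simp only [Prod.mk.injEq] at heq
        obtain ⟨h1, h2⟩ := heq
        have k1 : ∀ i, x a i = x a' i := by
          intro i
          have g1 := congrFun h1 i
          have g2 := congrFun h2 i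
          simp only [Pi.sub_apply, Pi.add_apply] at g1 g2
          omega
        have k2 : ∀ i, x b i = x b' i := by
          intro i
          have g1 := congrFun h1 i
          have g2 := congrFun h2 i
          simp only [Pi.sub_apply, Pi.add_apply] at g1 g2
          omega
        have m1 : x a = x a' := funext k1
        have m2 : x b = x b' := funext k2
        have n1 : a = a' := by
          rw [(hx a (hsub a ha)).2, (hx a' (hsub a' ha')).2, m1]
        have n2 : b = b' := by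
          rw [(hx b (hsub b hb)).2, (hx b' (hsub b' hb')).2, m2]
        rw [n1, n2]
    calc _ ≤ (S1 ∪ (S2 ∪ S3)).card := hle
      _ ≤ S1.card + (S2.card + S3.card) :=
          (Finset.card_union_le _ _).trans (Nat.add_le_add_left (Finset.card_union_le _ _) _)
      _ = _ := by rw [c1, c2, c3]; ring
  have hfin : A'.card ^ 2 ≤ numDist A * (Zp v (4 * N) + 2 * (8 * N + 1) ^ d) :=
    (Ds_cs A' a₀).trans (Nat.mul_le_mul himg hQ)
  have hr : ((A.card : ℝ) - 1) = (A'.card : ℝ) := by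
    rw [← hcard]; push_cast; ring
  rw [hr]
  exact_mod_cast hfin

end Pool.Agent.RL
end

section

/-!
# TASK RL Sc: summation by parts

Let `s k = cnt S k`, a nondecreasing function with `s k ≤ (2k+1)^d ≤ (3k)^d` for `k ≥ 1`.
The term `y = 0` of `SS S R` is `0` (`d ≥ 1`).  Grouping by `k = nm y`:
`SS S R = ∑_{k=1}^R (s k - s (k-1)) k^(-d) = ∑_{k=1}^{R-1} s k (k^(-d) - (k+1)^(-d)) + s R R^(-d) - s 0`
(for `R ≥ 1`; `SS S 0 = 0`) and `k^(-d) - (k+1)^(-d) ≤ d k^(-d-1)` (Bernoulli: `(k/(k+1))^d ≥ 1 - d/(k+1) ≥ 1 - d/k`).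
This is `SS_le` (prove it by induction on `R`, or by `Finset.sum_range_by_parts`).

PROOF of `Sc1`.  For `k < M0`: `s k ≤ 3^d k^d`; for `M0 ≤ k ≤ R`: `s k ≤ δ 3^d k^d`.  So the sum in `SS_le` is at most
`d 3^d (∑_{k<M0} 1/k + δ ∑_{k ≤ R} 1/k) ≤ d 3^d ((1 + log M0) + δ (1 + log R))` (`harmonic_le_one_add_log`), and the last
term is at most `3^d` if `R < M0` and at most `δ 3^d` otherwise.  `C = (d + 1) 3^d`.  (`R = 0`: `SS S 0 = 0`.)

PROOF of `Sc2`.  The terms are at most `K 3^(d-1) k^(d-1) d k^(-d-1) = K d 3^(d-1) / k²`, `∑ 1/k² ≤ 2`, and the last term is at most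
`K 3^(d-1)`.
-/

set_option autoImplicit false

open Finset

namespace Pool.Agent.RL

private theorem Sc_step (d R : ℕ) (S : Set (Fin d → ℤ)) :
    (cnt S R : ℝ) ≤ cnt S (R + 1) ∧
    SS S (R + 1) = SS S R + ((cnt S (R + 1) : ℝ) - cnt S R) * (((R + 1 : ℕ) : ℝ) ^ d)⁻¹ := by
  classical
  have hsub : (Bx d R).filter (· ∈ S) ⊆ (Bx d (R + 1)).filter (· ∈ S) := by
    intro y hy
    rw [mem_cnt] at hy ⊢
    exact ⟨by omega, hy.2⟩
  have hc1 : cnt S R = ((Bx d R).filter (· ∈ S)).card := cnt_eq S R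
  have hc2 : cnt S (R + 1) = ((Bx d (R + 1)).filter (· ∈ S)).card := cnt_eq S (R + 1)
  have h1 : SS S R = ∑ y ∈ (Bx d R).filter (· ∈ S), ((nm y : ℝ) ^ d)⁻¹ := by
    unfold SS
    refine Finset.sum_congr ?_ fun _ _ => rfl
    ext y
    rw [mem_cnt]
  have h2 : SS S (R + 1) = ∑ y ∈ (Bx d (R + 1)).filter (· ∈ S), ((nm y : ℝ) ^ d)⁻¹ := by
    unfold SS
    refine Finset.sum_congr ?_ fun _ _ => rfl
    ext y
    rw [mem_cnt]
  have hcard : cnt S R ≤ cnt S (R + 1) := by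
    rw [hc1, hc2]
    exact Finset.card_le_card hsub
  refine ⟨by exact_mod_cast hcard, ?_⟩
  rw [h1, h2, ← Finset.sum_sdiff hsub, add_comm]
  congr 1
  have h3 : ∀ y ∈ (Bx d (R + 1)).filter (· ∈ S) \ (Bx d R).filter (· ∈ S),
      ((nm y : ℝ) ^ d)⁻¹ = (((R + 1 : ℕ) : ℝ) ^ d)⁻¹ := by
    intro y hy
    rw [Finset.mem_sdiff, mem_cnt, mem_cnt] at hy
    obtain ⟨⟨h4, h5⟩, h6⟩ := hy
    have h7 : nm y = R + 1 := by
      by_contra hne
      exact h6 ⟨by omega, h5⟩
    rw [h7]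
  rw [Finset.sum_congr rfl h3, Finset.sum_const, nsmul_eq_mul, Finset.card_sdiff_of_subset hsub,
    ← hc1, ← hc2, Nat.cast_sub hcard]

private theorem Sc_bern (d k : ℕ) (hk : 1 ≤ k) :
    ((k : ℝ) ^ d)⁻¹ - (((k + 1 : ℕ) : ℝ) ^ d)⁻¹ ≤ d / (k : ℝ) ^ (d + 1) := by
  have hk0 : (0 : ℝ) < k := by exact_mod_cast hk
  have hk1 : (0 : ℝ) < k + 1 := by positivity
  have h1 : 1 + (d : ℝ) * (-(1 / ((k : ℝ) + 1))) ≤ (1 + -(1 / ((k : ℝ) + 1))) ^ d := by
    refine one_add_mul_le_pow ?_ d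
    have : 1 / ((k : ℝ) + 1) ≤ 1 := by
      rw [div_le_one hk1]
      linarith
    linarith
  have h2 : 1 + -(1 / ((k : ℝ) + 1)) = k / (k + 1) := by
    field_simp
    ring
  rw [h2, div_pow] at h1
  have h3 : (d : ℝ) * (1 / ((k : ℝ) + 1)) ≤ d / k := by
    rw [mul_one_div]
    exact div_le_div_of_nonneg_left (by positivity) hk0 (by linarith)
  have h4 : 1 - (k : ℝ) ^ d / ((k : ℝ) + 1) ^ d ≤ d / k := by linarith
  have hp : (0 : ℝ) < (k : ℝ) ^ d := by positivity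
  have h5 : ((k : ℝ) ^ d)⁻¹ - (((k + 1 : ℕ) : ℝ) ^ d)⁻¹ =
      (1 - (k : ℝ) ^ d / ((k : ℝ) + 1) ^ d) * ((k : ℝ) ^ d)⁻¹ := by
    push_cast
    field_simp
  have h6 : (d : ℝ) / (k : ℝ) ^ (d + 1) = d / k * ((k : ℝ) ^ d)⁻¹ := by
    rw [pow_succ]
    field_simp
  rw [h5, h6]
  exact mul_le_mul_of_nonneg_right h4 (by positivity)

theorem SS_le (d R : ℕ) (hd : 1 ≤ d) (hR : 1 ≤ R) (S : Set (Fin d → ℤ)) :
    SS S R ≤ ∑ k ∈ Ico 1 R, (cnt S k : ℝ) * (d / (k : ℝ) ^ (d + 1)) + cnt S R / (R : ℝ) ^ d := by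
  classical
  induction R, hR using Nat.le_induction with
  | base =>
    obtain ⟨h1, h2⟩ := Sc_step d 0 S
    have h3 : SS S 0 ≤ 0 := by
      unfold SS
      refine Finset.sum_nonpos fun y hy => ?_
      have h4 : nm y ≤ 0 := mem_Bx.1 (Finset.mem_filter.1 hy).1
      have h5 : nm y = 0 := by omega
      rw [h5, Nat.cast_zero, zero_pow (by omega), inv_zero]
    have h6 : (0 : ℝ) ≤ cnt S 0 := by positivity
    rw [zero_add] at h2
    rw [h2, Ico_self, sum_empty, zero_add]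
    simp only [Nat.cast_one, one_pow, inv_one, mul_one, div_one]
    linarith
  | succ R hR ih =>
    obtain ⟨h1, h2⟩ := Sc_step d R S
    have h3 := Sc_bern d R hR
    have h6 : (0 : ℝ) ≤ cnt S R := by positivity
    rw [h2, Finset.sum_Ico_succ_top hR, div_eq_mul_inv (cnt S (R + 1) : ℝ)]
    rw [div_eq_mul_inv (cnt S R : ℝ)] at ih
    have h4 := mul_le_mul_of_nonneg_left h3 h6
    rw [mul_sub] at h4
    rw [sub_mul]
    linarith

private theorem Sc_three (n k : ℕ) (hk : 1 ≤ k) : ((2 * k + 1 : ℝ)) ^ n ≤ 3 ^ n * (k : ℝ) ^ n := by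
  rw [← mul_pow]
  have h1 : (1 : ℝ) ≤ k := by exact_mod_cast hk
  exact pow_le_pow_left₀ (by positivity) (by linarith) n

private theorem Sc_harm (R : ℕ) : ∑ k ∈ Ico 1 R, ((k : ℝ))⁻¹ ≤ 1 + Real.log R := by
  have h1 := harmonic_le_one_add_log R
  rw [harmonic_eq_sum_Icc] at h1
  push_cast at h1
  refine le_trans ?_ h1
  refine Finset.sum_le_sum_of_subset_of_nonneg ?_ ?_
  · intro k hk
    rw [mem_Ico] at hk
    rw [mem_Icc]
    omega
  · intro k _ _
    positivity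

theorem Sc1 (d : ℕ) (hd : 1 ≤ d) : ∃ C : ℝ, 1 ≤ C ∧ ∀ (S : Set (Fin d → ℤ)) (δ : ℝ) (M0 R : ℕ), 0 ≤ δ →
    1 ≤ M0 → 1 ≤ R → (∀ M, M0 ≤ M → M ≤ R → (cnt S M : ℝ) ≤ δ * (2 * M + 1) ^ d) →
      SS S R ≤ C * (1 + Real.log M0) + C * δ * (1 + Real.log R) := by
  refine ⟨(d + 1) * 3 ^ d, ?_, ?_⟩
  · have h1 : (1 : ℝ) ≤ 3 ^ d := one_le_pow₀ (by norm_num)
    have h2 : (0 : ℝ) ≤ d := by positivity
    nlinarith
  intro S δ M0 R hδ hM0 hR hS
  have hc0 : (0 : ℝ) < 3 ^ d := by positivity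
  -- bound of `cnt S k`
  have hcnt : ∀ k, 1 ≤ k → k ≤ R →
      (cnt S k : ℝ) ≤ 3 ^ d * (k : ℝ) ^ d * ((if k < M0 then 1 else 0) + δ) := by
    intro k hk hkR
    have hkd : (0 : ℝ) ≤ 3 ^ d * (k : ℝ) ^ d := by positivity
    by_cases h : k < M0
    · rw [if_pos h]
      have h1 : (cnt S k : ℝ) ≤ (2 * k + 1 : ℝ) ^ d := by exact_mod_cast cnt_le S k
      have h2 := Sc_three d k hk
      nlinarith
    · rw [if_neg h, zero_add]
      have h1 := hS k (by omega) hkR
      have h2 := mul_le_mul_of_nonneg_left (Sc_three d k hk) hδ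
      linarith
  have h1 := SS_le d R hd hR S
  have h2 : ∀ k ∈ Ico 1 R, (cnt S k : ℝ) * (d / (k : ℝ) ^ (d + 1)) ≤
      3 ^ d * d * (if k < M0 then ((k : ℝ))⁻¹ else 0) + 3 ^ d * d * δ * ((k : ℝ))⁻¹ := by
    intro k hk
    rw [mem_Ico] at hk
    have hk0 : (0 : ℝ) < k := by exact_mod_cast (by omega : 0 < k)
    have h3 := mul_le_mul_of_nonneg_right (hcnt k hk.1 (by omega))
      (show (0 : ℝ) ≤ d / (k : ℝ) ^ (d + 1) by positivity)
    refine h3.trans (le_of_eq ?_)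
    split_ifs
    · rw [pow_succ]
      field_simp
    · rw [pow_succ]
      field_simp
      ring
  have h3 := Finset.sum_le_sum h2
  rw [Finset.sum_add_distrib, ← Finset.mul_sum, ← Finset.mul_sum] at h3
  have h4 : ∑ k ∈ Ico 1 R, (if k < M0 then ((k : ℝ))⁻¹ else 0) ≤ 1 + Real.log M0 := by
    refine le_trans ?_ (Sc_harm M0)
    rw [← Finset.sum_filter]
    refine Finset.sum_le_sum_of_subset_of_nonneg ?_ ?_
    · intro k hk
      rw [mem_filter, mem_Ico] at hk
      rw [mem_Ico]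
      omega
    · intro k _ _
      positivity
  have h5 := Sc_harm R
  have hd0 : (0 : ℝ) ≤ d := by positivity
  have hlM : 0 ≤ Real.log M0 := Real.log_natCast_nonneg M0
  have hlR : 0 ≤ Real.log R := Real.log_natCast_nonneg R
  have h6 : (cnt S R : ℝ) / (R : ℝ) ^ d ≤ 3 ^ d * (1 + δ) := by
    have hR0 : (0 : ℝ) < (R : ℝ) ^ d := by
      have : (0 : ℝ) < R := by exact_mod_cast (by omega : 0 < R)
      positivity
    rw [div_le_iff₀ hR0]
    refine (hcnt R hR le_rfl).trans ?_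
    have h7 : ((if R < M0 then (1 : ℝ) else 0) + δ) ≤ 1 + δ := by
      split_ifs <;> linarith
    have h8 := mul_le_mul_of_nonneg_left h7 (show (0 : ℝ) ≤ 3 ^ d * (R : ℝ) ^ d by positivity)
    linarith
  have h7 := mul_le_mul_of_nonneg_left h4 (show (0 : ℝ) ≤ 3 ^ d * d by positivity)
  have h8 := mul_le_mul_of_nonneg_left h5 (show (0 : ℝ) ≤ 3 ^ d * d * δ by positivity)
  have h9 : (0 : ℝ) ≤ 3 ^ d * Real.log M0 := by positivity
  have h10 : (0 : ℝ) ≤ 3 ^ d * δ * Real.log R := by positivity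
  calc SS S R ≤ _ := h1
    _ ≤ 3 ^ d * d * (1 + Real.log M0) + 3 ^ d * d * δ * (1 + Real.log R) + 3 ^ d * (1 + δ) := by
        linarith
    _ ≤ _ := by
        have h11 : (d + 1) * 3 ^ d * (1 + Real.log M0) + (d + 1) * 3 ^ d * δ * (1 + Real.log R) -
          (3 ^ d * d * (1 + Real.log M0) + 3 ^ d * d * δ * (1 + Real.log R) + 3 ^ d * (1 + δ)) =
          3 ^ d * Real.log M0 + 3 ^ d * δ * Real.log R := by ring
        linarith

theorem Sc2 (d : ℕ) (hd : 1 ≤ d) : ∃ C : ℝ, 1 ≤ C ∧ ∀ (S : Set (Fin d → ℤ)) (K : ℝ) (R : ℕ), 0 ≤ K →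
    1 ≤ R → (∀ M, 1 ≤ M → M ≤ R → (cnt S M : ℝ) ≤ K * (2 * M + 1) ^ (d - 1)) →
      SS S R ≤ C * K := by
  obtain ⟨e, rfl⟩ : ∃ e, d = e + 1 := ⟨d - 1, by omega⟩
  refine ⟨(2 * (e + 1) + 1) * 3 ^ e, ?_, ?_⟩
  · have h1 : (1 : ℝ) ≤ 3 ^ e := one_le_pow₀ (by norm_num)
    have h2 : (0 : ℝ) ≤ e := by positivity
    nlinarith
  intro S K R hK hR hS
  rw [Nat.add_sub_cancel] at hS
  have hcnt : ∀ k, 1 ≤ k → k ≤ R → (cnt S k : ℝ) ≤ K * 3 ^ e * (k : ℝ) ^ e := by
    intro k hk hkR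
    have h1 := hS k hk hkR
    have h2 := mul_le_mul_of_nonneg_left (Sc_three e k hk) hK
    linarith
  have h1 := SS_le (e + 1) R hd hR S
  have h2 : ∀ k ∈ Ico 1 R, (cnt S k : ℝ) * (((e + 1 : ℕ) : ℝ) / (k : ℝ) ^ (e + 1 + 1)) ≤
      K * 3 ^ e * (e + 1) * ((k : ℝ) ^ 2)⁻¹ := by
    intro k hk
    rw [mem_Ico] at hk
    have hk0 : (0 : ℝ) < k := by exact_mod_cast (by omega : 0 < k)
    have h3 := mul_le_mul_of_nonneg_right (hcnt k hk.1 (by omega))
      (show (0 : ℝ) ≤ ((e + 1 : ℕ) : ℝ) / (k : ℝ) ^ (e + 1 + 1) by positivity)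
    refine h3.trans (le_of_eq ?_)
    push_cast
    rw [pow_succ, pow_succ]
    field_simp
  have h3 := Finset.sum_le_sum h2
  rw [← Finset.mul_sum] at h3
  have h4 : ∑ k ∈ Ico 1 R, ((k : ℝ) ^ 2)⁻¹ ≤ 2 := by
    have h5 := sum_Ioo_inv_sq_le (α := ℝ) 0 R
    have h6 : Ioo 0 R = Ico 1 R := by
      ext k
      rw [mem_Ioo, mem_Ico]
      omega
    rw [h6] at h5
    simpa using h5
  have h5 : (cnt S R : ℝ) / (R : ℝ) ^ (e + 1) ≤ K * 3 ^ e := by
    have hR1 : (1 : ℝ) ≤ R := by exact_mod_cast hR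
    have hR0 : (0 : ℝ) < (R : ℝ) ^ (e + 1) := by positivity
    rw [div_le_iff₀ hR0]
    refine (hcnt R hR le_rfl).trans ?_
    refine mul_le_mul_of_nonneg_left ?_ (by positivity)
    exact pow_le_pow_right₀ hR1 (by omega)
  have h6 := mul_le_mul_of_nonneg_left h4 (show (0 : ℝ) ≤ K * 3 ^ e * (e + 1) by positivity)
  calc SS S R ≤ _ := h1
    _ ≤ K * 3 ^ e * (e + 1) * 2 + K * 3 ^ e := by linarith
    _ = _ := by ring

end Pool.Agent.RL
end

section

/-!
# TASK RL Ct: small kernel vectors (Cramer)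

PROOF of `Ct`.  Let `ℓ f0 ≠ 0`.  `f0` is injective (a minor with two equal columns is `0`), so exactly `m` of the `2m` indices are not in its range.  For
an index `l ∉ range f0` let `y l = ℓ f0 • e_l - ∑ k, ℓ (Function.update f0 k l) • e_(f0 k)` (`e_i = Pi.single i 1`).  `A1 *ᵥ (y l) = 0`: by Cramer's rule for the
`m × m` matrix `B = A1.submatrix id f0` and the column `a` = column `l` of `A1`: `det B • a = B *ᵥ cramer B a`, `cramer B a k = det (B.updateCol k a) = mi A1 (update f0 k l)`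
(`Matrix.mulVec_cramer`, `Matrix.cramer_apply`); divide by `γ`.  Let `n₀ = N / ((m+m) q)`.  For integers `n_l ∈ [-n₀, n₀]` (`l ∉ range f0`) let `y = ∑ n_l y l`: in the kernel of `A1`; its
coordinate at `l ∉ range f0` is `n_l ℓ f0`, of absolute value at most `n₀ q ≤ N`, and its coordinate at `f0 k` is `-∑_l n_l ℓ (update f0 k l)`, at most `m n₀ q ≤ N`.  Different
families `(n_l)` give different `y` (`ℓ f0 ≠ 0`).  There are `(2 n₀ + 1)^m` families.
-/

set_option autoImplicit false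

open Finset

namespace Pool.Agent.RL

private theorem Ct_inj {m : ℕ} (A1 : Matrix (Fin m) (Fin (m + m)) ℤ) (f : Fin m → Fin (m + m))
    (h : mi A1 f ≠ 0) : Function.Injective f := by
  intro a b hab
  by_contra hne
  apply h
  unfold mi
  apply Matrix.det_zero_of_column_eq hne
  intro k
  simp only [Matrix.submatrix_apply, id_eq, hab]

/-- The kernel vector of the index `l`. -/
private def Ct_y {m : ℕ} (ℓ : (Fin m → Fin (m + m)) → ℤ) (f0 : Fin m → Fin (m + m))
    (l : Fin (m + m)) : Fin (m + m) → ℤ :=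
  fun j => (if j = l then ℓ f0 else 0) - ∑ k, if j = f0 k then ℓ (Function.update f0 k l) else 0

private theorem Ct_ker {m : ℕ} (A1 : Matrix (Fin m) (Fin (m + m)) ℤ) {γ : ℕ} (hγ : 1 ≤ γ)
    {ℓ : (Fin m → Fin (m + m)) → ℤ} (hl : ∀ f, mi A1 f = γ * ℓ f) (f0 : Fin m → Fin (m + m))
    (l : Fin (m + m)) : A1.mulVec (Ct_y ℓ f0 l) = 0 := by
  funext r
  have hγ0 : (γ : ℤ) ≠ 0 := by
    have : 0 < γ := hγ
    exact_mod_cast this.ne'
  apply mul_left_cancel₀ hγ0
  rw [Pi.zero_apply, mul_zero]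
  have h1 : A1.mulVec (Ct_y ℓ f0 l) r =
      A1 r l * ℓ f0 - ∑ k, A1 r (f0 k) * ℓ (Function.update f0 k l) := by
    unfold Ct_y Matrix.mulVec dotProduct
    simp only [mul_sub, Finset.sum_sub_distrib, mul_ite, mul_zero, Finset.sum_ite_eq',
      Finset.mem_univ, if_true, Finset.mul_sum]
    congr 1
    rw [Finset.sum_comm]
    refine Finset.sum_congr rfl fun k _ => ?_
    rw [Finset.sum_ite_eq' Finset.univ (f0 k)]
    simp
  have h2 := congrFun (Matrix.mulVec_cramer (A1.submatrix id f0) (fun i => A1 i l)) r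
  have h3 : ∀ k, Matrix.cramer (A1.submatrix id f0) (fun i => A1 i l) k =
      γ * ℓ (Function.update f0 k l) := by
    intro k
    rw [Matrix.cramer_apply, ← hl]
    unfold mi
    congr 1
    ext i j
    rw [Matrix.updateCol_apply]
    by_cases hjk : j = k
    · subst hjk
      simp
    · rw [if_neg hjk]
      simp [Function.update_of_ne hjk]
  have h4 : (A1.submatrix id f0).det = γ * ℓ f0 := hl f0
  simp only [Matrix.mulVec, dotProduct, Pi.smul_apply, smul_eq_mul, h3, h4,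
    Matrix.submatrix_apply, id_eq] at h2
  rw [h1, mul_sub, Finset.mul_sum]
  have h5 : (γ : ℤ) * (A1 r l * ℓ f0) = γ * ℓ f0 * A1 r l := by ring
  rw [h5, ← h2, sub_eq_zero]
  refine Finset.sum_congr rfl fun k _ => ?_
  ring

theorem Ct {m : ℕ} (A1 : Matrix (Fin m) (Fin (m + m)) ℤ) {γ : ℕ} (hγ : 1 ≤ γ)
    {ℓ : (Fin m → Fin (m + m)) → ℤ} (hl : ∀ f, mi A1 f = γ * ℓ f) (h0 : ∃ f, ℓ f ≠ 0) {q : ℕ}
    (hq : 1 ≤ q) (hb : ∀ f, |ℓ f| ≤ q) (N : ℕ) :
    (2 * (N / ((m + m) * q)) + 1) ^ m ≤ cnt {y : Fin (m + m) → ℤ | A1.mulVec y = 0} N := by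
  classical
  obtain ⟨f0, hf0⟩ := h0
  have hinj : Function.Injective f0 := by
    apply Ct_inj A1 f0
    rw [hl]
    have hγ0 : (γ : ℤ) ≠ 0 := by
      have : 0 < γ := hγ
      exact_mod_cast this.ne'
    exact mul_ne_zero hγ0 hf0
  have hS : ((univ : Finset (Fin (m + m))) \ univ.image f0).card = m := by
    rw [Finset.card_sdiff_of_subset (Finset.subset_univ _), Finset.card_image_of_injective _ hinj,
      Finset.card_univ, Finset.card_univ, Fintype.card_fin, Fintype.card_fin]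
    omega
  set g := ((univ : Finset (Fin (m + m))) \ univ.image f0).orderEmbOfFin hS with hg
  have hginj : Function.Injective g := g.injective
  have hgS : ∀ i k, g i ≠ f0 k := by
    intro i k h
    have h1 := Finset.orderEmbOfFin_mem _ hS i
    rw [Finset.mem_sdiff] at h1
    exact h1.2 (Finset.mem_image.2 ⟨k, Finset.mem_univ _, h.symm⟩)
  have hcov : ∀ j, (∃ i, j = g i) ∨ ∃ k, j = f0 k := by
    intro j
    by_cases hj : ∃ k, j = f0 k
    · exact Or.inr hj
    · left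
      have h1 : j ∈ Set.range g := by
        rw [hg, Finset.range_orderEmbOfFin]
        rw [Finset.mem_coe, Finset.mem_sdiff]
        refine ⟨Finset.mem_univ _, fun h => hj ?_⟩
        obtain ⟨k, _, hk⟩ := Finset.mem_image.1 h
        exact ⟨k, hk.symm⟩
      obtain ⟨i, hi⟩ := h1
      exact ⟨i, hi.symm⟩
  set n₀ := N / ((m + m) * q) with hn₀
  have hn : n₀ * ((m + m) * q) ≤ N := Nat.div_mul_le_self _ _
  let Y : (Fin m → ℤ) → Fin (m + m) → ℤ := fun c j => ∑ i, c i * Ct_y ℓ f0 (g i) j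
  have hYg : ∀ c i, Y c (g i) = c i * ℓ f0 := by
    intro c i
    show ∑ i', c i' * Ct_y ℓ f0 (g i') (g i) = c i * ℓ f0
    have h1 : ∀ i', Ct_y ℓ f0 (g i') (g i) = if i' = i then ℓ f0 else 0 := by
      intro i'
      unfold Ct_y
      have h2 : (∑ k, if g i = f0 k then ℓ (Function.update f0 k (g i')) else 0) = 0 :=
        Finset.sum_eq_zero fun k _ => if_neg (hgS i k)
      rw [h2, sub_zero]
      by_cases h3 : i' = i
      · rw [if_pos h3, h3, if_pos rfl]
      · rw [if_neg h3, if_neg fun h => h3 (hginj h).symm]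
    simp only [h1, mul_ite, mul_zero, Finset.sum_ite_eq', Finset.mem_univ, if_true]
  have hYf : ∀ c k, Y c (f0 k) = -∑ i, c i * ℓ (Function.update f0 k (g i)) := by
    intro c k
    show ∑ i', c i' * Ct_y ℓ f0 (g i') (f0 k) = _
    rw [← Finset.sum_neg_distrib]
    refine Finset.sum_congr rfl fun i _ => ?_
    unfold Ct_y
    rw [if_neg fun h => hgS i k h.symm]
    have h2 : (∑ k', if f0 k = f0 k' then ℓ (Function.update f0 k' (g i)) else 0) =
        ℓ (Function.update f0 k (g i)) := by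
      rw [Finset.sum_eq_single k]
      · rw [if_pos rfl]
      · intro k' _ hk'
        exact if_neg fun h => hk' (hinj h).symm
      · intro h
        exact absurd (Finset.mem_univ k) h
    rw [h2]
    ring
  have hYker : ∀ c, A1.mulVec (Y c) = 0 := by
    intro c
    have h1 : Y c = ∑ i, c i • Ct_y ℓ f0 (g i) := by
      funext j
      rw [Finset.sum_apply]
      rfl
    rw [h1, Matrix.mulVec_sum]
    refine Finset.sum_eq_zero fun i _ => ?_
    rw [Matrix.mulVec_smul, Ct_ker A1 hγ hl f0 (g i), smul_zero]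
  have hbound : ∀ c ∈ Bx m n₀, ∀ j, |Y c j| ≤ (N : ℤ) := by
    intro c hc j
    have hc' := mem_Bx'.1 hc
    have hnZ : (n₀ : ℤ) * ((m + m) * q) ≤ N := by exact_mod_cast hn
    have hn0 : (0 : ℤ) ≤ n₀ := Int.natCast_nonneg _
    have hq0 : (1 : ℤ) ≤ q := by exact_mod_cast hq
    rcases hcov j with ⟨i, rfl⟩ | ⟨k, rfl⟩
    · rw [hYg, abs_mul]
      have hm : (1 : ℤ) ≤ m := by
        have : 0 < m := i.pos
        exact_mod_cast this
      calc |c i| * |ℓ f0| ≤ n₀ * q :=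
            mul_le_mul (hc' i) (hb f0) (abs_nonneg _) hn0
        _ = n₀ * q * 1 := (mul_one _).symm
        _ ≤ n₀ * q * (m + m) := by
            apply mul_le_mul_of_nonneg_left (by linarith)
            positivity
        _ = n₀ * ((m + m) * q) := by ring
        _ ≤ N := hnZ
    · rw [hYf, abs_neg]
      calc |∑ i, c i * ℓ (Function.update f0 k (g i))|
          ≤ ∑ i, |c i * ℓ (Function.update f0 k (g i))| := Finset.abs_sum_le_sum_abs _ _
        _ ≤ ∑ _i : Fin m, (n₀ : ℤ) * q := by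
            refine Finset.sum_le_sum fun i _ => ?_
            rw [abs_mul]
            exact mul_le_mul (hc' i) (hb _) (abs_nonneg _) hn0
        _ = m * (n₀ * q) := by
            rw [Finset.sum_const, Finset.card_univ, Fintype.card_fin, nsmul_eq_mul]
        _ ≤ n₀ * ((m + m) * q) := by
            have : (0 : ℤ) ≤ m * (n₀ * q) := by positivity
            nlinarith
        _ ≤ N := hnZ
  rw [← card_Bx m n₀, cnt_eq]
  apply Finset.card_le_card_of_injOn Y
  · intro c hc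
    rw [Finset.mem_coe, Finset.mem_filter]
    exact ⟨mem_Bx'.2 (hbound c hc), hYker c⟩
  · intro c _ c' _ h
    funext i
    have h1 := congrFun h (g i)
    rw [hYg, hYg] at h1
    exact mul_right_cancel₀ hf0 h1

end Pool.Agent.RL
end

section

/-!
# TASK RL Gd: a line with many good points

PROOF.  Let `w = Pi.single i 1`, `S = SH v H`, `d = 2m`.  Write every `x ∈ Bx d M` as `a + T w` with `a i = 0`, `T = x i`: so
`∑_{a ∈ Bx d M, a i = 0} #{T ∈ Icc (-M) M | a + T w ∈ S} = cnt S M > δ (2M+1)^d`.  The `a` with `a ∈ Mo v w` contribute at most `cnt (Mo v w) M ≤ (2M+1)^m`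
(`Pk_pow`; then `a + T w ∈ Mo v w`) `≤ (δ/2) (2M+1)^d`, because `δ (2M+1) ≥ 2` and `m ≥ 1`.  There are `(2M+1)^(d-1)` vectors `a`, so some
`a ∉ Mo v w` has at least `(δ/2) (2M+1)` numbers `T`; let `G` be the set of these `T`.
Take `𝒜` from `Mt`, `A0 = 𝒜 a`, `A1 = 𝒜 w`, so `𝒜 (a + T w) = A0 + T • A1`.  Let `T ∈ G`, `x = a + T w ∈ S`, `nm x ≤ M`, `x ∉ Mo v w`.  By the
definition of `SH` and `rk_indep` there are `m` vectors `y k ∈ Mo v x` with `nm (y k) ≤ H nm x ≤ H M`, linearly independent over `ℚ`; let `Y` be the matrix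
with the columns `y k`.  `(A0 + T • A1) * Y = 0` because `om v x (y k) = 0`.  `det (A1 * Y) ≠ 0`: otherwise there is an integer vector
`c ≠ 0` with `(A1 * Y) *ᵥ c = 0` (`Matrix.exists_mulVec_eq_zero_iff`), so `y = Y *ᵥ c = ∑ k, c k • y k` lies in `Mo v w` and in `Mo v x`, so `y = 0` (`Mo_inter`), contradicting the
independence.
-/

set_option autoImplicit false

open Finset

namespace Pool.Agent.RL

private theorem Gd_split {d : ℕ} (i : Fin d) (x : Fin d → ℤ) :
    x = Function.update x i 0 + x i • (Pi.single i 1 : Fin d → ℤ) := by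
  funext j
  by_cases h : j = i
  · subst h
    simp
  · simp [h]

private theorem Gd_update {d : ℕ} (i : Fin d) {a : Fin d → ℤ} (ha : a i = 0) (T : ℤ) :
    (a + T • (Pi.single i 1 : Fin d → ℤ)) i = T ∧
      Function.update (a + T • (Pi.single i 1 : Fin d → ℤ)) i 0 = a := by
  constructor
  · simp [ha]
  · funext j
    by_cases h : j = i
    · subst h
      simp [ha]
    · simp [h]

private theorem Gd_box {d M : ℕ} (i : Fin d) {a : Fin d → ℤ} (ha : a ∈ Bx d M) (ha0 : a i = 0) {T : ℤ}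
    (hT : T ∈ Finset.Icc (-(M : ℤ)) M) : a + T • (Pi.single i 1 : Fin d → ℤ) ∈ Bx d M := by
  rw [mem_Bx'] at ha ⊢
  intro j
  by_cases h : j = i
  · subst h
    rw [(Gd_update j ha0 T).1, abs_le]
    exact Finset.mem_Icc.mp hT
  · simpa [h] using ha j

/-- The hypothesis at one point. -/
private theorem Gd_hyp {m : ℕ} {v : Fin (m + m) → ℂ} (hv : LinearIndependent ℚ v)
    {w a x : Fin (m + m) → ℤ} (hw0 : w ≠ 0) {H M : ℕ} {T : ℤ} (hx : x = a + T • w)
    (haw : a ∉ Mo v w) (hxS : x ∈ SH v H) (hxM : nm x ≤ M)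
    (𝒜 : (Fin (m + m) → ℤ) → Matrix (Fin m) (Fin (m + m)) ℤ)
    (h1 : ∀ x y, 𝒜 (x + y) = 𝒜 x + 𝒜 y) (h2 : ∀ (n : ℤ) x, 𝒜 (n • x) = n • 𝒜 x)
    (h3 : ∀ x y, om v x y = 0 → (𝒜 x).mulVec y = 0)
    (h4 : ∀ y, (𝒜 w).mulVec y = 0 → om v w y = 0) : Hyp (𝒜 a) (𝒜 w) (H * M) T := by
  obtain ⟨hx0, hxr⟩ := hxS
  have hxr' : m ≤ rk {z | z ∈ Mo v x ∧ nm z ≤ H * nm x} := by omega
  obtain ⟨y, hy, hyi⟩ := rk_indep hxr'
  have hmul : ∀ (A : Matrix (Fin m) (Fin (m + m)) ℤ) (k r : Fin m),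
      (A * (Matrix.of fun j k => y k j : Matrix (Fin (m + m)) (Fin m) ℤ)) r k =
        A.mulVec (y k) r := by
    intro A k r
    rw [Matrix.mul_apply, Matrix.mulVec, dotProduct]
    rfl
  refine ⟨Matrix.of fun j k => y k j, ?_, ?_, ?_⟩
  · intro j k
    have h5 : |y k j| ≤ nm (y k) := abs_le_nm (y k) j
    have h6 : nm (y k) ≤ H * M := le_trans (hy k).2 (Nat.mul_le_mul_left H hxM)
    have h7 : ((nm (y k) : ℕ) : ℤ) ≤ ((H * M : ℕ) : ℤ) := by exact_mod_cast h6
    exact le_trans h5 h7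
  · ext r k
    rw [← h2, ← h1, ← hx, hmul, h3 x (y k) (hy k).1]
    rfl
  · intro hdet
    obtain ⟨c, hc0, hc⟩ := Matrix.exists_mulVec_eq_zero_iff.mpr hdet
    rw [← Matrix.mulVec_mulVec] at hc
    have h5 := h4 _ hc
    have h6 : (Matrix.of fun j k => y k j : Matrix (Fin (m + m)) (Fin m) ℤ).mulVec c =
        ∑ k, c k • y k := by
      funext j
      rw [Matrix.mulVec, dotProduct, Finset.sum_apply]
      refine Finset.sum_congr rfl fun k _ => ?_
      rw [Matrix.of_apply, Pi.smul_apply, smul_eq_mul, mul_comm]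
    rw [h6] at h5
    have h7 : ∑ k, c k • y k ∈ Mo v x :=
      Submodule.sum_mem _ fun k _ => Submodule.smul_mem _ _ (hy k).1
    have hxw : x ∉ Mo v w := by
      intro h
      apply haw
      have h8 : a = x - T • w := by rw [hx]; abel
      rw [h8]
      exact Submodule.sub_mem _ h (Submodule.smul_mem _ _ (self_mem_Mo v w))
    have h9 : ∑ k, c k • y k = 0 := Mo_inter hv hw0 hx0 hxw h5 h7
    apply hc0
    have h10 : ∑ k, (c k : ℚ) • toQ (y k) = 0 := by
      funext j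
      have h11 := congrFun h9 j
      rw [Finset.sum_apply] at h11 ⊢
      simp only [Pi.smul_apply, smul_eq_mul, toQ, Pi.zero_apply] at h11 ⊢
      exact_mod_cast h11
    have h12 := (Fintype.linearIndependent_iff.mp hyi) (fun k => (c k : ℚ)) h10
    funext k
    have h13 : (c k : ℚ) = 0 := h12 k
    exact_mod_cast h13

theorem Gd {m : ℕ} (hm : 1 ≤ m) {v : Fin (m + m) → ℂ} (hv : LinearIndependent ℚ v) (i : Fin (m + m))
    (hw : rk (Mo v (Pi.single i 1) : Set (Fin (m + m) → ℤ)) = m) {H M : ℕ} {δ : ℝ}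
    (hδ : 2 ≤ δ * (2 * M + 1)) (hS : δ * (2 * M + 1) ^ (m + m) < cnt (SH v H) M) :
    ∃ (A0 A1 : Matrix (Fin m) (Fin (m + m)) ℤ) (G : Finset ℤ), G ⊆ Finset.Icc (-(M : ℤ)) M ∧
      δ / 2 * (2 * M + 1) ≤ G.card ∧ (∀ T ∈ G, Hyp A0 A1 (H * M) T) ∧
      ∀ y, A1.mulVec y = 0 → y ∈ Mo v (Pi.single i 1) := by
  classical
  set w : Fin (m + m) → ℤ := Pi.single i 1 with hwdef
  have hw0 : w ≠ 0 := by
    intro h
    have := congrFun h i
    simp [hwdef] at this
  set AA : Finset (Fin (m + m) → ℤ) := (Bx (m + m) M).filter fun a => a i = 0 with hAA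
  set GG : (Fin (m + m) → ℤ) → Finset ℤ := fun a =>
    (Finset.Icc (-(M : ℤ)) M).filter fun T => a + T • w ∈ SH v H with hGG
  have hD : (0 : ℝ) < 2 * M + 1 := by positivity
  have hδ0 : 0 < δ := by
    by_contra h
    push Not at h
    have := mul_nonpos_of_nonpos_of_nonneg h hD.le
    linarith
  -- a good point `a`
  have key : ∃ a ∈ AA, a ∉ Mo v w ∧ δ / 2 * (2 * M + 1) ≤ (GG a).card := by
    by_contra hno
    push Not at hno
    set SB : Finset (Fin (m + m) → ℤ) := (Bx (m + m) M).filter (· ∈ SH v H) with hSB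
    set S1 := SB.filter fun x => Function.update x i 0 ∈ Mo v w with hS1
    set S2 := SB.filter fun x => ¬ Function.update x i 0 ∈ Mo v w with hS2
    have hsum : S1.card + S2.card = SB.card := Finset.card_filter_add_card_filter_not _
    have hcnt : cnt (SH v H) M = SB.card := cnt_eq _ _
    have hc1 : S1.card ≤ (2 * M + 1) ^ m := by
      have h1 : S1.card ≤ cnt (Mo v w : Set (Fin (m + m) → ℤ)) M := by
        rw [cnt_eq]
        apply Finset.card_le_card
        intro x hx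
        rw [hS1, Finset.mem_filter, hSB, Finset.mem_filter] at hx
        rw [Finset.mem_filter]
        refine ⟨hx.1.1, ?_⟩
        have h2 := Submodule.add_mem _ hx.2 (Submodule.smul_mem (Mo v w) (x i) (self_mem_Mo v w))
        rw [← Gd_split i x] at h2
        exact h2
      refine le_trans h1 ?_
      have h2 := Pk_pow (Mo v w) M
      rw [hw] at h2
      exact h2
    have hmaps : ∀ x ∈ S2, Function.update x i 0 ∈ AA.filter fun a => a ∉ Mo v w := by
      intro x hx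
      rw [hS2, Finset.mem_filter, hSB, Finset.mem_filter] at hx
      rw [Finset.mem_filter, hAA, Finset.mem_filter]
      refine ⟨⟨?_, by simp⟩, hx.2⟩
      have h1 := hx.1.1
      rw [mem_Bx'] at h1 ⊢
      intro j
      by_cases h : j = i
      · subst h
        simp
      · simpa [h] using h1 j
    have hc2 : S2.card = ∑ a ∈ AA.filter (fun a => a ∉ Mo v w),
        (S2.filter fun x => Function.update x i 0 = a).card :=
      Finset.card_eq_sum_card_fiberwise hmaps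
    have hfib : ∀ a ∈ AA.filter (fun a => a ∉ Mo v w),
        ((S2.filter fun x => Function.update x i 0 = a).card : ℝ) ≤ δ / 2 * (2 * M + 1) := by
      intro a ha
      rw [Finset.mem_filter] at ha
      have h1 := hno a ha.1 ha.2
      have h2 : (S2.filter fun x => Function.update x i 0 = a).card ≤ (GG a).card := by
        apply Finset.card_le_card_of_injOn (fun x => x i)
        · intro x hx
          rw [Finset.mem_coe, Finset.mem_filter, hS2, Finset.mem_filter, hSB, Finset.mem_filter] at hx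
          obtain ⟨⟨⟨hxB, hxS⟩, _⟩, hxa⟩ := hx
          rw [Finset.mem_coe, hGG, Finset.mem_filter]
          refine ⟨?_, ?_⟩
          · rw [mem_Bx'] at hxB
            rw [Finset.mem_Icc]
            exact abs_le.mp (hxB i)
          · rw [← hxa, hwdef, ← Gd_split i x]
            exact hxS
        · intro x hx y hy hxy
          rw [Finset.mem_coe, Finset.mem_filter] at hx hy
          have hxy' : x i = y i := hxy
          rw [Gd_split i x, Gd_split i y, hx.2, hy.2, hxy']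
      have h3 : ((S2.filter fun x => Function.update x i 0 = a).card : ℝ) ≤ (GG a).card := by
        exact_mod_cast h2
      linarith
    have hc2' : (S2.card : ℝ) ≤ AA.card * (δ / 2 * (2 * M + 1)) := by
      rw [hc2]
      push_cast
      calc ∑ a ∈ AA.filter (fun a => a ∉ Mo v w),
          ((S2.filter fun x => Function.update x i 0 = a).card : ℝ)
          ≤ ∑ a ∈ AA.filter (fun a => a ∉ Mo v w), δ / 2 * (2 * M + 1) :=
            Finset.sum_le_sum hfib
        _ = (AA.filter (fun a => a ∉ Mo v w)).card * (δ / 2 * (2 * M + 1)) := by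
            rw [Finset.sum_const, nsmul_eq_mul]
        _ ≤ AA.card * (δ / 2 * (2 * M + 1)) := by
            refine mul_le_mul_of_nonneg_right ?_ (by positivity)
            exact_mod_cast Finset.card_filter_le _ _
    have hAAc : (AA.card : ℝ) * (2 * M + 1) ≤ (2 * M + 1) ^ (m + m) := by
      have h1 : (AA ×ˢ Finset.Icc (-(M : ℤ)) M).card ≤ (Bx (m + m) M).card := by
        apply Finset.card_le_card_of_injOn (fun q => q.1 + q.2 • (Pi.single i 1 : Fin (m + m) → ℤ))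
        · rintro ⟨a, T⟩ hq
          rw [Finset.mem_coe, Finset.mem_product, hAA, Finset.mem_filter] at hq
          exact Gd_box i hq.1.1 hq.1.2 hq.2
        · rintro ⟨a, T⟩ hq ⟨b, U⟩ hr he
          rw [Finset.mem_coe, Finset.mem_product, hAA, Finset.mem_filter] at hq hr
          have he' : a + T • (Pi.single i 1 : Fin (m + m) → ℤ) =
            b + U • (Pi.single i 1 : Fin (m + m) → ℤ) := he
          have h2 := Gd_update i hq.1.2 T
          have h3 := Gd_update i hr.1.2 U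
          rw [he'] at h2
          exact Prod.ext (h2.2.symm.trans h3.2) (h2.1.symm.trans h3.1)
      rw [Finset.card_product, card_Bx, Int.card_Icc] at h1
      have h2 : ((M : ℤ) + 1 - -(M : ℤ)).toNat = 2 * M + 1 := by omega
      rw [h2] at h1
      exact_mod_cast h1
    have h1 : ((2 * M + 1 : ℝ)) ^ m ≤ δ / 2 * (2 * M + 1) ^ (m + m) := by
      obtain ⟨k, rfl⟩ : ∃ k, m = k + 1 := ⟨m - 1, by omega⟩
      have h2 : (2 * (M : ℝ) + 1) ^ (k + 1 + (k + 1)) =
          (2 * M + 1) * ((2 * M + 1) ^ (k + 1) * (2 * M + 1) ^ k) := by ring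
      rw [h2]
      have h3 : (1 : ℝ) ≤ (2 * M + 1) ^ k := one_le_pow₀ (by linarith [Nat.cast_nonneg (α := ℝ) M])
      have h4 : (0 : ℝ) < (2 * M + 1) ^ (k + 1) := by positivity
      calc (2 * (M : ℝ) + 1) ^ (k + 1) = 1 * ((2 * M + 1) ^ (k + 1) * 1) := by ring
        _ ≤ (δ / 2 * (2 * M + 1)) * ((2 * M + 1) ^ (k + 1) * (2 * M + 1) ^ k) := by
            apply mul_le_mul
            · linarith
            · exact mul_le_mul_of_nonneg_left h3 h4.le
            · positivity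
            · positivity
        _ = _ := by ring
    have h5 : (S1.card : ℝ) ≤ (2 * M + 1) ^ m := by exact_mod_cast hc1
    have h6 : (S2.card : ℝ) ≤ δ / 2 * (2 * M + 1) ^ (m + m) := by
      refine le_trans hc2' ?_
      calc (AA.card : ℝ) * (δ / 2 * (2 * M + 1)) = δ / 2 * (AA.card * (2 * M + 1)) := by ring
        _ ≤ δ / 2 * (2 * M + 1) ^ (m + m) := mul_le_mul_of_nonneg_left hAAc (by positivity)
    have h7 : (cnt (SH v H) M : ℝ) = S1.card + S2.card := by
      rw [hcnt, ← hsum]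
      push_cast
      rfl
    rw [h7] at hS
    linarith
  obtain ⟨a, haA, haw, haG⟩ := key
  obtain ⟨𝒜, h1, h2, h3, h4⟩ := Mt v w hw
  refine ⟨𝒜 a, 𝒜 w, GG a, Finset.filter_subset _ _, haG, ?_, fun y hy => h4 y hy⟩
  intro T hT
  rw [hGG, Finset.mem_filter] at hT
  rw [hAA, Finset.mem_filter] at haA
  have hbox := Gd_box i haA.1 haA.2 hT.1
  rw [mem_Bx] at hbox
  exact Gd_hyp hv hw0 rfl haw hT.2 hbox 𝒜 h1 h2 h3 h4

end Pool.Agent.RL
end

section

/-!
# TASK RL Tr: translates of a line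

PROOF of `Tr`.  Choose `x z ∈ ℤ^d` with `nm (x z) ≤ N`, `z = L v (x z)`, `z ∈ A` (injective in `z`).  For `u ∈ Bx d (2N)` let `A_u = {z ∈ A | nm (x z - u) ≤ N ∧ x z - u ∈ Mo v w}`.
`∑_u |A_u| = ∑_{z ∈ A} #{u ∈ Bx d (2N) | nm (x z - u) ≤ N, x z - u ∈ Mo v w} = |A| * cnt (Mo v w) N` (`u = x z - y`, `y` in the box of size `N`, is automatically in `Bx d (2N)`).  There are
`(4N+1)^d` vectors `u`, so some `u` has `|A| cnt (Mo v w) N ≤ (4N+1)^d |A_u|`.  All points of `A_u` lie on the line `L v u + ℝ L v w` (`par_iff`).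
-/

set_option autoImplicit false

open Finset

namespace Pool.Agent.RL

theorem Tr {d : ℕ} {v : Fin d → ℂ} (hv : LinearIndependent ℚ v) (A : Finset ℂ) (N : ℕ)
    (hA : ∀ z ∈ A, ∃ x, nm x ≤ N ∧ z = L v x) {w : Fin d → ℤ} (hw : w ≠ 0) :
    ∃ p : ℂ, A.card * cnt (Mo v w : Set (Fin d → ℤ)) N ≤ (4 * N + 1) ^ d * (onLine A p (L v w)).card := by
  classical
  choose! x hx using hA
  let Au : (Fin d → ℤ) → Finset ℂ := fun u => A.filter fun z => nm (x z - u) ≤ N ∧ x z - u ∈ Mo v w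
  have hBne : (Bx d (2 * N)).Nonempty := by
    refine ⟨0, mem_Bx.2 ?_⟩
    rw [nm_zero]
    exact Nat.zero_le _
  obtain ⟨u, -, hmax⟩ := Finset.exists_max_image (Bx d (2 * N)) (fun u => (Au u).card) hBne
  refine ⟨L v u, ?_⟩
  have h1 : A.card * cnt (Mo v w : Set (Fin d → ℤ)) N ≤ ∑ u ∈ Bx d (2 * N), (Au u).card := by
    have e1 : ∑ u ∈ Bx d (2 * N), (Au u).card =
        ∑ z ∈ A, ((Bx d (2 * N)).filter fun u => nm (x z - u) ≤ N ∧ x z - u ∈ Mo v w).card := by
      simp only [Au, Finset.card_filter]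
      exact Finset.sum_comm
    rw [e1, ← smul_eq_mul]
    refine Finset.card_nsmul_le_sum _ _ _ fun z hz => ?_
    rw [cnt_eq]
    refine Finset.card_le_card_of_injOn (fun y => x z - y) ?_ ?_
    · intro y hy
      have hy' := (mem_cnt (W := (Mo v w : Set (Fin d → ℤ)))).1 (Finset.mem_coe.1 hy)
      have e2 : x z - (x z - y) = y := by abel
      refine Finset.mem_coe.2 (Finset.mem_filter.2 ⟨mem_Bx.2 ?_, ?_⟩)
      · have h2 := nm_sub_le (x z) y
        have h3 := (hx z hz).1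
        have h4 := hy'.1
        show nm (x z - y) ≤ 2 * N
        omega
      · show nm (x z - (x z - y)) ≤ N ∧ x z - (x z - y) ∈ Mo v w
        rw [e2]
        exact hy'
    · intro y _ y' _ hyy
      exact sub_right_injective hyy
  have h2 : ∑ u ∈ Bx d (2 * N), (Au u).card ≤ (Bx d (2 * N)).card * (Au u).card := by
    rw [← smul_eq_mul]
    exact Finset.sum_le_card_nsmul _ _ _ hmax
  have h3 : (Bx d (2 * N)).card = (4 * N + 1) ^ d := by
    rw [card_Bx]
    congr 1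
    ring
  have h4 : (Au u).card ≤ (onLine A (L v u) (L v w)).card := by
    refine Finset.card_le_card fun z hz => ?_
    obtain ⟨hzA, -, hzM⟩ := Finset.mem_filter.1 hz
    obtain ⟨t, ht⟩ := (par_iff hv hw).1 hzM
    unfold onLine
    refine Finset.mem_filter.2 ⟨hzA, t, ?_⟩
    rw [L_sub, ← (hx z hzA).2] at ht
    rw [← ht]
    ring
  calc A.card * cnt (Mo v w : Set (Fin d → ℤ)) N ≤ ∑ u ∈ Bx d (2 * N), (Au u).card := h1
    _ ≤ (Bx d (2 * N)).card * (Au u).card := h2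
    _ = (4 * N + 1) ^ d * (Au u).card := by rw [h3]
    _ ≤ (4 * N + 1) ^ d * (onLine A (L v u) (L v w)).card := Nat.mul_le_mul_left _ h4

end Pool.Agent.RL
end

section

/-!
# TASK RL AsmC: real inequalities for the last step

`n` is the number of points, `D` the number of distances, `l` the number of points on the line.

PROOF of `AsmC1`.  `d ≥ 1` and `N ≥ 1`, so `κ N ≤ κ N^d ≤ n`, `log N ≤ log n + |log κ|`.  `log n ≥ log 3 ≥ 1` (`Real.exp_one_lt_d9`).  So
`Lg = 1 + log 4 + log N ≤ (1 + log 4 + |log κ| + 1) log n ≤ C0 log n`.  `log Lg ≤ log C0 + log (log n)` and `log (log n) ≥ 0`, so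
`1 + log Lg ≤ (1 + log C0) (1 + log (log n))`.

PROOF of `AsmC2`.  Let `ω = D/n > 0`, `u = 1 + log (log n) ≥ 1`, `b = log n ≥ 1`.  `1 ≤ C ω Lg ≤ C² ω b`, `1/δ ≤ C ω Lg ≤ C² ω b`, `(1 + log Lg)² ≤ C² u²`.  So
`C exp ((C/δ) (1 + log Lg)²) ≤ exp (log C + C * C² ω b * C² u²) ≤ exp ((log C) C² ω b u² + C⁵ ω b u²) ≤ exp (C' ω u² b) = n^(C' ω u²)`, so
`√n ≤ n^(C' ω u²) l` and `n^(1/2 - C' ω u²) ≤ l`.
-/

set_option autoImplicit false

open Finset

namespace Pool.Agent.RL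

theorem AsmC1 (d : ℕ) (hd : 1 ≤ d) (κ : ℝ) (hκ : 0 < κ) : ∃ C : ℝ, 1 ≤ C ∧ ∀ N n : ℕ, 1 ≤ N → 3 ≤ n →
    κ * (N : ℝ) ^ d ≤ n → ∀ Lg : ℝ, Lg = 1 + Real.log ((4 * N : ℕ) : ℝ) →
      1 ≤ Lg ∧ Lg ≤ C * Real.log n ∧ 1 + Real.log Lg ≤ C * (1 + Real.log (Real.log n)) ∧
      1 ≤ Real.log n ∧ 0 ≤ Real.log (Real.log n) := by
  set C0 : ℝ := 3 + Real.log 4 + |Real.log κ| with hC0
  have hl4 : 0 ≤ Real.log 4 := Real.log_nonneg (by norm_num)
  have hC01 : 1 ≤ C0 := by have := abs_nonneg (Real.log κ); linarith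
  refine ⟨C0, hC01, ?_⟩
  intro N n hN hn hκn Lg hLg
  have hNr : (1 : ℝ) ≤ N := by exact_mod_cast hN
  have hnr : (3 : ℝ) ≤ n := by exact_mod_cast hn
  have hb : 1 ≤ Real.log n := by
    rw [Real.le_log_iff_exp_le (by linarith)]
    have := Real.exp_one_lt_d9
    linarith
  have hlb : 0 ≤ Real.log (Real.log n) := Real.log_nonneg hb
  have hNd : (N : ℝ) ≤ (N : ℝ) ^ d := by
    calc (N : ℝ) = (N : ℝ) ^ 1 := (pow_one _).symm
      _ ≤ (N : ℝ) ^ d := pow_le_pow_right₀ hNr hd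
  have h1 : κ * N ≤ n := (mul_le_mul_of_nonneg_left hNd hκ.le).trans hκn
  have h2 : Real.log κ + Real.log N ≤ Real.log n := by
    rw [← Real.log_mul hκ.ne' (by linarith)]
    exact Real.log_le_log (by positivity) h1
  have h3 : Real.log ((4 * N : ℕ) : ℝ) = Real.log 4 + Real.log N := by
    push_cast
    rw [Real.log_mul (by norm_num) (by linarith)]
  have hlN : 0 ≤ Real.log N := Real.log_nonneg hNr
  have hLg1 : 1 ≤ Lg := by rw [hLg, h3]; linarith
  have habs := neg_abs_le (Real.log κ)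
  have habs' := abs_nonneg (Real.log κ)
  have hLg2 : Lg ≤ C0 * Real.log n := by
    have e1 : Lg ≤ 1 + Real.log 4 + |Real.log κ| + Real.log n := by
      rw [hLg, h3]; linarith
    have e2 : 1 + Real.log 4 + |Real.log κ| ≤ (1 + Real.log 4 + |Real.log κ|) * Real.log n :=
      le_mul_of_one_le_right (by linarith) hb
    rw [hC0]; nlinarith
  refine ⟨hLg1, hLg2, ?_, hb, hlb⟩
  have h4 : Real.log Lg ≤ Real.log C0 + Real.log (Real.log n) := by
    rw [← Real.log_mul (by linarith) (by linarith)]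
    exact Real.log_le_log (by linarith) hLg2
  have h5 : Real.log C0 ≤ C0 - 1 := Real.log_le_sub_one_of_pos (by linarith)
  nlinarith [mul_nonneg (sub_nonneg.2 hC01) hlb]

theorem AsmC2 (C : ℝ) (hC : 1 ≤ C) : ∃ C' : ℝ, 1 ≤ C' ∧ ∀ (n D l : ℕ) (δ Lg : ℝ), 3 ≤ n → 1 ≤ D →
    1 ≤ Lg → Lg ≤ C * Real.log n → 1 + Real.log Lg ≤ C * (1 + Real.log (Real.log n)) →
    0 < δ → (n : ℝ) ≤ C * D * Lg → (n : ℝ) ≤ C * D * (δ * Lg) →
    Real.sqrt n ≤ C * Real.exp (C / δ * (1 + Real.log Lg) ^ 2) * l →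
    (n : ℝ) ^ (1 / 2 - C' * ((D : ℝ) / n) * (1 + Real.log (Real.log n)) ^ 2) ≤ l := by
  have hC0 : 0 < C := by linarith
  refine ⟨C ^ 5 + C ^ 2 * Real.log C, ?_, ?_⟩
  · have h1 : 1 ≤ C ^ 5 := one_le_pow₀ hC
    have h2 : 0 ≤ C ^ 2 * Real.log C := mul_nonneg (by positivity) (Real.log_nonneg hC)
    linarith
  intro n D l δ Lg hn hD hLg1 hLg2 hLg3 hδ h1 h2 h3
  have hnr : (3 : ℝ) ≤ n := by exact_mod_cast hn
  have hn0 : (0 : ℝ) < n := by linarith
  have hDr : (1 : ℝ) ≤ D := by exact_mod_cast hD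
  have hb : 1 ≤ Real.log n := by
    rw [Real.le_log_iff_exp_le (by linarith)]
    have := Real.exp_one_lt_d9
    linarith
  have hlb : 0 ≤ Real.log (Real.log n) := Real.log_nonneg hb
  set ω : ℝ := (D : ℝ) / n with hω
  have hω0 : 0 < ω := by positivity
  set u : ℝ := 1 + Real.log (Real.log n) with hu
  have hu1 : 1 ≤ u := by linarith
  set b : ℝ := Real.log n with hbd
  have hlC : 0 ≤ Real.log C := Real.log_nonneg hC
  have e1 : 1 ≤ C ^ 2 * ω * b := by
    have : (n : ℝ) ≤ C * D * (C * b) := h1.trans (mul_le_mul_of_nonneg_left hLg2 (by positivity))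
    have h4 : 1 ≤ C * D * (C * b) / n := by rwa [one_le_div hn0]
    calc (1 : ℝ) ≤ C * D * (C * b) / n := h4
      _ = C ^ 2 * ω * b := by rw [hω]; ring
  have e2 : 1 / δ ≤ C ^ 2 * ω * b := by
    rw [div_le_iff₀ hδ]
    have h4 : (n : ℝ) ≤ C * D * (δ * (C * b)) :=
      h2.trans (mul_le_mul_of_nonneg_left (mul_le_mul_of_nonneg_left hLg2 hδ.le) (by positivity))
    have h5 : 1 ≤ C * D * (δ * (C * b)) / n := by rwa [one_le_div hn0]
    calc (1 : ℝ) ≤ C * D * (δ * (C * b)) / n := h5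
      _ = C ^ 2 * ω * b * δ := by rw [hω]; ring
  have hl0 : 0 ≤ 1 + Real.log Lg := by have := Real.log_nonneg hLg1; linarith
  have e3 : (1 + Real.log Lg) ^ 2 ≤ C ^ 2 * u ^ 2 := by
    rw [← mul_pow]
    exact pow_le_pow_left₀ hl0 hLg3 2
  have e4 : C / δ * (1 + Real.log Lg) ^ 2 ≤ C ^ 5 * ω * b * u ^ 2 := by
    have h4 : C / δ ≤ C * (C ^ 2 * ω * b) := by
      rw [div_eq_mul_one_div]
      exact mul_le_mul_of_nonneg_left e2 hC0.le
    calc C / δ * (1 + Real.log Lg) ^ 2 ≤ C * (C ^ 2 * ω * b) * (C ^ 2 * u ^ 2) :=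
          mul_le_mul h4 e3 (by positivity) (by positivity)
      _ = C ^ 5 * ω * b * u ^ 2 := by ring
  have e5 : Real.log C ≤ C ^ 2 * Real.log C * ω * b * u ^ 2 := by
    have h4 : 1 ≤ C ^ 2 * ω * b * u ^ 2 := by
      have : (1 : ℝ) ≤ u ^ 2 := one_le_pow₀ hu1
      nlinarith
    calc Real.log C = Real.log C * 1 := (mul_one _).symm
      _ ≤ Real.log C * (C ^ 2 * ω * b * u ^ 2) := mul_le_mul_of_nonneg_left h4 hlC
      _ = _ := by ring
  have e6 : C * Real.exp (C / δ * (1 + Real.log Lg) ^ 2) ≤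
      Real.exp ((C ^ 5 + C ^ 2 * Real.log C) * ω * u ^ 2 * b) := by
    rw [show C * Real.exp (C / δ * (1 + Real.log Lg) ^ 2) =
      Real.exp (Real.log C + C / δ * (1 + Real.log Lg) ^ 2) by
        rw [Real.exp_add, Real.exp_log hC0]]
    apply Real.exp_le_exp.2
    calc Real.log C + C / δ * (1 + Real.log Lg) ^ 2 ≤
        C ^ 2 * Real.log C * ω * b * u ^ 2 + C ^ 5 * ω * b * u ^ 2 := add_le_add e5 e4
      _ = _ := by ring
  have e7 : Real.exp ((C ^ 5 + C ^ 2 * Real.log C) * ω * u ^ 2 * b) =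
      (n : ℝ) ^ ((C ^ 5 + C ^ 2 * Real.log C) * ω * u ^ 2) := by
    rw [Real.rpow_def_of_pos hn0]
    congr 1
    ring
  have hl : (0 : ℝ) ≤ l := Nat.cast_nonneg l
  have e8 : (n : ℝ) ^ (1 / 2 : ℝ) ≤ (n : ℝ) ^ ((C ^ 5 + C ^ 2 * Real.log C) * ω * u ^ 2) * l := by
    rw [← Real.sqrt_eq_rpow, ← e7]
    exact h3.trans (mul_le_mul_of_nonneg_right e6 hl)
  rw [Real.rpow_sub hn0, div_le_iff₀ (Real.rpow_pos_of_pos hn0 _), mul_comm (l : ℝ)]
  exact e8

end Pool.Agent.RL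
end
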