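import Mathlib
import Pool.Agent.Lib.MP_6f2296_co.Mg.G012

section

/-!
# TASK RL R9: a real inequality

`g` is the number of good `T`, `W = 2M+1`, `X = log R`, `E = ∑ log p / p`, `s = log Lg`.

PROOF.  Let `C` be large (depending on `m`, `C1`, `CB` only).  By the hypotheses `g ≥ (δ/2) W ≥ (δ/2) C Lg² ≥ (C / (2 C1)) Lg ≥ 4m + 4` (use `1 ≤ C1 δ Lg`).
So `g - 2 - 2m ≥ (g - 2)/2` and `g - 2 ≥ g/2`; the main hypothesis gives `X (g - 2)/2 ≤ X (g - 2 - 2m) ≤ (g - 2) B + 4 m² W E`, so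
`X ≤ 2 B + 8 m² W E / (g - 2) ≤ 2 B + (32 m²/δ) E` (`W / (g-2) ≤ 2 W/g ≤ 4/δ`), and with `1/δ ≤ C1 Lg`, `B ≤ CB Lg`:
`X ≤ Lg (2 CB + 32 m² C1 E)`.  Since `log (1 + X) ≤ 4 (1 + X)^(1/4)` (`Real.log_le_rpow_div` or `log t = 4 log (t^(1/4)) ≤ 4 t^(1/4)`), `E ≤ 1 + (1 + log (1+X))² ≤ 26 √(1+X)`.  So
`1 + X ≤ Lg (1 + 2 CB + 832 m² C1) √(1+X)`, so `√(1+X) ≤ C' Lg`, `1 + X ≤ C'² Lg²`, with `C' = 1 + 2 CB + 832 m² C1`.
Then `E ≤ 1 + (1 + 2 log C' + 2 log Lg)² ≤ C'' (1 + log Lg)²`, and `X / W ≤ 1` if `C ≥ C'²`.  So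
`(2/g) (W (2 m² E) + m X) ≤ (4/δ) (2 m² E + m X / W) ≤ (4/δ) (2 m² C'' (1 + log Lg)² + m) ≤ (C/δ) (1 + log Lg)²`.
-/

set_option autoImplicit false

open Finset

namespace Pool.Agent.RL

theorem R9 (m : ℕ) (hm : 1 ≤ m) (C1 CB : ℝ) (hC1 : 1 ≤ C1) (hCB : 1 ≤ CB) : ∃ C : ℝ, 1 ≤ C ∧
    ∀ g W Lg δ : ℝ, 1 ≤ Lg → 0 < δ → δ ≤ 1 → 1 ≤ C1 * δ * Lg → δ / 2 * W ≤ g → C * Lg ^ 2 ≤ W →
      4 * m + 4 ≤ g ∧
      ∀ X E B : ℝ, 0 ≤ X → 0 ≤ E → E ≤ 1 + (1 + Real.log (1 + X)) ^ 2 → B ≤ CB * Lg →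
        (g - 2) * X ≤ (g - 2) * B + 2 * (W * (2 * (m : ℝ) ^ 2 * E) + m * X) →
        W * (2 * (m : ℝ) ^ 2 * E) + m * X ≤ g / 2 * (C / δ * (1 + Real.log Lg) ^ 2) := by
  have hm1 : (1 : ℝ) ≤ m := by exact_mod_cast hm
  obtain ⟨K, hK⟩ : ∃ K : ℝ, K = 1 + 2 * CB + 832 * (m : ℝ) ^ 2 * C1 := ⟨_, rfl⟩
  have hm2 : 0 ≤ (m : ℝ) ^ 2 := by positivity
  have hC10 : 0 ≤ C1 := by linarith
  have hmc : 0 ≤ (m : ℝ) ^ 2 * C1 := by positivity
  have hK1 : 1 ≤ K := by rw [hK]; linarith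
  obtain ⟨A, hA⟩ : ∃ A : ℝ, A = 2 + 2 * Real.log K := ⟨_, rfl⟩
  have hlK : 0 ≤ Real.log K := Real.log_nonneg hK1
  have hA2 : 2 ≤ A := by rw [hA]; linarith
  obtain ⟨C, hC⟩ : ∃ C : ℝ, C = K ^ 2 + 4 * (2 * (m : ℝ) ^ 2 * A ^ 2 + m) + 2 * C1 * (4 * m + 4) := ⟨_, rfl⟩
  have p1 : 0 ≤ 2 * (m : ℝ) ^ 2 * A ^ 2 := by positivity
  have p2 : 0 ≤ 2 * C1 * (4 * (m : ℝ) + 4) := by positivity
  have p3 : 1 ≤ K ^ 2 := one_le_pow₀ hK1
  have hCK : K ^ 2 ≤ C := by rw [hC]; linarith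
  have hCA : 4 * (2 * (m : ℝ) ^ 2 * A ^ 2 + m) ≤ C := by rw [hC]; linarith
  have hCm : 2 * C1 * (4 * (m : ℝ) + 4) ≤ C := by rw [hC]; linarith
  have hC1' : 1 ≤ C := p3.trans hCK
  refine ⟨C, hC1', ?_⟩
  intro g W Lg δ hL hδ hδ1 hδL hW hCW
  have hLg0 : 0 < Lg := by linarith
  have hW0 : 0 ≤ W := by
    have : 0 ≤ C * Lg ^ 2 := by positivity
    linarith
  have hg1 : 4 * (m : ℝ) + 4 ≤ g := by
    have e1 : C * (1 * 1) ≤ C1 * (δ * (C * Lg ^ 2)) := by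
      have : C * (1 * 1) ≤ C * ((C1 * δ * Lg) * Lg) := by
        apply mul_le_mul_of_nonneg_left _ (by linarith)
        exact mul_le_mul hδL hL (by norm_num) (by linarith)
      calc C * (1 * 1) ≤ C * ((C1 * δ * Lg) * Lg) := this
        _ = C1 * (δ * (C * Lg ^ 2)) := by ring
    have e2 : C1 * (δ * (C * Lg ^ 2)) ≤ C1 * (δ * W) :=
      mul_le_mul_of_nonneg_left (mul_le_mul_of_nonneg_left hCW hδ.le) hC10
    have e3 : C1 * (δ * W) ≤ C1 * (2 * g) := mul_le_mul_of_nonneg_left (by linarith) hC10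
    have e4 : C1 * (2 * (4 * (m : ℝ) + 4)) ≤ C1 * (2 * g) := by linarith
    have hC1p : 0 < C1 := by linarith
    have := le_of_mul_le_mul_left e4 hC1p
    linarith
  refine ⟨hg1, ?_⟩
  intro X E B hX hE hE2 hB hmain
  have hg0 : 0 < g := by linarith
  have hWg : δ * W ≤ 2 * g := by linarith
  -- the first bound for `X`
  have b1 : X ≤ 2 * B + 32 * (m : ℝ) ^ 2 * (E / δ) := by
    have c1 : (g - 2) * X ≤ (g - 2) * (2 * B) + 8 * (m : ℝ) ^ 2 * (W * E) := by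
      have c2 : 4 * (m : ℝ) * X ≤ (g - 2) * X := mul_le_mul_of_nonneg_right (by linarith) hX
      linarith
    have c3 : W * E ≤ 4 * (g - 2) * (E / δ) := by
      have c4 : W ≤ 4 * (g - 2) / δ := by
        rw [le_div_iff₀ hδ]
        linarith
      calc W * E ≤ 4 * (g - 2) / δ * E := mul_le_mul_of_nonneg_right c4 hE
        _ = 4 * (g - 2) * (E / δ) := by ring
    have c5 : 8 * (m : ℝ) ^ 2 * (W * E) ≤ 8 * (m : ℝ) ^ 2 * (4 * (g - 2) * (E / δ)) :=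
      mul_le_mul_of_nonneg_left c3 (by positivity)
    have c6 : (g - 2) * X ≤ (g - 2) * (2 * B + 32 * (m : ℝ) ^ 2 * (E / δ)) := by
      calc (g - 2) * X ≤ (g - 2) * (2 * B) + 8 * (m : ℝ) ^ 2 * (W * E) := c1
        _ ≤ (g - 2) * (2 * B) + 8 * (m : ℝ) ^ 2 * (4 * (g - 2) * (E / δ)) := by linarith
        _ = (g - 2) * (2 * B + 32 * (m : ℝ) ^ 2 * (E / δ)) := by ring
    exact le_of_mul_le_mul_left c6 (by linarith)
  have b2 : E / δ ≤ C1 * Lg * E := by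
    rw [div_le_iff₀ hδ]
    calc E = 1 * E := by ring
      _ ≤ (C1 * δ * Lg) * E := mul_le_mul_of_nonneg_right hδL hE
      _ = C1 * Lg * E * δ := by ring
  -- the bound for `1 + X`
  obtain ⟨u, hu⟩ : ∃ u : ℝ, u = Real.sqrt (Real.sqrt (1 + X)) := ⟨_, rfl⟩
  have hs1 : 1 ≤ Real.sqrt (1 + X) := by
    rw [show (1 : ℝ) = Real.sqrt 1 by rw [Real.sqrt_one]]
    apply Real.sqrt_le_sqrt
    rw [Real.sqrt_one]
    linarith
  have hu1 : 1 ≤ u := by
    rw [hu, show (1 : ℝ) = Real.sqrt 1 by rw [Real.sqrt_one]]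
    apply Real.sqrt_le_sqrt
    rw [Real.sqrt_one]
    exact hs1
  have hu2 : u ^ 2 = Real.sqrt (1 + X) := by rw [hu, Real.sq_sqrt (by linarith)]
  have hu4 : u ^ 4 = 1 + X := by
    calc u ^ 4 = (u ^ 2) ^ 2 := by ring
      _ = 1 + X := by rw [hu2, Real.sq_sqrt (by linarith)]
  have hlog : Real.log (1 + X) ≤ 4 * u := by
    rw [← hu4, Real.log_pow]
    have := Real.log_le_sub_one_of_pos (show (0 : ℝ) < u by linarith)
    push_cast
    linarith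
  have hlog0 : 0 ≤ Real.log (1 + X) := Real.log_nonneg (by linarith)
  have hE3 : E ≤ 26 * u ^ 2 := by
    have c1 : (1 + Real.log (1 + X)) ^ 2 ≤ (1 + 4 * u) ^ 2 := by
      apply pow_le_pow_left₀ (by linarith)
      linarith
    have c2 : u ≤ u ^ 2 := le_self_pow₀ hu1 two_ne_zero
    linarith
  have b3 : u ^ 4 ≤ K * Lg * u ^ 2 := by
    have c1 : 32 * (m : ℝ) ^ 2 * (E / δ) ≤ 32 * (m : ℝ) ^ 2 * (C1 * Lg * (26 * u ^ 2)) := by
      apply mul_le_mul_of_nonneg_left _ (by positivity)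
      exact b2.trans (mul_le_mul_of_nonneg_left hE3 (by positivity))
    have c2 : (1 : ℝ) ≤ u ^ 2 := one_le_pow₀ hu1
    have c3 : 1 ≤ Lg * u ^ 2 := one_le_mul_of_one_le_of_one_le hL c2
    have c4 : 2 * CB * Lg ≤ 2 * CB * Lg * u ^ 2 := le_mul_of_one_le_right (by positivity) c2
    calc u ^ 4 = 1 + X := hu4
      _ ≤ 1 + 2 * CB * Lg + 32 * (m : ℝ) ^ 2 * (C1 * Lg * (26 * u ^ 2)) := by linarith
      _ ≤ Lg * u ^ 2 + 2 * CB * Lg * u ^ 2 + 32 * (m : ℝ) ^ 2 * (C1 * Lg * (26 * u ^ 2)) := by linarith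
      _ = K * Lg * u ^ 2 := by rw [hK]; ring
  have b4 : u ^ 2 ≤ K * Lg := by
    have c1 : u ^ 2 * u ^ 2 ≤ K * Lg * u ^ 2 := by
      calc u ^ 2 * u ^ 2 = u ^ 4 := by ring
        _ ≤ _ := b3
    exact le_of_mul_le_mul_right c1 (by positivity)
  have b5 : 1 + X ≤ (K * Lg) ^ 2 := by
    rw [← hu4]
    calc u ^ 4 = (u ^ 2) ^ 2 := by ring
      _ ≤ (K * Lg) ^ 2 := pow_le_pow_left₀ (by positivity) b4 2
  have hlL : 0 ≤ Real.log Lg := Real.log_nonneg hL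
  have b6 : Real.log (1 + X) ≤ 2 * Real.log K + 2 * Real.log Lg := by
    calc Real.log (1 + X) ≤ Real.log ((K * Lg) ^ 2) := Real.log_le_log (by linarith) b5
      _ = 2 * Real.log K + 2 * Real.log Lg := by
        rw [Real.log_pow, Real.log_mul (by linarith) (by linarith)]
        push_cast
        ring
  have b7 : E ≤ A ^ 2 * (1 + Real.log Lg) ^ 2 := by
    have c1 : (1 + Real.log (1 + X)) ^ 2 ≤ (1 + 2 * Real.log K + 2 * Real.log Lg) ^ 2 := by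
      apply pow_le_pow_left₀ (by linarith)
      linarith
    have c2 : 1 + (1 + 2 * Real.log K + 2 * Real.log Lg) ^ 2 ≤ (2 + 2 * Real.log K + 2 * Real.log Lg) ^ 2 := by
      have c4 : (2 + 2 * Real.log K + 2 * Real.log Lg) ^ 2 = 1 + (1 + 2 * Real.log K + 2 * Real.log Lg) ^ 2 +
        2 * (1 + 2 * Real.log K + 2 * Real.log Lg) := by ring
      linarith
    have c3 : (2 + 2 * Real.log K + 2 * Real.log Lg) ^ 2 ≤ (A * (1 + Real.log Lg)) ^ 2 := by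
      apply pow_le_pow_left₀ (by linarith)
      rw [hA]
      linarith [mul_nonneg hlK hlL]
    rw [← mul_pow]
    linarith
  have b8 : X ≤ W := by
    have c1 : (K * Lg) ^ 2 ≤ W := by
      calc (K * Lg) ^ 2 = K ^ 2 * Lg ^ 2 := by ring
        _ ≤ C * Lg ^ 2 := mul_le_mul_of_nonneg_right hCK (by positivity)
        _ ≤ W := hCW
    linarith
  have hq : 1 ≤ (1 + Real.log Lg) ^ 2 := one_le_pow₀ (by linarith)
  have b9 : W * (2 * (m : ℝ) ^ 2 * E) + m * X ≤ W * (1 + Real.log Lg) ^ 2 * (2 * (m : ℝ) ^ 2 * A ^ 2 + m) := by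
    have c1 : W * (2 * (m : ℝ) ^ 2 * E) ≤ W * (2 * (m : ℝ) ^ 2 * (A ^ 2 * (1 + Real.log Lg) ^ 2)) := by
      apply mul_le_mul_of_nonneg_left _ hW0
      exact mul_le_mul_of_nonneg_left b7 (by positivity)
    have c2 : m * X ≤ m * (W * (1 + Real.log Lg) ^ 2) := by
      apply mul_le_mul_of_nonneg_left _ (by positivity)
      exact b8.trans (le_mul_of_one_le_right hW0 hq)
    calc W * (2 * (m : ℝ) ^ 2 * E) + m * X
        ≤ W * (2 * (m : ℝ) ^ 2 * (A ^ 2 * (1 + Real.log Lg) ^ 2)) + m * (W * (1 + Real.log Lg) ^ 2) := add_le_add c1 c2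
      _ = W * (1 + Real.log Lg) ^ 2 * (2 * (m : ℝ) ^ 2 * A ^ 2 + m) := by ring
  have b10 : W * (1 + Real.log Lg) ^ 2 * (2 * (m : ℝ) ^ 2 * A ^ 2 + m) ≤ W * (1 + Real.log Lg) ^ 2 * (C / 4) :=
    mul_le_mul_of_nonneg_left (by linarith) (by positivity)
  have b11 : W * (1 + Real.log Lg) ^ 2 * (C / 4) ≤ g / 2 * (C / δ * (1 + Real.log Lg) ^ 2) := by
    have c1 : W / 4 ≤ g / 2 / δ := by
      rw [le_div_iff₀ hδ]
      linarith
    calc W * (1 + Real.log Lg) ^ 2 * (C / 4) = W / 4 * (C * (1 + Real.log Lg) ^ 2) := by ring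
      _ ≤ g / 2 / δ * (C * (1 + Real.log Lg) ^ 2) := mul_le_mul_of_nonneg_right c1 (by positivity)
      _ = g / 2 * (C / δ * (1 + Real.log Lg) ^ 2) := by ring
  exact b9.trans (b10.trans b11)

end Pool.Agent.RL
end

section

/-!
# TASK RL Rf: the rigidity argument, assembly

Notation: `K = H M`, `W = 2M + 1`, `g = |G|`, `J1 = (2m)! K^m`, `J2 = K^m`, `n₀ = card (Fin m → Fin (m+m)) = (2m)^m`, `J = n₀ J1 J2`, `s = log Lg`.

PROOF.  `C` is large, depending on `m`, `C1`: at least the constant `C9` of `R9` (for `C1` and the constant `CB` below), and as needed.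
1. By `R9`, `g ≥ 4m + 4`.  Take `γ`, `P'` from `Rdt`, `ℓ f = (P' f).coeff m`.  `mi A1 f = (mp A0 A1 f).coeff m = γ ℓ f` (`coeff_mp`).  Some `ℓ f ≠ 0`: compare the coefficients
of `X^m` in `comb` (`(X - C T)^m` is monic of degree `m`): `∑ c f * ℓ f = ρ ≠ 0`.
2. Choose `T₀ ≠ T₁` in `G` and `R` from `R3`, `X = log R ≥ 0`, `E = ∑_{p ∣ R} log p / p`.  All `hh P' T ∣ R`, so `1 ≤ hh P' T`, `log (hh P' T) ≥ 0`.  For `T ∈ G \ {T₀, T₁}`:
`X ≤ m log (2M) + 2 log (hh P' T) + 2 log J` (`|T₀ - T₁| ≤ 2M`; `J ≥ 1`).  Let `B = m log (2M) + 2 log J`; `B ≤ CB Lg` with `CB` depending on `m` only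
(`log J = log n₀ + log (2m)! + 2m log (H M)`, `log H ≤ H ≤ 2 Lg`, `log M ≤ Lg`, `log 2 ≤ 1 ≤ Lg`).  Sum over `G \ {T₀, T₁}`:
`(g - 2) X ≤ (g - 2) B + 2 ∑_{T ∈ Icc (-M) M} log (hh P' T)`.
By `R6` and `R7` (with `I = Icc (-M) M`, `|I| = 2M + 1`) `Σ := ∑_{T ∈ I} log (hh P' T) ≤ W (2 m² E) + m X`.  `R8`: `E ≤ 1 + (1 + log (1 + X))²`.  So by `R9`:
`Σ ≤ (g/2) λ`, `λ = (C9/δ) (1 + s)² > 0`.
3. `G' = {T ∈ G | log (hh P' T) ≤ λ}`: the other elements of `G` are at most `Σ / λ ≤ g/2` many, so `|G'| ≥ g/2 ≥ 2m + 2`.  For `T ∈ G'` and all `f`: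
`|(P' f)(T)| ≤ e^λ J1` (`val`).  Let `s₀ = (|G'| - 1) / m` (floor), so `m s₀ + 1 ≤ |G'|`, `s₀ ≥ 1`, and `s₀ ≥ (|G'| - m)/m ≥ |G'|/(2m) ≥ g/(4m) ≥ δ M/(4m)`.  By `R10`:
`|ℓ f| ≤ (2/s₀)^m e^λ (2m)! (H M)^m ≤ e^λ (2m)! (8 m H/δ)^m ≤ e^λ (2m)! (16 m C1 Lg²)^m` (`H ≤ 2 Lg`, `1/δ ≤ C1 Lg`)
`= exp (λ + log ((2m)! (16 m C1)^m) + 2 m s) ≤ exp ((C/δ) (1 + s)²)` because `s ≥ 0` and `δ ≤ 1`.
-/

set_option autoImplicit false

open Finset Polynomial

namespace Pool.Agent.RL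

/-- The constant for `B`. -/
private noncomputable def Rf_CB (m : ℕ) : ℝ :=
  2 * m + 2 * (Real.log (Fintype.card (Fin m → Fin (m + m))) + Real.log ((m + m).factorial) + 6 * m)

private theorem Rf_n0 (m : ℕ) (hm : 1 ≤ m) : 1 ≤ Fintype.card (Fin m → Fin (m + m)) := by
  rw [Fintype.card_fun, Fintype.card_fin, Fintype.card_fin]
  exact Nat.one_le_pow _ _ (by omega)

private theorem Rf_CB_one (m : ℕ) (hm : 1 ≤ m) : 1 ≤ Rf_CB m := by
  have h1 : (1 : ℝ) ≤ m := by exact_mod_cast hm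
  have h2 : 0 ≤ Real.log (Fintype.card (Fin m → Fin (m + m))) :=
    Real.log_nonneg (by exact_mod_cast Rf_n0 m hm)
  have h3 : 0 ≤ Real.log ((m + m).factorial) :=
    Real.log_nonneg (by exact_mod_cast Nat.one_le_iff_ne_zero.2 (Nat.factorial_ne_zero _))
  unfold Rf_CB
  linarith

/-- The bound for `B`. -/
private theorem Rf_B (m : ℕ) (hm : 1 ≤ m) (M H : ℕ) (Lg : ℝ) (hM : 1 ≤ M) (hH : 1 ≤ H) (hLg : 1 ≤ Lg)
    (hHL : (H : ℝ) ≤ 2 * Lg) (hML : Real.log M ≤ Lg) :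
    m * Real.log (2 * M) + 2 * Real.log ((Fintype.card (Fin m → Fin (m + m)) : ℝ) *
      ((m + m).factorial * ((H * M : ℕ) : ℝ) ^ m) * ((H * M : ℕ) : ℝ) ^ m) ≤ Rf_CB m * Lg := by
  have hm0 : (0 : ℝ) ≤ m := Nat.cast_nonneg m
  have hM0 : (0 : ℝ) < M := by exact_mod_cast hM
  have hH0 : (0 : ℝ) < H := by exact_mod_cast hH
  have hn : (1 : ℝ) ≤ (Fintype.card (Fin m → Fin (m + m)) : ℝ) := by exact_mod_cast Rf_n0 m hm
  have hf : (1 : ℝ) ≤ ((m + m).factorial : ℝ) := by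
    exact_mod_cast Nat.one_le_iff_ne_zero.2 (Nat.factorial_ne_zero _)
  have hK : (0 : ℝ) < ((H * M : ℕ) : ℝ) := by
    push_cast
    exact mul_pos hH0 hM0
  have hlogK : Real.log ((H * M : ℕ) : ℝ) ≤ 3 * Lg := by
    push_cast
    rw [Real.log_mul hH0.ne' hM0.ne']
    have := Real.log_le_sub_one_of_pos hH0
    linarith
  have hlog2 : Real.log (2 * M) ≤ 2 * Lg := by
    rw [Real.log_mul (by norm_num) hM0.ne']
    have := Real.log_two_lt_d9
    linarith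
  have hJ : Real.log ((Fintype.card (Fin m → Fin (m + m)) : ℝ) *
      ((m + m).factorial * ((H * M : ℕ) : ℝ) ^ m) * ((H * M : ℕ) : ℝ) ^ m) =
      Real.log (Fintype.card (Fin m → Fin (m + m))) + Real.log ((m + m).factorial) +
        2 * (m * Real.log ((H * M : ℕ) : ℝ)) := by
    rw [Real.log_mul (by positivity) (by positivity), Real.log_mul (by positivity) (by positivity),
      Real.log_mul (by positivity) (by positivity), Real.log_pow]
    ring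
  have hn' := Real.log_nonneg hn
  have hf' := Real.log_nonneg hf
  have h1 := mul_le_mul_of_nonneg_left hlogK hm0
  have h2 := mul_le_mul_of_nonneg_left hlog2 hm0
  have h3 := mul_le_mul_of_nonneg_left hLg hn'
  have h4 := mul_le_mul_of_nonneg_left hLg hf'
  rw [hJ]
  unfold Rf_CB
  nlinarith

/-- The last estimate. -/
private theorem Rf_last (m : ℕ) (hm : 1 ≤ m) (C1 C9 δ Lg : ℝ) (hC1 : 1 ≤ C1) (hLg : 1 ≤ Lg)
    (hδ : 0 < δ) (hδ1 : δ ≤ 1) (hCd : 1 ≤ C1 * δ * Lg) (M H : ℕ) (hM : 1 ≤ M)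
    (hHL : (H : ℝ) ≤ 2 * Lg) (s₀ x : ℝ) (hx : 0 ≤ x) (hs : δ * M / (4 * m) ≤ s₀)
    (h : x * s₀ ^ m ≤ 2 ^ m * (Real.exp (C9 / δ * (1 + Real.log Lg) ^ 2) *
      ((m + m).factorial * ((H * M : ℕ) : ℝ) ^ m))) :
    x ≤ Real.exp ((C9 + (Real.log ((m + m).factorial) + m * Real.log (16 * m * C1) + 2 * m)) / δ *
      (1 + Real.log Lg) ^ 2) := by
  have hm1 : (1 : ℝ) ≤ m := by exact_mod_cast hm
  have hm0 : (0 : ℝ) < m := by linarith
  have hM0 : (0 : ℝ) < M := by exact_mod_cast hM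
  have hf : (1 : ℝ) ≤ ((m + m).factorial : ℝ) := by
    exact_mod_cast Nat.one_le_iff_ne_zero.2 (Nat.factorial_ne_zero _)
  have hH0 : (0 : ℝ) ≤ H := Nat.cast_nonneg H
  have hq : 0 < δ * M / (4 * m) := by positivity
  have hL0 : 0 < Lg := by linarith
  have hs0 : 0 ≤ Real.log Lg := Real.log_nonneg hLg
  -- the bound without logarithms
  have h1 : x * (δ * M / (4 * m)) ^ m ≤ 2 ^ m * (Real.exp (C9 / δ * (1 + Real.log Lg) ^ 2) *
      ((m + m).factorial * ((H * M : ℕ) : ℝ) ^ m)) :=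
    (mul_le_mul_of_nonneg_left (pow_le_pow_left₀ hq.le hs m) hx).trans h
  have h2 : (2 : ℝ) * ((H * M : ℕ) : ℝ) = 8 * m * H / δ * (δ * M / (4 * m)) := by
    push_cast
    field_simp
    ring
  have h3 : 8 * m * H / δ ≤ 16 * m * C1 * Lg ^ 2 := by
    rw [div_le_iff₀ hδ]
    have e1 : (8 : ℝ) * m * H ≤ 8 * m * (2 * Lg) := mul_le_mul_of_nonneg_left hHL (by positivity)
    have e2 : 8 * m * (2 * Lg) * 1 ≤ 8 * m * (2 * Lg) * (C1 * δ * Lg) :=
      mul_le_mul_of_nonneg_left hCd (by positivity)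
    calc (8 : ℝ) * m * H ≤ 8 * m * (2 * Lg) * 1 := by rw [mul_one]; exact e1
      _ ≤ 8 * m * (2 * Lg) * (C1 * δ * Lg) := e2
      _ = 16 * m * C1 * Lg ^ 2 * δ := by ring
  have h4 : x * (δ * M / (4 * m)) ^ m ≤ (Real.exp (C9 / δ * (1 + Real.log Lg) ^ 2) *
      ((m + m).factorial * (16 * m * C1 * Lg ^ 2) ^ m)) * (δ * M / (4 * m)) ^ m := by
    refine h1.trans ?_
    have e1 : (2 : ℝ) ^ m * (Real.exp (C9 / δ * (1 + Real.log Lg) ^ 2) *
        ((m + m).factorial * ((H * M : ℕ) : ℝ) ^ m)) =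
        Real.exp (C9 / δ * (1 + Real.log Lg) ^ 2) * ((m + m).factorial *
          (8 * m * H / δ * (δ * M / (4 * m))) ^ m) := by
      rw [← h2, mul_pow]
      ring
    rw [e1, mul_pow (8 * m * H / δ)]
    have e2 : (8 * m * H / δ) ^ m ≤ (16 * m * C1 * Lg ^ 2) ^ m :=
      pow_le_pow_left₀ (by positivity) h3 m
    have e3 := mul_le_mul_of_nonneg_left e2
      (show 0 ≤ Real.exp (C9 / δ * (1 + Real.log Lg) ^ 2) * ((m + m).factorial : ℝ) *
        (δ * M / (4 * m)) ^ m by positivity)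
    calc Real.exp (C9 / δ * (1 + Real.log Lg) ^ 2) * ((m + m).factorial *
          ((8 * m * H / δ) ^ m * (δ * M / (4 * m)) ^ m))
        = Real.exp (C9 / δ * (1 + Real.log Lg) ^ 2) * ((m + m).factorial : ℝ) *
          (δ * M / (4 * m)) ^ m * (8 * m * H / δ) ^ m := by ring
      _ ≤ Real.exp (C9 / δ * (1 + Real.log Lg) ^ 2) * ((m + m).factorial : ℝ) *
          (δ * M / (4 * m)) ^ m * (16 * m * C1 * Lg ^ 2) ^ m := e3
      _ = _ := by ring
  have h5 := le_of_mul_le_mul_right h4 (pow_pos hq m)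
  refine h5.trans ?_
  have hpos16 : (0 : ℝ) < 16 * m * C1 := by positivity
  have h6 : ((m + m).factorial : ℝ) * (16 * m * C1 * Lg ^ 2) ^ m =
      Real.exp (Real.log ((m + m).factorial) + m * Real.log (16 * m * C1) + 2 * m * Real.log Lg) := by
    rw [Real.exp_add, Real.exp_add, Real.exp_log (by positivity)]
    have e1 : Real.exp (m * Real.log (16 * m * C1)) = (16 * m * C1) ^ m := by
      rw [Real.exp_nat_mul, Real.exp_log hpos16]
    have e2 : Real.exp (2 * m * Real.log Lg) = (Lg ^ 2) ^ m := by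
      rw [show 2 * (m : ℝ) * Real.log Lg = m * (2 * Real.log Lg) by ring, Real.exp_nat_mul]
      congr 1
      rw [two_mul, Real.exp_add, Real.exp_log hL0, sq]
    rw [e1, e2, mul_pow (16 * (m : ℝ) * C1)]
    exact (mul_assoc _ _ _).symm
  rw [h6, ← Real.exp_add]
  refine Real.exp_le_exp.2 ?_
  -- the exponents
  have hD : 0 ≤ Real.log ((m + m).factorial) := Real.log_nonneg hf
  have hE : 0 ≤ Real.log (16 * m * C1) := by
    refine Real.log_nonneg ?_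
    nlinarith
  have hS : 1 ≤ (1 + Real.log Lg) ^ 2 := by nlinarith
  have hS2 : Real.log Lg ≤ (1 + Real.log Lg) ^ 2 := by nlinarith
  have h7 : Real.log ((m + m).factorial) + m * Real.log (16 * m * C1) + 2 * m * Real.log Lg ≤
      (Real.log ((m + m).factorial) + m * Real.log (16 * m * C1) + 2 * m) * (1 + Real.log Lg) ^ 2 := by
    have e1 := mul_le_mul_of_nonneg_left hS hD
    have e2 := mul_le_mul_of_nonneg_left hS (mul_nonneg hm0.le hE)
    have e3 := mul_le_mul_of_nonneg_left hS2 (show 0 ≤ 2 * (m : ℝ) by positivity)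
    nlinarith
  have h8 : (Real.log ((m + m).factorial) + m * Real.log (16 * m * C1) + 2 * m) * (1 + Real.log Lg) ^ 2 ≤
      (Real.log ((m + m).factorial) + m * Real.log (16 * m * C1) + 2 * m) / δ * (1 + Real.log Lg) ^ 2 := by
    refine mul_le_mul_of_nonneg_right ?_ (by positivity)
    rw [le_div_iff₀ hδ]
    have e1 : 0 ≤ Real.log ((m + m).factorial) + m * Real.log (16 * m * C1) + 2 * m := by positivity
    nlinarith
  rw [add_div, add_mul]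
  linarith

theorem Rf (m : ℕ) (hm : 1 ≤ m) (C1 : ℝ) (hC1 : 1 ≤ C1) : ∃ C : ℝ, 1 ≤ C ∧
    ∀ (A0 A1 : Matrix (Fin m) (Fin (m + m)) ℤ) (G : Finset ℤ) (M H : ℕ) (δ Lg : ℝ),
      1 ≤ M → 1 ≤ H → 1 ≤ Lg → 0 < δ → δ ≤ 1 → 1 ≤ C1 * δ * Lg → (H : ℝ) ≤ 2 * Lg →
      Real.log M ≤ Lg → C * Lg ^ 2 ≤ 2 * M + 1 → G ⊆ Finset.Icc (-(M : ℤ)) M →
      δ / 2 * (2 * M + 1) ≤ G.card → (∀ T ∈ G, Hyp A0 A1 (H * M) T) →
      ∃ (γ : ℕ) (ℓ : (Fin m → Fin (m + m)) → ℤ), 1 ≤ γ ∧ (∀ f, mi A1 f = γ * ℓ f) ∧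
        (∃ f, ℓ f ≠ 0) ∧ ∀ f, |(ℓ f : ℝ)| ≤ Real.exp (C / δ * (1 + Real.log Lg) ^ 2) := by
  classical
  have hCB := Rf_CB_one m hm
  obtain ⟨C9, hC9, hR9⟩ := R9 m hm C1 (Rf_CB m) hC1 hCB
  have hm1 : (1 : ℝ) ≤ m := by exact_mod_cast hm
  have hD0 : 0 ≤ Real.log ((m + m).factorial) + m * Real.log (16 * m * C1) + 2 * m := by
    have hf : (1 : ℝ) ≤ ((m + m).factorial : ℝ) := by
      exact_mod_cast Nat.one_le_iff_ne_zero.2 (Nat.factorial_ne_zero _)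
    have e1 := Real.log_nonneg hf
    have e2 : 0 ≤ Real.log (16 * m * C1) := by
      refine Real.log_nonneg ?_
      nlinarith
    positivity
  refine ⟨C9 + (Real.log ((m + m).factorial) + m * Real.log (16 * m * C1) + 2 * m), by linarith, ?_⟩
  intro A0 A1 G M H δ Lg hM hH hLg hδ hδ1 hCd hHL hML hCL hGI hG hHyp
  have hM0 : (0 : ℝ) < M := by exact_mod_cast hM
  have hCL9 : C9 * Lg ^ 2 ≤ 2 * M + 1 := by
    have : 0 ≤ (Real.log ((m + m).factorial) + m * Real.log (16 * m * C1) + 2 * m) * Lg ^ 2 :=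
      mul_nonneg hD0 (sq_nonneg _)
    linarith
  obtain ⟨hg4, hmain⟩ := hR9 G.card (2 * M + 1) Lg δ hLg hδ hδ1 hCd hG hCL9
  have hgN : 4 * m + 4 ≤ G.card := by exact_mod_cast hg4
  have hGne : G.Nonempty := Finset.card_pos.1 (by omega)
  have hK : 1 ≤ H * M := Nat.one_le_iff_ne_zero.2 (Nat.mul_ne_zero (by omega) (by omega))
  obtain ⟨γ, P', hγ, hP', hD⟩ := Rdt A0 A1 hK hGne hHyp
  refine ⟨γ, fun f => (P' f).coeff m, hγ, ?_, ?_, ?_⟩
  · intro f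
    rw [← coeff_mp A0 A1 f, hP', coeff_C_mul]
  · obtain ⟨T, hT⟩ := hGne
    obtain ⟨ρ, c, hρ, -, hc⟩ := hD.comb T hT
    by_contra hcon
    push Not at hcon
    apply hρ
    have h1 := congrArg (fun q : ℤ[X] => q.coeff m) hc
    have hmon : ((X - C T : ℤ[X]) ^ m).coeff m = 1 := by
      have h2 := ((monic_X_sub_C T).pow m).coeff_natDegree
      rwa [(monic_X_sub_C T).natDegree_pow, natDegree_X_sub_C, mul_one] at h2
    simp only [finsetSum_coeff, coeff_C_mul, hcon, mul_zero, Finset.sum_const_zero, hmon,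
      mul_one] at h1
    exact h1.symm
  -- two elements
  obtain ⟨T₀, hT₀, T₁, hT₁, h01⟩ := Finset.one_lt_card.1 (show 1 < G.card by omega)
  obtain ⟨R, hR, hdiv, hRb⟩ := R3 hD hT₀ hT₁ h01
  have hhpos : ∀ T, 1 ≤ hh P' T := fun T =>
    Nat.one_le_iff_ne_zero.2 fun h => hR (Nat.eq_zero_of_zero_dvd (h ▸ hdiv T))
  have hlog : ∀ T, 0 ≤ Real.log (hh P' T) := fun T => Real.log_nonneg (by exact_mod_cast hhpos T)
  have hX0 : 0 ≤ Real.log R :=
    Real.log_nonneg (by exact_mod_cast Nat.one_le_iff_ne_zero.2 hR)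
  have hE0 : 0 ≤ ∑ p ∈ R.primeFactors, Real.log p / p :=
    Finset.sum_nonneg fun p _ => div_nonneg (Real.log_natCast_nonneg p) (Nat.cast_nonneg p)
  have hI : (Finset.Icc (-(M : ℤ)) M).card = 2 * M + 1 := by
    rw [Int.card_Icc]
    omega
  -- the sum of the logarithms
  have hS := R7 hm (Finset.Icc (-(M : ℤ)) M) (hh P') hR (fun T _ => hdiv T)
    (fun p a b hp hb hab => by
      rw [hI]
      exact R6 hD.prim hD.deg hp hb hab M)
  rw [hI] at hS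
  push_cast at hS
  obtain ⟨Sg, hSg⟩ : ∃ Sg, Sg = ∑ T ∈ Finset.Icc (-(M : ℤ)) M, Real.log (hh P' T) := ⟨_, rfl⟩
  rw [← hSg] at hS
  obtain ⟨J, hJ⟩ : ∃ J : ℝ, J = (Fintype.card (Fin m → Fin (m + m)) : ℝ) *
      ((m + m).factorial * ((H * M : ℕ) : ℝ) ^ m) * ((H * M : ℕ) : ℝ) ^ m := ⟨_, rfl⟩
  have hJ0 : 0 < J := by
    rw [hJ]
    have e1 : (0 : ℝ) < (Fintype.card (Fin m → Fin (m + m)) : ℝ) := by exact_mod_cast Rf_n0 m hm
    have e2 : (0 : ℝ) < ((H * M : ℕ) : ℝ) := by exact_mod_cast hK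
    have e3 : (0 : ℝ) < ((m + m).factorial : ℝ) := by exact_mod_cast Nat.factorial_pos _
    positivity
  have hB := Rf_B m hm M H Lg hM hH hLg hHL hML
  rw [← hJ] at hB
  have hpt : ∀ T ∈ (G.erase T₀).erase T₁,
      Real.log R ≤ (m * Real.log (2 * M) + 2 * Real.log J) + 2 * Real.log (hh P' T) := by
    intro T hT
    rw [Finset.mem_erase, Finset.mem_erase] at hT
    have h1 := hRb T hT.2.2 hT.2.1 hT.1
    rw [← hJ] at h1
    have hT01 : (1 : ℝ) ≤ |((T₀ - T₁ : ℤ) : ℝ)| := by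
      have : 1 ≤ |T₀ - T₁| := Int.one_le_abs (sub_ne_zero.2 h01)
      rw [← Int.cast_abs]
      exact_mod_cast this
    have hT2M : |((T₀ - T₁ : ℤ) : ℝ)| ≤ 2 * M := by
      have e1 := Finset.mem_Icc.1 (hGI hT₀)
      have e2 := Finset.mem_Icc.1 (hGI hT₁)
      have : |T₀ - T₁| ≤ 2 * (M : ℤ) := by
        rw [abs_le]
        constructor <;> linarith [e1.1, e1.2, e2.1, e2.2]
      rw [← Int.cast_abs]
      exact_mod_cast this
    have hh0 : (0 : ℝ) < hh P' T := by exact_mod_cast hhpos T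
    have hR0 : (0 : ℝ) < R := by exact_mod_cast Nat.pos_of_ne_zero hR
    have h2 := Real.log_le_log hR0 h1
    rw [Real.log_mul (by positivity) (by positivity), Real.log_pow, Real.log_pow,
      Real.log_mul hh0.ne' hJ0.ne'] at h2
    have h3 := mul_le_mul_of_nonneg_left (Real.log_le_log (by linarith) hT2M)
      (Nat.cast_nonneg (α := ℝ) m)
    rw [Nat.cast_ofNat] at h2
    linarith
  have hcard : (((G.erase T₀).erase T₁).card : ℝ) = G.card - 2 := by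
    have e1 : T₁ ∈ G.erase T₀ := Finset.mem_erase.2 ⟨fun h => h01 h.symm, hT₁⟩
    have e2 := Finset.card_erase_add_one e1
    have e3 := Finset.card_erase_add_one hT₀
    have e4 : ((G.erase T₀).erase T₁).card + 2 = G.card := by omega
    rw [← e4]
    push_cast
    ring
  have hsum : (G.card - 2 : ℝ) * Real.log R ≤
      (G.card - 2) * (m * Real.log (2 * M) + 2 * Real.log J) + 2 * Sg := by
    have h1 := Finset.sum_le_sum hpt
    rw [Finset.sum_const, Finset.sum_add_distrib, Finset.sum_const, nsmul_eq_mul, nsmul_eq_mul, hcard,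
      ← Finset.mul_sum] at h1
    have h2 : ∑ T ∈ (G.erase T₀).erase T₁, Real.log (hh P' T) ≤ Sg := by
      rw [hSg]
      refine Finset.sum_le_sum_of_subset_of_nonneg ?_ fun T _ _ => hlog T
      exact ((Finset.erase_subset _ _).trans (Finset.erase_subset _ _)).trans hGI
    linarith
  have hfin := hmain (Real.log R) (∑ p ∈ R.primeFactors, Real.log p / p)
    (m * Real.log (2 * M) + 2 * Real.log J) hX0 hE0 (R8 hR) hB (by linarith)
  obtain ⟨lam, hlam⟩ : ∃ lam : ℝ, lam = C9 / δ * (1 + Real.log Lg) ^ 2 := ⟨_, rfl⟩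
  rw [← hlam] at hfin
  have hs0 : 0 ≤ Real.log Lg := Real.log_nonneg hLg
  have hlam0 : 0 < lam := by
    rw [hlam]
    positivity
  have hSgle : Sg ≤ G.card / 2 * lam := by linarith
  -- the good elements
  have hbad : ((G.filter fun T => ¬ Real.log (hh P' T) ≤ lam).card : ℝ) ≤ G.card / 2 := by
    have h1 : ∑ T ∈ G.filter (fun T => ¬ Real.log (hh P' T) ≤ lam), lam ≤ Sg := by
      have h2 : ∑ T ∈ G.filter (fun T => ¬ Real.log (hh P' T) ≤ lam), lam ≤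
          ∑ T ∈ G.filter (fun T => ¬ Real.log (hh P' T) ≤ lam), Real.log (hh P' T) :=
        Finset.sum_le_sum fun T hT => (not_le.1 (Finset.mem_filter.1 hT).2).le
      refine h2.trans ?_
      rw [hSg]
      exact Finset.sum_le_sum_of_subset_of_nonneg ((Finset.filter_subset _ _).trans hGI)
        fun T _ _ => hlog T
    rw [Finset.sum_const, nsmul_eq_mul] at h1
    exact le_of_mul_le_mul_right (h1.trans hSgle) hlam0
  have hsplit := Finset.card_filter_add_card_filter_not (s := G) (fun T => Real.log (hh P' T) ≤ lam)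
  obtain ⟨G', hG'⟩ : ∃ G', G' = G.filter fun T => Real.log (hh P' T) ≤ lam := ⟨_, rfl⟩
  rw [← hG'] at hsplit
  have hG'card : (G.card : ℝ) / 2 ≤ G'.card := by
    have : (G'.card : ℝ) + (G.filter fun T => ¬ Real.log (hh P' T) ≤ lam).card = G.card := by
      exact_mod_cast hsplit
    linarith
  have hG'2 : 2 * m + 2 ≤ G'.card := by
    have : (2 * m + 2 : ℝ) ≤ G'.card := by linarith
    exact_mod_cast this
  intro f
  have hval : ∀ T ∈ G', |(((P' f).eval T : ℤ) : ℝ)| ≤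
      Real.exp lam * ((m + m).factorial * ((H * M : ℕ) : ℝ) ^ m) := by
    intro T hT
    rw [hG', Finset.mem_filter] at hT
    refine (hD.val T hT.1 f).trans (mul_le_mul_of_nonneg_right ?_ (by positivity))
    have hh0 : (0 : ℝ) < hh P' T := by exact_mod_cast hhpos T
    rw [← Real.log_le_iff_le_exp hh0]
    exact hT.2
  have hs1 : 1 ≤ (G'.card - 1) / m := by
    rw [Nat.one_le_div_iff (by omega)]
    omega
  have hs2 : m * ((G'.card - 1) / m) + 1 ≤ G'.card := by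
    have := Nat.mul_div_le (G'.card - 1) m
    omega
  have hs3 : G'.card ≤ m * ((G'.card - 1) / m) + m := by
    have := Nat.lt_mul_div_succ (G'.card - 1) (show 0 < m by omega)
    rw [mul_add, mul_one] at this
    omega
  have hR10 := R10 m (P' f) (hD.deg f) G' _ _ hs1 hs2 hval
  rw [hlam] at hR10
  refine Rf_last m hm C1 C9 δ Lg hC1 hLg hδ hδ1 hCd M H hM hHL (((G'.card - 1) / m : ℕ) : ℝ) _
    (abs_nonneg _) ?_ hR10
  have e1 : (G'.card : ℝ) ≤ m * (((G'.card - 1) / m : ℕ) : ℝ) + m := by exact_mod_cast hs3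
  have e2 : (2 * m + 2 : ℝ) ≤ G'.card := by exact_mod_cast hG'2
  rw [div_le_iff₀ (by positivity)]
  nlinarith

end Pool.Agent.RL
end
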