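import Pool.Agent.Lib.MP_6f2296_co.Mg.G012
import Pool.Agent.Lib.MP_6f2296_co.Mg.G009
import Pool.Agent.Lib.MP_6f2296_co.Mg.G011

section

/-!
# TASK RL Cn: the number of perpendicular pairs

PROOF of `Cn_term`.  Let `D = 2 d + 2`, `μ = nm y`, `a = rk (Mo v y)`, `b = rk (Po v y)`; `a + b ≤ d` (`rk_add_le`, `Mo_Po_inter`).  By `Pmin` all
nonzero vectors of `Mo v y` and of `Po v y` have norm at least `μ`, `1 ≤ μ ≤ R`.
(i) If `a + b ≤ d - 1` then `Pk_min` gives `cnt * cnt ≤ (D R/μ)^(a+b) ≤ (D R/μ)^(d-1)`.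
(ii) Otherwise `a + b = d`, so (not `Exc`) `a = b =: m`, `d = 2 m`, `m ≥ 1`.  If `y ∈ SH v H` then `cnt * cnt ≤ (D R/μ)^d` by `Pk_min`.  If
`y ∉ SH v H` then `rk {z | z ∈ Mo v y ∧ nm z ≤ H μ} < m`, so by `Pk_unbal` and `Pk_min`
`cnt (Mo v y) R ≤ D^(2m) (R/μ)^m (1/H + μ/R)`, `cnt (Po v y) R ≤ D^m (R/μ)^m`, and the product is at most
`D^(3m) ((R/μ)^d / H + (R/μ)^(d-1))`.
In all cases the product is at most the right side (`D^(3m) ≤ D^(2d)`, all summands are nonnegative).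

PROOF of `Cn_main`.  Sum `Cn_term` over the `y` of `Cn_dec` (they are nonzero), with `shell1`, `shell2` and `(1 + log R)/H ≤ 1`; the sum of the
last terms is `D^(2d) R^d SS (SH v H) R`; `2 (4R+1)^d ≤ 2 * 5^d R^d`.  So
`C = 2 * 5^d + 2 D^(2d) (2 * (2 d 3^d) + 1)` works.
-/

set_option autoImplicit false

open Finset

namespace Pool.Agent.RL

variable {d : ℕ}

private theorem Cn_aux1 {D ρ : ℝ} (hD : 2 ≤ D) (hρ : 1 ≤ ρ) {a b d : ℕ} (hd : 1 ≤ d)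
    (hab : a + b ≤ d - 1) {x y : ℝ} (_hx0 : 0 ≤ x) (hy0 : 0 ≤ y) (hx : x ≤ (D * ρ) ^ a)
    (hy : y ≤ (D * ρ) ^ b) : x * y ≤ D ^ (2 * d) * ρ ^ (d - 1) := by
  have hB : 1 ≤ D * ρ := by nlinarith
  have h1 : x * y ≤ (D * ρ) ^ a * (D * ρ) ^ b := mul_le_mul hx hy hy0 (by positivity)
  rw [← pow_add] at h1
  have h2 : (D * ρ) ^ (a + b) ≤ (D * ρ) ^ (d - 1) := pow_le_pow_right₀ hB hab
  have h3 : D ^ (d - 1) ≤ D ^ (2 * d) := pow_le_pow_right₀ (by linarith) (by omega)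
  calc x * y ≤ (D * ρ) ^ (d - 1) := h1.trans h2
    _ = D ^ (d - 1) * ρ ^ (d - 1) := mul_pow _ _ _
    _ ≤ D ^ (2 * d) * ρ ^ (d - 1) := mul_le_mul_of_nonneg_right h3 (by positivity)

private theorem Cn_aux2 {D ρ : ℝ} (hD : 2 ≤ D) (hρ : 1 ≤ ρ) {m d : ℕ}
    (hd : d = 2 * m) {x y : ℝ} (hy0 : 0 ≤ y) (hx : x ≤ (D * ρ) ^ m)
    (hy : y ≤ (D * ρ) ^ m) : x * y ≤ D ^ (2 * d) * ρ ^ d := by
  have h1 : x * y ≤ (D * ρ) ^ m * (D * ρ) ^ m := mul_le_mul hx hy hy0 (by positivity)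
  rw [← pow_add, mul_pow] at h1
  have h2 : m + m = d := by omega
  rw [h2] at h1
  have h3 : D ^ d ≤ D ^ (2 * d) := pow_le_pow_right₀ (by linarith) (by omega)
  exact h1.trans (mul_le_mul_of_nonneg_right h3 (by positivity))

private theorem Cn_aux3 {D ρ : ℝ} (hD : 2 ≤ D) (hρ : 1 ≤ ρ) {m d : ℕ} (hm : 1 ≤ m)
    (hd : d = 2 * m) {x y h : ℝ} (hh : 0 < h) (hy0 : 0 ≤ y)
    (hx : x ≤ D ^ (2 * m) * ρ ^ m * (1 / h + ρ⁻¹)) (hy : y ≤ (D * ρ) ^ m) :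
    x * y ≤ D ^ (2 * d) * (ρ ^ (d - 1) + ρ ^ d / h) := by
  have hρ0 : 0 < ρ := by linarith
  have h1 : x * y ≤ D ^ (2 * m) * ρ ^ m * (1 / h + ρ⁻¹) * (D * ρ) ^ m :=
    mul_le_mul hx hy hy0 (by positivity)
  have h2 : D ^ (2 * m) * ρ ^ m * (1 / h + ρ⁻¹) * (D * ρ) ^ m =
      D ^ (3 * m) * (ρ ^ (d - 1) + ρ ^ d / h) := by
    have e1 : ρ ^ d = ρ ^ m * ρ ^ m := by
      rw [← pow_add]
      congr 1
      omega
    have e2 : ρ ^ (d - 1) = ρ ^ m * ρ ^ m * ρ⁻¹ := by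
      rw [← e1]
      have e3 : ρ ^ d = ρ ^ (d - 1) * ρ := by
        rw [← pow_succ]
        congr 1
        omega
      rw [e3, mul_assoc, mul_inv_cancel₀ hρ0.ne', mul_one]
    have e4 : D ^ (3 * m) = D ^ (2 * m) * D ^ m := by
      rw [← pow_add]
      congr 1
      omega
    rw [e1, e2, e4, mul_pow]
    ring
  have h3 : D ^ (3 * m) ≤ D ^ (2 * d) := pow_le_pow_right₀ (by linarith) (by omega)
  rw [h2] at h1
  exact h1.trans (mul_le_mul_of_nonneg_right h3 (by positivity))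

open Classical in
theorem Cn_term {v : Fin d → ℂ} (hv : LinearIndependent ℚ v) (hd : 1 ≤ d) {R H : ℕ} (hH : 1 ≤ H)
    {y : Fin d → ℤ} (hy : nm y ≤ R) (hP : Pmin v y) (hE : ¬ Exc v y) :
    (cnt (Mo v y : Set (Fin d → ℤ)) R * cnt (Po v y : Set (Fin d → ℤ)) R : ℝ) ≤
      (2 * d + 2) ^ (2 * d) * (((R : ℝ) / nm y) ^ (d - 1) + ((R : ℝ) / nm y) ^ d / H +
        if y ∈ SH v H then ((R : ℝ) / nm y) ^ d else 0) := by
  have hy0 : y ≠ 0 := hP.1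
  have hμ : 1 ≤ nm y := nm_pos hy0
  have hμ' : (1 : ℝ) ≤ nm y := by exact_mod_cast hμ
  have hRμ : (nm y : ℝ) ≤ R := by exact_mod_cast hy
  have hρ : 1 ≤ (R : ℝ) / nm y := by
    rw [le_div_iff₀ (by linarith)]
    linarith
  have hD : (2 : ℝ) ≤ 2 * d + 2 := by
    have : (0 : ℝ) ≤ d := Nat.cast_nonneg d
    linarith
  have hH' : (1 : ℝ) ≤ H := by exact_mod_cast hH
  have hMo : ∀ x ∈ Mo v y, x ≠ 0 → nm y ≤ nm x := fun x hx hx0 => hP.2 x hx0 (Or.inl hx)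
  have hPo : ∀ x ∈ Po v y, x ≠ 0 → nm y ≤ nm x := fun x hx hx0 => hP.2 x hx0 (Or.inr hx)
  have hab : rk (Mo v y : Set (Fin d → ℤ)) + rk (Po v y : Set (Fin d → ℤ)) ≤ d :=
    rk_add_le _ _ fun x h1 h2 => Mo_Po_inter hv hy0 h1 h2
  have hc1 : (0 : ℝ) ≤ cnt (Mo v y : Set (Fin d → ℤ)) R := Nat.cast_nonneg _
  have hc2 : (0 : ℝ) ≤ cnt (Po v y : Set (Fin d → ℤ)) R := Nat.cast_nonneg _
  have hite : (0 : ℝ) ≤ if y ∈ SH v H then ((R : ℝ) / nm y) ^ d else 0 := by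
    split_ifs
    · positivity
    · exact le_rfl
  have hDp : (0 : ℝ) ≤ (2 * d + 2) ^ (2 * d) := by positivity
  have hq1 : (0 : ℝ) ≤ ((R : ℝ) / nm y) ^ (d - 1) := by positivity
  have hq2 : (0 : ℝ) ≤ ((R : ℝ) / nm y) ^ d / H := by positivity
  by_cases hcase : rk (Mo v y : Set (Fin d → ℤ)) + rk (Po v y : Set (Fin d → ℤ)) ≤ d - 1
  · have h1 := Cn_aux1 hD hρ hd hcase hc1 hc2 (Pk_min (Mo v y) hμ hMo hy le_rfl)
      (Pk_min (Po v y) hμ hPo hy le_rfl)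
    refine h1.trans (mul_le_mul_of_nonneg_left ?_ hDp)
    linarith
  · have hsum : rk (Mo v y : Set (Fin d → ℤ)) + rk (Po v y : Set (Fin d → ℤ)) = d := by omega
    have heq : rk (Mo v y : Set (Fin d → ℤ)) = rk (Po v y : Set (Fin d → ℤ)) := by
      by_contra hne
      exact hE ⟨hsum, hne⟩
    obtain ⟨m, hm⟩ : ∃ m, m = rk (Mo v y : Set (Fin d → ℤ)) := ⟨_, rfl⟩
    have hm2 : rk (Po v y : Set (Fin d → ℤ)) = m := by omega
    have hdm : d = 2 * m := by omega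
    have hm1 : 1 ≤ m := by omega
    have hp1 := Pk_min (Mo v y) hμ hMo hy hm.ge
    have hp2 := Pk_min (Po v y) hμ hPo hy hm2.le
    by_cases hS : y ∈ SH v H
    · have h1 := Cn_aux2 hD hρ hdm hc2 hp1 hp2
      rw [if_pos hS] at hite ⊢
      refine h1.trans (mul_le_mul_of_nonneg_left ?_ hDp)
      linarith
    · have hb : rk {z : Fin d → ℤ | z ∈ Mo v y ∧ nm z ≤ H * nm y} < m := by
        by_contra hge
        apply hS
        refine ⟨hy0, ?_⟩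
        have h2 : m ≤ rk {z : Fin d → ℤ | z ∈ Mo v y ∧ nm z ≤ H * nm y} := Nat.le_of_not_lt hge
        omega
      have h1 := Pk_unbal (Mo v y) hμ hMo hH hy hm.ge hb
      have h2 : (nm y : ℝ) / R = ((R : ℝ) / nm y)⁻¹ := by rw [inv_div]
      rw [h2] at h1
      have h3 := Cn_aux3 hD hρ hm1 hdm (by linarith : (0 : ℝ) < H) hc2 h1 hp2
      rw [if_neg hS]
      refine h3.trans (mul_le_mul_of_nonneg_left ?_ hDp)
      linarith

theorem Cn_main (d : ℕ) (hd : 1 ≤ d) : ∃ C : ℝ, 1 ≤ C ∧ ∀ v : Fin d → ℂ, LinearIndependent ℚ v →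
    ∀ R H : ℕ, 1 ≤ R → 1 + Real.log R ≤ H →
      (Zp v R : ℝ) ≤ C * (R : ℝ) ^ d * (1 + SS (SH v H) R) := by
  classical
  have h5 : (1 : ℝ) ≤ 5 ^ d := one_le_pow₀ (by norm_num)
  refine ⟨2 * 5 ^ d + 2 * (2 * d + 2) ^ (2 * d) * (2 * (2 * d * 3 ^ d) + 1), ?_, ?_⟩
  · have h1 : (0 : ℝ) ≤ 2 * (2 * d + 2) ^ (2 * d) * (2 * (2 * d * 3 ^ d) + 1) := by positivity
    linarith
  intro v hv R H hR hH
  have hR' : (1 : ℝ) ≤ R := by exact_mod_cast hR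
  have hlog : 0 ≤ Real.log R := Real.log_nonneg hR'
  have hHpos : (0 : ℝ) < H := by linarith
  have hH1 : 1 ≤ H := by exact_mod_cast (by linarith : (1 : ℝ) ≤ H)
  have hdec := Cn_dec hv R
  have hdec' : (Zp v R : ℝ) ≤ 2 * (4 * R + 1) ^ d +
      ∑ y ∈ (Bx d R).filter fun y => Pmin v y ∧ ¬ Exc v y,
        2 * ((cnt (Mo v y : Set (Fin d → ℤ)) R : ℝ) * cnt (Po v y : Set (Fin d → ℤ)) R) := by
    exact_mod_cast hdec
  have hterm : ∀ y ∈ (Bx d R).filter (fun y => Pmin v y ∧ ¬ Exc v y),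
      2 * ((cnt (Mo v y : Set (Fin d → ℤ)) R : ℝ) * cnt (Po v y : Set (Fin d → ℤ)) R) ≤
      2 * ((2 * d + 2) ^ (2 * d) * (((R : ℝ) / nm y) ^ (d - 1) + ((R : ℝ) / nm y) ^ d / H +
        if y ∈ SH v H then ((R : ℝ) / nm y) ^ d else 0)) := by
    intro y hy
    rw [Finset.mem_filter] at hy
    have h1 := Cn_term hv hd hH1 (mem_Bx.1 hy.1) hy.2.1 hy.2.2
    linarith
  have hsum := Finset.sum_le_sum hterm
  have hsub : ∑ y ∈ (Bx d R).filter (fun y => Pmin v y ∧ ¬ Exc v y),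
      2 * ((2 * d + 2 : ℝ) ^ (2 * d) * (((R : ℝ) / nm y) ^ (d - 1) + ((R : ℝ) / nm y) ^ d / H +
        if y ∈ SH v H then ((R : ℝ) / nm y) ^ d else 0)) ≤
      ∑ y ∈ (Bx d R).filter (fun y => y ≠ 0),
      2 * ((2 * d + 2 : ℝ) ^ (2 * d) * (((R : ℝ) / nm y) ^ (d - 1) + ((R : ℝ) / nm y) ^ d / H +
        if y ∈ SH v H then ((R : ℝ) / nm y) ^ d else 0)) := by
    apply Finset.sum_le_sum_of_subset_of_nonneg
    · intro y hy
      rw [Finset.mem_filter] at hy ⊢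
      exact ⟨hy.1, hy.2.1.1⟩
    · intro y _ _
      have hite : (0 : ℝ) ≤ if y ∈ SH v H then ((R : ℝ) / nm y) ^ d else 0 := by
        split_ifs
        · positivity
        · exact le_rfl
      positivity
  have hsplit : ∑ y ∈ (Bx d R).filter (fun y => y ≠ 0),
      2 * ((2 * d + 2 : ℝ) ^ (2 * d) * (((R : ℝ) / nm y) ^ (d - 1) + ((R : ℝ) / nm y) ^ d / H +
        if y ∈ SH v H then ((R : ℝ) / nm y) ^ d else 0)) =
      2 * (2 * d + 2 : ℝ) ^ (2 * d) *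
        (∑ y ∈ (Bx d R).filter (fun y => y ≠ 0), ((R : ℝ) / nm y) ^ (d - 1) +
        (∑ y ∈ (Bx d R).filter (fun y => y ≠ 0), ((R : ℝ) / nm y) ^ d) / H +
        ∑ y ∈ (Bx d R).filter (fun y => y ≠ 0), if y ∈ SH v H then ((R : ℝ) / nm y) ^ d else 0) := by
    rw [Finset.sum_div, ← Finset.sum_add_distrib, ← Finset.sum_add_distrib, Finset.mul_sum]
    refine Finset.sum_congr rfl fun y _ => ?_
    ring
  have hS3 : (∑ y ∈ (Bx d R).filter (fun y => y ≠ 0),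
      if y ∈ SH v H then ((R : ℝ) / nm y) ^ d else 0) = (R : ℝ) ^ d * SS (SH v H) R := by
    unfold SS
    rw [← Finset.sum_filter, Finset.filter_filter, Finset.mul_sum]
    refine Finset.sum_congr ?_ fun y _ => ?_
    · ext y
      simp only [Finset.mem_filter]
      constructor
      · rintro ⟨h1, _, h3⟩
        exact ⟨h1, h3⟩
      · rintro ⟨h1, h3⟩
        exact ⟨h1, h3.1, h3⟩
    · rw [div_pow, div_eq_mul_inv]
  have hS1 := shell1 d R hd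
  have hS2 := shell2 d R hd hR
  have hS2' : (∑ y ∈ (Bx d R).filter (fun y => y ≠ 0), ((R : ℝ) / nm y) ^ d) / H ≤
      2 * d * 3 ^ d * (R : ℝ) ^ d := by
    rw [div_le_iff₀ hHpos]
    refine hS2.trans ?_
    exact mul_le_mul_of_nonneg_left hH (by positivity)
  have hSS : 0 ≤ SS (SH v H) R := by
    unfold SS
    apply Finset.sum_nonneg
    intro y _
    positivity
  have h4R : (2 : ℝ) * (4 * R + 1) ^ d ≤ 2 * 5 ^ d * (R : ℝ) ^ d := by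
    rw [mul_assoc, ← mul_pow]
    apply mul_le_mul_of_nonneg_left _ (by norm_num)
    exact pow_le_pow_left₀ (by linarith) (by linarith) d
  have hRd : (0 : ℝ) ≤ (R : ℝ) ^ d := by positivity
  have hDD : (0 : ℝ) ≤ 2 * (2 * d + 2 : ℝ) ^ (2 * d) := by positivity
  have hA : (0 : ℝ) ≤ 2 * d * 3 ^ d := by positivity
  have hfin : 2 * (2 * d + 2 : ℝ) ^ (2 * d) *
        (∑ y ∈ (Bx d R).filter (fun y => y ≠ 0), ((R : ℝ) / nm y) ^ (d - 1) +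
        (∑ y ∈ (Bx d R).filter (fun y => y ≠ 0), ((R : ℝ) / nm y) ^ d) / H +
        ∑ y ∈ (Bx d R).filter (fun y => y ≠ 0), if y ∈ SH v H then ((R : ℝ) / nm y) ^ d else 0) ≤
      2 * (2 * d + 2 : ℝ) ^ (2 * d) * (2 * d * 3 ^ d * (R : ℝ) ^ d + 2 * d * 3 ^ d * (R : ℝ) ^ d +
        (R : ℝ) ^ d * SS (SH v H) R) := by
    rw [hS3]
    apply mul_le_mul_of_nonneg_left _ hDD
    linarith
  have htot : (Zp v R : ℝ) ≤ 2 * 5 ^ d * (R : ℝ) ^ d + 2 * (2 * d + 2 : ℝ) ^ (2 * d) *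
      (2 * d * 3 ^ d * (R : ℝ) ^ d + 2 * d * 3 ^ d * (R : ℝ) ^ d + (R : ℝ) ^ d * SS (SH v H) R) := by
    have h6 := (hsum.trans hsub).trans (hsplit.le.trans hfin)
    linarith
  refine htot.trans ?_
  have e1 : (0 : ℝ) ≤ 2 * 5 ^ d * (R : ℝ) ^ d * SS (SH v H) R := by positivity
  have e2 : (0 : ℝ) ≤ 2 * (2 * d + 2 : ℝ) ^ (2 * d) * (R : ℝ) ^ d := by positivity
  have e3 : (0 : ℝ) ≤ 2 * (2 * d + 2 : ℝ) ^ (2 * d) * (2 * (2 * d * 3 ^ d)) * (R : ℝ) ^ d *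
      SS (SH v H) R := by positivity
  nlinarith

end Pool.Agent.RL
end

section

/-!
# TASK RL AsmA: few distances give a dense scale

Notation: `n = |A|`, `D = numDist A`, `R = 4N`, `Lg = 1 + log (4N)`, `H = ⌈Lg⌉₊`, `S = SH v H`.

PROOF of `AsmA0`.  `N ≥ 1` (otherwise all points are `L v 0 = 0`, and `|A| ≥ 2`).  By `Ds` and `Cn_main` (with the constant `C2`; `1 + log R ≤ H`)
`(n - 1)² ≤ D (C2 (4N)^d (1 + SS S R) + 2 (8N+1)^d)`, `(8N+1)^d ≤ (9N)^d`, `SS ≥ 0`, and `n - 1 ≥ n/2`, `N^d ≤ n/κ`.  So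
`n²/4 ≤ D (C2 4^d + 2 * 9^d) (n/κ) (1 + SS S R)`.  `C = 4 (C2 4^d + 2 * 9^d)/κ` (and at least `1`).

PROOF of `AsmA`.  `D ≥ 1` (`|A| ≥ 2`: the set `A.offDiag` is nonempty).  Let `C4` be the constant of `AsmA0`, `Cs` that of `Sc1`.
(a) `Sc1` with `δ = 1`, `M0 = 1` (`cnt_le`): `SS S R ≤ Cs + Cs Lg`, so `n ≤ C4 D (1 + 2 Cs Lg) ≤ C D Lg`.
(b) Suppose `n > C D (1 + log Lg)²` with a large `C`.  Let `C6 = 4 C4 Cs`, `δ = n / (C6 D Lg)`, `M0 = ⌈C5 Lg²⌉₊ ≤ 2 C5 Lg²`.  If all `M ∈ [M0, R]` had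
`cnt S M ≤ δ (2M+1)^d` then by `Sc1` `SS S R ≤ Cs (1 + log M0) + Cs δ Lg`; `Cs δ Lg = n/(4 C4 D)`,
`Cs (1 + log M0) ≤ Cs (1 + log (2 C5) + 2 log Lg) ≤ C7 (1 + log Lg)²`.  So `1 + SS S R ≤ (1 + C7) (1 + log Lg)² + n/(4 C4 D) < (1 + C7) n/(C D) + n/(4 C4 D) ≤ n/(2 C4 D)`
if `C ≥ 4 C4 (1 + C7)`, a contradiction to `n ≤ C4 D (1 + SS S R)`.  So there is `M ∈ [M0, R]` with `cnt S M > δ (2M+1)^d`.  `δ ≤ 1` by `cnt_le`;
`δ Lg = n/(C6 D) ≥ (C/C6) (1 + log Lg)² ≥ 1` if `C ≥ C6`; `n = C6 δ Lg D ≤ C δ Lg D`; `C5 Lg² ≤ M0 ≤ M`; `δ (2M+1) ≥ δ C5 Lg² ≥ C5 Lg ≥ C5` (`δ Lg ≥ 1`).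
-/

set_option autoImplicit false

open Finset

namespace Pool.Agent.RL

theorem AsmA0 (d : ℕ) (hd : 1 ≤ d) (κ : ℝ) (hκ : 0 < κ) : ∃ C : ℝ, 1 ≤ C ∧
    ∀ v : Fin d → ℂ, LinearIndependent ℚ v → ∀ (N : ℕ) (A : Finset ℂ),
      (∀ z ∈ A, ∃ x, nm x ≤ N ∧ z = L v x) → κ * (N : ℝ) ^ d ≤ A.card → 2 ≤ A.card →
      1 ≤ N ∧ ((A.card : ℝ) ≤ C * numDist A *
        (1 + SS (SH v ⌈1 + Real.log ((4 * N : ℕ) : ℝ)⌉₊) (4 * N))) := by
  obtain ⟨C2, hC2, hCn⟩ := Cn_main d hd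
  refine ⟨max 1 (4 * (C2 * 4 ^ d + 2 * 9 ^ d) / κ), le_max_left _ _, ?_⟩
  intro v hv N A hA hn h2
  have hN : 1 ≤ N := by
    by_contra hcon
    have hN0 : N = 0 := by omega
    have hsub : A ⊆ {0} := by
      intro z hz
      obtain ⟨x, hx, hzx⟩ := hA z hz
      have hx0 : x = 0 := by
        by_contra hne
        have := nm_pos hne
        omega
      rw [hzx, hx0, L_zero]
      exact Finset.mem_singleton_self _
    have := Finset.card_le_card hsub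
    rw [Finset.card_singleton] at this
    omega
  refine ⟨hN, ?_⟩
  have hDs := Ds v N A hA (by omega)
  have hcn := hCn v hv (4 * N) ⌈1 + Real.log ((4 * N : ℕ) : ℝ)⌉₊ (by omega) (Nat.le_ceil _)
  obtain ⟨s, hs⟩ : ∃ s, s = SS (SH v ⌈1 + Real.log ((4 * N : ℕ) : ℝ)⌉₊) (4 * N) := ⟨_, rfl⟩
  have hs0 : 0 ≤ s := by
    rw [hs]
    unfold SS
    exact Finset.sum_nonneg fun y _ => by positivity
  rw [← hs] at hcn ⊢
  obtain ⟨n, hn'⟩ : ∃ n : ℝ, n = (A.card : ℝ) := ⟨_, rfl⟩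
  obtain ⟨D, hD⟩ : ∃ D : ℝ, D = (numDist A : ℝ) := ⟨_, rfl⟩
  obtain ⟨Z, hZ⟩ : ∃ Z : ℝ, Z = (Zp v (4 * N) : ℝ) := ⟨_, rfl⟩
  have hn2 : 2 ≤ n := by rw [hn']; exact_mod_cast h2
  have hD0 : 0 ≤ D := by rw [hD]; positivity
  have hN1 : (1 : ℝ) ≤ N := by exact_mod_cast hN
  rw [← hn', ← hD, ← hZ] at hDs
  rw [← hn'] at hn
  rw [← hZ] at hcn
  rw [← hn', ← hD]
  have hNd : (0 : ℝ) ≤ (N : ℝ) ^ d := by positivity
  have h4 : (((4 * N : ℕ)) : ℝ) ^ d = 4 ^ d * (N : ℝ) ^ d := by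
    push_cast
    rw [mul_pow]
  rw [h4] at hcn
  have h8 : ((8 : ℝ) * N + 1) ^ d ≤ 9 ^ d * (N : ℝ) ^ d := by
    rw [← mul_pow]
    exact pow_le_pow_left₀ (by positivity) (by linarith) d
  have hB0 : 0 ≤ C2 * 4 ^ d + 2 * 9 ^ d := by positivity
  have h5 : Z + 2 * ((8 : ℝ) * N + 1) ^ d ≤ (C2 * 4 ^ d + 2 * 9 ^ d) * (N : ℝ) ^ d * (1 + s) := by
    have h6 : 9 ^ d * (N : ℝ) ^ d ≤ 9 ^ d * (N : ℝ) ^ d * (1 + s) :=
      le_mul_of_one_le_right (by positivity) (by linarith)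
    calc Z + 2 * ((8 : ℝ) * N + 1) ^ d ≤ C2 * (4 ^ d * (N : ℝ) ^ d) * (1 + s) + 2 * (9 ^ d * (N : ℝ) ^ d * (1 + s)) := by
          linarith
      _ = (C2 * 4 ^ d + 2 * 9 ^ d) * (N : ℝ) ^ d * (1 + s) := by ring
  have h6 : n ^ 2 / 4 ≤ (n - 1) ^ 2 := by nlinarith
  have h7 : n ^ 2 / 4 * κ ≤ D * ((C2 * 4 ^ d + 2 * 9 ^ d) * (1 + s)) * n := by
    calc n ^ 2 / 4 * κ ≤ (D * (Z + 2 * ((8 : ℝ) * N + 1) ^ d)) * κ :=
          mul_le_mul_of_nonneg_right (h6.trans hDs) hκ.le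
      _ ≤ (D * ((C2 * 4 ^ d + 2 * 9 ^ d) * (N : ℝ) ^ d * (1 + s))) * κ :=
          mul_le_mul_of_nonneg_right (mul_le_mul_of_nonneg_left h5 hD0) hκ.le
      _ = D * ((C2 * 4 ^ d + 2 * 9 ^ d) * (1 + s)) * (κ * (N : ℝ) ^ d) := by ring
      _ ≤ D * ((C2 * 4 ^ d + 2 * 9 ^ d) * (1 + s)) * n :=
          mul_le_mul_of_nonneg_left hn (mul_nonneg hD0 (mul_nonneg hB0 (by linarith)))
  have h8 : n * κ ≤ 4 * (D * ((C2 * 4 ^ d + 2 * 9 ^ d) * (1 + s))) := by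
    have h9 : (n * κ) * n ≤ (4 * (D * ((C2 * 4 ^ d + 2 * 9 ^ d) * (1 + s)))) * n := by
      calc (n * κ) * n = 4 * (n ^ 2 / 4 * κ) := by ring
        _ ≤ 4 * (D * ((C2 * 4 ^ d + 2 * 9 ^ d) * (1 + s)) * n) := by linarith
        _ = (4 * (D * ((C2 * 4 ^ d + 2 * 9 ^ d) * (1 + s)))) * n := by ring
    exact le_of_mul_le_mul_right h9 (by linarith)
  calc n ≤ 4 * (D * ((C2 * 4 ^ d + 2 * 9 ^ d) * (1 + s))) / κ := by
        rw [le_div_iff₀ hκ]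
        exact h8
    _ = (4 * (C2 * 4 ^ d + 2 * 9 ^ d) / κ) * (D * (1 + s)) := by ring
    _ ≤ max 1 (4 * (C2 * 4 ^ d + 2 * 9 ^ d) / κ) * (D * (1 + s)) :=
        mul_le_mul_of_nonneg_right (le_max_right _ _) (mul_nonneg hD0 (by linarith))
    _ = max 1 (4 * (C2 * 4 ^ d + 2 * 9 ^ d) / κ) * D * (1 + s) := by ring

theorem AsmA (d : ℕ) (hd : 1 ≤ d) (κ : ℝ) (hκ : 0 < κ) (C5 : ℝ) (hC5 : 1 ≤ C5) : ∃ C : ℝ, 1 ≤ C ∧
    ∀ v : Fin d → ℂ, LinearIndependent ℚ v → ∀ (N : ℕ) (A : Finset ℂ),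
      (∀ z ∈ A, ∃ x, nm x ≤ N ∧ z = L v x) → κ * (N : ℝ) ^ d ≤ A.card → 2 ≤ A.card →
      ∀ Lg : ℝ, Lg = 1 + Real.log ((4 * N : ℕ) : ℝ) →
      (A.card : ℝ) ≤ C * numDist A * Lg ∧
      ((A.card : ℝ) ≤ C * numDist A * (1 + Real.log Lg) ^ 2 ∨
        ∃ (M : ℕ) (δ : ℝ), 1 ≤ M ∧ M ≤ 4 * N ∧ 0 < δ ∧ δ ≤ 1 ∧ 1 ≤ δ * Lg ∧
          (A.card : ℝ) ≤ C * numDist A * (δ * Lg) ∧ C5 * Lg ^ 2 ≤ 2 * M + 1 ∧
          C5 ≤ δ * (2 * M + 1) ∧ δ * (2 * M + 1) ^ d < cnt (SH v ⌈Lg⌉₊) M) := by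
  obtain ⟨C4, hC4, hA0⟩ := AsmA0 d hd κ hκ
  obtain ⟨Cs, hCs, hSc⟩ := Sc1 d hd
  have hlogC5 : 0 ≤ Real.log (2 * C5) := Real.log_nonneg (by linarith)
  obtain ⟨C7, hC7⟩ : ∃ C7, C7 = Cs * (1 + Real.log (2 * C5)) := ⟨_, rfl⟩
  have hC70 : 0 ≤ C7 := by rw [hC7]; exact mul_nonneg (by linarith) (by linarith)
  obtain ⟨C6, hC6⟩ : ∃ C6, C6 = 4 * C4 * Cs := ⟨_, rfl⟩
  have hC60 : 0 < C6 := by rw [hC6]; positivity
  obtain ⟨C, hC⟩ : ∃ C, C = max C6 (4 * C4 * (1 + C7)) := ⟨_, rfl⟩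
  have hCC6 : C6 ≤ C := by rw [hC]; exact le_max_left _ _
  have hCC7 : 4 * C4 * (1 + C7) ≤ C := by rw [hC]; exact le_max_right _ _
  have hC1 : 1 ≤ C := by
    refine le_trans ?_ hCC6
    rw [hC6]
    nlinarith
  refine ⟨C, hC1, ?_⟩
  intro v hv N A hA hn h2 Lg hLg
  obtain ⟨hN, hmain⟩ := hA0 v hv N A hA hn h2
  rw [← hLg] at hmain
  have hR1 : 1 ≤ 4 * N := by omega
  have hLg1 : 1 ≤ Lg := by
    rw [hLg]
    have : 0 ≤ Real.log ((4 * N : ℕ) : ℝ) := Real.log_nonneg (by exact_mod_cast hR1)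
    linarith
  obtain ⟨S, hS⟩ : ∃ S, S = SH v ⌈Lg⌉₊ := ⟨_, rfl⟩
  rw [← hS] at hmain ⊢
  obtain ⟨n, hn'⟩ : ∃ n : ℝ, n = (A.card : ℝ) := ⟨_, rfl⟩
  obtain ⟨D, hD⟩ : ∃ D : ℝ, D = (numDist A : ℝ) := ⟨_, rfl⟩
  have hn2 : 2 ≤ n := by rw [hn']; exact_mod_cast h2
  have hD1 : 1 ≤ D := by
    rw [hD]
    have h1 : 1 ≤ numDist A := by
      unfold numDist
      rw [Nat.one_le_iff_ne_zero, ← Nat.pos_iff_ne_zero, Finset.card_pos]
      apply Finset.Nonempty.image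
      obtain ⟨a, ha, b, hb, hab⟩ := Finset.one_lt_card.1 (show 1 < A.card by omega)
      exact ⟨(a, b), Finset.mem_offDiag.2 ⟨ha, hb, hab⟩⟩
    exact_mod_cast h1
  rw [← hn', ← hD] at hmain ⊢
  -- the first bound
  have hfirst : n ≤ C * D * Lg := by
    have h1 := hSc S 1 1 (4 * N) (by norm_num) le_rfl hR1 (fun M _ _ => by
      rw [one_mul]
      exact_mod_cast cnt_le S M)
    rw [Nat.cast_one, Real.log_one, add_zero, mul_one, ← hLg] at h1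
    have h3 : 1 + SS S (4 * N) ≤ 3 * (Cs * Lg) := by nlinarith
    have h4 : C4 * D * (1 + SS S (4 * N)) ≤ C4 * D * (3 * (Cs * Lg)) :=
      mul_le_mul_of_nonneg_left h3 (by positivity)
    have h5 : C4 * D * (3 * (Cs * Lg)) ≤ C6 * D * Lg := by
      have h6 : 0 ≤ C4 * D * Cs * Lg := by positivity
      calc C4 * D * (3 * (Cs * Lg)) = 3 * (C4 * D * Cs * Lg) := by ring
        _ ≤ 4 * (C4 * D * Cs * Lg) := by linarith
        _ = C6 * D * Lg := by rw [hC6]; ring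
    have h6 : C6 * D * Lg ≤ C * D * Lg := by
      apply mul_le_mul_of_nonneg_right _ (by linarith)
      exact mul_le_mul_of_nonneg_right hCC6 (by linarith)
    linarith
  refine ⟨hfirst, ?_⟩
  by_cases hbig : n ≤ C * D * (1 + Real.log Lg) ^ 2
  · exact Or.inl hbig
  right
  push Not at hbig
  obtain ⟨l, hl⟩ : ∃ l, l = Real.log Lg := ⟨_, rfl⟩
  rw [← hl] at hbig
  have hl0 : 0 ≤ l := by rw [hl]; exact Real.log_nonneg hLg1
  have hl1 : 1 ≤ (1 + l) ^ 2 := one_le_pow₀ (by linarith)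
  obtain ⟨M0, hM0⟩ : ∃ M0 : ℕ, M0 = ⌈C5 * Lg ^ 2⌉₊ := ⟨_, rfl⟩
  have hCL : 1 ≤ C5 * Lg ^ 2 := by nlinarith [one_le_pow₀ (n := 2) hLg1]
  have hM0a : C5 * Lg ^ 2 ≤ M0 := by rw [hM0]; exact Nat.le_ceil _
  have hM0b : (M0 : ℝ) ≤ 2 * C5 * Lg ^ 2 := by
    have := Nat.ceil_lt_add_one (show 0 ≤ C5 * Lg ^ 2 by linarith)
    rw [← hM0] at this
    linarith
  have hM01 : 1 ≤ M0 := by
    have : (1 : ℝ) ≤ M0 := hCL.trans hM0a
    exact_mod_cast this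
  have hlogM0 : Cs * (1 + Real.log M0) ≤ C7 * (1 + l) ^ 2 := by
    have h1 : Real.log M0 ≤ Real.log (2 * C5) + 2 * l := by
      have h3 : Real.log M0 ≤ Real.log (2 * C5 * Lg ^ 2) := Real.log_le_log (by exact_mod_cast hM01) hM0b
      rw [Real.log_mul (by positivity) (by positivity), Real.log_pow, ← hl] at h3
      exact_mod_cast h3
    have h3 : 1 + Real.log M0 ≤ (1 + Real.log (2 * C5)) * (1 + l) ^ 2 := by nlinarith
    calc Cs * (1 + Real.log M0) ≤ Cs * ((1 + Real.log (2 * C5)) * (1 + l) ^ 2) :=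
          mul_le_mul_of_nonneg_left h3 (by linarith)
      _ = C7 * (1 + l) ^ 2 := by rw [hC7]; ring
  obtain ⟨δ, hδ⟩ : ∃ δ, δ = n / (C6 * D * Lg) := ⟨_, rfl⟩
  have hδ0 : 0 < δ := by rw [hδ]; positivity
  have hδL : C6 * D * (δ * Lg) = n := by
    rw [hδ]
    field_simp
  have hex : ∃ M, M0 ≤ M ∧ M ≤ 4 * N ∧ δ * (2 * M + 1) ^ d < cnt S M := by
    by_contra hcon
    push Not at hcon
    have h1 := hSc S δ M0 (4 * N) hδ0.le hM01 hR1 (fun M h3 h4 => hcon M h3 h4)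
    rw [← hLg] at h1
    have h3 : C4 * D * (1 + SS S (4 * N)) ≤ C4 * D * (1 + C7 * (1 + l) ^ 2 + Cs * δ * Lg) :=
      mul_le_mul_of_nonneg_left (by linarith) (by positivity)
    have h4 : C4 * D * (Cs * δ * Lg) = n / 4 := by
      have : C4 * D * (Cs * δ * Lg) = (C6 * D * (δ * Lg)) / 4 := by rw [hC6]; ring
      rw [this, hδL]
    have h5 : C4 * D * (1 + C7 * (1 + l) ^ 2) ≤ C4 * D * ((1 + C7) * (1 + l) ^ 2) :=
      mul_le_mul_of_nonneg_left (by linarith) (by positivity)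
    have h6 : 4 * (C4 * D * ((1 + C7) * (1 + l) ^ 2)) ≤ C * D * (1 + l) ^ 2 := by
      calc 4 * (C4 * D * ((1 + C7) * (1 + l) ^ 2)) = (4 * C4 * (1 + C7)) * (D * (1 + l) ^ 2) := by ring
        _ ≤ C * (D * (1 + l) ^ 2) := mul_le_mul_of_nonneg_right hCC7 (by positivity)
        _ = C * D * (1 + l) ^ 2 := by ring
    have h7 : C4 * D * (1 + C7 * (1 + l) ^ 2 + Cs * δ * Lg) =
        C4 * D * (1 + C7 * (1 + l) ^ 2) + C4 * D * (Cs * δ * Lg) := by ring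
    rw [h7, h4] at h3
    linarith
  obtain ⟨M, hM1, hM2, hM3⟩ := hex
  have hMr : (M0 : ℝ) ≤ M := by exact_mod_cast hM1
  have hδL1 : 1 ≤ δ * Lg := by
    have h1 : C6 * D ≤ n := by
      have h3 : C6 * D ≤ C * D * (1 + l) ^ 2 := by
        calc C6 * D ≤ C * D := mul_le_mul_of_nonneg_right hCC6 (by linarith)
          _ ≤ C * D * (1 + l) ^ 2 := le_mul_of_one_le_right (by positivity) hl1
      linarith
    rw [← hδL] at h1
    have h3 : 0 < C6 * D := by positivity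
    by_contra hcon
    push Not at hcon
    have := mul_lt_mul_of_pos_left hcon h3
    linarith
  refine ⟨M, δ, by omega, hM2, hδ0, ?_, hδL1, ?_, by linarith, ?_, hM3⟩
  · have h1 : (cnt S M : ℝ) ≤ (2 * M + 1) ^ d := by exact_mod_cast cnt_le S M
    have h3 : (0 : ℝ) < (2 * M + 1) ^ d := by positivity
    have h4 : δ * (2 * (M : ℝ) + 1) ^ d < 1 * (2 * M + 1) ^ d := by linarith
    exact (lt_of_mul_lt_mul_right h4 h3.le).le
  · calc n = C6 * D * (δ * Lg) := hδL.symm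
      _ ≤ C * D * (δ * Lg) := by
        apply mul_le_mul_of_nonneg_right _ (by linarith)
        exact mul_le_mul_of_nonneg_right hCC6 (by linarith)
  · have h1 : C5 * Lg ^ 2 ≤ 2 * M + 1 := by linarith
    calc C5 ≤ C5 * Lg := le_mul_of_one_le_right (by linarith) hLg1
      _ ≤ (δ * Lg) * (C5 * Lg) := le_mul_of_one_le_left (by positivity) hδL1
      _ = δ * (C5 * Lg ^ 2) := by ring
      _ ≤ δ * (2 * M + 1) := mul_le_mul_of_nonneg_left h1 hδ0.le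

end Pool.Agent.RL
end

section

/-!
# TASK RL AsmB: a dense scale gives a rich line

PROOF.  Let `Cf` be the constant of `Rf` for `C1 = 1`.  `n = |A|`, `w = Pi.single i 1`, `L v w = v i`.
If `N = 0` then `A = {0}` and `p = 0` works (`√1 ≤ C * 1 * 1`).  Let `N ≥ 1`.  Take `A0, A1, G` from `Gd`, `γ, ℓ` from `Rf`.  Let `q = ⌈exp (Cf/δ (1 + log Lg)²)⌉₊`, `1 ≤ q ≤ 2 exp (...)`.  By `Ct`
`cnt {y | A1.mulVec y = 0} N ≥ (2 (N/(2mq)) + 1)^m ≥ (N/(2 m q))^m` (real numbers; `2 ⌊x⌋ + 1 ≥ x`), and `cnt (Mo v w) N` is at least as large (`cnt_mono`).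
`Tr`: `n (N/(2mq))^m ≤ (4N+1)^(2m) l ≤ (5N)^(2m) l`, `l` the number of points on the line.  With `n ≥ κ N^(2m)`: `N^m ≤ κ⁻¹ 5^(2m) (2 m q)^m l`.  Finally
`n ≤ (2N+1)^(2m) ≤ (3N)^(2m)` (`card_Bx`; `A` is contained in the image of the box), so `√n ≤ (3N)^m ≤ 3^m κ⁻¹ 25^m (2m)^m q^m l` and `q^m ≤ 2^m exp (m Cf/δ (1 + log Lg)²)`.
-/

set_option autoImplicit false

open Finset

namespace Pool.Agent.RL

private theorem AsmB_final {m : ℕ} (hm : 1 ≤ m) {κ n N q E l c : ℝ} (hκ : 0 < κ) (hN : 1 ≤ N) (hq : 1 ≤ q)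
    (hqE : q ≤ 2 * E) (hl : 0 ≤ l) (hn : 0 ≤ n) (h1 : κ * N ^ (m + m) ≤ n) (h2 : n ≤ (2 * N + 1) ^ (m + m))
    (h3 : n * c ≤ (4 * N + 1) ^ (m + m) * l) (h4 : (N / ((m + m) * q)) ^ m ≤ c) :
    Real.sqrt n ≤ κ⁻¹ * (300 * m) ^ m * E ^ m * l := by
  have hm' : (1 : ℝ) ≤ m := by exact_mod_cast hm
  have hN0 : 0 < N := by linarith
  have hq0 : 0 < q := by linarith
  have hE : 0 < E := by linarith
  have e1 : Real.sqrt n ≤ (3 * N) ^ m := by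
    rw [Real.sqrt_le_left (by positivity)]
    refine h2.trans ?_
    rw [← pow_mul, mul_two]
    exact pow_le_pow_left₀ (by positivity) (by linarith) _
  have e2 : κ * N ^ (m + m) * (N / ((m + m) * q)) ^ m ≤ (5 * N) ^ (m + m) * l := by
    calc κ * N ^ (m + m) * (N / ((m + m) * q)) ^ m ≤ n * (N / ((m + m) * q)) ^ m :=
          mul_le_mul_of_nonneg_right h1 (by positivity)
      _ ≤ n * c := mul_le_mul_of_nonneg_left h4 hn
      _ ≤ (4 * N + 1) ^ (m + m) * l := h3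
      _ ≤ (5 * N) ^ (m + m) * l :=
          mul_le_mul_of_nonneg_right (pow_le_pow_left₀ (by positivity) (by linarith) _) hl
  have e3 : κ * (N / ((m + m) * q)) ^ m ≤ 5 ^ (m + m) * l := by
    have e4 : (5 * N) ^ (m + m) * l = N ^ (m + m) * (5 ^ (m + m) * l) := by
      rw [mul_pow]
      ring
    have e5 : κ * N ^ (m + m) * (N / ((m + m) * q)) ^ m = N ^ (m + m) * (κ * (N / ((m + m) * q)) ^ m) := by ring
    rw [e4, e5] at e2
    exact le_of_mul_le_mul_left e2 (by positivity)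
  have e6 : N ^ m ≤ κ⁻¹ * (5 ^ (m + m) * l) * ((m + m) * q) ^ m := by
    rw [div_pow] at e3
    have e7 : N ^ m / ((m + m) * q) ^ m ≤ κ⁻¹ * (5 ^ (m + m) * l) := by
      rw [inv_mul_eq_div, le_div_iff₀ hκ]
      linarith
    rwa [div_le_iff₀ (by positivity)] at e7
  have e8 : ((m + m) * q) ^ m ≤ ((m + m) * (2 * E)) ^ m :=
    pow_le_pow_left₀ (by positivity) (mul_le_mul_of_nonneg_left hqE (by positivity)) _
  calc Real.sqrt n ≤ (3 * N) ^ m := e1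
    _ = 3 ^ m * N ^ m := mul_pow _ _ _
    _ ≤ 3 ^ m * (κ⁻¹ * (5 ^ (m + m) * l) * ((m + m) * q) ^ m) := mul_le_mul_of_nonneg_left e6 (by positivity)
    _ ≤ 3 ^ m * (κ⁻¹ * (5 ^ (m + m) * l) * ((m + m) * (2 * E)) ^ m) := by
        refine mul_le_mul_of_nonneg_left (mul_le_mul_of_nonneg_left e8 ?_) (by positivity)
        have := inv_pos.2 hκ
        positivity
    _ = κ⁻¹ * (300 * m) ^ m * E ^ m * l := by
        have e9 : ((300 : ℝ) * m) ^ m = 3 ^ m * 5 ^ (m + m) * ((m + m) * 2) ^ m := by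
          rw [pow_add, ← mul_pow, ← mul_pow, ← mul_pow]
          congr 1
          ring
        rw [e9]
        have e10 : (((m : ℝ) + m) * (2 * E)) ^ m = ((m + m) * 2) ^ m * E ^ m := by
          rw [← mul_pow]
          congr 1
          ring
        rw [e10]
        ring

theorem AsmB (m : ℕ) (hm : 1 ≤ m) (κ : ℝ) (hκ : 0 < κ) : ∃ C : ℝ, 1 ≤ C ∧
    ∀ v : Fin (m + m) → ℂ, LinearIndependent ℚ v → ∀ (N : ℕ) (A : Finset ℂ),
      (∀ z ∈ A, ∃ x, nm x ≤ N ∧ z = L v x) → κ * (N : ℝ) ^ (m + m) ≤ A.card → 1 ≤ A.card →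
      ∀ i : Fin (m + m), rk (Mo v (Pi.single i 1) : Set (Fin (m + m) → ℤ)) = m →
      ∀ (M H : ℕ) (δ Lg : ℝ), 1 ≤ M → 1 ≤ H → 1 ≤ Lg → 0 < δ → δ ≤ 1 → 1 ≤ δ * Lg →
        (H : ℝ) ≤ 2 * Lg → Real.log M ≤ Lg → C * Lg ^ 2 ≤ 2 * M + 1 → 2 ≤ δ * (2 * M + 1) →
        δ * (2 * M + 1) ^ (m + m) < cnt (SH v H) M →
        ∃ p : ℂ, Real.sqrt A.card ≤
          C * Real.exp (C / δ * (1 + Real.log Lg) ^ 2) * (onLine A p (v i)).card := by
  obtain ⟨Cf, hCf, hRf⟩ := Rf m hm 1 le_rfl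
  have hm' : (1 : ℝ) ≤ m := by exact_mod_cast hm
  have hκ' := inv_pos.2 hκ
  have hD0 : 0 ≤ κ⁻¹ * (300 * (m : ℝ)) ^ m := by positivity
  have hCfm : Cf ≤ Cf * m := by nlinarith
  refine ⟨1 + Cf * m + κ⁻¹ * (300 * (m : ℝ)) ^ m, by linarith, ?_⟩
  intro v hv N A hA hκA hA1 i hrk M H δ Lg hM hH hLg hδ0 hδ1 hδLg hHLg hMLg hCLg hδM hS
  have hC1 : 1 ≤ 1 + Cf * m + κ⁻¹ * (300 * (m : ℝ)) ^ m := by linarith
  have hexp : ∀ c : ℝ, 0 ≤ c → 1 ≤ Real.exp (c / δ * (1 + Real.log Lg) ^ 2) := fun c hc =>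
    Real.one_le_exp (by positivity)
  rcases Nat.eq_zero_or_pos N with rfl | hN
  · have hz : ∀ z ∈ A, z = 0 := by
      intro z hz
      obtain ⟨x, hx, rfl⟩ := hA z hz
      have hx0 : x = 0 := by
        by_contra h
        have := nm_pos h
        omega
      rw [hx0, L_zero]
    have hcard : A.card ≤ 1 := Finset.card_le_one.2 fun a ha b hb => (hz a ha).trans (hz b hb).symm
    have hcard' : A.card = 1 := le_antisymm hcard hA1
    refine ⟨0, ?_⟩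
    have h1 : 1 ≤ (onLine A 0 (v i)).card := by
      obtain ⟨z, hzA⟩ := Finset.card_pos.1 hA1
      refine Finset.card_pos.2 ⟨z, ?_⟩
      classical
      simp only [onLine, Finset.mem_filter]
      refine ⟨hzA, 0, ?_⟩
      rw [hz z hzA]
      simp
    have h1' : (1 : ℝ) ≤ (onLine A 0 (v i)).card := by exact_mod_cast h1
    rw [hcard', Nat.cast_one, Real.sqrt_one]
    have h2 := hexp (1 + Cf * m + κ⁻¹ * (300 * (m : ℝ)) ^ m) (by linarith)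
    have h3 := one_le_mul_of_one_le_of_one_le hC1 h2
    exact one_le_mul_of_one_le_of_one_le h3 h1'
  · obtain ⟨A0, A1, G, hG, hGc, hHyp, hker⟩ := Gd hm hv i hrk hδM hS
    have hCf2 : Cf * Lg ^ 2 ≤ 2 * M + 1 := by
      refine le_trans ?_ hCLg
      exact mul_le_mul_of_nonneg_right (by linarith) (by positivity)
    obtain ⟨γ, ℓ, hγ, hℓ, hℓ0, hℓb⟩ := hRf A0 A1 G M H δ Lg hM hH hLg hδ0 hδ1 (by rwa [one_mul]) hHLg hMLg
      hCf2 hG hGc hHyp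
    have hE1 := hexp Cf (by linarith)
    have hq : 1 ≤ ⌈Real.exp (Cf / δ * (1 + Real.log Lg) ^ 2)⌉₊ := Nat.one_le_ceil_iff.2 (by linarith)
    have hqle := Nat.le_ceil (Real.exp (Cf / δ * (1 + Real.log Lg) ^ 2))
    have hqlt := Nat.ceil_lt_add_one (a := Real.exp (Cf / δ * (1 + Real.log Lg) ^ 2)) (by linarith)
    generalize hqq : ⌈Real.exp (Cf / δ * (1 + Real.log Lg) ^ 2)⌉₊ = q at hq hqle hqlt
    have hb : ∀ f, |ℓ f| ≤ q := by
      intro f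
      have := (hℓb f).trans hqle
      exact_mod_cast this
    have hct := Ct A1 hγ hℓ hℓ0 hq hb N
    have hw : (Pi.single i (1 : ℤ) : Fin (m + m) → ℤ) ≠ 0 := by
      intro h
      have := congrFun h i
      rw [Pi.single_eq_same] at this
      exact one_ne_zero this
    have hcm : cnt {y : Fin (m + m) → ℤ | A1.mulVec y = 0} N ≤ cnt (Mo v (Pi.single i 1) : Set (Fin (m + m) → ℤ)) N :=
      cnt_mono (fun y hy => hker y hy) N
    obtain ⟨p, hp⟩ := Tr hv A N hA hw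
    rw [L_single] at hp
    refine ⟨p, ?_⟩
    have hcA : A.card ≤ (2 * N + 1) ^ (m + m) := by
      rw [← card_Bx]
      have hsub : A ⊆ (Bx (m + m) N).image (L v) := by
        intro z hz
        obtain ⟨x, hx, rfl⟩ := hA z hz
        exact Finset.mem_image.2 ⟨x, mem_Bx.2 hx, rfl⟩
      exact (Finset.card_le_card hsub).trans Finset.card_image_le
    have hNr : (1 : ℝ) ≤ N := by exact_mod_cast hN
    have hqr : (1 : ℝ) ≤ q := by exact_mod_cast hq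
    have h4 : ((N : ℝ) / ((m + m) * q)) ^ m ≤
        (cnt (Mo v (Pi.single i 1) : Set (Fin (m + m) → ℤ)) N : ℝ) := by
      have h5 : ((2 * (N / ((m + m) * q)) + 1) ^ m : ℕ) ≤ cnt (Mo v (Pi.single i 1) : Set (Fin (m + m) → ℤ)) N :=
        hct.trans hcm
      have h6 : (((2 * (N / ((m + m) * q)) + 1) ^ m : ℕ) : ℝ) ≤
          (cnt (Mo v (Pi.single i 1) : Set (Fin (m + m) → ℤ)) N : ℝ) := by exact_mod_cast h5
      refine le_trans ?_ h6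
      rw [Nat.cast_pow]
      refine pow_le_pow_left₀ (by positivity) ?_ m
      have hpos : 0 < (m + m) * q := Nat.mul_pos (by omega) hq
      have h7 : N < (N / ((m + m) * q) + 1) * ((m + m) * q) := by
        have h8 := Nat.div_add_mod N ((m + m) * q)
        have h9 := Nat.mod_lt N hpos
        have h10 : (N / ((m + m) * q) + 1) * ((m + m) * q) = (m + m) * q * (N / ((m + m) * q)) + (m + m) * q := by ring
        omega
      have h7' : (N : ℝ) < ((N / ((m + m) * q) : ℕ) + 1) * ((m + m) * q) := by exact_mod_cast h7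
      rw [div_le_iff₀ (by positivity)]
      have h11 : ((2 * (N / ((m + m) * q)) + 1 : ℕ) : ℝ) = 2 * ((N / ((m + m) * q) : ℕ) : ℝ) + 1 := by push_cast; ring
      rw [h11]
      refine h7'.le.trans (mul_le_mul_of_nonneg_right ?_ (by positivity))
      have h12 : (0 : ℝ) ≤ ((N / ((m + m) * q) : ℕ) : ℝ) := Nat.cast_nonneg _
      linarith
    have h3 : (A.card : ℝ) * (cnt (Mo v (Pi.single i 1) : Set (Fin (m + m) → ℤ)) N : ℝ) ≤
        (4 * N + 1) ^ (m + m) * ((onLine A p (v i)).card : ℝ) := by exact_mod_cast hp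
    have h2 : (A.card : ℝ) ≤ (2 * N + 1) ^ (m + m) := by exact_mod_cast hcA
    have hfin := AsmB_final hm hκ hNr hqr (E := Real.exp (Cf / δ * (1 + Real.log Lg) ^ 2)) (by linarith)
      (Nat.cast_nonneg _) (Nat.cast_nonneg _) hκA h2 h3 h4
    refine hfin.trans ?_
    refine mul_le_mul_of_nonneg_right ?_ (Nat.cast_nonneg _)
    refine mul_le_mul (by linarith) ?_ (by positivity) (by linarith)
    rw [← Real.exp_nat_mul]
    apply Real.exp_le_exp.2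
    have h13 : (m : ℝ) * (Cf / δ * (1 + Real.log Lg) ^ 2) = (Cf * m) / δ * (1 + Real.log Lg) ^ 2 := by ring
    rw [h13]
    refine mul_le_mul_of_nonneg_right ?_ (by positivity)
    exact div_le_div_of_nonneg_right (by linarith) hδ0.le

end Pool.Agent.RL
end
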